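import Pool.Agent.R494.SQ9
import Pool.Agent.R426.QB.Fld

/-!
The square classes of a family of twists over a multiquadratic field, and the joint proportion.
-/

set_option autoImplicit false

open scoped Classical

namespace Pool.Agent.R494.AV

open Finset Filter Topology
open Pool.Agent.R426.QB (Pc Ac Ac8 ac8_iff prod_symmDiff prod_symmDiff_nat isSquare_of_mul sqf_prod
  ac_prod Cz)
open Pool.Agent.Y703.CQ (Sp nr Gd Cl ff c2)
open Pool.Agent.Y698.SG (n4)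
open Pool.Agent.R494.SQ (q4 Fa di Pos lawD pos_mix pos_mask)

theorem n4_eq (p : ℕ) : n4 p = q4 p := by
  unfold Pool.Agent.Y698.SG.n4 Pool.Agent.R494.SQ.q4
  split_ifs <;> rfl

/-- the diagonals of the two curves -/
noncomputable def Fc (c : Bool) (p : ℕ) : ZMod 2 := if c = true then n4 p else ff p

/-- `z` is `D` up to squares -/
def Us (z : ℤ) (D : ℕ) : Prop := ∃ k : ℤ, k ≠ 0 ∧ z = (D : ℤ) * k ^ 2

theorem Us.ne {z : ℤ} {D : ℕ} (h : Us z D) (hD : D ≠ 0) : z ≠ 0 := by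
  obtain ⟨k, hk, rfl⟩ := h
  exact mul_ne_zero (by exact_mod_cast hD) (pow_ne_zero 2 hk)

theorem Us.cz {z : ℤ} {D : ℕ} (h : Us z D) : Cz z D := by
  obtain ⟨k, hk, h⟩ := h
  exact ⟨k, hk, Or.inl h⟩

theorem Us.mul {y z : ℤ} {S T : Finset ℕ} (hST : ∀ p ∈ S ∩ T, p ≠ 0) (h : Us y (∏ p ∈ S, p))
    (h' : Us z (∏ p ∈ T, p)) : Us (y * z) (∏ p ∈ symmDiff S T, p) := by
  have h0 : ((∏ p ∈ S ∩ T, p : ℕ) : ℤ) ≠ 0 := by
    rw [Nat.cast_ne_zero]
    exact Finset.prod_ne_zero_iff.2 hST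
  have h2 : ((∏ p ∈ S, p : ℕ) : ℤ) * ((∏ p ∈ T, p : ℕ) : ℤ) =
      ((∏ p ∈ symmDiff S T, p : ℕ) : ℤ) * ((∏ p ∈ S ∩ T, p : ℕ) : ℤ) ^ 2 := by
    exact_mod_cast prod_symmDiff_nat S T
  obtain ⟨k, hk, he⟩ := h
  obtain ⟨k', hk', he'⟩ := h'
  rw [he, he']
  refine ⟨((∏ p ∈ S ∩ T, p : ℕ) : ℤ) * k * k', mul_ne_zero (mul_ne_zero h0 hk) hk', ?_⟩
  linear_combination (k ^ 2 * k' ^ 2) * h2

/-- a number of the class up to squares -/
def AdS (z : ℤ) : Prop := ∃ D : ℕ, Ac8 D ∧ Us z D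

theorem odd_sq {S : Finset ℕ} (hS : ∀ p ∈ S, Pc p) : (∏ p ∈ S, p) ^ 2 % 8 = 1 := by
  have h : (∏ p ∈ S, p) % 2 = 1 := by
    induction S using Finset.induction_on with
    | empty => simp
    | insert a s ha ih =>
      rw [Finset.prod_insert ha, Nat.mul_mod, ih fun p hp => hS p (mem_insert_of_mem hp)]
      have := (hS a (mem_insert_self _ _)).or8
      omega
  set x := ∏ p ∈ S, p with hx
  have : x % 8 = 1 ∨ x % 8 = 3 ∨ x % 8 = 5 ∨ x % 8 = 7 := by omega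
  rw [pow_two, Nat.mul_mod]
  rcases this with h | h | h | h <;> rw [h]

theorem ac8_symm {S T : Finset ℕ} (hS : ∀ p ∈ S, Pc p) (hT : ∀ p ∈ T, Pc p)
    (h1 : (∏ p ∈ S, p) % 8 = 1) (h2 : (∏ p ∈ T, p) % 8 = 1) : Ac8 (∏ p ∈ symmDiff S T, p) := by
  refine ⟨ac_prod fun p hp => ?_, ?_⟩
  · rcases Finset.mem_symmDiff.1 hp with h | h
    · exact hS p h.1
    · exact hT p h.1
  · have h3 : ((∏ p ∈ S, p) * ∏ p ∈ T, p) % 8 =
        ((∏ p ∈ symmDiff S T, p) * (∏ p ∈ S ∩ T, p) ^ 2) % 8 := by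
      rw [prod_symmDiff_nat S T]
    rw [Nat.mul_mod, h1, h2, Nat.mul_mod (∏ p ∈ symmDiff S T, p),
      odd_sq fun p hp => hS p (mem_inter.1 hp).1] at h3
    omega

theorem AdS.mul {y z : ℤ} (h : AdS y) (h' : AdS z) : AdS (y * z) := by
  obtain ⟨D, hD, hy⟩ := h
  obtain ⟨D', hD', hz⟩ := h'
  rw [← hD.1.prod] at hy
  rw [← hD'.1.prod] at hz
  refine ⟨_, ac8_symm hD.1.2 hD'.1.2 ?_ ?_, Us.mul (fun p hp => ?_) hy hz⟩
  · rw [hD.1.prod]
    exact hD.2
  · rw [hD'.1.prod]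
    exact hD'.2
  · exact (hD.1.2 p (mem_inter.1 hp).1).1.ne_zero

theorem AdS.one : AdS 1 := ⟨1, ⟨⟨squarefree_one, by simp⟩, by norm_num⟩, 1, one_ne_zero, by norm_num⟩

theorem AdS.prod {n : ℕ} {d : Fin n → ℤ} (h : ∀ i, AdS (d i)) (T : Finset (Fin n)) :
    AdS (∏ i ∈ T, d i) := by
  induction T using Finset.induction_on with
  | empty => rw [Finset.prod_empty]; exact AdS.one
  | insert a s ha ih => rw [Finset.prod_insert ha]; exact (h a).mul ih

theorem AdS.ne {z : ℤ} (h : AdS z) : z ≠ 0 := by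
  obtain ⟨D, hD, hz⟩ := h
  exact hz.ne hD.1.1.ne_zero

theorem AdS.nat {D : ℕ} (h : Ac8 D) : AdS D := ⟨D, h, 1, one_ne_zero, by norm_num⟩

/-- the sets of the primes of the class -/
abbrev Ps : Type := {V : Finset ℕ // ∀ u ∈ V, Pc u}

/-- the prime factors of the squarefree part -/
noncomputable def sf (z : ℤ) : Ps :=
  if h : AdS z then ⟨h.choose.primeFactors, h.choose_spec.1.1.2⟩ else ⟨∅, by simp⟩

theorem sf_spec {z : ℤ} (h : AdS z) : Us z (∏ p ∈ (sf z).1, p) ∧ Ac8 (∏ p ∈ (sf z).1, p) := by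
  unfold sf
  rw [dif_pos h]
  simp only
  rw [h.choose_spec.1.1.prod]
  exact ⟨h.choose_spec.2, h.choose_spec.1⟩

/-- the good numbers, through the matrix -/
def Gx (c : Bool) (M : ℤ) {n : ℕ} (d : Fin n → ℤ) : Prop := ∀ T : Finset (Fin n), ∃ D : ℕ,
  (Ac8 D ∧ Gd (Fc c) D.primeFactors) ∧ Us (M * ∏ i ∈ T, d i) D

theorem Gx_iff (c : Bool) {M : ℤ} {n : ℕ} {d : Fin n → ℤ} (hM : AdS M) (hd : ∀ i, AdS (d i)) {D : ℕ}
    (hD : Ac8 D) : Gx c (M * D) d ↔
      ∀ T : Finset (Fin n), Gd (Fc c) (symmDiff D.primeFactors (sf (M * ∏ i ∈ T, d i)).1) := by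
  refine forall_congr' fun T => ?_
  obtain ⟨h1, h2⟩ := sf_spec (hM.mul (AdS.prod hd T))
  set U := sf (M * ∏ i ∈ T, d i) with hU
  have h3 : Us (D : ℤ) (∏ p ∈ D.primeFactors, p) := by
    rw [hD.1.prod]
    exact ⟨1, one_ne_zero, by ring⟩
  have h4 := Us.mul (fun p hp => (U.2 p (mem_inter.1 hp).2).1.ne_zero) h3 h1
  have e : (D : ℤ) * (M * ∏ i ∈ T, d i) = M * D * ∏ i ∈ T, d i := by ring
  rw [e] at h4
  have h5 : Ac8 (∏ p ∈ symmDiff D.primeFactors U.1, p) :=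
    ac8_symm hD.1.2 U.2 (by rw [hD.1.prod]; exact hD.2) h2.2
  have h6 : (∏ p ∈ symmDiff D.primeFactors U.1, p).primeFactors = symmDiff D.primeFactors U.1 := by
    refine Nat.primeFactors_prod fun p hp => ?_
    rcases Finset.mem_symmDiff.1 hp with h | h
    · exact (hD.1.2 p h.1).1
    · exact (U.2 p h.1).1
  constructor
  · rintro ⟨D', ⟨hD', hG⟩, hz⟩
    have h7 := hz.cz.unique hD'.1.1 h5.1.1 h4.cz
    rwa [h7, h6] at hG
  · intro h
    exact ⟨_, ⟨h5, by rwa [h6]⟩, h4⟩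

/-- the index set -/
abbrev Ix : Type := Bool × Ps

theorem fa : Fa (fun x : Ix => Fc x.1) (fun x : Ix => x.2.1) := by
  have hpr : ∀ (V : Ps), ∀ u ∈ V.1, u.Prime ∧ u ≠ 2 ∧ u ≠ 7 := by
    intro V u hu
    have h1 := V.2 u hu
    refine ⟨h1.1, ?_, ?_⟩
    · rintro rfl
      have := h1.or8
      omega
    · rintro rfl
      have := h1.or8
      omega
  have hsd : ∀ (V W : Ps), ∀ u ∈ symmDiff V.1 W.1, u.Prime ∧ u ≠ 2 ∧ u ≠ 7 := by
    intro V W u hu
    rcases Finset.mem_symmDiff.1 hu with h | h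
    · exact hpr V u h.1
    · exact hpr W u h.1
  refine ⟨fun x => hpr x.2, ?_⟩
  have hmix := fun V W : Ps => pos_mix Pool.Agent.Y302.CQ.t_CHE (hsd V W)
  have hmask : ∀ V W : Ps, V ≠ W → Pos fun p => ∑ u ∈ symmDiff V.1 W.1, nr p u := by
    intro V W hne
    refine pos_mask ?_ (hsd V W)
    rw [Finset.nonempty_iff_ne_empty]
    intro h
    exact hne (Subtype.ext (symmDiff_eq_bot.1 h))
  rintro ⟨c, V⟩ ⟨c', W⟩ hne
  have e : di (fun x : Ix => Fc x.1) (fun x : Ix => x.2.1) (c, V) (c', W) =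
      fun p => Fc c p + Fc c' p + ∑ u ∈ symmDiff V.1 W.1, nr p u := rfl
  rw [e]
  have h2 : ∀ a : ZMod 2, a + a = 0 := by decide
  by_cases hc : c = c'
  · subst hc
    have hVW : V ≠ W := fun h => hne (by rw [h])
    have := hmask V W hVW
    simpa only [h2, zero_add] using this
  · have h3 : ∀ p, Fc c p + Fc c' p = ff p + q4 p := by
      intro p
      unfold Fc
      cases c <;> cases c'
      · exact absurd rfl hc
      · simp [n4_eq]
      · simp [n4_eq, add_comm]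
      · exact absurd rfl hc
    simpa only [h3] using hmix V W

/-- the family of the pairs -/
noncomputable def Pf {ι : Type} [Fintype ι] {n : ℕ} (d : Fin n → ℤ) (e : ι → Bool × ℤ) : Finset Ix :=
  ((univ.image e) ×ˢ (univ : Finset (Finset (Fin n)))).image fun x =>
    (x.1.1, sf (x.1.2 * ∏ i ∈ x.2, d i))

/-- the twists are pairwise different over the field -/
def Df {ι : Type} {n : ℕ} (d : Fin n → ℤ) (e : ι → Bool × ℤ) : Prop := ∀ i j, e i ≠ e j →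
  (e i).1 ≠ (e j).1 ∨ ∀ T : Finset (Fin n), ¬ IsSquare ((e i).2 * (e j).2 * ∏ t ∈ T, d t)

theorem card_Pf {ι : Type} [Fintype ι] {n : ℕ} {d : Fin n → ℤ} {e : ι → Bool × ℤ}
    (hd : ∀ T : Finset (Fin n), T.Nonempty → ¬ IsSquare (∏ i ∈ T, d i)) (ha : ∀ i, AdS (d i))
    (he : ∀ i, AdS (e i).2) (hdf : Df d e) : (Pf d e).card = 2 ^ n * (univ.image e).card := by
  unfold Pf
  rw [Finset.card_image_of_injOn, Finset.card_product, Finset.card_univ, Fintype.card_finset,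
    Fintype.card_fin, mul_comm]
  rintro ⟨x, T⟩ hx ⟨y, T'⟩ hy hxy
  rw [Finset.mem_coe, Finset.mem_product] at hx hy
  obtain ⟨i, -, hi⟩ := Finset.mem_image.1 hx.1
  obtain ⟨j, -, hj⟩ := Finset.mem_image.1 hy.1
  simp only at hi hj hxy
  subst hi
  subst hj
  obtain ⟨h1, h2⟩ := Prod.ext_iff.1 hxy
  simp only at h1 h2
  have k1 := (sf_spec ((he i).mul (AdS.prod ha T))).1
  have k2 := (sf_spec ((he j).mul (AdS.prod ha T'))).1
  rw [← h2] at k2
  obtain ⟨k, hk, e1⟩ := k1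
  obtain ⟨l, hl, e2⟩ := k2
  set A := ((∏ p ∈ (sf ((e i).2 * ∏ t ∈ T, d t)).1, p : ℕ) : ℤ) with hA
  have hprod := prod_symmDiff d T T'
  have h0 : (∏ t ∈ T ∩ T', d t) ≠ 0 := Finset.prod_ne_zero_iff.2 fun t _ => (ha t).ne
  have h3 : IsSquare ((e i).2 * (e j).2 * ∏ t ∈ symmDiff T T', d t) := by
    refine isSquare_of_mul (y := ∏ t ∈ T ∩ T', d t) (z := A * k * l) h0 ?_
    have e3 : (e i).2 * (e j).2 * (∏ t ∈ symmDiff T T', d t) * (∏ t ∈ T ∩ T', d t) ^ 2 =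
        ((e i).2 * ∏ t ∈ T, d t) * ((e j).2 * ∏ t ∈ T', d t) := by
      linear_combination -((e i).2 * (e j).2) * hprod
    rw [e3, e1, e2]
    ring
  by_cases hij : e i = e j
  · rw [Prod.ext_iff]
    refine ⟨hij, ?_⟩
    simp only
    by_contra hne
    have hne' : (symmDiff T T').Nonempty := by
      rw [Finset.nonempty_iff_ne_empty]
      intro h
      exact hne (symmDiff_eq_bot.1 h)
    refine hd _ hne' ?_
    have hsq : IsSquare (∏ t ∈ symmDiff T T', d t) := by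
      obtain ⟨w, hw⟩ := h3
      refine isSquare_of_mul (y := (e j).2) (z := w) (he j).ne ?_
      rw [hij] at hw
      linear_combination hw
    exact hsq
  · rcases hdf i j hij with h | h
    · exact absurd h1 h
    · exact absurd h3 (h _)

/-- **the joint proportion** -/
theorem joint {ι : Type} [Fintype ι] {n : ℕ} {d : Fin n → ℤ} {e : ι → Bool × ℤ}
    (hd : ∀ T : Finset (Fin n), T.Nonempty → ¬ IsSquare (∏ i ∈ T, d i)) (ha : ∀ i, AdS (d i))
    (he : ∀ i, AdS (e i).2) (hdf : Df d e) : Tendsto (fun X : ℕ =>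
      (((Icc 1 X).filter fun D : ℕ => Ac8 D ∧ ∀ i, Gx (e i).1 ((e i).2 * D) d).card : ℝ) /
      (((Icc 1 X).filter fun D : ℕ => Ac8 D).card : ℝ))
      atTop (nhds (c2 ^ (2 ^ n * (univ.image e).card))) := by
  have h := lawD {5} {0} Pool.Agent.R428.Q0.ok5 fa (Pf d e) ∅ (Finset.disjoint_empty_right _)
  rw [card_Pf hd ha he hdf, Finset.card_empty, pow_zero, mul_one] at h
  refine h.congr fun X => ?_
  have e1 : ((Icc 1 X).filter fun D : ℕ => Ac8 D ∧ ∀ i, Gx (e i).1 ((e i).2 * D) d) =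
      (Icc 1 X).filter fun D => Squarefree D ∧ Cl {5} {0} D.primeFactors ∧
        (∀ i ∈ Pf d e, Gd (Fc i.1) (symmDiff D.primeFactors i.2.1)) ∧
        ∀ i ∈ (∅ : Finset Ix), ¬ Gd (Fc i.1) (symmDiff D.primeFactors i.2.1) := by
    refine Finset.filter_congr fun D hD => ?_
    rw [← and_assoc, ← ac8_iff]
    refine and_congr_right fun hA => ?_
    constructor
    · intro h1
      refine ⟨?_, by simp⟩
      intro x hx
      obtain ⟨⟨y, T⟩, hy, rfl⟩ := Finset.mem_image.1 hx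
      rw [Finset.mem_product] at hy
      obtain ⟨i, -, rfl⟩ := Finset.mem_image.1 hy.1
      exact (Gx_iff _ (he i) ha hA).1 (h1 i) T
    · rintro ⟨h1, -⟩ i
      refine (Gx_iff _ (he i) ha hA).2 fun T => ?_
      exact h1 ((e i).1, sf ((e i).2 * ∏ t ∈ T, d t)) (Finset.mem_image.2
        ⟨(e i, T), Finset.mem_product.2 ⟨Finset.mem_image_of_mem _ (mem_univ i), mem_univ T⟩, rfl⟩)
  have e2 : ((Icc 1 X).filter fun D : ℕ => Ac8 D) =
      (Icc 1 X).filter fun D => Squarefree D ∧ Cl {5} {0} D.primeFactors :=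
    Finset.filter_congr fun D _ => ac8_iff D
  rw [e1, e2]

end Pool.Agent.R494.AV
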