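import Mathlib

set_option autoImplicit false

/-!
Syndetic subsets of an abelian group generate boundedly.
-/

namespace Pool.Agent.R494.BGen

open Finset

variable {G : Type} [AddCommGroup G]

/-- a semigroup generated by a syndetic set is a group -/
theorem neg_mem (S : Set G) (F : Finset G) (hF : ∀ w, ∃ s ∈ S, w - s ∈ F) (s : G) (hs : s ∈ S) :
    -s ∈ AddSubmonoid.closure S := by
  classical
  choose σ hσ hσF using hF
  -- the walk
  obtain ⟨f, hf0, hfs⟩ : ∃ f : ℕ → G, f 0 = 0 ∧ ∀ n, f (n + 1) = (f n - s) - σ (f n - s) :=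
    ⟨fun n => Nat.rec 0 (fun _ x => (x - s) - σ (x - s)) n, rfl, fun _ => rfl⟩
  have hmem : ∀ n, f (n + 1) ∈ F := fun n => by rw [hfs]; exact hσF _
  obtain ⟨i, j, hij, hfij⟩ : ∃ i j : ℕ, i < j ∧ f (i + 1) = f (j + 1) := by
    have h1 := Finset.exists_ne_map_eq_of_card_lt_of_maps_to (s := range (F.card + 1)) (t := F)
      (f := fun n => f (n + 1)) (by simp) (fun n _ => hmem n)
    obtain ⟨x, _, y, _, hxy, h2⟩ := h1
    rcases Nat.lt_or_gt_of_ne hxy with h | h
    · exact ⟨x, y, h, h2⟩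
    · exact ⟨y, x, h, h2.symm⟩
  have key : ∀ n, f (i + 1) - f (i + 1 + n) - n • s ∈ AddSubmonoid.closure S := by
    intro n
    induction n with
    | zero => simp
    | succ n ih =>
      have h1 : σ (f (i + 1 + n) - s) ∈ AddSubmonoid.closure S :=
        AddSubmonoid.subset_closure (hσ _)
      have h2 := AddSubmonoid.add_mem _ ih h1
      have h3 := hfs (i + 1 + n)
      convert h2 using 1
      rw [← add_assoc (i + 1) n 1, h3, add_smul, one_smul]
      abel
  obtain ⟨n, hn⟩ : ∃ n, j + 1 = i + 1 + (n + 1) := ⟨j - i - 1, by omega⟩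
  have h1 := key (n + 1)
  rw [← hn, ← hfij, sub_self, zero_sub] at h1
  have h2 : n • s ∈ AddSubmonoid.closure S :=
    AddSubmonoid.nsmul_mem _ (AddSubmonoid.subset_closure hs) n
  have h3 := AddSubmonoid.add_mem _ h1 h2
  convert h3 using 1
  rw [add_smul, one_smul]
  abel

theorem neg_mem' (S : Set G) (F : Finset G) (hF : ∀ w, ∃ s ∈ S, w - s ∈ F) (x : G)
    (hx : x ∈ AddSubmonoid.closure S) : -x ∈ AddSubmonoid.closure S := by
  induction hx using AddSubmonoid.closure_induction with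
  | mem x hx => exact neg_mem S F hF x hx
  | zero => rw [neg_zero]; exact AddSubmonoid.zero_mem _
  | add x y _ _ hx hy => rw [neg_add]; exact AddSubmonoid.add_mem _ hx hy

theorem mem_monoid (S : Set G) (F : Finset G) (hF : ∀ w, ∃ s ∈ S, w - s ∈ F) (x : G)
    (hx : x ∈ AddSubgroup.closure S) : x ∈ AddSubmonoid.closure S := by
  induction hx using AddSubgroup.closure_induction with
  | mem x hx => exact AddSubmonoid.subset_closure hx
  | zero => exact AddSubmonoid.zero_mem _
  | add x y _ _ hx hy => exact AddSubmonoid.add_mem _ hx hy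
  | neg x _ hx => exact neg_mem' S F hF x hx

/-- uniformly many summands -/
theorem uniform (S : Set G) (F : Finset G) (hF : ∀ w, ∃ s ∈ S, w - s ∈ F) (h0 : (0 : G) ∈ S) :
    ∃ m₀ : ℕ, ∀ m ≥ m₀, ∀ x ∈ AddSubgroup.closure S, ∃ l : List G, l.length = m ∧
      (∀ y ∈ l, y ∈ S) ∧ l.sum = x := by
  classical
  have h1 : ∀ f ∈ F, ∃ l : List G, f ∈ AddSubgroup.closure S → (∀ y ∈ l, y ∈ S) ∧ l.sum = f := by
    intro f _
    by_cases h : f ∈ AddSubgroup.closure S
    · obtain ⟨l, hl, hl2⟩ := AddSubmonoid.exists_list_of_mem_closure (mem_monoid S F hF f h)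
      exact ⟨l, fun _ => ⟨hl, hl2⟩⟩
    · exact ⟨[], fun h' => absurd h' h⟩
  choose! L hL using h1
  refine ⟨1 + F.sup (fun f => (L f).length), fun m hm x hx => ?_⟩
  obtain ⟨s, hs, hsF⟩ := hF x
  have hf : x - s ∈ AddSubgroup.closure S :=
    AddSubgroup.sub_mem _ hx (AddSubgroup.subset_closure hs)
  obtain ⟨h2, h3⟩ := hL _ hsF hf
  have hlen : (L (x - s)).length ≤ F.sup (fun f => (L f).length) :=
    Finset.le_sup (f := fun f => (L f).length) hsF
  refine ⟨s :: (L (x - s) ++ List.replicate (m - 1 - (L (x - s)).length) 0), ?_, ?_, ?_⟩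
  · simp only [List.length_cons, List.length_append, List.length_replicate]
    omega
  · intro y hy
    rcases List.mem_cons.1 hy with rfl | hy
    · exact hs
    · rcases List.mem_append.1 hy with hy | hy
      · exact h2 y hy
      · rw [(List.mem_replicate.1 hy).2]; exact h0
  · rw [List.sum_cons, List.sum_append, h3]
    simp

/-- exactly `m` summands, from the group generated by the differences -/
theorem exact_sums (S : Set G) (F : Finset G) (hF : ∀ w, ∃ s ∈ S, w - s ∈ F)
    (hS : ∀ s ∈ S, s ∈ AddSubgroup.closure {x | ∃ s ∈ S, ∃ s' ∈ S, x = s - s'}) :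
    ∃ m₀ : ℕ, ∀ m ≥ m₀, ∀ x ∈ AddSubgroup.closure {x | ∃ s ∈ S, ∃ s' ∈ S, x = s - s'},
      ∃ v : Fin m → G, (∀ j, v j ∈ S) ∧ ∑ j, v j = x := by
  classical
  obtain ⟨s₀, hs₀, -⟩ := hF 0
  set H := AddSubgroup.closure {x | ∃ s ∈ S, ∃ s' ∈ S, x = s - s'} with hH
  set S' : Set G := {x | x + s₀ ∈ S} with hS'
  have hcl : AddSubgroup.closure S' = H := by
    apply le_antisymm
    · rw [AddSubgroup.closure_le]
      intro x hx
      exact AddSubgroup.subset_closure ⟨x + s₀, hx, s₀, hs₀, by abel⟩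
    · rw [hH, AddSubgroup.closure_le]
      rintro x ⟨s, hs, s', hs', rfl⟩
      have h1 : s - s₀ ∈ AddSubgroup.closure S' :=
        AddSubgroup.subset_closure (by rw [hS', Set.mem_ofPred_eq, sub_add_cancel]; exact hs)
      have h2 : s' - s₀ ∈ AddSubgroup.closure S' :=
        AddSubgroup.subset_closure (by rw [hS', Set.mem_ofPred_eq, sub_add_cancel]; exact hs')
      have h3 := AddSubgroup.sub_mem _ h1 h2
      have : s - s' = (s - s₀) - (s' - s₀) := by abel
      rw [this]
      exact h3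
  obtain ⟨m₀, hm₀⟩ := uniform S' F (fun w => by
    obtain ⟨s, hs, hsF⟩ := hF (w + s₀)
    refine ⟨s - s₀, by rw [hS', Set.mem_ofPred_eq, sub_add_cancel]; exact hs, ?_⟩
    have : w - (s - s₀) = w + s₀ - s := by abel
    rw [this]
    exact hsF) (by rw [hS', Set.mem_ofPred_eq, zero_add]; exact hs₀)
  refine ⟨m₀, fun m hm x hx => ?_⟩
  have h1 : x - m • s₀ ∈ AddSubgroup.closure S' := by
    rw [hcl]
    exact AddSubgroup.sub_mem _ hx (AddSubgroup.nsmul_mem _ (hS s₀ hs₀) m)
  obtain ⟨l, hl1, hl2, hl3⟩ := hm₀ m hm _ h1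
  subst hl1
  refine ⟨fun j => l.get j + s₀, fun j => hl2 _ (l.get_mem j), ?_⟩
  rw [Finset.sum_add_distrib]
  have h2 : ∑ j : Fin l.length, l.get j = l.sum := by
    rw [← List.sum_ofFn]
    simp
  rw [h2, hl3]
  simp

/-- multiples -/
theorem exists_multiple (S : Set G) (F : Finset G) (hF : ∀ w, ∃ s ∈ S, w - s ∈ F) (x : G) :
    ∃ n : ℕ, 0 < n ∧ n • x ∈ AddSubgroup.closure {x | ∃ s ∈ S, ∃ s' ∈ S, x = s - s'} := by
  classical
  choose σ hσ hσF using hF
  obtain ⟨i, _, j, _, hij, h⟩ := Finset.exists_ne_map_eq_of_card_lt_of_maps_to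
    (s := range (F.card + 1)) (t := F) (f := fun n => n • x - σ (n • x)) (by simp)
    (fun n _ => hσF _)
  wlog hlt : i < j generalizing i j
  · exact this j ‹_› i ‹_› hij.symm h.symm (by omega)
  refine ⟨j - i, by omega, ?_⟩
  have h1 : (j - i) • x = σ (j • x) - σ (i • x) := by
    have h2 : (j - i) • x + i • x = j • x := by
      rw [← add_smul]
      congr 1
      omega
    have h3 : j • x - i • x = σ (j • x) - σ (i • x) := by
      have h4 : i • x + σ (j • x) = j • x + σ (i • x) := sub_eq_sub_iff_add_eq_add.1 h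
      rw [sub_eq_sub_iff_add_eq_add, ← h4]
      abel
    rw [← h3, ← h2]
    abel
  rw [h1]
  exact AddSubgroup.subset_closure ⟨_, hσ _, _, hσ _, rfl⟩

end Pool.Agent.R494.BGen
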