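import Mathlib
import Pool.Agent.R494.BGen

set_option autoImplicit false

/-!
The group generated by the good vectors of shifts.
-/

namespace Pool.Agent.R494.BGen

open Finset

/-- the vectors of `k` distinct nonzero shifts for which the prime tuples conjecture holds (shifts by multiples
of `q`, first prime congruent to `r` modulo `q`) -/
def GoodSet (q : ℕ) (r : ℤ) (k : ℕ) : Set (Fin k → ℤ) :=
  {a | Function.Injective a ∧ (∀ i, a i ≠ 0) ∧
    {N : ℕ | N.Prime ∧ (N : ℤ) ≡ r [ZMOD q] ∧ ∀ i, ∃ p : ℕ, p.Prime ∧ (p : ℤ) = N + q * a i}.Infinite}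

/-- a finite set of shifts all of which are prime infinitely often -/
def Pat (q : ℕ) (r : ℤ) (X : Finset ℤ) : Prop :=
  {n : ℕ | ∀ x ∈ X, 0 < (q : ℤ) * n + (r + q * x) ∧ Prime ((q : ℤ) * n + (r + q * x))}.Infinite

theorem pat_good {q k : ℕ} {r : ℤ} (hq : 1 ≤ q) {X : Finset ℤ} (hX : Pat q r X)
    (y : Fin (k + 1) → ℤ) (hy : Function.Injective y) (hyX : ∀ i, y i ∈ X) :
    (fun i : Fin k => y i.succ - y 0) ∈ GoodSet q r k := by
  have hq0 : (0 : ℤ) < q := by exact_mod_cast hq
  refine ⟨?_, ?_, ?_⟩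
  · intro i j hij
    simp only [sub_left_inj] at hij
    exact Fin.succ_injective _ (hy hij)
  · intro i h
    have h1 : y i.succ = y 0 := by
      simp only at h
      linarith
    exact Fin.succ_ne_zero i (hy h1)
  · have hinj : Set.InjOn (fun n : ℕ => ((q : ℤ) * n + (r + q * y 0)).toNat)
        {n : ℕ | ∀ x ∈ X, 0 < (q : ℤ) * n + (r + q * x) ∧ Prime ((q : ℤ) * n + (r + q * x))} := by
      intro n hn m hm hnm
      have h1 := (hn _ (hyX 0)).1
      have h2 := (hm _ (hyX 0)).1
      simp only at hnm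
      have h3 : (q : ℤ) * n + (r + q * y 0) = q * m + (r + q * y 0) := by
        have e1 := Int.toNat_of_nonneg h1.le
        have e2 := Int.toNat_of_nonneg h2.le
        rw [← e1, ← e2, hnm]
      have h4 : (q : ℤ) * n = q * m := by linarith
      exact_mod_cast mul_left_cancel₀ hq0.ne' h4
    refine (Set.Infinite.image hinj hX).mono ?_
    rintro _ ⟨n, hn, rfl⟩
    have h0 := hn _ (hyX 0)
    have e0 := Int.toNat_of_nonneg h0.1.le
    refine ⟨?_, ?_, fun i => ?_⟩
    · rw [Nat.prime_iff_prime_int]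
      simp only
      rw [e0]
      exact h0.2
    · simp only
      rw [e0]
      exact Int.modEq_iff_dvd.2 ⟨-(n + y 0), by ring⟩
    · have h1 := hn _ (hyX i.succ)
      have e1 := Int.toNat_of_nonneg h1.1.le
      refine ⟨((q : ℤ) * n + (r + q * y i.succ)).toNat, ?_, ?_⟩
      · rw [Nat.prime_iff_prime_int, e1]
        exact h1.2
      · simp only
        rw [e0, e1]
        ring

/-- the group generated by the differences of good vectors -/
def HH (q : ℕ) (r : ℤ) (k : ℕ) : AddSubgroup (Fin k → ℤ) :=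
  AddSubgroup.closure {x | ∃ s ∈ GoodSet q r k, ∃ s' ∈ GoodSet q r k, x = s - s'}

theorem single_mem {q k : ℕ} {r : ℤ} (hq : 1 ≤ q) {X : Finset ℤ} (hX : Pat q r X)
    (hc : k + 2 ≤ X.card) {a b : ℤ} (ha : a ∈ X) (hb : b ∈ X) (i : Fin k) :
    (Pi.single i (a - b) : Fin k → ℤ) ∈ HH q r k := by
  classical
  rcases eq_or_ne a b with rfl | hab
  · rw [sub_self, Pi.single_zero]
    exact AddSubgroup.zero_mem _
  obtain ⟨k', rfl⟩ : ∃ k', k = k' + 1 := ⟨k - 1, by have := i.2; omega⟩
  have hcard : k' + 1 ≤ ((X.erase a).erase b).card := by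
    rw [card_erase_of_mem (mem_erase.2 ⟨hab.symm, hb⟩), card_erase_of_mem ha]
    omega
  obtain ⟨f, hf⟩ : ∃ f : Fin (k' + 1) → ℤ, Function.Injective f ∧ ∀ j, f j ∈ (X.erase a).erase b := by
    obtain ⟨t, ht, htc⟩ := exists_subset_card_eq hcard
    refine ⟨fun j => t.orderEmbOfFin htc j, (t.orderEmbOfFin htc).injective, fun j => ?_⟩
    exact ht (Finset.orderEmbOfFin_mem t htc j)
  obtain ⟨hf1, hf2⟩ := hf
  have hfa : ∀ j, f j ≠ a := fun j => (mem_erase.1 (mem_erase.1 (hf2 j)).2).1
  have hfb : ∀ j, f j ≠ b := fun j => (mem_erase.1 (hf2 j)).1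
  have hfX : ∀ j, f j ∈ X := fun j => (mem_erase.1 (mem_erase.1 (hf2 j)).2).2
  have key : ∀ c : ℤ, c ∈ X → (∀ j, f j ≠ c) →
      (fun i' : Fin (k' + 1) => (Fin.insertNth i.succ c f : Fin (k' + 2) → ℤ) i'.succ -
        (Fin.insertNth i.succ c f : Fin (k' + 2) → ℤ) 0) ∈ GoodSet q r (k' + 1) := by
    intro c hcX hfc
    refine pat_good hq hX (Fin.insertNth i.succ c f : Fin (k' + 2) → ℤ) ?_ ?_
    · intro j j' hjj
      induction j using Fin.succAboveCases i.succ with
      | x =>
        induction j' using Fin.succAboveCases i.succ with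
        | x => rfl
        | p j' =>
          rw [Fin.insertNth_apply_same, Fin.insertNth_apply_succAbove] at hjj
          exact absurd hjj.symm (hfc j')
      | p j =>
        induction j' using Fin.succAboveCases i.succ with
        | x =>
          rw [Fin.insertNth_apply_same, Fin.insertNth_apply_succAbove] at hjj
          exact absurd hjj (hfc j)
        | p j' =>
          rw [Fin.insertNth_apply_succAbove, Fin.insertNth_apply_succAbove] at hjj
          rw [hf1 hjj]
    · intro j
      induction j using Fin.succAboveCases i.succ with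
      | x => rw [Fin.insertNth_apply_same]; exact hcX
      | p j => rw [Fin.insertNth_apply_succAbove]; exact hfX j
  have h1 := key a ha hfa
  have h2 := key b hb hfb
  refine AddSubgroup.subset_closure ⟨_, h1, _, h2, ?_⟩
  ext i'
  have h0 : ∀ c : ℤ, (Fin.insertNth i.succ c f : Fin (k' + 2) → ℤ) 0 = f 0 := by
    intro c
    have : (0 : Fin (k' + 2)) = i.succ.succAbove 0 := by
      rw [Fin.succAbove_of_castSucc_lt _ _ (by simp [Fin.lt_def])]
      rfl
    rw [this, Fin.insertNth_apply_succAbove]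
  simp only [Pi.sub_apply, h0]
  rcases eq_or_ne i' i with rfl | hne
  · rw [Pi.single_eq_same, Fin.insertNth_apply_same, Fin.insertNth_apply_same]
    ring
  · rw [Pi.single_eq_of_ne hne]
    obtain ⟨j, hj⟩ : ∃ j, i'.succ = i.succ.succAbove j := by
      have h3 : i'.succ ≠ i.succ := fun h => hne (Fin.succ_injective _ h)
      obtain ⟨j, hj⟩ := Fin.exists_succAbove_eq h3
      exact ⟨j, hj.symm⟩
    rw [hj, Fin.insertNth_apply_succAbove, Fin.insertNth_apply_succAbove]
    ring

/-- the good vectors themselves lie in the group generated by their differences -/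
theorem good_mem {q k : ℕ} {r : ℤ} (hq : 1 ≤ q) {X : Finset ℤ} (hX : Pat q r X)
    (hc : k + 2 ≤ X.card) : ∀ s ∈ GoodSet q r k, s ∈ HH q r k := by
  classical
  obtain ⟨t, ht, htc⟩ := exists_subset_card_eq (show k + 1 ≤ X.card by omega)
  set y : Fin (k + 1) → ℤ := fun j => t.orderEmbOfFin htc j with hy
  have h1 := pat_good hq hX y (t.orderEmbOfFin htc).injective
    (fun j => ht (Finset.orderEmbOfFin_mem t htc j))
  have h2 : (fun i : Fin k => y i.succ - y 0) ∈ HH q r k := by
    have : (fun i : Fin k => y i.succ - y 0) = ∑ i, Pi.single i (y i.succ - y 0) := by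
      rw [Finset.univ_sum_single]
    rw [this]
    exact AddSubgroup.sum_mem _ fun i _ => single_mem hq hX hc
      (ht (Finset.orderEmbOfFin_mem t htc _)) (ht (Finset.orderEmbOfFin_mem t htc _)) i
  intro s hs
  have h3 : s - (fun i : Fin k => y i.succ - y 0) ∈ HH q r k :=
    AddSubgroup.subset_closure ⟨_, hs, _, h1, rfl⟩
  have := AddSubgroup.add_mem _ h3 h2
  rwa [sub_add_cancel] at this

end Pool.Agent.R494.BGen
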