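import Mathlib
import Pool.Agent.R494.BGen2

set_option autoImplicit false

/-!
Patterns of primes in prescribed residue classes from the coloured Maynard-Tao theorem.
-/

namespace Pool.Agent.R494.BGen

open Finset

/-- more than a quarter of `4 M` classes -/
def QC : Prop := ∀ M : ℕ, 1 ≤ M → ∃ K : ℕ, 1 ≤ K ∧ ∀ (a b : Fin (4 * M) → Fin K → ℤ),
  (∀ g i, 0 < a g i) →
    Function.Injective (fun x : Fin (4 * M) × Fin K => (a x.1 x.2, b x.1 x.2)) →
    (∀ p : ℕ, p.Prime → ∃ n : ℤ, ∀ g i, ¬ ((p : ℤ) ∣ a g i * n + b g i)) →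
    ∃ (S : Finset (Fin (4 * M))) (c : Fin (4 * M) → Fin K), M + 1 ≤ S.card ∧
      {n : ℕ | ∀ g ∈ S, 0 < a g (c g) * (n : ℤ) + b g (c g) ∧
        Prime (a g (c g) * (n : ℤ) + b g (c g))}.Infinite

/-- few residue classes are no obstruction -/
theorem exists_shift_int {T K p : ℕ} (hp : p.Prime) (hTK : T * K < p) (H : Fin T → Fin K → ℤ) :
    ∃ n : ℤ, ∀ g i, ¬ ((p : ℤ) ∣ n + H g i) := by
  have : Fact p.Prime := ⟨hp⟩
  classical
  set s : Finset (ZMod p) := univ.image fun x : Fin T × Fin K => -(H x.1 x.2 : ZMod p) with hs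
  have hc : s.card < Fintype.card (ZMod p) := by
    calc s.card ≤ (univ : Finset (Fin T × Fin K)).card := card_image_le
      _ = T * K := by simp
      _ < p := hTK
      _ = _ := (ZMod.card p).symm
  obtain ⟨n, hn⟩ : ∃ n : ZMod p, n ∉ s := by
    by_contra h
    push Not at h
    have : s = univ := by
      ext x; simp [h x]
    rw [this, card_univ] at hc
    exact lt_irrefl _ hc
  refine ⟨n.val, fun g i hd => hn ?_⟩
  rw [hs, mem_image]
  refine ⟨(g, i), mem_univ _, ?_⟩
  have h1 := (ZMod.intCast_zmod_eq_zero_iff_dvd _ p).2 hd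
  push_cast at h1
  rw [ZMod.natCast_zmod_val] at h1
  rw [eq_comm, eq_neg_iff_add_eq_zero]
  exact h1

theorem pattern (hQC : QC) (k q m : ℕ) (r : ℤ) (hq : 1 ≤ q) (hqr : IsCoprime r (q : ℤ)) (hm : 1 ≤ m)
    (c : Fin 4 → ℤ) (hc : ∀ j, IsCoprime (r + q * c j) (m : ℤ))
    (hinc : ∀ j j', j ≠ j' → ¬ (m : ℤ) ∣ c j - c j') :
    ∃ X : Finset ℤ, k + 2 ≤ X.card ∧ Pat q r X ∧ ∃ x ∈ X, ∃ x' ∈ X, ¬ (m : ℤ) ∣ x - x' := by
  classical
  have hq0 : (0 : ℤ) < q := by exact_mod_cast hq
  have hm0 : (0 : ℤ) < m := by exact_mod_cast hm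
  obtain ⟨K, hK, hQ⟩ := hQC (k + 1) (by omega)
  set M := k + 1 with hM
  set e : Fin (4 * M) ≃ Fin 4 × Fin M := finProdFinEquiv.symm with he
  set idx : Fin (4 * M) × Fin K → ℕ := fun x => (finProdFinEquiv x : ℕ) with hidx
  have hidxinj : Function.Injective idx := fun x y h => finProdFinEquiv.injective (Fin.ext h)
  -- the primes
  have hcop : ∀ j, IsCoprime (r + q * c j) ((q * m : ℕ) : ℤ) := by
    intro j
    push_cast
    refine IsCoprime.mul_right ?_ (hc j)
    exact (IsCoprime.add_mul_left_left_iff).2 hqr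
  have hex : ∀ (n : ℕ) (j : Fin 4), ∃ p > n, p.Prime ∧ (p : ℤ) ≡ r + q * c j [ZMOD (q * m : ℕ)] :=
    fun n j => Nat.forall_exists_prime_gt_and_zmodEq n (by positivity) (hcop j)
  choose pr hpr1 hpr2 hpr3 using hex
  set P₀ : ℕ := (4 * M) * K + q * m with hP₀
  obtain ⟨B, hB0, hBs⟩ : ∃ B : ℕ → ℕ, B 0 = P₀ ∧ ∀ t, B (t + 1) = B t + ∑ j, pr (B t) j :=
    ⟨fun t => Nat.rec P₀ (fun _ b => b + ∑ j, pr b j) t, rfl, fun _ => rfl⟩
  have hBmono : Monotone B := monotone_nat_of_le_succ fun t => by rw [hBs]; omega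
  have hBP : ∀ t, P₀ ≤ B t := fun t => by rw [← hB0]; exact hBmono (Nat.zero_le t)
  have hprB : ∀ t j, pr (B t) j ≤ B (t + 1) := by
    intro t j
    rw [hBs]
    have : pr (B t) j ≤ ∑ j, pr (B t) j :=
      Finset.single_le_sum (f := fun j => pr (B t) j) (fun _ _ => Nat.zero_le _) (mem_univ j)
    omega
  have hprinj : ∀ t t' j j', pr (B t) j = pr (B t') j' → t = t' := by
    intro t t' j j' h
    by_contra hne
    rcases Nat.lt_or_gt_of_ne hne with h1 | h1
    · have h2 := hprB t j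
      have h3 := hBmono (show t + 1 ≤ t' from h1)
      have h4 := hpr1 (B t') j'
      omega
    · have h2 := hprB t' j'
      have h3 := hBmono (show t' + 1 ≤ t from h1)
      have h4 := hpr1 (B t) j
      omega
  set b : Fin (4 * M) → Fin K → ℤ := fun g i => (pr (B (idx (g, i))) (e g).1 : ℕ) with hb
  have hbinj : ∀ g i g' i', b g i = b g' i' → (g, i) = (g', i') := by
    intro g i g' i' h
    have h1 : pr (B (idx (g, i))) (e g).1 = pr (B (idx (g', i'))) (e g').1 := by
      simp only [hb] at h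
      exact_mod_cast h
    exact hidxinj (hprinj _ _ _ _ h1)
  -- the shifts
  have hxe : ∀ g i, ∃ x : ℤ, b g i = r + q * x ∧ (m : ℤ) ∣ x - c (e g).1 := by
    intro g i
    have h1 := hpr3 (B (idx (g, i))) (e g).1
    obtain ⟨w, hw⟩ := (Int.modEq_iff_dvd.1 h1)
    refine ⟨c (e g).1 - m * w, ?_, ⟨-w, by ring⟩⟩
    simp only [hb]
    push_cast at hw
    linear_combination -hw
  choose x hx1 hx2 using hxe
  have hxinj : ∀ g i g' i', x g i = x g' i' → (g, i) = (g', i') := by
    intro g i g' i' h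
    apply hbinj
    rw [hx1, hx1, h]
  obtain ⟨S, cc, hS, hinf⟩ := hQ (fun _ _ => (q : ℤ) * m) b (fun _ _ => by positivity)
    (by
      intro y y' hyy
      simp only [Prod.mk.injEq, true_and] at hyy
      exact hbinj _ _ _ _ hyy)
    (by
      intro p hp
      have hpp := Nat.prime_iff_prime_int.1 hp
      rcases Nat.lt_or_ge P₀ p with h | h
      · have hpa : ¬ (p : ℤ) ∣ (q : ℤ) * m := by
          intro hd
          have h1 : p ∣ q * m := by exact_mod_cast hd
          have h2 := Nat.le_of_dvd (by positivity) h1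
          omega
        have hcop' : IsCoprime ((q : ℤ) * m) (p : ℤ) := by
          rw [isCoprime_comm]
          exact (Prime.coprime_iff_not_dvd hpp).2 hpa
        obtain ⟨u, w, huw⟩ := hcop'
        obtain ⟨n, hn⟩ := exists_shift_int hp (show 4 * M * K < p by omega) (fun g i => u * b g i)
        refine ⟨n, fun g i hd => hn g i ?_⟩
        have h2 : (p : ℤ) ∣ u * ((q : ℤ) * m * n + b g i) := Dvd.dvd.mul_left hd _
        have h3 : u * ((q : ℤ) * m * n + b g i) = (n + u * b g i) - (w * n) * p := by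
          have : u * ((q : ℤ) * m) = 1 - w * p := by linarith
          calc u * ((q : ℤ) * m * n + b g i) = (u * ((q : ℤ) * m)) * n + u * b g i := by ring
            _ = _ := by rw [this]; ring
        rw [h3] at h2
        exact (dvd_sub_left (Dvd.intro_left _ rfl)).1 h2
      · refine ⟨0, fun g i hd => ?_⟩
        rw [mul_zero, zero_add] at hd
        have h1 : p ∣ pr (B (idx (g, i))) (e g).1 := by
          simp only [hb] at hd
          exact_mod_cast hd
        have h2 := (Nat.prime_dvd_prime_iff_eq hp (hpr2 _ _)).1 h1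
        have h3 := hpr1 (B (idx (g, i))) (e g).1
        have h4 := hBP (idx (g, i))
        omega)
  refine ⟨S.image (fun g => x g (cc g)), ?_, ?_, ?_⟩
  · rw [card_image_of_injective _ (fun g g' h => congrArg Prod.fst (hxinj _ _ _ _ h))]
    omega
  · have hinj : Set.InjOn (fun n : ℕ => m * n) {n : ℕ | ∀ g ∈ S, 0 < (q : ℤ) * m * n + b g (cc g) ∧
        Prime ((q : ℤ) * m * n + b g (cc g))} := fun n _ n' _ h => Nat.eq_of_mul_eq_mul_left hm h
    refine (Set.Infinite.image hinj hinf).mono ?_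
    rintro _ ⟨n, hn, rfl⟩ y hy
    obtain ⟨g, hg, rfl⟩ := mem_image.1 hy
    have h1 := hn g hg
    have h2 : (q : ℤ) * ((m * n : ℕ) : ℤ) + (r + q * x g (cc g)) = (q : ℤ) * m * n + b g (cc g) := by
      rw [hx1]
      push_cast
      ring
    rw [h2]
    exact h1
  · -- two labels
    obtain ⟨g, hg, g', hg', hne⟩ : ∃ g ∈ S, ∃ g' ∈ S, (e g).1 ≠ (e g').1 := by
      by_contra hcon
      push Not at hcon
      obtain ⟨g₀, hg₀⟩ : S.Nonempty := card_pos.1 (by omega)
      have hinj : Set.InjOn (fun g => (e g).2) (S : Set (Fin (4 * M))) := by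
        intro g hg g' hg' h
        exact e.injective (Prod.ext (hcon g hg g' hg') h)
      have h1 : S.card ≤ (univ : Finset (Fin M)).card :=
        card_le_card_of_injOn _ (fun _ _ => mem_univ _) hinj
      rw [card_univ, Fintype.card_fin] at h1
      omega
    refine ⟨_, mem_image_of_mem _ hg, _, mem_image_of_mem _ hg', fun hd => hinc _ _ hne ?_⟩
    have h1 := hx2 g (cc g)
    have h2 := hx2 g' (cc g')
    have h3 : c (e g).1 - c (e g').1 = (x g (cc g) - x g' (cc g')) - (x g (cc g) - c (e g).1) +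
      (x g' (cc g') - c (e g').1) := by ring
    rw [h3]
    exact dvd_add (dvd_sub hd h1) h2

end Pool.Agent.R494.BGen
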