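import Mathlib
import Pool.Agent.R494.BGen3

set_option autoImplicit false

/-!
Bounded generation of the multiples of two or of three by good vectors of shifts.
-/

namespace Pool.Agent.R494.BGen

open Finset

open Classical in
theorem four_classes (m : ℕ) [NeZero m] (r q : ℤ)
    (h : 4 ≤ (univ.filter (fun c : ZMod m => IsUnit ((r : ZMod m) + q * c))).card) :
    ∃ c : Fin 4 → ℤ, (∀ j, IsCoprime (r + q * c j) (m : ℤ)) ∧
      ∀ j j', j ≠ j' → ¬ (m : ℤ) ∣ c j - c j' := by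
  obtain ⟨t, ht, htc⟩ := exists_subset_card_eq h
  set f : Fin 4 ≃ {x // x ∈ t} := (t.equivFinOfCardEq htc).symm with hf
  refine ⟨fun j => ((f j : ZMod m).val : ℤ), fun j => ?_, fun j j' hjj hd => hjj ?_⟩
  · have h1 := (mem_filter.1 (ht (f j).2)).2
    rw [isCoprime_comm, ← ZMod.coe_int_isUnit_iff_isCoprime]
    push_cast
    rw [ZMod.natCast_zmod_val]
    exact h1
  · have h1 := (ZMod.intCast_zmod_eq_zero_iff_dvd _ m).2 hd
    push_cast at h1
    rw [ZMod.natCast_zmod_val, ZMod.natCast_zmod_val, sub_eq_zero] at h1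
    exact f.injective (Subtype.ext h1)

theorem dec4 : ∀ r q : ZMod 4, (q = 0 ∨ q = 2) → (r = 1 ∨ r = 3) →
    4 ≤ (univ.filter (fun c : ZMod 4 => ∃ y, (r + q * c) * y = 1)).card := by
  decide +kernel

theorem dec6 : ∀ r q : ZMod 6, (q = 0 ∨ q = 2 ∨ q = 4) → (r = 1 ∨ r = 3 ∨ r = 5) →
    ¬ (q = 0 ∧ r = 3) →
    4 ≤ (univ.filter (fun c : ZMod 6 => ∃ y, (r + q * c) * y = 1)).card := by
  decide +kernel

theorem dec9 : ∀ r q : ZMod 9, ¬ ((q = 0 ∨ q = 3 ∨ q = 6) ∧ (r = 0 ∨ r = 3 ∨ r = 6)) →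
    4 ≤ (univ.filter (fun c : ZMod 9 => ∃ y, (r + q * c) * y = 1)).card := by
  decide +kernel

open Classical in
theorem filt_eq {m : ℕ} [NeZero m] (r q : ZMod m) :
    (univ.filter (fun c : ZMod m => IsUnit (r + q * c))) =
    (univ.filter (fun c : ZMod m => ∃ y, (r + q * c) * y = 1)) := by
  ext c
  simp only [mem_filter, mem_univ, true_and]
  exact isUnit_iff_exists_inv

theorem cls4 (r : ℤ) (q : ℤ) (hq2 : 2 ∣ q) (hqr : IsCoprime r q) :
    ∃ c : Fin 4 → ℤ, (∀ j, IsCoprime (r + q * c j) ((4 : ℕ) : ℤ)) ∧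
      ∀ j j', j ≠ j' → ¬ ((4 : ℕ) : ℤ) ∣ c j - c j' := by
  classical
  have hr2 : ¬ 2 ∣ r := fun h => by
    have := Int.isCoprime_iff_gcd_eq_one.1 hqr
    have h2 : (2 : ℤ) ∣ Int.gcd r q := Int.dvd_coe_gcd h hq2
    rw [this] at h2
    norm_num at h2
  apply four_classes 4
  have h1 := dec4 (r : ZMod 4) (q : ZMod 4) (by
    rcases (show q % 4 = 0 ∨ q % 4 = 2 by omega) with h | h
    · left
      have := (ZMod.intCast_eq_intCast_iff_dvd_sub q 0 4).2 (by omega)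
      simpa using this
    · right
      have := (ZMod.intCast_eq_intCast_iff_dvd_sub q 2 4).2 (by omega)
      simpa using this) (by
    rcases (show r % 4 = 1 ∨ r % 4 = 3 by omega) with h | h
    · left
      have := (ZMod.intCast_eq_intCast_iff_dvd_sub r 1 4).2 (by omega)
      simpa using this
    · right
      have := (ZMod.intCast_eq_intCast_iff_dvd_sub r 3 4).2 (by omega)
      simpa using this)
  rw [filt_eq]
  convert h1

theorem cls6 (r : ℤ) (q : ℤ) (hq2 : 2 ∣ q) (hqr : IsCoprime r q) :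
    ∃ c : Fin 4 → ℤ, (∀ j, IsCoprime (r + q * c j) ((6 : ℕ) : ℤ)) ∧
      ∀ j j', j ≠ j' → ¬ ((6 : ℕ) : ℤ) ∣ c j - c j' := by
  classical
  have hr2 : ¬ 2 ∣ r := fun h => by
    have := Int.isCoprime_iff_gcd_eq_one.1 hqr
    have h2 : (2 : ℤ) ∣ Int.gcd r q := Int.dvd_coe_gcd h hq2
    rw [this] at h2
    norm_num at h2
  have hr3 : ¬ (3 ∣ r ∧ 3 ∣ q) := fun h => by
    have := Int.isCoprime_iff_gcd_eq_one.1 hqr
    have h2 : (3 : ℤ) ∣ Int.gcd r q := Int.dvd_coe_gcd h.1 h.2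
    rw [this] at h2
    norm_num at h2
  apply four_classes 6
  have h1 := dec6 (r : ZMod 6) (q : ZMod 6) (by
    rcases (show q % 6 = 0 ∨ q % 6 = 2 ∨ q % 6 = 4 by omega) with h | h | h
    · left
      have := (ZMod.intCast_eq_intCast_iff_dvd_sub q 0 6).2 (by omega)
      simpa using this
    · right; left
      have := (ZMod.intCast_eq_intCast_iff_dvd_sub q 2 6).2 (by omega)
      simpa using this
    · right; right
      have := (ZMod.intCast_eq_intCast_iff_dvd_sub q 4 6).2 (by omega)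
      simpa using this) (by
    rcases (show r % 6 = 1 ∨ r % 6 = 3 ∨ r % 6 = 5 by omega) with h | h | h
    · left
      have := (ZMod.intCast_eq_intCast_iff_dvd_sub r 1 6).2 (by omega)
      simpa using this
    · right; left
      have := (ZMod.intCast_eq_intCast_iff_dvd_sub r 3 6).2 (by omega)
      simpa using this
    · right; right
      have := (ZMod.intCast_eq_intCast_iff_dvd_sub r 5 6).2 (by omega)
      simpa using this) (by
    rintro ⟨h1, h2⟩
    have h3 := (ZMod.intCast_zmod_eq_zero_iff_dvd q 6).1 h1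
    have h4 := (ZMod.intCast_eq_intCast_iff_dvd_sub r 3 6).1 (by simpa using h2)
    exact hr3 ⟨by push_cast at h4; omega, by push_cast at h3; omega⟩)
  rw [filt_eq]
  convert h1

theorem cls9 (r : ℤ) (q : ℤ) (hqr : IsCoprime r q) :
    ∃ c : Fin 4 → ℤ, (∀ j, IsCoprime (r + q * c j) ((9 : ℕ) : ℤ)) ∧
      ∀ j j', j ≠ j' → ¬ ((9 : ℕ) : ℤ) ∣ c j - c j' := by
  classical
  have hr3 : ¬ (3 ∣ r ∧ 3 ∣ q) := fun h => by
    have := Int.isCoprime_iff_gcd_eq_one.1 hqr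
    have h2 : (3 : ℤ) ∣ Int.gcd r q := Int.dvd_coe_gcd h.1 h.2
    rw [this] at h2
    norm_num at h2
  have hx : ∀ x : ℤ, ((x : ZMod 9) = 0 ∨ (x : ZMod 9) = 3 ∨ (x : ZMod 9) = 6) → 3 ∣ x := by
    rintro x (h | h | h)
    · have := (ZMod.intCast_zmod_eq_zero_iff_dvd x 9).1 h
      push_cast at this; omega
    · have := (ZMod.intCast_eq_intCast_iff_dvd_sub x 3 9).1 (by simpa using h)
      push_cast at this; omega
    · have := (ZMod.intCast_eq_intCast_iff_dvd_sub x 6 9).1 (by simpa using h)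
      push_cast at this; omega
  apply four_classes 9
  have h1 := dec9 (r : ZMod 9) (q : ZMod 9) (fun h => hr3 ⟨hx r h.2, hx q h.1⟩)
  rw [filt_eq]
  convert h1

theorem clsp (p : ℕ) (hp : p.Prime) (hp5 : 5 ≤ p) (r : ℤ) (q : ℤ) (hqr : IsCoprime r q) :
    ∃ c : Fin 4 → ℤ, (∀ j, IsCoprime (r + q * c j) ((p : ℕ) : ℤ)) ∧
      ∀ j j', j ≠ j' → ¬ ((p : ℕ) : ℤ) ∣ c j - c j' := by
  classical
  haveI : Fact p.Prime := ⟨hp⟩
  apply four_classes p
  have hsub : (univ.erase (-(r : ZMod p) / q)) ⊆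
      (univ.filter (fun c : ZMod p => IsUnit ((r : ZMod p) + q * c))) := by
    intro c hc
    rw [mem_erase] at hc
    rw [mem_filter]
    refine ⟨mem_univ _, isUnit_iff_ne_zero.2 fun h => ?_⟩
    by_cases hq : (q : ZMod p) = 0
    · rw [hq, zero_mul, add_zero] at h
      have h1 := (ZMod.intCast_zmod_eq_zero_iff_dvd q p).1 hq
      have h2 := (ZMod.intCast_zmod_eq_zero_iff_dvd r p).1 h
      exact (Nat.prime_iff_prime_int.1 hp).not_isUnit (hqr.isUnit_of_dvd' h2 h1)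
    · apply hc.1
      rw [eq_div_iff hq]
      linear_combination h
  have h2 := card_le_card hsub
  rw [card_erase_of_mem (mem_univ _), card_univ, ZMod.card] at h2
  have h3 : 4 ≤ p - 1 := by omega
  exact h3.trans h2

theorem small_divisor (m : ℕ) (hm : 4 ≤ m) :
    4 ∣ m ∨ 6 ∣ m ∨ 9 ∣ m ∨ ∃ p, p.Prime ∧ 5 ≤ p ∧ p ∣ m := by
  by_cases h5 : ∃ p, p.Prime ∧ 5 ≤ p ∧ p ∣ m
  · exact Or.inr (Or.inr (Or.inr h5))
  push Not at h5
  have h23 : ∀ p, p.Prime → p ∣ m → p = 2 ∨ p = 3 := by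
    intro p hp hpm
    have h1 : ¬ 5 ≤ p := fun h => h5 p hp h hpm
    have h2 := hp.two_le
    interval_cases p
    · exact Or.inl rfl
    · exact Or.inr rfl
    · exact absurd hp (by norm_num)
  have hp := Nat.minFac_prime (show m ≠ 1 by omega)
  have hpm := Nat.minFac_dvd m
  obtain ⟨m₁, hm₁⟩ := hpm
  have hm₁' : m₁ ≠ 1 := by
    intro h
    rw [h, mul_one] at hm₁
    rcases h23 _ hp (Nat.minFac_dvd m) with h' | h' <;> omega
  have hp' := Nat.minFac_prime hm₁'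
  have hpm' := Nat.minFac_dvd m₁
  have hd : m.minFac * m₁.minFac ∣ m := by
    conv_rhs => rw [hm₁]
    exact Nat.mul_dvd_mul_left _ hpm'
  rcases h23 _ hp (Nat.minFac_dvd m) with h' | h' <;>
    rcases h23 _ hp' (hpm'.trans (Dvd.intro_left _ hm₁.symm)) with h'' | h'' <;>
    rw [h', h''] at hd
  · left; simpa using hd
  · right; left; simpa using hd
  · right; left; simpa using hd
  · right; right; left; simpa using hd

theorem bgen (hQC : QC) (k q : ℕ) (r : ℤ) (hq : 1 ≤ q) (hq2 : 2 ∣ q) (hqr : IsCoprime r (q : ℤ))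
    (hsyn : ∃ C : ℕ, ∀ v : Fin k → ℤ, ∃ a ∈ GoodSet q r k, ∀ i, |a i - v i| ≤ C) :
    ∃ E : ℤ, (E = 2 ∨ E = 3) ∧ ∃ m₀ : ℕ, ∀ m ≥ m₀, ∀ w : Fin k → ℤ,
      ∃ v : Fin m → Fin k → ℤ, (∀ j, v j ∈ GoodSet q r k) ∧ ∑ j, v j = E • w := by
  classical
  obtain ⟨C, hC⟩ := hsyn
  set F : Finset (Fin k → ℤ) := Fintype.piFinset (fun _ => Icc (-(C : ℤ)) C) with hF
  have hF' : ∀ w, ∃ s ∈ GoodSet q r k, w - s ∈ F := by
    intro w
    obtain ⟨a, ha, h⟩ := hC w
    refine ⟨a, ha, ?_⟩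
    rw [hF, Fintype.mem_piFinset]
    intro i
    have := abs_le.1 (h i)
    rw [mem_Icc, Pi.sub_apply]
    constructor <;> linarith [this.1, this.2]
  have hq2' : (2 : ℤ) ∣ q := by exact_mod_cast hq2
  have hall : ∀ s ∈ GoodSet q r k, s ∈ HH q r k := by
    obtain ⟨c, hc1, hc2⟩ := cls4 r q hq2' hqr
    obtain ⟨X, hX1, hX2, -⟩ := pattern hQC k q 4 r hq hqr (by norm_num) c hc1 hc2
    exact good_mem hq hX2 hX1
  obtain ⟨m₀, hm₀⟩ := exact_sums (GoodSet q r k) F hF' hall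
  -- the subgroup of the integers
  set I : AddSubgroup ℤ := ⨅ i : Fin k, (HH q r k).comap (AddMonoidHom.single (fun _ : Fin k => ℤ) i)
    with hI
  have hIm : ∀ t : ℤ, t ∈ I ↔ ∀ i, (Pi.single i t : Fin k → ℤ) ∈ HH q r k := by
    intro t
    rw [hI, AddSubgroup.mem_iInf]
    rfl
  obtain ⟨N, hN, hNI⟩ : ∃ N : ℕ, 0 < N ∧ (N : ℤ) ∈ I := by
    have h1 : ∀ i : Fin k, ∃ n : ℕ, 0 < n ∧ n • (Pi.single i (1 : ℤ) : Fin k → ℤ) ∈ HH q r k :=
      fun i => exists_multiple (GoodSet q r k) F hF' _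
    choose n hn hn2 using h1
    refine ⟨∏ i, n i, Finset.prod_pos fun i _ => hn i, (hIm _).2 fun i => ?_⟩
    obtain ⟨u, hu⟩ := Finset.dvd_prod_of_mem n (mem_univ i)
    have h2 := AddSubgroup.nsmul_mem _ (hn2 i) u
    have h3 : (Pi.single i (((∏ i, n i : ℕ)) : ℤ) : Fin k → ℤ) = u • (n i • (Pi.single i (1 : ℤ) : Fin k → ℤ)) := by
      rw [hu, ← mul_smul]
      ext j
      rcases eq_or_ne j i with rfl | h
      · simp; ring
      · simp [h]
    rw [h3]
    exact h2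
  obtain ⟨g, hg⟩ := Int.subgroup_cyclic I
  rw [← AddSubgroup.zmultiples_eq_closure] at hg
  have hdvd : ∀ t : ℤ, t ∈ I ↔ (g.natAbs : ℤ) ∣ t := by
    intro t
    rw [hg, Int.mem_zmultiples_iff, Int.natAbs_dvd]
  have hg0 : g.natAbs ≠ 0 := by
    intro h
    have h1 := (hdvd N).1 hNI
    rw [h] at h1
    simp at h1
    omega
  have hg4 : g.natAbs < 4 := by
    by_contra hcon
    push Not at hcon
    have main : ∀ m' : ℕ, 1 ≤ m' → m' ∣ g.natAbs → (∃ c : Fin 4 → ℤ,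
        (∀ j, IsCoprime (r + q * c j) (m' : ℤ)) ∧ ∀ j j', j ≠ j' → ¬ (m' : ℤ) ∣ c j - c j') → False := by
      rintro m' hm' hdiv ⟨c, hc1, hc2⟩
      obtain ⟨X, hX1, hX2, x, hx, x', hx', hne⟩ := pattern hQC k q m' r hq hqr hm' c hc1 hc2
      have h1 : x - x' ∈ I := (hIm _).2 fun i => single_mem hq hX2 hX1 hx hx' i
      have h2 := (hdvd _).1 h1
      exact hne (dvd_trans (by exact_mod_cast hdiv) h2)
    rcases small_divisor _ hcon with h | h | h | ⟨p, hp, hp5, h⟩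
    · exact main 4 (by norm_num) h (cls4 r q hq2' hqr)
    · exact main 6 (by norm_num) h (cls6 r q hq2' hqr)
    · exact main 9 (by norm_num) h (cls9 r q hqr)
    · exact main p hp.one_lt.le h (clsp p hp hp5 r q hqr)
  obtain ⟨E, hE, hEd⟩ : ∃ E : ℤ, (E = 2 ∨ E = 3) ∧ (g.natAbs : ℤ) ∣ E := by
    rcases (show g.natAbs = 1 ∨ g.natAbs = 2 ∨ g.natAbs = 3 by omega) with h | h | h
    · exact ⟨2, Or.inl rfl, by rw [h]; norm_num⟩
    · exact ⟨2, Or.inl rfl, by rw [h]; norm_num⟩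
    · exact ⟨3, Or.inr rfl, by rw [h]; norm_num⟩
  refine ⟨E, hE, m₀, fun m hm w => hm₀ m hm _ ?_⟩
  have h1 : E • w = ∑ i, Pi.single i (E * w i) := by
    rw [Finset.univ_sum_single]
    ext i
    simp
  rw [h1]
  refine AddSubgroup.sum_mem _ fun i _ => ?_
  exact (hIm _).1 ((hdvd _).2 (Dvd.dvd.mul_right hEd _)) i

end Pool.Agent.R494.BGen
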