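import Mathlib

set_option autoImplicit false

/-!
Iterated sumsets, and sets of integers which meet the differences of all quadruples.
-/

namespace Pool.Agent.R494.BGen

open Finset

variable {G : Type} [AddCommGroup G]

/-- sums of exactly `n` elements of `D` -/
def SS (D : Set G) : ℕ → Set G
  | 0 => {0}
  | n + 1 => {x | ∃ d ∈ D, ∃ y ∈ SS D n, x = d + y}

theorem SS_one {D : Set G} {x : G} (h : x ∈ D) : x ∈ SS D 1 := ⟨x, h, 0, rfl, by simp⟩

theorem of_SS_one {D : Set G} {x : G} (h : x ∈ SS D 1) : x ∈ D := by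
  obtain ⟨d, hd, y, hy, rfl⟩ := h
  have : y = 0 := hy
  rw [this, add_zero]
  exact hd

theorem SS_add {D : Set G} {a b : ℕ} {x y : G} (hx : x ∈ SS D a) (hy : y ∈ SS D b) :
    x + y ∈ SS D (a + b) := by
  induction a generalizing x with
  | zero =>
    have : x = 0 := hx
    rw [this, zero_add, zero_add]
    exact hy
  | succ a ih =>
    obtain ⟨d, hd, z, hz, rfl⟩ := hx
    rw [show a + 1 + b = (a + b) + 1 by omega]
    exact ⟨d, hd, z + y, ih hz, by abel⟩

theorem SS_neg {D : Set G} (hD : ∀ x ∈ D, -x ∈ D) {n : ℕ} {x : G} (hx : x ∈ SS D n) :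
    -x ∈ SS D n := by
  induction n generalizing x with
  | zero =>
    have : x = 0 := hx
    rw [this, neg_zero]
    rfl
  | succ n ih =>
    obtain ⟨d, hd, z, hz, rfl⟩ := hx
    exact ⟨-d, hD d hd, -z, ih hz, by abel⟩

theorem SS_mono {D : Set G} (h0 : (0 : G) ∈ D) {a b : ℕ} (hab : a ≤ b) {x : G} (hx : x ∈ SS D a) :
    x ∈ SS D b := by
  induction b, hab using Nat.le_induction with
  | base => exact hx
  | succ b _ ih => exact ⟨0, h0, x, ih, by simp⟩

theorem SS_closure {D : Set G} (hD : ∀ x ∈ D, -x ∈ D) {x : G} (hx : x ∈ AddSubgroup.closure D) :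
    ∃ n, x ∈ SS D n := by
  induction hx using AddSubgroup.closure_induction with
  | mem x hx => exact ⟨1, SS_one hx⟩
  | zero => exact ⟨0, rfl⟩
  | add x y _ _ hx hy =>
    obtain ⟨a, ha⟩ := hx
    obtain ⟨b, hb⟩ := hy
    exact ⟨a + b, SS_add ha hb⟩
  | neg x _ hx =>
    obtain ⟨a, ha⟩ := hx
    exact ⟨a, SS_neg hD ha⟩

theorem SS_sum {D : Set G} {ι : Type} (s : Finset ι) (f : ι → G) (n : ℕ) (hf : ∀ i ∈ s, f i ∈ SS D n) :
    ∑ i ∈ s, f i ∈ SS D (s.card * n) := by
  classical
  induction s using Finset.induction_on with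
  | empty => simp [SS]
  | insert a s ha ih =>
    rw [sum_insert ha, card_insert_of_notMem ha]
    have h1 := SS_add (hf a (mem_insert_self a s)) (ih fun i hi => hf i (mem_insert_of_mem hi))
    rw [show (s.card + 1) * n = n + s.card * n by ring]
    exact h1

theorem SS_fin {D : Set G} (n : ℕ) {x : G} (hx : x ∈ SS D n) :
    ∃ v : Fin n → G, (∀ j, v j ∈ D) ∧ ∑ j, v j = x := by
  induction n generalizing x with
  | zero =>
    have : x = 0 := hx
    exact ⟨Fin.elim0, fun j => j.elim0, by simp [this]⟩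
  | succ n ih =>
    obtain ⟨d, hd, z, hz, rfl⟩ := hx
    obtain ⟨v, hv, hv2⟩ := ih hz
    refine ⟨Fin.cons d v, fun j => ?_, ?_⟩
    · induction j using Fin.cases with
      | zero => simpa using hd
      | succ j => simpa using hv j
    · rw [Fin.sum_univ_succ]
      simp [hv2]

/-- every quadruple of integers which misses a class modulo three has a difference in `D` -/
def Quad (D : Set ℤ) : Prop := ∀ w : Fin 4 → ℤ, (∃ c : ℤ, ∀ i, ¬ (3 : ℤ) ∣ w i - c) →
  ∃ i j, i ≠ j ∧ w i - w j ∈ D

theorem quad_three {D : Set ℤ} (hQ : Quad D) (h0 : (0 : ℤ) ∈ D) (hD : ∀ x ∈ D, -x ∈ D) (n : ℕ) :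
    ∀ w ∈ SS D n, (3 : ℤ) ∣ w → w ∈ SS D 3 := by
  induction n with
  | zero => exact fun w hw _ => SS_mono h0 (by omega) hw
  | succ n ih =>
    intro w hw hw3
    by_cases hn : n + 1 ≤ 3
    · exact SS_mono h0 hn hw
    by_contra hcon
    have hwn : w ∉ SS D n := fun h => hcon (ih w h hw3)
    -- `w = u + v`
    obtain ⟨a, ha, z, hz, rfl⟩ := hw
    obtain ⟨n', rfl⟩ : ∃ n', n = n' + 1 := ⟨n - 1, by omega⟩
    obtain ⟨b, hb, v, hv, rfl⟩ := hz
    have hu : a + b ∈ SS D 2 := SS_add (SS_one ha) (SS_one hb)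
    set w := a + (b + v) with hw
    -- `v ∈ SS D n'`, `n' ≥ 2`
    have e1 : a + b ∉ D := fun h => hwn (by
      have := SS_add (SS_one h) hv
      rw [hw, ← add_assoc]
      rw [Nat.add_comm 1 n'] at this
      exact this)
    have e2 : v ∉ D := fun h => hcon (by
      have := SS_add hu (SS_one h)
      rw [hw, ← add_assoc]
      exact this)
    have e3 : w ∉ D := fun h => hcon (SS_mono h0 (by omega) (SS_one h))
    have e4 : w + v ∉ D := fun h => hwn (by
      have := SS_add (SS_one h) (SS_neg hD hv)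
      have h2 : w + v + -v = w := by ring
      rw [h2, Nat.add_comm 1 n'] at this
      exact this)
    have hsym : ∀ x, x ∉ D → -x ∉ D := fun x hx h => hx (by
      have := hD _ h
      rwa [neg_neg] at this)
    obtain ⟨i, j, hij, hd⟩ := hQ ![0, w, a + b, -v] (by
      -- the classes are `0, 0, u, u`
      have hv3 : (3 : ℤ) ∣ (a + b) - (-v) := by
        have : (a + b) - (-v) = w := by rw [hw]; ring
        rw [this]; exact hw3
      rcases (show ((a + b) % 3 = 0 ∨ (a + b) % 3 = 1) ∨ (a + b) % 3 = 2 by omega) with h | h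
      · refine ⟨2, fun i => ?_⟩
        fin_cases i <;> simp <;> omega
      · refine ⟨1, fun i => ?_⟩
        fin_cases i <;> simp <;> omega)
    have f1 : w - (a + b) = v := by rw [hw]; ring
    have f2 : (a + b) - w = -v := by rw [hw]; ring
    have f3 : (a + b) - (-v) = w := by rw [hw]; ring
    have f4 : -v - (a + b) = -w := by rw [hw]; ring
    fin_cases i <;> fin_cases j <;> first | exact hij rfl | skip
    · exact hsym w e3 (by simpa using hd)
    · exact hsym (a + b) e1 (by simpa using hd)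
    · exact e2 (by simpa using hd)
    · exact e3 (by simpa using hd)
    · exact e2 (by rw [← f1]; simpa using hd)
    · exact e4 (by simpa using hd)
    · exact e1 (by simpa using hd)
    · exact hsym v e2 (by rw [← f2]; simpa using hd)
    · exact e3 (by rw [← f3]; simpa using hd)
    · exact hsym v e2 (by simpa using hd)
    · exact hsym (w + v) e4 (by
        have : -v - w = -(w + v) := by ring
        rw [← this]
        simpa using hd)
    · exact hsym w e3 (by rw [← f4]; simpa using hd)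

theorem quad_four {D : Set ℤ} (hQ : Quad D) (h0 : (0 : ℤ) ∈ D) (hD : ∀ x ∈ D, -x ∈ D) (x : ℤ)
    (hx : x ∈ AddSubgroup.closure D) : x ∈ SS D 4 := by
  by_cases hx3 : (3 : ℤ) ∣ x
  · obtain ⟨n, hn⟩ := SS_closure hD hx
    exact SS_mono h0 (by omega) (quad_three hQ h0 hD n x hn hx3)
  obtain ⟨g, hg, hg3⟩ : ∃ g ∈ D, ¬ (3 : ℤ) ∣ g := by
    by_contra hcon
    push Not at hcon
    apply hx3
    have : x ∈ AddSubgroup.zmultiples (3 : ℤ) := by
      refine (AddSubgroup.closure_le _).2 ?_ hx
      intro y hy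
      exact Int.mem_zmultiples_iff.2 (hcon y hy)
    exact Int.mem_zmultiples_iff.1 this
  have key : ∀ h ∈ D, (3 : ℤ) ∣ x - h → x ∈ SS D 4 := by
    intro h hh h3
    have h1 : x - h ∈ AddSubgroup.closure D :=
      AddSubgroup.sub_mem _ hx (AddSubgroup.subset_closure hh)
    obtain ⟨n, hn⟩ := SS_closure hD h1
    have h2 := quad_three hQ h0 hD n _ hn h3
    have h4 := SS_add h2 (SS_one hh)
    rwa [sub_add_cancel] at h4
  by_cases h : (3 : ℤ) ∣ x - g
  · exact key g hg h
  · refine key (-g) (hD g hg) ?_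
    have e1 : x % 3 = 1 ∨ x % 3 = 2 := by omega
    have e2 : g % 3 = 1 ∨ g % 3 = 2 := by omega
    rcases e1 with e1 | e1 <;> rcases e2 with e2 | e2 <;> omega

end Pool.Agent.R494.BGen
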