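import Mathlib
import Pool.Agent.R494.BGenS
import Pool.Agent.R494.BGen4

set_option autoImplicit false

/-!
The multiples of two or of three are sums of few good vectors.
-/

namespace Pool.Agent.R494.BGen

open Finset

/-- the coloured theorem for shifts -/
theorem adm (hQC : QC) (M : ℕ) (hM : 1 ≤ M) : ∃ K : ℕ, 1 ≤ K ∧ ∀ (q : ℕ) (r : ℤ), 1 ≤ q →
    IsCoprime r (q : ℤ) → ∀ x : Fin (4 * M) → Fin K → ℤ,
    Function.Injective (fun y : Fin (4 * M) × Fin K => x y.1 y.2) →
    (∀ p : ℕ, p.Prime → p ≤ 4 * M * K → ¬ (p : ℤ) ∣ q → ∃ c : ℤ, ∀ g i, ¬ (p : ℤ) ∣ x g i - c) →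
    ∃ (S : Finset (Fin (4 * M))) (cc : Fin (4 * M) → Fin K), M + 1 ≤ S.card ∧
      Pat q r (S.image fun g => x g (cc g)) := by
  classical
  obtain ⟨K, hK, hQ⟩ := hQC M hM
  refine ⟨K, hK, fun q r hq1 hqr x hxinj hx => ?_⟩
  have hq0 : (0 : ℤ) < q := by exact_mod_cast hq1
  obtain ⟨S, c, hS, hinf⟩ := hQ (fun _ _ => (q : ℤ)) (fun g i => r + q * x g i) (fun _ _ => hq0)
    (by
      intro y y' hyy
      simp only [Prod.mk.injEq, true_and, add_right_inj] at hyy
      exact hxinj (mul_left_cancel₀ hq0.ne' hyy))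
    (by
      intro p hp
      have hpp := Nat.prime_iff_prime_int.1 hp
      by_cases hpq : (p : ℤ) ∣ q
      · refine ⟨0, fun g i hd => ?_⟩
        have h1 : (p : ℤ) ∣ r := by
          have h2 : (p : ℤ) ∣ (q : ℤ) * x g i := Dvd.dvd.mul_right hpq _
          have h3 := (dvd_add_left h2).1 (by simpa using hd)
          exact h3
        exact hpp.not_isUnit (hqr.isUnit_of_dvd' h1 hpq)
      have hcop : IsCoprime (q : ℤ) (p : ℤ) := by
        rw [isCoprime_comm]
        exact (Prime.coprime_iff_not_dvd hpp).2 hpq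
      obtain ⟨m, w, hm⟩ := hcop
      have hmq : m * (q : ℤ) = 1 - w * p := by linarith
      rcases Nat.lt_or_ge (4 * M * K) p with h | h
      · obtain ⟨n, hn⟩ := exists_shift_int hp h x
        refine ⟨n - m * r, fun g i hd => hn g i ?_⟩
        have e1 : (q : ℤ) * (n - m * r) + (r + q * x g i) = q * (n + x g i) + (w * r) * p := by
          calc (q : ℤ) * (n - m * r) + (r + q * x g i) = q * (n + x g i) + r - (m * q) * r := by ring
            _ = _ := by rw [hmq]; ring
        rw [e1] at hd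
        have h2 : (p : ℤ) ∣ q * (n + x g i) := (dvd_add_left (Dvd.intro_left _ rfl)).1 hd
        exact (hpp.dvd_or_dvd h2).resolve_left hpq
      · obtain ⟨c, hc⟩ := hx p hp h hpq
        refine ⟨- c - m * r, fun g i hd => hc g i ?_⟩
        have e1 : (q : ℤ) * (- c - m * r) + (r + q * x g i) = q * (x g i - c) + (w * r) * p := by
          calc (q : ℤ) * (- c - m * r) + (r + q * x g i) = q * (x g i - c) + r - (m * q) * r := by ring
            _ = _ := by rw [hmq]; ring
        rw [e1] at hd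
        have h2 : (p : ℤ) ∣ q * (x g i - c) := (dvd_add_left (Dvd.intro_left _ rfl)).1 hd
        exact (hpp.dvd_or_dvd h2).resolve_left hpq)
  refine ⟨S, c, hS, ?_⟩
  refine hinf.mono ?_
  intro n hn y hy
  obtain ⟨g, hg, rfl⟩ := mem_image.1 hy
  exact hn g hg

/-- large patterns with all elements divisible by `Q` -/
theorem large_pattern (hQC : QC) (q : ℕ) (r : ℤ) (hq : 1 ≤ q) (hqr : IsCoprime r (q : ℤ)) (N Q : ℕ)
    (hQ : 1 ≤ Q) : ∃ X : Finset ℤ, N ≤ X.card ∧ Pat q r X ∧ ∀ x ∈ X, (Q : ℤ) ∣ x := by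
  classical
  obtain ⟨K, hK, hadm⟩ := adm hQC (N + 1) (by omega)
  set W : ℕ := (4 * (N + 1) * K).factorial with hW
  have hW0 : 0 < W := Nat.factorial_pos _
  set x : Fin (4 * (N + 1)) → Fin K → ℤ := fun g i => (Q * W * (finProdFinEquiv (g, i) : ℕ) : ℕ) with hx
  have hinj : Function.Injective (fun y : Fin (4 * (N + 1)) × Fin K => x y.1 y.2) := by
    intro y y' h
    simp only [hx] at h
    have h1 : Q * W * (finProdFinEquiv (y.1, y.2) : ℕ) = Q * W * (finProdFinEquiv (y'.1, y'.2) : ℕ) := by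
      exact_mod_cast h
    have h2 := Nat.eq_of_mul_eq_mul_left (by positivity) h1
    exact finProdFinEquiv.injective (Fin.ext h2)
  obtain ⟨S, cc, hS, hP⟩ := hadm q r hq hqr x hinj (by
    intro p hp hple _
    refine ⟨1, fun g i hd => ?_⟩
    have h1 : (p : ℤ) ∣ x g i := by
      have h2 : p ∣ W := Nat.dvd_factorial hp.pos hple
      simp only [hx]
      exact_mod_cast Dvd.dvd.mul_right (Dvd.dvd.mul_left h2 Q) _
    have h3 : (p : ℤ) ∣ 1 := by
      have := dvd_sub h1 hd
      simpa using this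
    exact (Nat.prime_iff_prime_int.1 hp).not_isUnit (isUnit_of_dvd_one h3))
  refine ⟨_, ?_, hP, ?_⟩
  · rw [card_image_of_injective _ (fun g g' h => congrArg Prod.fst (hinj (a₁ := (g, cc g)) (a₂ := (g', cc g')) h))]
    omega
  · intro y hy
    obtain ⟨g, _, rfl⟩ := mem_image.1 hy
    simp only [hx]
    exact_mod_cast Dvd.dvd.mul_right (Dvd.intro _ rfl) _

/-- the differences in patterns with at least `k + 2` elements -/
def Del (q : ℕ) (r : ℤ) (k : ℕ) : Set ℤ :=
  {t | ∃ X : Finset ℤ, k + 2 ≤ X.card ∧ Pat q r X ∧ ∃ a ∈ X, ∃ b ∈ X, t = a - b}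

theorem del_neg {q : ℕ} {r : ℤ} {k : ℕ} : ∀ x ∈ Del q r k, -x ∈ Del q r k := by
  rintro x ⟨X, h1, h2, a, ha, b, hb, rfl⟩
  exact ⟨X, h1, h2, b, hb, a, ha, by ring⟩

theorem del_zero (hQC : QC) {q : ℕ} {r : ℤ} {k : ℕ} (hq : 1 ≤ q) (hqr : IsCoprime r (q : ℤ)) :
    (0 : ℤ) ∈ Del q r k := by
  obtain ⟨X, h1, h2, -⟩ := large_pattern hQC q r hq hqr (k + 2) 1 (le_refl 1)
  obtain ⟨a, ha⟩ := card_pos.1 (show 0 < X.card by omega)
  exact ⟨X, h1, h2, a, ha, a, ha, by ring⟩

/-- sums of two differences meet all quadruples -/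
theorem del_quad (hQC : QC) (q : ℕ) (r : ℤ) (k : ℕ) (hq : 1 ≤ q) (hq2 : 2 ∣ q)
    (hqr : IsCoprime r (q : ℤ)) : Quad (SS (Del q r k) 2) := by
  classical
  intro w hw
  by_cases hwinj : Function.Injective w
  swap
  · rw [Function.not_injective_iff] at hwinj
    obtain ⟨i, j, hij, hne⟩ := hwinj
    refine ⟨i, j, hne, ?_⟩
    rw [hij, sub_self]
    exact SS_mono (del_zero hQC hq hqr) (by omega) (show (0 : ℤ) ∈ SS (Del q r k) 0 from rfl)
  obtain ⟨c3, hc3⟩ := hw
  obtain ⟨K, hK, hadm⟩ := adm hQC (k + 1) (by omega)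
  set W : ℕ := (4 * (k + 1) * K).factorial with hW
  have hW0 : 0 < W := Nat.factorial_pos _
  set B : ℕ := 1 + ∑ i, ∑ j, (w i - w j).natAbs with hB
  have hBw : ∀ i j, |w i - w j| < B := by
    intro i j
    rw [Int.abs_eq_natAbs]
    have h1 : (w i - w j).natAbs ≤ ∑ j, (w i - w j).natAbs :=
      single_le_sum (f := fun j => (w i - w j).natAbs) (fun _ _ => Nat.zero_le _) (mem_univ j)
    have h2 : ∑ j, (w i - w j).natAbs ≤ ∑ i, ∑ j, (w i - w j).natAbs :=
      single_le_sum (f := fun i => ∑ j, (w i - w j).natAbs) (fun _ _ => Nat.zero_le _) (mem_univ i)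
    exact_mod_cast (show (w i - w j).natAbs < B by omega)
  obtain ⟨X, hXc, hXP, hXd⟩ := large_pattern hQC q r hq hqr (4 * (k + 1) * K + (k + 2)) (W * B)
    (Nat.mul_pos hW0 (by omega))
  obtain ⟨t, htX, htc⟩ := exists_subset_card_eq (show 4 * (k + 1) * K ≤ X.card by omega)
  set y : Fin (4 * (k + 1)) → Fin K → ℤ := fun g i => t.orderEmbOfFin htc (finProdFinEquiv (g, i)) with hy
  have hyX : ∀ g i, y g i ∈ X := fun g i => htX (orderEmbOfFin_mem t htc _)
  have hyinj : ∀ g i g' i', y g i = y g' i' → (g, i) = (g', i') := by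
    intro g i g' i' h
    exact finProdFinEquiv.injective ((t.orderEmbOfFin htc).injective h)
  set e : Fin (4 * (k + 1)) ≃ Fin 4 × Fin (k + 1) := finProdFinEquiv.symm with he
  set x : Fin (4 * (k + 1)) → Fin K → ℤ := fun g i => w (e g).1 + y g i with hx
  have hinj : Function.Injective (fun z : Fin (4 * (k + 1)) × Fin K => x z.1 z.2) := by
    intro z z' h
    simp only [hx] at h
    have h1 : w (e z.1).1 - w (e z'.1).1 = y z'.1 z'.2 - y z.1 z.2 := by linarith
    have h2 : ((W * B : ℕ) : ℤ) ∣ w (e z.1).1 - w (e z'.1).1 := by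
      rw [h1]
      exact dvd_sub (hXd _ (hyX _ _)) (hXd _ (hyX _ _))
    have h3 : w (e z.1).1 - w (e z'.1).1 = 0 := by
      apply Int.eq_zero_of_abs_lt_dvd h2
      refine lt_of_lt_of_le (hBw _ _) ?_
      exact_mod_cast Nat.le_mul_of_pos_left B hW0
    have h4 : y z.1 z.2 = y z'.1 z'.2 := by rw [h3] at h1; linarith
    exact hyinj _ _ _ _ h4
  obtain ⟨S, cc, hS, hP⟩ := hadm q r hq hqr x hinj (by
    intro p hp hple hpq
    have hpy : ∀ g i, (p : ℤ) ∣ y g i := by
      intro g i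
      refine dvd_trans ?_ (hXd _ (hyX g i))
      exact_mod_cast Dvd.dvd.mul_right (Nat.dvd_factorial hp.pos hple) B
    have hcl : ∃ c : ℤ, ∀ i, ¬ (p : ℤ) ∣ w i - c := by
      have hp2 : p ≠ 2 := by
        rintro rfl
        exact hpq (by exact_mod_cast hq2)
      by_cases hp3 : p = 3
      · subst hp3
        exact ⟨c3, fun i => by exact_mod_cast hc3 i⟩
      · have h5 : 5 ≤ p := by
          have := hp.two_le
          by_contra hlt
          push Not at hlt
          have : p = 4 := by omega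
          subst this
          exact absurd hp (by norm_num)
        obtain ⟨n, hn⟩ := exists_shift_int (T := 4) (K := 1) hp (by omega) (fun i _ => w i)
        refine ⟨-n, fun i hd => hn i 0 ?_⟩
        have : w i - -n = n + w i := by ring
        rwa [this] at hd
    obtain ⟨c, hc⟩ := hcl
    refine ⟨c, fun g i hd => hc (e g).1 ?_⟩
    have h1 := dvd_sub hd (hpy g i)
    have h2 : x g i - c - y g i = w (e g).1 - c := by simp only [hx]; ring
    rwa [h2] at h1)
  obtain ⟨g, hg, g', hg', hne⟩ : ∃ g ∈ S, ∃ g' ∈ S, (e g).1 ≠ (e g').1 := by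
    by_contra hcon
    push Not at hcon
    obtain ⟨g₀, hg₀⟩ : S.Nonempty := card_pos.1 (by omega)
    have hinj : Set.InjOn (fun g => (e g).2) (S : Set (Fin (4 * (k + 1)))) := by
      intro g hg g' hg' h
      exact e.injective (Prod.ext (hcon g hg g' hg') h)
    have h1 : S.card ≤ (univ : Finset (Fin (k + 1))).card :=
      card_le_card_of_injOn _ (fun _ _ => mem_univ _) hinj
    rw [card_univ, Fintype.card_fin] at h1
    omega
  refine ⟨(e g).1, (e g').1, hne, ?_⟩
  have h1 : x g (cc g) - x g' (cc g') ∈ Del q r k := by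
    refine ⟨_, ?_, hP, _, mem_image_of_mem _ hg, _, mem_image_of_mem _ hg', rfl⟩
    rw [card_image_of_injective _ (fun g g' h => congrArg Prod.fst
      (hinj (a₁ := (g, cc g)) (a₂ := (g', cc g')) h))]
    omega
  have h2 : y g' (cc g') - y g (cc g) ∈ Del q r k :=
    ⟨X, by omega, hXP, _, hyX _ _, _, hyX _ _, rfl⟩
  have h3 := SS_add (SS_one h1) (SS_one h2)
  have h4 : x g (cc g) - x g' (cc g') + (y g' (cc g') - y g (cc g)) = w (e g).1 - w (e g').1 := by
    simp only [hx]; ring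
  rwa [h4] at h3

/-- a difference in a large pattern, in one coordinate, is a sum of `k + 1` good vectors -/
theorem single_SS {q k : ℕ} {r : ℤ} (hq : 1 ≤ q) {t : ℤ} (ht : t ∈ Del q r k) (i : Fin k) :
    (Pi.single i t : Fin k → ℤ) ∈ SS (GoodSet q r k) (k + 1) := by
  classical
  obtain ⟨X, hc, hX, a, ha, b, hb, rfl⟩ := ht
  obtain ⟨k', rfl⟩ : ∃ k', k = k' + 1 := ⟨k - 1, by have := i.2; omega⟩
  have hcard : k' + 1 ≤ ((X.erase a).erase b).card := by
    have h1 : (X.erase a).card = X.card - 1 := card_erase_of_mem ha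
    have h2 : (X.erase a).card - 1 ≤ ((X.erase a).erase b).card := pred_card_le_card_erase
    omega
  obtain ⟨f, hf⟩ : ∃ f : Fin (k' + 1) → ℤ, Function.Injective f ∧ ∀ j, f j ∈ (X.erase a).erase b := by
    obtain ⟨t, ht, htc⟩ := exists_subset_card_eq hcard
    refine ⟨fun j => t.orderEmbOfFin htc j, (t.orderEmbOfFin htc).injective, fun j => ?_⟩
    exact ht (Finset.orderEmbOfFin_mem t htc j)
  obtain ⟨hf1, hf2⟩ := hf
  have hfa : ∀ j, f j ≠ a := fun j => (mem_erase.1 (mem_erase.1 (hf2 j)).2).1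
  have hfb : ∀ j, f j ≠ b := fun j => (mem_erase.1 (hf2 j)).1
  have hfX : ∀ j, f j ∈ X := fun j => (mem_erase.1 (mem_erase.1 (hf2 j)).2).2
  have hins : ∀ c : ℤ, (∀ j, f j ≠ c) →
      Function.Injective (Fin.insertNth i.succ c f : Fin (k' + 2) → ℤ) := by
    intro c hfc j j' hjj
    induction j using Fin.succAboveCases i.succ with
    | x =>
      induction j' using Fin.succAboveCases i.succ with
      | x => rfl
      | p j' =>
        rw [Fin.insertNth_apply_same, Fin.insertNth_apply_succAbove] at hjj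
        exact absurd hjj.symm (hfc j')
    | p j =>
      induction j' using Fin.succAboveCases i.succ with
      | x =>
        rw [Fin.insertNth_apply_same, Fin.insertNth_apply_succAbove] at hjj
        exact absurd hjj (hfc j)
      | p j' =>
        rw [Fin.insertNth_apply_succAbove, Fin.insertNth_apply_succAbove] at hjj
        rw [hf1 hjj]
  have hinsX : ∀ c : ℤ, c ∈ X → ∀ j, (Fin.insertNth i.succ c f : Fin (k' + 2) → ℤ) j ∈ X := by
    intro c hcX j
    induction j using Fin.succAboveCases i.succ with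
    | x => rw [Fin.insertNth_apply_same]; exact hcX
    | p j => rw [Fin.insertNth_apply_succAbove]; exact hfX j
  -- the rotations
  set y : Fin (k' + 2) → ℤ := Fin.insertNth i.succ b f with hy
  set z : Fin (k' + 2) → ℤ := Fin.insertNth i.succ a f with hz
  have hrot : ∀ s : Fin (k' + 2), (fun i' : Fin (k' + 1) => y (i'.succ + s) - y (0 + s)) ∈
      GoodSet q r (k' + 1) := fun s =>
    pat_good hq hX (fun j => y (j + s)) ((hins b hfb).comp (add_left_injective s))
      (fun j => hinsX b hb _)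
  have hzg : (fun i' : Fin (k' + 1) => z i'.succ - z 0) ∈ GoodSet q r (k' + 1) :=
    pat_good hq hX z (hins a hfa) (hinsX a ha)
  have hsum : ∑ s : Fin (k' + 2), (fun i' : Fin (k' + 1) => y (i'.succ + s) - y (0 + s)) = 0 := by
    ext i'
    rw [Finset.sum_apply, Finset.sum_sub_distrib, Pi.zero_apply, sub_eq_zero]
    have e1 : ∑ s : Fin (k' + 2), y (i'.succ + s) = ∑ s, y s :=
      Equiv.sum_comp (Equiv.addLeft i'.succ) y
    have e2 : ∑ s : Fin (k' + 2), y (0 + s) = ∑ s, y s :=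
      Equiv.sum_comp (Equiv.addLeft 0) y
    rw [e1, e2]
  have h1 := SS_sum (D := GoodSet q r (k' + 1)) (univ.erase (0 : Fin (k' + 2)))
    (fun s => (fun i' : Fin (k' + 1) => y (i'.succ + s) - y (0 + s))) 1
    (fun s _ => SS_one (hrot s))
  have h2 := SS_add (SS_one hzg) h1
  rw [card_erase_of_mem (mem_univ _), card_univ, Fintype.card_fin] at h2
  have h3 : 1 + (k' + 2 - 1) * 1 = k' + 1 + 1 := by omega
  rw [h3] at h2
  convert h2 using 1
  have h4 := Finset.sum_erase_add (univ : Finset (Fin (k' + 2)))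
    (fun s => (fun i' : Fin (k' + 1) => y (i'.succ + s) - y (0 + s))) (mem_univ 0)
  rw [hsum] at h4
  rw [eq_neg_of_add_eq_zero_left h4]
  ext i'
  have h0 : ∀ c : ℤ, (Fin.insertNth i.succ c f : Fin (k' + 2) → ℤ) 0 = f 0 := by
    intro c
    have : (0 : Fin (k' + 2)) = i.succ.succAbove 0 := by
      rw [Fin.succAbove_of_castSucc_lt _ _ (by simp [Fin.lt_def])]
      rfl
    rw [this, Fin.insertNth_apply_succAbove]
  simp only [Pi.add_apply, Pi.neg_apply, add_zero, hy, hz, h0]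
  rcases eq_or_ne i' i with rfl | hne
  · rw [Pi.single_eq_same, Fin.insertNth_apply_same, Fin.insertNth_apply_same]
    ring
  · rw [Pi.single_eq_of_ne hne]
    obtain ⟨j, hj⟩ : ∃ j, i'.succ = i.succ.succAbove j := by
      have h3 : i'.succ ≠ i.succ := fun h => hne (Fin.succ_injective _ h)
      obtain ⟨j, hj⟩ := Fin.exists_succAbove_eq h3
      exact ⟨j, hj.symm⟩
    rw [hj, Fin.insertNth_apply_succAbove, Fin.insertNth_apply_succAbove]
    ring

theorem single_SS' {q k : ℕ} {r : ℤ} (hq : 1 ≤ q) (i : Fin k) (n : ℕ) : ∀ t ∈ SS (Del q r k) n,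
    (Pi.single i t : Fin k → ℤ) ∈ SS (GoodSet q r k) (n * (k + 1)) := by
  induction n with
  | zero =>
    intro t ht
    have : t = 0 := ht
    rw [this, Pi.single_zero, zero_mul]
    rfl
  | succ n ih =>
    rintro t ⟨d, hd, y, hy, rfl⟩
    have h1 := SS_add (single_SS hq hd i) (ih y hy)
    rw [← Pi.single_add] at h1
    rw [show (n + 1) * (k + 1) = (k + 1) + n * (k + 1) by ring]
    exact h1

theorem SS_SS {G : Type} [AddCommGroup G] {D : Set G} (a b : ℕ) : ∀ x ∈ SS (SS D a) b,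
    x ∈ SS D (b * a) := by
  induction b with
  | zero =>
    intro x hx
    have : x = 0 := hx
    rw [this, zero_mul]
    rfl
  | succ b ih =>
    rintro x ⟨d, hd, y, hy, rfl⟩
    have h1 := SS_add hd (ih y hy)
    rw [show (b + 1) * a = a + b * a by ring]
    exact h1

/-- the final theorem -/
theorem explicit (hQC : QC) (k q : ℕ) (r : ℤ) (hk : 1 ≤ k) (hq : 1 ≤ q) (hq2 : 2 ∣ q)
    (hqr : IsCoprime r (q : ℤ)) :
    ∃ E : ℤ, (E = 2 ∨ E = 3) ∧ ∀ m : ℕ, 8 * k * (k + 1) ≤ m → ∀ w : Fin k → ℤ,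
      ∃ v : Fin m → Fin k → ℤ, (∀ j, v j ∈ GoodSet q r k) ∧ ∑ j, v j = E • w := by
  classical
  have hq2' : (2 : ℤ) ∣ q := by exact_mod_cast hq2
  set Δ := Del q r k with hΔ
  have h0 : (0 : ℤ) ∈ Δ := del_zero hQC hq hqr
  have hneg : ∀ x ∈ Δ, -x ∈ Δ := del_neg
  -- the generated group
  obtain ⟨g, hg⟩ := Int.subgroup_cyclic (AddSubgroup.closure Δ)
  rw [← AddSubgroup.zmultiples_eq_closure] at hg
  have hdvd : ∀ t : ℤ, t ∈ AddSubgroup.closure Δ ↔ (g.natAbs : ℤ) ∣ t := by
    intro t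
    rw [hg, Int.mem_zmultiples_iff, Int.natAbs_dvd]
  have hg0 : g.natAbs ≠ 0 := by
    intro h
    obtain ⟨X, hX1, hX2, -⟩ := large_pattern hQC q r hq hqr (k + 2) 1 (le_refl 1)
    obtain ⟨a, ha, b, hb, hab⟩ := one_lt_card.1 (show 1 < X.card by omega)
    have h1 : a - b ∈ AddSubgroup.closure Δ :=
      AddSubgroup.subset_closure ⟨X, hX1, hX2, a, ha, b, hb, rfl⟩
    have h2 := (hdvd _).1 h1
    rw [h] at h2
    simp at h2
    exact hab (by linarith)
  have hg4 : g.natAbs < 4 := by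
    by_contra hcon
    push Not at hcon
    have main : ∀ m' : ℕ, 1 ≤ m' → m' ∣ g.natAbs → (∃ c : Fin 4 → ℤ,
        (∀ j, IsCoprime (r + q * c j) (m' : ℤ)) ∧ ∀ j j', j ≠ j' → ¬ (m' : ℤ) ∣ c j - c j') → False := by
      rintro m' hm' hdiv ⟨c, hc1, hc2⟩
      obtain ⟨X, hX1, hX2, x, hx, x', hx', hne⟩ := pattern hQC k q m' r hq hqr hm' c hc1 hc2
      have h1 : x - x' ∈ AddSubgroup.closure Δ :=
        AddSubgroup.subset_closure ⟨X, hX1, hX2, x, hx, x', hx', rfl⟩
      have h2 := (hdvd _).1 h1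
      exact hne (dvd_trans (by exact_mod_cast hdiv) h2)
    rcases small_divisor _ hcon with h | h | h | ⟨p, hp, hp5, h⟩
    · exact main 4 (by norm_num) h (cls4 r q hq2' hqr)
    · exact main 6 (by norm_num) h (cls6 r q hq2' hqr)
    · exact main 9 (by norm_num) h (cls9 r q hqr)
    · exact main p hp.one_lt.le h (clsp p hp hp5 r q hqr)
  obtain ⟨E, hE, hEd⟩ : ∃ E : ℤ, (E = 2 ∨ E = 3) ∧ (g.natAbs : ℤ) ∣ E := by
    rcases (show g.natAbs = 1 ∨ g.natAbs = 2 ∨ g.natAbs = 3 by omega) with h | h | h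
    · exact ⟨2, Or.inl rfl, by rw [h]; norm_num⟩
    · exact ⟨2, Or.inl rfl, by rw [h]; norm_num⟩
    · exact ⟨3, Or.inr rfl, by rw [h]; norm_num⟩
  -- eight summands
  have h8 : ∀ t : ℤ, (g.natAbs : ℤ) ∣ t → t ∈ SS Δ 8 := by
    intro t ht
    have h1 := (hdvd t).2 ht
    have h2 : t ∈ AddSubgroup.closure (SS Δ 2) := by
      refine (AddSubgroup.closure_le _).2 ?_ h1
      intro x hx
      exact AddSubgroup.subset_closure (SS_mono h0 (by omega) (SS_one hx))
    have h3 := quad_four (del_quad hQC q r k hq hq2 hqr)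
      (SS_mono h0 (by omega) (show (0 : ℤ) ∈ SS Δ 0 from rfl)) (fun x hx => SS_neg hneg hx) t h2
    exact SS_SS 2 4 t h3
  have hvec : ∀ u : Fin k → ℤ, (∀ i, (g.natAbs : ℤ) ∣ u i) → ∀ n : ℕ,
      u ∈ SS (GoodSet q r k) (8 * k * (k + 1) + n * (k + 1)) := by
    intro u hu n
    have h1 := SS_sum (D := GoodSet q r k) (univ : Finset (Fin k)) (fun i => Pi.single i (u i))
      (8 * (k + 1)) (fun i _ => single_SS' hq i 8 _ (h8 _ (hu i)))
    rw [Finset.univ_sum_single, card_univ, Fintype.card_fin] at h1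
    have h2 : (0 : Fin k → ℤ) ∈ SS (GoodSet q r k) (n * (k + 1)) := by
      have := single_SS' (q := q) (r := r) hq (⟨0, by omega⟩ : Fin k) n 0
        (SS_mono h0 (Nat.zero_le _) (show (0 : ℤ) ∈ SS Δ 0 from rfl))
      rwa [Pi.single_zero] at this
    have h3 := SS_add h1 h2
    rw [add_zero] at h3
    rw [show 8 * k * (k + 1) + n * (k + 1) = k * (8 * (k + 1)) + n * (k + 1) by ring]
    exact h3
  -- one good vector with all coordinates in the group
  obtain ⟨s₀, hs₀, hs₀d⟩ : ∃ s ∈ GoodSet q r k, ∀ i, (g.natAbs : ℤ) ∣ s i := by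
    obtain ⟨X, hX1, hX2, -⟩ := large_pattern hQC q r hq hqr (k + 2) 1 (le_refl 1)
    obtain ⟨t, ht, htc⟩ := exists_subset_card_eq (show k + 1 ≤ X.card by omega)
    refine ⟨_, pat_good hq hX2 (fun j => t.orderEmbOfFin htc j) (t.orderEmbOfFin htc).injective
      (fun j => ht (Finset.orderEmbOfFin_mem t htc j)), fun i => ?_⟩
    refine (hdvd _).1 (AddSubgroup.subset_closure ⟨X, hX1, hX2, _, ht (Finset.orderEmbOfFin_mem t htc _),
      _, ht (Finset.orderEmbOfFin_mem t htc _), rfl⟩)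
  refine ⟨E, hE, fun m hm w => ?_⟩
  obtain ⟨n, j, hnj⟩ : ∃ n j : ℕ, m = 8 * k * (k + 1) + n * (k + 1) + j := by
    refine ⟨(m - 8 * k * (k + 1)) / (k + 1), (m - 8 * k * (k + 1)) % (k + 1), ?_⟩
    have := Nat.div_add_mod (m - 8 * k * (k + 1)) (k + 1)
    rw [mul_comm (k + 1)] at this
    omega
  have h1 := hvec (E • w - j • s₀) (fun i => by
    simp only [Pi.sub_apply, Pi.smul_apply, smul_eq_mul, nsmul_eq_mul]
    exact dvd_sub (Dvd.dvd.mul_right hEd _) (Dvd.dvd.mul_left (hs₀d i) _)) n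
  have h2 : j • s₀ ∈ SS (GoodSet q r k) j := by
    have := SS_sum (D := GoodSet q r k) (range j) (fun _ => s₀) 1 (fun _ _ => SS_one hs₀)
    simpa using this
  have h3 := SS_add h1 h2
  rw [sub_add_cancel, ← hnj] at h3
  exact SS_fin m h3

end Pool.Agent.R494.BGen
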