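import Mathlib
import Pool.Agent.R494.BGenT
import Pool.Agent.TH899.UG.Qc

set_option autoImplicit false

/-!
Explicit bounded generation by good vectors of shifts, unconditionally.
-/

namespace Pool.Agent.R494.BGen

open Finset

theorem big_infinite {F : Set ℕ} (h : Pool.Agent.H732R3.BigQ.Big F) : F.Infinite := by
  intro hfin
  have h1 := h (1 / 2) (by norm_num)
  have hM : ∀ x : ℝ, ({n : ℕ | n ∈ F ∧ (n : ℝ) ≤ x}.ncard : ℝ) ≤ F.ncard := by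
    intro x
    have hsub : {n : ℕ | n ∈ F ∧ (n : ℝ) ≤ x} ⊆ F := fun n hn => hn.1
    exact_mod_cast Set.ncard_le_ncard hsub hfin
  have h2 : Filter.Tendsto (fun x : ℝ => x ^ (1 - 1 / 2 : ℝ)) Filter.atTop Filter.atTop :=
    tendsto_rpow_atTop (by norm_num)
  obtain ⟨x, hx1, hx2⟩ := (h1.and_eventually (h2.eventually_gt_atTop (F.ncard : ℝ))).exists
  have := hM x
  linarith

theorem qc : QC := by
  obtain ⟨c₀, hc₀, hc₁, h⟩ := Pool.Agent.TH899.UG.quarterC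
  intro M hM
  obtain ⟨K, hK, hK2⟩ := h (4 * M) M (by omega) (by
    push_cast
    have : (1 : ℝ) ≤ M := by exact_mod_cast hM
    nlinarith)
  refine ⟨K, hK, fun a b ha hinj hadm => ?_⟩
  obtain ⟨S, c, hS, hB⟩ := hK2 a b ha hinj hadm
  exact ⟨S, c, hS, big_infinite hB⟩

theorem main (k q : ℕ) (r : ℤ) (hk : 1 ≤ k) (hq : 1 ≤ q) (hq2 : Even q) (hqr : IsCoprime r (q : ℤ)) :
    ∃ E : ℤ, (E = 2 ∨ E = 3) ∧ ∀ m : ℕ, 8 * k * (k + 1) ≤ m → ∀ w : Fin k → ℤ,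
      ∃ v : Fin m → Fin k → ℤ, (∀ j, Function.Injective (v j) ∧ (∀ i, v j i ≠ 0) ∧
        {N : ℕ | N.Prime ∧ (N : ℤ) ≡ r [ZMOD q] ∧
          ∀ i, ∃ p : ℕ, p.Prime ∧ (p : ℤ) = N + q * v j i}.Infinite) ∧ ∑ j, v j = E • w :=
  explicit qc k q r hk hq hq2.two_dvd hqr

end Pool.Agent.R494.BGen
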