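import Mathlib

set_option autoImplicit false

/-!
Linear recurrences with coefficients in a torsion group.
-/

namespace Pool.Agent.R494.CG

open Finset

variable {Q : Type} [AddCommGroup Q]

theorem dvd_of_smul {p : ℕ} (hp : p.Prime) {η : Q} (h0 : η ≠ 0) (hpη : (p : ℤ) • η = 0) {d : ℤ}
    (hd : d • η = 0) : (p : ℤ) ∣ d := by
  by_contra hcon
  have hpp := Nat.prime_iff_prime_int.1 hp
  obtain ⟨u, v, huv⟩ := (Prime.coprime_iff_not_dvd hpp).2 hcon
  apply h0
  have : η = (u * p + v * d) • η := by rw [huv, one_smul]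
  rw [this, add_smul, mul_smul, mul_smul, hpη, hd, smul_zero, smul_zero, add_zero]

/-- the recurrence modulo a prime -/
theorem rec_prime {p : ℕ} (hp : p.Prime) {k : ℕ} (η : Fin k → Q) (hη : ∀ i, (p : ℤ) • η i = 0)
    (hne : ∃ i, η i ≠ 0) (d : ℕ → ℤ) (N : ℕ)
    (hrec : ∀ j, j + k ≤ N → ∑ i : Fin k, d (j + i) • η i = 0) (h0 : ∀ j < k, (p : ℤ) ∣ d j) :
    ∀ l, l + k ≤ N → (p : ℤ) ∣ d l := by
  classical
  -- the last nonzero coefficient
  obtain ⟨t, ht, htl⟩ : ∃ t, η t ≠ 0 ∧ ∀ i, t < i → η i = 0 := by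
    set s := univ.filter (fun i => η i ≠ 0) with hs
    have hsne : s.Nonempty := by
      obtain ⟨i, hi⟩ := hne
      exact ⟨i, mem_filter.2 ⟨mem_univ i, hi⟩⟩
    refine ⟨s.max' hsne, (mem_filter.1 (s.max'_mem hsne)).2, fun i hi => ?_⟩
    by_contra h
    have := s.le_max' i (mem_filter.2 ⟨mem_univ i, h⟩)
    exact absurd hi (not_lt.2 this)
  intro l
  induction l using Nat.strong_induction_on with
  | _ l ih =>
    intro hl
    by_cases hlk : l < k
    · exact h0 l hlk
    push Not at hlk
    have htk := t.2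
    have h1 := hrec (l - t) (by omega)
    rw [← Finset.add_sum_erase _ _ (mem_univ t)] at h1
    have h2 : ∑ i ∈ univ.erase t, d (l - t + i) • η i = 0 := by
      refine sum_eq_zero fun i hi => ?_
      rcases lt_or_gt_of_ne (ne_of_mem_erase hi) with h | h
      · have h3 : (i : ℕ) < t := h
        obtain ⟨w, hw⟩ := ih (l - t + i) (by omega) (by omega)
        rw [hw, mul_comm, mul_smul, hη, smul_zero]
      · rw [htl i h, smul_zero]
    rw [h2, add_zero, show l - (t : ℕ) + t = l by omega] at h1
    exact dvd_of_smul hp ht (hη t) h1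

/-- the recurrence modulo the square of a prime -/
theorem rec_sq {p : ℕ} (hp : p.Prime) {k : ℕ} (η : Fin k → Q) (hη : ∀ i, ((p : ℤ) * p) • η i = 0)
    (hne : ∃ i, (p : ℤ) • η i ≠ 0) (d : ℕ → ℤ) (N : ℕ)
    (hrec : ∀ j, j + k ≤ N → ∑ i : Fin k, d (j + i) • η i = 0)
    (h0 : ∀ j < k, (p : ℤ) * p ∣ d j) :
    ∀ l, l + 2 * k ≤ N → (p : ℤ) * p ∣ d l := by
  have hp0 : (p : ℤ) ≠ 0 := by exact_mod_cast hp.ne_zero
  have h1 : ∀ l, l + k ≤ N → (p : ℤ) ∣ d l := by
    refine rec_prime hp (fun i => (p : ℤ) • η i) (fun i => by rw [← mul_smul]; exact hη i) hne d N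
      (fun j hj => ?_) (fun j hj => (Dvd.intro _ rfl).trans (h0 j hj))
    have := hrec j hj
    calc ∑ i : Fin k, d (j + i) • (p : ℤ) • η i = (p : ℤ) • ∑ i : Fin k, d (j + i) • η i := by
          rw [smul_sum]
          exact sum_congr rfl fun i _ => smul_comm _ _ _
      _ = 0 := by rw [this, smul_zero]
  have hdiv : ∀ l, l + k ≤ N → d l = p * (d l / p) := fun l hl =>
    (Int.mul_ediv_cancel' (h1 l hl)).symm
  have h2 : ∀ l, l + k ≤ N - k → (p : ℤ) ∣ d l / p := by
    refine rec_prime hp (fun i => (p : ℤ) • η i) (fun i => by rw [← mul_smul]; exact hη i) hne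
      (fun l => d l / p) (N - k) (fun j hj => ?_) (fun j hj => ?_)
    · rcases Nat.eq_zero_or_pos k with hk | hk
      · subst hk
        obtain ⟨i, _⟩ := hne
        exact i.elim0
      have := hrec j (by omega)
      rw [← this]
      refine sum_congr rfl fun i _ => ?_
      have h3 := hdiv (j + i) (by have := i.2; omega)
      conv_rhs => rw [h3]
      rw [← mul_smul, mul_comm]
    · obtain ⟨w, hw⟩ := h0 j hj
      refine ⟨w, ?_⟩
      rw [hw, mul_assoc]
      exact Int.mul_ediv_cancel_left _ hp0
  intro l hl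
  obtain ⟨w, hw⟩ := h2 l (by omega)
  rw [hdiv l (by omega), hw, ← mul_assoc]
  exact Dvd.intro _ rfl

/-- the moduli which are excluded -/
def Mod (m : ℕ) : Prop := m = 4 ∨ m = 6 ∨ m = 9 ∨ (m.Prime ∧ 5 ≤ m)

theorem rec_mod {m : ℕ} (hm : Mod m) {k : ℕ} (η : Fin k → Q) (hη : ∀ i, (m : ℤ) • η i = 0)
    (hne : ∀ t : ℤ, (∀ i, t • η i = 0) → (m : ℤ) ∣ t) (d : ℕ → ℤ) (N : ℕ)
    (hrec : ∀ j, j + k ≤ N → ∑ i : Fin k, d (j + i) • η i = 0) (h0 : ∀ j < k, (m : ℤ) ∣ d j) :
    ∀ l, l + 2 * k ≤ N → (m : ℤ) ∣ d l := by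
  rcases hm with rfl | rfl | rfl | ⟨hm, h5⟩
  · have h := rec_sq Nat.prime_two η (fun i => by simpa using hη i) (by
      by_contra hcon
      push Not at hcon
      have := hne 2 (fun i => by simpa using hcon i)
      norm_num at this) d N hrec (fun j hj => by simpa using h0 j hj)
    intro l hl
    simpa using h l hl
  · -- six
    intro l hl
    have h2 := rec_prime Nat.prime_two (fun i => (3 : ℤ) • η i) (fun i => by
        rw [← mul_smul]; simpa using hη i) (by
      by_contra hcon
      push Not at hcon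
      have := hne 3 hcon
      norm_num at this) d N (fun j hj => by
        have := hrec j hj
        calc ∑ i : Fin k, d (j + i) • (3 : ℤ) • η i = (3 : ℤ) • ∑ i : Fin k, d (j + i) • η i := by
              rw [smul_sum]
              exact sum_congr rfl fun i _ => smul_comm _ _ _
          _ = 0 := by rw [this, smul_zero]) (fun j hj => by
        have := h0 j hj
        push_cast at this ⊢
        omega) l (by omega)
    have h3 := rec_prime Nat.prime_three (fun i => (2 : ℤ) • η i) (fun i => by
        rw [← mul_smul]; simpa using hη i) (by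
      by_contra hcon
      push Not at hcon
      have := hne 2 hcon
      norm_num at this) d N (fun j hj => by
        have := hrec j hj
        calc ∑ i : Fin k, d (j + i) • (2 : ℤ) • η i = (2 : ℤ) • ∑ i : Fin k, d (j + i) • η i := by
              rw [smul_sum]
              exact sum_congr rfl fun i _ => smul_comm _ _ _
          _ = 0 := by rw [this, smul_zero]) (fun j hj => by
        have := h0 j hj
        push_cast at this ⊢
        omega) l (by omega)
    push_cast at h2 h3 ⊢
    omega
  · have h := rec_sq Nat.prime_three η (fun i => by simpa using hη i) (by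
      by_contra hcon
      push Not at hcon
      have := hne 3 (fun i => by simpa using hcon i)
      norm_num at this) d N hrec (fun j hj => by simpa using h0 j hj)
    intro l hl
    simpa using h l hl
  · intro l hl
    refine rec_prime hm η hη ?_ d N hrec h0 l (by omega)
    by_contra hcon
    push Not at hcon
    have := hne 1 (fun i => by rw [hcon i, smul_zero])
    have h1 : (m : ℤ) ≤ 1 := Int.le_of_dvd one_pos this
    omega

end Pool.Agent.R494.CG
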