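import Mathlib
import Pool.Agent.R494.BGen3

set_option autoImplicit false

/-!
Exact patterns of primes in coloured classes.
-/

namespace Pool.Agent.R494.CG

open Finset Pool.Agent.R494.BGen

/-- more than a quarter of the classes, with a fixed gain -/
def QG : Prop := ∃ c₀ : ℝ, 0 < c₀ ∧ c₀ < 1 ∧ ∀ T M : ℕ, 1 ≤ T → (4 - c₀) * M < T →
  ∃ K : ℕ, 1 ≤ K ∧ ∀ (a b : Fin T → Fin K → ℤ), (∀ g i, 0 < a g i) →
    Function.Injective (fun x : Fin T × Fin K => (a x.1 x.2, b x.1 x.2)) →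
    (∀ p : ℕ, p.Prime → ∃ n : ℤ, ∀ g i, ¬ ((p : ℤ) ∣ a g i * n + b g i)) →
    ∃ (S : Finset (Fin T)) (c : Fin T → Fin K), M + 1 ≤ S.card ∧
      {n : ℕ | ∀ g ∈ S, 0 < a g (c g) * (n : ℤ) + b g (c g) ∧
        Prime (a g (c g) * (n : ℤ) + b g (c g))}.Infinite

/-- for infinitely many `n` congruent to `r` modulo `q` the primes within distance `R` of `n` are exactly the
`n + q x` with `x ∈ X` -/
def ExR (q : ℕ) (r : ℤ) (X : Finset ℤ) (R : ℕ) : Prop :=
  {n : ℕ | (n : ℤ) ≡ r [ZMOD q] ∧ ∀ y : ℤ, |y| ≤ R →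
    (Nat.Prime ((n : ℤ) + y).toNat ↔ ∃ x ∈ X, y = q * x)}.Infinite

/-- exact patterns -/
def Ex (q : ℕ) (r : ℤ) (X : Finset ℤ) : Prop := ∀ R : ℕ, ExR q r X R

theorem ExR.mono {q : ℕ} {r : ℤ} {X : Finset ℤ} {R R' : ℕ} (h : R' ≤ R) (hX : ExR q r X R) :
    ExR q r X R' := by
  refine Set.Infinite.mono ?_ hX
  rintro n ⟨h1, h2⟩
  exact ⟨h1, fun y hy => h2 y (hy.trans (by exact_mod_cast h))⟩

/-- Chinese remainder theorem -/
theorem crt {ι : Type} (s : Finset ι) (m c : ι → ℤ)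
    (hm : ∀ i ∈ s, ∀ j ∈ s, i ≠ j → IsCoprime (m i) (m j)) : ∃ x : ℤ, ∀ i ∈ s, m i ∣ x - c i := by
  classical
  induction s using Finset.induction_on with
  | empty => exact ⟨0, by simp⟩
  | insert a s ha ih =>
    obtain ⟨x, hx⟩ := ih (fun i hi j hj => hm i (mem_insert_of_mem hi) j (mem_insert_of_mem hj))
    have hcop : IsCoprime (m a) (∏ i ∈ s, m i) := IsCoprime.prod_right fun i hi =>
      hm a (mem_insert_self a s) i (mem_insert_of_mem hi) (fun h => ha (h ▸ hi))
    obtain ⟨u, v, huv⟩ := hcop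
    -- `x + v * prod * (c a - x)`
    refine ⟨x + v * (∏ i ∈ s, m i) * (c a - x), fun i hi => ?_⟩
    rcases mem_insert.1 hi with rfl | hi
    · refine ⟨-(u * (c i - x)), ?_⟩
      linear_combination (c i - x) * huv
    · have h1 : m i ∣ ∏ i ∈ s, m i := dvd_prod_of_mem m hi
      have h2 : x + v * (∏ i ∈ s, m i) * (c a - x) - c i =
        (x - c i) + v * (∏ i ∈ s, m i) * (c a - x) := by ring
      rw [h2]
      exact dvd_add (hx i hi) (Dvd.dvd.mul_right (Dvd.dvd.mul_left h1 v) _)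

/-- exact patterns for one radius -/
theorem exact_R (T K M : ℕ) (hQ : ∀ (a b : Fin T → Fin K → ℤ), (∀ g i, 0 < a g i) →
    Function.Injective (fun x : Fin T × Fin K => (a x.1 x.2, b x.1 x.2)) →
    (∀ p : ℕ, p.Prime → ∃ n : ℤ, ∀ g i, ¬ ((p : ℤ) ∣ a g i * n + b g i)) →
    ∃ (S : Finset (Fin T)) (c : Fin T → Fin K), M + 1 ≤ S.card ∧
      {n : ℕ | ∀ g ∈ S, 0 < a g (c g) * (n : ℤ) + b g (c g) ∧
        Prime (a g (c g) * (n : ℤ) + b g (c g))}.Infinite)
    (q : ℕ) (r : ℤ) (hq1 : 1 ≤ q) (hqr : IsCoprime r (q : ℤ)) (x : Fin T → Fin K → ℤ)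
    (hxinj : Function.Injective (fun y : Fin T × Fin K => x y.1 y.2))
    (hx : ∀ p : ℕ, p.Prime → p ≤ T * K → ¬ (p : ℤ) ∣ q → ∃ c : ℤ, ∀ g i, ¬ (p : ℤ) ∣ x g i - c)
    (R : ℕ) : ∃ X : Finset ℤ, X ⊆ univ.image (fun y : Fin T × Fin K => x y.1 y.2) ∧
      M + 1 ≤ (univ.filter (fun g : Fin T => ∃ i, x g i ∈ X)).card ∧ ExR q r X R := by
  classical
  have hq0 : (0 : ℤ) < q := by exact_mod_cast hq1
  set U : Finset ℤ := univ.image (fun y : Fin T × Fin K => x y.1 y.2) with hU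
  have hxU : ∀ g i, x g i ∈ U := fun g i => mem_image_of_mem (fun y : Fin T × Fin K => x y.1 y.2)
    (mem_univ (g, i))
  -- a radius containing all the forms
  obtain ⟨R₁, hR₁⟩ : ∃ R₁ : ℕ, ∀ z ∈ U, |(q : ℤ) * z| ≤ R₁ := by
    refine ⟨U.sup fun z => ((q : ℤ) * z).natAbs, fun z hz => ?_⟩
    rw [Int.abs_eq_natAbs]
    exact_mod_cast Finset.le_sup (f := fun z : ℤ => ((q : ℤ) * z).natAbs) hz
  set R₂ : ℕ := R + R₁ with hR₂
  -- the integers to be killed
  set Y : Finset ℤ := (Icc (-(R₂ : ℤ)) R₂).filter (fun y => ∀ z ∈ U, y ≠ q * z) with hY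
  -- distinct large primes
  have hinfp : {p : ℕ | p.Prime ∧ 2 * R₂ + q + 1 < p}.Infinite := by
    have h1 := Nat.infinite_setOfPred_prime.sdiff (Set.finite_Iic (2 * R₂ + q + 1))
    refine h1.mono ?_
    rintro p ⟨hp, hp2⟩
    exact ⟨hp, not_le.1 hp2⟩
  set em := Set.Infinite.natEmbedding _ hinfp with hem
  set P : ℤ → ℕ := fun y => (em (y + R₂).toNat : ℕ) with hP
  have hPp : ∀ y, (P y).Prime := fun y => (em (y + R₂).toNat).2.1
  have hPb : ∀ y, 2 * R₂ + q + 1 < P y := fun y => (em (y + R₂).toNat).2.2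
  have hPinj : ∀ y ∈ Y, ∀ y' ∈ Y, P y = P y' → y = y' := by
    intro y hy y' hy' h
    have h1 := (mem_Icc.1 (mem_filter.1 hy).1).1
    have h2 := (mem_Icc.1 (mem_filter.1 hy').1).1
    have h3 : (y + R₂).toNat = (y' + R₂).toNat := em.injective (Subtype.ext h)
    omega
  have hPcop : ∀ y ∈ Y, ∀ y' ∈ Y, y ≠ y' → IsCoprime ((P y : ℕ) : ℤ) ((P y' : ℕ) : ℤ) := by
    intro y hy y' hy' hne
    rw [Nat.isCoprime_iff_coprime, Nat.coprime_primes (hPp y) (hPp y')]
    exact fun h => hne (hPinj y hy y' hy' h)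
  have hPq : ∀ y, IsCoprime ((P y : ℕ) : ℤ) (q : ℤ) := by
    intro y
    rw [Nat.isCoprime_iff_coprime, (hPp y).coprime_iff_not_dvd]
    intro hd
    have := Nat.le_of_dvd (by omega) hd
    have := hPb y
    omega
  -- the residue
  obtain ⟨n₀, hn₀, hn₀q⟩ : ∃ n₀ : ℤ, (∀ y ∈ Y, ((P y : ℕ) : ℤ) ∣ n₀ + y) ∧ (q : ℤ) ∣ n₀ - r := by
    obtain ⟨n₀, h⟩ := crt (insertNone Y) (fun o => o.elim (q : ℤ) (fun y => ((P y : ℕ) : ℤ)))
      (fun o => o.elim r (fun y => -y)) (by
        intro i hi j hj hij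
        rcases i with _ | y <;> rcases j with _ | y'
        · exact absurd rfl hij
        · exact (hPq y').symm
        · exact hPq y
        · exact hPcop y (some_mem_insertNone.1 hi) y' (some_mem_insertNone.1 hj)
            (fun h => hij (by rw [h])))
    refine ⟨n₀, fun y hy => ?_, h none (by simp)⟩
    have := h (some y) (some_mem_insertNone.2 hy)
    simpa using this
  set PP : ℕ := ∏ y ∈ Y, P y with hPP
  have hPP0 : 0 < PP := prod_pos fun y _ => (hPp y).pos
  obtain ⟨S, c, hS, hinf⟩ := hQ (fun _ _ => (q : ℤ) * PP) (fun g i => n₀ + q * x g i)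
    (fun _ _ => by positivity)
    (by
      intro y y' hyy
      simp only [Prod.mk.injEq, true_and, add_right_inj] at hyy
      exact hxinj (mul_left_cancel₀ hq0.ne' hyy))
    (by
      intro p hp
      have hpp := Nat.prime_iff_prime_int.1 hp
      by_cases hpq : (p : ℤ) ∣ q
      · refine ⟨0, fun g i hd => ?_⟩
        have h1 : (p : ℤ) ∣ r := by
          have h2 : (p : ℤ) ∣ (q : ℤ) * x g i := Dvd.dvd.mul_right hpq _
          have h3 := (dvd_add_left h2).1 (by simpa using hd)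
          have h4 : (p : ℤ) ∣ n₀ - r := hpq.trans hn₀q
          have h5 := dvd_sub h3 h4
          simpa using h5
        exact hpp.not_isUnit (hqr.isUnit_of_dvd' h1 hpq)
      by_cases hpP : (p : ℤ) ∣ (PP : ℤ)
      · have h1 : p ∣ PP := by exact_mod_cast hpP
        obtain ⟨y, hy, hpy⟩ := (Prime.dvd_finsetProd_iff hp.prime P).1 h1
        have h2 : p = P y := (Nat.prime_dvd_prime_iff_eq hp (hPp y)).1 hpy
        refine ⟨0, fun g i hd => ?_⟩
        rw [mul_zero, zero_add] at hd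
        have h3 := dvd_sub hd (h2 ▸ hn₀ y hy)
        have h4 : n₀ + q * x g i - (n₀ + y) = q * x g i - y := by ring
        rw [h4] at h3
        have h5 : q * x g i - y ≠ 0 := by
          intro h
          exact (mem_filter.1 hy).2 (x g i) (hxU g i) (by linarith)
        have h6 := Int.le_of_dvd (abs_pos.2 h5) ((dvd_abs _ _).2 h3)
        have h7 := hR₁ _ (hxU g i)
        have h8 := mem_Icc.1 (mem_filter.1 hy).1
        have h9 : |(q : ℤ) * x g i - y| ≤ |(q : ℤ) * x g i| + |y| := abs_sub _ _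
        have h10 : |y| ≤ R₂ := abs_le.2 h8
        have h11 := hPb y
        rw [← h2] at h11
        have h12 : ((2 * R₂ + q + 1 : ℕ) : ℤ) < p := by exact_mod_cast h11
        push_cast at h12 h10
        rw [hR₂] at h12 h10
        push_cast at h12 h10
        linarith
      · have hcop : IsCoprime ((q : ℤ) * PP) (p : ℤ) := by
          rw [isCoprime_comm]
          refine (Prime.coprime_iff_not_dvd hpp).2 fun h => ?_
          rcases hpp.dvd_or_dvd h with h | h
          · exact hpq h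
          · exact hpP h
        obtain ⟨u, w, huw⟩ := hcop
        obtain ⟨c, hc⟩ : ∃ c : ℤ, ∀ g i, ¬ (p : ℤ) ∣ x g i - c := by
          rcases Nat.lt_or_ge (T * K) p with h | h
          · obtain ⟨n, hn⟩ := exists_shift_int hp h x
            refine ⟨-n, fun g i hd => hn g i ?_⟩
            have : x g i - -n = n + x g i := by ring
            rwa [this] at hd
          · exact hx p hp h hpq
        refine ⟨u * (- q * c - n₀), fun g i hd => hc g i ?_⟩
        have e1 : (q : ℤ) * PP * (u * (- q * c - n₀)) + (n₀ + q * x g i) =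
            q * (x g i - c) + (-(w * (- q * c - n₀))) * p := by
          have : u * ((q : ℤ) * PP) = 1 - w * p := by linarith
          calc (q : ℤ) * PP * (u * (- q * c - n₀)) + (n₀ + q * x g i)
              = (u * ((q : ℤ) * PP)) * (- q * c - n₀) + (n₀ + q * x g i) := by ring
            _ = _ := by rw [this]; ring
        rw [e1] at hd
        have h2 : (p : ℤ) ∣ q * (x g i - c) := (dvd_add_left (Dvd.intro_left _ rfl)).1 hd
        exact (hpp.dvd_or_dvd h2).resolve_left hpq)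
  -- the numbers `n`
  set F : ℕ → ℤ := fun n => (q : ℤ) * PP * n + n₀ with hF
  set pat : ℕ → Finset ℤ := fun n => U.filter (fun z => Nat.Prime (F n + q * z).toNat) with hpat
  obtain ⟨X, hXU, hXinf⟩ : ∃ X ∈ U.powerset, ({n : ℕ | ∀ g ∈ S, 0 < (q : ℤ) * PP * (n : ℤ) +
      (n₀ + q * x g (c g)) ∧ Prime ((q : ℤ) * PP * (n : ℤ) + (n₀ + q * x g (c g)))} ∩
        {n | pat n = X}).Infinite := by
    by_contra hcon
    push Not at hcon
    refine hinf ((Set.Finite.biUnion (U.powerset.finite_toSet) (fun X hX =>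
      hcon X hX)).subset ?_)
    intro n hn
    exact Set.mem_biUnion (show pat n ∈ (U.powerset : Set (Finset ℤ)) from
      mem_powerset.2 (filter_subset _ _)) ⟨hn, rfl⟩
  refine ⟨X, mem_powerset.1 hXU, ?_, ?_⟩
  · refine hS.trans (card_le_card fun g hg => ?_)
    rw [mem_filter]
    refine ⟨mem_univ g, c g, ?_⟩
    obtain ⟨n, hn1, hn2⟩ := hXinf.nonempty
    have hn2' : pat n = X := hn2
    rw [← hn2', hpat, mem_filter]
    refine ⟨hxU _ _, ?_⟩
    obtain ⟨h1, h2⟩ := hn1 g hg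
    have h3 : F n + q * x g (c g) = (q : ℤ) * PP * (n : ℤ) + (n₀ + q * x g (c g)) := by
      simp only [hF]; ring
    rw [h3, Nat.prime_iff_prime_int, Int.toNat_of_nonneg h1.le]
    exact h2
  · -- exactness
    obtain ⟨N, hN⟩ : ∃ N : ℕ, ∀ n : ℕ, N ≤ n → (R₂ : ℤ) < F n ∧ ∀ y ∈ Y, ((P y : ℕ) : ℤ) < F n + y := by
      refine ⟨(|n₀| + R₂ + ∑ y ∈ Y, (P y : ℤ) + R₂ + 1).toNat, fun n hn => ?_⟩
      have h0 : |n₀| + R₂ + ∑ y ∈ Y, (P y : ℤ) + R₂ + 1 ≤ n := by
        have := Int.self_le_toNat (|n₀| + R₂ + ∑ y ∈ Y, (P y : ℤ) + R₂ + 1)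
        have h : (((|n₀| + R₂ + ∑ y ∈ Y, (P y : ℤ) + R₂ + 1).toNat : ℕ) : ℤ) ≤ n := by exact_mod_cast hn
        linarith
      have hS0 : (0 : ℤ) ≤ ∑ y ∈ Y, (P y : ℤ) := sum_nonneg fun y _ => Int.natCast_nonneg _
      have h1 : (n : ℤ) ≤ (q : ℤ) * PP * n := by
        have : (1 : ℤ) ≤ (q : ℤ) * PP := by
          have h3 : 1 ≤ q * PP := Nat.one_le_iff_ne_zero.2 (by positivity)
          exact_mod_cast h3
        nlinarith
      have h2 := neg_abs_le n₀
      refine ⟨by simp only [hF]; linarith, fun y hy => ?_⟩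
      have h3 : (P y : ℤ) ≤ ∑ y ∈ Y, (P y : ℤ) :=
        single_le_sum (f := fun y => (P y : ℤ)) (fun _ _ => Int.natCast_nonneg _) hy
      have h4 := (mem_Icc.1 (mem_filter.1 hy).1).1
      simp only [hF]
      linarith
    have hinj : Set.InjOn (fun n : ℕ => (F n).toNat) {n | N ≤ n} := by
      intro n hn m hm hnm
      have h1 := (hN n hn).1
      have h2 := (hN m hm).1
      have hR0 : (0 : ℤ) ≤ R₂ := Int.natCast_nonneg _
      simp only at hnm
      have h3 : F n = F m := by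
        rw [← Int.toNat_of_nonneg (by linarith : 0 ≤ F n), ← Int.toNat_of_nonneg (by linarith : 0 ≤ F m), hnm]
      simp only [hF, add_left_inj] at h3
      have h4 : ((q : ℤ) * PP) ≠ 0 := by positivity
      exact_mod_cast mul_left_cancel₀ h4 h3
    have h5 := (hXinf.sdiff (Set.finite_Iio N)).image (hinj.mono (fun n hn => not_lt.1 (Set.mem_Iio.not.1 hn.2)))
    refine h5.mono ?_
    rintro _ ⟨n, ⟨⟨hn1, hn2⟩, hn3⟩, rfl⟩
    have hn2' : pat n = X := hn2
    obtain ⟨h6, h7⟩ := hN n (not_lt.1 hn3)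
    have hR0 : (0 : ℤ) ≤ R₂ := Int.natCast_nonneg _
    have hcast : (((F n).toNat : ℕ) : ℤ) = F n := Int.toNat_of_nonneg (by linarith)
    refine ⟨?_, fun y hy => ?_⟩
    · simp only
      rw [hcast]
      obtain ⟨s, hs⟩ := hn₀q
      refine Int.modEq_iff_dvd.2 ⟨-(PP * n + s), ?_⟩
      simp only [hF]
      linear_combination -hs
    · simp only
      rw [hcast]
      by_cases hyU : ∃ z ∈ U, y = q * z
      · obtain ⟨z, hz, rfl⟩ := hyU
        constructor
        · intro hp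
          refine ⟨z, ?_, rfl⟩
          rw [← hn2', hpat, mem_filter]
          exact ⟨hz, hp⟩
        · rintro ⟨z', hz', hzz⟩
          have : z = z' := mul_left_cancel₀ hq0.ne' hzz
          subst this
          rw [← hn2', hpat, mem_filter] at hz'
          exact hz'.2
      · push Not at hyU
        have hyY : y ∈ Y := by
          rw [hY, mem_filter, mem_Icc]
          refine ⟨abs_le.1 (hy.trans ?_), hyU⟩
          rw [hR₂]
          push_cast
          linarith [Int.natCast_nonneg R₁]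
        constructor
        · intro hp
          exfalso
          have h8 := h7 y hyY
          have h9 : ((P y : ℕ) : ℤ) ∣ F n + y := by
            have h10 : ((P y : ℕ) : ℤ) ∣ (PP : ℤ) := by
              exact_mod_cast dvd_prod_of_mem P hyY
            have h11 : F n + y = (q : ℤ) * PP * n + (n₀ + y) := by simp only [hF]; ring
            rw [h11]
            exact dvd_add (Dvd.dvd.mul_right (Dvd.dvd.mul_left h10 _) _) (hn₀ y hyY)
          have hpos : 0 ≤ F n + y := by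
            have := Int.natCast_nonneg (P y)
            linarith
          have h12 : P y ∣ (F n + y).toNat := by
            have : ((P y : ℕ) : ℤ) ∣ (((F n + y).toNat : ℕ) : ℤ) := by
              rw [Int.toNat_of_nonneg hpos]; exact h9
            exact_mod_cast this
          have h13 := (Nat.prime_dvd_prime_iff_eq (hPp y) hp).1 h12
          have h14 : (((F n + y).toNat : ℕ) : ℤ) = F n + y := Int.toNat_of_nonneg hpos
          rw [← h13] at h14
          linarith
        · rintro ⟨z, hz, hzz⟩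
          exact absurd hzz (hyU z (mem_powerset.1 hXU hz))

/-- exact patterns for all radii -/
theorem exact_all (T K M : ℕ) (hQ : ∀ (a b : Fin T → Fin K → ℤ), (∀ g i, 0 < a g i) →
    Function.Injective (fun x : Fin T × Fin K => (a x.1 x.2, b x.1 x.2)) →
    (∀ p : ℕ, p.Prime → ∃ n : ℤ, ∀ g i, ¬ ((p : ℤ) ∣ a g i * n + b g i)) →
    ∃ (S : Finset (Fin T)) (c : Fin T → Fin K), M + 1 ≤ S.card ∧
      {n : ℕ | ∀ g ∈ S, 0 < a g (c g) * (n : ℤ) + b g (c g) ∧
        Prime (a g (c g) * (n : ℤ) + b g (c g))}.Infinite)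
    (q : ℕ) (r : ℤ) (hq1 : 1 ≤ q) (hqr : IsCoprime r (q : ℤ)) (x : Fin T → Fin K → ℤ)
    (hxinj : Function.Injective (fun y : Fin T × Fin K => x y.1 y.2))
    (hx : ∀ p : ℕ, p.Prime → p ≤ T * K → ¬ (p : ℤ) ∣ q → ∃ c : ℤ, ∀ g i, ¬ (p : ℤ) ∣ x g i - c) :
    ∃ X : Finset ℤ, X ⊆ univ.image (fun y : Fin T × Fin K => x y.1 y.2) ∧
      M + 1 ≤ (univ.filter (fun g : Fin T => ∃ i, x g i ∈ X)).card ∧ Ex q r X := by
  classical
  have h := exact_R T K M hQ q r hq1 hqr x hxinj hx
  choose X hX1 hX2 hX3 using h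
  set U : Finset ℤ := univ.image (fun y : Fin T × Fin K => x y.1 y.2) with hU
  obtain ⟨X₀, hX₀, hinf⟩ : ∃ X₀ ∈ U.powerset, {R : ℕ | X R = X₀}.Infinite := by
    by_contra hcon
    push Not at hcon
    refine Set.infinite_univ (α := ℕ) ((Set.Finite.biUnion (U.powerset.finite_toSet) (fun X hX =>
      hcon X hX)).subset ?_)
    intro R _
    exact Set.mem_biUnion (show X R ∈ (U.powerset : Set (Finset ℤ)) from mem_powerset.2 (hX1 R)) rfl
  obtain ⟨R, hR⟩ := hinf.nonempty
  have hR' : X R = X₀ := hR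
  refine ⟨X₀, mem_powerset.1 hX₀, ?_, fun R' => ?_⟩
  · rw [← hR']; exact hX2 R
  · obtain ⟨R'', hR'', hlt⟩ := hinf.exists_gt R'
    have h1 : X R'' = X₀ := hR''
    have h2 := hX3 R''
    rw [h1] at h2
    exact h2.mono hlt.le

end Pool.Agent.R494.CG
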