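import Mathlib
import Pool.Agent.R494.CG1

set_option autoImplicit false

/-!
Vectors of gaps between consecutive primes from exact patterns.
-/

namespace Pool.Agent.R494.CG

open Finset Pool.Agent.R494.BGen

/-- the vectors `g` of `k` positive integers such that for infinitely many `n` congruent to `r` modulo `q` the
numbers `n, n + q g_0, n + q (g_0 + g_1), ...` are `k + 1` consecutive primes -/
def GV (q : ℕ) (r : ℤ) (k : ℕ) : Set (Fin k → ℤ) :=
  {g | ∃ h : Fin (k + 1) → ℤ, StrictMono h ∧ h 0 = 0 ∧ (∀ i : Fin k, g i = h i.succ - h i.castSucc) ∧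
    {n : ℕ | (n : ℤ) ≡ r [ZMOD q] ∧ ∀ y : ℤ, 0 ≤ y → y ≤ q * h (Fin.last k) →
      (Nat.Prime ((n : ℤ) + y).toNat ↔ ∃ i, y = q * h i)}.Infinite}

/-- the increasing enumeration of a finite set -/
noncomputable def en (X : Finset ℤ) (j : ℕ) : ℤ :=
  if h : j < X.card then X.orderEmbOfFin rfl ⟨j, h⟩ else 0

theorem en_mem {X : Finset ℤ} {j : ℕ} (h : j < X.card) : en X j ∈ X := by
  unfold en
  rw [dif_pos h]
  exact orderEmbOfFin_mem X rfl _

theorem en_lt {X : Finset ℤ} {i j : ℕ} (hij : i < j) (h : j < X.card) : en X i < en X j := by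
  unfold en
  rw [dif_pos h, dif_pos (hij.trans h)]
  exact (X.orderEmbOfFin rfl).strictMono hij

theorem en_le {X : Finset ℤ} {i j : ℕ} (hij : i ≤ j) (h : j < X.card) : en X i ≤ en X j := by
  rcases Nat.lt_or_eq_of_le hij with h1 | h1
  · exact (en_lt h1 h).le
  · rw [h1]

theorem lt_of_en {X : Finset ℤ} {i j : ℕ} (hi : i < X.card) (h : en X i < en X j) : i < j := by
  by_contra hcon
  push Not at hcon
  have := en_le hcon hi
  linarith

theorem en_surj {X : Finset ℤ} {x : ℤ} (hx : x ∈ X) : ∃ j < X.card, en X j = x := by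
  have h1 : x ∈ Set.range (X.orderEmbOfFin rfl) := by
    rw [range_orderEmbOfFin]
    exact hx
  obtain ⟨j, hj⟩ := h1
  refine ⟨j, j.2, ?_⟩
  unfold en
  rw [dif_pos j.2]
  exact hj

theorem win {q k : ℕ} {r : ℤ} (hq : 1 ≤ q) {X : Finset ℤ} (hX : Ex q r X) {j : ℕ}
    (hj : j + k < X.card) : (fun i : Fin k => en X (j + i + 1) - en X (j + i)) ∈ GV q r k := by
  have hq0 : (0 : ℤ) < q := by exact_mod_cast hq
  refine ⟨fun i => en X (j + i) - en X j, ?_, by simp, ?_, ?_⟩
  · intro a b hab
    have h1 : en X (j + a) < en X (j + b) := en_lt (by have : (a : ℕ) < b := hab; omega) (by omega)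
    simpa using h1
  · intro i
    simp only [Fin.val_succ, Fin.val_castSucc]
    rw [show j + ((i : ℕ) + 1) = j + i + 1 by ring]
    ring
  · set R : ℕ := (q * |en X j| + q * |en X (j + k)|).toNat with hR
    have hR' : (R : ℤ) = q * |en X j| + q * |en X (j + k)| := Int.toNat_of_nonneg (by positivity)
    have hinf := (hX R).sdiff (Set.finite_Iio ((q * |en X j|).toNat + 1))
    have hbig : ∀ n : ℕ, n ∉ Set.Iio ((q * |en X j|).toNat + 1) → 0 ≤ (n : ℤ) + q * en X j := by
      intro n hn
      have h1 : (q * |en X j|).toNat + 1 ≤ n := not_lt.1 (Set.mem_Iio.not.1 hn)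
      have h2 := Int.self_le_toNat (q * |en X j|)
      have h3 : (((q * |en X j|).toNat : ℕ) : ℤ) + 1 ≤ n := by exact_mod_cast h1
      have h4 := neg_abs_le (en X j)
      nlinarith
    have hinj : Set.InjOn (fun n : ℕ => ((n : ℤ) + q * en X j).toNat)
        ({n : ℕ | (n : ℤ) ≡ r [ZMOD q] ∧ ∀ y : ℤ, |y| ≤ R →
          (Nat.Prime ((n : ℤ) + y).toNat ↔ ∃ x ∈ X, y = q * x)} \ Set.Iio ((q * |en X j|).toNat + 1)) := by
      intro n hn m hm hnm
      have h1 := hbig n hn.2
      have h2 := hbig m hm.2
      simp only at hnm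
      have h3 : (n : ℤ) + q * en X j = m + q * en X j := by
        rw [← Int.toNat_of_nonneg h1, ← Int.toNat_of_nonneg h2, hnm]
      have h4 : (n : ℤ) = m := by linarith
      exact_mod_cast h4
    refine (hinf.image hinj).mono ?_
    rintro _ ⟨n, hn, rfl⟩
    have h1 := hbig n hn.2
    obtain ⟨h2, h3⟩ := hn.1
    have hcast := Int.toNat_of_nonneg h1
    refine ⟨?_, fun y hy0 hy => ?_⟩
    · simp only
      rw [hcast]
      have := Int.ModEq.add h2 (show (q : ℤ) * en X j ≡ 0 [ZMOD q] from
        Int.modEq_zero_iff_dvd.2 (Dvd.intro _ rfl))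
      simpa using this
    · simp only [Fin.val_last] at hy ⊢
      rw [hcast, add_assoc]
      have h5 : |(q : ℤ) * en X j + y| ≤ R := by
        rw [hR']
        have e1 := neg_abs_le (en X j)
        have e2 := le_abs_self (en X (j + k))
        have e3 := abs_nonneg (en X j)
        have e4 := abs_nonneg (en X (j + k))
        rw [abs_le]
        constructor <;> nlinarith
      rw [h3 _ h5]
      constructor
      · rintro ⟨x, hx, hxy⟩
        obtain ⟨l, hl, rfl⟩ := en_surj hx
        have h6 : en X j ≤ en X l := by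
          by_contra hcon
          push Not at hcon
          nlinarith
        have h7 : en X l ≤ en X (j + k) := by
          by_contra hcon
          push Not at hcon
          nlinarith
        have h8 : j ≤ l := by
          by_contra hcon
          push Not at hcon
          have := en_lt hcon (show j < X.card by omega)
          linarith
        have h9 : l ≤ j + k := by
          by_contra hcon
          push Not at hcon
          have := en_lt hcon hl
          linarith
        refine ⟨⟨l - j, by omega⟩, ?_⟩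
        simp only
        rw [show j + (l - j) = l by omega]
        linarith
      · rintro ⟨i, hi⟩
        refine ⟨en X (j + i), en_mem (by omega), ?_⟩
        rw [hi]
        ring

end Pool.Agent.R494.CG
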