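import Mathlib
import Pool.Agent.R494.CG2

set_option autoImplicit false

/-!
Exact patterns with many consecutive elements in one residue class followed by elements of another one.
-/

namespace Pool.Agent.R494.CG

open Finset Pool.Agent.R494.BGen

/-- initial segments -/
theorem en_mem_iff {X Y : Finset ℤ} (hYX : Y ⊆ X) (hY : ∀ y ∈ Y, ∀ x ∈ X, x < y → x ∈ Y) {j : ℕ}
    (hj : j < X.card) : en X j ∈ Y ↔ j < Y.card := by
  classical
  -- `Y` is the image of an initial segment of indices
  set J := (range X.card).filter (fun j => en X j ∈ Y) with hJ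
  have hcard : J.card = Y.card := by
    apply card_bij (fun j _ => en X j)
    · intro a ha
      exact (mem_filter.1 ha).2
    · intro a ha b hb hab
      have h1 := mem_range.1 (mem_filter.1 ha).1
      have h2 := mem_range.1 (mem_filter.1 hb).1
      rcases lt_trichotomy a b with h | h | h
      · have := en_lt h h2; linarith
      · exact h
      · have := en_lt h h1; linarith
    · intro y hy
      obtain ⟨j, hj, hjy⟩ := en_surj (hYX hy)
      refine ⟨j, mem_filter.2 ⟨mem_range.2 hj, by rw [hjy]; exact hy⟩, hjy⟩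
  have hdown : ∀ a ∈ J, ∀ b < a, b ∈ J := by
    intro a ha b hba
    have h1 := mem_range.1 (mem_filter.1 ha).1
    exact mem_filter.2 ⟨mem_range.2 (hba.trans h1),
      hY _ (mem_filter.1 ha).2 _ (en_mem (hba.trans h1)) (en_lt hba h1)⟩
  have hJr : J = range J.card := by
    symm
    apply eq_of_subset_of_card_le
    · intro a ha
      by_contra hcon
      have h1 : J ⊆ range a := by
        intro b hb
        rw [mem_range]
        by_contra hba
        push Not at hba
        rcases Nat.lt_or_eq_of_le hba with h | h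
        · exact hcon (hdown b hb a h)
        · exact hcon (h ▸ hb)
      have h2 := card_le_card h1
      rw [card_range] at h2
      have := mem_range.1 ha
      omega
    · rw [card_range]
  rw [← hcard]
  constructor
  · intro h
    have : j ∈ J := mem_filter.2 ⟨mem_range.2 hj, h⟩
    rw [hJr] at this
    exact mem_range.1 this
  · intro h
    have : j ∈ range J.card := mem_range.2 h
    rw [← hJr] at this
    exact (mem_filter.1 this).2

theorem two_run (hQG : QG) (k q m : ℕ) (r : ℤ) (hq : 1 ≤ q) (hqr : IsCoprime r (q : ℤ)) (hm : 1 ≤ m)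
    (c : Fin 4 → ℤ) (hc : ∀ j, IsCoprime (r + q * c j) (m : ℤ))
    (hinc : ∀ j j', j ≠ j' → ¬ (m : ℤ) ∣ c j - c j') :
    ∃ X : Finset ℤ, Ex q r X ∧ ∃ s t : ℕ, s ≤ t ∧ t + 3 * k + 3 ≤ X.card ∧
      (∀ j ≤ k, (m : ℤ) ∣ en X (s + j) - en X s) ∧ ¬ (m : ℤ) ∣ en X t - en X s := by
  classical
  have hq0 : (0 : ℤ) < q := by exact_mod_cast hq
  obtain ⟨c₀, hc₀, hc₁, hQ⟩ := hQG
  -- the sizes
  obtain ⟨L, hL⟩ : ∃ L : ℕ, 1 ≤ L ∧ (4 - c₀) * ((L + 9 * k + 9 : ℕ) : ℝ) < ((4 * L : ℕ) : ℝ) := by
    obtain ⟨L, hL⟩ := exists_nat_gt ((4 - c₀) * (9 * k + 9) / c₀)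
    refine ⟨L, ?_, ?_⟩
    · have : (0 : ℝ) < L := lt_of_le_of_lt (by
        have : (0 : ℝ) ≤ k := Nat.cast_nonneg k
        have h4 : 0 ≤ 4 - c₀ := by linarith
        positivity) hL
      exact_mod_cast this
    · rw [div_lt_iff₀ hc₀] at hL
      push_cast
      linarith
  obtain ⟨hL1, hL2⟩ := hL
  obtain ⟨K, hK, hQ'⟩ := hQ (4 * L) (L + 9 * k + 9) (by omega) hL2
  -- representatives of the classes
  have hcop : ∀ j, IsCoprime (r + q * c j) ((q * m : ℕ) : ℤ) := by
    intro j
    push_cast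
    refine IsCoprime.mul_right ?_ (hc j)
    exact (IsCoprime.add_mul_left_left_iff).2 hqr
  have hex : ∀ (j : Fin 4), ∃ p > 4 * L * K, p.Prime ∧ (p : ℤ) ≡ r + q * c j [ZMOD (q * m : ℕ)] :=
    fun j => Nat.forall_exists_prime_gt_and_zmodEq _ (by positivity) (hcop j)
  choose P hP1 hP2 hP3 using hex
  have hcc : ∀ j, ∃ c' : ℤ, (P j : ℤ) = r + q * c' ∧ (m : ℤ) ∣ c' - c j := by
    intro j
    obtain ⟨w, hw⟩ := (Int.modEq_iff_dvd.1 (hP3 j))
    refine ⟨c j - m * w, ?_, ⟨-w, by ring⟩⟩
    push_cast at hw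
    linear_combination -hw
  choose c' hc'1 hc'2 using hcc
  set W : ℕ := (4 * L * K).factorial with hW
  have hW0 : 0 < W := Nat.factorial_pos _
  set B : ℕ := 1 + ∑ i, ∑ j, (c' i - c' j).natAbs with hB
  have hBw : ∀ i j, |c' i - c' j| < B := by
    intro i j
    rw [Int.abs_eq_natAbs]
    have h1 : (c' i - c' j).natAbs ≤ ∑ j, (c' i - c' j).natAbs :=
      single_le_sum (f := fun j => (c' i - c' j).natAbs) (fun _ _ => Nat.zero_le _) (mem_univ j)
    have h2 : ∑ j, (c' i - c' j).natAbs ≤ ∑ i, ∑ j, (c' i - c' j).natAbs :=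
      single_le_sum (f := fun i => ∑ j, (c' i - c' j).natAbs) (fun _ _ => Nat.zero_le _) (mem_univ i)
    exact_mod_cast (show (c' i - c' j).natAbs < B by omega)
  set e : Fin (4 * L) ≃ Fin 4 × Fin L := finProdFinEquiv.symm with he
  set S₀ : ℕ := m * W * B with hS₀
  have hS₀B : (B : ℤ) ≤ S₀ := by
    rw [hS₀]
    exact_mod_cast Nat.le_mul_of_pos_left B (by positivity)
  set x : Fin (4 * L) → Fin K → ℤ := fun g i =>
    c' (e g).1 + (S₀ : ℤ) * ((finProdFinEquiv (g, i) : ℕ) : ℤ) with hx
  -- monotonicity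
  have hmono : ∀ g i g' i', (finProdFinEquiv (g, i) : ℕ) < (finProdFinEquiv (g', i') : ℕ) →
      x g i < x g' i' := by
    intro g i g' i' h
    have h1 := (abs_lt.1 (hBw (e g).1 (e g').1)).2
    have h2 : ((finProdFinEquiv (g, i) : ℕ) : ℤ) + 1 ≤ ((finProdFinEquiv (g', i') : ℕ) : ℤ) := by
      exact_mod_cast h
    have hS0 : (0 : ℤ) ≤ S₀ := Int.natCast_nonneg _
    simp only [hx]
    nlinarith
  have hinj : Function.Injective (fun z : Fin (4 * L) × Fin K => x z.1 z.2) := by
    intro z z' h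
    rcases lt_trichotomy (finProdFinEquiv (z.1, z.2) : ℕ) (finProdFinEquiv (z'.1, z'.2) : ℕ) with h1 | h1 | h1
    · exact absurd h (hmono _ _ _ _ h1).ne
    · exact finProdFinEquiv.injective (Fin.ext h1)
    · exact absurd h (hmono _ _ _ _ h1).ne'
  have hlab : ∀ g i g' i', (e g).1 < (e g').1 → x g i < x g' i' := by
    intro g i g' i' h
    apply hmono
    have h1 : (g : ℕ) = (e g).2 + L * (e g).1 := by
      have := congrArg Fin.val (finProdFinEquiv.apply_symm_apply g)
      rw [← this]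
      rfl
    have h2 : (g' : ℕ) = (e g').2 + L * (e g').1 := by
      have := congrArg Fin.val (finProdFinEquiv.apply_symm_apply g')
      rw [← this]
      rfl
    have h3 : (g : ℕ) < g' := by
      rw [h1, h2]
      have h4 : ((e g).1 : ℕ) + 1 ≤ (e g').1 := h
      have h5 := (e g).2.2
      nlinarith
    simp only [finProdFinEquiv_apply_val]
    have h6 := i.2
    have h7 : (g : ℕ) + 1 ≤ g' := h3
    nlinarith
  obtain ⟨X, hXU, hXc, hXE⟩ := exact_all (4 * L) K (L + 9 * k + 9) hQ' q r hq hqr x hinj (by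
    intro p hp hple hpq
    have hpp := Nat.prime_iff_prime_int.1 hp
    obtain ⟨u, w, huw⟩ := (Prime.coprime_iff_not_dvd hpp).2 hpq
    -- `w q ≡ 1`, `c := - w r`
    refine ⟨-(w * r), fun g i hd => ?_⟩
    have h1 : (p : ℤ) ∣ (S₀ : ℤ) := by
      have : p ∣ S₀ := Dvd.dvd.mul_right (Dvd.dvd.mul_left (Nat.dvd_factorial hp.pos hple) m) B
      exact_mod_cast this
    have h2 : (p : ℤ) ∣ c' (e g).1 + w * r := by
      have h3 := dvd_sub hd (Dvd.dvd.mul_right h1 ((finProdFinEquiv (g, i) : ℕ) : ℤ))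
      have h4 : x g i - -(w * r) - (S₀ : ℤ) * ((finProdFinEquiv (g, i) : ℕ) : ℤ) = c' (e g).1 + w * r := by
        simp only [hx]; ring
      rwa [h4] at h3
    have h5 : (p : ℤ) ∣ P (e g).1 := by
      have h6 : (P (e g).1 : ℤ) = q * (c' (e g).1 + w * r) + (r * u) * p := by
        rw [hc'1]
        linear_combination (-r) * huw
      rw [h6]
      exact dvd_add (Dvd.dvd.mul_left h2 _) (Dvd.intro_left _ rfl)
    have h7 : p ∣ P (e g).1 := by exact_mod_cast h5
    have h8 := (Nat.prime_dvd_prime_iff_eq hp (hP2 _)).1 h7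
    have h9 := hP1 (e g).1
    omega)
  -- elements with labels
  have hXlab : ∀ y ∈ X, ∃ g i, y = x g i := by
    intro y hy
    obtain ⟨z, _, hz⟩ := mem_image.1 (hXU hy)
    exact ⟨z.1, z.2, hz.symm⟩
  set Hit := univ.filter (fun g : Fin (4 * L) => ∃ i, x g i ∈ X) with hHit
  set hits : Fin 4 → Finset (Fin (4 * L)) := fun u => Hit.filter (fun g => (e g).1 = u) with hhits
  have hsum : ∑ u, (hits u).card = Hit.card := (card_eq_sum_card_fiberwise (fun _ _ => mem_univ _)).symm
  have hle : ∀ u, (hits u).card ≤ L := by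
    intro u
    have h1 : (hits u).card ≤ (univ : Finset (Fin L)).card := by
      apply card_le_card_of_injOn (fun g => (e g).2) (fun _ _ => mem_univ _)
      intro g hg g' hg' h
      have h2 := (mem_filter.1 hg).2
      have h3 := (mem_filter.1 hg').2
      exact e.injective (Prod.ext (h2.trans h3.symm) h)
    rwa [card_univ, Fintype.card_fin] at h1
  obtain ⟨u, u', huu, hu, hu'⟩ : ∃ u u' : Fin 4, u < u' ∧ 3 * k + 3 ≤ (hits u).card ∧
      3 * k + 3 ≤ (hits u').card := by
    by_contra hcon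
    push Not at hcon
    have h0 := hcon 0 1 (by decide)
    have h1 := hcon 0 2 (by decide)
    have h2 := hcon 0 3 (by decide)
    have h3 := hcon 1 2 (by decide)
    have h4 := hcon 1 3 (by decide)
    have h5 := hcon 2 3 (by decide)
    rw [Fin.sum_univ_four] at hsum
    have e0 := hle 0
    have e1 := hle 1
    have e2 := hle 2
    have e3 := hle 3
    omega
  -- initial segments
  set Y : Fin 4 → Finset ℤ := fun u => X.filter (fun y => ∃ g i, y = x g i ∧ (e g).1 < u) with hY
  set Z : Fin 4 → Finset ℤ := fun u => X.filter (fun y => ∃ g i, y = x g i ∧ (e g).1 ≤ u) with hZ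
  have hYdown : ∀ u, ∀ y ∈ Y u, ∀ z ∈ X, z < y → z ∈ Y u := by
    intro u y hy z hz hzy
    obtain ⟨g, i, rfl, hg⟩ := (mem_filter.1 hy).2
    obtain ⟨g', i', rfl⟩ := hXlab z hz
    refine mem_filter.2 ⟨hz, g', i', rfl, ?_⟩
    by_contra h
    push Not at h
    exact absurd (hlab g i g' i' (lt_of_lt_of_le hg h)) (not_lt.2 hzy.le)
  have hZdown : ∀ u, ∀ y ∈ Z u, ∀ z ∈ X, z < y → z ∈ Z u := by
    intro u y hy z hz hzy
    obtain ⟨g, i, rfl, hg⟩ := (mem_filter.1 hy).2
    obtain ⟨g', i', rfl⟩ := hXlab z hz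
    refine mem_filter.2 ⟨hz, g', i', rfl, ?_⟩
    by_contra h
    push Not at h
    exact absurd (hlab g i g' i' (lt_of_le_of_lt hg h)) (not_lt.2 hzy.le)
  have huniq : ∀ g i g' i', x g i = x g' i' → g = g' := fun g i g' i' h =>
    congrArg Prod.fst (hinj (a₁ := (g, i)) (a₂ := (g', i')) h)
  have hYZ : ∀ u, (Y u).card + (hits u).card ≤ (Z u).card := by
    intro u
    -- the chosen elements of the hit classes
    have h1 : ∀ g ∈ hits u, ∃ i, x g i ∈ X := fun g hg => (mem_filter.1 (mem_filter.1 hg).1).2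
    have : Nonempty (Fin K) := ⟨⟨0, by omega⟩⟩
    choose! ii hii using h1
    have h2 : ((hits u).image (fun g => x g (ii g))).card = (hits u).card := by
      apply card_image_of_injOn
      intro g _ g' _ h
      exact huniq _ _ _ _ h
    rw [← h2, ← card_union_of_disjoint]
    · apply card_le_card
      intro y hy
      rcases mem_union.1 hy with hy | hy
      · obtain ⟨g, i, h3, h4⟩ := (mem_filter.1 hy).2
        exact mem_filter.2 ⟨(mem_filter.1 hy).1, g, i, h3, h4.le⟩
      · obtain ⟨g, hg, rfl⟩ := mem_image.1 hy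
        exact mem_filter.2 ⟨hii g hg, g, ii g, rfl, (mem_filter.1 hg).2.le⟩
    · rw [disjoint_left]
      intro y hy hy'
      obtain ⟨g, hg, rfl⟩ := mem_image.1 hy'
      obtain ⟨g', i', h3, h4⟩ := (mem_filter.1 hy).2
      have h5 := huniq _ _ _ _ h3
      subst h5
      rw [(mem_filter.1 hg).2] at h4
      exact absurd h4 (lt_irrefl u)
  have hZY : (Z u).card ≤ (Y u').card := by
    apply card_le_card
    intro y hy
    obtain ⟨g, i, h3, h4⟩ := (mem_filter.1 hy).2
    exact mem_filter.2 ⟨(mem_filter.1 hy).1, g, i, h3, lt_of_le_of_lt h4 huu⟩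
  have hZX : ∀ u, (Z u).card ≤ X.card := fun u => card_le_card (filter_subset _ _)
  -- elements with index between are in the class
  have hcls : ∀ u j, (Y u).card ≤ j → j < (Z u).card → (m : ℤ) ∣ en X j - c u := by
    intro u j h1 h2
    have hj : j < X.card := lt_of_lt_of_le h2 (hZX u)
    have h3 := (en_mem_iff (filter_subset _ _) (hZdown u) hj).2 h2
    have h4 : en X j ∉ Y u := fun h =>
      absurd ((en_mem_iff (filter_subset _ _) (hYdown u) hj).1 h) (not_lt.2 h1)
    obtain ⟨g, i, h5, h6⟩ := (mem_filter.1 h3).2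
    have h7 : (e g).1 = u := by
      rcases lt_or_eq_of_le h6 with h | h
      · exact absurd (mem_filter.2 ⟨(mem_filter.1 h3).1, g, i, h5, h⟩) h4
      · exact h
    rw [h5]
    simp only [hx]
    rw [h7]
    have h8 : c' u + (S₀ : ℤ) * ((finProdFinEquiv (g, i) : ℕ) : ℤ) - c u =
      (c' u - c u) + (S₀ : ℤ) * ((finProdFinEquiv (g, i) : ℕ) : ℤ) := by ring
    rw [h8]
    refine dvd_add (hc'2 u) (Dvd.dvd.mul_right ?_ _)
    have : m ∣ S₀ := Dvd.dvd.mul_right (Dvd.intro _ rfl) B
    exact_mod_cast this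
  have hYZu := hYZ u
  have hYZu' := hYZ u'
  have hZXu' := hZX u'
  refine ⟨X, hXE, (Z u).card - (k + 1), (Y u').card, by omega, by omega, fun j hj => ?_, fun hd => ?_⟩
  · have h1 := hcls u ((Z u).card - (k + 1) + j) (by omega) (by omega)
    have h2 := hcls u ((Z u).card - (k + 1)) (by omega) (by omega)
    have h3 := dvd_sub h1 h2
    have h4 : en X ((Z u).card - (k + 1) + j) - c u - (en X ((Z u).card - (k + 1)) - c u) =
      en X ((Z u).card - (k + 1) + j) - en X ((Z u).card - (k + 1)) := by ring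
    rwa [h4] at h3
  · have h1 := hcls u' (Y u').card (le_refl _) (by omega)
    have h2 := hcls u ((Z u).card - (k + 1)) (by omega) (by omega)
    apply hinc u' u huu.ne'
    have h3 := dvd_sub (dvd_add hd h2) h1
    have h4 : en X (Y u').card - en X ((Z u).card - (k + 1)) + (en X ((Z u).card - (k + 1)) - c u) -
      (en X (Y u').card - c u') = c u' - c u := by ring
    rwa [h4] at h3

end Pool.Agent.R494.CG
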