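import Mathlib
import Pool.Agent.R494.CG4

set_option autoImplicit false

/-!
Vectors of consecutive gaps with one coordinate near a prescribed number and the others bounded.
-/

namespace Pool.Agent.R494.CG

open Finset Pool.Agent.R494.BGen

/-- `N` classes at the positions `A g`, of width `Q`, such that no exact pattern contained in a translate of them
hits more than `H` of them -/
structure Arr (q : ℕ) (r : ℤ) (Q N w : ℕ) (A : ℕ → ℤ) (H : ℕ) : Prop where
  pos : ∀ g < N, 0 ≤ A g
  wid : ∀ g < N, A g + Q ≤ w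
  dvd : ∀ g < N, (Q : ℤ) ∣ A g
  mono : ∀ g g', g < g' → g' < N → A g + Q ≤ A g'
  hit : ∀ (z : ℤ) (X : Finset ℤ), Ex q r X →
    (∀ x ∈ X, z ≤ x → x < z + w → ∃ g < N, z + A g ≤ x ∧ x < z + A g + Q) →
    ((range N).filter (fun g => ∃ x ∈ X, z + A g ≤ x ∧ x < z + A g + Q)).card ≤ H

theorem arr_one (q : ℕ) (r : ℤ) (Q L : ℕ) : Arr q r Q L (Q * L) (fun g => (Q : ℤ) * g) L := by
  refine ⟨fun g _ => by positivity, fun g hg => ?_, fun g _ => Dvd.intro _ rfl, fun g g' h _ => ?_,
    fun z X _ _ => ?_⟩
  · have h1 : (g : ℤ) + 1 ≤ L := by exact_mod_cast hg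
    have h2 : (0 : ℤ) ≤ Q := Int.natCast_nonneg _
    push_cast
    nlinarith
  · have h1 : (g : ℤ) + 1 ≤ g' := by exact_mod_cast h
    have h2 : (0 : ℤ) ≤ Q := Int.natCast_nonneg _
    nlinarith
  · exact (card_filter_le _ _).trans (by rw [card_range])

/-- number of elements below a threshold -/
theorem en_lt_iff (X : Finset ℤ) (τ : ℤ) {j : ℕ} (hj : j < X.card) :
    en X j < τ ↔ j < (X.filter (fun x => x < τ)).card := by
  rw [← en_mem_iff (filter_subset _ _) (fun y hy x hx hxy => ?_) hj]
  · rw [mem_filter]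
    exact ⟨fun h => ⟨en_mem hj, h⟩, fun h => h.2⟩
  · exact mem_filter.2 ⟨hx, hxy.trans (mem_filter.1 hy).2⟩

/-- a set without adjacent elements -/
theorem no_adjacent (L : ℕ) (R : Finset ℕ) (hR : R ⊆ range L) (h : ∀ c, c ∈ R → c + 1 ∉ R) :
    R.card ≤ (L + 1) / 2 := by
  classical
  have h1 : R.card ≤ (range ((L + 1) / 2)).card := by
    apply card_le_card_of_injOn (fun c => c / 2)
    · intro c hc
      have := mem_range.1 (hR hc)
      simp only [coe_range, Set.mem_Iio]
      omega
    · intro a ha b hb hab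
      simp only at hab
      by_contra hne
      rcases Nat.lt_or_gt_of_ne hne with h2 | h2
      · have : b = a + 1 := by omega
        exact h a ha (this ▸ hb)
      · have : a = b + 1 := by omega
        exact h b hb (this ▸ ha)
  rwa [card_range] at h1

theorem arr_step {q k : ℕ} {r : ℤ} (hq : 1 ≤ q) (i₀ : Fin k)
    (hbad : ∀ B : ℕ, ∃ n : ℕ, B ≤ n ∧ ∀ g ∈ GV q r k, ¬ (|g i₀ - n| ≤ B ∧ ∀ l ≠ i₀, g l ≤ B))
    {Q N w H : ℕ} {A : ℕ → ℤ} (hQ : 1 ≤ Q) (hN : 1 ≤ N) (hA : Arr q r Q N w A H) (L : ℕ) :
    ∃ (w' : ℕ) (A' : ℕ → ℤ), Arr q r Q (L * N) w' A' ((L + 1) / 2 * H + L * k) := by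
  classical
  obtain ⟨n, hnB, hn⟩ := hbad (Q + w)
  set s : ℕ := Q * (n / Q) with hs
  have hsn : s ≤ n ∧ n < s + Q := by
    have h1 := Nat.div_add_mod n Q
    have h2 := Nat.mod_lt n hQ
    constructor
    · rw [hs]; omega
    · rw [hs]; omega
  have hsw : (w : ℤ) ≤ s := by exact_mod_cast (by omega : w ≤ s)
  have hs0 : (0 : ℤ) ≤ s := Int.natCast_nonneg _
  have hQ0 : (0 : ℤ) ≤ Q := Int.natCast_nonneg _
  have hmodN : ∀ g, g % N < N := fun g => Nat.mod_lt g hN
  refine ⟨L * s, fun g => ((g / N : ℕ) : ℤ) * s + A (g % N), ?_, ?_, ?_, ?_, ?_⟩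
  · intro g _
    have := hA.pos _ (hmodN g)
    positivity
  · intro g hg
    have h1 : g / N + 1 ≤ L := Nat.div_lt_of_lt_mul (by rwa [mul_comm] at hg)
    have h2 := hA.wid _ (hmodN g)
    have h3 : ((g / N : ℕ) : ℤ) + 1 ≤ L := by exact_mod_cast h1
    push_cast at h3 ⊢
    nlinarith
  · intro g _
    refine dvd_add (Dvd.dvd.mul_left ?_ _) (hA.dvd _ (hmodN g))
    exact_mod_cast (Dvd.intro _ rfl : Q ∣ Q * (n / Q))
  · intro g g' hgg _
    have h1 : g / N ≤ g' / N := Nat.div_le_div_right hgg.le
    rcases Nat.lt_or_eq_of_le h1 with h2 | h2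
    · have h3 : ((g / N : ℕ) : ℤ) + 1 ≤ ((g' / N : ℕ) : ℤ) := by exact_mod_cast h2
      have h4 := hA.wid _ (hmodN g)
      have h5 := hA.pos _ (hmodN g')
      nlinarith
    · have h3 : g % N < g' % N := by
        have e1 := Nat.div_add_mod g N
        have e2 := Nat.div_add_mod g' N
        rw [← h2] at e2
        omega
      have h4 := hA.mono _ _ h3 (hmodN g')
      rw [h2]
      linarith
  · intro z X hX hXc
    -- the children
    set lo : ℕ → ℤ := fun c => z + (c : ℤ) * s with hlo
    have hlo1 : ∀ c, lo (c + 1) = lo c + s := by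
      intro c
      simp only [hlo]
      push_cast
      ring
    -- an element of `X` in a child is in a class of this child
    have hchild : ∀ c < L, ∀ x ∈ X, lo c ≤ x → x < lo c + w →
        ∃ u < N, lo c + A u ≤ x ∧ x < lo c + A u + Q := by
      intro c hc x hx h1 h2
      have hc1 : (c : ℤ) + 1 ≤ L := by exact_mod_cast hc
      have hc0 : (0 : ℤ) ≤ c := Int.natCast_nonneg _
      obtain ⟨g, hg, h3, h4⟩ := hXc x hx (by simp only [hlo] at h1; nlinarith) (by
        simp only [hlo] at h2
        push_cast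
        nlinarith)
      have h5 := hA.wid _ (hmodN g)
      have h6 := hA.pos _ (hmodN g)
      have h7 : g / N = c := by
        by_contra hne
        rcases Nat.lt_or_gt_of_ne hne with h | h
        · have h8 : ((g / N : ℕ) : ℤ) + 1 ≤ c := by exact_mod_cast h
          simp only [hlo] at h1
          nlinarith
        · have h8 : (c : ℤ) + 1 ≤ ((g / N : ℕ) : ℤ) := by exact_mod_cast h
          simp only [hlo] at h2
          nlinarith
      rw [h7] at h3 h4
      refine ⟨g % N, hmodN g, ?_, ?_⟩
      · simp only [hlo]; linarith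
      · simp only [hlo]; linarith
    set Xc : ℕ → Finset ℤ := fun c => X.filter (fun x => lo c ≤ x ∧ x < lo c + w) with hXcdef
    set Rich : Finset ℕ := (range L).filter (fun c => k < (Xc c).card) with hRich
    -- no two adjacent rich children
    have hadj : ∀ c, c ∈ Rich → c + 1 ∉ Rich := by
      intro c hc hc'
      have hcL : c < L := mem_range.1 (mem_filter.1 hc).1
      have hcL' : c + 1 < L := mem_range.1 (mem_filter.1 hc').1
      have hr := (mem_filter.1 hc).2
      have hr' := (mem_filter.1 hc').2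
      set nA := (X.filter (fun x => x < lo c)).card with hnA
      set nB := (X.filter (fun x => x < lo c + w)).card with hnB'
      set nC := (X.filter (fun x => x < lo (c + 1))).card with hnC
      set nD := (X.filter (fun x => x < lo (c + 1) + w)).card with hnD
      have hcnt : ∀ τ τ' : ℤ, τ ≤ τ' → (X.filter (fun x => x < τ')).card =
          (X.filter (fun x => x < τ)).card + (X.filter (fun x => τ ≤ x ∧ x < τ')).card := by
        intro τ τ' hττ
        rw [← card_union_of_disjoint]
        · congr 1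
          ext x
          simp only [mem_filter, mem_union]
          constructor
          · rintro ⟨h1, h2⟩
            by_cases h3 : x < τ
            · exact Or.inl ⟨h1, h3⟩
            · exact Or.inr ⟨h1, not_lt.1 h3, h2⟩
          · rintro (⟨h1, h2⟩ | ⟨h1, h2, h3⟩)
            · exact ⟨h1, by linarith⟩
            · exact ⟨h1, h3⟩
        · rw [disjoint_left]
          intro x h1 h2
          have h3 := (mem_filter.1 h1).2
          have h4 := (mem_filter.1 h2).2.1
          linarith
      have hw0 : (0 : ℤ) ≤ w := Int.natCast_nonneg _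
      have e1 : nB = nA + (Xc c).card := hcnt _ _ (by linarith)
      have e2 : nD = nC + (Xc (c + 1)).card := hcnt _ _ (by linarith)
      have e3 : nC = nB := by
        have h1 := hcnt (lo c + w) (lo (c + 1)) (by rw [hlo1]; linarith)
        have h2 : X.filter (fun x => lo c + w ≤ x ∧ x < lo (c + 1)) = ∅ := by
          rw [filter_eq_empty_iff]
          rintro x hx ⟨h3, h4⟩
          have hc1 : (c : ℤ) + 1 + 1 ≤ L := by exact_mod_cast hcL'
          have hc0 : (0 : ℤ) ≤ c := Int.natCast_nonneg _
          obtain ⟨g, hg, h5, h6⟩ := hXc x hx (by simp only [hlo] at h3; nlinarith) (by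
            rw [hlo1] at h4
            simp only [hlo] at h4
            push_cast
            nlinarith)
          have h7 := hA.wid _ (hmodN g)
          have h8 := hA.pos _ (hmodN g)
          rcases Nat.lt_or_ge c (g / N) with h | h
          · have h9 : (c : ℤ) + 1 ≤ ((g / N : ℕ) : ℤ) := by exact_mod_cast h
            rw [hlo1] at h4
            simp only [hlo] at h4
            nlinarith
          · have h9 : ((g / N : ℕ) : ℤ) ≤ c := by exact_mod_cast h
            simp only [hlo] at h3
            nlinarith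
        rw [h2, card_empty, add_zero] at h1
        exact h1
      have hDX : nD ≤ X.card := card_filter_le _ _
      have hi₀ := i₀.2
      set j := nB - (i₀ + 1) with hj
      have hjk : j + k < X.card := by omega
      have hwin := win hq hX hjk
      have hinA : ∀ l, nA ≤ l → l < nB → lo c ≤ en X l ∧ en X l < lo c + w := by
        intro l h1 h2
        have hl : l < X.card := by omega
        refine ⟨?_, (en_lt_iff X _ hl).2 h2⟩
        by_contra h
        push Not at h
        exact absurd ((en_lt_iff X _ hl).1 h) (not_lt.2 h1)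
      have hinB : ∀ l, nC ≤ l → l < nD → lo (c + 1) ≤ en X l ∧ en X l < lo (c + 1) + w := by
        intro l h1 h2
        have hl : l < X.card := by omega
        refine ⟨?_, (en_lt_iff X _ hl).2 h2⟩
        by_contra h
        push Not at h
        exact absurd ((en_lt_iff X _ hl).1 h) (not_lt.2 h1)
      refine hn _ hwin ⟨?_, fun l hl => ?_⟩
      · have h1 := hinA (j + i₀) (by omega) (by omega)
        have h2 := hinB (j + i₀ + 1) (by omega) (by omega)
        rw [hlo1] at h2
        have h3 : (s : ℤ) ≤ n := by exact_mod_cast hsn.1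
        have h4 : (n : ℤ) < s + Q := by exact_mod_cast hsn.2
        push_cast
        rw [abs_le]
        constructor <;> linarith [h1.1, h1.2, h2.1, h2.2]
      · rcases lt_or_gt_of_ne hl with h | h
        · have h0 : (l : ℕ) < i₀ := h
          have h1 := hinA (j + l) (by omega) (by omega)
          have h2 := hinA (j + l + 1) (by omega) (by omega)
          push_cast
          linarith [h1.1, h1.2, h2.1, h2.2]
        · have h0 : (i₀ : ℕ) < l := h
          have hl2 := l.2
          have h1 := hinB (j + l) (by omega) (by omega)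
          have h2 := hinB (j + l + 1) (by omega) (by omega)
          push_cast
          linarith [h1.1, h1.2, h2.1, h2.2]
    have hRc := no_adjacent L Rich (filter_subset _ _) hadj
    -- counting the hits
    set Hc : ℕ → Finset ℕ := fun c =>
      (range N).filter (fun u => ∃ x ∈ X, lo c + A u ≤ x ∧ x < lo c + A u + Q) with hHc
    have hHcH : ∀ c < L, (Hc c).card ≤ H := fun c hc => hA.hit (lo c) X hX (hchild c hc)
    have hHck : ∀ c < L, c ∉ Rich → (Hc c).card ≤ k := by
      intro c hc hcR
      have h1 : (Xc c).card ≤ k := by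
        by_contra h
        exact hcR (mem_filter.2 ⟨mem_range.2 hc, not_le.1 h⟩)
      refine le_trans ?_ h1
      -- choose an element in every hit class
      have h2 : ∀ u ∈ Hc c, ∃ x ∈ X, lo c + A u ≤ x ∧ x < lo c + A u + Q := fun u hu => (mem_filter.1 hu).2
      choose! f hf1 hf2 using h2
      apply card_le_card_of_injOn f
      · intro u hu
        have hu' := mem_range.1 (mem_filter.1 hu).1
        have h3 := hf2 u hu
        have h4 := hA.pos u hu'
        have h5 := hA.wid u hu'
        exact mem_filter.2 ⟨hf1 u hu, by linarith, by linarith⟩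
      · intro u hu v hv huv
        have h3 := hf2 u hu
        have h4 := hf2 v hv
        rw [huv] at h3
        rcases lt_trichotomy u v with h | h | h
        · have := hA.mono u v h (mem_range.1 (mem_filter.1 hv).1)
          linarith [h3.1, h3.2, h4.1, h4.2]
        · exact h
        · have := hA.mono v u h (mem_range.1 (mem_filter.1 hu).1)
          linarith [h3.1, h3.2, h4.1, h4.2]
    have hbound : ((range (L * N)).filter (fun g => ∃ x ∈ X,
        z + (((g / N : ℕ) : ℤ) * s + A (g % N)) ≤ x ∧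
          x < z + (((g / N : ℕ) : ℤ) * s + A (g % N)) + Q)).card ≤ ∑ c ∈ range L, (Hc c).card := by
      rw [← card_sigma]
      apply card_le_card_of_injOn (fun g => (⟨g / N, g % N⟩ : Σ _ : ℕ, ℕ))
      · intro g hg
        obtain ⟨h1, x, hx, h2, h3⟩ := mem_filter.1 hg
        have h4 : g / N < L := Nat.div_lt_of_lt_mul (by rw [mul_comm]; exact mem_range.1 h1)
        refine mem_sigma.2 ⟨mem_range.2 h4, mem_filter.2 ⟨mem_range.2 (hmodN g), x, hx, ?_, ?_⟩⟩
        · simp only [hlo]; linarith
        · simp only [hlo]; linarith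
      · intro g _ g' _ h
        simp only [Sigma.mk.injEq, heq_eq_eq] at h
        rw [← Nat.div_add_mod g N, ← Nat.div_add_mod g' N, h.1, h.2]
    refine hbound.trans ?_
    have h1 : ∑ c ∈ range L, (Hc c).card ≤ ∑ c ∈ range L, ((if c ∈ Rich then H else 0) + k) := by
      refine sum_le_sum fun c hc => ?_
      have hcL := mem_range.1 hc
      by_cases h : c ∈ Rich
      · rw [if_pos h]
        exact (hHcH c hcL).trans (Nat.le_add_right _ _)
      · rw [if_neg h, zero_add]
        exact hHck c hcL h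
    refine h1.trans ?_
    rw [sum_add_distrib, ← sum_filter, sum_const, sum_const, card_range, smul_eq_mul, smul_eq_mul]
    have h2 : ((range L).filter (fun c => c ∈ Rich)).card ≤ Rich.card :=
      card_le_card fun c hc => (mem_filter.1 hc).2
    have h3 := Nat.mul_le_mul_right H (h2.trans hRc)
    omega

/-- one coordinate near any large number, the others bounded -/
theorem one_big (hQG : QG) (k q : ℕ) (r : ℤ) (hq : 1 ≤ q) (hqr : IsCoprime r (q : ℤ)) (i₀ : Fin k) :
    ∃ B : ℕ, ∀ n : ℕ, B ≤ n → ∃ g ∈ GV q r k, |g i₀ - n| ≤ B ∧ ∀ l ≠ i₀, g l ≤ B := by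
  classical
  by_contra hcon
  have hbad : ∀ B : ℕ, ∃ n : ℕ, B ≤ n ∧ ∀ g ∈ GV q r k, ¬ (|g i₀ - n| ≤ B ∧ ∀ l ≠ i₀, g l ≤ B) := by
    intro B
    by_contra h
    push Not at h
    exact hcon ⟨B, h⟩
  obtain ⟨c₀, hc₀, hc₁, hQ⟩ := hQG
  set L : ℕ := 20 * (k + 1) with hL
  set T : ℕ := L * (L * (L * L)) with hT
  set M : ℕ := L * (2000 * (k + 1) ^ 3) with hM
  have hTM : T = 4 * M := by rw [hT, hM, hL]; ring
  have hM0 : 1 ≤ M := by
    rw [hM, hL]
    exact Nat.one_le_iff_ne_zero.2 (by positivity)
  obtain ⟨K, hK, hQ'⟩ := hQ T M (by omega) (by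
    rw [hTM]
    push_cast
    have : (1 : ℝ) ≤ M := by exact_mod_cast hM0
    nlinarith)
  set W : ℕ := (T * K).factorial with hW
  have hW0 : 0 < W := Nat.factorial_pos _
  set Q : ℕ := W * (T * K + 1) with hQdef
  have hQ1 : 1 ≤ Q := Nat.one_le_iff_ne_zero.2 (by positivity)
  -- the arrangement
  obtain ⟨w₂, A₂, h₂⟩ := arr_step hq i₀ hbad hQ1 (by rw [hL]; omega) (arr_one q r Q L) L
  obtain ⟨w₃, A₃, h₃⟩ := arr_step hq i₀ hbad hQ1 (Nat.one_le_iff_ne_zero.2 (by rw [hL]; positivity)) h₂ L
  obtain ⟨w₄, A, h₄⟩ := arr_step hq i₀ hbad hQ1 (Nat.one_le_iff_ne_zero.2 (by rw [hL]; positivity)) h₃ L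
  have hHM : (L + 1) / 2 * ((L + 1) / 2 * ((L + 1) / 2 * L + L * k) + L * k) + L * k ≤ M := by
    have e1 : (L + 1) / 2 = 10 * (k + 1) := by rw [hL]; omega
    rw [e1, hM]
    have h1 : 10 * (k + 1) * (10 * (k + 1) * (10 * (k + 1) * L + L * k) + L * k) + L * k =
      L * (10 * (k + 1) * (10 * (k + 1) * (10 * (k + 1) + k) + k) + k) := by ring
    rw [h1]
    refine Nat.mul_le_mul_left L ?_
    have h2 : 10 * (k + 1) + k ≤ 11 * (k + 1) := by omega
    calc 10 * (k + 1) * (10 * (k + 1) * (10 * (k + 1) + k) + k) + k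
        ≤ 10 * (k + 1) * (10 * (k + 1) * (11 * (k + 1)) + (k + 1) * (k + 1)) + (k + 1) ^ 3 := by
          have h3 : k ≤ (k + 1) * (k + 1) := by nlinarith
          have h4 : k ≤ (k + 1) ^ 3 := by nlinarith [sq_nonneg k, Nat.zero_le (k ^ 3)]
          gcongr
      _ ≤ 2000 * (k + 1) ^ 3 := by
          have : 10 * (k + 1) * (10 * (k + 1) * (11 * (k + 1)) + (k + 1) * (k + 1)) + (k + 1) ^ 3 =
            1111 * (k + 1) ^ 3 := by ring
          rw [this]
          exact Nat.mul_le_mul_right _ (by norm_num)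
  set x : Fin T → Fin K → ℤ := fun g i => A g + ((W * (finProdFinEquiv (g, i) : ℕ) : ℕ) : ℤ) with hx
  have hoff : ∀ (g : Fin T) (i : Fin K), W * (finProdFinEquiv (g, i) : ℕ) < Q := by
    intro g i
    rw [hQdef]
    exact Nat.mul_lt_mul_of_pos_left (by have := (finProdFinEquiv (g, i)).2; omega) hW0
  have hmem : ∀ (g : Fin T) (i : Fin K), 0 + A g ≤ x g i ∧ x g i < 0 + A g + Q := by
    intro g i
    have h1 : ((W * (finProdFinEquiv (g, i) : ℕ) : ℕ) : ℤ) < Q := by exact_mod_cast hoff g i
    have h2 : (0 : ℤ) ≤ ((W * (finProdFinEquiv (g, i) : ℕ) : ℕ) : ℤ) := Int.natCast_nonneg _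
    simp only [hx]
    constructor <;> linarith
  have hinj : Function.Injective (fun z : Fin T × Fin K => x z.1 z.2) := by
    rintro ⟨g, i⟩ ⟨g', i'⟩ h
    simp only at h
    have h1 := hmem g i
    have h2 := hmem g' i'
    rw [h] at h1
    have hgg : (g : ℕ) = g' := by
      rcases lt_trichotomy (g : ℕ) g' with h3 | h3 | h3
      · have := h₄.mono g g' h3 g'.2
        linarith [h1.1, h1.2, h2.1, h2.2]
      · exact h3
      · have := h₄.mono g' g h3 g.2
        linarith [h1.1, h1.2, h2.1, h2.2]
    have hgg' := Fin.ext hgg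
    subst hgg'
    simp only [hx, add_right_inj] at h
    have h5 : W * (finProdFinEquiv (g, i) : ℕ) = W * (finProdFinEquiv (g, i') : ℕ) := by exact_mod_cast h
    have h6 := Nat.eq_of_mul_eq_mul_left hW0 h5
    exact finProdFinEquiv.injective (Fin.ext h6)
  obtain ⟨X, hXU, hXc, hXE⟩ := exact_all T K M hQ' q r hq hqr x hinj (by
    intro p hp hple _
    refine ⟨1, fun g i hd => ?_⟩
    have hpW : p ∣ W := Nat.dvd_factorial hp.pos hple
    have h1 : (p : ℤ) ∣ x g i := by
      simp only [hx]
      refine dvd_add (dvd_trans ?_ (h₄.dvd g g.2)) ?_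
      · exact_mod_cast Dvd.dvd.mul_right hpW _
      · exact_mod_cast Dvd.dvd.mul_right hpW _
    have h3 : (p : ℤ) ∣ 1 := by
      have := dvd_sub h1 hd
      simpa using this
    exact (Nat.prime_iff_prime_int.1 hp).not_isUnit (isUnit_of_dvd_one h3))
  have h5 := h₄.hit 0 X hXE (fun y hy _ _ => by
    obtain ⟨z, _, rfl⟩ := mem_image.1 (hXU hy)
    exact ⟨z.1, z.1.2, hmem z.1 z.2⟩)
  have h6 : (univ.filter (fun g : Fin T => ∃ i, x g i ∈ X)).card ≤
      ((range T).filter (fun g => ∃ y ∈ X, 0 + A g ≤ y ∧ y < 0 + A g + Q)).card := by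
    apply card_le_card_of_injOn (fun g : Fin T => (g : ℕ))
    · intro g hg
      obtain ⟨i, hi⟩ := (mem_filter.1 hg).2
      exact mem_filter.2 ⟨mem_range.2 g.2, x g i, hi, hmem g i⟩
    · intro g _ g' _ h
      exact Fin.ext h
  have h7 := (hXc.trans h6).trans (h5.trans hHM)
  omega

end Pool.Agent.R494.CG
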