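import Mathlib
import Pool.Agent.R494.CG5
import Pool.Agent.R494.CG3
import Pool.Agent.R494.BGenS
import Pool.Agent.R494.BGen4

set_option autoImplicit false

/-!
The vectors of consecutive prime gaps form an asymptotic basis of finite order.
-/

namespace Pool.Agent.R494.CG

open Finset Pool.Agent.R494.BGen

theorem gv_pos {q k : ℕ} {r : ℤ} {g : Fin k → ℤ} (hg : g ∈ GV q r k) (i : Fin k) : 0 < g i := by
  obtain ⟨h, h1, -, h3, -⟩ := hg
  rw [h3]
  have := h1 (Fin.castSucc_lt_succ (i := i))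
  linarith

/-- the group generated by the differences of gap vectors -/
def GH (q : ℕ) (r : ℤ) (k : ℕ) : AddSubgroup (Fin k → ℤ) :=
  AddSubgroup.closure {x | ∃ s ∈ GV q r k, ∃ s' ∈ GV q r k, x = s - s'}

/-- exact patterns of multiples of `m` -/
theorem exact_multiples (hQG : QG) (k q m : ℕ) (r : ℤ) (hq : 1 ≤ q) (hqr : IsCoprime r (q : ℤ))
    (hm : 1 ≤ m) : ∃ X : Finset ℤ, Ex q r X ∧ k + 1 ≤ X.card ∧ ∀ x ∈ X, (m : ℤ) ∣ x := by
  classical
  obtain ⟨c₀, hc₀, hc₁, hQ⟩ := hQG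
  obtain ⟨K, hK, hQ'⟩ := hQ (4 * k + 4) k (by omega) (by
    push_cast
    have : (0 : ℝ) ≤ k := Nat.cast_nonneg k
    nlinarith)
  set W : ℕ := ((4 * k + 4) * K).factorial with hW
  have hW0 : 0 < W := Nat.factorial_pos _
  set x : Fin (4 * k + 4) → Fin K → ℤ := fun g i => ((m * W * (finProdFinEquiv (g, i) : ℕ) : ℕ) : ℤ) with hx
  have hinj : Function.Injective (fun z : Fin (4 * k + 4) × Fin K => x z.1 z.2) := by
    rintro ⟨g, i⟩ ⟨g', i'⟩ h
    simp only [hx] at h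
    have h1 : m * W * (finProdFinEquiv (g, i) : ℕ) = m * W * (finProdFinEquiv (g', i') : ℕ) := by
      exact_mod_cast h
    have h2 := Nat.eq_of_mul_eq_mul_left (by positivity) h1
    exact finProdFinEquiv.injective (Fin.ext h2)
  obtain ⟨X, hXU, hXc, hXE⟩ := exact_all (4 * k + 4) K k hQ' q r hq hqr x hinj (by
    intro p hp hple _
    refine ⟨1, fun g i hd => ?_⟩
    have hpW : p ∣ W := Nat.dvd_factorial hp.pos hple
    have h1 : (p : ℤ) ∣ x g i := by
      simp only [hx]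
      exact_mod_cast Dvd.dvd.mul_right (Dvd.dvd.mul_left hpW m) _
    have h3 : (p : ℤ) ∣ 1 := by
      have := dvd_sub h1 hd
      simpa using this
    exact (Nat.prime_iff_prime_int.1 hp).not_isUnit (isUnit_of_dvd_one h3))
  refine ⟨X, hXE, hXc.trans ?_, fun y hy => ?_⟩
  · have : Nonempty (Fin K) := ⟨⟨0, by omega⟩⟩
    have h1 : ∀ g ∈ univ.filter (fun g : Fin (4 * k + 4) => ∃ i, x g i ∈ X), ∃ i, x g i ∈ X :=
      fun g hg => (mem_filter.1 hg).2
    choose! ii hii using h1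
    apply card_le_card_of_injOn (fun g => x g (ii g)) (fun g hg => hii g hg)
    intro g _ g' _ h
    exact congrArg Prod.fst (hinj (a₁ := (g, ii g)) (a₂ := (g', ii g')) h)
  · obtain ⟨z, _, rfl⟩ := mem_image.1 (hXU hy)
    simp only [hx]
    exact_mod_cast Dvd.dvd.mul_right (Dvd.intro _ rfl) _

/-- positive multiples of the unit vectors -/
theorem exists_single (hQG : QG) (k q : ℕ) (r : ℤ) (hq : 1 ≤ q) (hqr : IsCoprime r (q : ℤ))
    (i₀ : Fin k) : ∃ t : ℤ, t ≠ 0 ∧ (Pi.single i₀ t : Fin k → ℤ) ∈ GH q r k := by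
  classical
  obtain ⟨B, hB⟩ := one_big hQG k q r hq hqr i₀
  have h1 : ∀ j : ℕ, ∃ g ∈ GV q r k, |g i₀ - ((B + (2 * B + 1) * j : ℕ) : ℤ)| ≤ B ∧ ∀ l ≠ i₀, g l ≤ B :=
    fun j => hB _ (Nat.le_add_right _ _)
  choose g hg1 hg2 hg3 using h1
  set φ : ℕ → {x // x ∈ Fintype.piFinset (fun _ : Fin k => Icc (0 : ℤ) B)} := fun j =>
    ⟨fun l => if l = i₀ then 0 else g j l, by
      rw [Fintype.mem_piFinset]
      intro l
      rw [mem_Icc]
      by_cases h : l = i₀
      · rw [if_pos h]; exact ⟨le_refl _, Int.natCast_nonneg _⟩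
      · rw [if_neg h]; exact ⟨(gv_pos (hg1 j) l).le, hg3 j l h⟩⟩ with hφ
  obtain ⟨a, b, hab, hφab⟩ := Finite.exists_ne_map_eq_of_infinite φ
  have h2 : ∀ l ≠ i₀, g a l = g b l := by
    intro l hl
    have := congrFun (congrArg Subtype.val hφab) l
    simp only [hφ, if_neg hl] at this
    exact this
  refine ⟨g a i₀ - g b i₀, ?_, ?_⟩
  · have h3 := abs_le.1 (hg2 a)
    have h4 := abs_le.1 (hg2 b)
    push_cast at h3 h4
    intro h
    have hB0 : (0 : ℤ) ≤ B := Int.natCast_nonneg _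
    rcases Nat.lt_or_gt_of_ne hab with h5 | h5
    · have h6 : (a : ℤ) + 1 ≤ b := by exact_mod_cast h5
      nlinarith [h3.1, h3.2, h4.1, h4.2]
    · have h6 : (b : ℤ) + 1 ≤ a := by exact_mod_cast h5
      nlinarith [h3.1, h3.2, h4.1, h4.2]
  · refine AddSubgroup.subset_closure ⟨g a, hg1 a, g b, hg1 b, ?_⟩
    ext l
    rcases eq_or_ne l i₀ with rfl | hl
    · rw [Pi.single_eq_same]; rfl
    · rw [Pi.single_eq_of_ne hl, Pi.sub_apply, h2 l hl, sub_self]

theorem SS_sum_fn {G : Type} [AddCommGroup G] {D : Set G} {ι : Type} (s : Finset ι) (f : ι → G)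
    (n : ι → ℕ) (hf : ∀ i ∈ s, f i ∈ SS D (n i)) : ∑ i ∈ s, f i ∈ SS D (∑ i ∈ s, n i) := by
  classical
  induction s using Finset.induction_on with
  | empty => simp [SS]
  | insert a s ha ih =>
    rw [sum_insert ha, sum_insert ha]
    exact SS_add (hf a (mem_insert_self a s)) (ih fun i hi => hf i (mem_insert_of_mem hi))

/-- a translate of a finite subset of the group consists of sums -/
theorem translate {G : Type} [AddCommGroup G] (D : Set G) (R : Finset G)
    (hR : ∀ ρ ∈ R, ρ ∈ AddSubgroup.closure {x | ∃ s ∈ D, ∃ s' ∈ D, x = s - s'}) :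
    ∃ (n : ℕ) (a : G), a ∈ SS D n ∧ ∀ ρ ∈ R, a + ρ ∈ SS D n := by
  classical
  have h1 : ∀ ρ ∈ AddSubgroup.closure {x | ∃ s ∈ D, ∃ s' ∈ D, x = s - s'},
      ∃ (n : ℕ) (a b : G), a ∈ SS D n ∧ b ∈ SS D n ∧ ρ = b - a := by
    intro ρ hρ
    induction hρ using AddSubgroup.closure_induction with
    | mem x hx =>
      obtain ⟨s, hs, s', hs', rfl⟩ := hx
      exact ⟨1, s', s, SS_one hs', SS_one hs, rfl⟩
    | zero => exact ⟨0, 0, 0, rfl, rfl, by simp⟩
    | add x y _ _ hx hy =>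
      obtain ⟨n, a, b, ha, hb, rfl⟩ := hx
      obtain ⟨n', a', b', ha', hb', rfl⟩ := hy
      exact ⟨n + n', a + a', b + b', SS_add ha ha', SS_add hb hb', by abel⟩
    | neg x _ hx =>
      obtain ⟨n, a, b, ha, hb, rfl⟩ := hx
      exact ⟨n, b, a, hb, ha, by abel⟩
  have h2 : ∀ ρ : G, ρ ∈ R → ∃ (n : ℕ) (a b : G), a ∈ SS D n ∧ b ∈ SS D n ∧ ρ = b - a :=
    fun ρ hρ => h1 ρ (hR ρ hρ)
  choose! n a b ha hb hab using h2
  refine ⟨∑ ρ ∈ R, n ρ, ∑ ρ ∈ R, a ρ, SS_sum_fn R a n ha, fun ρ hρ => ?_⟩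
  have h3 : ∑ ρ ∈ R, a ρ + ρ = b ρ + ∑ ρ' ∈ R.erase ρ, a ρ' := by
    have e : b ρ = a ρ + ρ := by
      have := hab ρ hρ
      rw [eq_sub_iff_add_eq] at this
      rw [← this, add_comm]
    rw [← add_sum_erase R a hρ, e]
    abel
  rw [h3, ← add_sum_erase R n hρ]
  exact SS_add (hb ρ hρ) (SS_sum_fn _ a n fun ρ' hρ' => ha ρ' (mem_of_mem_erase hρ'))

theorem SS_mem {G : Type} [AddCommGroup G] {D : Set G} {H : AddSubgroup G} (hD : ∀ x ∈ D, x ∈ H)
    (n : ℕ) : ∀ x ∈ SS D n, x ∈ H := by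
  induction n with
  | zero =>
    intro x hx
    have : x = 0 := hx
    rw [this]
    exact H.zero_mem
  | succ n ih =>
    rintro x ⟨d, hd, y, hy, rfl⟩
    exact H.add_mem (hD d hd) (ih y hy)

/-- no modulus at least four divides -/
theorem no_mod (hQG : QG) (k q : ℕ) (r : ℤ) (hq : 1 ≤ q) (hqr : IsCoprime r (q : ℤ))
    (μ m : ℕ) (hμ : μ ≠ 0) (hI : ∀ t : ℤ, (∀ i, (Pi.single i t : Fin k → ℤ) ∈ GH q r k) ↔ (μ : ℤ) ∣ t)
    (hm : Mod m) (hmμ : m ∣ μ) (hcl : ∃ c : Fin 4 → ℤ, (∀ j, IsCoprime (r + q * c j) (m : ℤ)) ∧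
      ∀ j j', j ≠ j' → ¬ (m : ℤ) ∣ c j - c j') : False := by
  classical
  obtain ⟨c, hc1, hc2⟩ := hcl
  have hm1 : 1 ≤ m := by
    rcases hm with rfl | rfl | rfl | ⟨_, h⟩ <;> omega
  obtain ⟨X, hX, s, t, hst, htX, hrun, hne⟩ := two_run hQG k q m r hq hqr hm1 c hc1 hc2
  obtain ⟨ν, rfl⟩ := hmμ
  have hν : (ν : ℤ) ≠ 0 := by
    intro h
    have : ν = 0 := by exact_mod_cast h
    exact hμ (by rw [this, mul_zero])
  set mk : (Fin k → ℤ) →+ (Fin k → ℤ) ⧸ GH q r k := QuotientAddGroup.mk' _ with hmk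
  have hmk0 : ∀ x, mk x = 0 ↔ x ∈ GH q r k := fun x => by
    rw [hmk]
    exact QuotientAddGroup.eq_zero_iff x
  set η : Fin k → (Fin k → ℤ) ⧸ GH q r k := fun i => mk (Pi.single i (ν : ℤ)) with hη
  have hsm : ∀ (a : ℤ) (i : Fin k), a • η i = mk (Pi.single i (a * ν)) := by
    intro a i
    simp only [hη]
    rw [← map_zsmul]
    congr 1
    ext l
    rcases eq_or_ne l i with rfl | h
    · simp
    · simp [h]
  set d : ℕ → ℤ := fun j => en X (s + j + 1) - en X (s + j) with hd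
  have hgv : ∀ j, j + k ≤ X.card - 1 - s → (fun i : Fin k => d (j + i)) ∈ GV q r k := by
    intro j hj
    have := win hq hX (j := s + j) (k := k) (by omega)
    simp only [hd]
    convert this using 2 with i
    rw [show s + j + (i : ℕ) = s + (j + i) by ring]
  have hsum : ∀ j, ∑ i : Fin k, d (j + i) • η i = (ν : ℤ) • mk (fun i : Fin k => d (j + i)) := by
    intro j
    rw [← map_zsmul]
    have : (ν : ℤ) • (fun i : Fin k => d (j + i)) = ∑ i : Fin k, Pi.single i (d (j + i) * (ν : ℤ)) := by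
      rw [Finset.univ_sum_single]
      ext i
      simp [mul_comm]
    rw [this, map_sum]
    exact sum_congr rfl fun i _ => hsm _ _
  have h0 : ∀ j < k, (m : ℤ) ∣ d j := by
    intro j hj
    have h1 := hrun (j + 1) (by omega)
    have h2 := hrun j hj.le
    have h3 := dvd_sub h1 h2
    have h4 : en X (s + (j + 1)) - en X s - (en X (s + j) - en X s) = d j := by
      simp only [hd]
      rw [show s + j + 1 = s + (j + 1) by ring]
      ring
    rwa [h4] at h3
  have hmη : ∀ i, (m : ℤ) • η i = 0 := by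
    intro i
    rw [hsm, hmk0]
    exact (hI _).2 (by push_cast; exact dvd_refl _) i
  have hfirst : (ν : ℤ) • mk (fun i : Fin k => d (0 + i)) = 0 := by
    rw [← hsum]
    refine sum_eq_zero fun i _ => ?_
    obtain ⟨w, hw⟩ := h0 (0 + i) (by have := i.2; omega)
    rw [hw, mul_comm, mul_smul, hmη, smul_zero]
  have hrec : ∀ j, j + k ≤ X.card - 1 - s → ∑ i : Fin k, d (j + i) • η i = 0 := by
    intro j hj
    have h1 : (fun i : Fin k => d (j + i)) - (fun i : Fin k => d (0 + i)) ∈ GH q r k :=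
      AddSubgroup.subset_closure ⟨_, hgv j hj, _, hgv 0 (by omega), rfl⟩
    have h2 : mk (fun i : Fin k => d (j + i)) = mk (fun i : Fin k => d (0 + i)) := by
      rw [← sub_eq_zero, ← map_sub]
      exact (hmk0 _).2 h1
    rw [hsum, h2]
    exact hfirst
  have hfin := rec_mod hm η hmη (fun t ht => by
    have h1 : ((m * ν : ℕ) : ℤ) ∣ t * ν := (hI _).1 fun i => by
      have := ht i
      rw [hsm, hmk0] at this
      exact this
    push_cast at h1
    exact Int.dvd_of_mul_dvd_mul_right hν h1) d _ hrec h0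
  apply hne
  have htel : ∀ l, s + l ≤ t → (m : ℤ) ∣ en X (s + l) - en X s := by
    intro l
    induction l with
    | zero => intro _; simp
    | succ l ih =>
      intro hl
      have h1 := ih (by omega)
      have h2 := hfin l (by omega)
      have h3 : en X (s + (l + 1)) - en X s = d l + (en X (s + l) - en X s) := by
        simp only [hd]
        rw [show s + l + 1 = s + (l + 1) by ring]
        ring
      rw [h3]
      exact dvd_add h2 h1
  have := htel (t - s) (by omega)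
  rwa [show s + (t - s) = t by omega] at this

theorem basis (hQG : QG) (k q : ℕ) (r : ℤ) (hk : 1 ≤ k) (hq : 1 ≤ q) (hq2 : 2 ∣ q)
    (hqr : IsCoprime r (q : ℤ)) :
    ∃ E : ℤ, (E = 2 ∨ E = 3) ∧ ∃ m₀ : ℕ, ∀ m ≥ m₀, ∃ C : ℤ, ∀ w : Fin k → ℤ, (∀ i, C ≤ w i) →
      ∃ v : Fin m → Fin k → ℤ, (∀ j, v j ∈ GV q r k) ∧ ∑ j, v j = E • w := by
  classical
  have hq2' : (2 : ℤ) ∣ q := by exact_mod_cast hq2
  -- the subgroup of the integers
  set I : AddSubgroup ℤ := ⨅ i : Fin k, (GH q r k).comap (AddMonoidHom.single (fun _ : Fin k => ℤ) i)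
    with hI
  have hIm : ∀ t : ℤ, t ∈ I ↔ ∀ i, (Pi.single i t : Fin k → ℤ) ∈ GH q r k := by
    intro t
    rw [hI, AddSubgroup.mem_iInf]
    rfl
  obtain ⟨N, hN, hNI⟩ : ∃ N : ℤ, N ≠ 0 ∧ N ∈ I := by
    have h1 := fun i => exists_single hQG k q r hq hqr i
    choose n hn hn2 using h1
    refine ⟨∏ i, n i, Finset.prod_ne_zero_iff.2 fun i _ => hn i, (hIm _).2 fun i => ?_⟩
    obtain ⟨u, hu⟩ := Finset.dvd_prod_of_mem n (mem_univ i)
    have h2 := AddSubgroup.zsmul_mem _ (hn2 i) u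
    have h3 : (Pi.single i (∏ i, n i) : Fin k → ℤ) = u • (Pi.single i (n i) : Fin k → ℤ) := by
      rw [hu]
      ext j
      rcases eq_or_ne j i with rfl | h
      · simp [mul_comm]
      · simp [h]
    rw [h3]
    exact h2
  obtain ⟨g, hg⟩ := Int.subgroup_cyclic I
  rw [← AddSubgroup.zmultiples_eq_closure] at hg
  have hdvd : ∀ t : ℤ, t ∈ I ↔ (g.natAbs : ℤ) ∣ t := by
    intro t
    rw [hg, Int.mem_zmultiples_iff, Int.natAbs_dvd]
  have hI' : ∀ t : ℤ, (∀ i, (Pi.single i t : Fin k → ℤ) ∈ GH q r k) ↔ (g.natAbs : ℤ) ∣ t :=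
    fun t => by rw [← hIm, hdvd]
  have hg0 : g.natAbs ≠ 0 := by
    intro h
    have h1 := (hdvd N).1 hNI
    rw [h] at h1
    simp at h1
    exact hN h1
  have hg4 : g.natAbs < 4 := by
    by_contra hcon
    push Not at hcon
    have main := fun m hm hmg hcl => no_mod hQG k q r hq hqr g.natAbs m hg0 hI' hm hmg hcl
    rcases small_divisor _ hcon with h | h | h | ⟨p, hp, hp5, h⟩
    · exact main 4 (Or.inl rfl) h (cls4 r q hq2' hqr)
    · exact main 6 (Or.inr (Or.inl rfl)) h (cls6 r q hq2' hqr)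
    · exact main 9 (Or.inr (Or.inr (Or.inl rfl))) h (cls9 r q hqr)
    · exact main p (Or.inr (Or.inr (Or.inr ⟨hp, hp5⟩))) h (clsp p hp hp5 r q hqr)
  obtain ⟨E, hE, hEd⟩ : ∃ E : ℤ, (E = 2 ∨ E = 3) ∧ (g.natAbs : ℤ) ∣ E := by
    rcases (show g.natAbs = 1 ∨ g.natAbs = 2 ∨ g.natAbs = 3 by omega) with h | h | h
    · exact ⟨2, Or.inl rfl, by rw [h]; norm_num⟩
    · exact ⟨2, Or.inl rfl, by rw [h]; norm_num⟩
    · exact ⟨3, Or.inr rfl, by rw [h]; norm_num⟩
  have hmulti : ∀ u : Fin k → ℤ, (∀ i, (g.natAbs : ℤ) ∣ u i) → u ∈ GH q r k := by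
    intro u hu
    rw [← Finset.univ_sum_single u]
    exact AddSubgroup.sum_mem _ fun i _ => (hI' _).2 (hu i) i
  -- the gap vectors lie in the group
  obtain ⟨g₀, hg₀, hg₀H⟩ : ∃ g₀ ∈ GV q r k, g₀ ∈ GH q r k := by
    obtain ⟨X, hX1, hX2, hX3⟩ := exact_multiples hQG k q g.natAbs r hq hqr (by omega)
    refine ⟨_, win hq hX1 (j := 0) (by omega), hmulti _ fun i => ?_⟩
    have hi := i.2
    exact dvd_sub (hX3 _ (en_mem (by omega))) (hX3 _ (en_mem (by omega)))
  have hall : ∀ x ∈ GV q r k, x ∈ GH q r k := by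
    intro x hx
    have h1 : x - g₀ ∈ GH q r k := AddSubgroup.subset_closure ⟨x, hx, g₀, hg₀, rfl⟩
    have := AddSubgroup.add_mem _ h1 hg₀H
    rwa [sub_add_cancel] at this
  -- large gaps
  have hbig := fun i => one_big hQG k q r hq hqr i
  choose Bf hBf using hbig
  set B : ℕ := ∑ i, Bf i with hB
  have hBle : ∀ i, Bf i ≤ B := fun i => single_le_sum (f := Bf) (fun _ _ => Nat.zero_le _) (mem_univ i)
  have hbig' : ∀ (i : Fin k) (n : ℤ), (B : ℤ) ≤ n → ∃ x ∈ GV q r k, |x i - n| ≤ B ∧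
      ∀ l ≠ i, |x l| ≤ B := by
    intro i n hn
    have hn0 : 0 ≤ n := le_trans (Int.natCast_nonneg _) hn
    obtain ⟨x, hx1, hx2, hx3⟩ := hBf i n.toNat (by
      have h1 := hBle i
      have h2 : (B : ℤ) ≤ (n.toNat : ℤ) := by rw [Int.toNat_of_nonneg hn0]; exact hn
      have h3 : B ≤ n.toNat := by exact_mod_cast h2
      omega)
    rw [Int.toNat_of_nonneg hn0] at hx2
    have h4 : (Bf i : ℤ) ≤ B := by exact_mod_cast hBle i
    refine ⟨x, hx1, hx2.trans h4, fun l hl => ?_⟩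
    rw [abs_of_pos (gv_pos hx1 l)]
    exact (hx3 l hl).trans h4
  -- the box
  set R : Finset (Fin k → ℤ) := (Fintype.piFinset (fun _ : Fin k => Icc (-((k * B : ℕ) : ℤ)) ((k * B : ℕ) : ℤ))).filter
    (fun ρ => ρ ∈ GH q r k) with hR
  obtain ⟨n₁, a, ha, haR⟩ := translate (GV q r k) R (fun ρ hρ => (mem_filter.1 hρ).2)
  -- all large vectors of the group
  obtain ⟨C₀, hC₀⟩ : ∃ C₀ : ℤ, ∀ u ∈ GH q r k, (∀ i, C₀ ≤ u i) → u ∈ SS (GV q r k) (k + n₁) := by
    refine ⟨B + ∑ i, |a i|, fun u hu hCu => ?_⟩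
    have h1 : ∀ i, ∃ x ∈ GV q r k, |x i - (u i - a i)| ≤ B ∧ ∀ l ≠ i, |x l| ≤ B := by
      intro i
      apply hbig'
      have h2 : |a i| ≤ ∑ i, |a i| := single_le_sum (f := fun i => |a i|) (fun _ _ => abs_nonneg _) (mem_univ i)
      have h3 := le_abs_self (a i)
      have h4 := hCu i
      linarith
    choose x hx1 hx2 hx3 using h1
    have h5 : u - a - ∑ i, x i ∈ R := by
      rw [hR, mem_filter, Fintype.mem_piFinset]
      refine ⟨fun l => ?_, ?_⟩
      · rw [mem_Icc, ← abs_le]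
        have h6 : (u - a - ∑ i, x i) l = -(x l l - (u l - a l)) - ∑ i ∈ univ.erase l, x i l := by
          rw [Pi.sub_apply, Pi.sub_apply, Finset.sum_apply, ← add_sum_erase univ _ (mem_univ l)]
          ring
        rw [h6]
        have h7 : |∑ i ∈ univ.erase l, x i l| ≤ ((k - 1 : ℕ) : ℤ) * B := by
          refine (abs_sum_le_sum_abs _ _).trans ?_
          have h8 : ∀ i ∈ univ.erase l, |x i l| ≤ (B : ℤ) := fun i hi =>
            hx3 i l (ne_of_mem_erase hi).symm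
          refine (sum_le_card_nsmul _ _ _ h8).trans ?_
          rw [card_erase_of_mem (mem_univ l), card_univ, Fintype.card_fin, nsmul_eq_mul]
        have h9 : |-(x l l - (u l - a l))| ≤ B := by rw [abs_neg]; exact hx2 l
        refine (abs_sub _ _).trans ((add_le_add h9 h7).trans ?_)
        have h10 : ((k - 1 : ℕ) : ℤ) = k - 1 := by
          rw [Nat.cast_sub hk]; simp
        rw [h10]
        push_cast
        linarith
      · exact AddSubgroup.sub_mem _ (AddSubgroup.sub_mem _ hu (SS_mem hall _ _ ha))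
          (AddSubgroup.sum_mem _ fun i _ => hall _ (hx1 i))
    have h6 := haR _ h5
    have h7 := SS_sum (D := GV q r k) univ x 1 (fun i _ => SS_one (hx1 i))
    rw [card_univ, Fintype.card_fin, mul_one] at h7
    have h8 := SS_add h7 h6
    have h9 : ∑ i, x i + (a + (u - a - ∑ i, x i)) = u := by abel
    rwa [h9] at h8
  refine ⟨E, hE, k + n₁, fun m hm => ?_⟩
  refine ⟨max 0 (C₀ + (m - (k + n₁) : ℕ) * ∑ i, |g₀ i|), fun w hw => ?_⟩
  have hE1 : 1 ≤ E := by rcases hE with rfl | rfl <;> norm_num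
  have h1 : E • w - (m - (k + n₁)) • g₀ ∈ SS (GV q r k) (k + n₁) := by
    apply hC₀
    · refine AddSubgroup.sub_mem _ (hmulti _ fun i => ?_) (AddSubgroup.nsmul_mem _ hg₀H _)
      rw [Pi.smul_apply, smul_eq_mul]
      exact Dvd.dvd.mul_right hEd _
    · intro i
      rw [Pi.sub_apply, Pi.smul_apply, Pi.smul_apply, smul_eq_mul, nsmul_eq_mul]
      have h2 : |g₀ i| ≤ ∑ i, |g₀ i| := single_le_sum (f := fun i => |g₀ i|) (fun _ _ => abs_nonneg _) (mem_univ i)
      have h3 := le_abs_self (g₀ i)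
      have h4 := hw i
      have h5 := le_trans (le_max_left _ _) h4
      have h6 := le_trans (le_max_right _ _) h4
      have h7 : (0 : ℤ) ≤ ((m - (k + n₁) : ℕ) : ℤ) := Int.natCast_nonneg _
      have h8 : w i ≤ E * w i := by nlinarith
      have h9 : ((m - (k + n₁) : ℕ) : ℤ) * g₀ i ≤ ((m - (k + n₁) : ℕ) : ℤ) * ∑ i, |g₀ i| :=
        mul_le_mul_of_nonneg_left (h3.trans h2) h7
      linarith
  have h2 : (m - (k + n₁)) • g₀ ∈ SS (GV q r k) (m - (k + n₁)) := by
    have := SS_sum (D := GV q r k) (range (m - (k + n₁))) (fun _ => g₀) 1 (fun _ _ => SS_one hg₀)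
    simpa using this
  have h3 := SS_add h1 h2
  rw [sub_add_cancel, show k + n₁ + (m - (k + n₁)) = m by omega] at h3
  exact SS_fin m h3

end Pool.Agent.R494.CG
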