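import Mathlib
import Pool.Agent.R494.CG6
import Pool.Agent.R494.BGen5

set_option autoImplicit false

/-!
The vectors of consecutive prime gaps form an asymptotic basis of finite order, unconditionally.
-/

namespace Pool.Agent.R494.CG

open Finset Pool.Agent.R494.BGen

theorem qg : QG := by
  obtain ⟨c₀, hc₀, hc₁, h⟩ := Pool.Agent.TH899.UG.quarterC
  refine ⟨c₀, hc₀, hc₁, fun T M hT hTM => ?_⟩
  obtain ⟨K, hK, hK2⟩ := h T M hT hTM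
  refine ⟨K, hK, fun a b ha hinj hadm => ?_⟩
  obtain ⟨S, c, hS, hB⟩ := hK2 a b ha hinj hadm
  exact ⟨S, c, hS, big_infinite hB⟩

theorem main (k q : ℕ) (r : ℤ) (hk : 1 ≤ k) (hq : 1 ≤ q) (hq2 : Even q) (hqr : IsCoprime r (q : ℤ)) :
    ∃ E : ℤ, (E = 2 ∨ E = 3) ∧ ∃ m₀ : ℕ, ∀ m ≥ m₀, ∃ C : ℤ, ∀ w : Fin k → ℤ, (∀ i, C ≤ w i) →
      ∃ v : Fin m → Fin k → ℤ, (∀ j, v j ∈ GV q r k) ∧ ∑ j, v j = E • w :=
  basis qg k q r hk hq hq2.two_dvd hqr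

end Pool.Agent.R494.CG
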