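import Mathlib

set_option autoImplicit false

/-!
Positions with private primes, and a residue class with prescribed quadratic symbols of their differences.
-/

namespace Pool.Agent.R494.QR

open Finset NumberTheorySymbols

/-- positions whose differences have private primes -/
theorem positions (M B : ℕ) : ∃ (g : ℕ → ℕ) (L : ℕ → ℕ → ℕ), StrictMono g ∧
    (∀ x y, (L x y).Prime ∧ L x y % 4 = 1 ∧ B < L x y) ∧
    (∀ x y, x < y → y < M → L x y ∣ g y - g x ∧ ¬ L x y ^ 2 ∣ g y - g x) ∧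
    (∀ x y u v, x < y → y < M → u < v → v < M → L x y ∣ g v - g u → x = u ∧ y = v) := by
  classical
  have hinf : {p : ℕ | p.Prime ∧ p ≡ 1 [MOD 4] ∧ B + M + 2 < p}.Infinite := by
    have h1 := (Nat.infinite_setOfPred_prime_modEq_one (k := 4) (by norm_num)).sdiff
      (Set.finite_Iic (B + M + 2))
    refine h1.mono ?_
    rintro p ⟨⟨hp, hp1⟩, hp2⟩
    exact ⟨hp, hp1, not_le.1 hp2⟩
  set em := Set.Infinite.natEmbedding _ hinf with hem
  set L : ℕ → ℕ → ℕ := fun x y => (em (Nat.pair x y) : ℕ) with hL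
  have hLp : ∀ x y, (L x y).Prime := fun x y => (em (Nat.pair x y)).2.1
  have hL4 : ∀ x y, L x y % 4 = 1 := fun x y => (em (Nat.pair x y)).2.2.1
  have hLB : ∀ x y, B + M + 2 < L x y := fun x y => (em (Nat.pair x y)).2.2.2
  have hLinj : ∀ x y u v, L x y = L u v → x = u ∧ y = v := by
    intro x y u v h
    have h1 : Nat.pair x y = Nat.pair u v := em.injective (Subtype.ext h)
    exact Nat.pair_eq_pair.1 h1
  set I : Finset (ℕ × ℕ) := (range M ×ˢ range M).filter (fun x => x.1 < x.2) with hI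
  have hLI : Set.Pairwise (I : Set (ℕ × ℕ)) (Function.onFun Nat.Coprime (fun x => L x.1 x.2 ^ 2)) := by
    intro x _ y _ hxy
    refine Nat.Coprime.pow _ _ ?_
    rw [Nat.coprime_primes (hLp _ _) (hLp _ _)]
    intro h
    obtain ⟨h1, h2⟩ := hLinj _ _ _ _ h
    exact hxy (Prod.ext h1 h2)
  -- the residues
  set ρ : ℕ → ℕ × ℕ → ℕ := fun z x => if z = x.1 then 0 else if z = x.2 then L x.1 x.2 else z + 1
    with hρ
  have hcrt : ∀ z, ∃ k : ℕ, ∀ x ∈ I, k ≡ ρ z x [MOD L x.1 x.2 ^ 2] := fun z =>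
    ⟨_, (Nat.chineseRemainderOfFinset (ρ z) (fun x => L x.1 x.2 ^ 2) I
      (fun x _ => pow_ne_zero 2 (hLp _ _).pos.ne') hLI).2⟩
  choose kk hkk using hcrt
  set P : ℕ := ∏ x ∈ I, L x.1 x.2 ^ 2 with hP
  have hP0 : 0 < P := prod_pos fun x _ => pow_pos (hLp _ _).pos 2
  set g : ℕ → ℕ := fun z => kk z % P + P * z with hg
  have hmono : StrictMono g := by
    refine strictMono_nat_of_lt_succ fun z => ?_
    simp only [hg]
    have h1 := Nat.mod_lt (kk z) hP0
    have h2 : P * (z + 1) = P * z + P := by ring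
    omega
  have hgmod : ∀ z, ∀ x ∈ I, g z ≡ ρ z x [MOD L x.1 x.2 ^ 2] := by
    intro z x hx
    have h1 : L x.1 x.2 ^ 2 ∣ P := dvd_prod_of_mem (fun x : ℕ × ℕ => L x.1 x.2 ^ 2) hx
    have h2 : kk z % P ≡ kk z [MOD L x.1 x.2 ^ 2] := (Nat.mod_modEq _ _).of_dvd h1
    have h3 : P * z ≡ 0 [MOD L x.1 x.2 ^ 2] := (Nat.modEq_zero_iff_dvd).2 (h1.mul_right _)
    have h4 := (h2.trans (hkk z x hx)).add h3
    simpa using h4
  refine ⟨g, L, hmono, fun x y => ⟨hLp x y, hL4 x y, by have := hLB x y; omega⟩, ?_, ?_⟩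
  · intro x y hxy hyM
    have hxI : (x, y) ∈ I := by
      rw [hI, mem_filter, mem_product, mem_range, mem_range]
      exact ⟨⟨by simp only; omega, hyM⟩, hxy⟩
    have hx0 := hgmod x (x, y) hxI
    have hy0 := hgmod y (x, y) hxI
    have e1 : ρ x (x, y) = 0 := by simp [hρ]
    have e2 : ρ y (x, y) = L x y := by
      simp only [hρ]
      rw [if_neg (by omega)]
      simp
    rw [e1] at hx0
    rw [e2] at hy0
    simp only at hx0 hy0
    have hx1 : L x y ^ 2 ∣ g x := (Nat.modEq_zero_iff_dvd).1 hx0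
    have hle : g x ≤ g y := (hmono hxy).le
    constructor
    · have h1 : L x y ∣ g x := (dvd_pow_self _ (by norm_num)).trans hx1
      have h2 : L x y ∣ g y := by
        have h3 : g y ≡ L x y [MOD L x y] := hy0.of_dvd (dvd_pow_self _ (by norm_num))
        exact (Nat.modEq_zero_iff_dvd).1 (h3.trans ((Nat.modEq_zero_iff_dvd).2 dvd_rfl))
      exact Nat.dvd_sub h2 h1
    · intro hd
      have h1 : L x y ^ 2 ∣ g y := by
        have := dvd_add hd hx1
        rwa [Nat.sub_add_cancel hle] at this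
      have h2 : L x y ^ 2 ∣ L x y := (Nat.modEq_zero_iff_dvd).1 (hy0.symm.trans
        ((Nat.modEq_zero_iff_dvd).2 h1))
      have h3 := Nat.le_of_dvd (hLp x y).pos h2
      have h4 := (hLp x y).two_le
      nlinarith
  · intro x y u v hxy hyM huv hvM hd
    have hxI : (x, y) ∈ I := by
      rw [hI, mem_filter, mem_product, mem_range, mem_range]
      exact ⟨⟨by simp only; omega, hyM⟩, hxy⟩
    have hu0 := (hgmod u (x, y) hxI).of_dvd (dvd_pow_self (L x y) (n := 2) (by norm_num))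
    have hv0 := (hgmod v (x, y) hxI).of_dvd (dvd_pow_self (L x y) (n := 2) (by norm_num))
    have hle : g u ≤ g v := (hmono huv).le
    have huv' : g u ≡ g v [MOD L x y] := (Nat.modEq_iff_dvd' hle).2 hd
    have hρuv : ρ u (x, y) ≡ ρ v (x, y) [MOD L x y] := (hu0.symm.trans huv').trans hv0
    have hb := hLB x y
    simp only [hρ] at hρuv
    -- the values modulo the prime
    have key : ∀ z, z < M → ∃ w, w < L x y ∧ (if z = x then 0 else if z = y then L x y else z + 1) ≡ w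
        [MOD L x y] ∧ (w = 0 → z = x ∨ z = y) ∧ (¬ w = 0 → w = z + 1 ∧ z ≠ x ∧ z ≠ y) := by
      intro z hz
      by_cases h1 : z = x
      · refine ⟨0, by omega, ?_, fun _ => Or.inl h1, fun h => absurd rfl h⟩
        rw [if_pos h1]
      · by_cases h2 : z = y
        · refine ⟨0, by omega, ?_, fun _ => Or.inr h2, fun h => absurd rfl h⟩
          rw [if_neg h1, if_pos h2]
          exact (Nat.modEq_zero_iff_dvd).2 dvd_rfl
        · refine ⟨z + 1, by omega, ?_, fun h => absurd h (by omega), fun _ => ⟨rfl, h1, h2⟩⟩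
          rw [if_neg h1, if_neg h2]
    obtain ⟨w, hw, hw1, hw2, hw3⟩ := key u (by omega)
    obtain ⟨w', hw', hw1', hw2', hw3'⟩ := key v hvM
    have hww : w = w' := by
      have h1 : w ≡ w' [MOD L x y] := (hw1.symm.trans hρuv).trans hw1'
      exact Nat.ModEq.eq_of_lt_of_lt h1 hw hw'
    subst hww
    by_cases hw0 : w = 0
    · rcases hw2 hw0 with h1 | h1 <;> rcases hw2' hw0 with h2 | h2
      · omega
      · exact ⟨h1.symm, h2.symm⟩
      · omega
      · omega
    · have h1 := (hw3 hw0).1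
      have h2 := (hw3' hw0).1
      omega

/-- a residue class with prescribed symbols -/
theorem choose_a (M m r : ℕ) (hm : 0 < m) (h4 : 4 ∣ m) (hr : r.Coprime m)
    (g : ℕ → ℕ) (L : ℕ → ℕ → ℕ) (F : ℕ) (hF0 : 0 < F) (hg : StrictMono g)
    (hL : ∀ x y, (L x y).Prime ∧ L x y % 4 = 1 ∧ m < L x y)
    (hLF : ∀ x y, (L x y).Coprime F)
    (hL1 : ∀ x y, x < y → y < M → L x y ∣ g y - g x ∧ ¬ L x y ^ 2 ∣ g y - g x)
    (hL2 : ∀ x y u v, x < y → y < M → u < v → v < M → L x y ∣ g v - g u → x = u ∧ y = v)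
    (c : ℕ → ℕ → ℤ) (hc : ∀ x y, c x y = 1 ∨ c x y = -1) :
    ∃ a : ℕ, a ≡ r [MOD m] ∧ ∀ x y, x < y → y < M →
      a.Coprime (F * (g y - g x)) ∧ J(((F * (g y - g x) : ℕ) : ℤ) | a) = c x y := by
  classical
  set I : Finset (ℕ × ℕ) := (range M ×ˢ range M).filter (fun x => x.1 < x.2) with hI
  have hmemI : ∀ x y, x < y → y < M → (x, y) ∈ I := by
    intro x y hxy hyM
    rw [hI, mem_filter, mem_product, mem_range, mem_range]
    exact ⟨⟨by simp only; omega, hyM⟩, hxy⟩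
  have hIlt : ∀ x ∈ I, x.1 < x.2 ∧ x.2 < M := by
    intro x hx
    rw [hI, mem_filter, mem_product, mem_range, mem_range] at hx
    exact ⟨hx.2, hx.1.2⟩
  set D : ℕ × ℕ → ℕ := fun x => F * (g x.2 - g x.1) with hD
  set E : ℕ × ℕ → ℕ := fun x => D x / L x.1 x.2 with hE
  have hDE : ∀ x ∈ I, D x = L x.1 x.2 * E x := by
    intro x hx
    have h1 := (hL1 x.1 x.2 (hIlt x hx).1 (hIlt x hx).2).1
    exact (Nat.mul_div_cancel' (h1.mul_left F)).symm
  have hD0 : ∀ x ∈ I, 0 < D x := by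
    intro x hx
    have h1 := hg (hIlt x hx).1
    exact Nat.mul_pos hF0 (Nat.sub_pos_of_lt h1)
  have hE0 : ∀ x ∈ I, 0 < E x := by
    intro x hx
    have h1 := hD0 x hx
    rw [hDE x hx] at h1
    exact Nat.pos_of_ne_zero (fun h => by rw [h, mul_zero] at h1; exact lt_irrefl _ h1)
  have hLE : ∀ x ∈ I, ∀ y ∈ I, ¬ L x.1 x.2 ∣ E y := by
    intro x hx y hy hd
    by_cases hxy : x = y
    · subst hxy
      have h1 : L x.1 x.2 ^ 2 ∣ D x := by
        rw [hDE x hx, sq]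
        exact Nat.mul_dvd_mul_left _ hd
      have h2 : L x.1 x.2 ^ 2 ∣ g x.2 - g x.1 :=
        (Nat.Coprime.pow_left 2 (hLF x.1 x.2)).dvd_of_dvd_mul_left h1
      exact (hL1 x.1 x.2 (hIlt x hx).1 (hIlt x hx).2).2 h2
    · have h1 : L x.1 x.2 ∣ D y := by
        rw [hDE y hy]
        exact hd.mul_left _
      have h2 : L x.1 x.2 ∣ g y.2 - g y.1 := (hLF x.1 x.2).dvd_of_dvd_mul_left h1
      obtain ⟨h3, h4⟩ := hL2 x.1 x.2 y.1 y.2 (hIlt x hx).1 (hIlt x hx).2 (hIlt y hy).1 (hIlt y hy).2 h2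
      exact hxy (Prod.ext h3 h4)
  -- the auxiliary prime
  set Q : ℕ := m * ∏ x ∈ I, (4 * E x) with hQ
  have hQ0 : 0 < Q := Nat.mul_pos hm (prod_pos fun x hx => Nat.mul_pos (by norm_num) (hE0 x hx))
  obtain ⟨a₀, ha₀Q, ha₀p, ha₀r⟩ := Nat.forall_exists_prime_gt_and_modEq Q hm.ne' hr
  have h4Q : 4 ∣ Q := h4.mul_right _
  have h4le : 4 ≤ Q := Nat.le_of_dvd hQ0 h4Q
  have ha₀odd : Odd a₀ := ha₀p.odd_of_ne_two (by omega)
  have ha₀E : ∀ x ∈ I, (E x).Coprime a₀ := by
    intro x hx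
    rw [Nat.coprime_comm, ha₀p.coprime_iff_not_dvd]
    intro hd
    have h1 : E x ∣ Q :=
      ((Nat.dvd_mul_left (E x) 4).trans (dvd_prod_of_mem (fun z => 4 * E z) hx)).mul_left m
    have h2 := Nat.le_of_dvd hQ0 (hd.trans h1)
    omega
  -- the targets
  have htar : ∀ x : ℕ × ℕ, ∃ t : ℕ, J((t : ℤ) | L x.1 x.2) = c x.1 x.2 * J((E x : ℤ) | a₀) ∨ x ∉ I := by
    intro x
    by_cases hx : x ∈ I
    · have hcop : Int.gcd (E x : ℤ) a₀ = 1 := by
        rw [Int.gcd_natCast_natCast]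
        exact ha₀E x hx
      have hval : c x.1 x.2 * J((E x : ℤ) | a₀) = 1 ∨ c x.1 x.2 * J((E x : ℤ) | a₀) = -1 := by
        rcases hc x.1 x.2 with h1 | h1 <;> rcases jacobiSym.eq_one_or_neg_one hcop with h2 | h2 <;>
          rw [h1, h2] <;> norm_num
      rcases hval with h | h
      · exact ⟨1, Or.inl (by rw [h]; simp [jacobiSym.one_left])⟩
      · haveI : Fact (L x.1 x.2).Prime := ⟨(hL x.1 x.2).1⟩
        have hne2 : ringChar (ZMod (L x.1 x.2)) ≠ 2 := by
          rw [ZMod.ringChar_zmod_n]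
          intro h2
          have := (hL x.1 x.2).2.1
          rw [h2] at this
          norm_num at this
        obtain ⟨t, ht⟩ := FiniteField.exists_nonsquare hne2
        refine ⟨t.val, Or.inl ?_⟩
        rw [h, ← jacobiSym.legendreSym.to_jacobiSym, legendreSym.eq_neg_one_iff]
        simpa using ht
    · exact ⟨0, Or.inr hx⟩
  choose t ht using htar
  -- the Chinese remainder theorem
  have hLI : Set.Pairwise (I : Set (ℕ × ℕ)) (Function.onFun Nat.Coprime (fun x => L x.1 x.2)) := by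
    intro x hx y hy hxy
    refine (Nat.coprime_primes (hL _ _).1 (hL _ _).1).2 ?_
    intro h
    have h1 : L x.1 x.2 ∣ g y.2 - g y.1 := by
      rw [h]
      exact (hL1 y.1 y.2 (hIlt y hy).1 (hIlt y hy).2).1
    obtain ⟨h3, h4⟩ := hL2 x.1 x.2 y.1 y.2 (hIlt x hx).1 (hIlt x hx).2 (hIlt y hy).1 (hIlt y hy).2 h1
    exact hxy (Prod.ext h3 h4)
  obtain ⟨k, hk⟩ : ∃ k : ℕ, ∀ x ∈ I, k ≡ t x [MOD L x.1 x.2] :=
    ⟨_, (Nat.chineseRemainderOfFinset t (fun x => L x.1 x.2) I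
      (fun x _ => (hL _ _).1.pos.ne') hLI).2⟩
  have hcopQ : Nat.Coprime Q (∏ x ∈ I, L x.1 x.2) := by
    refine Nat.Coprime.prod_right fun x hx => ?_
    rw [Nat.coprime_comm, (hL x.1 x.2).1.coprime_iff_not_dvd]
    intro hd
    rw [hQ, (hL x.1 x.2).1.dvd_mul] at hd
    rcases hd with hd | hd
    · have h1 := Nat.le_of_dvd hm hd
      have h2 := (hL x.1 x.2).2.2
      omega
    · obtain ⟨y, hy, hd⟩ := (Prime.dvd_finsetProd_iff (hL x.1 x.2).1.prime _).1 hd
      rw [(hL x.1 x.2).1.dvd_mul] at hd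
      rcases hd with hd | hd
      · have h1 := Nat.le_of_dvd (by norm_num) hd
        have h2 := (hL x.1 x.2).2.2
        have h3 := Nat.le_of_dvd hm h4
        omega
      · exact hLE x hx y hy hd
  obtain ⟨a, ha1, ha2⟩ := Nat.chineseRemainder hcopQ a₀ k
  have haodd : Odd a := by
    have h1 : a ≡ a₀ [MOD 2] := (ha1.of_dvd ((by norm_num : (2 : ℕ) ∣ 4).trans h4Q))
    rw [Nat.odd_iff] at ha₀odd ⊢
    rw [← ha₀odd]
    exact h1
  refine ⟨a, (ha1.of_dvd (Nat.dvd_mul_right _ _)).trans ha₀r, ?_⟩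
  intro x y hxy hyM
  have hxI := hmemI x y hxy hyM
  have hval : J(((F * (g y - g x) : ℕ) : ℤ) | a) = c x y := by
    have h1 : F * (g y - g x) = L x y * E (x, y) := hDE (x, y) hxI
    rw [h1, Nat.cast_mul, jacobiSym.mul_left]
    have h2 : J((L x y : ℤ) | a) = J((t (x, y) : ℤ) | L x y) := by
      rw [jacobiSym.quadratic_reciprocity_one_mod_four (hL x y).2.1 haodd]
      apply jacobiSym.mod_left'
      have h3 : a ≡ t (x, y) [MOD L x y] :=
        (ha2.of_dvd (dvd_prod_of_mem (fun z : ℕ × ℕ => L z.1 z.2) hxI)).trans (hk (x, y) hxI)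
      exact_mod_cast h3
    have h3 : J((E (x, y) : ℤ) | a) = J((E (x, y) : ℤ) | a₀) := by
      rw [jacobiSym.mod_right' _ haodd, jacobiSym.mod_right' _ ha₀odd]
      have h4 : a ≡ a₀ [MOD 4 * E (x, y)] :=
        ha1.of_dvd ((dvd_prod_of_mem (fun z => 4 * E z) hxI).mul_left m)
      rw [show a % (4 * E (x, y)) = a₀ % (4 * E (x, y)) from h4]
    have hcop : Int.gcd (E (x, y) : ℤ) a₀ = 1 := by
      rw [Int.gcd_natCast_natCast]
      exact ha₀E (x, y) hxI
    have h4 := jacobiSym.sq_one hcop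
    rcases ht (x, y) with h5 | h5
    · rw [h2, h3, h5]
      simp only
      rw [mul_assoc, ← sq, h4, mul_one]
    · exact absurd hxI h5
  refine ⟨?_, hval⟩
  haveI : NeZero a := ⟨haodd.pos.ne'⟩
  have hne : J(((F * (g y - g x) : ℕ) : ℤ) | a) ≠ 0 := by
    rw [hval]
    rcases hc x y with h | h <;> rw [h] <;> norm_num
  have h1 : ((F * (g y - g x) : ℕ) : ℤ).gcd a = 1 := by
    by_contra h
    exact hne (jacobiSym.eq_zero_iff_not_coprime.2 h)
  rw [Int.gcd_natCast_natCast] at h1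
  rw [Nat.coprime_comm]
  exact h1

end Pool.Agent.R494.QR
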