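import Mathlib
import Pool.Agent.R494.QR1
import Pool.Agent.TH779.Ord.Main

set_option autoImplicit false

/-!
Quadratic residue patterns of consecutive primes: every large symmetric pattern contains one which occurs.
-/

namespace Pool.Agent.R494.QR

open Finset NumberTheorySymbols Pool.Agent.TH779.Ord

/-- the symbol of two primes of a class -/
theorem symbol {n q q0 a hi hj D : ℕ} (hq : q = q0 ^ 2) (ha : Odd a) (h4D : 4 * D ∣ q0)
    (hn : n ≡ a [MOD q]) (hij : hj = hi + D) (hp : (n + q * hi).Prime) (hbig : q0 < n) (hq0 : 0 < q0)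
    (h2 : 2 < n) : J(((n + q * hj : ℕ) : ℤ) | n + q * hi) = J((D : ℤ) | a) := by
  have hodd : Odd (n + q * hi) := hp.odd_of_ne_two (by omega)
  have h1 : J(((n + q * hj : ℕ) : ℤ) | n + q * hi) = J(((q0 : ℤ) ^ 2 * D) | n + q * hi) := by
    apply jacobiSym.mod_left'
    have : ((n + q * hj : ℕ) : ℤ) = (q0 : ℤ) ^ 2 * D + ((n + q * hi : ℕ) : ℤ) := by
      rw [hij, hq]; push_cast; ring
    rw [this, Int.add_emod_right]
  have hcop : Int.gcd (q0 : ℤ) ((n + q * hi : ℕ) : ℤ) = 1 := by
    rw [Int.gcd_natCast_natCast]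
    change Nat.Coprime q0 (n + q * hi)
    rw [Nat.coprime_comm, hp.coprime_iff_not_dvd]
    intro hd
    have := Nat.le_of_dvd hq0 hd
    omega
  rw [h1, jacobiSym.mul_left, jacobiSym.sq_one' hcop, one_mul, jacobiSym.mod_right' _ hodd,
    jacobiSym.mod_right' _ ha]
  have h3 : n + q * hi ≡ a [MOD 4 * D] := by
    have h5 : 4 * D ∣ q := h4D.trans (hq ▸ dvd_pow_self q0 (by norm_num))
    have h6 : q * hi ≡ 0 [MOD 4 * D] := (Nat.modEq_zero_iff_dvd).2 (h5.mul_right _)
    simpa using (hn.of_dvd h5).add h6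
  rw [show (n + q * hi) % (4 * D) = a % (4 * D) from h3]

theorem main_step (k m r : ℕ) (hk : 1 ≤ k) (hm : 0 < m) (h4 : 4 ∣ m) (hr : r.Coprime m)
    (c : ℕ → ℕ → ℤ) (hc : ∀ x y, c x y = 1 ∨ c x y = -1) :
    ∃ γ : ℕ → ℕ, (∀ i j, i < j → j ≤ k → γ i < γ j) ∧ (∀ i ≤ k, γ i < 40 * (2 * k + 1) * (k + 1)) ∧
      ∀ N0 : ℕ, ∃ s > N0, (∀ i ≤ k, Nat.nth Nat.Prime (s + i) ≡ r [MOD m]) ∧
        ∀ i j, i < j → j ≤ k →
          J((Nat.nth Nat.Prime (s + j) : ℤ) | Nat.nth Nat.Prime (s + i)) = c (γ i) (γ j) := by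
  classical
  set T : ℕ := 40 * (2 * k + 1) * (k + 1) with hT
  set lam : ℝ := 2 * k + 1 with hlam
  have hk0 : (0 : ℝ) ≤ k := Nat.cast_nonneg k
  have hlam1 : 1 ≤ lam := by rw [hlam]; linarith
  have hT1 : 1 ≤ T := by
    have : 0 < T := by rw [hT]; positivity
    omega
  obtain ⟨K, hK, hex⟩ := exact_few T lam hT1 hlam1
  set M := T * K with hM
  set F := (M + 1).factorial with hF
  have hF0 : 0 < F := Nat.factorial_pos _
  obtain ⟨g, L, hg, hL, hL1, hL2⟩ := positions M (M + 1 + m)
  have hLF : ∀ x y, (L x y).Coprime F := by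
    intro x y
    rw [(hL x y).1.coprime_iff_not_dvd, hF, (hL x y).1.dvd_factorial]
    have := (hL x y).2.2
    omega
  obtain ⟨a, har, haD⟩ := choose_a M m r hm h4 hr g L F hF0 hg
    (fun x y => ⟨(hL x y).1, (hL x y).2.1, by have := (hL x y).2.2; omega⟩) hLF hL1 hL2
    (fun x y => c (x / K) (y / K)) (fun x y => hc _ _)
  set I : Finset (ℕ × ℕ) := (range M ×ˢ range M).filter (fun x => x.1 < x.2) with hI
  have hmemI : ∀ x y, x < y → y < M → (x, y) ∈ I := by
    intro x y hxy hyM
    rw [hI, mem_filter, mem_product, mem_range, mem_range]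
    exact ⟨⟨by simp only; omega, hyM⟩, hxy⟩
  have hIlt : ∀ x ∈ I, x.1 < x.2 ∧ x.2 < M := by
    intro x hx
    rw [hI, mem_filter, mem_product, mem_range, mem_range] at hx
    exact ⟨hx.2, hx.1.2⟩
  set q0 : ℕ := m * ∏ x ∈ I, (4 * (F * (g x.2 - g x.1))) with hq0
  have hq00 : 0 < q0 := by
    refine Nat.mul_pos hm (prod_pos fun x hx => ?_)
    have := hg (hIlt x hx).1
    exact Nat.mul_pos (by norm_num) (Nat.mul_pos hF0 (Nat.sub_pos_of_lt this))
  have ham : a.Coprime m := by
    have h1 := har.gcd_eq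
    rw [Nat.Coprime] at hr ⊢
    rw [h1, hr]
  have ha4 : a.Coprime 4 := Nat.Coprime.coprime_dvd_right h4 ham
  have haodd : Odd a := by
    have h1 : a.Coprime 2 := Nat.Coprime.coprime_dvd_right (by norm_num) ha4
    exact Nat.coprime_two_right.1 h1
  have haq0 : a.Coprime q0 := by
    refine Nat.Coprime.mul_right ham (Nat.Coprime.prod_right fun x hx => ?_)
    exact Nat.Coprime.mul_right ha4 (haD x.1 x.2 (hIlt x hx).1 (hIlt x hx).2).1
  set q : ℕ := q0 ^ 2 with hq
  have hq1 : 1 ≤ q := Nat.pow_pos hq00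
  have haq : a.Coprime q := Nat.Coprime.pow_right 2 haq0
  obtain ⟨J, hJ1, hJ2, hJ3⟩ := hex q a hq1 haq (fun x => F * g x)
    (by
      intro x _ y _ h
      exact hg.injective (Nat.eq_of_mul_eq_mul_left hF0 h))
    (fun p hp => adm_fact M g p hp)
  have hTk : (k : ℝ) + 1 ≤ (T : ℝ) / (40 * lam) := by
    rw [le_div_iff₀ (by positivity), hT, hlam]
    push_cast
    nlinarith
  obtain ⟨hJc, hinner⟩ := count_inner (k := k) (by omega : 1 ≤ K) hlam1 J hJ1 (hTk.trans hJ2)
  obtain ⟨e₀, he₀, hblock⟩ := good_block hlam1 hk hJc _ hinner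
  have hempty : (Ico e₀ (e₀ + k)) ∩ ((range (J.card - 1)).filter
      (fun e => el J e / K = el J (e + 1) / K)) = ∅ := by
    rw [← card_eq_zero]
    have h1 : (2 * (k : ℝ)) / lam < 1 := by
      rw [div_lt_one (by positivity), hlam]
      linarith
    have h2 := hblock.trans_lt h1
    have h3 : ((Ico e₀ (e₀ + k)) ∩ ((range (J.card - 1)).filter
      (fun e => el J e / K = el J (e + 1) / K))).card < 1 := by exact_mod_cast h2
    omega
  have hstep : ∀ i, i < k → el J (e₀ + i) / K < el J (e₀ + i + 1) / K := by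
    intro i hi
    have h1 : el J (e₀ + i) < el J (e₀ + i + 1) := el_lt J (by omega) (by omega)
    have h2 : el J (e₀ + i) / K ≤ el J (e₀ + i + 1) / K := Nat.div_le_div_right h1.le
    refine lt_of_le_of_ne h2 fun h3 => ?_
    have h4 : e₀ + i ∈ (Ico e₀ (e₀ + k)) ∩ ((range (J.card - 1)).filter
        (fun e => el J e / K = el J (e + 1) / K)) := by
      rw [mem_inter, mem_Ico, mem_filter, mem_range]
      exact ⟨⟨by omega, by omega⟩, by omega, h3⟩
    rw [hempty] at h4
    simp at h4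
  have hel : ∀ i j, i < j → j ≤ k → el J (e₀ + i) < el J (e₀ + j) := fun i j hij hj =>
    el_lt J (by omega) (by omega)
  have hγ : ∀ i j, i < j → j ≤ k → el J (e₀ + i) / K < el J (e₀ + j) / K := by
    intro i j hij
    induction j with
    | zero => omega
    | succ j ih =>
      intro hj
      rcases Nat.lt_or_eq_of_le (Nat.lt_succ_iff.1 hij) with h | h
      · exact (ih h (by omega)).trans (hstep j (by omega))
      · rw [h]; exact hstep j (by omega)
  have hmem : ∀ i ≤ k, el J (e₀ + i) ∈ J := fun i hi => el_mem J (by omega)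
  refine ⟨fun i => el J (e₀ + i) / K, hγ, fun i hi => ?_, fun N0 => ?_⟩
  · exact (Nat.div_lt_iff_lt_mul (by omega)).2 (hJ1 _ (hmem i hi))
  · obtain ⟨n, ⟨hn1, hn2, hn3⟩, hn4⟩ := hJ3.exists_gt (Nat.nth Nat.Prime N0 + q0 + 2)
    obtain ⟨s, hs⟩ := nth_block n k (fun i => q * (F * g (el J (e₀ + i))))
      (by
        intro i j hij hj
        have h1 := hg (hel i j hij hj)
        exact Nat.mul_lt_mul_of_pos_left (Nat.mul_lt_mul_of_pos_left h1 hF0) hq1)
      (fun i hi => hn2 _ (hmem i hi))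
      (by
        intro y hy0 hyk hyp
        obtain ⟨x, hxJ, hyx⟩ := hn3 y ⟨el J (e₀ + k), hJ1 _ (hmem k le_rfl), hyk⟩ hyp
        obtain ⟨e, he, hex⟩ := el_surj J hxJ
        have hmono : ∀ u v, q * (F * g u) ≤ q * (F * g v) → u ≤ v := by
          intro u v h
          have h1 := Nat.le_of_mul_le_mul_left h hq1
          have h2 := Nat.le_of_mul_le_mul_left h1 hF0
          exact hg.le_iff_le.1 h2
        rw [hyx] at hy0 hyk
        have h1 := hmono _ _ hy0
        have h2 := hmono _ _ hyk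
        rw [← hex] at h1 h2
        have h3 : e₀ + 0 ≤ e := by
          by_contra hcon
          have := el_lt J (show e < e₀ + 0 by omega) (by omega)
          omega
        have h4 : e ≤ e₀ + k := by
          by_contra hcon
          have := el_lt J (show e₀ + k < e by omega) he
          omega
        refine ⟨e - e₀, by omega, ?_⟩
        rw [hyx, ← hex, show e₀ + (e - e₀) = e by omega])
    have hNn : Nat.nth Nat.Prime N0 < Nat.nth Nat.Prime (s + 0) := by
      rw [hs 0 (Nat.zero_le _)]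
      omega
    have hsN : N0 < s := by
      have := (Nat.nth_strictMono Nat.infinite_setOfPred_prime).lt_iff_lt.1 hNn
      omega
    refine ⟨s, hsN, fun i hi => ?_, fun i j hij hj => ?_⟩
    · rw [hs i hi]
      have hmq : m ∣ q := (Dvd.intro _ rfl : m ∣ q0).trans (dvd_pow_self q0 (by norm_num))
      have h1 : q * (F * g (el J (e₀ + i))) ≡ 0 [MOD m] :=
        (Nat.modEq_zero_iff_dvd).2 (hmq.mul_right _)
      simpa using ((hn1.of_dvd hmq).trans har).add h1
    · rw [hs i (by omega), hs j hj]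
      have hxy := hel i j hij hj
      have hyM := hJ1 _ (hmem j hj)
      rw [symbol (q0 := q0) (D := F * (g (el J (e₀ + j)) - g (el J (e₀ + i)))) rfl haodd
        ((dvd_prod_of_mem (fun z : ℕ × ℕ => 4 * (F * (g z.2 - g z.1))) (hmemI _ _ hxy hyM)).mul_left m)
        hn1 (by
          rw [← Nat.mul_add]
          congr 1
          have := hg hxy
          omega) (hn2 _ (hmem i (by omega))) (by omega) hq00 (by omega)]
      exact (haD _ _ hxy hyM).2

end Pool.Agent.R494.QR
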