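import Mathlib

set_option autoImplicit false

/-!
Patterns of binary digits in dense sets: the graph on the natural numbers in which `a < b` are joined if the
digit of `b` with the number `a` is `1`.
-/

namespace Pool.Agent.R494.QR

open Finset

/-- numbers with prescribed digits -/
theorem cube_card (t : ℕ) (C : Finset ℕ) (hC : ∀ c ∈ C, c < t) (w : ℕ → Bool) (B : Finset ℕ)
    (hB : ∀ y ∈ B, y < 2 ^ t) (hw : ∀ y ∈ B, ∀ c ∈ C, Nat.testBit y c = w c) :
    B.card * 2 ^ C.card ≤ 2 ^ t := by
  classical
  -- `B × {subsets of C}` injects into the subsets of `range t`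
  have h1 : (range t).powerset.card = 2 ^ t := by rw [card_powerset, card_range]
  have h2 : C.powerset.card = 2 ^ C.card := card_powerset C
  rw [← h1, ← h2, ← card_product]
  apply card_le_card_of_injOn
    (fun x : ℕ × Finset ℕ => ((range t).filter (fun c => c ∉ C ∧ Nat.testBit x.1 c = true)) ∪ x.2)
  · rintro ⟨y, D⟩ hx
    rw [mem_coe, mem_product] at hx
    rw [mem_coe, mem_powerset]
    refine union_subset (filter_subset _ _) fun c hc => ?_
    exact mem_range.2 (hC c (mem_powerset.1 hx.2 hc))
  · rintro ⟨y, D⟩ hx ⟨y', D'⟩ hx' h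
    rw [mem_coe, mem_product] at hx hx'
    simp only at h hx hx'
    have hD := mem_powerset.1 hx.2
    have hD' := mem_powerset.1 hx'.2
    have h3 : D = D' := by
      ext c
      constructor
      · intro hc
        have h4 : c ∈ ((range t).filter (fun c => c ∉ C ∧ Nat.testBit y' c = true)) ∪ D' := by
          rw [← h]; exact mem_union_right _ hc
        rcases mem_union.1 h4 with h5 | h5
        · exact absurd (hD hc) (mem_filter.1 h5).2.1
        · exact h5
      · intro hc
        have h4 : c ∈ ((range t).filter (fun c => c ∉ C ∧ Nat.testBit y c = true)) ∪ D := by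
          rw [h]; exact mem_union_right _ hc
        rcases mem_union.1 h4 with h5 | h5
        · exact absurd (hD' hc) (mem_filter.1 h5).2.1
        · exact h5
    subst h3
    have h4 : y = y' := by
      apply Nat.eq_of_testBit_eq
      intro c
      by_cases hcC : c ∈ C
      · rw [hw y hx.1 c hcC, hw y' hx'.1 c hcC]
      · by_cases hct : c < t
        · have key : ∀ z z' : ℕ, ((range t).filter (fun c => c ∉ C ∧ Nat.testBit z c = true)) ∪ D =
              ((range t).filter (fun c => c ∉ C ∧ Nat.testBit z' c = true)) ∪ D →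
              Nat.testBit z c = true → Nat.testBit z' c = true := by
            intro z z' hzz hz
            have h5 : c ∈ ((range t).filter (fun c => c ∉ C ∧ Nat.testBit z' c = true)) ∪ D := by
              rw [← hzz]
              exact mem_union_left _ (mem_filter.2 ⟨mem_range.2 hct, hcC, hz⟩)
            rcases mem_union.1 h5 with h6 | h6
            · exact (mem_filter.1 h6).2.2
            · exact absurd (hD h6) hcC
          rcases hb : Nat.testBit y c with _ | _
          · rcases hb' : Nat.testBit y' c with _ | _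
            · rfl
            · have := key y' y h.symm hb'
              rw [hb] at this
              exact absurd this (by decide)
          · exact (key y y' h hb).symm
        · have e1 : Nat.testBit y c = false := Nat.testBit_lt_two_pow
            ((hB y hx.1).trans_le (Nat.pow_le_pow_right (by norm_num) (not_lt.1 hct)))
          have e2 : Nat.testBit y' c = false := Nat.testBit_lt_two_pow
            ((hB y' hx'.1).trans_le (Nat.pow_le_pow_right (by norm_num) (not_lt.1 hct)))
          rw [e1, e2]
    rw [h4]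

/-- the unbalanced digits of a dense set are few -/
theorem bad_few (t b : ℕ) (B : Finset ℕ) (hB : ∀ y ∈ B, y < 2 ^ t) (hden : 2 ^ t < B.card * 2 ^ b) :
    ((range t).filter (fun c => ∃ w : Bool,
      2 * (b + 1) * (B.filter (fun y => Nat.testBit y c = w)).card < B.card)).card ≤ b := by
  classical
  by_contra hcon
  push Not at hcon
  obtain ⟨C, hC, hCc⟩ := exists_subset_card_eq (Nat.succ_le_of_lt hcon)
  have hC' : ∀ c ∈ C, c < t ∧ ∃ w : Bool,
      2 * (b + 1) * (B.filter (fun y => Nat.testBit y c = w)).card < B.card := fun c hc => by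
    have := mem_filter.1 (hC hc)
    exact ⟨mem_range.1 this.1, this.2⟩
  have hw : ∀ c, ∃ w : Bool, c ∈ C →
      2 * (b + 1) * (B.filter (fun y => Nat.testBit y c = w)).card < B.card := by
    intro c
    by_cases hc : c ∈ C
    · obtain ⟨w, hw⟩ := (hC' c hc).2
      exact ⟨w, fun _ => hw⟩
    · exact ⟨true, fun h => absurd h hc⟩
  choose w hw using hw
  set B' := B.filter (fun y => ∀ c ∈ C, Nat.testBit y c = !w c) with hB'
  have h1 : B'.card * 2 ^ C.card ≤ 2 ^ t :=
    cube_card t C (fun c hc => (hC' c hc).1) (fun c => !w c) B'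
      (fun y hy => hB y (mem_filter.1 hy).1) (fun y hy c hc => (mem_filter.1 hy).2 c hc)
  -- `B'` contains at least half of `B`
  have h2 : B.card ≤ B'.card + ∑ c ∈ C, (B.filter (fun y => Nat.testBit y c = w c)).card := by
    refine le_trans (card_le_card (t := B' ∪ C.biUnion
      (fun c => B.filter (fun y => Nat.testBit y c = w c))) ?_) ((card_union_le _ _).trans
      (Nat.add_le_add_left card_biUnion_le _))
    intro y hy
    rw [mem_union, mem_biUnion]
    by_cases h : ∀ c ∈ C, Nat.testBit y c = !w c
    · exact Or.inl (mem_filter.2 ⟨hy, h⟩)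
    · push Not at h
      obtain ⟨c, hc, hne⟩ := h
      refine Or.inr ⟨c, hc, mem_filter.2 ⟨hy, ?_⟩⟩
      rcases h3 : Nat.testBit y c with _ | _ <;> rcases h4 : w c with _ | _ <;>
        simp_all
  have h3 : 2 * (b + 1) * ∑ c ∈ C, (B.filter (fun y => Nat.testBit y c = w c)).card ≤
      (b + 1) * B.card := by
    rw [mul_sum]
    calc ∑ c ∈ C, 2 * (b + 1) * (B.filter (fun y => Nat.testBit y c = w c)).card
        ≤ ∑ _c ∈ C, B.card := sum_le_sum fun c hc => (hw c hc).le
      _ = (b + 1) * B.card := by rw [sum_const, smul_eq_mul, hCc]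
  have h4 : 2 * ∑ c ∈ C, (B.filter (fun y => Nat.testBit y c = w c)).card ≤ B.card := by
    have h5 : (b + 1) * (2 * ∑ c ∈ C, (B.filter (fun y => Nat.testBit y c = w c)).card) ≤
        (b + 1) * B.card := by
      calc _ = 2 * (b + 1) * ∑ c ∈ C, (B.filter (fun y => Nat.testBit y c = w c)).card := by ring
        _ ≤ _ := h3
    exact Nat.le_of_mul_le_mul_left h5 (by omega)
  have h5 : B.card ≤ 2 * B'.card := by omega
  rw [hCc, pow_succ] at h1
  have h6 : B.card * 2 ^ b ≤ 2 ^ t := by
    calc B.card * 2 ^ b ≤ 2 * B'.card * 2 ^ b := Nat.mul_le_mul_right _ h5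
      _ = B'.card * (2 ^ b * 2) := by ring
      _ ≤ 2 ^ t := h1
  omega

/-- every pattern of digits occurs in dense subsets of distant levels -/
theorem pattern (n : ℕ) : ∀ d : ℕ, ∃ R : ℕ, ∀ t : ℕ → ℕ, (0 < n → R ≤ t 0) →
    (∀ i, i + 1 < n → 2 ^ t i ≤ t (i + 1)) → ∀ B : ℕ → Finset ℕ,
    (∀ i < n, (∀ y ∈ B i, t i ≤ y ∧ y < 2 ^ t i) ∧ 2 ^ t i ≤ (B i).card * 2 ^ d) →
    ∀ G : ℕ → ℕ → Bool, ∃ x : ℕ → ℕ, (∀ i < n, x i ∈ B i) ∧
      ∀ i j, i < j → j < n → Nat.testBit (x j) (x i) = G i j := by
  classical
  induction n with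
  | zero =>
    intro d
    exact ⟨0, fun t _ _ B _ G => ⟨fun _ => 0, fun i hi => absurd hi (Nat.not_lt_zero i),
      fun i j _ hj => absurd hj (Nat.not_lt_zero j)⟩⟩
  | succ n ih =>
    intro d
    -- `2 (d + 2) ≤ 2 ^ (d + 3)`
    obtain ⟨R, hR⟩ := ih (2 * d + 3)
    refine ⟨R + d + n * (d + 1) + 1, fun t ht0 ht B hB G => ?_⟩
    replace ht0 := ht0 (Nat.succ_pos n)
    set Bad : ℕ → Finset ℕ := fun j => (range (t j)).filter (fun c => ∃ w : Bool,
      2 * (d + 1 + 1) * ((B j).filter (fun y => Nat.testBit y c = w)).card < (B j).card) with hBad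
    have hBadc : ∀ j < n + 1, (Bad j).card ≤ d + 1 := by
      intro j hj
      refine bad_few (t j) (d + 1) (B j) (fun y hy => ((hB j hj).1 y hy).2) ?_
      have h1 := (hB j hj).2
      have h2 : 0 < 2 ^ t j := by positivity
      rw [pow_succ, ← mul_assoc]
      omega
    -- the sizes
    have htmono : ∀ i, i + 1 < n + 1 → t i < t (i + 1) := fun i hi =>
      lt_of_lt_of_le Nat.lt_two_pow_self (ht i hi)
    have ht0n : ∀ j, j < n + 1 → t 0 ≤ t j := by
      intro j
      induction j with
      | zero => intro _; exact le_rfl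
      | succ j ihj => intro hj; exact (ihj (by omega)).trans (htmono j hj).le
    have hpow0 : ∀ j, 0 < j → j < n + 1 → 2 ^ t 0 ≤ t j := by
      intro j hj hjn
      obtain ⟨j', rfl⟩ : ∃ j', j = j' + 1 := ⟨j - 1, by omega⟩
      exact (Nat.pow_le_pow_right (by norm_num) (ht0n j' (by omega))).trans (ht j' hjn)
    -- choice of `x 0`
    have hB0 : n * (d + 1) < (B 0).card := by
      have h1 := (hB 0 (by omega)).2
      have h2 : (2 : ℕ) ^ (d + (n * (d + 1) + 1)) ≤ 2 ^ t 0 :=
        Nat.pow_le_pow_right (by norm_num) (by omega)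
      rw [pow_add, mul_comm] at h2
      have h3 : 2 ^ (n * (d + 1) + 1) * 2 ^ d ≤ (B 0).card * 2 ^ d := h2.trans h1
      have h4 := Nat.le_of_mul_le_mul_right h3 (by positivity)
      have h5 : n * (d + 1) + 1 < 2 ^ (n * (d + 1) + 1) := Nat.lt_two_pow_self
      omega
    obtain ⟨x₀, hx₀, hx₀b⟩ : ∃ x₀ ∈ B 0, ∀ j, 0 < j → j < n + 1 → x₀ ∉ Bad j := by
      by_contra hcon
      push Not at hcon
      have h1 : B 0 ⊆ (Ico 1 (n + 1)).biUnion Bad := by
        intro x hx
        obtain ⟨j, hj0, hj, hxj⟩ := hcon x hx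
        exact mem_biUnion.2 ⟨j, mem_Ico.2 ⟨hj0, hj⟩, hxj⟩
      have h2 := (card_le_card h1).trans card_biUnion_le
      have h3 : ∑ j ∈ Ico 1 (n + 1), (Bad j).card ≤ ∑ _j ∈ Ico 1 (n + 1), (d + 1) :=
        sum_le_sum fun j hj => hBadc j (mem_Ico.1 hj).2
      rw [sum_const, Nat.card_Ico, smul_eq_mul] at h3
      have h4 : n + 1 - 1 = n := by omega
      rw [h4] at h3
      omega
    -- the restricted sets
    obtain ⟨x, hx1, hx2⟩ := hR (fun i => t (i + 1)) (fun hn => by
        have h1 := htmono 0 (by omega)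
        omega)
      (fun i hi => ht (i + 1) (by omega))
      (fun i => (B (i + 1)).filter (fun y => Nat.testBit y x₀ = G 0 (i + 1)))
      (by
        intro i hi
        refine ⟨fun y hy => (hB (i + 1) (by omega)).1 y (mem_filter.1 hy).1, ?_⟩
        have h1 := hx₀b (i + 1) (by omega) (by omega)
        have h2 : x₀ < t (i + 1) :=
          (((hB 0 (by omega)).1 x₀ hx₀).2).trans_le (hpow0 (i + 1) (by omega) (by omega))
        have h3 : (B (i + 1)).card ≤ 2 * (d + 1 + 1) *
            ((B (i + 1)).filter (fun y => Nat.testBit y x₀ = G 0 (i + 1))).card := by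
          by_contra hcon
          push Not at hcon
          exact h1 (mem_filter.2 ⟨mem_range.2 h2, G 0 (i + 1), hcon⟩)
        have h4 : 2 * (d + 1 + 1) ≤ 2 ^ (d + 3) := by
          have h5 : d + 1 + 1 < 2 ^ (d + 1 + 1) := Nat.lt_two_pow_self
          have h6 : 2 ^ (d + 3) = 2 * 2 ^ (d + 1 + 1) := by ring
          omega
        calc 2 ^ t (i + 1) ≤ (B (i + 1)).card * 2 ^ d := (hB (i + 1) (by omega)).2
          _ ≤ 2 * (d + 1 + 1) * ((B (i + 1)).filter
                (fun y => Nat.testBit y x₀ = G 0 (i + 1))).card * 2 ^ d :=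
              Nat.mul_le_mul_right _ h3
          _ ≤ 2 ^ (d + 3) * ((B (i + 1)).filter
                (fun y => Nat.testBit y x₀ = G 0 (i + 1))).card * 2 ^ d :=
              Nat.mul_le_mul_right _ (Nat.mul_le_mul_right _ h4)
          _ = _ := by ring)
      (fun i j => G (i + 1) (j + 1))
    refine ⟨fun i => if i = 0 then x₀ else x (i - 1), ?_, ?_⟩
    · intro i hi
      by_cases h0 : i = 0
      · subst h0
        simpa using hx₀
      · have h1 := (mem_filter.1 (hx1 (i - 1) (by omega))).1
        simp only [if_neg h0]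
        rwa [show i - 1 + 1 = i by omega] at h1
    · intro i j hij hj
      have hj0 : j ≠ 0 := by omega
      simp only [if_neg hj0]
      by_cases h0 : i = 0
      · subst h0
        simp only [if_true]
        have h1 := (mem_filter.1 (hx1 (j - 1) (by omega))).2
        rwa [show j - 1 + 1 = j by omega] at h1
      · simp only [if_neg h0]
        have h1 := hx2 (i - 1) (j - 1) (by omega) (by omega)
        rwa [show j - 1 + 1 = j by omega, show i - 1 + 1 = i by omega] at h1

end Pool.Agent.R494.QR
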