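import Mathlib
import Pool.Agent.R494.QR5

set_option autoImplicit false

/-!
A colouring of the pairs of a finite set all whose subsets of a given density contain every pattern.
-/

namespace Pool.Agent.R494.QR

open Finset

theorem universalC (k c : ℕ) (hc : 0 < c) : ∃ (T : ℕ) (e : ℕ → ℕ → Bool), 1 ≤ T ∧
    ∀ A : Finset ℕ, (∀ x ∈ A, x < T) → T ≤ 4 * c * A.card → ∀ G : ℕ → ℕ → Bool,
      ∃ y : ℕ → ℕ, (∀ i < k, y i ∈ A) ∧ (∀ i j, i < j → j < k → y i < y j) ∧
        ∀ i j, i < j → j < k → e (y i) (y j) = G i j := by
  classical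
  obtain ⟨R, hR⟩ := pattern k (4 + c)
  set N : ℕ := 8 * c * (k + 1) with hN
  have hN0 : 0 < N := by positivity
  set S : ℕ := ∏ j ∈ range N, sz R j with hS
  have hS0 : 0 < S := prod_pos fun j _ => sz_pos R j
  set typ : ℕ → ℕ := fun x => tow R (x / S) + (x % S) % sz R (x / S) with htyp
  refine ⟨N * S, fun x y => Nat.testBit (typ y) (typ x), Nat.mul_pos hN0 hS0, ?_⟩
  intro A hA hAc G
  -- the parts of `A`
  set Aj : ℕ → Finset ℕ := fun j => A.filter (fun x => x / S = j) with hAj
  have hAjc : ∀ j, (Aj j).card ≤ S := by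
    intro j
    have h1 : (range S).card = S := card_range S
    conv_rhs => rw [← h1]
    apply card_le_card_of_injOn (fun x => x % S)
    · intro x _
      exact mem_coe.2 (mem_range.2 (Nat.mod_lt _ hS0))
    · intro x hx y hy h
      rw [mem_coe, hAj, mem_filter] at hx hy
      simp only at h
      rw [← Nat.div_add_mod x S, ← Nat.div_add_mod y S, h, hx.2, hy.2]
  set J : Finset ℕ := (range N).filter (fun j => S ≤ 8 * c * (Aj j).card) with hJ
  have hJc : k ≤ J.card := by
    have h1 : A.card = ∑ j ∈ range N, (Aj j).card := by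
      rw [card_eq_sum_card_fiberwise (f := fun x => x / S) (t := range N)]
      intro x hx
      exact mem_coe.2 (mem_range.2 ((Nat.div_lt_iff_lt_mul hS0).2 (hA x hx)))
    have h2 : ∑ j ∈ range N, 8 * c * (Aj j).card ≤ ∑ j ∈ range N, (if j ∈ J then 8 * c * S else 0) +
        ∑ _j ∈ range N, S := by
      rw [← sum_add_distrib]
      refine sum_le_sum fun j hj => ?_
      split_ifs with h
      · exact (Nat.mul_le_mul_left _ (hAjc j)).trans (Nat.le_add_right _ _)
      · rw [hJ, mem_filter, not_and] at h
        have := h hj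
        omega
    have h3 : ∑ j ∈ range N, (if j ∈ J then 8 * c * S else 0) = J.card * (8 * c * S) := by
      rw [← sum_filter, sum_const, smul_eq_mul]
      congr 2
      ext j
      rw [mem_filter, hJ, mem_filter]
      constructor
      · exact fun h => h.2
      · exact fun h => ⟨h.1, h⟩
    rw [← mul_sum, ← h1, h3, sum_const, card_range, smul_eq_mul] at h2
    have h4 : 2 * (N * S) ≤ J.card * (8 * c * S) + N * S := by
      refine le_trans ?_ h2
      calc 2 * (N * S) ≤ 2 * (4 * c * A.card) := Nat.mul_le_mul_left _ hAc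
        _ = 8 * c * A.card := by ring
    have h5 : N * S ≤ (8 * c * J.card) * S := by
      have : J.card * (8 * c * S) = (8 * c * J.card) * S := by ring
      omega
    have h6 := Nat.le_of_mul_le_mul_right h5 hS0
    have h7 : k + 1 ≤ J.card := Nat.le_of_mul_le_mul_left h6 (by positivity)
    omega
  obtain ⟨J', hJ'J, hJ'c⟩ := exists_subset_card_eq hJc
  -- the levels
  set lv : ℕ → ℕ := fun i => if h : i < k then J'.orderEmbOfFin hJ'c ⟨i, h⟩ else 0 with hlv
  have hlvJ : ∀ i < k, lv i ∈ J := by
    intro i hi
    simp only [hlv, dif_pos hi]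
    exact hJ'J (orderEmbOfFin_mem _ _ _)
  have hlvlt : ∀ i j, i < j → j < k → lv i < lv j := by
    intro i j hij hj
    simp only [hlv, dif_pos hj, dif_pos (hij.trans hj)]
    exact (J'.orderEmbOfFin hJ'c).strictMono hij
  have hlvN : ∀ i < k, lv i < N := fun i hi => mem_range.1 (mem_filter.1 (hlvJ i hi)).1
  obtain ⟨x, hx1, hx2⟩ := hR (fun i => tow R (lv i))
    (fun _ => by
      have h1 : tow R 0 ≤ tow R (lv 0) := (tow_mono R).monotone (Nat.zero_le _)
      have h2 : tow R 0 = R + 1 := rfl
      omega)
    (fun i hi => by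
      have h1 : lv i + 1 ≤ lv (i + 1) := hlvlt i (i + 1) (Nat.lt_succ_self i) hi
      exact (tow_mono R).monotone h1)
    (fun i => (Aj (lv i)).image typ)
    (by
      intro i hi
      constructor
      · intro y hy
        obtain ⟨x, hx, rfl⟩ := mem_image.1 hy
        have h1 := (mem_filter.1 hx).2
        simp only [htyp]
        rw [h1]
        have h2 := Nat.mod_lt (x % S) (sz_pos R (lv i))
        have h3 : sz R (lv i) = 2 ^ tow R (lv i) - tow R (lv i) := rfl
        have h4 := two_mul_le_two_pow (tow R (lv i)) (tow_pos R _)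
        omega
      · have hdvd : sz R (lv i) ∣ S := dvd_prod_of_mem (fun j => sz R j) (mem_range.2 (hlvN i hi))
        have h1 : (Aj (lv i)).card ≤ ((Aj (lv i)).image typ).card * (S / sz R (lv i)) := by
          rw [mul_comm]
          apply card_le_mul_card_image
          intro b hb
          refine le_trans (card_le_card_of_injOn (t := (range S).filter
            (fun u => u % sz R (lv i) = b - tow R (lv i))) (fun x => x % S) ?_ ?_)
            (mod_fibre S _ _ (sz_pos R _) hdvd)
          · intro x hx
            rw [mem_coe, mem_filter] at hx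
            obtain ⟨hx1, hx2⟩ := hx
            have h5 := (mem_filter.1 hx1).2
            rw [mem_coe, mem_filter, mem_range]
            refine ⟨Nat.mod_lt _ hS0, ?_⟩
            rw [← hx2]
            simp only [htyp]
            rw [h5]
            omega
          · intro x hx y hy h
            rw [mem_coe, mem_filter] at hx hy
            have h5 := (mem_filter.1 hx.1).2
            have h6 := (mem_filter.1 hy.1).2
            simp only at h
            rw [← Nat.div_add_mod x S, ← Nat.div_add_mod y S, h, h5, h6]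
        have h2 : S ≤ 8 * c * (Aj (lv i)).card := (mem_filter.1 (hlvJ i hi)).2
        have h3 : S / sz R (lv i) * sz R (lv i) = S := Nat.div_mul_cancel hdvd
        have h4 : 0 < S / sz R (lv i) := Nat.div_pos (Nat.le_of_dvd hS0 hdvd) (sz_pos R _)
        have h5 : S / sz R (lv i) * sz R (lv i) ≤
            S / sz R (lv i) * (8 * c * ((Aj (lv i)).image typ).card) := by
          rw [h3]
          calc S ≤ 8 * c * (Aj (lv i)).card := h2
            _ ≤ 8 * c * (((Aj (lv i)).image typ).card * (S / sz R (lv i))) :=
                Nat.mul_le_mul_left _ h1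
            _ = _ := by ring
        have h6 := Nat.le_of_mul_le_mul_left h5 h4
        have h7 := sz_ge R (lv i)
        have h8 : c < 2 ^ c := Nat.lt_two_pow_self
        calc 2 ^ tow R (lv i) ≤ 2 * sz R (lv i) := h7
          _ ≤ 2 * (8 * c * ((Aj (lv i)).image typ).card) := Nat.mul_le_mul_left _ h6
          _ = (c * ((Aj (lv i)).image typ).card) * 2 ^ 4 := by ring
          _ ≤ (2 ^ c * ((Aj (lv i)).image typ).card) * 2 ^ 4 :=
              Nat.mul_le_mul_right _ (Nat.mul_le_mul_right _ h8.le)
          _ = _ := by ring)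
    G
  have hy : ∀ i, ∃ y, i < k → y ∈ Aj (lv i) ∧ typ y = x i := by
    intro i
    by_cases hi : i < k
    · obtain ⟨y, hy1, hy2⟩ := mem_image.1 (hx1 i hi)
      exact ⟨y, fun _ => ⟨hy1, hy2⟩⟩
    · exact ⟨0, fun h => absurd h hi⟩
  choose y hy using hy
  refine ⟨y, fun i hi => (mem_filter.1 (hy i hi).1).1, fun i j hij hj => ?_, fun i j hij hj => ?_⟩
  · have h1 := (mem_filter.1 (hy i (hij.trans hj)).1).2
    have h2 := (mem_filter.1 (hy j hj).1).2
    have h3 := hlvlt i j hij hj
    by_contra hcon
    push Not at hcon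
    have h4 : y j / S ≤ y i / S := Nat.div_le_div_right hcon
    omega
  · simp only
    rw [(hy i (hij.trans hj)).2, (hy j hj).2]
    exact hx2 i j hij hj

end Pool.Agent.R494.QR
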