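import Mathlib
import Pool.Agent.R494.QR2
import Pool.Agent.R494.QR7
import Pool.Agent.R494.CG7

set_option autoImplicit false

/-!
Every finite graph is the graph of quadratic residues of primes in a bounded interval, all of the same colour
in a given finite colouring of the primes.
-/

namespace Pool.Agent.R494.QR

open Finset NumberTheorySymbols Pool.Agent.TH779.Ord Pool.Agent.R494.CG

/-- the symbol of two primes -/
theorem sq_iff {pi pj : ℕ} (hpi : pi.Prime) (hpj : pj.Prime) (hlt : pi < pj) :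
    J((pj : ℤ) | pi) = 1 ↔ IsSquare ((pj : ℕ) : ZMod pi) := by
  have : Fact pi.Prime := ⟨hpi⟩
  have hne : ((pj : ℤ) : ZMod pi) ≠ 0 := by
    intro h
    have h2 : (pj : ZMod pi) = 0 := by exact_mod_cast h
    rw [ZMod.natCast_eq_zero_iff] at h2
    have h3 := (Nat.prime_dvd_prime_iff_eq hpi hpj).1 h2
    omega
  rw [← jacobiSym.legendreSym.to_jacobiSym, legendreSym.eq_one_iff _ hne]
  simp

/-- all graphs on `k` vertices are graphs of quadratic residues of primes of a class and of colour `s` in an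
interval of length `C`, infinitely often -/
def EC (k m r C : ℕ) {c : ℕ} (f : ℕ → Fin c) (s : Fin c) : Prop :=
  {n : ℕ | ∀ G : SimpleGraph (Fin k), ∃ p : Fin k → ℕ, StrictMono p ∧
    (∀ i, (p i).Prime ∧ p i ≡ r [MOD m] ∧ n ≤ p i ∧ p i ≤ n + C ∧ f (p i) = s) ∧
    ∀ i j, i < j → (G.Adj i j ↔ IsSquare ((p j : ℕ) : ZMod (p i)))}.Infinite

theorem everyC4 (k m c : ℕ) (hm : 0 < m) (h4 : 4 ∣ m) (hc0 : 0 < c) : ∃ C : ℕ, ∀ r : ℕ, r.Coprime m →
    ∀ f : ℕ → Fin c, ∃ s : Fin c, EC k m r C f s := by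
  classical
  obtain ⟨T, e, hT, huniv⟩ := universalC k c hc0
  obtain ⟨c₀, hc₀, hc₁, hqg⟩ := qg
  obtain ⟨K, hK, hex⟩ := hqg T ((T - 1) / 4) hT (by
    have h1 : 4 * ((T - 1) / 4) + 1 ≤ T := by omega
    have h2 : (4 : ℝ) * (((T - 1) / 4 : ℕ) : ℝ) + 1 ≤ (T : ℝ) := by exact_mod_cast h1
    have h3 : (0 : ℝ) ≤ (((T - 1) / 4 : ℕ) : ℝ) := Nat.cast_nonneg _
    nlinarith)
  set M := T * K with hM
  set F := (M + 1).factorial with hF
  have hF0 : 0 < F := Nat.factorial_pos _
  obtain ⟨g, L, hg, hL, hL1, hL2⟩ := positions M (M + 1 + m)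
  have hLF : ∀ x y, (L x y).Coprime F := by
    intro x y
    rw [(hL x y).1.coprime_iff_not_dvd, hF, (hL x y).1.dvd_factorial]
    have := (hL x y).2.2
    omega
  set I : Finset (ℕ × ℕ) := (range M ×ˢ range M).filter (fun x => x.1 < x.2) with hI
  have hmemI : ∀ x y, x < y → y < M → (x, y) ∈ I := by
    intro x y hxy hyM
    rw [hI, mem_filter, mem_product, mem_range, mem_range]
    exact ⟨⟨by simp only; omega, hyM⟩, hxy⟩
  have hIlt : ∀ x ∈ I, x.1 < x.2 ∧ x.2 < M := by
    intro x hx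
    rw [hI, mem_filter, mem_product, mem_range, mem_range] at hx
    exact ⟨hx.2, hx.1.2⟩
  set q0 : ℕ := m * ∏ x ∈ I, (4 * (F * (g x.2 - g x.1))) with hq0
  have hq00 : 0 < q0 := by
    refine Nat.mul_pos hm (prod_pos fun x hx => ?_)
    have := hg (hIlt x hx).1
    exact Nat.mul_pos (by norm_num) (Nat.mul_pos hF0 (Nat.sub_pos_of_lt this))
  set q : ℕ := q0 ^ 2 with hq
  have hq1 : 1 ≤ q := Nat.pow_pos hq00
  refine ⟨q * (F * g M), fun r hr f => ?_⟩
  set cc : ℕ → ℕ → ℤ := fun x y => if e x y = true then 1 else -1 with hcc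
  have hcc1 : ∀ x y, cc x y = 1 ∨ cc x y = -1 := by
    intro x y
    simp only [hcc]
    split_ifs <;> simp
  obtain ⟨a, har, haD⟩ := choose_a M m r hm h4 hr g L F hF0 hg
    (fun x y => ⟨(hL x y).1, (hL x y).2.1, by have := (hL x y).2.2; omega⟩) hLF hL1 hL2
    (fun x y => cc (x / K) (y / K)) (fun x y => hcc1 _ _)
  have ham : a.Coprime m := by
    have h1 := har.gcd_eq
    rw [Nat.Coprime] at hr ⊢
    rw [h1, hr]
  have ha4 : a.Coprime 4 := Nat.Coprime.coprime_dvd_right h4 ham
  have haodd : Odd a := by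
    have h1 : a.Coprime 2 := Nat.Coprime.coprime_dvd_right (by norm_num) ha4
    exact Nat.coprime_two_right.1 h1
  have haq0 : a.Coprime q0 := by
    refine Nat.Coprime.mul_right ham (Nat.Coprime.prod_right fun x hx => ?_)
    exact Nat.Coprime.mul_right ha4 (haD x.1 x.2 (hIlt x hx).1 (hIlt x hx).2).1
  have haq : a.Coprime q := Nat.Coprime.pow_right 2 haq0
  -- the positions
  set pos : Fin T → Fin K → ℕ := fun γ i => γ * K + i with hpos
  have hposM : ∀ γ i, pos γ i < M := by
    intro γ i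
    have h1 : (γ : ℕ) + 1 ≤ T := γ.2
    have h2 : ((γ : ℕ) + 1) * K ≤ T * K := Nat.mul_le_mul_right _ h1
    have h3 : ((γ : ℕ) + 1) * K = γ * K + K := by ring
    have h4 := i.2
    simp only [hpos]
    omega
  have hposdiv : ∀ γ i, pos γ i / K = γ := by
    intro γ i
    simp only [hpos]
    rw [Nat.add_comm, Nat.add_mul_div_right _ _ (by omega), Nat.div_eq_of_lt i.2, zero_add]
  have hposinj : ∀ γ i γ' i', pos γ i = pos γ' i' → γ = γ' ∧ i = i' := by
    intro γ i γ' i' h
    have h1 := hposdiv γ i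
    rw [h, hposdiv] at h1
    have h2 : γ = γ' := Fin.ext h1.symm
    subst h2
    refine ⟨rfl, Fin.ext ?_⟩
    simp only [hpos] at h
    omega
  obtain ⟨S, d, hS, hinf⟩ := hex (fun _ _ => (q : ℤ)) (fun γ i => ((a + q * (F * g (pos γ i)) : ℕ) : ℤ))
    (fun _ _ => by exact_mod_cast hq1)
    (by
      intro y y' hyy
      simp only [Prod.mk.injEq, true_and, Nat.cast_inj] at hyy
      have h1 := Nat.add_left_cancel hyy
      have h2 := Nat.eq_of_mul_eq_mul_left hq1 h1
      have h3 := hg.injective (Nat.eq_of_mul_eq_mul_left hF0 h2)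
      obtain ⟨h4, h5⟩ := hposinj _ _ _ _ h3
      exact Prod.ext h4 h5)
    (by
      intro p hp
      have hpp := Nat.prime_iff_prime_int.1 hp
      by_cases hpq : p ∣ q
      · refine ⟨0, fun γ i hd => ?_⟩
        rw [mul_zero, zero_add] at hd
        have h1 : p ∣ a + q * (F * g (pos γ i)) := by exact_mod_cast hd
        have h2 : p ∣ a := (Nat.dvd_add_left (hpq.mul_right _)).1 h1
        exact (Nat.Prime.not_coprime_iff_dvd).2 ⟨p, hp, h2, hpq⟩ haq
      · obtain ⟨n, hn⟩ := adm_fact M g p hp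
        have hcop : IsCoprime (q : ℤ) (p : ℤ) := by
          rw [Nat.isCoprime_iff_coprime, Nat.coprime_comm, hp.coprime_iff_not_dvd]
          exact hpq
        obtain ⟨u, w, huw⟩ := hcop
        refine ⟨n - u * a, fun γ i hd => hn (pos γ i) (hposM γ i) ?_⟩
        have h1 : (p : ℤ) ∣ (q : ℤ) * ((n : ℤ) + F * g (pos γ i)) := by
          have h2 : (q : ℤ) * ((n : ℤ) + F * g (pos γ i)) =
              (q : ℤ) * (n - u * a) + ((a + q * (F * g (pos γ i)) : ℕ) : ℤ) - (p : ℤ) * (w * a) := by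
            push_cast
            have h3 : (q : ℤ) * u = 1 - w * p := by linarith
            calc (q : ℤ) * ((n : ℤ) + F * g (pos γ i))
                = (q : ℤ) * n - (1 - w * p) * a + a - p * (w * a) + q * (F * g (pos γ i)) := by ring
              _ = (q : ℤ) * n - (q * u) * a + a - p * (w * a) + q * (F * g (pos γ i)) := by rw [h3]
              _ = _ := by ring
          rw [h2]
          exact dvd_sub hd (Dvd.intro _ rfl)
        rcases hpp.dvd_or_dvd h1 with h2 | h2
        · exact absurd (by exact_mod_cast h2) hpq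
        · exact_mod_cast h2)
  -- the most frequent colour
  set val : ℕ → Fin T → ℕ := fun n γ => a + q * n + q * (F * g (pos γ (d γ))) with hval
  set X : Set ℕ := {n : ℕ | ∀ γ ∈ S, 0 < (q : ℤ) * (n : ℤ) + ((a + q * (F * g (pos γ (d γ))) : ℕ) : ℤ) ∧
    Prime ((q : ℤ) * (n : ℤ) + ((a + q * (F * g (pos γ (d γ))) : ℕ) : ℤ))} with hX
  obtain ⟨s, hs⟩ : ∃ s : Fin c, (X ∩ {n | S.card ≤ c * (S.filter (fun γ => f (val n γ) = s)).card}).Infinite := by
    by_contra hcon
    push Not at hcon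
    refine hinf ((Set.finite_iUnion hcon).subset ?_)
    intro n hn
    rw [Set.mem_iUnion]
    by_contra hcon2
    push Not at hcon2
    have h1 : ∀ s : Fin c, c * (S.filter (fun γ => f (val n γ) = s)).card + 1 ≤ S.card := by
      intro s
      have := hcon2 s
      simp only [Set.mem_inter_iff, not_and, Set.mem_ofPred_eq, not_le] at this
      exact this hn
    have h2 : ∑ s : Fin c, (c * (S.filter (fun γ => f (val n γ) = s)).card + 1) ≤ ∑ _s : Fin c, S.card :=
      sum_le_sum fun s _ => h1 s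
    rw [sum_add_distrib, ← mul_sum, ← card_eq_sum_card_fiberwise
      (f := fun γ => f (val n γ)) (t := univ) (fun _ _ => mem_coe.2 (mem_univ _)), sum_const, sum_const,
      card_univ, Fintype.card_fin, smul_eq_mul, smul_eq_mul, mul_one] at h2
    omega
  refine ⟨s, ?_⟩
  -- the numbers `n`
  rw [EC, Set.infinite_iff_exists_gt]
  intro N0
  obtain ⟨n, ⟨hn, hns⟩, hnb⟩ := hs.exists_gt (N0 + q0 + 2)
  have hqn : n ≤ q * n := Nat.le_mul_of_pos_left n hq1
  refine ⟨a + q * n, fun G => ?_, by omega⟩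
  -- the set of groups
  set A : Finset ℕ := (S.filter (fun γ => f (val n γ) = s)).image (fun γ : Fin T => (γ : ℕ)) with hA
  have hAc : A.card = (S.filter (fun γ => f (val n γ) = s)).card :=
    card_image_of_injective _ Fin.val_injective
  have hns' : S.card ≤ c * (S.filter (fun γ => f (val n γ) = s)).card := hns
  obtain ⟨y, hyA, hylt, hyG⟩ := huniv A
    (by
      intro x hx
      obtain ⟨γ, _, rfl⟩ := mem_image.1 hx
      exact γ.2)
    (by
      rw [hAc]
      have h1 : T ≤ 4 * S.card := by omega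
      calc T ≤ 4 * S.card := h1
        _ ≤ 4 * (c * (S.filter (fun γ => f (val n γ) = s)).card) := Nat.mul_le_mul_left _ hns'
        _ = _ := by ring)
    (fun i j => if h : i < k ∧ j < k then decide (G.Adj ⟨i, h.1⟩ ⟨j, h.2⟩) else true)
  have hyS : ∀ i : Fin k, ∃ γ ∈ S.filter (fun γ => f (val n γ) = s), (γ : ℕ) = y i :=
    fun i => mem_image.1 (hyA i i.2)
  choose γ hγS' hγy using hyS
  have hγS : ∀ i, γ i ∈ S := fun i => (mem_filter.1 (hγS' i)).1
  set z : Fin k → ℕ := fun i => pos (γ i) (d (γ i)) with hz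
  have hzM : ∀ i, z i < M := fun i => hposM _ _
  have hzdiv : ∀ i, z i / K = y i := fun i => by rw [hz]; simp only; rw [hposdiv, hγy]
  have hzlt : ∀ i j, i < j → z i < z j := by
    intro i j hij
    by_contra hcon
    push Not at hcon
    have h1 : z j / K ≤ z i / K := Nat.div_le_div_right hcon
    rw [hzdiv, hzdiv] at h1
    have := hylt i j hij j.2
    omega
  refine ⟨fun i => a + q * n + q * (F * g (z i)), ?_, ?_, ?_⟩
  · intro i j hij
    have h1 := hg (hzlt i j hij)
    exact Nat.add_lt_add_left (Nat.mul_lt_mul_of_pos_left (Nat.mul_lt_mul_of_pos_left h1 hF0) hq1) _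
  · intro i
    refine ⟨?_, ?_, Nat.le_add_right _ _, ?_, (mem_filter.1 (hγS' i)).2⟩
    · obtain ⟨h1, h2⟩ := hn (γ i) (hγS i)
      have h3 : ((a + q * n + q * (F * g (z i)) : ℕ) : ℤ) =
          (q : ℤ) * n + ((a + q * (F * g (pos (γ i) (d (γ i)))) : ℕ) : ℤ) := by
        simp only [hz]
        push_cast
        ring
      rw [Nat.prime_iff_prime_int, h3]
      exact h2
    · have hmq : m ∣ q := (Dvd.intro _ rfl : m ∣ q0).trans (dvd_pow_self q0 (by norm_num))
      have h1 : q * n + q * (F * g (z i)) ≡ 0 [MOD m] :=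
        (Nat.modEq_zero_iff_dvd).2 (dvd_add (hmq.mul_right _) (hmq.mul_right _))
      simpa [add_assoc] using har.add h1
    · have h1 : g (z i) ≤ g M := hg.monotone (hzM i).le
      have h2 : q * (F * g (z i)) ≤ q * (F * g M) :=
        Nat.mul_le_mul_left _ (Nat.mul_le_mul_left _ h1)
      simp only
      omega
  · intro i j hij
    have hprime : ∀ i, (a + q * n + q * (F * g (z i))).Prime := by
      intro i
      obtain ⟨h1, h2⟩ := hn (γ i) (hγS i)
      have h3 : ((a + q * n + q * (F * g (z i)) : ℕ) : ℤ) =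
          (q : ℤ) * n + ((a + q * (F * g (pos (γ i) (d (γ i)))) : ℕ) : ℤ) := by
        simp only [hz]
        push_cast
        ring
      rw [Nat.prime_iff_prime_int, h3]
      exact h2
    have hsym : J(((a + q * n + q * (F * g (z j)) : ℕ) : ℤ) | a + q * n + q * (F * g (z i))) =
        cc (y i) (y j) := by
      rw [symbol (q := q) (q0 := q0) (a := a) (D := F * (g (z j) - g (z i))) rfl haodd
        ((dvd_prod_of_mem (fun z : ℕ × ℕ => 4 * (F * (g z.2 - g z.1)))
          (hmemI _ _ (hzlt i j hij) (hzM j))).mul_left m)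
        (by
          have h1 : q * n ≡ 0 [MOD q] := (Nat.modEq_zero_iff_dvd).2 (Dvd.intro _ rfl)
          simpa only [add_zero] using (Nat.ModEq.refl a).add h1) (by
          rw [← Nat.mul_add]
          congr 1
          have := hg (hzlt i j hij)
          omega) (hprime i) (by omega) hq00 (by omega)]
      rw [← hzdiv i, ← hzdiv j]
      exact (haD _ _ (hzlt i j hij) (hzM j)).2
    have hpi := hprime i
    have hpj := hprime j
    have hlt : a + q * n + q * (F * g (z i)) < a + q * n + q * (F * g (z j)) := by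
      have h1 := hg (hzlt i j hij)
      exact Nat.add_lt_add_left (Nat.mul_lt_mul_of_pos_left (Nat.mul_lt_mul_of_pos_left h1 hF0) hq1) _
    have hG : e (y i) (y j) = decide (G.Adj i j) := by
      rw [hyG i j hij j.2, dif_pos ⟨i.2, j.2⟩]
    have h5 := sq_iff hpi hpj hlt
    rw [hsym] at h5
    refine Iff.trans ?_ h5
    simp only [hcc]
    rw [hG]
    by_cases hadj : G.Adj i j
    · simp [hadj]
    · simp [hadj]

/-- the general modulus -/
theorem everyC (k m c : ℕ) (hm : 0 < m) (hc : 0 < c) : ∃ C : ℕ, ∀ r : ℕ, r.Coprime m →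
    ∀ f : ℕ → Fin c, ∃ s : Fin c, EC k m r C f s := by
  obtain ⟨C, hC⟩ := everyC4 k (4 * m) c (by omega) (Dvd.intro _ rfl) hc
  refine ⟨C, fun r hr f => ?_⟩
  obtain ⟨p, hp, hpp, hpr⟩ := Nat.forall_exists_prime_gt_and_modEq (4 * m) hm.ne' hr
  have hcop : p.Coprime (4 * m) := by
    rw [hpp.coprime_iff_not_dvd]
    intro hd
    have := Nat.le_of_dvd (by omega) hd
    omega
  obtain ⟨s, hs⟩ := hC p hcop f
  refine ⟨s, hs.mono ?_⟩
  intro n hn G
  obtain ⟨x, hx, h1, h2⟩ := hn G
  exact ⟨x, hx, fun i => ⟨(h1 i).1, ((h1 i).2.1.of_dvd (Dvd.intro_left _ rfl)).trans hpr,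
    (h1 i).2.2⟩, h2⟩

end Pool.Agent.R494.QR
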