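import Mathlib
import Pool.Agent.R494.QR8

set_option autoImplicit false

/-!
Primes in bounded intervals, of one residue class and one colour, which are squares modulo each other,
and modulo which a given prime is not a square.
-/

namespace Pool.Agent.R494.BS

open Finset NumberTheorySymbols

/-- a natural number which is not a square modulo a given odd prime -/
theorem exists_nonsq {q : ℕ} (hq : q.Prime) (hq2 : q ≠ 2) :
    ∃ g : ℕ, g.Coprime q ∧ ¬ IsSquare ((g : ℕ) : ZMod q) := by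
  have : Fact q.Prime := ⟨hq⟩
  obtain ⟨a, ha⟩ := FiniteField.exists_nonsquare (F := ZMod q) (by rw [ZMod.ringChar_zmod_n]; exact hq2)
  refine ⟨a.val, ?_, ?_⟩
  · rw [Nat.coprime_comm, hq.coprime_iff_not_dvd]
    intro h
    rw [← ZMod.natCast_eq_zero_iff, ZMod.natCast_zmod_val] at h
    exact ha (h ▸ ⟨0, by ring⟩)
  · rw [ZMod.natCast_zmod_val]
    exact ha

/-- primes in bounded intervals, of one residue class and one colour, which are squares modulo each
other, and modulo which a given prime is not a square -/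
theorem primes1 (k m r q : ℕ) (hm : 0 < m) (hr : r.Coprime m) (h4 : 4 ∣ m) (hr4 : r % 4 = 1) (hq : q.Prime)
    (hq2 : q ≠ 2) (hqm : ¬ q ∣ m) : ∃ C : ℕ, ∀ f : ℕ → Fin 2, ∃ s : Fin 2,
    {n : ℕ | ∃ p : Fin k → ℕ, StrictMono p ∧
      (∀ i, (p i).Prime ∧ p i ≡ r [MOD m] ∧ n ≤ p i ∧ p i ≤ n + C ∧ f (p i) = s ∧
        ¬ IsSquare ((q : ℕ) : ZMod (p i))) ∧
      ∀ i j, i ≠ j → IsSquare ((p j : ℕ) : ZMod (p i))}.Infinite := by
  obtain ⟨g, hg, hgq⟩ := exists_nonsq hq hq2
  have hcop : m.Coprime q := by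
    rw [Nat.coprime_comm, hq.coprime_iff_not_dvd]
    exact hqm
  obtain ⟨r', h1, h2⟩ := Nat.chineseRemainder hcop r g
  have hr' : r'.Coprime (m * q) := by
    refine Nat.Coprime.mul_right ?_ ?_
    · have h3 := h1.gcd_eq
      rw [Nat.Coprime] at hr ⊢
      rw [h3, hr]
    · have h3 := h2.gcd_eq
      rw [Nat.Coprime] at hg ⊢
      rw [h3, hg]
  obtain ⟨C, hC⟩ := QR.everyC k (m * q) 2 (Nat.mul_pos hm hq.pos) (by norm_num)
  refine ⟨C, fun f => ?_⟩
  obtain ⟨s, hs⟩ := hC r' hr' f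
  refine ⟨s, hs.mono fun n hn => ?_⟩
  obtain ⟨p, hp, h3, h5⟩ := hn ⊤
  have hpm : ∀ i, p i ≡ r [MOD m] := fun i =>
    ((h3 i).2.1.of_dvd (Dvd.intro _ rfl)).trans h1
  have hp4 : ∀ i, p i % 4 = 1 := fun i => by
    have h6 : p i ≡ r [MOD 4] := (hpm i).of_dvd h4
    rw [h6, hr4]
  have hlt : ∀ i j, i < j → IsSquare ((p j : ℕ) : ZMod (p i)) := by
    intro i j hij
    exact (h5 i j hij).1 (by rw [SimpleGraph.top_adj]; exact hij.ne)
  refine ⟨p, hp, fun i => ⟨(h3 i).1, hpm i, (h3 i).2.2.1, (h3 i).2.2.2.1, (h3 i).2.2.2.2, ?_⟩, ?_⟩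
  · have : Fact (p i).Prime := ⟨(h3 i).1⟩
    have : Fact q.Prime := ⟨hq⟩
    rw [ZMod.exists_sq_eq_prime_iff_of_mod_four_eq_one (hp4 i) hq2]
    have h6 : p i ≡ g [MOD q] := ((h3 i).2.1.of_dvd (Dvd.intro_left _ rfl)).trans h2
    rw [(ZMod.natCast_eq_natCast_iff _ _ _).2 h6]
    exact hgq
  · intro i j hij
    rcases lt_or_gt_of_ne hij with h | h
    · exact hlt i j h
    · have : Fact (p i).Prime := ⟨(h3 i).1⟩
      have : Fact (p j).Prime := ⟨(h3 j).1⟩
      have h2i : p j ≠ 2 := by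
        intro h2
        have := hp4 j
        rw [h2] at this
        norm_num at this
      rw [ZMod.exists_sq_eq_prime_iff_of_mod_four_eq_one (hp4 i) h2i]
      exact hlt j i h

/-- products of distinct primes which are `1` modulo `4` and squares modulo `7` -/
theorem prod_mod4 {ι : Type*} (T : Finset ι) (p : ι → ℤ) (h : ∀ i ∈ T, p i % 4 = 1) :
    (∏ i ∈ T, p i) % 4 = 1 := by
  classical
  induction T using Finset.induction_on with
  | empty => simp
  | insert a T ha ih =>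
    rw [prod_insert ha, Int.mul_emod, h a (mem_insert_self a T), ih fun i hi => h i (mem_insert_of_mem hi)]
    norm_num

theorem prod_mod7 {ι : Type*} (T : Finset ι) (p : ι → ℤ)
    (h : ∀ i ∈ T, p i % 7 = 1 ∨ p i % 7 = 2 ∨ p i % 7 = 4) :
    (∏ i ∈ T, p i) % 7 = 1 ∨ (∏ i ∈ T, p i) % 7 = 2 ∨ (∏ i ∈ T, p i) % 7 = 4 := by
  classical
  induction T using Finset.induction_on with
  | empty => simp
  | insert a T ha ih =>
    have h1 := h a (mem_insert_self a T)
    have h2 := ih fun i hi => h i (mem_insert_of_mem hi)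
    rw [prod_insert ha, Int.mul_emod]
    rcases h1 with h1 | h1 | h1 <;> rcases h2 with h2 | h2 | h2 <;> rw [h1, h2] <;> norm_num

theorem mul_mod4 {a b : ℤ} (ha : a % 4 = 1) (hb : b % 4 = 1) : (a * b) % 4 = 1 := by
  rw [Int.mul_emod, ha, hb]
  norm_num

theorem mul_mod7 {a b : ℤ} (ha : a % 7 = 1 ∨ a % 7 = 2 ∨ a % 7 = 4)
    (hb : b % 7 = 1 ∨ b % 7 = 2 ∨ b % 7 = 4) :
    (a * b) % 7 = 1 ∨ (a * b) % 7 = 2 ∨ (a * b) % 7 = 4 := by
  rw [Int.mul_emod]
  rcases ha with h1 | h1 | h1 <;> rcases hb with h2 | h2 | h2 <;> rw [h1, h2] <;> norm_num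

/-- prime factors of `M ∏ p_i`, `|M|` squarefree and prime to the `p_i` -/
theorem pf_prod {k : ℕ} {M : ℤ} (hM : Squarefree M) {p : Fin k → ℕ} {e : Fin k → ℤ}
    (he : ∀ i, (e i).natAbs = p i) (hp : Function.Injective p) (hpp : ∀ i, (p i).Prime)
    (hMp : ∀ i, ¬ ((p i : ℕ) : ℤ) ∣ M) (T : Finset (Fin k)) :
    Squarefree (M * ∏ i ∈ T, e i) ∧
    (M * ∏ i ∈ T, e i).natAbs.primeFactors = M.natAbs.primeFactors ∪ T.image p := by
  classical
  have hprod : (∏ i ∈ T, e i).natAbs = ∏ i ∈ T.image p, i := by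
    rw [prod_image fun a _ b _ h => hp h]
    have : (∏ i ∈ T, e i).natAbs = ∏ i ∈ T, (e i).natAbs := map_prod Int.natAbsHom _ _
    rw [this]
    exact prod_congr rfl fun i _ => he i
  have hpr : ∀ x ∈ T.image p, x.Prime := by
    intro x hx
    obtain ⟨i, _, rfl⟩ := mem_image.1 hx
    exact hpp i
  have hsq : Squarefree (∏ i ∈ T.image p, i) := by
    refine Finset.squarefree_prod_of_pairwise_isCoprime ?_ ?_
    · intro a ha b hb hab
      rw [Function.onFun, ← Nat.coprime_iff_isRelPrime]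
      exact (Nat.coprime_primes (hpr a ha) (hpr b hb)).2 hab
    · intro x hx
      exact (hpr x hx).squarefree
  have hM0 : M.natAbs ≠ 0 := Int.natAbs_ne_zero.2 hM.ne_zero
  have hcop : M.natAbs.Coprime (∏ i ∈ T.image p, i) := by
    refine Nat.Coprime.prod_right fun x hx => ?_
    obtain ⟨i, _, rfl⟩ := mem_image.1 hx
    rw [Nat.coprime_comm, (hpp i).coprime_iff_not_dvd]
    intro h
    exact hMp i (Int.natCast_dvd.2 h)
  constructor
  · rw [← Int.squarefree_natAbs, Int.natAbs_mul, hprod, Nat.squarefree_mul_iff]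
    exact ⟨hcop, Int.squarefree_natAbs.2 hM, hsq⟩
  · rw [Int.natAbs_mul, hprod, Nat.primeFactors_mul hM0 hsq.ne_zero, Nat.primeFactors_prod hpr]

end Pool.Agent.R494.BS
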