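import Mathlib

set_option autoImplicit false

/-!
Squares in `ℚ_p` and the local classes of the points of `y² = x³ - n² x`.
-/

namespace Pool.Agent.R494.CN

section

variable {p : ℕ} [hp : Fact p.Prime]

theorem norm_two (hp2 : p ≠ 2) : ‖(2 : ℚ_[p])‖ = 1 := by
  have h := (Padic.norm_natCast_eq_one_iff (p := p) (n := 2)).2
    ((Nat.coprime_primes hp.out Nat.prime_two).2 hp2)
  exact_mod_cast h

/-- Hensel's lemma for squares -/
theorem sq_near (hp2 : p ≠ 2) {w : ℚ_[p]} (hw : ‖w‖ < 1) : IsSquare (1 + w) := by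
  set a : ℤ_[p] := ⟨w, hw.le⟩ with ha
  have ha1 : ‖a‖ < 1 := hw
  have h2 : ‖(2 : ℤ_[p])‖ = 1 := by
    have := norm_two (p := p) hp2
    rw [PadicInt.norm_def]
    exact_mod_cast this
  obtain ⟨z, hz, -⟩ := hensels_lemma (p := p) (R := ℤ_[p])
    (F := Polynomial.X ^ 2 - Polynomial.C (1 + a)) (a := 1) (by
      have e1 : (Polynomial.aeval (1 : ℤ_[p])) (Polynomial.X ^ 2 - Polynomial.C (1 + a)) = -a := by
        simp
      have e2 : (Polynomial.aeval (1 : ℤ_[p]))
          (Polynomial.derivative (Polynomial.X ^ 2 - Polynomial.C (1 + a))) = 2 := by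
        simp
        norm_num
      rw [e1, e2, h2, norm_neg]
      simpa using ha1)
  have h3 : z ^ 2 = 1 + a := by
    have : (Polynomial.aeval z) (Polynomial.X ^ 2 - Polynomial.C (1 + a)) = z ^ 2 - (1 + a) := by simp
    rw [this] at hz
    linear_combination hz
  refine ⟨(z : ℚ_[p]), ?_⟩
  have h4 := congrArg (fun t : ℤ_[p] => (t : ℚ_[p])) h3
  simp only [PadicInt.coe_pow, PadicInt.coe_add, PadicInt.coe_one] at h4
  rw [← sq, h4]

theorem near (hp2 : p ≠ 2) {u x : ℚ_[p]} (h : ‖x‖ < ‖u‖) :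
    ‖u + x‖ = ‖u‖ ∧ IsSquare (u * (u + x)) := by
  have hu : u ≠ 0 := by
    rintro rfl
    rw [norm_zero] at h
    exact absurd h (not_lt.2 (norm_nonneg _))
  have hu' : ‖u‖ ≠ 0 := norm_ne_zero_iff.2 hu
  constructor
  · rw [Padic.add_eq_max_of_ne h.ne']
    exact max_eq_left h.le
  · have h1 : ‖x / u‖ < 1 := by
      rw [norm_div, div_lt_one (lt_of_le_of_ne (norm_nonneg _) hu'.symm)]
      exact h
    obtain ⟨s, hs⟩ := sq_near hp2 h1
    refine ⟨u * s, ?_⟩
    calc u * (u + x) = u * u * (1 + x / u) := by field_simp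
      _ = u * s * (u * s) := by rw [hs]; ring

theorem sq_tr {F : Type*} [Field F] {a b e : F} (ha : a ≠ 0) (h1 : IsSquare (a * b))
    (h2 : IsSquare (a * e)) : IsSquare (b * e) := by
  obtain ⟨u, hu⟩ := h1
  obtain ⟨w, hw⟩ := h2
  refine ⟨u * w / a, ?_⟩
  rw [div_mul_div_comm, eq_div_iff (mul_ne_zero ha ha)]
  calc b * e * (a * a) = (a * b) * (a * e) := by ring
    _ = (u * u) * (w * w) := by rw [hu, hw]
    _ = u * w * (u * w) := by ring

/-- cancel two squares -/
theorem sq_cancel {F : Type*} [Field F] {z s t w : F} (hs : IsSquare s) (ht : IsSquare t) (hs0 : s ≠ 0)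
    (ht0 : t ≠ 0) (h : z * s * t = w * w) : IsSquare z := by
  obtain ⟨a, rfl⟩ := hs
  obtain ⟨b, rfl⟩ := ht
  have ha : a ≠ 0 := left_ne_zero_of_mul hs0
  have hb : b ≠ 0 := left_ne_zero_of_mul ht0
  refine ⟨w / (a * b), ?_⟩
  rw [div_mul_div_comm, eq_div_iff (mul_ne_zero (mul_ne_zero ha hb) (mul_ne_zero ha hb))]
  linear_combination h

theorem norm_odd_ne {z w : ℚ_[p]} (hz : z ≠ 0) {k : ℕ} (hk : Odd k) (hw : ‖w‖ = (p : ℝ) ^ (-(k : ℤ))) :
    z ^ 2 ≠ w := by
  intro h
  have hp1 : (1 : ℝ) < p := by exact_mod_cast hp.out.one_lt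
  rw [← h, norm_pow, Padic.norm_eq_zpow_neg_valuation hz, ← zpow_natCast, ← zpow_mul] at hw
  have h2 := zpow_right_injective₀ (by linarith) hp1.ne' hw
  obtain ⟨j, hj⟩ := hk
  push_cast at h2
  omega

/-- the local classes of the points at a prime dividing `n` exactly once -/
theorem local_bad (hp2 : p ≠ 2) {n x y : ℚ_[p]} (hn : ‖n‖ = (p : ℝ)⁻¹) (hy : y ≠ 0)
    (h : y ^ 2 = x ^ 3 - n ^ 2 * x) :
    (IsSquare x ∧ IsSquare (x - n)) ∨ (IsSquare (x * (-1)) ∧ IsSquare ((x - n) * (-n))) ∨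
    (IsSquare (x * n) ∧ IsSquare ((x - n) * 2)) ∨
    (IsSquare (x * (-n)) ∧ IsSquare ((x - n) * (-(2 * n)))) := by
  have hp1 : (1 : ℝ) < p := by exact_mod_cast hp.out.one_lt
  have hn1 : ‖n‖ < 1 := by
    rw [hn]
    exact inv_lt_one_of_one_lt₀ hp1
  have hn0 : n ≠ 0 := by
    rw [← norm_ne_zero_iff, hn]
    positivity
  have h2 := norm_two (p := p) hp2
  have h20 : (2 : ℚ_[p]) ≠ 0 := two_ne_zero
  have hfac : y * y = x * (x - n) * (x + n) := by linear_combination h
  have hy2 : y * y ≠ 0 := mul_ne_zero hy hy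
  have hx0 : x ≠ 0 := by
    rintro rfl
    exact hy2 (by rw [hfac]; ring)
  have hxn : x - n ≠ 0 := by
    intro h0
    exact hy2 (by rw [hfac, h0]; ring)
  have hxn' : x + n ≠ 0 := by
    intro h0
    exact hy2 (by rw [hfac, h0]; ring)
  rcases lt_trichotomy ‖x‖ ‖n‖ with hlt | heq | hgt
  · -- type 1
    right; left
    obtain ⟨-, s1⟩ := near hp2 (u := -n) (x := x) (by rwa [norm_neg])
    obtain ⟨-, s2⟩ := near hp2 (u := n) (x := x) hlt
    refine ⟨?_, ?_⟩
    · refine sq_cancel s1 s2 ?_ ?_ (w := n * y) ?_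
      · refine mul_ne_zero (neg_ne_zero.2 hn0) ?_
        rw [neg_add_eq_sub]
        exact hxn
      · refine mul_ne_zero hn0 ?_
        rw [add_comm]
        exact hxn'
      · linear_combination (-(n ^ 2)) * hfac
    · have e : (x - n) * (-n) = -n * (-n + x) := by ring
      rw [e]
      exact s1
  · by_cases c1 : ‖x - n‖ < ‖n‖
    · right; right; left
      obtain ⟨-, s1⟩ := near hp2 (u := n) (x := x - n) c1
      obtain ⟨-, s2⟩ := near hp2 (u := 2 * n) (x := x - n) (by rwa [norm_mul, h2, one_mul])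
      refine ⟨?_, ?_⟩
      · have e : x * n = n * (n + (x - n)) := by ring
        rw [e]
        exact s1
      · refine sq_cancel s1 s2 ?_ ?_ (w := 2 * n * y) ?_
        · refine mul_ne_zero hn0 ?_
          rw [add_sub_cancel]
          exact hx0
        · refine mul_ne_zero (mul_ne_zero h20 hn0) ?_
          have e : 2 * n + (x - n) = x + n := by ring
          rw [e]
          exact hxn'
        · linear_combination (-(4 * n ^ 2)) * hfac
    · by_cases c2 : ‖x + n‖ < ‖n‖
      · right; right; right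
        obtain ⟨-, s1⟩ := near hp2 (u := -n) (x := x + n) (by rwa [norm_neg])
        obtain ⟨-, s2⟩ := near hp2 (u := -(2 * n)) (x := x + n) (by rwa [norm_neg, norm_mul, h2, one_mul])
        refine ⟨?_, ?_⟩
        · have e : x * (-n) = -n * (-n + (x + n)) := by ring
          rw [e]
          exact s1
        · have e : (x - n) * (-(2 * n)) = -(2 * n) * (-(2 * n) + (x + n)) := by ring
          rw [e]
          exact s2
      · exfalso
        have h3 : ‖x - n‖ = ‖n‖ := by
          refine le_antisymm ?_ (not_lt.1 c1)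
          have := Padic.nonarchimedean x (-n)
          rw [← sub_eq_add_neg, norm_neg, heq, max_self] at this
          exact this
        have h4 : ‖x + n‖ = ‖n‖ := by
          refine le_antisymm ?_ (not_lt.1 c2)
          have := Padic.nonarchimedean x n
          rw [heq, max_self] at this
          exact this
        refine norm_odd_ne (p := p) hy (k := 3) (by decide) (w := x * (x - n) * (x + n)) ?_
          (by rw [sq, hfac])
        rw [norm_mul, norm_mul, h3, h4, heq, hn]
        simp only [Nat.cast_ofNat, zpow_neg]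
        rw [← mul_inv, ← mul_inv]
        congr 1
        norm_cast
        ring
  · left
    obtain ⟨-, s1⟩ := near hp2 (u := x) (x := -n) (by rwa [norm_neg])
    obtain ⟨-, s2⟩ := near hp2 (u := x) (x := n) hgt
    rw [← sub_eq_add_neg] at s1
    have s3 : IsSquare x := by
      refine sq_cancel s1 s2 (mul_ne_zero hx0 hxn) (mul_ne_zero hx0 hxn') (w := x * y) ?_
      linear_combination (-(x ^ 2)) * hfac
    refine ⟨s3, ?_⟩
    have := sq_tr (a := x) (b := 1) (e := x - n) hx0 (by rwa [mul_one]) s1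
    rwa [one_mul] at this

/-- the parity of the valuations at an odd prime not dividing `n` -/
theorem local_good (hp2 : p ≠ 2) {n x y : ℚ_[p]} (hn : ‖n‖ = 1) (hy : y ≠ 0)
    (h : y ^ 2 = x ^ 3 - n ^ 2 * x) : Even x.valuation ∧ Even (x - n).valuation := by
  have h2 := norm_two (p := p) hp2
  have hfac : y * y = x * (x - n) * (x + n) := by linear_combination h
  have hy2 : y * y ≠ 0 := mul_ne_zero hy hy
  have hx0 : x ≠ 0 := by
    rintro rfl
    exact hy2 (by rw [hfac]; ring)
  have hxn : x - n ≠ 0 := by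
    intro h0
    exact hy2 (by rw [hfac, h0]; ring)
  have hxn' : x + n ≠ 0 := by
    intro h0
    exact hy2 (by rw [hfac, h0]; ring)
  have hval : 2 * y.valuation = x.valuation + (x - n).valuation + (x + n).valuation := by
    rw [← Padic.valuation_mul hx0 hxn, ← Padic.valuation_mul (mul_ne_zero hx0 hxn) hxn', ← hfac,
      Padic.valuation_mul hy hy]
    ring
  have hnv : ∀ {a b : ℚ_[p]}, a ≠ 0 → b ≠ 0 → ‖a‖ = ‖b‖ → a.valuation = b.valuation := by
    intro a b ha hb hab
    have hp1 : (1 : ℝ) < p := by exact_mod_cast hp.out.one_lt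
    rw [Padic.norm_eq_zpow_neg_valuation ha, Padic.norm_eq_zpow_neg_valuation hb] at hab
    have := zpow_right_injective₀ (by linarith) hp1.ne' hab
    omega
  have hone : ∀ {a : ℚ_[p]}, a ≠ 0 → ‖a‖ = 1 → a.valuation = 0 := by
    intro a ha h1
    rw [hnv ha one_ne_zero (by rw [h1, norm_one]), Padic.valuation_one]
  rcases lt_trichotomy ‖x‖ ‖n‖ with hlt | heq | hgt
  · obtain ⟨h3, -⟩ := near hp2 (u := -n) (x := x) (by rwa [norm_neg])
    obtain ⟨h4, -⟩ := near hp2 (u := n) (x := x) hlt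
    rw [norm_neg, hn, neg_add_eq_sub] at h3
    rw [hn, add_comm] at h4
    have h5 := hone hxn h3
    have h6 := hone hxn' h4
    rw [h5, h6] at hval
    rw [h5]
    exact ⟨⟨y.valuation, by omega⟩, ⟨0, by ring⟩⟩
  · by_cases c1 : ‖x - n‖ < ‖n‖
    · obtain ⟨h4, -⟩ := near hp2 (u := 2 * n) (x := x - n) (by rwa [norm_mul, h2, one_mul])
      have e : 2 * n + (x - n) = x + n := by ring
      rw [e, norm_mul, h2, one_mul, hn] at h4
      have h5 := hone hx0 (by rw [heq, hn])
      have h6 := hone hxn' h4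
      rw [h5, h6] at hval
      rw [h5]
      exact ⟨⟨0, by ring⟩, ⟨y.valuation, by omega⟩⟩
    · have h3 : ‖x - n‖ = ‖n‖ := by
        refine le_antisymm ?_ (not_lt.1 c1)
        have := Padic.nonarchimedean x (-n)
        rw [← sub_eq_add_neg, norm_neg, heq, max_self] at this
        exact this
      rw [hone hx0 (by rw [heq, hn]), hone hxn (by rw [h3, hn])]
      exact ⟨⟨0, by ring⟩, ⟨0, by ring⟩⟩
  · obtain ⟨h3, -⟩ := near hp2 (u := x) (x := -n) (by rwa [norm_neg])
    obtain ⟨h4, -⟩ := near hp2 (u := x) (x := n) hgt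
    rw [← sub_eq_add_neg] at h3
    have h5 := hnv hxn hx0 h3
    have h6 := hnv hxn' hx0 h4
    rw [h5, h6] at hval
    rw [h5]
    exact ⟨⟨y.valuation - x.valuation, by omega⟩, ⟨y.valuation - x.valuation, by omega⟩⟩

end

/-- the parity of the valuation of `x` at `2` -/
theorem local_two {n x y : ℚ_[2]} (hn : ‖n‖ = 1) (hy : y ≠ 0)
    (h : y ^ 2 = x ^ 3 - n ^ 2 * x) : Even x.valuation := by
  have hfac : y * y = x * (x - n) * (x + n) := by linear_combination h
  have hy2 : y * y ≠ 0 := mul_ne_zero hy hy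
  have hx0 : x ≠ 0 := by
    rintro rfl
    exact hy2 (by rw [hfac]; ring)
  have hxn : x - n ≠ 0 := by
    intro h0
    exact hy2 (by rw [hfac, h0]; ring)
  have hxn' : x + n ≠ 0 := by
    intro h0
    exact hy2 (by rw [hfac, h0]; ring)
  have hval : 2 * y.valuation = x.valuation + (x - n).valuation + (x + n).valuation := by
    rw [← Padic.valuation_mul hx0 hxn, ← Padic.valuation_mul (mul_ne_zero hx0 hxn) hxn', ← hfac,
      Padic.valuation_mul hy hy]
    ring
  have hnv : ∀ {a b : ℚ_[2]}, a ≠ 0 → b ≠ 0 → ‖a‖ = ‖b‖ → a.valuation = b.valuation := by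
    intro a b ha hb hab
    rw [Padic.norm_eq_zpow_neg_valuation ha, Padic.norm_eq_zpow_neg_valuation hb] at hab
    have := zpow_right_injective₀ (by norm_num) (by norm_num) hab
    omega
  have hone : ∀ {a : ℚ_[2]}, a ≠ 0 → ‖a‖ = 1 → a.valuation = 0 := by
    intro a ha h1
    rw [hnv ha one_ne_zero (by rw [h1, norm_one]), Padic.valuation_one]
  have hadd : ∀ {u x : ℚ_[2]}, ‖x‖ < ‖u‖ → ‖u + x‖ = ‖u‖ := by
    intro u x hlt
    rw [Padic.add_eq_max_of_ne hlt.ne']
    exact max_eq_left hlt.le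
  rcases lt_trichotomy ‖x‖ ‖n‖ with hlt | heq | hgt
  · have h3 := hadd (u := -n) (x := x) (by rwa [norm_neg])
    have h4 := hadd (u := n) (x := x) hlt
    rw [norm_neg, hn, neg_add_eq_sub] at h3
    rw [hn, add_comm] at h4
    rw [hone hxn h3, hone hxn' h4] at hval
    exact ⟨y.valuation, by omega⟩
  · rw [hone hx0 (by rw [heq, hn])]
    exact ⟨0, by ring⟩
  · have h3 := hadd (u := x) (x := -n) (by rwa [norm_neg])
    have h4 := hadd (u := x) (x := n) hgt
    rw [← sub_eq_add_neg] at h3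
    rw [hnv hxn hx0 h3, hnv hxn' hx0 h4] at hval
    exact ⟨y.valuation - x.valuation, by omega⟩

end Pool.Agent.R494.CN
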