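import Mathlib
import Pool.Agent.R494.CN1

set_option autoImplicit false

/-!
The `2`-Selmer group of `y² = x³ - N² x` for the products `N` of primes `≡ 3` modulo `8` each of which is
not a square modulo the smaller ones.
-/

namespace Pool.Agent.R494.CN

open Finset

section

variable {p : ℕ} [hp : Fact p.Prime]

/-- the symbol of the part prime to `p` -/
noncomputable def psi (p : ℕ) [Fact p.Prime] (z : ℤ) : ℤ :=
  legendreSym p (z / (p : ℤ) ^ padicValInt p z)

theorem val_of {k : ℕ} {u : ℤ} (hu : ¬ (p : ℤ) ∣ u) : padicValInt p ((p : ℤ) ^ k * u) = k := by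
  have hp0 : (p : ℤ) ≠ 0 := by exact_mod_cast hp.out.ne_zero
  have hu0 : u ≠ 0 := by
    rintro rfl
    exact hu (dvd_zero _)
  rw [padicValInt.mul (pow_ne_zero _ hp0) hu0, padicValInt.eq_zero_of_not_dvd hu, add_zero]
  have : padicValInt p ((p : ℤ) ^ k) = padicValNat p (p ^ k) := by
    unfold padicValInt
    rw [Int.natAbs_pow, Int.natAbs_natCast]
  rw [this, padicValNat.prime_pow]

theorem psi_of {k : ℕ} {u : ℤ} (hu : ¬ (p : ℤ) ∣ u) :
    psi p ((p : ℤ) ^ k * u) = legendreSym p u := by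
  have hp0 : (p : ℤ) ≠ 0 := by exact_mod_cast hp.out.ne_zero
  unfold psi
  rw [val_of hu, Int.mul_ediv_cancel_left _ (pow_ne_zero _ hp0)]

theorem exists_split {z : ℤ} (hz : z ≠ 0) : ∃ u : ℤ, ¬ (p : ℤ) ∣ u ∧
    z = (p : ℤ) ^ padicValInt p z * u := by
  obtain ⟨u, hu⟩ := padicValInt_dvd (p := p) z
  refine ⟨u, fun h => ?_, hu⟩
  obtain ⟨w, rfl⟩ := h
  have h1 : ((p : ℤ) ^ (padicValInt p z + 1)) ∣ z := by
    refine ⟨w, ?_⟩
    conv_lhs => rw [hu]
    ring
  rw [padicValInt_dvd_iff] at h1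
  rcases h1 with h1 | h1
  · exact hz h1
  · omega

theorem psi_mul {z w : ℤ} (hz : z ≠ 0) (hw : w ≠ 0) : psi p (z * w) = psi p z * psi p w := by
  obtain ⟨u, hu, hzu⟩ := exists_split (p := p) hz
  obtain ⟨v, hv, hwv⟩ := exists_split (p := p) hw
  have huv : ¬ (p : ℤ) ∣ u * v := by
    intro h
    rcases (Nat.prime_iff_prime_int.1 hp.out).dvd_or_dvd h with h | h
    · exact hu h
    · exact hv h
  have e : z * w = (p : ℤ) ^ (padicValInt p z + padicValInt p w) * (u * v) := by
    conv_lhs => rw [hzu, hwv]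
    ring
  have e1 : psi p z = legendreSym p u := by
    conv_lhs => rw [hzu]
    exact psi_of hu
  have e2 : psi p w = legendreSym p v := by
    conv_lhs => rw [hwv]
    exact psi_of hv
  rw [e, psi_of huv, e1, e2, legendreSym.mul]

theorem psi_unit {z : ℤ} (hz : ¬ (p : ℤ) ∣ z) : psi p z = legendreSym p z := by
  have := psi_of (p := p) (k := 0) hz
  rwa [pow_zero, one_mul] at this

theorem psi_one : psi p 1 = 1 := by
  rw [psi_unit]
  · exact legendreSym.at_one p
  · intro h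
    have := Int.natCast_dvd.1 h
    rw [Int.natAbs_one] at this
    exact hp.out.one_lt.ne' (Nat.dvd_one.1 this)

theorem psi_self : psi p (p : ℤ) = 1 := by
  have h1 : ¬ (p : ℤ) ∣ 1 := by
    intro h
    have := Int.natCast_dvd.1 h
    rw [Int.natAbs_one] at this
    exact hp.out.one_lt.ne' (Nat.dvd_one.1 this)
  have := psi_of (p := p) (k := 1) h1
  rw [pow_one, mul_one, legendreSym.at_one] at this
  exact this

theorem psi_prod {ι : Type*} (s : Finset ι) (f : ι → ℤ) (hf : ∀ i ∈ s, f i ≠ 0) :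
    psi p (∏ i ∈ s, f i) = ∏ i ∈ s, psi p (f i) := by
  classical
  induction s using Finset.induction_on with
  | empty => rw [prod_empty, prod_empty, psi_one]
  | insert a s ha ih =>
    rw [prod_insert ha, prod_insert ha, psi_mul (hf a (mem_insert_self a s))
      (prod_ne_zero_iff.2 fun i hi => hf i (mem_insert_of_mem hi)),
      ih fun i hi => hf i (mem_insert_of_mem hi)]

/-- integers which are squares in `ℚ_p` -/
theorem psi_sq {z : ℤ} (hz : z ≠ 0) (h : IsSquare ((z : ℤ) : ℚ_[p])) :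
    psi p z = 1 ∧ Even (padicValInt p z) := by
  obtain ⟨s, hs⟩ := h
  have hp0 : (p : ℤ) ≠ 0 := by exact_mod_cast hp.out.ne_zero
  have hpq : (p : ℚ_[p]) ≠ 0 := by exact_mod_cast hp.out.ne_zero
  have hz' : ((z : ℤ) : ℚ_[p]) ≠ 0 := by exact_mod_cast hz
  have hs0 : s ≠ 0 := by
    rintro rfl
    exact hz' (by rw [hs, mul_zero])
  have hv : (padicValInt p z : ℤ) = s.valuation + s.valuation := by
    rw [← Padic.valuation_mul hs0 hs0, ← hs, Padic.valuation_intCast]
  obtain ⟨j, hj⟩ : ∃ j : ℕ, s.valuation = j := Int.eq_ofNat_of_zero_le (by omega)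
  have hvj : padicValInt p z = j + j := by omega
  refine ⟨?_, ⟨j, hvj⟩⟩
  obtain ⟨u, hu, hzu⟩ := exists_split (p := p) hz
  have e1 : psi p z = legendreSym p u := by
    conv_lhs => rw [hzu]
    exact psi_of hu
  rw [e1]
  set t : ℚ_[p] := s / (p : ℚ_[p]) ^ j with ht
  have htu : t * t = (u : ℚ_[p]) := by
    have h1 : ((z : ℤ) : ℚ_[p]) = (p : ℚ_[p]) ^ (j + j) * (u : ℚ_[p]) := by
      rw [← hvj]
      exact_mod_cast congrArg (fun w : ℤ => (w : ℚ_[p])) hzu
    rw [ht, div_mul_div_comm, ← hs, h1, pow_add]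
    field_simp
  have hnu : ‖(u : ℚ_[p])‖ = 1 := by
    rw [Padic.norm_intCast_eq_one_iff]
    have := (Prime.coprime_iff_not_dvd (Nat.prime_iff_prime_int.1 hp.out)).2 hu
    exact this.symm
  have hnt : ‖t‖ = 1 := by
    have h1 : ‖t‖ * ‖t‖ = 1 := by rw [← norm_mul, htu, hnu]
    have h2 := norm_nonneg t
    nlinarith
  set τ : ℤ_[p] := ⟨t, hnt.le⟩ with hτ
  have hτu : τ * τ = (u : ℤ_[p]) := by
    apply Subtype.ext
    rw [PadicInt.coe_mul]
    rw [hτ]
    simp only
    rw [htu]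
    simp
  have h3 := congrArg (PadicInt.toZMod (p := p)) hτu
  rw [map_mul, map_intCast] at h3
  have hu0 : ((u : ℤ) : ZMod p) ≠ 0 := by
    intro h4
    exact hu ((ZMod.intCast_zmod_eq_zero_iff_dvd _ _).1 h4)
  exact (legendreSym.eq_one_iff p hu0).2 ⟨_, h3.symm⟩

end

/-- the signs -/
theorem signs (s e α β : Prop) [Decidable s] [Decidable e] [Decidable α] [Decidable β] {w : ℤ}
    (hw : w = 1 ∨ w = -1)
    (h1 : (if s then -1 else 1) * (if e then w else 1) * (if α then -1 else 1) * (if β then w else 1) = 1)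
    (h2 : (if s then -1 else 1) * (if e then -1 else 1) * (if s then w else 1) *
      (if α then (-1 : ℤ) * w else 1) * (if β then -1 else 1) = 1) : (α ↔ s) ∧ (β ↔ e) := by
  rcases hw with rfl | rfl <;> by_cases hs : s <;> by_cases he : e <;> by_cases ha : α <;>
    by_cases hb : β <;> simp_all

/-- the combinatorial part of the descent -/
theorem comb {T : Finset ℕ} (hT : ∀ p ∈ T, p.Prime ∧ p % 8 = 3)
    (hsym : ∀ p ∈ T, ∀ q ∈ T, p < q → ¬ IsSquare ((q : ℕ) : ZMod p)) {a b : ℤ} (ha : Squarefree a)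
    (hb : Squarefree b) (hs : a < 0 ↔ b < 0)
    (hap : ∀ q : ℕ, q.Prime → (q : ℤ) ∣ a → q = 2 ∨ q ∈ T)
    (hbp : ∀ q : ℕ, q.Prime → (q : ℤ) ∣ b → q ∈ T)
    (hloc : ∀ p ∈ T, ∀ [Fact p.Prime], ∃ α β : Prop, ∃ _ : Decidable α, ∃ _ : Decidable β,
      ((p : ℤ) ∣ a ↔ α) ∧ ((p : ℤ) ∣ b ↔ β) ∧
      psi p (b * (if α then -1 else 1) * (if β then ∏ q ∈ T, (q : ℤ) else 1)) = 1 ∧
      psi p (a * (if α then -∏ q ∈ T, (q : ℤ) else 1) * (if β then 2 else 1)) = 1) :
    ∀ p ∈ T, ((p : ℤ) ∣ a ↔ b < 0) ∧ ((p : ℤ) ∣ b ↔ (2 : ℤ) ∣ a) := by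
  classical
  by_contra hcon
  push Not at hcon
  set F : Finset ℕ := T.filter (fun p : ℕ => ¬ (((p : ℤ) ∣ a ↔ b < 0) ∧ ((p : ℤ) ∣ b ↔ (2 : ℤ) ∣ a))) with hF
  have hFne : F.Nonempty := by
    obtain ⟨p, hpT, hp⟩ := hcon
    exact ⟨p, mem_filter.2 ⟨hpT, fun h => by
      by_cases h5 : ((p : ℤ) ∣ a ↔ b < 0)
      · have := hp h5
        rcases this with ⟨h6, h7⟩ | ⟨h6, h7⟩
        · exact h7 (h.2.1 h6)
        · exact h6 (h.2.2 h7)
      · exact h5 h.1⟩⟩
  set p := F.max' hFne with hpF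
  have hpmem : p ∈ F := F.max'_mem hFne
  obtain ⟨hpT, hpbad⟩ := mem_filter.1 hpmem
  have hgood : ∀ q ∈ T, p < q → ((q : ℤ) ∣ a ↔ b < 0) ∧ ((q : ℤ) ∣ b ↔ (2 : ℤ) ∣ a) := by
    intro q hq hpq
    by_contra h
    have := F.le_max' q (mem_filter.2 ⟨hq, h⟩)
    omega
  have hpp := (hT p hpT).1
  have hp8 := (hT p hpT).2
  have : Fact p.Prime := ⟨hpp⟩
  have hp2 : p ≠ 2 := by omega
  have hp0 : (p : ℤ) ≠ 0 := by exact_mod_cast hpp.ne_zero
  -- symbols
  have hndv : ∀ z : ℤ, z.natAbs < p → z ≠ 0 → ¬ (p : ℤ) ∣ z := by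
    intro z h1 h2 h3
    have := Nat.le_of_dvd (Int.natAbs_pos.2 h2) (Int.natCast_dvd.1 h3)
    omega
  have hm1 : psi p (-1) = -1 := by
    rw [psi_unit (hndv _ (by simpa using hpp.one_lt) (by norm_num)), legendreSym.at_neg_one hp2,
      ZMod.χ₄_nat_three_mod_four (by omega)]
  have h2 : psi p 2 = -1 := by
    rw [psi_unit (hndv _ (by
      have := hpp.two_le
      show 2 < p
      omega) (by norm_num)), legendreSym.at_two hp2, ZMod.χ₈_nat_eq_if_mod_eight]
    rw [if_neg (by omega), if_neg (by omega)]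
  have hq : ∀ q ∈ T, psi p (q : ℤ) = if p < q then -1 else 1 := by
    intro q hqT
    have hqp := (hT q hqT).1
    have hq8 := (hT q hqT).2
    have : Fact q.Prime := ⟨hqp⟩
    rcases lt_trichotomy q p with h | h | h
    · rw [if_neg (by omega), psi_unit (hndv _ (by simpa using h) (by exact_mod_cast hqp.ne_zero))]
      have h5 : legendreSym q p = -1 := by
        have h6 := hsym q hqT p hpT h
        have h7 := (legendreSym.eq_neg_one_iff q (a := (p : ℤ))).2 (by simpa using h6)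
        exact h7
      have h8 := legendreSym.quadratic_reciprocity_three_mod_four (p := q) (q := p) (by omega) (by omega)
      rw [h8, h5]
      norm_num
    · rw [if_neg (by omega)]
      subst h
      exact psi_self
    · rw [if_pos h]
      have h6 := hsym p hpT q hqT h
      have hnd : ¬ (p : ℤ) ∣ (q : ℤ) := by
        intro h7
        have h8 : p ∣ q := by exact_mod_cast h7
        have := (Nat.prime_dvd_prime_iff_eq hpp hqp).1 h8
        omega
      rw [psi_unit hnd]
      exact (legendreSym.eq_neg_one_iff p (a := (q : ℤ))).2 (by simpa using h6)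
  set w : ℤ := ∏ q ∈ T, (if p < q then -1 else 1) with hw
  have hw1 : w = 1 ∨ w = -1 := by
    rw [hw]
    refine prod_induction _ (fun z : ℤ => z = 1 ∨ z = -1) ?_ (Or.inl rfl) ?_
    · rintro x y (rfl | rfl) (rfl | rfl) <;> simp
    · intro q _
      split_ifs <;> simp
  have hq0 : ∀ q ∈ T, ((q : ℕ) : ℤ) ≠ 0 := fun q hq => by exact_mod_cast (hT q hq).1.ne_zero
  have hN : psi p (∏ q ∈ T, (q : ℤ)) = w := by
    rw [psi_prod _ _ hq0, hw]
    exact prod_congr rfl hq
  -- the products over the primes dividing `a`, `b`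
  have hpart : ∀ (P : ℕ → Prop) [DecidablePred P] (R : Prop) [Decidable R],
      (∀ q ∈ T, p < q → (P q ↔ R)) →
      psi p (∏ q ∈ T.filter P, (q : ℤ)) = if R then w else 1 := by
    intro P _ R _ hPR
    rw [psi_prod _ _ fun q hq => hq0 q (mem_filter.1 hq).1, prod_filter]
    by_cases hR : R
    · rw [if_pos hR, hw]
      refine prod_congr rfl fun q hqT => ?_
      rw [hq q hqT]
      by_cases hpq : p < q
      · rw [if_pos hpq, if_pos ((hPR q hqT hpq).2 hR)]
      · rw [if_neg hpq, ite_self]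
    · rw [if_neg hR]
      refine prod_eq_one fun q hqT => ?_
      rw [hq q hqT]
      by_cases hpq : p < q
      · rw [if_neg (fun h => hR ((hPR q hqT hpq).1 h))]
      · rw [if_neg hpq, ite_self]
  have hsgn : ∀ z : ℤ, z ≠ 0 → z = (if z < 0 then -1 else 1) * (z.natAbs : ℤ) := by
    intro z hz
    split_ifs with h
    · omega
    · omega
  have hpsgn : ∀ z : ℤ, psi p (if z < 0 then -1 else 1) = if z < 0 then -1 else 1 := by
    intro z
    split_ifs
    · exact hm1
    · exact psi_one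
  have hbabs : (b.natAbs : ℤ) = ∏ q ∈ T.filter (fun q : ℕ => (q : ℤ) ∣ b), (q : ℤ) := by
    have h1 := Nat.prod_primeFactors_of_squarefree (Int.squarefree_natAbs.2 hb)
    have h3 : b.natAbs.primeFactors = T.filter (fun q : ℕ => (q : ℤ) ∣ b) := by
      ext q
      rw [Nat.mem_primeFactors, mem_filter]
      constructor
      · rintro ⟨h4, h5, _⟩
        exact ⟨hbp q h4 (Int.natCast_dvd.2 h5), Int.natCast_dvd.2 h5⟩
      · rintro ⟨h4, h5⟩
        exact ⟨(hT q h4).1, Int.natCast_dvd.1 h5, Int.natAbs_ne_zero.2 hb.ne_zero⟩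
    rw [h3] at h1
    rw [← h1]
    push_cast
    rfl
  have h2T : 2 ∉ T := fun h => by
    have := (hT 2 h).2
    norm_num at this
  have haabs : (a.natAbs : ℤ) = (if (2 : ℤ) ∣ a then 2 else 1) *
      ∏ q ∈ T.filter (fun q : ℕ => (q : ℤ) ∣ a), (q : ℤ) := by
    have h1 := Nat.prod_primeFactors_of_squarefree (Int.squarefree_natAbs.2 ha)
    have h3 : a.natAbs.primeFactors = (if (2 : ℤ) ∣ a then {2} else ∅) ∪
        T.filter (fun q : ℕ => (q : ℤ) ∣ a) := by
      ext q
      rw [Nat.mem_primeFactors, mem_union, mem_filter]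
      constructor
      · rintro ⟨h4, h5, _⟩
        have h6 := Int.natCast_dvd.2 h5
        rcases hap q h4 h6 with h7 | h7
        · left
          subst h7
          rw [if_pos (by exact_mod_cast h6)]
          exact mem_singleton_self 2
        · exact Or.inr ⟨h7, h6⟩
      · rintro (h4 | ⟨h4, h5⟩)
        · split_ifs at h4 with h5
          · rw [mem_singleton] at h4
            subst h4
            exact ⟨Nat.prime_two, Int.natCast_dvd.1 (by exact_mod_cast h5),
              Int.natAbs_ne_zero.2 ha.ne_zero⟩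
          · exact absurd h4 (notMem_empty _)
        · exact ⟨(hT q h4).1, Int.natCast_dvd.1 h5, Int.natAbs_ne_zero.2 ha.ne_zero⟩
    have hdisj : Disjoint (if (2 : ℤ) ∣ a then {2} else ∅) (T.filter (fun q : ℕ => (q : ℤ) ∣ a)) := by
      split_ifs
      · rw [disjoint_singleton_left]
        intro h
        exact h2T (mem_filter.1 h).1
      · exact disjoint_empty_left _
    rw [h3, prod_union hdisj] at h1
    rw [← h1]
    split_ifs <;> push_cast <;> simp
  have hb0 := hb.ne_zero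
  have ha0 := ha.ne_zero
  have hpb : psi p b = (if b < 0 then -1 else 1) * (if (2 : ℤ) ∣ a then w else 1) := by
    have hne : (b.natAbs : ℤ) ≠ 0 := by exact_mod_cast Int.natAbs_ne_zero.2 hb0
    conv_lhs => rw [hsgn b hb0]
    rw [psi_mul (by split_ifs <;> norm_num) hne, hpsgn, hbabs,
      hpart _ ((2 : ℤ) ∣ a) fun q hq h => (hgood q hq h).2]
  have hpa : psi p a = (if b < 0 then -1 else 1) * (if (2 : ℤ) ∣ a then -1 else 1) *
      (if b < 0 then w else 1) := by
    have hne : (a.natAbs : ℤ) ≠ 0 := by exact_mod_cast Int.natAbs_ne_zero.2 ha0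
    conv_lhs => rw [hsgn a ha0]
    rw [psi_mul (by split_ifs <;> norm_num) hne, hpsgn]
    have e1 : (if a < 0 then (-1 : ℤ) else 1) = if b < 0 then -1 else 1 := by
      by_cases h : a < 0
      · rw [if_pos h, if_pos (hs.1 h)]
      · rw [if_neg h, if_neg (fun h' => h (hs.2 h'))]
    rw [e1, mul_assoc, haabs, psi_mul (by split_ifs <;> norm_num)
      (prod_ne_zero_iff.2 fun q hq => hq0 q (mem_filter.1 hq).1),
      hpart _ (b < 0) fun q hq h => (hgood q hq h).1]
    congr 2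
    split_ifs
    · exact h2
    · exact psi_one
  obtain ⟨α, β, _, _, hα, hβ, h3, h4⟩ := hloc p hpT
  have hN0 : ∏ q ∈ T, (q : ℤ) ≠ 0 := prod_ne_zero_iff.2 hq0
  have f1 : (if β then ∏ q ∈ T, (q : ℤ) else 1) ≠ 0 := by
    split_ifs
    · exact hN0
    · exact one_ne_zero
  have f2 : (if α then -∏ q ∈ T, (q : ℤ) else 1) ≠ 0 := by
    split_ifs
    · exact neg_ne_zero.2 hN0
    · exact one_ne_zero
  have f3 : (if α then (-1 : ℤ) else 1) ≠ 0 := by split_ifs <;> norm_num
  have f4 : (if β then (2 : ℤ) else 1) ≠ 0 := by split_ifs <;> norm_num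
  rw [psi_mul (mul_ne_zero hb0 f3) f1, psi_mul hb0 f3, hpb] at h3
  rw [psi_mul (mul_ne_zero ha0 f2) f4, psi_mul ha0 f2, hpa] at h4
  have g1 : psi p (if α then (-1 : ℤ) else 1) = if α then -1 else 1 := by
    split_ifs
    · exact hm1
    · exact psi_one
  have g2 : psi p (if β then ∏ q ∈ T, (q : ℤ) else 1) = if β then w else 1 := by
    split_ifs
    · exact hN
    · exact psi_one
  have g3 : psi p (if α then -∏ q ∈ T, (q : ℤ) else 1) = if α then (-1 : ℤ) * w else 1 := by
    split_ifs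
    · rw [neg_eq_neg_one_mul, psi_mul (by norm_num) hN0, hm1, hN]
    · exact psi_one
  have g4 : psi p (if β then (2 : ℤ) else 1) = if β then -1 else 1 := by
    split_ifs
    · exact h2
    · exact psi_one
  rw [g1, g2] at h3
  rw [g3, g4] at h4
  obtain ⟨k1, k2⟩ := signs (b < 0) ((2 : ℤ) ∣ a) α β hw1 h3 h4
  exact hpbad ⟨hα.trans k1, hβ.trans k2⟩

end Pool.Agent.R494.CN
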