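import Mathlib
import Pool.Agent.R494.CN2
import Pool.Agent.W307.SE.Stm

set_option autoImplicit false

/-!
The `2`-Selmer group of `y² = x³ - N² x` has at most four elements for the products `N` of primes `≡ 3`
modulo `8` each of which is not a square modulo the smaller ones.
-/

namespace Pool.Agent.R494.CN

open Finset
open Pool.Agent.W307.SE (SelR LocR)

section

variable {p : ℕ} [hp : Fact p.Prime]

theorem val_le_one {z : ℤ} (hz : Squarefree z) : padicValInt p z ≤ 1 := by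
  by_contra h
  have h1 : ((p : ℤ) ^ 2) ∣ z := (padicValInt_dvd_iff 2 z).2 (Or.inr (by omega))
  have h2 := hz (p : ℤ) (by rw [← sq]; exact h1)
  exact (Nat.prime_iff_prime_int.1 hp.out).not_isUnit h2

theorem dvd_iff_odd {z : ℤ} (hz : Squarefree z) : (p : ℤ) ∣ z ↔ Odd (padicValInt p z) := by
  have h1 := val_le_one (p := p) hz
  have h2 := padicValInt_dvd_iff (p := p) 1 z
  rw [pow_one] at h2
  rw [h2]
  constructor
  · rintro (h | h)
    · exact absurd h hz.ne_zero
    · have : padicValInt p z = 1 := by omega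
      rw [this]
      exact odd_one
  · intro h
    exact Or.inr h.pos

/-- the valuation of a product which is a square -/
theorem dvd_of_sq {z w : ℤ} (hz : Squarefree z) (hw : w ≠ 0) (h : IsSquare (((z * w : ℤ)) : ℚ_[p])) :
    (p : ℤ) ∣ z ↔ Odd (padicValInt p w) := by
  obtain ⟨-, h1⟩ := psi_sq (p := p) (mul_ne_zero hz.ne_zero hw) h
  rw [padicValInt.mul hz.ne_zero hw, Nat.even_add] at h1
  rw [dvd_iff_odd hz, ← Nat.not_even_iff_odd, ← Nat.not_even_iff_odd, h1]

/-- the valuation of a product which is a square -/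
theorem not_dvd_of {z : ℤ} (hz : Squarefree z) {x : ℚ_[p]} (hx : x ≠ 0) (hv : Even x.valuation)
    (h : IsSquare (x * (z : ℚ_[p]))) : ¬ (p : ℤ) ∣ z := by
  obtain ⟨s, hs⟩ := h
  have hz0 : ((z : ℤ) : ℚ_[p]) ≠ 0 := by exact_mod_cast hz.ne_zero
  have hs0 : s ≠ 0 := by
    rintro rfl
    rw [mul_zero] at hs
    exact mul_ne_zero hx hz0 hs
  have h1 : x.valuation + (padicValInt p z : ℤ) = s.valuation + s.valuation := by
    rw [← Padic.valuation_intCast, ← Padic.valuation_mul hx hz0, hs, Padic.valuation_mul hs0 hs0]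
  rw [dvd_iff_odd hz]
  rintro ⟨j, hj⟩
  obtain ⟨i, hi⟩ := hv
  omega

end

/-- the roots -/
theorem root_iff (N e : ℤ) : e ^ 3 + (-N ^ 2) * e + 0 = 0 ↔ e = 0 ∨ e = N ∨ e = -N := by
  have : e ^ 3 + (-N ^ 2) * e + 0 = e * (e - N) * (e + N) := by ring
  rw [this, mul_eq_zero, mul_eq_zero]
  constructor
  · rintro ((h | h) | h)
    · exact Or.inl h
    · exact Or.inr (Or.inl (by omega))
    · exact Or.inr (Or.inr (by omega))
  · rintro (h | h | h)
    · exact Or.inl (Or.inl h)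
    · exact Or.inl (Or.inr (by omega))
    · exact Or.inr (by omega)

/-- the properties of the elements of the Selmer group -/
theorem sel_props {T : Finset ℕ} (hT : ∀ p ∈ T, p.Prime ∧ p % 8 = 3)
    (hsym : ∀ p ∈ T, ∀ q ∈ T, p < q → ¬ IsSquare ((q : ℕ) : ZMod p)) {N : ℤ}
    (hN : N = ∏ q ∈ T, (q : ℤ)) {d : ℤ → ℤ} (hd : d ∈ SelR (-N ^ 2) 0) :
    (d N < 0 ↔ d 0 < 0) ∧ 0 < d (-N) ∧
    (∀ q : ℕ, q.Prime → ((q : ℤ) ∣ d N ↔ (q = 2 ∧ (2 : ℤ) ∣ d N) ∨ (q ∈ T ∧ d 0 < 0))) ∧
    (∀ q : ℕ, q.Prime → ((q : ℤ) ∣ d 0 ↔ (q ∈ T ∧ (2 : ℤ) ∣ d N))) ∧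
    ∀ q : ℕ, q.Prime → ((q : ℤ) ∣ d (-N) ↔ ¬ ((q : ℤ) ∣ d N ↔ (q : ℤ) ∣ d 0)) := by
  classical
  obtain ⟨hsf, -, hre, hloc⟩ := hd
  have hNpos : 0 < N := by
    rw [hN]
    exact prod_pos fun q hq => by exact_mod_cast (hT q hq).1.pos
  have r0 : (0 : ℤ) ^ 3 + (-N ^ 2) * 0 + 0 = 0 := (root_iff N 0).2 (Or.inl rfl)
  have r1 : N ^ 3 + (-N ^ 2) * N + 0 = 0 := (root_iff N N).2 (Or.inr (Or.inl rfl))
  have r2 : (-N) ^ 3 + (-N ^ 2) * (-N) + 0 = 0 := (root_iff N (-N)).2 (Or.inr (Or.inr rfl))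
  have ha := hsf N
  have hb := hsf 0
  have hc := hsf (-N)
  -- the real place
  have hreal : (d N < 0 ↔ d 0 < 0) ∧ 0 < d (-N) := by
    obtain ⟨x, y, hy, hxy, hsq⟩ := hre
    have s0 := (hsq 0 r0).nonneg
    have s1 := (hsq N r1).nonneg
    have s2 := (hsq (-N) r2).nonneg
    push_cast at s0 s1 s2 hxy
    rw [sub_zero] at s0
    have hfac : y ^ 2 = x * (x - N) * (x + N) := by rw [hxy]; ring
    have hy2 : 0 < y ^ 2 := by positivity
    rw [hfac] at hy2
    have hNr : (0 : ℝ) < N := by exact_mod_cast hNpos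
    have hA0 : ((d N : ℤ) : ℝ) ≠ 0 := by exact_mod_cast ha.ne_zero
    have hB0 : ((d 0 : ℤ) : ℝ) ≠ 0 := by exact_mod_cast hb.ne_zero
    have hC0 : ((d (-N) : ℤ) : ℝ) ≠ 0 := by exact_mod_cast hc.ne_zero
    have key : ∀ {u v : ℝ}, 0 < u → 0 ≤ u * v → v ≠ 0 → 0 < v := by
      intro u v hu huv hv
      rcases lt_or_gt_of_ne hv with h | h
      · nlinarith
      · exact h
    have key' : ∀ {u v : ℝ}, u < 0 → 0 ≤ u * v → v ≠ 0 → v < 0 := by
      intro u v hu huv hv
      rcases lt_or_gt_of_ne hv with h | h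
      · exact h
      · nlinarith
    have hxp : 0 < x + N := by
      by_contra hcon
      push Not at hcon
      have h1 : x < 0 := by linarith
      have h2 : x - N < 0 := by linarith
      have h3 : 0 < x * (x - N) := mul_pos_of_neg_of_neg h1 h2
      nlinarith
    have h5 : 0 < x * (x - N) := by
      by_contra hcon
      push Not at hcon
      nlinarith
    have s2' : 0 ≤ (x + N) * (d (-N) : ℝ) := by
      have e : x - -(N : ℝ) = x + N := by ring
      rw [e] at s2
      exact s2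
    refine ⟨?_, by exact_mod_cast key hxp s2' hC0⟩
    rcases lt_or_ge x 0 with hx | hx
    · have h6 : x - N < 0 := by linarith
      have h7 := key' h6 s1 hA0
      have h8 := key' hx s0 hB0
      exact ⟨fun _ => by exact_mod_cast h8, fun _ => by exact_mod_cast h7⟩
    · have h9 : 0 < x := by
        rcases hx.lt_or_eq with h | h
        · exact h
        · rw [← h] at h5
          simp at h5
      have h6 : 0 < x - N := by
        by_contra hcon
        push Not at hcon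
        nlinarith
      have h7 := key h6 s1 hA0
      have h8 := key h9 s0 hB0
      have h7' : 0 < d N := by exact_mod_cast h7
      have h8' : 0 < d 0 := by exact_mod_cast h8
      exact ⟨fun h => by omega, fun h => by omega⟩
  -- the finite places
  have hNdvd : ∀ q : ℕ, q.Prime → ((q : ℤ) ∣ N ↔ q ∈ T) := by
    intro q hq
    rw [hN, Prime.dvd_finsetProd_iff (Nat.prime_iff_prime_int.1 hq)]
    constructor
    · rintro ⟨r, hr, hqr⟩
      have h1 : q ∣ r := by exact_mod_cast hqr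
      rw [(Nat.prime_dvd_prime_iff_eq hq (hT r hr).1).1 h1]
      exact hr
    · intro h
      exact ⟨q, h, dvd_rfl⟩
  have hNsq : Squarefree N := by
    rw [← Int.squarefree_natAbs]
    have : N.natAbs = ∏ q ∈ T, q := by
      rw [hN, ← Nat.cast_prod, Int.natAbs_natCast]
    rw [this]
    refine Finset.squarefree_prod_of_pairwise_isCoprime ?_ ?_
    · intro a ha b hb hab
      rw [Function.onFun, ← Nat.coprime_iff_isRelPrime]
      exact (Nat.coprime_primes (hT a ha).1 (hT b hb).1).2 hab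
    · intro x hx
      exact (hT x hx).1.squarefree
  have h2T : 2 ∉ T := fun h => by
    have := (hT 2 h).2
    norm_num at this
  have hlocq : ∀ (q : ℕ) [Fact q.Prime], ∃ x y : ℚ_[q], y ≠ 0 ∧ y ^ 2 = x ^ 3 - (N : ℚ_[q]) ^ 2 * x ∧
      x ≠ 0 ∧ x - (N : ℚ_[q]) ≠ 0 ∧ x + (N : ℚ_[q]) ≠ 0 ∧ IsSquare (x * (d 0 : ℚ_[q])) ∧
      IsSquare ((x - (N : ℚ_[q])) * (d N : ℚ_[q])) ∧
      IsSquare ((x + (N : ℚ_[q])) * (d (-N) : ℚ_[q])) := by
    intro q _
    obtain ⟨x, y, hy, hxy, hsq⟩ := hloc q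
    have s0 := hsq 0 r0
    have s1 := hsq N r1
    have s2 := hsq (-N) r2
    push_cast at s0 s1 s2 hxy
    rw [sub_zero] at s0
    rw [sub_neg_eq_add] at s2
    have hfac : y ^ 2 = x * (x - N) * (x + N) := by rw [hxy]; ring
    have hy2 : y ^ 2 ≠ 0 := pow_ne_zero 2 hy
    rw [hfac] at hy2
    refine ⟨x, y, hy, by rw [hxy]; ring, ?_, ?_, ?_, s0, s1, s2⟩
    · exact left_ne_zero_of_mul (left_ne_zero_of_mul hy2)
    · exact right_ne_zero_of_mul (left_ne_zero_of_mul hy2)
    · exact right_ne_zero_of_mul hy2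
  have hnormN : ∀ (q : ℕ) [Fact q.Prime], q ∉ T → ‖(N : ℚ_[q])‖ = 1 := by
    intro q hq hqT
    rw [Padic.norm_intCast_eq_one_iff]
    have h1 : ¬ (q : ℤ) ∣ N := fun h => hqT ((hNdvd q hq.out).1 h)
    exact ((Prime.coprime_iff_not_dvd (Nat.prime_iff_prime_int.1 hq.out)).2 h1).symm
  have hgood : ∀ q : ℕ, q.Prime → q ≠ 2 → q ∉ T → ¬ (q : ℤ) ∣ d N ∧ ¬ (q : ℤ) ∣ d 0 := by
    intro q hq hq2 hqT
    have : Fact q.Prime := ⟨hq⟩
    obtain ⟨x, y, hy, hxy, hx0, hx1, hx2, s0, s1, s2⟩ := hlocq q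
    obtain ⟨v0, v1⟩ := local_good hq2 (hnormN q hqT) hy hxy
    exact ⟨not_dvd_of ha hx1 v1 s1, not_dvd_of hb hx0 v0 s0⟩
  have htwo : ¬ ((2 : ℕ) : ℤ) ∣ d 0 := by
    have : Fact (Nat.Prime 2) := ⟨Nat.prime_two⟩
    obtain ⟨x, y, hy, hxy, hx0, hx1, hx2, s0, s1, s2⟩ := hlocq 2
    exact not_dvd_of hb hx0 (local_two (hnormN 2 h2T) hy hxy) s0
  have hN0 : N ≠ 0 := hNpos.ne'
  -- the primes of `T`
  have hbad : ∀ p ∈ T, ∀ [Fact p.Prime], ∃ α β : Prop, ∃ _ : Decidable α, ∃ _ : Decidable β,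
      ((p : ℤ) ∣ d N ↔ α) ∧ ((p : ℤ) ∣ d 0 ↔ β) ∧
      psi p (d 0 * (if α then -1 else 1) * (if β then ∏ q ∈ T, (q : ℤ) else 1)) = 1 ∧
      psi p (d N * (if α then -∏ q ∈ T, (q : ℤ) else 1) * (if β then 2 else 1)) = 1 := by
    intro p hpT hpf
    have hp2 : p ≠ 2 := fun h => h2T (h ▸ hpT)
    have hvN : padicValInt p N = 1 := by
      have h1 := (dvd_iff_odd hNsq).1 ((hNdvd p hpf.out).2 hpT)
      have h2 := val_le_one (p := p) hNsq
      have h3 := h1.pos
      omega
    have hnorm : ‖(N : ℚ_[p])‖ = (p : ℝ)⁻¹ := by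
      rw [Padic.norm_eq_zpow_neg_valuation (by exact_mod_cast hN0), Padic.valuation_intCast, hvN]
      simp
    have hv1 : padicValInt p 1 = 0 := by simp
    have hvm1 : padicValInt p (-1) = 0 := by
      unfold padicValInt
      simp
    have hvmN : padicValInt p (-N) = 1 := by
      unfold padicValInt at hvN ⊢
      rw [Int.natAbs_neg]
      exact hvN
    have hv2 : padicValInt p 2 = 0 := by
      refine padicValInt.eq_zero_of_not_dvd fun h => ?_
      have h1 : p ∣ 2 := by exact_mod_cast h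
      exact hp2 ((Nat.prime_dvd_prime_iff_eq hpf.out Nat.prime_two).1 h1)
    have wrap : ∀ (α β : Prop) [Decidable α] [Decidable β],
        IsSquare (((d 0 * ((if α then -1 else 1) * (if β then N else 1)) : ℤ)) : ℚ_[p]) →
        IsSquare (((d N * ((if α then -N else 1) * (if β then 2 else 1)) : ℤ)) : ℚ_[p]) →
        ∃ α β : Prop, ∃ _ : Decidable α, ∃ _ : Decidable β,
          ((p : ℤ) ∣ d N ↔ α) ∧ ((p : ℤ) ∣ d 0 ↔ β) ∧
          psi p (d 0 * (if α then -1 else 1) * (if β then ∏ q ∈ T, (q : ℤ) else 1)) = 1 ∧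
          psi p (d N * (if α then -∏ q ∈ T, (q : ℤ) else 1) * (if β then 2 else 1)) = 1 := by
      intro α β _ _ t0 t1
      have f1 : (if β then N else 1) ≠ 0 := by
        split_ifs
        · exact hN0
        · exact one_ne_zero
      have f2 : (if α then -N else 1) ≠ 0 := by
        split_ifs
        · exact neg_ne_zero.2 hN0
        · exact one_ne_zero
      have f3 : (if α then (-1 : ℤ) else 1) ≠ 0 := by split_ifs <;> norm_num
      have f4 : (if β then (2 : ℤ) else 1) ≠ 0 := by split_ifs <;> norm_num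
      refine ⟨α, β, inferInstance, inferInstance, ?_, ?_, ?_, ?_⟩
      · rw [dvd_of_sq ha (mul_ne_zero f2 f4) t1, padicValInt.mul f2 f4]
        by_cases hα : α <;> by_cases hβ : β <;> simp [hα, hβ, hvmN, hv2]
      · rw [dvd_of_sq hb (mul_ne_zero f3 f1) t0, padicValInt.mul f3 f1]
        by_cases hα : α <;> by_cases hβ : β <;> simp [hα, hβ, hvN, hvm1]
      · rw [← hN, mul_assoc]
        exact (psi_sq (mul_ne_zero hb.ne_zero (mul_ne_zero f3 f1)) t0).1
      · rw [← hN, mul_assoc]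
        exact (psi_sq (mul_ne_zero ha.ne_zero (mul_ne_zero f2 f4)) t1).1
    obtain ⟨x, y, hy, hxy, hx0, hx1, hx2, s0, s1, s2⟩ := hlocq p
    rcases local_bad hp2 hnorm hy hxy with ⟨u, v⟩ | ⟨u, v⟩ | ⟨u, v⟩ | ⟨u, v⟩
    · refine wrap False False ?_ ?_
      · have := sq_tr (e := (1 : ℚ_[p])) hx0 s0 (by rwa [mul_one])
        simpa using this
      · have := sq_tr (e := (1 : ℚ_[p])) hx1 s1 (by rwa [mul_one])
        simpa using this
    · refine wrap True False ?_ ?_
      · have := sq_tr hx0 s0 u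
        simpa using this
      · have := sq_tr hx1 s1 v
        simpa using this
    · refine wrap False True ?_ ?_
      · have := sq_tr hx0 s0 u
        simpa using this
      · have := sq_tr hx1 s1 v
        simpa using this
    · refine wrap True True ?_ ?_
      · have := sq_tr hx0 s0 u
        simpa using this
      · have := sq_tr hx1 s1 v
        rw [if_pos trivial, if_pos trivial]
        have e : (((d N * (-N * 2) : ℤ)) : ℚ_[p]) = (d N : ℚ_[p]) * -(2 * (N : ℚ_[p])) := by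
          push_cast
          ring
        rw [e]
        exact this
  have hap : ∀ q : ℕ, q.Prime → (q : ℤ) ∣ d N → q = 2 ∨ q ∈ T := by
    intro q hq hqd
    by_contra hcon
    push Not at hcon
    exact (hgood q hq hcon.1 hcon.2).1 hqd
  have hbp : ∀ q : ℕ, q.Prime → (q : ℤ) ∣ d 0 → q ∈ T := by
    intro q hq hqd
    by_contra hcon
    by_cases h2 : q = 2
    · subst h2
      exact htwo hqd
    · exact (hgood q hq h2 hcon).2 hqd
  have hmain := comb hT hsym ha hb hreal.1 hap hbp hbad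
  refine ⟨hreal.1, hreal.2, ?_, ?_, ?_⟩
  · intro q hq
    constructor
    · intro h
      rcases hap q hq h with h2 | h2
      · subst h2
        exact Or.inl ⟨rfl, by exact_mod_cast h⟩
      · exact Or.inr ⟨h2, (hmain q h2).1.1 h⟩
    · rintro (⟨h1, h2⟩ | ⟨h1, h2⟩)
      · subst h1
        exact_mod_cast h2
      · exact (hmain q h1).1.2 h2
  · intro q hq
    constructor
    · intro h
      have h2 := hbp q hq h
      exact ⟨h2, (hmain q h2).2.1 h⟩
    · rintro ⟨h1, h2⟩
      exact (hmain q h1).2.2 h2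
  · intro q hq
    have : Fact q.Prime := ⟨hq⟩
    obtain ⟨x, y, hy, hxy, hx0, hx1, hx2, s0, s1, s2⟩ := hlocq q
    have hprod : IsSquare (((d (-N) * (d N * d 0) : ℤ)) : ℚ_[q]) := by
      obtain ⟨u0, h0⟩ := s0
      obtain ⟨u1, h1⟩ := s1
      obtain ⟨u2, h2⟩ := s2
      refine ⟨u0 * u1 * u2 / y, ?_⟩
      rw [div_mul_div_comm, eq_div_iff (mul_ne_zero hy hy)]
      have e : y * y = x * (x - N) * (x + N) := by linear_combination hxy
      rw [e]
      push_cast
      calc (d (-N) : ℚ_[q]) * (d N * d 0) * (x * (x - N) * (x + N))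
          = (x * d 0) * ((x - N) * d N) * ((x + N) * d (-N)) := by ring
        _ = (u0 * u0) * (u1 * u1) * (u2 * u2) := by rw [h0, h1, h2]
        _ = _ := by ring
    rw [dvd_of_sq hc (mul_ne_zero ha.ne_zero hb.ne_zero) hprod,
      padicValInt.mul ha.ne_zero hb.ne_zero, Nat.odd_add, ← dvd_iff_odd ha, ← Nat.not_odd_iff_even,
      ← dvd_iff_odd hb]
    tauto

/-- the Selmer group has at most four elements -/
theorem sel_le {T : Finset ℕ} (hT : ∀ p ∈ T, p.Prime ∧ p % 8 = 3)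
    (hsym : ∀ p ∈ T, ∀ q ∈ T, p < q → ¬ IsSquare ((q : ℕ) : ZMod p)) :
    (SelR (-(∏ q ∈ T, (q : ℤ)) ^ 2) 0).Finite ∧ (SelR (-(∏ q ∈ T, (q : ℤ)) ^ 2) 0).ncard ≤ 4 := by
  classical
  set N : ℤ := ∏ q ∈ T, (q : ℤ) with hN
  set f : (ℤ → ℤ) → Bool × Bool := fun d => (decide (d 0 < 0), decide ((2 : ℤ) ∣ d N)) with hf
  have hinj : Set.InjOn f (SelR (-N ^ 2) 0) := by
    intro d hd d' hd' hdd
    obtain ⟨a1, a2, a3, a4, a5⟩ := sel_props hT hsym hN hd
    obtain ⟨b1, b2, b3, b4, b5⟩ := sel_props hT hsym hN hd'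
    obtain ⟨hsf, hone, -, -⟩ := hd
    obtain ⟨hsf', hone', -, -⟩ := hd'
    rw [hf] at hdd
    simp only [Prod.mk.injEq, decide_eq_decide] at hdd
    obtain ⟨h1, h2⟩ := hdd
    have habs : ∀ {z w : ℤ}, Squarefree z → Squarefree w → (∀ q : ℕ, q.Prime → ((q : ℤ) ∣ z ↔ (q : ℤ) ∣ w)) →
        (z < 0 ↔ w < 0) → z = w := by
      intro z w hz hw h hs
      have h3 : z.natAbs = w.natAbs := by
        rw [Nat.Squarefree.ext_iff (Int.squarefree_natAbs.2 hz) (Int.squarefree_natAbs.2 hw)]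
        intro q hq
        rw [← Int.natCast_dvd, ← Int.natCast_dvd]
        exact h q hq
      have hz0 := hz.ne_zero
      have hw0 := hw.ne_zero
      by_cases h4 : z < 0
      · have := hs.1 h4
        omega
      · have : ¬ w < 0 := fun h5 => h4 (hs.2 h5)
        omega
    have eN : d N = d' N := by
      refine habs (hsf N) (hsf' N) ?_ (a1.trans (h1.trans b1.symm))
      intro q hq
      rw [a3 q hq, b3 q hq, h1, h2]
    have e0 : d 0 = d' 0 := by
      refine habs (hsf 0) (hsf' 0) ?_ h1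
      intro q hq
      rw [a4 q hq, b4 q hq, h2]
    have eM : d (-N) = d' (-N) := by
      refine habs (hsf (-N)) (hsf' (-N)) ?_ ⟨fun h => by omega, fun h => by omega⟩
      intro q hq
      rw [a5 q hq, b5 q hq, eN, e0]
    funext e
    by_cases he : e ^ 3 + (-N ^ 2) * e + 0 = 0
    · rcases (root_iff N e).1 he with rfl | rfl | rfl
      · exact e0
      · exact eN
      · exact eM
    · rw [hone e he, hone' e he]
  have hfin : (SelR (-N ^ 2) 0).Finite := Set.Finite.of_finite_image (Set.toFinite _) hinj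
  refine ⟨hfin, ?_⟩
  rw [← hinj.ncard_image]
  refine (Set.ncard_le_ncard (Set.subset_univ _) Set.finite_univ).trans ?_
  rw [Set.ncard_univ, Nat.card_eq_fintype_card]
  decide

end Pool.Agent.R494.CN
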