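import Mathlib
import Pool.Agent.R494.CN3
import Pool.Agent.R494.BS1
import Pool.Agent.R494.QR9
import Pool.Agent.Y667.RZ.Sha
import Pool.Agent.W672.FK.Lowf
import Pool.Agent.Y723.QT.Rf
import Pool.Agent.Y687.MQ.Abs

set_option autoImplicit false

/-!
Rank and Tate-Shafarevich group of `y² = x³ - N² x` and of `y² = x³ - x` over multiquadratic fields.
-/

namespace Pool.Agent.R494.CN

open Finset
open Pool.Agent.W307.RT (Sh HasT)
open Pool.Agent.TH841.SH
open Pool.Agent.Y723.QT (Kl F2)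
open Pool.Agent.TH841.NF (EF)

/-- primes `≡ 3` modulo `8`, each of which is not a square modulo the smaller ones -/
def PSet (T : Finset ℕ) : Prop :=
  (∀ p ∈ T, p.Prime ∧ p % 8 = 3) ∧ ∀ p ∈ T, ∀ q ∈ T, p < q → ¬ IsSquare ((q : ℕ) : ZMod p)

theorem prod_pos' {T : Finset ℕ} (h : PSet T) : (0 : ℤ) < ∏ q ∈ T, (q : ℤ) :=
  prod_pos fun q hq => by exact_mod_cast (h.1 q hq).1.pos

theorem triv {T : Finset ℕ} (h : PSet T) :
    D.rk (Sh (-(∏ q ∈ T, (q : ℤ)) ^ 2) 0) = 0 ∧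
      ∀ (k : ℕ) (x : D.Sha (Sh (-(∏ q ∈ T, (q : ℤ)) ^ 2) 0)), (2 ^ k : ℕ) • x = 0 → x = 0 := by
  have hN := prod_pos' h
  obtain ⟨h1, h2⟩ := sel_le h.1 h.2
  set N : ℤ := ∏ q ∈ T, (q : ℤ) with hNd
  have hNq : (N : ℚ) ≠ 0 := by exact_mod_cast hN.ne'
  refine Pool.Agent.Y667.SHA.sha_zero4 (c := (-N ^ 2, 0)) ?_ ?_ h1 h2
  · show 4 * (-N ^ 2) ^ 3 + 27 * (0 : ℤ) ^ 2 ≠ 0
    have e : 4 * (-N ^ 2) ^ 3 + 27 * (0 : ℤ) ^ 2 = -4 * N ^ 6 := by ring
    rw [e]
    exact mul_ne_zero (by norm_num) (pow_ne_zero 6 hN.ne')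
  · refine Pool.Agent.W672.FK.hasT2 (a := 2 * N / 3) (b := N / 3) ?_ ?_ ?_ ?_ ?_
    · push_cast
      ring
    · push_cast
      ring
    · exact div_ne_zero (mul_ne_zero two_ne_zero hNq) three_ne_zero
    · exact div_ne_zero hNq three_ne_zero
    · have e : 2 * (N : ℚ) / 3 - N / 3 = N / 3 := by ring
      rw [e]
      exact div_ne_zero hNq three_ne_zero

theorem fin_of {a b : ℤ} (hD : 4 * a ^ 3 + 27 * b ^ 2 ≠ 0) (h : D.rk (Sh a b) = 0) :
    Finite (Sh a b).toAffine.Point := by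
  classical
  have hf : Module.Finite ℤ (Sh a b).toAffine.Point := by
    have := Pool.Agent.Y687.MQ.fg_EQ hD
    convert this using 0
    unfold Sh Pool.Agent.Y19.QT.EQ
    congr!
  unfold D.rk at h
  have h2 : Module.finrank ℤ (Sh a b).toAffine.Point = 0 := by
    convert h
  exact Module.finite_of_fg_torsion _ (Module.finrank_eq_zero_iff_isTorsion.1 h2)

theorem EQ_zero {a b : ℤ} (h : D.rk (Sh a b) = 0) :
    Module.finrank ℤ (Pool.Agent.Y19.QT.EQ a b) = 0 := by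
  classical
  unfold D.rk at h
  rw [← h]
  unfold Sh Pool.Agent.Y19.QT.EQ
  congr!

theorem finK {F : Type} [Field F] {a b : ℤ} (hf : Pool.Agent.Y19.QT.FinGenK F a b)
    (h : Pool.Agent.Y19.QT.rkK F a b = 0) : Finite (EF a b F).toAffine.Point := by
  classical
  have hf' : Module.Finite ℤ (EF a b F).toAffine.Point := by
    unfold Pool.Agent.Y19.QT.FinGenK at hf
    convert hf using 0
    unfold EF Pool.Agent.Y19.QT.EK
    congr!
  unfold Pool.Agent.Y19.QT.rkK at h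
  have h2 : Module.finrank ℤ (EF a b F).toAffine.Point = 0 := by
    rw [← h]
    unfold EF Pool.Agent.Y19.QT.EK
    congr!
  exact Module.finite_of_fg_torsion _ (Module.finrank_eq_zero_iff_isTorsion.1 h2)

/-- finiteness of the group of rational points -/
theorem triv_fin {T : Finset ℕ} (h : PSet T) :
    Finite (Sh (-(∏ q ∈ T, (q : ℤ)) ^ 2) 0).toAffine.Point ∧
      ∀ (k : ℕ) (x : D.Sha (Sh (-(∏ q ∈ T, (q : ℤ)) ^ 2) 0)), (2 ^ k : ℕ) • x = 0 → x = 0 := by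
  refine ⟨fin_of ?_ (triv h).1, (triv h).2⟩
  have hN := prod_pos' h
  set N : ℤ := ∏ q ∈ T, (q : ℤ) with hNd
  have e : 4 * (-N ^ 2) ^ 3 + 27 * (0 : ℤ) ^ 2 = -4 * N ^ 6 := by ring
  rw [e]
  exact mul_ne_zero (by norm_num) (pow_ne_zero 6 hN.ne')

/-- the generators `-1, p_1, …, p_k` -/
def gens {k : ℕ} (p : Fin k → ℕ) : Fin (k + 1) → ℤ := Fin.cons (-1) (fun i => (p i : ℤ))

/-- the primes in a set of generators -/
def PT {k : ℕ} (p : Fin k → ℕ) (T : Finset (Fin (k + 1))) : Finset ℕ :=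
  (univ.filter (fun j : Fin k => j.succ ∈ T)).image p

theorem prod_gens {k : ℕ} {p : Fin k → ℕ} (hp : Function.Injective p) (T : Finset (Fin (k + 1))) :
    ∏ i ∈ T, gens p i = (if (0 : Fin (k + 1)) ∈ T then -1 else 1) * ∏ q ∈ PT p T, (q : ℤ) := by
  classical
  have h1 : ∏ i ∈ T, gens p i = ∏ i : Fin (k + 1), if i ∈ T then gens p i else 1 := by
    rw [Finset.prod_ite_mem]
    simp
  rw [h1, Fin.prod_univ_succ]
  congr 1
  unfold PT
  rw [prod_image fun a _ b _ h => hp h, prod_filter]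
  rfl

theorem prod_gens_sq {k : ℕ} {p : Fin k → ℕ} (hp : Function.Injective p) (T : Finset (Fin (k + 1))) :
    (∏ i ∈ T, gens p i) ^ 2 = (∏ q ∈ PT p T, (q : ℤ)) ^ 2 := by
  rw [prod_gens hp, mul_pow]
  split_ifs <;> ring

theorem gens_ne {k : ℕ} {p : Fin k → ℕ} (hpp : ∀ i, (p i).Prime) (i : Fin (k + 1)) :
    gens p i ≠ 0 := by
  refine Fin.cases ?_ (fun j => ?_) i
  · show (-1 : ℤ) ≠ 0
    norm_num
  · show ((p j : ℕ) : ℤ) ≠ 0
    exact_mod_cast (hpp j).ne_zero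

/-- independence modulo squares -/
theorem ind_gens {k : ℕ} {p : Fin k → ℕ} (hp : Function.Injective p) (hpp : ∀ i, (p i).Prime) :
    Pool.Agent.Y19.QT.Indep (gens p) := by
  classical
  intro T hT hsq
  rw [prod_gens hp] at hsq
  have hpr : ∀ x ∈ PT p T, x.Prime := by
    intro x hx
    obtain ⟨i, _, rfl⟩ := mem_image.1 hx
    exact hpp i
  have hpos : (0 : ℤ) < ∏ q ∈ PT p T, (q : ℤ) := prod_pos fun q hq => by exact_mod_cast (hpr q hq).pos
  by_cases h0 : (0 : Fin (k + 1)) ∈ T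
  · rw [if_pos h0] at hsq
    have := hsq.nonneg
    linarith
  · rw [if_neg h0, one_mul] at hsq
    have hne : (PT p T).Nonempty := by
      obtain ⟨i, hi⟩ := hT
      have hi0 : i ≠ 0 := fun h => h0 (h ▸ hi)
      refine ⟨p (i.pred hi0), ?_⟩
      unfold PT
      refine mem_image_of_mem p ?_
      rw [mem_filter]
      exact ⟨mem_univ _, by rw [Fin.succ_pred]; exact hi⟩
    obtain ⟨s, hs⟩ := hsq
    have hsf : Squarefree (∏ q ∈ PT p T, q) := by
      refine Finset.squarefree_prod_of_pairwise_isCoprime ?_ ?_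
      · intro a ha b hb hab
        rw [Function.onFun, ← Nat.coprime_iff_isRelPrime]
        exact (Nat.coprime_primes (hpr a ha) (hpr b hb)).2 hab
      · intro x hx
        exact (hpr x hx).squarefree
    have h1 : ∏ q ∈ PT p T, q = s.natAbs * s.natAbs := by
      have h2 : ((∏ q ∈ PT p T, q : ℕ) : ℤ) = s * s := by
        rw [← hs]
        push_cast
        rfl
      have := congrArg Int.natAbs h2
      rwa [Int.natAbs_natCast, Int.natAbs_mul] at this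
    have h2 : IsUnit s.natAbs := hsf _ (by rw [← h1])
    rw [Nat.isUnit_iff.1 h2, mul_one] at h1
    obtain ⟨x, hx⟩ := hne
    have h3 : x ∣ 1 := by
      rw [← h1]
      exact dvd_prod_of_mem _ hx
    exact (hpr x hx).one_lt.ne' (Nat.dvd_one.1 h3)

/-- the field `ℚ(i, √p_1, …, √p_k)` -/
theorem field {k : ℕ} {p : Fin k → ℕ} (hp : Function.Injective p)
    (h : ∀ T : Finset (Fin (k + 1)), PSet (PT p T)) (hpp : ∀ i, (p i).Prime)
    (F : Type) [Field F] [NumberField F] (x : Fin (k + 1) → F) (hx : ∀ i, x i ^ 2 = (gens p i : F))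
    (hgen : IntermediateField.adjoin ℚ (Set.range x) = ⊤) :
    Module.finrank ℚ F = 2 ^ (k + 1) ∧ Finite (EF (-1) 0 F).toAffine.Point ∧
    F2 (Pool.Agent.TH841.NF.D.Sha (EF (-1) 0 F)) ∧
    Kl (Pool.Agent.TH841.NF.D.Sha (EF (-1) 0 F)) (k + 1) := by
  classical
  have hD : 4 * (-1 : ℤ) ^ 3 + 27 * (0 : ℤ) ^ 2 ≠ 0 := by norm_num
  have hd0 := gens_ne hpp
  have hkl : Kl (Pool.Agent.TH841.NF.D.Sha (EF (-1) 0 F)) (k + 1 + 0) := by
    refine Pool.Agent.Y723.QT.base_kl (r := x) (d := fun i => (gens p i : ℚ)) (fun i => ?_)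
      (fun i => by exact_mod_cast hd0 i) hgen fun T => ?_
    · rw [hx i, map_intCast]
    · rw [Pool.Agent.TH841.NF.tw_Sh]
      have e1 : (∏ i ∈ T, gens p i) ^ 2 * (-1) = -(∏ q ∈ PT p T, (q : ℤ)) ^ 2 := by
        rw [prod_gens_sq hp]
        ring
      have e2 : (∏ i ∈ T, gens p i) ^ 3 * 0 = 0 := mul_zero _
      rw [e1, e2]
      intro j y hy
      rw [(triv (h T)).2 j y hy, smul_zero]
  rw [add_zero] at hkl
  refine ⟨?_, ?_, ?_, hkl⟩
  · have := Pool.Agent.Y73.QMQ1.gal_of hx hgen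
    rw [← IsGalois.card_aut_eq_finrank]
    exact Pool.Agent.Y73.QMQ1.card_gal (ind_gens hp hpp) hx hgen
  · have hf := Pool.Agent.Y687.MQ.fg_gen F hD
    have h1 := Pool.Agent.Y687.MQ.rank_gen F (gens p) x hx hgen hd0 hD hf
    have hz : ∀ T : Finset (Fin (k + 1)), Module.finrank ℤ (Pool.Agent.Y19.QT.EQ
        (-1 * (∏ i ∈ T, gens p i) ^ 2) (0 * (∏ i ∈ T, gens p i) ^ 3)) = 0 := by
      intro T
      have e1 : -1 * (∏ i ∈ T, gens p i) ^ 2 = -(∏ q ∈ PT p T, (q : ℤ)) ^ 2 := by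
        rw [prod_gens_sq hp]
        ring
      have e2 : 0 * (∏ i ∈ T, gens p i) ^ 3 = 0 := zero_mul _
      rw [e1, e2]
      exact EQ_zero (triv (h T)).1
    rw [Finset.sum_eq_zero fun T _ => hz T] at h1
    exact finK hf (Nat.le_zero.1 h1)
  · have he : (0 : ℤ) ^ 3 + (-1) * 0 + 0 = 0 := by norm_num
    exact (Pool.Agent.Y723.QT.f2_iff (Pool.Agent.Y723.QT.tf_EF (F := F) hD he)).2 ⟨k + 1, hkl⟩

/-- consecutive primes -/
theorem consec (m r : ℕ) (hm : 0 < m) (h8 : 8 ∣ m) (hr : r.Coprime m) (hr3 : r % 8 = 3) (k : ℕ) :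
    ∃ C : ℕ, ∀ N0 : ℕ, ∃ s > N0, Nat.nth Nat.Prime (s + k) ≤ Nat.nth Nat.Prime s + C ∧
      (∀ i ≤ k, Nat.nth Nat.Prime (s + i) ≡ r [MOD m]) ∧
      ∀ T : Finset (Fin k), PSet (T.image fun i : Fin k => Nat.nth Nat.Prime (s + (i : ℕ))) := by
  classical
  obtain ⟨γ, -, -, C, hC⟩ := QR.main_stepC (k + 1) m r (by omega) hm
    ((by norm_num : 4 ∣ 8).trans h8) hr (fun _ _ => -1) (fun _ _ => Or.inr rfl)
  refine ⟨C, fun N0 => ?_⟩
  obtain ⟨s, hs, h1, h2, h3⟩ := hC N0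
  have hmon : StrictMono (Nat.nth Nat.Prime) := Nat.nth_strictMono Nat.infinite_setOfPred_prime
  refine ⟨s, hs, ?_, fun i hi => h2 i (by omega), fun T => ⟨?_, ?_⟩⟩
  · have := hmon.monotone (show s + k ≤ s + (k + 1) by omega)
    omega
  · intro p hp
    obtain ⟨i, _, rfl⟩ := mem_image.1 hp
    have hik := i.2
    have h4 : Nat.nth Nat.Prime (s + i) % 8 = r % 8 := (h2 i (by omega)).of_dvd h8
    exact ⟨Nat.prime_nth_prime _, by omega⟩
  · intro p hp q hq hpq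
    obtain ⟨i, _, rfl⟩ := mem_image.1 hp
    obtain ⟨j, _, rfl⟩ := mem_image.1 hq
    have hjk := j.2
    have hij : (i : ℕ) < j := by
      have := hmon.lt_iff_lt.1 hpq
      omega
    intro h
    have h5 := h3 i j hij (by omega)
    rw [(QR.sq_iff (Nat.prime_nth_prime _) (Nat.prime_nth_prime _) hpq).2 h] at h5
    norm_num at h5

end Pool.Agent.R494.CN
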