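import Mathlib
import Pool.Agent.W68.GapMain

set_option autoImplicit false

/-!
Sum systems of vectors of consecutive prime gaps with a further property of the vectors.
-/

namespace Pool.Agent.R494.Comb

open Finset Pool.Agent.H752R3.MT Pool.Agent.W68.Mil Pool.Agent.W68.Gap

/-- the block sums of coarsenings -/
theorem sum_comp (d : ℕ → ℕ) {Z F : ℕ → Finset ℕ} (hZ : Blk Z) (l : ℕ) :
    ∑ a ∈ (F l).biUnion Z, (d a : ℤ) = ∑ i ∈ F l, ∑ a ∈ Z i, (d a : ℤ) := by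
  classical
  refine sum_biUnion (fun i _ i' _ hii => ?_)
  simp only [Function.onFun]
  rw [Finset.disjoint_left]
  intro a ha hb
  rcases Nat.lt_or_gt_of_ne hii with h | h
  · exact absurd (hZ.lt h a ha a hb) (lt_irrefl a)
  · exact absurd (hZ.lt h a hb a ha) (lt_irrefl a)

/-- intersecting two closed families -/
theorem inter_families (g₁ g₂ : ℕ → (ℕ → Finset ℕ) → Prop)
    (hcl₁ : ∀ j Z, Blk Z → ¬ g₁ j Z →
      ∃ m, ∀ Z', Blk Z' → (∀ i < m, Z' i = Z i) → ¬ g₁ j Z')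
    (hex₁ : ∀ j X, Blk X → ∃ Y, Blk Y ∧ Le Y X ∧ g₁ j Y)
    (hcl₂ : ∀ j Z, Blk Z → ¬ g₂ j Z →
      ∃ m, ∀ Z', Blk Z' → (∀ i < m, Z' i = Z i) → ¬ g₂ j Z')
    (hex₂ : ∀ j X, Blk X → ∃ Y, Blk Y ∧ Le Y X ∧ g₂ j Y) :
    ∃ W, Blk W ∧ ∀ j Z, Blk Z → Le Z (fun i => W (j + i)) → g₁ j Z ∧ g₂ j Z := by
  refine closed_families (fun j Z => g₁ j Z ∧ g₂ j Z) ?_ ?_
  · intro j Z hZ hn
    by_cases h1 : g₁ j Z
    · have h2 : ¬ g₂ j Z := fun h2 => hn ⟨h1, h2⟩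
      obtain ⟨m, hm⟩ := hcl₂ j Z hZ h2
      exact ⟨m, fun Z' h3 h4 h5 => hm Z' h3 h4 h5.2⟩
    · obtain ⟨m, hm⟩ := hcl₁ j Z hZ h1
      exact ⟨m, fun Z' h3 h4 h5 => hm Z' h3 h4 h5.1⟩
  · intro j X hX
    obtain ⟨Y, hY, hYX, hYg⟩ := closed_family (g₁ j) (hcl₁ j) (hex₁ j) X hX
    obtain ⟨Z, hZ, hZY, hZg⟩ := hex₂ j Y hY
    exact ⟨Z, hZ, hZY.trans hYX, hYg Z hZ hZY, hZg⟩

/-- from the exact patterns attached to a block sequence to windows -/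
theorem good_window {d : ℕ → ℕ} (hd : ∀ a, 1 ≤ d a) {q : ℕ} (hq : 1 ≤ q) {b : ℤ}
    {Z : ℕ → Finset ℕ} (hZ : Blk Z) (hg : good d q b Z) (k R : ℕ)
    (hR : (R : ℤ) < ∑ a ∈ Z k, (d a : ℤ)) :
    {n : ℕ | (n : ℤ) ≡ b [ZMOD q] ∧
      ∀ y : ℤ, |y| ≤ R → (Nat.Prime ((n : ℤ) + y).toNat ↔
        ∃ m ≤ k, y = ∑ l ∈ range m, ∑ a ∈ Z l, (d a : ℤ))}.Infinite := by
  have hbig : ∀ m, k < m → (R : ℤ) < pos d Z m := by
    intro m hm
    have h1 : pos d Z (k + 1) ≤ pos d Z m := (pos_strictMono hd hZ).monotone hm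
    have h2 : (0 : ℤ) ≤ pos d Z k := le_trans (Int.natCast_nonneg k) (le_pos hd hZ k)
    rw [pos_succ] at h1
    linarith
  have h1 := window hq (r := b) (P := fun y => ∃ m, y = pos d Z m) (by
    have : {f : ℤ × ℤ | f.1 = (q : ℤ) ∧ ∃ m, f.2 - b = pos d Z m} =
        Set.range fun m => ((q : ℤ), b + pos d Z m) := by
      ext f
      simp only [Set.mem_ofPred_eq, Set.mem_range]
      constructor
      · rintro ⟨h1, m, h2⟩
        refine ⟨m, ?_⟩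
        ext
        · exact h1.symm
        · simp only
          linarith
      · rintro ⟨m, rfl⟩
        refine ⟨rfl, m, ?_⟩
        simp only
        ring
    rw [this]
    exact hg) R
  refine h1.mono ?_
  rintro n ⟨hn1, hn2⟩
  refine ⟨hn1, fun y hy => ?_⟩
  rw [hn2 y hy]
  constructor
  · rintro ⟨m, rfl⟩
    by_cases hm : m ≤ k
    · exact ⟨m, hm, rfl⟩
    · exfalso
      have h5 := hbig m (by omega)
      have h6 := le_abs_self (pos d Z m)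
      linarith
  · rintro ⟨m, hm, h2⟩
    exact ⟨m, by rw [h2]; rfl⟩

/-- A block sequence all whose vectors of block sums are gap vectors and have a property `P j k` of the first
`k` blocks. -/
theorem combine (d : ℕ → ℕ → ℕ) (hd : ∀ j a, 1 ≤ d j a) (q : ℕ → ℕ) (hq : ∀ j, 1 ≤ q j)
    (b : ℕ → ℤ) (hb : ∀ j, IsCoprime (b j) (q j : ℤ)) (P : (j k : ℕ) → (ℕ → ℤ) → Prop)
    (hP : ∀ j k g g', (∀ l < k, g l = g' l) → P j k g → P j k g')
    (hex : ∀ j (X : ℕ → Finset ℕ), Blk X → ∃ Y, Blk Y ∧ Le Y X ∧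
      ∀ k, P j k (fun l => ∑ a ∈ Y l, (d j a : ℤ))) :
    ∃ W : ℕ → Finset ℕ, (∀ i, (W i).Nonempty) ∧ (∀ i, ∀ a ∈ W i, ∀ a' ∈ W (i + 1), a < a') ∧
      ∀ (j k : ℕ) (T : ℕ → Finset ℕ), (∀ l < k, (T l).Nonempty) → (∀ l < k, ∀ i ∈ T l, j ≤ i) →
        (∀ l, l + 1 < k → ∀ i ∈ T l, ∀ i' ∈ T (l + 1), i < i') →
        (∀ R : ℕ, {n : ℕ | (n : ℤ) ≡ b j [ZMOD q j] ∧
          ∀ y : ℤ, |y| ≤ R → (Nat.Prime ((n : ℤ) + y).toNat ↔
            ∃ m ≤ k, y = ∑ l ∈ range m, ∑ i ∈ T l, ∑ a ∈ W i, (d j a : ℤ))}.Infinite) ∧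
        P j k (fun l => ∑ i ∈ T l, ∑ a ∈ W i, (d j a : ℤ)) := by
  classical
  obtain ⟨W, hW, hWg⟩ := inter_families (fun j => good (d j) (q j) (b j))
    (fun j Z => ∀ k, P j k (fun l => ∑ a ∈ Z l, (d j a : ℤ)))
    (fun j Z hZ hg => good_closed (hd j) (q j) (b j) Z hZ hg)
    (fun j X hX => good_exists (hd j) (q j) (hq j) (b j) (hb j) X hX)
    (fun j Z hZ hn => by
      push Not at hn
      obtain ⟨k, hk⟩ := hn
      refine ⟨k, fun Z' _ hZZ hR => hk ?_⟩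
      exact hP j k _ _ (fun l hl => by rw [hZZ l hl]) (hR k)) hex
  refine ⟨W, hW.1, hW.2, fun j k T hT1 hT2 hT3 => ?_⟩
  have key : ∀ R : ℕ, ∃ G : ℕ → Finset ℕ, Blk G ∧ (∀ l < k, G l = T l) ∧
      Le (fun l => (G l).biUnion W) (fun i => W (j + i)) ∧ R < (G k).card := by
    intro R
    obtain ⟨G, hG1, hG2, hG3, hG4⟩ := extend j k T hT1 hT2 hT3 R
    refine ⟨G, hG1, hG2, fun l => ?_, hG4⟩
    refine ⟨(G l).image (fun i => i - j), (hG1.1 l).image _, ?_⟩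
    rw [Finset.image_biUnion]
    refine Finset.biUnion_congr rfl fun i hi => ?_
    have := hG3 l i hi
    congr 1
    omega
  refine ⟨fun R => ?_, ?_⟩
  · obtain ⟨G, hG1, hG2, hG3, hG4⟩ := key R
    have hZB : Blk (fun l => (G l).biUnion W) := hG1.comp hW
    have hg := (hWg j _ hZB hG3).1
    have h3 : ((G k).card : ℤ) ≤ ∑ a ∈ (G k).biUnion W, (d j a : ℤ) := by
      rw [sum_comp (d j) hW]
      calc ((G k).card : ℤ) = ∑ _i ∈ G k, (1 : ℤ) := by simp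
        _ ≤ _ := Finset.sum_le_sum fun i _ => blk_sum_pos (hd j) (hW.1 i)
    have h4 : (R : ℤ) < (G k).card := by exact_mod_cast hG4
    refine (good_window (hd j) (hq j) hZB hg k R (by linarith)).mono ?_
    rintro n ⟨hn1, hn2⟩
    refine ⟨hn1, fun y hy => ?_⟩
    rw [hn2 y hy]
    have : ∀ m ≤ k, ∑ l ∈ range m, ∑ a ∈ (G l).biUnion W, (d j a : ℤ) =
        ∑ l ∈ range m, ∑ i ∈ T l, ∑ a ∈ W i, (d j a : ℤ) := by
      intro m hm
      refine sum_congr rfl fun l hl => ?_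
      rw [sum_comp (d j) hW, hG2 l (by have := mem_range.1 hl; omega)]
    constructor
    · rintro ⟨m, hm, h⟩
      exact ⟨m, hm, by rw [h, this m hm]⟩
    · rintro ⟨m, hm, h⟩
      exact ⟨m, hm, by rw [h, this m hm]⟩
  · obtain ⟨G, hG1, hG2, hG3, -⟩ := key 0
    have hZB : Blk (fun l => (G l).biUnion W) := hG1.comp hW
    have hg := (hWg j _ hZB hG3).2 k
    refine hP j k _ _ (fun l hl => ?_) hg
    rw [sum_comp (d j) hW, hG2 l hl]

end Pool.Agent.R494.Comb
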