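import Mathlib

set_option autoImplicit false

/-!
An infinite sequence of shifts whose differences have private primes.
-/

namespace Pool.Agent.R494.IQ

open Finset

/-- dependent choice for sequences of natural numbers -/
theorem exists_seq (P : ℕ → (ℕ → ℕ) → ℕ → Prop)
    (hdep : ∀ M (B B' : ℕ → ℕ) b, (∀ x < M, B x = B' x) → P M B b → P M B' b)
    (h : ∀ M (B : ℕ → ℕ), ∃ b, P M B b) : ∃ B : ℕ → ℕ, ∀ M, P M B (B M) := by
  classical
  choose f hf using h
  let G : ℕ → ℕ → ℕ := fun M => Nat.rec (fun _ => 0) (fun M g => Function.update g M (f M g)) M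
  have hG : ∀ M, G (M + 1) = Function.update (G M) M (f M (G M)) := fun M => rfl
  set B : ℕ → ℕ := fun x => G (x + 1) x with hB
  have hlt : ∀ M, ∀ x < M, G M x = B x := by
    intro M
    induction M with
    | zero => intro x hx; exact absurd hx (Nat.not_lt_zero x)
    | succ M ih =>
      intro x hx
      rcases Nat.lt_or_eq_of_le (Nat.lt_succ_iff.1 hx) with h | h
      · rw [hG, Function.update_of_ne (by omega)]
        exact ih x h
      · subst h
        rfl
  refine ⟨B, fun M => ?_⟩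
  have h1 : B M = f M (G M) := by
    rw [hB]
    simp only
    rw [hG, Function.update_self]
  rw [h1]
  exact hdep M (G M) B _ (hlt M) (hf M (G M))

/-- the moduli: the product of `m`, a factorial and four times the differences -/
def WW (m : ℕ) (B : ℕ → ℕ) : ℕ → ℕ
  | 0 => m
  | M + 1 => WW m B M * (M + 4).factorial * ∏ x ∈ range M, (4 * (B M - B x))

theorem WW_congr (m M : ℕ) (B B' : ℕ → ℕ) (h : ∀ x < M, B x = B' x) : WW m B M = WW m B' M := by
  induction M with
  | zero => rfl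
  | succ M ih =>
    rw [WW, WW, ih (fun x hx => h x (by omega))]
    congr 1
    refine prod_congr rfl fun x hx => ?_
    rw [h M (Nat.lt_succ_self M), h x (by have := mem_range.1 hx; omega)]

/-- the property of the next shift `b` -/
def Nxt (m M : ℕ) (B : ℕ → ℕ) (b : ℕ) : Prop :=
  WW m B M ∣ b ∧ (∀ x < M, B x < b) ∧ ∃ L : ℕ → ℕ, (∀ x < M, (L x).Prime ∧ L x % 4 = 1 ∧
    ¬ L x ∣ WW m B M ∧ 2 * M + 20 < L x ∧ L x ∣ b - B x ∧ ¬ L x ^ 2 ∣ b - B x) ∧
    (∀ x < M, ∀ y < M, x ≠ y → ¬ L x ∣ b - B y) ∧ (∀ x < M, ∀ y < M, B y < L x)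

theorem Nxt_congr (m M : ℕ) (B B' : ℕ → ℕ) (b : ℕ) (h : ∀ x < M, B x = B' x)
    (hN : Nxt m M B b) : Nxt m M B' b := by
  obtain ⟨h1, h2, L, h3, h4, h5⟩ := hN
  rw [WW_congr m M B B' h] at h1 h3
  refine ⟨h1, fun x hx => (h x hx) ▸ h2 x hx, L, fun x hx => ?_, fun x hx y hy hxy => ?_,
    fun x hx y hy => ?_⟩
  · rw [← h x hx]; exact h3 x hx
  · rw [← h y hy]; exact h4 x hx y hy hxy
  · rw [← h y hy]; exact h5 x hx y hy

theorem WW_pos (m M : ℕ) (B : ℕ → ℕ) (hm : 0 < m) (hB : ∀ x y, x < y → y < M → B x < B y) :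
    0 < WW m B M := by
  induction M with
  | zero => exact hm
  | succ M ih =>
    rw [WW]
    refine Nat.mul_pos (Nat.mul_pos (ih fun x y hxy hy => hB x y hxy (by omega))
      (Nat.factorial_pos _)) (prod_pos fun x hx => ?_)
    have := hB x M (mem_range.1 hx) (Nat.lt_succ_self M)
    omega

theorem exists_nxt (m M : ℕ) (B : ℕ → ℕ) (hm : 0 < m) (hB : ∀ x y, x < y → y < M → B x < B y) :
    ∃ b, Nxt m M B b := by
  classical
  have hW := WW_pos m M B hm hB
  set bd : ℕ := WW m B M + 2 * M + 20 + ∑ x ∈ range M, B x with hbd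
  have hinf : {p : ℕ | p.Prime ∧ p ≡ 1 [MOD 4] ∧ bd < p}.Infinite := by
    have h1 := (Nat.infinite_setOfPred_prime_modEq_one (k := 4) (by norm_num)).sdiff
      (Set.finite_Iic bd)
    refine h1.mono ?_
    rintro p ⟨⟨hp, hp1⟩, hp2⟩
    exact ⟨hp, hp1, not_le.1 hp2⟩
  set em := Set.Infinite.natEmbedding _ hinf with hem
  set L : ℕ → ℕ := fun x => (em x : ℕ) with hL
  have hLp : ∀ x, (L x).Prime := fun x => (em x).2.1
  have hL4 : ∀ x, L x % 4 = 1 := fun x => (em x).2.2.1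
  have hLB : ∀ x, bd < L x := fun x => (em x).2.2.2
  have hLinj : ∀ x y, L x = L y → x = y := fun x y h => em.injective (Subtype.ext h)
  have hBL : ∀ x, ∀ y < M, B y < L x := by
    intro x y hy
    have h1 := single_le_sum (f := fun z => B z) (fun _ _ => Nat.zero_le _) (mem_range.2 hy)
    have h2 := hLB x
    omega
  have hpw : Set.Pairwise ((range M : Finset ℕ) : Set ℕ) (Function.onFun Nat.Coprime (fun x => L x ^ 2)) := by
    intro x _ y _ hxy
    refine Nat.Coprime.pow _ _ ?_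
    rw [Nat.coprime_primes (hLp _) (hLp _)]
    exact fun h => hxy (hLinj x y h)
  obtain ⟨k, hk⟩ : ∃ k : ℕ, ∀ x ∈ range M, k ≡ B x + L x [MOD L x ^ 2] :=
    ⟨_, (Nat.chineseRemainderOfFinset (fun x => B x + L x) (fun x => L x ^ 2) (range M)
      (fun x _ => pow_ne_zero 2 (hLp _).pos.ne') hpw).2⟩
  set Q : ℕ := ∏ x ∈ range M, L x ^ 2 with hQ
  have hQ0 : 0 < Q := prod_pos fun x _ => pow_pos (hLp x).pos 2
  have hLW : ∀ x, ¬ L x ∣ WW m B M := by
    intro x hd
    have h1 := Nat.le_of_dvd hW hd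
    have h2 := hLB x
    omega
  have hcop : Nat.Coprime (WW m B M) Q := by
    refine Nat.Coprime.prod_right fun x _ => Nat.Coprime.pow_right 2 ?_
    rw [Nat.coprime_comm, (hLp x).coprime_iff_not_dvd]
    exact hLW x
  obtain ⟨b₀, hb1, hb2⟩ := Nat.chineseRemainder hcop 0 k
  set b : ℕ := b₀ + (WW m B M * Q) * (∑ x ∈ range M, B x + 1) with hb
  have hbW : b ≡ 0 [MOD WW m B M] := by
    have h1 : (WW m B M * Q) * (∑ x ∈ range M, B x + 1) ≡ 0 [MOD WW m B M] :=
      (Nat.modEq_zero_iff_dvd).2 ((Nat.dvd_mul_right _ _).mul_right _)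
    simpa using hb1.add h1
  have hbQ : ∀ x < M, b ≡ B x + L x [MOD L x ^ 2] := by
    intro x hx
    have hd : L x ^ 2 ∣ Q := dvd_prod_of_mem (fun x => L x ^ 2) (mem_range.2 hx)
    have h1 : (WW m B M * Q) * (∑ x ∈ range M, B x + 1) ≡ 0 [MOD L x ^ 2] :=
      (Nat.modEq_zero_iff_dvd).2 ((hd.mul_left _).mul_right _)
    have h2 := ((hb2.of_dvd hd).trans (hk x (mem_range.2 hx))).add h1
    simpa using h2
  have hBb : ∀ x < M, B x < b := by
    intro x hx
    have h1 := single_le_sum (f := fun z => B z) (fun _ _ => Nat.zero_le _) (mem_range.2 hx)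
    have h2 : 1 ≤ WW m B M * Q := Nat.mul_pos hW hQ0
    have h3 : ∑ x ∈ range M, B x + 1 ≤ (WW m B M * Q) * (∑ x ∈ range M, B x + 1) :=
      Nat.le_mul_of_pos_left _ h2
    omega
  have hbx : ∀ x < M, b ≡ B x [MOD L x] := by
    intro x hx
    have h1 := (hbQ x hx).of_dvd (dvd_pow_self (L x) (n := 2) (by norm_num))
    have h2 : L x ≡ 0 [MOD L x] := (Nat.modEq_zero_iff_dvd).2 dvd_rfl
    exact h1.trans (by simpa only [add_zero] using (Nat.ModEq.refl (B x)).add h2)
  refine ⟨b, (Nat.modEq_zero_iff_dvd).1 hbW, hBb, L, fun x hx => ⟨hLp x, hL4 x, hLW x, ?_, ?_, ?_⟩,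
    fun x hx y hy hxy hd => ?_, fun x hx y hy => hBL x y hy⟩
  · have := hLB x
    omega
  · exact (Nat.modEq_iff_dvd' (hBb x hx).le).1 (hbx x hx).symm
  · intro hd
    have h1 : B x ≡ b [MOD L x ^ 2] := (Nat.modEq_iff_dvd' (hBb x hx).le).2 hd
    have h2 : B x ≡ B x + L x [MOD L x ^ 2] := h1.trans (hbQ x hx)
    have h3 : L x ^ 2 ∣ B x + L x - B x := (Nat.modEq_iff_dvd' (Nat.le_add_right _ _)).1 h2
    rw [Nat.add_sub_cancel_left] at h3
    have h4 := Nat.le_of_dvd (hLp x).pos h3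
    have h5 := (hLp x).two_le
    nlinarith
  · have h1 : B y ≡ b [MOD L x] := (Nat.modEq_iff_dvd' (hBb y hy).le).2 hd
    have h2 : B y ≡ B x [MOD L x] := h1.trans (hbx x hx)
    have h3 := Nat.ModEq.eq_of_lt_of_lt h2 (hBL x y hy) (hBL x x hx)
    rcases Nat.lt_or_gt_of_ne hxy with h | h
    · have := hB x y h hy; omega
    · have := hB y x h hx; omega

/-- the sequence of shifts -/
theorem shifts (m : ℕ) (hm : 0 < m) : ∃ B : ℕ → ℕ, StrictMono B ∧ ∀ M, Nxt m M B (B M) := by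
  obtain ⟨B, hB⟩ := exists_seq (fun M B b => (∀ x y, x < y → y < M → B x < B y) → Nxt m M B b)
    (fun M B B' b h h1 h2 => Nxt_congr m M B B' b h (h1 fun x y hxy hy => by
      rw [h x (hxy.trans hy), h y hy]; exact h2 x y hxy hy))
    (fun M B => by
      by_cases h : ∀ x y, x < y → y < M → B x < B y
      · obtain ⟨b, hb⟩ := exists_nxt m M B hm h
        exact ⟨b, fun _ => hb⟩
      · exact ⟨0, fun h' => absurd h' h⟩)
  have hmono : ∀ M, ∀ x y, x < y → y < M → B x < B y := by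
    intro M
    induction M with
    | zero => intro x y _ hy; exact absurd hy (Nat.not_lt_zero y)
    | succ M ih =>
      intro x y hxy hy
      rcases Nat.lt_or_eq_of_le (Nat.lt_succ_iff.1 hy) with h | h
      · exact ih x y hxy h
      · subst h
        exact (hB y ih).2.1 x hxy
  exact ⟨B, fun x y hxy => hmono (y + 1) x y hxy (Nat.lt_succ_self y), fun M => hB M (hmono M)⟩

end Pool.Agent.R494.IQ
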