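import Mathlib
import Pool.Agent.R494.IQ1

set_option autoImplicit false

/-!
Residue classes with prescribed quadratic symbols of all differences of the sequence of shifts.
-/

namespace Pool.Agent.R494.IQ

open Finset NumberTheorySymbols

theorem avoid (l : ℕ) (hl : 0 < l) (V : Finset (ZMod l)) (hV : V.card < l) :
    ∃ t : ℕ, (t : ZMod l) ∉ V := by
  have : NeZero l := ⟨hl.ne'⟩
  have h1 : V.card < (univ : Finset (ZMod l)).card := by rwa [card_univ, ZMod.card]
  obtain ⟨t, _, ht⟩ := exists_mem_notMem_of_card_lt_card h1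
  exact ⟨t.val, by rwa [ZMod.natCast_zmod_val]⟩

/-- a number with prescribed quadratic symbol outside a small set -/
theorem pick (L : ℕ) (hL : L.Prime) (hL2 : L ≠ 2) (ε : ℤ) (hε : ε = 1 ∨ ε = -1)
    (V : Finset (ZMod L)) (hV : 2 * V.card + 1 < L) :
    ∃ t : ℕ, J((t : ℤ) | L) = ε ∧ (t : ZMod L) ∉ V := by
  classical
  have : Fact L.Prime := ⟨hL⟩
  obtain ⟨w, hw⟩ : ∃ w : ℤ, legendreSym L w = ε := by
    rcases hε with h | h
    · exact ⟨1, by rw [h]; simp⟩
    · have hne2 : ringChar (ZMod L) ≠ 2 := by rwa [ZMod.ringChar_zmod_n]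
      obtain ⟨t, ht⟩ := FiniteField.exists_nonsquare hne2
      refine ⟨t.val, ?_⟩
      rw [h, legendreSym.eq_neg_one_iff]
      simpa using ht
  have hw0 : ((w : ℤ) : ZMod L) ≠ 0 := by
    intro h
    rw [(legendreSym.eq_zero_iff L w).2 h] at hw
    rcases hε with h' | h' <;> rw [h'] at hw <;> norm_num at hw
  set S : Finset ℕ := Icc 1 ((L - 1) / 2) with hS
  set φ : ℕ → ZMod L := fun v => (w : ZMod L) * (v : ZMod L) ^ 2 with hφ
  have hinj : Set.InjOn φ (S : Set ℕ) := by
    intro v hv v' hv' h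
    rw [mem_coe, hS, mem_Icc] at hv hv'
    simp only [hφ] at h
    have h1 : ((v : ZMod L)) ^ 2 = (v' : ZMod L) ^ 2 := mul_left_cancel₀ hw0 h
    rcases sq_eq_sq_iff_eq_or_eq_neg.1 h1 with h2 | h2
    · have h3 := (ZMod.natCast_eq_natCast_iff v v' L).1 h2
      exact Nat.ModEq.eq_of_lt_of_lt h3 (by omega) (by omega)
    · exfalso
      have h3 : ((v + v' : ℕ) : ZMod L) = 0 := by
        push_cast
        rw [h2]; ring
      rw [ZMod.natCast_eq_zero_iff] at h3
      have := Nat.le_of_dvd (by omega) h3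
      omega
  have hcard : V.card < (S.image φ).card := by
    rw [card_image_of_injOn hinj, hS, Nat.card_Icc]
    have := hL.eq_two_or_odd
    omega
  obtain ⟨u, hu, huV⟩ := exists_mem_notMem_of_card_lt_card hcard
  obtain ⟨v, hv, rfl⟩ := mem_image.1 hu
  rw [hS, mem_Icc] at hv
  refine ⟨((w : ZMod L) * (v : ZMod L) ^ 2).val, ?_, ?_⟩
  · have hv0 : ((v : ℤ) : ZMod L) ≠ 0 := by
      intro h
      have h' : ((v : ℕ) : ZMod L) = 0 := by exact_mod_cast h
      rw [ZMod.natCast_eq_zero_iff] at h'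
      have := Nat.le_of_dvd (by omega) h'
      omega
    rw [← jacobiSym.legendreSym.to_jacobiSym]
    have h1 : legendreSym L ((((w : ZMod L) * (v : ZMod L) ^ 2).val : ℕ) : ℤ) =
        legendreSym L (w * v ^ 2) := by
      unfold legendreSym
      congr 1
      push_cast
      rw [ZMod.natCast_zmod_val]
    rw [h1, legendreSym.mul, legendreSym.sq_one' L hv0, mul_one, hw]
  · rw [ZMod.natCast_zmod_val]
    exact huV

/-- all primes up to `M + 2` divide the modulus -/
theorem small_dvd (m M : ℕ) (B : ℕ → ℕ) (h4 : 4 ∣ m) (l : ℕ) (hl : l.Prime)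
    (h : ¬ l ∣ WW m B M) : M + 2 < l := by
  cases M with
  | zero =>
    rw [WW] at h
    have h2 := hl.two_le
    by_contra hcon
    have h3 : l = 2 := by omega
    rw [h3] at h
    exact h ((by norm_num : 2 ∣ 4).trans h4)
  | succ M =>
    by_contra hcon
    apply h
    rw [WW]
    exact (((Nat.Prime.dvd_factorial hl).2 (by omega)).mul_left _).mul_right _

theorem dvd_WW (m : ℕ) (B : ℕ → ℕ) : ∀ M x y, x < y → y < M → 4 * (B y - B x) ∣ WW m B M := by
  intro M
  induction M with
  | zero => intro x y _ hy; exact absurd hy (Nat.not_lt_zero y)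
  | succ M ih =>
    intro x y hxy hy
    rw [WW]
    rcases Nat.lt_or_eq_of_le (Nat.lt_succ_iff.1 hy) with h | h
    · exact ((ih x y hxy h).mul_right _).mul_right _
    · subst h
      exact (dvd_prod_of_mem (fun x => 4 * (B y - B x)) (mem_range.2 hxy)).mul_left _

theorem m_dvd_WW (m : ℕ) (B : ℕ → ℕ) (M : ℕ) : m ∣ WW m B M := by
  induction M with
  | zero => exact dvd_rfl
  | succ M ih => rw [WW]; exact (ih.mul_right _).mul_right _

/-- coprimality through the prime factors -/
theorem coprime_of (a N : ℕ) (h : ∀ l : ℕ, l.Prime → l ∣ N → ¬ l ∣ a) : a.Coprime N := by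
  rw [Nat.coprime_iff_gcd_eq_one]
  by_contra hcon
  obtain ⟨p, hp, hpd⟩ := Nat.exists_prime_and_dvd hcon
  exact h p hp (hpd.trans (Nat.gcd_dvd_right _ _)) (hpd.trans (Nat.gcd_dvd_left _ _))

theorem classes (m r : ℕ) (hm : 0 < m) (h4 : 4 ∣ m) (hr : r.Coprime m) (B : ℕ → ℕ)
    (hB : StrictMono B) (hN : ∀ M, Nxt m M B (B M)) (c : ℕ → ℕ → ℤ)
    (hc : ∀ x y, c x y = 1 ∨ c x y = -1) : ∀ M, ∃ a : ℕ, a ≡ r [MOD m] ∧
      a.Coprime (WW m B M) ∧ (∀ x < M, (a + B x).Coprime (WW m B M)) ∧
      ∀ x y, x < y → y < M → J(((B y - B x : ℕ) : ℤ) | a + B x) = c x y := by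
  classical
  intro M
  induction M with
  | zero =>
    exact ⟨r, rfl, hr, fun x hx => absurd hx (Nat.not_lt_zero x),
      fun x y _ hy => absurd hy (Nat.not_lt_zero y)⟩
  | succ M ih =>
    obtain ⟨a, har, haW, haB, hasym⟩ := ih
    obtain ⟨hWb, hBb, L, hL, hL', hBL⟩ := hN M
    set W := WW m B M with hW
    have hW0 : 0 < W := WW_pos m M B hm fun x y hxy _ => hB hxy
    have h4W : 4 ∣ W := h4.trans (m_dvd_WW m B M)
    have hbW : B M ≡ 0 [MOD W] := (Nat.modEq_zero_iff_dvd).2 hWb
    set E : ℕ → ℕ := fun x => (B M - B x) / L x with hE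
    have hDE : ∀ x < M, B M - B x = L x * E x := fun x hx =>
      (Nat.mul_div_cancel' (hL x hx).2.2.2.2.1).symm
    have hD0 : ∀ x < M, 0 < B M - B x := fun x hx => Nat.sub_pos_of_lt (hBb x hx)
    have hE0 : ∀ x < M, 0 < E x := by
      intro x hx
      have h1 := hD0 x hx
      rw [hDE x hx] at h1
      exact Nat.pos_of_ne_zero (fun h => by rw [h, mul_zero] at h1; exact lt_irrefl _ h1)
    have hLE : ∀ x < M, ∀ y < M, ¬ L x ∣ E y := by
      intro x hx y hy hd
      by_cases hxy : x = y
      · subst hxy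
        apply (hL x hx).2.2.2.2.2
        rw [hDE x hx, sq]
        exact Nat.mul_dvd_mul_left _ hd
      · apply hL' x hx y hy hxy
        rw [hDE y hy]
        exact hd.mul_left _
    have hLinj : ∀ x < M, ∀ y < M, x ≠ y → (L x).Coprime (L y) := by
      intro x hx y hy hxy
      rw [Nat.coprime_primes (hL x hx).1 (hL y hy).1]
      intro h
      exact hL' x hx y hy hxy (h ▸ (hL y hy).2.2.2.2.1)
    -- the new primes
    set N₁ : ℕ := W * (M + 4).factorial * ∏ x ∈ range M, (4 * E x) with hN₁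
    have hN₁0 : 0 < N₁ := Nat.mul_pos (Nat.mul_pos hW0 (Nat.factorial_pos _))
      (prod_pos fun x hx => Nat.mul_pos (by norm_num) (hE0 x (mem_range.1 hx)))
    have hLN : ∀ x < M, ¬ L x ∣ N₁ := by
      intro x hx hd
      have hp := (hL x hx).1
      rcases (hp.dvd_mul).1 hd with h1 | h1
      · rcases (hp.dvd_mul).1 h1 with h2 | h2
        · exact (hL x hx).2.2.1 h2
        · have h3 := (hp.dvd_factorial).1 h2
          have h4 := (hL x hx).2.2.2.1
          omega
      · obtain ⟨y, hy, h2⟩ := (Prime.dvd_finsetProd_iff hp.prime _).1 h1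
        rcases (hp.dvd_mul).1 h2 with h3 | h3
        · have h5 := Nat.le_of_dvd (by norm_num) h3
          have h6 := (hL x hx).2.2.2.1
          omega
        · exact hLE x hx y (mem_range.1 hy) h3
    set S : Finset ℕ := N₁.primeFactors.filter (fun l => ¬ l ∣ W) with hS
    have hSp : ∀ l ∈ S, l.Prime ∧ ¬ l ∣ W := fun l hl =>
      ⟨Nat.prime_of_mem_primeFactors (mem_filter.1 hl).1, (mem_filter.1 hl).2⟩
    have ht : ∀ l, ∃ t : ℕ, l ∈ S → ¬ l ∣ t ∧ ∀ x ≤ M, ¬ l ∣ t + B x := by
      intro l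
      by_cases hl : l ∈ S
      · obtain ⟨hlp, hlW⟩ := hSp l hl
        obtain ⟨t, ht⟩ := avoid l hlp.pos
          (insert (0 : ZMod l) ((range (M + 1)).image (fun x => -((B x : ℕ) : ZMod l)))) (by
            have h1 := small_dvd m M B h4 l hlp hlW
            calc _ ≤ ((range (M + 1)).image (fun x => -((B x : ℕ) : ZMod l))).card + 1 :=
                  card_insert_le _ _
              _ ≤ (range (M + 1)).card + 1 := Nat.add_le_add_right card_image_le 1
              _ < l := by rw [card_range]; omega)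
        refine ⟨t, fun _ => ⟨fun hd => ht ?_, fun x hx hd => ht ?_⟩⟩
        · rw [(ZMod.natCast_eq_zero_iff t l).2 hd]
          exact mem_insert_self _ _
        · refine mem_insert_of_mem (mem_image.2 ⟨x, mem_range.2 (by omega), ?_⟩)
          rw [← ZMod.natCast_eq_zero_iff, Nat.cast_add] at hd
          exact (eq_neg_of_add_eq_zero_left hd).symm
      · exact ⟨0, fun h => absurd h hl⟩
    choose t ht using ht
    have hSpw : Set.Pairwise (S : Set ℕ) (Function.onFun Nat.Coprime (fun l : ℕ => l)) := by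
      intro x hx y hy hxy
      exact (Nat.coprime_primes (hSp x hx).1 (hSp y hy).1).2 hxy
    obtain ⟨k, hk⟩ : ∃ k : ℕ, ∀ l ∈ S, k ≡ t l [MOD l] :=
      ⟨_, (Nat.chineseRemainderOfFinset t (fun l => l) S (fun l hl => (hSp l hl).1.ne_zero) hSpw).2⟩
    have hcopS : Nat.Coprime W (∏ l ∈ S, l) := by
      refine Nat.Coprime.prod_right fun l hl => ?_
      rw [Nat.coprime_comm, (hSp l hl).1.coprime_iff_not_dvd]
      exact (hSp l hl).2
    obtain ⟨a₁, ha₁W, ha₁S⟩ := Nat.chineseRemainder hcopS a k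
    have ha₁t : ∀ l ∈ S, a₁ ≡ t l [MOD l] := fun l hl =>
      (ha₁S.of_dvd (dvd_prod_of_mem (fun l => l) hl)).trans (hk l hl)
    -- coprimality to `N₁`
    have hcop₁ : ∀ z : ℕ, (z = 0 ∨ ∃ x ≤ M, z = B x) → (a₁ + z).Coprime N₁ := by
      intro z hz
      apply coprime_of
      intro l hl hlN hd
      by_cases hlW : l ∣ W
      · -- the modulus `W`
        have h1 : (a₁ + z).Coprime W := by
          have h2 : a₁ + z ≡ a + z [MOD W] := ha₁W.add_right z
          rw [Nat.Coprime, h2.gcd_eq]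
          rcases hz with h | ⟨x, hx, h⟩
          · rw [h, add_zero]; exact haW
          · rcases Nat.lt_or_eq_of_le hx with h3 | h3
            · rw [h]; exact haB x h3
            · rw [h, h3]
              have h4 : a + B M ≡ a [MOD W] := by
                simpa only [add_zero] using (Nat.ModEq.refl a).add hbW
              rw [h4.gcd_eq]
              exact haW
        exact (Nat.Prime.not_coprime_iff_dvd).2 ⟨l, hl, hd, hlW⟩ h1
      · have hlS : l ∈ S := mem_filter.2 ⟨Nat.mem_primeFactors.2 ⟨hl, hlN, hN₁0.ne'⟩, hlW⟩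
        have h1 := (ha₁t l hlS).add_right z
        have h2 : t l + z ≡ 0 [MOD l] := h1.symm.trans ((Nat.modEq_zero_iff_dvd).2 hd)
        have h3 := (Nat.modEq_zero_iff_dvd).1 h2
        rcases hz with h | ⟨x, hx, h⟩
        · rw [h, add_zero] at h3
          exact (ht l hlS).1 h3
        · rw [h] at h3
          exact (ht l hlS).2 x hx h3
    have hodd₁ : ∀ x < M, Odd (a₁ + B x) := by
      intro x hx
      have h1 := hcop₁ (B x) (Or.inr ⟨x, hx.le, rfl⟩)
      have h2 : (2 : ℕ) ∣ N₁ := (((by norm_num : 2 ∣ 4).trans h4W).mul_right _).mul_right _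
      exact Nat.coprime_two_right.1 (Nat.Coprime.coprime_dvd_right h2 h1)
    have hEN : ∀ x < M, 4 * E x ∣ N₁ := fun x hx =>
      (dvd_prod_of_mem (fun x => 4 * E x) (mem_range.2 hx)).mul_left _
    have hcopE : ∀ x < M, Int.gcd (E x : ℤ) ((a₁ + B x : ℕ) : ℤ) = 1 := by
      intro x hx
      rw [Int.gcd_natCast_natCast]
      have h1 := hcop₁ (B x) (Or.inr ⟨x, hx.le, rfl⟩)
      exact (Nat.Coprime.coprime_dvd_right ((Nat.dvd_mul_left (E x) 4).trans (hEN x hx)) h1).symm
    -- the private primes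
    have hu : ∀ x, ∃ u : ℕ, x < M → J(((u + B x : ℕ) : ℤ) | L x) = c x M * J((E x : ℤ) | a₁ + B x) ∧
        ¬ L x ∣ u ∧ ∀ y ≤ M, ¬ L x ∣ u + B y := by
      intro x
      by_cases hx : x < M
      · have hval : c x M * J((E x : ℤ) | a₁ + B x) = 1 ∨ c x M * J((E x : ℤ) | a₁ + B x) = -1 := by
          rcases hc x M with h1 | h1 <;> rcases jacobiSym.eq_one_or_neg_one (hcopE x hx) with h2 | h2 <;>
            rw [h1, h2] <;> norm_num
        have hLp := (hL x hx).1
        have hL20 := (hL x hx).2.2.2.1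
        obtain ⟨v, hv1, hv2⟩ := pick (L x) hLp (by omega) _ hval
          (insert ((B x : ℕ) : ZMod (L x)) ((range (M + 1)).image
            (fun y => ((B x : ℕ) : ZMod (L x)) - ((B y : ℕ) : ZMod (L x))))) (by
            have h1 : (insert ((B x : ℕ) : ZMod (L x)) ((range (M + 1)).image
              (fun y => ((B x : ℕ) : ZMod (L x)) - ((B y : ℕ) : ZMod (L x))))).card ≤ M + 2 := by
              calc _ ≤ ((range (M + 1)).image
                    (fun y => ((B x : ℕ) : ZMod (L x)) - ((B y : ℕ) : ZMod (L x)))).card + 1 :=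
                    card_insert_le _ _
                _ ≤ (range (M + 1)).card + 1 := Nat.add_le_add_right card_image_le 1
                _ = M + 2 := by rw [card_range]
            omega)
        have hL1 : 1 ≤ L x := hLp.one_lt.le
        have e1 : v + (L x - 1) * B x + B x = v + L x * B x := by
          have : (L x - 1) * B x + B x = L x * B x := by
            calc (L x - 1) * B x + B x = (L x - 1 + 1) * B x := by ring
              _ = L x * B x := by rw [Nat.sub_add_cancel hL1]
          omega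
        have e2 : ∀ y, ((v + (L x - 1) * B x + B y : ℕ) : ZMod (L x)) =
            (v : ZMod (L x)) - (B x : ZMod (L x)) + (B y : ZMod (L x)) := by
          intro y
          push_cast [Nat.cast_sub hL1]
          simp
          ring
        refine ⟨v + (L x - 1) * B x, fun _ => ⟨?_, fun hd => hv2 ?_, fun y hy hd => hv2 ?_⟩⟩
        · rw [e1, ← hv1]
          apply jacobiSym.mod_left'
          push_cast
          rw [Int.add_mul_emod_self_left]
        · rw [← ZMod.natCast_eq_zero_iff] at hd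
          have e3 := e2 0
          rw [Nat.cast_add, hd] at e3
          have e4 : (v : ZMod (L x)) = (B x : ZMod (L x)) := by
            linear_combination -e3
          rw [e4]
          exact mem_insert_self _ _
        · rw [← ZMod.natCast_eq_zero_iff, e2 y] at hd
          refine mem_insert_of_mem (mem_image.2 ⟨y, mem_range.2 (by omega), ?_⟩)
          linear_combination -hd
      · exact ⟨0, fun h => absurd h hx⟩
    choose u hu using hu
    have hLpw : Set.Pairwise ((range M : Finset ℕ) : Set ℕ) (Function.onFun Nat.Coprime L) := by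
      intro x hx y hy hxy
      exact hLinj x (mem_range.1 hx) y (mem_range.1 hy) hxy
    obtain ⟨k₂, hk₂⟩ : ∃ k : ℕ, ∀ x ∈ range M, k ≡ u x [MOD L x] :=
      ⟨_, (Nat.chineseRemainderOfFinset u L (range M)
        (fun x hx => (hL x (mem_range.1 hx)).1.ne_zero) hLpw).2⟩
    have hcopL : Nat.Coprime N₁ (∏ x ∈ range M, L x) := by
      refine Nat.Coprime.prod_right fun x hx => ?_
      rw [Nat.coprime_comm, (hL x (mem_range.1 hx)).1.coprime_iff_not_dvd]
      exact hLN x (mem_range.1 hx)
    obtain ⟨a₂, ha₂N, ha₂L⟩ := Nat.chineseRemainder hcopL a₁ k₂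
    have ha₂u : ∀ x < M, a₂ ≡ u x [MOD L x] := fun x hx =>
      (ha₂L.of_dvd (dvd_prod_of_mem L (mem_range.2 hx))).trans (hk₂ x (mem_range.2 hx))
    have hWN : W ∣ N₁ := (Nat.dvd_mul_right _ _).mul_right _
    have ha₂W : a₂ ≡ a [MOD W] := (ha₂N.of_dvd hWN).trans ha₁W
    have hW' : WW m B (M + 1) = N₁ * ∏ x ∈ range M, L x := by
      rw [WW, ← hW, hN₁, mul_assoc _ (∏ x ∈ range M, (4 * E x)), ← prod_mul_distrib]
      congr 1
      refine prod_congr rfl fun x hx => ?_
      rw [hDE x (mem_range.1 hx)]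
      ring
    have hcop₂ : ∀ z : ℕ, (z = 0 ∨ ∃ x ≤ M, z = B x) → (a₂ + z).Coprime (WW m B (M + 1)) := by
      intro z hz
      rw [hW']
      refine Nat.Coprime.mul_right ?_ (Nat.Coprime.prod_right fun x hx => ?_)
      · have h2 : a₂ + z ≡ a₁ + z [MOD N₁] := ha₂N.add_right z
        rw [Nat.Coprime, h2.gcd_eq]
        exact hcop₁ z hz
      · have hx' := mem_range.1 hx
        rw [Nat.coprime_comm, (hL x hx').1.coprime_iff_not_dvd]
        intro hd
        have h1 := (ha₂u x hx').add_right z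
        have h2 : u x + z ≡ 0 [MOD L x] := h1.symm.trans ((Nat.modEq_zero_iff_dvd).2 hd)
        have h3 := (Nat.modEq_zero_iff_dvd).1 h2
        rcases hz with h | ⟨y, hy, h⟩
        · rw [h, add_zero] at h3
          exact (hu x hx').2.1 h3
        · rw [h] at h3
          exact (hu x hx').2.2 y hy h3
    have hodd₂ : ∀ x ≤ M, Odd (a₂ + B x) := by
      intro x hx
      have h1 := hcop₂ (B x) (Or.inr ⟨x, hx, rfl⟩)
      have h2 : (2 : ℕ) ∣ WW m B (M + 1) :=
        ((by norm_num : 2 ∣ 4).trans h4).trans (m_dvd_WW m B (M + 1))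
      exact Nat.coprime_two_right.1 (Nat.Coprime.coprime_dvd_right h2 h1)
    refine ⟨a₂, (ha₂W.of_dvd (m_dvd_WW m B M)).trans har, ?_, fun x hx => ?_, fun x y hxy hy => ?_⟩
    · simpa using hcop₂ 0 (Or.inl rfl)
    · exact hcop₂ (B x) (Or.inr ⟨x, by omega, rfl⟩)
    · rcases Nat.lt_or_eq_of_le (Nat.lt_succ_iff.1 hy) with h | h
      · rw [← hasym x y hxy h]
        have hxM : x < M := hxy.trans h
        have hodda : Odd (a + B x) := by
          have h2 : (2 : ℕ) ∣ W := (by norm_num : 2 ∣ 4).trans h4W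
          exact Nat.coprime_two_right.1 (Nat.Coprime.coprime_dvd_right h2 (haB x hxM))
        rw [jacobiSym.mod_right' _ (hodd₂ x hxM.le), jacobiSym.mod_right' _ hodda]
        have h5 : a₂ + B x ≡ a + B x [MOD 4 * (B y - B x)] :=
          (ha₂W.of_dvd (dvd_WW m B M x y hxy h)).add_right _
        rw [show (a₂ + B x) % (4 * (B y - B x)) = (a + B x) % (4 * (B y - B x)) from h5]
      · subst h
        have h2 : J((L x : ℤ) | a₂ + B x) = J(((u x + B x : ℕ) : ℤ) | L x) := by
          rw [jacobiSym.quadratic_reciprocity_one_mod_four (hL x hxy).2.1 (hodd₂ x hxy.le)]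
          apply jacobiSym.mod_left'
          have h3 : a₂ + B x ≡ u x + B x [MOD L x] := (ha₂u x hxy).add_right _
          exact_mod_cast h3
        have h3 : J((E x : ℤ) | a₂ + B x) = J((E x : ℤ) | a₁ + B x) := by
          rw [jacobiSym.mod_right' _ (hodd₂ x hxy.le), jacobiSym.mod_right' _ (hodd₁ x hxy)]
          have h4 : a₂ + B x ≡ a₁ + B x [MOD 4 * E x] := (ha₂N.of_dvd (hEN x hxy)).add_right _
          rw [show (a₂ + B x) % (4 * E x) = (a₁ + B x) % (4 * E x) from h4]
        have h4 := jacobiSym.sq_one (hcopE x hxy)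
        rw [hDE x hxy, Nat.cast_mul, jacobiSym.mul_left, h2, h3, (hu x hxy).1, mul_assoc, ← sq, h4,
          mul_one]

end Pool.Agent.R494.IQ
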