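import Mathlib
import Pool.Agent.R494.QR4

set_option autoImplicit false

/-!
Infinite patterns of binary digits in dense subsets of infinitely many levels.
-/

namespace Pool.Agent.R494.IQ

open Finset

/-- the members with prescribed digits -/
def Sub (B : ℕ → Finset ℕ) (s : ℕ) (x : ℕ → ℕ) (w : ℕ → Bool) (j : ℕ) : Finset ℕ :=
  (B j).filter (fun y => ∀ i < s, Nat.testBit y (x i) = w i)

theorem Sub_congr (B : ℕ → Finset ℕ) (s : ℕ) (x x' : ℕ → ℕ) (w w' : ℕ → Bool) (j : ℕ)
    (hx : ∀ i < s, x i = x' i) (hw : ∀ i < s, w i = w' i) : Sub B s x w j = Sub B s x' w' j := by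
  unfold Sub
  refine filter_congr fun y _ => ?_
  constructor
  · intro h i hi; rw [← hx i hi, ← hw i hi]; exact h i hi
  · intro h i hi; rw [hx i hi, hw i hi]; exact h i hi

theorem Sub_succ (B : ℕ → Finset ℕ) (s : ℕ) (x : ℕ → ℕ) (w : ℕ → Bool) (j : ℕ) :
    Sub B (s + 1) x w j = (Sub B s x w j).filter (fun y => Nat.testBit y (x s) = w s) := by
  unfold Sub
  rw [filter_filter]
  refine filter_congr fun y _ => ?_
  constructor
  · intro h
    exact ⟨fun i hi => h i (by omega), h s (Nat.lt_succ_self s)⟩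
  · rintro ⟨h1, h2⟩ i hi
    rcases Nat.lt_or_eq_of_le (Nat.lt_succ_iff.1 hi) with h | h
    · exact h1 i h
    · rw [h]; exact h2

/-- the state of the construction -/
structure St (t : ℕ → ℕ) (K : Set ℕ) (B : ℕ → Finset ℕ) (G : ℕ → ℕ → Bool) where
  s : ℕ
  x : ℕ → ℕ
  lv : ℕ → ℕ
  K' : Set ℕ
  d : ℕ
  sub : K' ⊆ K
  inf : K'.Infinite
  mem : ∀ i < s, lv i ∈ K ∧ x i ∈ B (lv i)
  gt : ∀ i < s, ∀ j ∈ K', lv i < j
  mono : ∀ i j, i < j → j < s → lv i < lv j
  pat : ∀ i j, i < j → j < s → Nat.testBit (x j) (x i) = G i j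
  big : ∀ j ∈ K', ∀ w : ℕ → Bool, 2 ^ t j ≤ (Sub B s x w j).card * 2 ^ d

theorem t_mono {t : ℕ → ℕ} (ht : ∀ j, 2 ^ t j ≤ t (j + 1)) : StrictMono t :=
  strictMono_nat_of_lt_succ fun j => lt_of_lt_of_le Nat.lt_two_pow_self (ht j)

open Classical in
/-- the unbalanced digits -/
noncomputable def Bad (t : ℕ → ℕ) (B : ℕ → Finset ℕ) (s : ℕ) (x : ℕ → ℕ) (b j : ℕ) : Finset ℕ :=
  (range s).powerset.biUnion (fun U => (range (t j)).filter (fun c => ∃ v : Bool,
    2 * (b + 1) * ((Sub B s x (fun i => decide (i ∈ U)) j).filter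
      (fun y => Nat.testBit y c = v)).card < (Sub B s x (fun i => decide (i ∈ U)) j).card))

theorem step {t : ℕ → ℕ} (ht : ∀ j, 2 ^ t j ≤ t (j + 1)) {K : Set ℕ} {B : ℕ → Finset ℕ}
    (hB : ∀ j ∈ K, ∀ y ∈ B j, y < 2 ^ t j) {G : ℕ → ℕ → Bool} (σ : St t K B G) :
    ∃ σ' : St t K B G, σ'.s = σ.s + 1 ∧ (∀ i < σ.s, σ'.x i = σ.x i) ∧
      ∀ i < σ.s, σ'.lv i = σ.lv i := by
  classical
  have htm := t_mono ht
  set b := σ.d + 1 with hb
  set nb := 2 ^ σ.s * b with hnb
  -- the bad digits are few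
  have hBad : ∀ j ∈ σ.K', (Bad t B σ.s σ.x b j).card ≤ nb := by
    intro j hj
    refine card_biUnion_le.trans ?_
    calc _ ≤ ∑ _U ∈ (range σ.s).powerset, b := by
          refine sum_le_sum fun U _ => ?_
          refine QR.bad_few (t j) b _ (fun y hy => hB j (σ.sub hj) y (mem_filter.1 hy).1) ?_
          have h1 := σ.big j hj (fun i => decide (i ∈ U))
          have h2 : 0 < 2 ^ t j := by positivity
          rw [hb, pow_succ, ← mul_assoc]
          omega
      _ = nb := by rw [sum_const, card_powerset, card_range, smul_eq_mul]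
  -- the level of the new point
  obtain ⟨js, hjs, hjs2⟩ := σ.inf.exists_gt (nb + σ.d)
  set B' := Sub B σ.s σ.x (fun i => G i σ.s) js with hB'
  have hB'c : nb < B'.card := by
    have h1 : 2 ^ t js ≤ B'.card * 2 ^ σ.d := σ.big js hjs (fun i => G i σ.s)
    have h2 : nb + σ.d + 1 ≤ t js := hjs2.trans_le (htm.id_le js)
    have h3 : 2 ^ (nb + 1) * 2 ^ σ.d ≤ 2 ^ t js := by
      rw [← pow_add]
      exact Nat.pow_le_pow_right (by norm_num) (by omega)
    have h4 := Nat.le_of_mul_le_mul_right (h3.trans h1) (by positivity)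
    have h5 : nb + 1 < 2 ^ (nb + 1) := Nat.lt_two_pow_self
    omega
  have hgood : ∀ j ∈ σ.K' ∩ {j | js < j}, ∃ y ∈ B', y ∉ Bad t B σ.s σ.x b j := by
    intro j hj
    exact exists_mem_notMem_of_card_lt_card ((hBad j hj.1).trans_lt hB'c)
  have hinf : (σ.K' ∩ {j | js < j}).Infinite := by
    have h1 := σ.inf.sdiff (Set.finite_Iic js)
    refine h1.mono ?_
    rintro j ⟨h2, h3⟩
    have h4 : js < j := by simpa using h3
    exact ⟨h2, h4⟩
  obtain ⟨y, hyB', hy⟩ : ∃ y ∈ B', {j ∈ σ.K' ∩ {j | js < j} | y ∉ Bad t B σ.s σ.x b j}.Infinite := by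
    by_contra hcon
    push Not at hcon
    refine hinf ((Set.Finite.biUnion B'.finite_toSet (fun y hy => hcon y hy)).subset ?_)
    intro j hj
    obtain ⟨y, hy1, hy2⟩ := hgood j hj
    exact Set.mem_biUnion (mem_coe.2 hy1) ⟨hj, hy2⟩
  have hyB : y ∈ B js ∧ ∀ i < σ.s, Nat.testBit y (σ.x i) = G i σ.s := mem_filter.1 hyB'
  refine ⟨{ s := σ.s + 1
            x := Function.update σ.x σ.s y
            lv := Function.update σ.lv σ.s js
            K' := {j ∈ σ.K' ∩ {j | js < j} | y ∉ Bad t B σ.s σ.x b j}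
            d := 2 * σ.d + 3
            sub := fun j hj => σ.sub hj.1.1
            inf := hy
            mem := ?_
            gt := ?_
            mono := ?_
            pat := ?_
            big := ?_ }, rfl, fun i hi => ?_, fun i hi => ?_⟩
  · intro i hi
    rcases Nat.lt_or_eq_of_le (Nat.lt_succ_iff.1 hi) with h | h
    · rw [Function.update_of_ne (by omega), Function.update_of_ne (by omega)]
      exact σ.mem i h
    · rw [h, Function.update_self, Function.update_self]
      exact ⟨σ.sub hjs, hyB.1⟩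
  · intro i hi j hj
    rcases Nat.lt_or_eq_of_le (Nat.lt_succ_iff.1 hi) with h | h
    · rw [Function.update_of_ne (by omega)]
      exact σ.gt i h j hj.1.1
    · rw [h, Function.update_self]
      exact hj.1.2
  · intro i j hij hj
    rcases Nat.lt_or_eq_of_le (Nat.lt_succ_iff.1 hj) with h | h
    · rw [Function.update_of_ne (by omega), Function.update_of_ne (by omega)]
      exact σ.mono i j hij h
    · rw [h, Function.update_self, Function.update_of_ne (by omega)]
      exact σ.gt i (by omega) js hjs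
  · intro i j hij hj
    rcases Nat.lt_or_eq_of_le (Nat.lt_succ_iff.1 hj) with h | h
    · rw [Function.update_of_ne (by omega), Function.update_of_ne (by omega)]
      exact σ.pat i j hij h
    · rw [h, Function.update_self, Function.update_of_ne (by omega)]
      exact hyB.2 i (by omega)
  · intro j hj w
    obtain ⟨⟨hj1, hj2⟩, hj3⟩ := hj
    have hj2' : js < j := hj2
    rw [Sub_succ, Function.update_self, Sub_congr B σ.s _ σ.x w
      (fun i => decide (i ∈ (range σ.s).filter (fun i => w i = true))) j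
      (fun i hi => Function.update_of_ne (by omega) _ _)
      (fun i hi => by simp [hi])]
    set U := (range σ.s).filter (fun i => w i = true) with hU
    set C := Sub B σ.s σ.x (fun i => decide (i ∈ U)) j with hC
    have hyt : y < t j := by
      have h1 := hB js (σ.sub hjs) y hyB.1
      have h2 := ht js
      have h3 : t (js + 1) ≤ t j := htm.monotone hj2'
      omega
    have h1 : C.card ≤ 2 * (b + 1) * (C.filter (fun z => Nat.testBit z y = w σ.s)).card := by
      by_contra hcon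
      push Not at hcon
      apply hj3
      refine mem_biUnion.2 ⟨U, mem_powerset.2 (filter_subset _ _), mem_filter.2
        ⟨mem_range.2 hyt, w σ.s, hcon⟩⟩
    have h2 := σ.big j hj1 (fun i => decide (i ∈ U))
    have h4 : 2 * (b + 1) ≤ 2 ^ (σ.d + 3) := by
      have h5 : σ.d + 1 + 1 < 2 ^ (σ.d + 1 + 1) := Nat.lt_two_pow_self
      have h6 : 2 ^ (σ.d + 3) = 2 * 2 ^ (σ.d + 1 + 1) := by ring
      omega
    calc 2 ^ t j ≤ C.card * 2 ^ σ.d := h2
      _ ≤ 2 * (b + 1) * (C.filter (fun z => Nat.testBit z y = w σ.s)).card * 2 ^ σ.d :=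
          Nat.mul_le_mul_right _ h1
      _ ≤ 2 ^ (σ.d + 3) * (C.filter (fun z => Nat.testBit z y = w σ.s)).card * 2 ^ σ.d :=
          Nat.mul_le_mul_right _ (Nat.mul_le_mul_right _ h4)
      _ = _ := by ring
  · exact Function.update_of_ne (by omega) _ _
  · exact Function.update_of_ne (by omega) _ _

theorem infPattern (d : ℕ) (t : ℕ → ℕ) (ht : ∀ j, 2 ^ t j ≤ t (j + 1)) (K : Set ℕ) (hK : K.Infinite)
    (B : ℕ → Finset ℕ) (hB : ∀ j ∈ K, (∀ y ∈ B j, y < 2 ^ t j) ∧ 2 ^ t j ≤ (B j).card * 2 ^ d)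
    (G : ℕ → ℕ → Bool) :
    ∃ lv x : ℕ → ℕ, StrictMono lv ∧ (∀ i, lv i ∈ K ∧ x i ∈ B (lv i)) ∧
      ∀ i j, i < j → Nat.testBit (x j) (x i) = G i j := by
  classical
  have hB1 : ∀ j ∈ K, ∀ y ∈ B j, y < 2 ^ t j := fun j hj => (hB j hj).1
  choose f hf1 hf2 hf3 using fun σ : St t K B G => step ht hB1 σ
  let σ0 : St t K B G :=
    { s := 0, x := fun _ => 0, lv := fun _ => 0, K' := K, d := d, sub := fun _ h => h, inf := hK
      mem := fun i hi => absurd hi (Nat.not_lt_zero i)
      gt := fun i hi => absurd hi (Nat.not_lt_zero i)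
      mono := fun i j _ hj => absurd hj (Nat.not_lt_zero j)
      pat := fun i j _ hj => absurd hj (Nat.not_lt_zero j)
      big := fun j hj w => by
        have h1 : Sub B 0 (fun _ => 0) w j = B j := by
          unfold Sub
          exact filter_true_of_mem fun y _ i hi => absurd hi (Nat.not_lt_zero i)
        rw [h1]
        exact (hB j hj).2 }
  let σ : ℕ → St t K B G := fun k => Nat.rec σ0 (fun _ z => f z) k
  have hσ : ∀ k, σ (k + 1) = f (σ k) := fun k => rfl
  have hs : ∀ k, (σ k).s = k := by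
    intro k
    induction k with
    | zero => rfl
    | succ k ih => rw [hσ, hf1, ih]
  have hx : ∀ i k, i < k → (σ k).x i = (σ (i + 1)).x i := by
    intro i k hik
    induction k, hik using Nat.le_induction with
    | base => rfl
    | succ k hk ih => rw [hσ k, hf2 (σ k) i (by rw [hs]; exact hk), ih]
  have hl : ∀ i k, i < k → (σ k).lv i = (σ (i + 1)).lv i := by
    intro i k hik
    induction k, hik using Nat.le_induction with
    | base => rfl
    | succ k hk ih => rw [hσ k, hf3 (σ k) i (by rw [hs]; exact hk), ih]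
  refine ⟨fun i => (σ (i + 1)).lv i, fun i => (σ (i + 1)).x i, fun i j hij => ?_, fun i => ?_,
    fun i j hij => ?_⟩
  · have h1 := (σ (j + 1)).mono i j hij (lt_of_lt_of_eq (Nat.lt_succ_self j) (hs (j + 1)).symm)
    rw [hl i (j + 1) (by omega)] at h1
    exact h1
  · exact (σ (i + 1)).mem i (lt_of_lt_of_eq (Nat.lt_succ_self i) (hs (i + 1)).symm)
  · have h1 := (σ (j + 1)).pat i j hij (lt_of_lt_of_eq (Nat.lt_succ_self j) (hs (j + 1)).symm)
    rw [hx i (j + 1) (by omega)] at h1
    exact h1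

end Pool.Agent.R494.IQ
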