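import Mathlib
import Pool.Agent.H361R2.InfMain
import Pool.Agent.H361R2.InfB3

set_option autoImplicit false

/-!
The limit measure of an infinite system of linear forms, and the intersectivity lemma with a density in
prescribed finite families of blocks.
-/

namespace Pool.Agent.R494.IQ

open Finset Filter Topology
open Pool.Agent.H361R2.Inf

theorem lim_meas (off : ℕ → ℕ) (hoff : StrictMono off) (c : ℝ) (hBM : BlockMeas off c) (A B : ℕ → ℤ)
    (hA : ∀ i, 1 ≤ A i) (hne : ∀ i j, i ≠ j → A i * B j ≠ A j * B i)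
    (W r : ℕ → ℕ) (hW : ∀ J, 1 ≤ W J) (hWp : ∀ J, ∀ p : ℕ, p.Prime → p ≤ off J + 1 → p ∣ W J)
    (hcop : ∀ J, ∀ i < off J, IsCoprime (A i * r J + B i) (W J : ℤ))
    (hcop' : ∀ i, IsCoprime (A i) (B i)) :
    ∃ m : Set ℕ → ℝ, FMeas m ∧ m Set.univ ≤ 2 ∧
      (∀ t, c ≤ m {n | ∃ i ∈ Ico (off t) (off (t + 1)), Nat.Prime (A i * n + B i).toNat}) ∧
      ∀ S : Set ℕ, 0 < m S → ∀ N : ℕ, ∃ J, N ≤ J ∧ {n | n ∈ S ∧ n ≡ r J [MOD W J]}.Infinite := by
  have hone := T3_one off hoff c hBM A B hA hne W r hW hWp hcop hcop'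
  choose M hM hM2 hMc hMS using hone
  set U : Ultrafilter ℕ := Ultrafilter.of atTop with hU
  have hUle : (U : Filter ℕ) ≤ atTop := Ultrafilter.of_le _
  have hlim : ∀ S : Set ℕ, ∃ l : ℝ, Tendsto (fun J => M J S) U (𝓝 l) := by
    intro S
    have hc1 : IsCompact (Set.Icc (0 : ℝ) 2) := isCompact_Icc
    have h1 : ((U.map (fun J => M J S) : Ultrafilter ℝ) : Filter ℝ) ≤ 𝓟 (Set.Icc (0 : ℝ) 2) := by
      rw [le_principal_iff, Ultrafilter.mem_coe, Ultrafilter.mem_map]
      apply Filter.univ_mem'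
      intro J
      exact ⟨(hM J).nonneg S, (T3_mono (hM J) (Set.subset_univ S)).trans (hM2 J)⟩
    obtain ⟨l, _, hl⟩ := hc1.ultrafilter_le_nhds _ h1
    exact ⟨l, hl⟩
  choose m hm using hlim
  have hmF : FMeas m := by
    refine ⟨fun S => ?_, fun S T hST => ?_, fun S hS => ?_⟩
    · exact ge_of_tendsto' (hm S) fun J => (hM J).nonneg S
    · have h1 := (hm S).add (hm T)
      have h2 := hm (S ∪ T)
      have h3 : (fun J => M J (S ∪ T)) = fun J => M J S + M J T := by
        ext J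
        exact (hM J).add S T hST
      rw [h3] at h2
      exact tendsto_nhds_unique h2 h1
    · have h1 := hm S
      have h2 : (fun J => M J S) = fun _ => 0 := by
        ext J
        exact (hM J).fin S hS
      rw [h2] at h1
      exact tendsto_nhds_unique h1 tendsto_const_nhds
  refine ⟨m, hmF, le_of_tendsto' (hm Set.univ) hM2, fun t => ?_, fun S hS N => ?_⟩
  · apply ge_of_tendsto (hm _)
    have h1 : ∀ᶠ J in (U : Filter ℕ), t < J := hUle (eventually_gt_atTop t)
    filter_upwards [h1] with J hJ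
    exact hMc J t hJ
  · have h2 : ∀ᶠ J in (U : Filter ℕ), 0 < M J S := (hm S).eventually (lt_mem_nhds hS)
    have h3 : ∀ᶠ J in (U : Filter ℕ), N ≤ J := hUle (eventually_ge_atTop N)
    obtain ⟨J, hJ1, hJ2⟩ := (h2.and h3).exists
    exact ⟨J, hJ2, hMS J S hJ1⟩

open Classical in
/-- the blocks of `T` which meet `I` -/
noncomputable def Met (off : ℕ → ℕ) (T : Finset ℕ) (I : Set ℕ) : Finset ℕ :=
  T.filter (fun t => ∃ i ∈ Ico (off t) (off (t + 1)), i ∈ I)

theorem mem_Met {off : ℕ → ℕ} {T : Finset ℕ} {I : Set ℕ} {t : ℕ} :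
    t ∈ Met off T I ↔ t ∈ T ∧ ∃ i ∈ Ico (off t) (off (t + 1)), i ∈ I := by
  unfold Met
  simp only [Finset.mem_filter]

theorem comb3 (m : Set ℕ → ℝ) (hm : FMeas m) (hm2 : m Set.univ ≤ 2) (off : ℕ → ℕ)
    (hoff : StrictMono off) (E : ℕ → Set ℕ) (c : ℝ) (hc : 0 < c) (T : ℕ → Finset ℕ)
    (hT : ∀ l, (T l).Nonempty)
    (hB : ∀ l, ∀ t ∈ T l, c ≤ m {n | ∃ i ∈ Ico (off t) (off (t + 1)), n ∈ E i}) :
    ∃ I : Set ℕ, (∃ᶠ l : ℕ in atTop, c / 8 * (T l).card ≤ ((Met off (T l) I).card : ℝ)) ∧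
      ∀ N : ℕ, 0 < m {n | ∀ i < N, (n ∈ E i ↔ i ∈ I)} := by
  set A : ℕ → Set ℕ := fun t => {n | ∃ i ∈ Ico (off t) (off (t + 1)), n ∈ E i} with hA
  refine comb2 m hm E (fun l => off ((T l).sup id + 1))
    (fun l => {I | c / 8 * (T l).card ≤ ((Met off (T l) I).card : ℝ)}) ?_ (c / 2)
    (by positivity) ?_
  · intro l I I' hII
    have e : Met off (T l) I = Met off (T l) I' := by
      ext t
      rw [mem_Met, mem_Met]
      refine and_congr_right fun ht => ?_
      have hle : off (t + 1) ≤ off ((T l).sup id + 1) := by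
        apply hoff.monotone
        have := le_sup (f := id) ht
        simp only [id] at this
        omega
      constructor
      · rintro ⟨i, hi, h⟩
        have hi' := Finset.mem_Ico.1 hi
        exact ⟨i, hi, (hII i (by omega)).mp h⟩
      · rintro ⟨i, hi, h⟩
        have hi' := Finset.mem_Ico.1 hi
        exact ⟨i, hi, (hII i (by omega)).mpr h⟩
    simp only [Set.mem_ofPred_eq, e]
  · intro l
    set j := (T l).card with hj
    have hj1 : 0 < j := (hT l).card_pos
    have hj0 : (0 : ℝ) < j := by exact_mod_cast hj1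
    set e : ℕ → ℕ := fun k => if h : k < j then (T l).orderEmbOfFin hj.symm ⟨k, h⟩ else 0 with he
    have heT : ∀ k < j, e k ∈ T l := by
      intro k hk
      simp only [he, dif_pos hk]
      exact orderEmbOfFin_mem _ _ _
    have heinj : ∀ k < j, ∀ k' < j, e k = e k' → k = k' := by
      intro k hk k' hk' h
      simp only [he, dif_pos hk, dif_pos hk'] at h
      have := ((T l).orderEmbOfFin hj.symm).injective h
      exact congrArg Fin.val this
    set G : Set ℕ := {n | {i | n ∈ E i} ∈ {I : Set ℕ | c / 8 * j ≤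
      ((Met off (T l) I).card : ℝ)}} with hG
    have hGmem : ∀ n, n ∉ G → ∀ F : Finset ℕ, F ⊆ range j → (∀ k ∈ F, n ∈ A (e k)) →
        (F.card : ℝ) < c / 8 * j := by
      intro n hn F hF hFA
      simp only [hG, Set.mem_ofPred_eq, not_le] at hn
      refine lt_of_le_of_lt ?_ hn
      apply Nat.cast_le.2
      have h1 : F.card = (F.image e).card := by
        rw [card_image_of_injOn]
        intro k hk k' hk' h
        exact heinj k (mem_range.1 (hF hk)) k' (mem_range.1 (hF hk')) h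
      rw [h1]
      apply Finset.card_le_card
      intro t ht
      obtain ⟨k, hk, rfl⟩ := mem_image.1 ht
      rw [mem_Met]
      exact ⟨heT k (mem_range.1 (hF hk)), hFA k hk⟩
    have hsplit : ∀ t, m (A t) = m (Gᶜ ∩ A t) + m (G ∩ A t) := by
      intro t
      rw [← hm.add]
      · congr 1
        ext n
        simp only [Set.mem_inter_iff, Set.mem_union, Set.mem_compl_iff]
        tauto
      · rw [Set.disjoint_left]
        rintro n ⟨h1, _⟩ ⟨h2, _⟩
        exact h1 h2
    have h1 : ∑ k ∈ range j, m (Gᶜ ∩ A (e k)) ≤ (⌊c / 8 * j⌋₊ : ℝ) * m Gᶜ := by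
      apply B3.sum_le hm (fun k => A (e k)) j
      intro n hn F hF hFA
      exact Nat.le_floor (hGmem n hn F hF hFA).le
    have h2 : ∑ k ∈ range j, m (G ∩ A (e k)) ≤ j * m G := by
      calc ∑ k ∈ range j, m (G ∩ A (e k)) ≤ ∑ k ∈ range j, m G :=
            Finset.sum_le_sum fun t _ => T1.mono hm Set.inter_subset_left
        _ = j * m G := by rw [Finset.sum_const, Finset.card_range, nsmul_eq_mul]
    have h3 : (j : ℝ) * c ≤ ∑ k ∈ range j, m (A (e k)) := by
      calc (j : ℝ) * c = ∑ k ∈ range j, c := by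
            rw [Finset.sum_const, Finset.card_range, nsmul_eq_mul]
        _ ≤ _ := Finset.sum_le_sum fun k hk => hB l (e k) (heT k (mem_range.1 hk))
    have h4 : (⌊c / 8 * j⌋₊ : ℝ) * m Gᶜ ≤ c / 8 * j * 2 := by
      have hfl : (⌊c / 8 * j⌋₊ : ℝ) ≤ c / 8 * j := Nat.floor_le (by positivity)
      have hGc : m Gᶜ ≤ 2 := (T1.mono hm (Set.subset_univ _)).trans hm2
      exact mul_le_mul hfl hGc (hm.nonneg _) (by positivity)
    have h5 : ∑ k ∈ range j, m (A (e k)) =
        ∑ k ∈ range j, m (Gᶜ ∩ A (e k)) + ∑ k ∈ range j, m (G ∩ A (e k)) := by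
      rw [← Finset.sum_add_distrib]
      exact Finset.sum_congr rfl fun k _ => hsplit (e k)
    have h6 : (j : ℝ) * c ≤ c / 8 * j * 2 + j * m G := by linarith
    by_contra hlt
    push Not at hlt
    have h7 : (j : ℝ) * m G < j * (c / 2) := by
      apply mul_lt_mul_of_pos_left hlt hj0
    nlinarith

end Pool.Agent.R494.IQ
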