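import Mathlib
import Pool.Agent.R494.IQ2
import Pool.Agent.R494.IQ3
import Pool.Agent.R494.IQ4
import Pool.Agent.R494.QR5
import Pool.Agent.R494.QR8

set_option autoImplicit false

/-!
Infinite partial sumsets in the primes with prescribed quadratic residues.
-/

namespace Pool.Agent.R494.IQ

open Finset Filter Topology NumberTheorySymbols
open Pool.Agent.H361R2.Inf

/-- the place of `i` -/
noncomputable def loc (off : ℕ → ℕ) (i : ℕ) : ℕ := sInf {t | i < off (t + 1)}

theorem loc_eq {off : ℕ → ℕ} (hoff : StrictMono off) {t i : ℕ} (h : off t ≤ i) (h' : i < off (t + 1)) :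
    loc off i = t := by
  have h1 : loc off i ∈ {t | i < off (t + 1)} := Nat.sInf_mem ⟨t, h'⟩
  have h2 : loc off i ≤ t := Nat.sInf_le h'
  by_contra hne
  have h3 : loc off i + 1 ≤ t := by omega
  have h4 : off (loc off i + 1) ≤ off t := hoff.monotone h3
  have h5 : i < off (loc off i + 1) := h1
  omega

/-- the first blocks of the levels -/
noncomputable def O : ℕ → ℕ
  | 0 => 0
  | j + 1 => O j + QR.sz 0 j

theorem O_mono : StrictMono O := strictMono_nat_of_lt_succ fun j => by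
  have := QR.sz_pos 0 j
  rw [O]
  omega

/-- the type of a block -/
noncomputable def typ (t : ℕ) : ℕ := QR.tow 0 (loc O t) + (t - O (loc O t))

theorem typ_eq {j t : ℕ} (h : t ∈ Ico (O j) (O (j + 1))) : typ t = QR.tow 0 j + (t - O j) := by
  rw [mem_Ico] at h
  rw [typ, loc_eq O_mono h.1 h.2]

theorem typ_lt {j t : ℕ} (h : t ∈ Ico (O j) (O (j + 1))) : typ t < 2 ^ QR.tow 0 j := by
  rw [typ_eq h]
  rw [mem_Ico, O] at h
  have h1 : QR.sz 0 j = 2 ^ QR.tow 0 j - QR.tow 0 j := rfl
  have h2 := QR.two_mul_le_two_pow (QR.tow 0 j) (QR.tow_pos 0 j)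
  omega

theorem typ_inj {j t t' : ℕ} (h : t ∈ Ico (O j) (O (j + 1))) (h' : t' ∈ Ico (O j) (O (j + 1)))
    (he : typ t = typ t') : t = t' := by
  rw [typ_eq h, typ_eq h'] at he
  rw [mem_Ico] at h h'
  omega

theorem infinite4 (G : SimpleGraph ℕ) (m r C : ℕ) (hm : 0 < m) (h4 : 4 ∣ m) (hr : r.Coprime m)
    (hC : 0 < C) (f : ℕ → Fin C) : ∃ (s : Fin C) (a : ℕ → ℕ), StrictMono a ∧ ∀ k : ℕ,
      {n : ℕ | (∀ i ≤ k, (n + a i).Prime ∧ n + a i ≡ r [MOD m] ∧ f (n + a i) = s) ∧
        ∀ i j, i < j → j ≤ k →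
          (G.Adj i j ↔ IsSquare ((n + a j : ℕ) : ZMod (n + a i)))}.Infinite := by
  classical
  obtain ⟨off, hoff, h0, hBM⟩ := exists_blockMeas
  obtain ⟨B, hB, hN⟩ := shifts m hm
  set e : ℕ → ℕ → Bool := fun x y => Nat.testBit (typ (loc off y)) (typ (loc off x)) with he
  set cc : ℕ → ℕ → ℤ := fun x y => if e x y = true then 1 else -1 with hcc
  have hcc1 : ∀ x y, cc x y = 1 ∨ cc x y = -1 := by
    intro x y
    simp only [hcc]
    split_ifs <;> simp
  choose a ha1 ha2 ha3 ha4 using classes m r hm h4 hr B hB hN cc hcc1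
  obtain ⟨μ, hμ, hμ2, hμc, hμS⟩ := lim_meas off hoff (1 / 200) hBM (fun _ => 1) (fun i => (B i : ℤ))
    (fun _ => le_rfl) (by
      intro i j hij h
      apply hij
      rw [one_mul, one_mul, Nat.cast_inj] at h
      exact (hB.injective h).symm)
    (fun J => WW m B (off J)) (fun J => a (off J))
    (fun J => WW_pos m (off J) B hm fun x y hxy _ => hB hxy)
    (fun J p hp hpJ => by
      by_contra hcon
      have := small_dvd m (off J) B h4 p hp hcon
      omega)
    (fun J i hi => by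
      have h1 := ha3 (off J) i hi
      rw [one_mul]
      exact_mod_cast Nat.isCoprime_iff_coprime.2 h1)
    (fun _ => isCoprime_one_left)
  have htn : ∀ n i : ℕ, ((1 : ℤ) * n + (B i : ℤ)).toNat = n + B i := by
    intro n i
    rw [show ((1 : ℤ) * n + (B i : ℤ)) = ((n + B i : ℕ) : ℤ) by push_cast; ring, Int.toNat_natCast]
  simp only [htn] at hμc
  -- the colours of the blocks
  have hC0 : (0 : ℝ) < C := by exact_mod_cast hC
  have hcol : ∀ t, ∃ s : Fin C, 1 / 200 / (C : ℝ) ≤
      μ {n | ∃ i ∈ Ico (off t) (off (t + 1)), (n + B i).Prime ∧ f (n + B i) = s} := by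
    intro t
    by_contra hcon
    push Not at hcon
    have h1 : {n | ∃ i ∈ Ico (off t) (off (t + 1)), (n + B i).Prime} ⊆
        ⋃ s ∈ (univ : Finset (Fin C)),
          {n | ∃ i ∈ Ico (off t) (off (t + 1)), (n + B i).Prime ∧ f (n + B i) = s} := by
      rintro n ⟨i, hi, hp⟩
      simp only [Set.mem_iUnion]
      exact ⟨f (n + B i), mem_univ _, i, hi, hp, rfl⟩
    have h2 := (hμc t).trans ((T1.mono hμ h1).trans (T1.biUnion_le hμ _ _))
    have h3 : ∑ s ∈ (univ : Finset (Fin C)),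
        μ {n | ∃ i ∈ Ico (off t) (off (t + 1)), (n + B i).Prime ∧ f (n + B i) = s} <
        ∑ _s ∈ (univ : Finset (Fin C)), 1 / 200 / (C : ℝ) :=
      sum_lt_sum_of_nonempty ⟨⟨0, hC⟩, mem_univ _⟩ fun s _ => hcon s
    rw [sum_const, card_univ, Fintype.card_fin, nsmul_eq_mul] at h3
    have h4 : (C : ℝ) * (1 / 200 / C) = 1 / 200 := by field_simp
    linarith
  choose s hs using hcol
  -- the colours of the levels
  have hlev : ∀ j, ∃ u : Fin C, QR.sz 0 j ≤
      C * ((Ico (O j) (O (j + 1))).filter (fun t => s t = u)).card := by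
    intro j
    by_contra hcon
    push Not at hcon
    have h1 : (Ico (O j) (O (j + 1))).card = ∑ u : Fin C,
        ((Ico (O j) (O (j + 1))).filter (fun t => s t = u)).card :=
      card_eq_sum_card_fiberwise (fun _ _ => mem_coe.2 (mem_univ _))
    have h2 : ∑ u : Fin C, C * ((Ico (O j) (O (j + 1))).filter (fun t => s t = u)).card <
        ∑ _u : Fin C, QR.sz 0 j :=
      sum_lt_sum_of_nonempty ⟨⟨0, hC⟩, mem_univ _⟩ fun u _ => hcon u
    rw [← mul_sum, ← h1, Nat.card_Ico, sum_const, card_univ, Fintype.card_fin, smul_eq_mul] at h2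
    have h3 : O (j + 1) - O j = QR.sz 0 j := by rw [O]; omega
    rw [h3] at h2
    exact lt_irrefl _ h2
  choose u hu using hlev
  obtain ⟨ss, hss⟩ : ∃ ss : Fin C, {j | u j = ss}.Infinite := by
    by_contra hcon
    push Not at hcon
    refine Set.infinite_univ ((Set.finite_iUnion hcon).subset ?_)
    intro j _
    exact Set.mem_iUnion.2 ⟨u j, rfl⟩
  obtain ⟨κ, hκ, hκu⟩ := Filter.extraction_of_frequently_atTop (Nat.frequently_atTop_iff_infinite.2 hss)
  set T : ℕ → Finset ℕ := fun j => (Ico (O j) (O (j + 1))).filter (fun t => s t = ss) with hT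
  have hTc : ∀ l, QR.sz 0 (κ l) ≤ C * (T (κ l)).card := by
    intro l
    have h1 := hu (κ l)
    rw [hκu l] at h1
    exact h1
  obtain ⟨I, hI1, hI2⟩ := comb3 μ hμ hμ2 off hoff (fun i => {n | (n + B i).Prime ∧ f (n + B i) = ss})
    (1 / 200 / C) (by positivity) (fun l => T (κ l))
    (fun l => by
      rw [← card_pos]
      have h1 := hTc l
      have h2 := QR.sz_pos 0 (κ l)
      by_contra hcon
      have h3 : (T (κ l)).card = 0 := by omega
      rw [h3, mul_zero] at h1
      omega)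
    (fun l t ht => by
      have h1 := hs t
      rw [(mem_filter.1 ht).2] at h1
      exact h1)
  -- the dense levels
  set K : Set ℕ := κ '' {l | 1 / 200 / (C : ℝ) / 8 * (T (κ l)).card ≤ ((Met off (T (κ l)) I).card : ℝ)}
    with hK
  have hKinf : K.Infinite :=
    (Nat.frequently_atTop_iff_infinite.1 hI1).image hκ.injective.injOn
  obtain ⟨lv, x, hlv, hx, hpat⟩ := infPattern (12 + 2 * C) (QR.tow 0) (fun j => le_rfl) K hKinf
    (fun j => (Met off (T j) I).image typ)
    (by
      rintro j ⟨l, hl, rfl⟩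
      have hmem : ∀ t ∈ Met off (T (κ l)) I, t ∈ Ico (O (κ l)) (O (κ l + 1)) := fun t ht =>
        (mem_filter.1 (mem_Met.1 ht).1).1
      constructor
      · intro y hy
        obtain ⟨t, ht, rfl⟩ := mem_image.1 hy
        exact typ_lt (hmem t ht)
      · rw [card_image_of_injOn (fun t ht t' ht' h => typ_inj (hmem t ht) (hmem t' ht') h)]
        have h1 : 1 / 200 / (C : ℝ) / 8 * (T (κ l)).card ≤ ((Met off (T (κ l)) I).card : ℝ) := hl
        have h2 : ((T (κ l)).card : ℝ) ≤ 1600 * C * (Met off (T (κ l)) I).card := by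
          have h3 : 1 / 200 / (C : ℝ) / 8 * (T (κ l)).card = (T (κ l)).card / (1600 * C) := by
            field_simp
            ring
          rw [h3, div_le_iff₀ (by positivity)] at h1
          linarith
        have h3 : (T (κ l)).card ≤ 1600 * C * (Met off (T (κ l)) I).card := by exact_mod_cast h2
        have h4 := hTc l
        have h5 := QR.sz_ge 0 (κ l)
        have h6 : C < 2 ^ C := Nat.lt_two_pow_self
        calc 2 ^ QR.tow 0 (κ l) ≤ 2 * QR.sz 0 (κ l) := h5
          _ ≤ 2 * (C * (T (κ l)).card) := Nat.mul_le_mul_left _ h4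
          _ ≤ 2 * (C * (1600 * C * (Met off (T (κ l)) I).card)) :=
              Nat.mul_le_mul_left _ (Nat.mul_le_mul_left _ h3)
          _ = (Met off (T (κ l)) I).card * (3200 * (C * C)) := by ring
          _ ≤ (Met off (T (κ l)) I).card * (2 ^ 12 * (2 ^ C * 2 ^ C)) :=
              Nat.mul_le_mul_left _ (Nat.mul_le_mul (by norm_num) (Nat.mul_le_mul h6.le h6.le))
          _ = _ := by ring)
    (fun i j => decide (G.Adj i j))
  -- the shifts
  have hz : ∀ i, ∃ t z : ℕ, t ∈ Ico (O (lv i)) (O (lv i + 1)) ∧ typ t = x i ∧ off t ≤ z ∧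
      z < off (t + 1) ∧ z ∈ I := by
    intro i
    obtain ⟨t, ht, hty⟩ := mem_image.1 (hx i).2
    obtain ⟨h1, z, hz, hzI⟩ := mem_Met.1 ht
    rw [mem_Ico] at hz
    exact ⟨t, z, (mem_filter.1 h1).1, hty, hz.1, hz.2, hzI⟩
  choose τ z hτ hτx hz1 hz2 hzI using hz
  have hτlt : ∀ i j, i < j → τ i < τ j := by
    intro i j hij
    have h1 := mem_Ico.1 (hτ i)
    have h2 := mem_Ico.1 (hτ j)
    have h3 : O (lv i + 1) ≤ O (lv j) := O_mono.monotone (hlv hij)
    omega
  have hzlt : ∀ i j, i < j → z i < z j := by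
    intro i j hij
    have h1 := hτlt i j hij
    have h2 : off (τ i + 1) ≤ off (τ j) := hoff.monotone h1
    have h3 := hz2 i
    have h4 := hz1 j
    omega
  have hsym : ∀ i j, i < j → cc (z i) (z j) = if G.Adj i j then 1 else -1 := by
    intro i j hij
    simp only [hcc, he]
    rw [loc_eq hoff (hz1 i) (hz2 i), loc_eq hoff (hz1 j) (hz2 j), hτx, hτx, hpat i j hij]
    by_cases h : G.Adj i j <;> simp [h]
  refine ⟨ss, fun i => B (z i), fun i j hij => hB (hzlt i j hij), fun k => ?_⟩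
  obtain ⟨J, hJ, hinf⟩ := hμS _ (hI2 (z k + 1)) (z k + 1)
  have hoffJ : z k < off J := by
    have := hoff.id_le J
    simp only [id] at this
    omega
  refine (hinf.sdiff (Set.finite_Iic 0)).mono ?_
  rintro n ⟨⟨hn1, hn2⟩, hn3⟩
  have hzk : ∀ i ≤ k, z i ≤ z k := by
    intro i hi
    rcases Nat.lt_or_eq_of_le hi with h | h
    · exact (hzlt i k h).le
    · rw [h]
  have hmem : ∀ i ≤ k, (n + B (z i)).Prime ∧ f (n + B (z i)) = ss := by
    intro i hi
    have h1 := hzk i hi
    exact (hn1 (z i) (by omega)).2 (hzI i)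
  have hmW : m ∣ WW m B (off J) := m_dvd_WW m B (off J)
  refine ⟨fun i hi => ⟨(hmem i hi).1, ?_, (hmem i hi).2⟩, fun i j hij hj => ?_⟩
  · have h1 : n ≡ r [MOD m] := (hn2.of_dvd hmW).trans (ha1 (off J))
    have h2 : B (z i) ≡ 0 [MOD m] := (Nat.modEq_zero_iff_dvd).2
      ((m_dvd_WW m B (z i)).trans (hN (z i)).1)
    simpa only [add_zero] using h1.add h2
  · have hpi := (hmem i (hij.le.trans hj)).1
    have hpj := (hmem j hj).1
    have hBlt := hB (hzlt i j hij)
    have hzj := hzk j hj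
    rw [← QR.sq_iff hpi hpj (by omega)]
    have hodda : Odd (a (off J) + B (z i)) := by
      have h1 := ha3 (off J) (z i) (by have := hzlt i j hij; omega)
      have h2 : (2 : ℕ) ∣ WW m B (off J) := ((by norm_num : 2 ∣ 4).trans h4).trans hmW
      exact Nat.coprime_two_right.1 (Nat.Coprime.coprime_dvd_right h2 h1)
    have hcong : n + B (z i) ≡ a (off J) + B (z i) [MOD 4 * (B (z j) - B (z i))] :=
      (hn2.of_dvd (dvd_WW m B (off J) (z i) (z j) (hzlt i j hij) (by omega))).add_right _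
    have hodd : Odd (n + B (z i)) := by
      have h1 : n + B (z i) ≡ a (off J) + B (z i) [MOD 2] :=
        hcong.of_dvd ((by norm_num : (2 : ℕ) ∣ 4).mul_right _)
      rw [Nat.odd_iff] at hodda ⊢
      rw [← hodda]
      exact h1
    have h1 : J(((n + B (z j) : ℕ) : ℤ) | n + B (z i)) =
        J(((B (z j) - B (z i) : ℕ) : ℤ) | n + B (z i)) := by
      apply jacobiSym.mod_left'
      have h2 : ((n + B (z j) : ℕ) : ℤ) =
          ((B (z j) - B (z i) : ℕ) : ℤ) + ((n + B (z i) : ℕ) : ℤ) := by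
        rw [← Nat.cast_add]
        congr 1
        omega
      rw [h2, Int.add_emod_right]
    rw [h1, jacobiSym.mod_right' _ hodd,
      show (n + B (z i)) % (4 * (B (z j) - B (z i))) =
        (a (off J) + B (z i)) % (4 * (B (z j) - B (z i))) from hcong,
      ← jacobiSym.mod_right' _ hodda, ha4 (off J) (z i) (z j) (hzlt i j hij) (by omega), hsym i j hij]
    by_cases h : G.Adj i j <;> simp [h]

/-- infinite partial sumsets in the primes with a prescribed graph of quadratic residues -/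
theorem sumsets (G : SimpleGraph ℕ) (m r C : ℕ) (hm : 0 < m) (hr : r.Coprime m)
    (hC : 0 < C) (f : ℕ → Fin C) : ∃ (s : Fin C) (a b : ℕ → ℕ), StrictMono a ∧ StrictMono b ∧
      ∀ k : ℕ, (∀ i ≤ k, (a i + b k).Prime ∧ a i + b k ≡ r [MOD m] ∧ f (a i + b k) = s) ∧
        ∀ i j, i < j → j ≤ k → (G.Adj i j ↔ IsSquare ((a j + b k : ℕ) : ZMod (a i + b k))) := by
  obtain ⟨p, hp, hpp, hpr⟩ := Nat.forall_exists_prime_gt_and_modEq (4 * m) hm.ne' hr
  have hcop : p.Coprime (4 * m) := by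
    rw [hpp.coprime_iff_not_dvd]
    intro hd
    have := Nat.le_of_dvd (by omega) hd
    omega
  obtain ⟨s, a, ha, hinf⟩ := infinite4 G (4 * m) p C (by omega) (Dvd.intro _ rfl) hcop hC f
  have hex : ∀ k N : ℕ, ∃ n, N < n ∧ ((∀ i ≤ k, (n + a i).Prime ∧ n + a i ≡ p [MOD 4 * m] ∧
      f (n + a i) = s) ∧ ∀ i j, i < j → j ≤ k →
        (G.Adj i j ↔ IsSquare ((n + a j : ℕ) : ZMod (n + a i)))) := by
    intro k N
    obtain ⟨n, hn, hN⟩ := (hinf k).exists_gt N
    exact ⟨n, hN, hn⟩
  choose F hF1 hF2 using hex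
  let b : ℕ → ℕ := fun k => Nat.rec (F 0 0) (fun k v => F (k + 1) v) k
  have hb : ∀ k, b (k + 1) = F (k + 1) (b k) := fun k => rfl
  have hbP : ∀ k, (∀ i ≤ k, (b k + a i).Prime ∧ b k + a i ≡ p [MOD 4 * m] ∧
      f (b k + a i) = s) ∧ ∀ i j, i < j → j ≤ k →
        (G.Adj i j ↔ IsSquare ((b k + a j : ℕ) : ZMod (b k + a i))) := by
    intro k
    cases k with
    | zero => exact hF2 0 0
    | succ k => exact hF2 (k + 1) (b k)
  refine ⟨s, a, b, ha, strictMono_nat_of_lt_succ fun k => ?_, fun k => ⟨fun i hi => ?_,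
    fun i j hij hj => ?_⟩⟩
  · rw [hb]
    exact hF1 _ _
  · obtain ⟨h1, h2, h3⟩ := (hbP k).1 i hi
    rw [add_comm]
    exact ⟨h1, (h2.of_dvd (Dvd.intro_left _ rfl)).trans hpr, h3⟩
  · have h1 := (hbP k).2 i j hij hj
    rwa [add_comm (b k) (a j), add_comm (b k) (a i)] at h1

end Pool.Agent.R494.IQ
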