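import Mathlib
import Pool.Agent.R528.RM.BHFinal
import Pool.Agent.R528.RM.Gold

set_option autoImplicit false
set_option linter.unusedSectionVars false

/-! # An exponential inequality for the number of chosen elements of a finite set -/

open MeasureTheory Filter Set
open scoped ENNReal Topology

namespace Pool.Agent.R494.SPL

open Pool.Agent.R528.RM

variable {Ω : Type} {m0 : MeasurableSpace Ω} {μ : Measure Ω} [IsProbabilityMeasure μ]
  {ℱ : Filtration ℕ m0} {A : ℕ → Set Ω}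

/-- the exponent -/
noncomputable def Ex (μ : Measure Ω) (ℱ : Filtration ℕ m0) (A : ℕ → Set Ω) (I : Finset ℕ) (t : ℝ) (M : ℕ) (ω : Ω) : ℝ :=
  ∑ k ∈ (Finset.range M).filter (fun k => k + 1 ∈ I),
    (t * (A (k + 1)).indicator (fun _ => (1 : ℝ)) ω - (Real.exp t - 1) * dens μ ℱ A k ω)

lemma Ex_meas (hA : ∀ n, MeasurableSet[ℱ n] (A n)) (I : Finset ℕ) (t : ℝ) (M : ℕ) :
    StronglyMeasurable[ℱ M] (Ex μ ℱ A I t M) := by
  have h1 : Ex μ ℱ A I t M = ∑ k ∈ (Finset.range M).filter (fun k => k + 1 ∈ I),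
      ((fun ω => t * (A (k + 1)).indicator (fun _ => (1 : ℝ)) ω) - (fun ω => (Real.exp t - 1) * dens μ ℱ A k ω)) := by
    funext ω
    simp [Ex]
  rw [h1]
  refine Finset.stronglyMeasurable_sum _ fun k hk => ?_
  have hk' := Finset.mem_range.1 (Finset.mem_filter.1 hk).1
  have h3 : StronglyMeasurable[ℱ M] ((A (k + 1)).indicator (fun _ => (1 : ℝ))) :=
    (@stronglyMeasurable_const _ _ (ℱ M) _ _).indicator (ℱ.mono (by omega) _ (hA (k + 1)))
  have h4 : StronglyMeasurable[ℱ M] (dens μ ℱ A k) := (dens_meas _).mono (ℱ.mono (by omega))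
  exact @StronglyMeasurable.sub _ _ _ _ (ℱ M) _ _ _ (h3.const_mul t) (h4.const_mul _)

lemma Ex_bound (hA : ∀ n, MeasurableSet[ℱ n] (A n)) (I : Finset ℕ) (t : ℝ) (M : ℕ) :
    ∀ᵐ ω ∂μ, |Ex μ ℱ A I t M ω| ≤ M * (|t| + |Real.exp t - 1|) := by
  have h1 : ∀ᵐ ω ∂μ, ∀ n, 0 ≤ dens μ ℱ A n ω ∧ dens μ ℱ A n ω ≤ 1 := ae_all_iff.2 fun n => dens01 hA n
  filter_upwards [h1] with ω hω
  unfold Ex
  refine (Finset.abs_sum_le_sum_abs _ _).trans ?_
  refine (Finset.sum_le_card_nsmul _ _ (|t| + |Real.exp t - 1|) fun k _ => ?_).trans ?_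
  · have h2 := hω k
    have h3 : (0 : ℝ) ≤ (A (k + 1)).indicator (fun _ => (1 : ℝ)) ω := indicator_nonneg (fun _ _ => zero_le_one) _
    have h4 : (A (k + 1)).indicator (fun _ => (1 : ℝ)) ω ≤ 1 := indicator_le_self' (fun _ _ => zero_le_one) ω
    refine (abs_sub _ _).trans ?_
    rw [abs_mul, abs_mul, abs_of_nonneg h3, abs_of_nonneg h2.1]
    exact add_le_add (mul_le_of_le_one_right (abs_nonneg _) h4) (mul_le_of_le_one_right (abs_nonneg _) h2.2)
  · rw [nsmul_eq_mul]
    gcongr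
    exact_mod_cast (Finset.card_filter_le _ _).trans (by rw [Finset.card_range])

theorem Ex_mgf (hA : ∀ n, MeasurableSet[ℱ n] (A n)) (I : Finset ℕ) (t : ℝ) (M : ℕ) :
    Integrable (fun ω => Real.exp (Ex μ ℱ A I t M ω)) μ ∧ ∫ ω, Real.exp (Ex μ ℱ A I t M ω) ∂μ ≤ 1 := by
  have hint : ∀ M, Integrable (fun ω => Real.exp (Ex μ ℱ A I t M ω)) μ := by
    intro M
    have hm : AEStronglyMeasurable (fun ω => Real.exp (Ex μ ℱ A I t M ω)) μ :=
      Real.continuous_exp.comp_aestronglyMeasurable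
        (((Ex_meas (μ := μ) hA I t M).mono (ℱ.le _)).aestronglyMeasurable)
    refine Integrable.of_bound hm (Real.exp (M * (|t| + |Real.exp t - 1|))) ?_
    filter_upwards [Ex_bound (μ := μ) (ℱ := ℱ) hA I t M] with ω hω
    rw [Real.norm_eq_abs, abs_of_pos (Real.exp_pos _)]
    exact Real.exp_le_exp.2 ((le_abs_self _).trans hω)
  refine ⟨hint M, ?_⟩
  induction M with
  | zero => simp [Ex]
  | succ M ih =>
    by_cases hM : M + 1 ∈ I
    swap
    · have h1 : ∀ ω, Ex μ ℱ A I t (M + 1) ω = Ex μ ℱ A I t M ω := by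
        intro ω
        unfold Ex
        rw [Finset.range_add_one, Finset.filter_insert, if_neg hM]
      simp_rw [h1]
      exact ih
    set s : ℝ := Real.exp t - 1 with hs
    set D := dens μ ℱ A M with hD
    set J := (A (M + 1)).indicator (fun _ => (1 : ℝ)) with hJ
    set W : Ω → ℝ := fun ω => Real.exp (Ex μ ℱ A I t M ω - s * D ω) with hW
    have hE : ∀ ω, Ex μ ℱ A I t (M + 1) ω = Ex μ ℱ A I t M ω + (t * J ω - s * D ω) := by
      intro ω
      unfold Ex
      rw [Finset.range_add_one, Finset.filter_insert, if_pos hM, Finset.sum_insert (by simp)]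
      ring
    have h01 := dens01 (μ := μ) (ℱ := ℱ) hA M
    have hexpJ : ∀ ω, Real.exp (t * J ω) = 1 + s * J ω := by
      intro ω
      by_cases h : ω ∈ A (M + 1)
      · have : J ω = 1 := indicator_of_mem h _
        rw [this, hs]
        simp
      · have : J ω = 0 := indicator_of_notMem h _
        rw [this]
        simp
    have hstep : ∀ ω, Real.exp (Ex μ ℱ A I t (M + 1) ω) = W ω + s * (W ω * J ω) := by
      intro ω
      rw [hE, show Ex μ ℱ A I t M ω + (t * J ω - s * D ω) = (Ex μ ℱ A I t M ω - s * D ω) + t * J ω by ring,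
        Real.exp_add, hexpJ]
      simp only [hW]
      ring
    have hWm : StronglyMeasurable[ℱ M] W := by
      refine Real.continuous_exp.comp_stronglyMeasurable ?_
      exact @StronglyMeasurable.sub _ _ _ _ (ℱ M) _ _ _ (Ex_meas (μ := μ) hA I t M) ((dens_meas M).const_mul s)
    set c : ℝ := Real.exp (M * (|t| + |s|) + |s|) with hc
    have hWb : ∀ᵐ ω ∂μ, ‖W ω‖ ≤ c := by
      filter_upwards [Ex_bound (μ := μ) (ℱ := ℱ) hA I t M, h01] with ω hω h2
      simp only [hW]
      rw [Real.norm_eq_abs, abs_of_pos (Real.exp_pos _)]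
      apply Real.exp_le_exp.2
      have h3 := (abs_le.1 hω).2
      have h4 : -(s * D ω) ≤ |s| := by
        refine (neg_le_abs _).trans ?_
        rw [abs_mul, abs_of_nonneg h2.1]
        exact mul_le_of_le_one_right (abs_nonneg _) h2.2
      linarith
    have hWa : AEStronglyMeasurable W μ := (hWm.mono (ℱ.le _)).aestronglyMeasurable
    have hWi : Integrable W μ := Integrable.of_bound hWa c hWb
    have hJa : AEStronglyMeasurable J μ :=
      ((stronglyMeasurable_const.indicator (ℱ.le _ _ (hA (M + 1))))).aestronglyMeasurable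
    have hDa : AEStronglyMeasurable D μ := ((dens_meas M).mono (ℱ.le _)).aestronglyMeasurable
    have hc0 : 0 ≤ c := (Real.exp_pos _).le
    have i1 : Integrable (fun ω => W ω * J ω) μ := by
      refine Integrable.of_bound (hWa.mul hJa) c ?_
      filter_upwards [hWb] with ω hω
      rw [norm_mul]
      have hI1 : ‖J ω‖ ≤ 1 := by
        rw [Real.norm_eq_abs, abs_of_nonneg (indicator_nonneg (fun _ _ => zero_le_one) _)]
        exact indicator_le_self' (fun _ _ => zero_le_one) ω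
      calc _ ≤ c * 1 := mul_le_mul hω hI1 (norm_nonneg _) hc0
        _ = _ := mul_one _
    have i2 : Integrable (fun ω => W ω * D ω) μ := by
      refine Integrable.of_bound (hWa.mul hDa) c ?_
      filter_upwards [hWb, h01] with ω hω h2
      rw [norm_mul]
      have hD1 : ‖D ω‖ ≤ 1 := by
        rw [Real.norm_eq_abs, abs_of_nonneg h2.1]
        exact h2.2
      calc _ ≤ c * 1 := mul_le_mul hω hD1 (norm_nonneg _) hc0
        _ = _ := mul_one _
    have hpull := pull_A (μ := μ) hA M hWm c hWb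
    simp_rw [hstep]
    rw [integral_add hWi (i1.const_mul s), integral_const_mul]
    have hpull' : ∫ ω, W ω * J ω ∂μ = ∫ ω, W ω * D ω ∂μ := hpull
    rw [hpull', ← integral_const_mul, ← integral_add hWi (i2.const_mul s)]
    refine le_trans (integral_mono (hWi.add (i2.const_mul s)) (hint M) ?_) ih
    intro ω
    have h1 : 1 + s * D ω ≤ Real.exp (s * D ω) := by
      have := Real.add_one_le_exp (s * D ω)
      linarith
    have h2 : W ω * (1 + s * D ω) ≤ W ω * Real.exp (s * D ω) :=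
      mul_le_mul_of_nonneg_left h1 (Real.exp_pos _).le
    have h3 : W ω * Real.exp (s * D ω) = Real.exp (Ex μ ℱ A I t M ω) := by
      simp only [hW]
      rw [← Real.exp_add]
      congr 1
      ring
    simp only
    linarith

/-- the tail bound -/
theorem Ex_tail (hA : ∀ n, MeasurableSet[ℱ n] (A n)) (I : Finset ℕ) (t : ℝ) (M : ℕ) (u : ℝ) :
    μ.real {ω | u ≤ Ex μ ℱ A I t M ω} ≤ Real.exp (-u) := by
  obtain ⟨h1, h2⟩ := Ex_mgf (μ := μ) (ℱ := ℱ) hA I t M
  have h3 := mul_meas_ge_le_integral_of_nonneg (μ := μ)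
    (Eventually.of_forall fun ω => (Real.exp_pos (Ex μ ℱ A I t M ω)).le) h1 (Real.exp u)
  have h4 : μ.real {ω | u ≤ Ex μ ℱ A I t M ω} ≤ μ.real {ω | Real.exp u ≤ Real.exp (Ex μ ℱ A I t M ω)} := by
    apply measureReal_mono _ (measure_ne_top _ _)
    intro ω hω
    exact Real.exp_le_exp.2 hω
  have h5 : Real.exp u * μ.real {ω | u ≤ Ex μ ℱ A I t M ω} ≤ 1 :=
    (mul_le_mul_of_nonneg_left h4 (Real.exp_pos _).le).trans (h3.trans h2)
  rw [Real.exp_neg]
  calc μ.real {ω | u ≤ Ex μ ℱ A I t M ω} = (Real.exp u)⁻¹ * (Real.exp u * μ.real {ω | u ≤ Ex μ ℱ A I t M ω}) := by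
        rw [← mul_assoc, inv_mul_cancel₀ (Real.exp_pos u).ne', one_mul]
    _ ≤ (Real.exp u)⁻¹ * 1 := mul_le_mul_of_nonneg_left h5 (inv_nonneg.2 (Real.exp_pos u).le)
    _ = _ := mul_one _

lemma Ex_eq (I : Finset ℕ) (hI : ∀ m ∈ I, 1 ≤ m) (t : ℝ) (M : ℕ) (hM : ∀ m ∈ I, m ≤ M) (ω : Ω) :
    Ex μ ℱ A I t M ω = t * ∑ m ∈ I, In A m ω - (Real.exp t - 1) * ∑ m ∈ I, dens μ ℱ A (m - 1) ω := by
  have h1 : I = ((Finset.range M).filter (fun k => k + 1 ∈ I)).image (fun k => k + 1) := by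
    ext m
    rw [Finset.mem_image]
    constructor
    · intro hm
      have h1 := hI m hm
      have h2 := hM m hm
      refine ⟨m - 1, Finset.mem_filter.2 ⟨Finset.mem_range.2 (by omega), ?_⟩, by omega⟩
      rw [Nat.sub_add_cancel h1]
      exact hm
    · rintro ⟨k, hk, rfl⟩
      exact (Finset.mem_filter.1 hk).2
  have h2 : ∀ f : ℕ → ℝ, ∑ m ∈ I, f m = ∑ k ∈ (Finset.range M).filter (fun k => k + 1 ∈ I), f (k + 1) := by
    intro f
    conv_lhs => rw [h1]
    rw [Finset.sum_image (fun a _ b _ h => by omega)]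
  rw [h2, h2, Finset.mul_sum, Finset.mul_sum, ← Finset.sum_sub_distrib]
  unfold Ex In
  refine Finset.sum_congr rfl fun k _ => ?_
  rw [Nat.add_sub_cancel]

/-- the tail bound for the chosen elements of a set -/
theorem set_tail (hA : ∀ n, MeasurableSet[ℱ n] (A n)) (I : Finset ℕ) (hI : ∀ m ∈ I, 1 ≤ m) (t u : ℝ) :
    μ.real {ω | u ≤ t * ∑ m ∈ I, In A m ω - (Real.exp t - 1) * ∑ m ∈ I, dens μ ℱ A (m - 1) ω} ≤ Real.exp (-u) := by
  have h := Ex_tail (μ := μ) (ℱ := ℱ) hA I t (I.sup id) u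
  simp_rw [Ex_eq I hI t (I.sup id) (fun m hm => Finset.le_sup (f := id) hm)] at h
  exact h

end Pool.Agent.R494.SPL
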