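import Mathlib
import Pool.Agent.R494.SPL1

set_option autoImplicit false
set_option linter.unusedSectionVars false

/-! # The law of large numbers for sparse families -/

open MeasureTheory Filter Set
open scoped ENNReal Topology

namespace Pool.Agent.R494.SPL

open Pool.Agent.R528.RM

variable {Ω : Type} {m0 : MeasurableSpace Ω} {μ : Measure Ω} [IsProbabilityMeasure μ]
  {ℱ : Filtration ℕ m0} {A : ℕ → Set Ω}

theorem sparse_law {α : Type} (hA : ∀ n, MeasurableSet[ℱ n] (A n)) {ρ : ℕ → ℝ} (hρ : ∀ n, 0 ≤ ρ n)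
    (hd : ∀ᵐ ω ∂μ, ∀ ε : ℝ, 0 < ε → ∀ᶠ n : ℕ in atTop, |dens μ ℱ A n ω - ρ (n + 1)| ≤ ε * ρ (n + 1))
    (C : ℕ) (Φ : ℕ → Finset α) (hΦ : ∀ᶠ x in atTop, (Φ x).card ≤ x ^ C)
    (I : α → Finset ℕ) (mn : ℕ → ℕ) (hmn : Tendsto mn atTop atTop)
    (hmin : ∀ᶠ x in atTop, ∀ a ∈ Φ x, ∀ m ∈ I a, mn x ≤ m) :
    ∀ᵐ ω ∂μ, ∀ η : ℝ, 0 < η → ∃ K : ℝ, 0 ≤ K ∧ ∀ᶠ x : ℕ in atTop, ∀ a ∈ Φ x,
      |∑ m ∈ I a, In A m ω - ∑ m ∈ I a, ρ m| ≤ η * ∑ m ∈ I a, ρ m + K * Real.log x := by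
  classical
  set T : ℝ → ℝ → α → Set Ω := fun t u a =>
    {ω | u ≤ t * ∑ m ∈ I a, In A m ω - (Real.exp t - 1) * ∑ m ∈ I a, dens μ ℱ A (m - 1) ω} with hT
  set s : ℕ → ℕ → Set Ω := fun j x =>
    ⋃ a ∈ Φ x, (T (1 / ((j : ℝ) + 1)) ((C + 2) * Real.log x) a ∪ T (-(1 / ((j : ℝ) + 1))) ((C + 2) * Real.log x) a) with hs
  have hprob : ∀ j : ℕ, ∀ᶠ x : ℕ in atTop, μ.real (s j x) ≤ 2 * (1 / (x : ℝ) ^ 2) := by
    intro j
    filter_upwards [hΦ, hmin, hmn.eventually_ge_atTop 1, eventually_ge_atTop 1] with x h1 h2 h4 h5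
    have hx : (0 : ℝ) < x := by exact_mod_cast h5
    have hb : ∀ a ∈ Φ x, μ.real (T (1 / ((j : ℝ) + 1)) ((C + 2) * Real.log x) a ∪
        T (-(1 / ((j : ℝ) + 1))) ((C + 2) * Real.log x) a) ≤ 2 * Real.exp (-((C + 2) * Real.log x)) := by
      intro a ha
      have hI : ∀ m ∈ I a, 1 ≤ m := fun m hm => h4.trans (h2 a ha m hm)
      refine (measureReal_union_le _ _).trans ?_
      have g1 := set_tail (μ := μ) (ℱ := ℱ) hA (I a) hI (1 / ((j : ℝ) + 1)) ((C + 2) * Real.log x)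
      have g2 := set_tail (μ := μ) (ℱ := ℱ) hA (I a) hI (-(1 / ((j : ℝ) + 1))) ((C + 2) * Real.log x)
      linarith
    have h6 : μ.real (s j x) ≤ ∑ a ∈ Φ x, μ.real (T (1 / ((j : ℝ) + 1)) ((C + 2) * Real.log x) a ∪
        T (-(1 / ((j : ℝ) + 1))) ((C + 2) * Real.log x) a) :=
      measureReal_biUnion_finset_le _ _
    refine h6.trans ((Finset.sum_le_sum hb).trans ?_)
    rw [Finset.sum_const, nsmul_eq_mul]
    have h7 : Real.exp (-(((C : ℝ) + 2) * Real.log x)) = 1 / (x : ℝ) ^ (C + 2) := by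
      rw [Real.exp_neg, show ((C : ℝ) + 2) * Real.log x = Real.log ((x : ℝ) ^ (C + 2)) by
        rw [Real.log_pow]; push_cast; ring, Real.exp_log (by positivity), one_div]
    rw [h7]
    have h8 : ((Φ x).card : ℝ) ≤ (x : ℝ) ^ C := by exact_mod_cast h1
    have h9 : ((Φ x).card : ℝ) * (1 / (x : ℝ) ^ (C + 2)) ≤ 1 / (x : ℝ) ^ 2 := by
      rw [pow_add, ← one_div_mul_one_div, ← mul_assoc]
      refine mul_le_of_le_one_left (by positivity) ?_
      rw [mul_one_div, div_le_one (by positivity)]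
      exact h8
    linarith
  have hsum : Summable (fun x : ℕ => 2 * (1 / (x : ℝ) ^ 2)) :=
    (Real.summable_one_div_nat_pow.2 (by norm_num)).mul_left _
  have hbc : ∀ᵐ ω ∂μ, ∀ j, ∀ᶠ x in atTop, ω ∉ s j x := ae_all_iff.2 fun j => bc_real hsum (hprob j)
  have h01 : ∀ᵐ ω ∂μ, ∀ n, 0 ≤ dens μ ℱ A n ω ∧ dens μ ℱ A n ω ≤ 1 := ae_all_iff.2 fun n => dens01 hA n
  filter_upwards [hbc, hd, h01] with ω hω1 hω2 hω3 η hη
  set e : ℝ := min η 1 with he
  have he0 : 0 < e := lt_min hη one_pos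
  have he1 : e ≤ 1 := min_le_right _ _
  have heη : e ≤ η := min_le_left _ _
  obtain ⟨j, hj⟩ := exists_nat_ge (3 / e)
  set r : ℝ := 1 / ((j : ℝ) + 1) with hr
  have hj0 : (0 : ℝ) < (j : ℝ) + 1 := by positivity
  have hr0 : 0 < r := by positivity
  have hre : r ≤ e / 3 := by
    rw [hr, div_le_iff₀ hj0]
    rw [div_le_iff₀ he0] at hj
    nlinarith
  have hr1 : r ≤ 1 := by linarith
  refine ⟨((j : ℝ) + 1) * (C + 2), by positivity, ?_⟩
  obtain ⟨N, hN⟩ := eventually_atTop.1 (hω2 (e / 3) (by positivity))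
  filter_upwards [hω1 j, hmin, hmn.eventually_ge_atTop (N + 1), eventually_ge_atTop 1] with x g1 g2 g3 g4 a ha
  set X : ℝ := ∑ m ∈ I a, In A m ω with hX
  set D : ℝ := ∑ m ∈ I a, dens μ ℱ A (m - 1) ω with hD
  set E : ℝ := ∑ m ∈ I a, ρ m with hE
  set u : ℝ := (C + 2) * Real.log x with hu
  have hlog : 0 ≤ Real.log (x : ℝ) := Real.log_natCast_nonneg x
  have hu0 : 0 ≤ u := by positivity
  have hD0 : 0 ≤ D := Finset.sum_nonneg fun m _ => (hω3 _).1
  have hE0 : 0 ≤ E := Finset.sum_nonneg fun m _ => hρ m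
  have k1 : r * X - (Real.exp r - 1) * D < u := by
    by_contra hcon
    push Not at hcon
    apply g1
    simp only [hs, Set.mem_iUnion]
    exact ⟨a, ha, Or.inl hcon⟩
  have k2 : -r * X - (Real.exp (-r) - 1) * D < u := by
    by_contra hcon
    push Not at hcon
    apply g1
    simp only [hs, Set.mem_iUnion]
    exact ⟨a, ha, Or.inr hcon⟩
  have q1 : Real.exp r - 1 ≤ r + r ^ 2 := by
    have := Real.abs_exp_sub_one_sub_id_le (x := r) (by rw [abs_of_pos hr0]; exact hr1)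
    have := (abs_le.1 this).2
    linarith
  have q2 : Real.exp (-r) - 1 ≤ -r + r ^ 2 := by
    have := Real.abs_exp_sub_one_sub_id_le (x := -r) (by rw [abs_neg, abs_of_pos hr0]; exact hr1)
    have := (abs_le.1 this).2
    nlinarith
  have hru : ((j : ℝ) + 1) * r = 1 := by
    rw [hr]
    field_simp
  have m1 : r * X ≤ u + (r + r ^ 2) * D := by nlinarith
  have m2 : (r - r ^ 2) * D - u ≤ r * X := by nlinarith
  have m3 : X ≤ ((j : ℝ) + 1) * u + (1 + r) * D := by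
    have h := mul_le_mul_of_nonneg_left m1 hj0.le
    have e1 : ((j : ℝ) + 1) * (r * X) = X := by rw [← mul_assoc, hru, one_mul]
    have e2 : ((j : ℝ) + 1) * (u + (r + r ^ 2) * D) = ((j : ℝ) + 1) * u + (((j : ℝ) + 1) * r) * (1 + r) * D := by ring
    rw [e1, e2, hru, one_mul] at h
    exact h
  have m4 : (1 - r) * D - ((j : ℝ) + 1) * u ≤ X := by
    have h := mul_le_mul_of_nonneg_left m2 hj0.le
    have e1 : ((j : ℝ) + 1) * (r * X) = X := by rw [← mul_assoc, hru, one_mul]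
    have e2 : ((j : ℝ) + 1) * ((r - r ^ 2) * D - u) = (((j : ℝ) + 1) * r) * (1 - r) * D - ((j : ℝ) + 1) * u := by ring
    rw [e1, e2, hru, one_mul] at h
    exact h
  have m5 : |D - E| ≤ e / 3 * E := by
    rw [hD, hE, ← Finset.sum_sub_distrib, Finset.mul_sum]
    refine (Finset.abs_sum_le_sum_abs _ _).trans (Finset.sum_le_sum fun m hm => ?_)
    have h1 := g2 a ha m hm
    have h2 := hN (m - 1) (by omega)
    rwa [show m - 1 + 1 = m by omega] at h2
  have m6 := abs_le.1 m5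
  have hDE : D ≤ 2 * E := by nlinarith
  have hrD : r * D ≤ e / 3 * (2 * E) := mul_le_mul hre hDE hD0 (by positivity)
  have heE : e * E ≤ η * E := mul_le_mul_of_nonneg_right heη hE0
  have e3 : ((j : ℝ) + 1) * (C + 2) * Real.log x = ((j : ℝ) + 1) * u := by rw [hu]; ring
  rw [e3, abs_le]
  constructor <;> linarith [m6.1, m6.2]

/-- the values taken more than `t` times -/
noncomputable def lay {β : Type} (V : Finset β) (val : β → ℕ) (t : ℕ) : Finset ℕ :=
  (V.image val).filter (fun P => t < (V.filter (fun X => val X = P)).card)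

lemma layer {β : Type} (V : Finset β) (val : β → ℕ) (T : ℕ) (hT : ∀ P, (V.filter (fun X => val X = P)).card ≤ T) (g : ℕ → ℝ) :
    ∑ X ∈ V, g (val X) = ∑ t ∈ Finset.range T, ∑ P ∈ lay V val t, g P := by
  classical
  rw [Finset.sum_comp g val]
  unfold lay
  simp_rw [Finset.sum_filter]
  rw [Finset.sum_comm]
  refine Finset.sum_congr rfl fun P _ => ?_
  rw [← Finset.sum_filter, Finset.sum_const]
  congr 1
  have : (Finset.range T).filter (fun t => t < (V.filter (fun X => val X = P)).card) =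
      Finset.range ((V.filter (fun X => val X = P)).card) := by
    ext t
    rw [Finset.mem_filter, Finset.mem_range, Finset.mem_range]
    have := hT P
    omega
  rw [this, Finset.card_range]

/-- the law for weighted families -/
theorem weighted_law {β : Type} (hA : ∀ n, MeasurableSet[ℱ n] (A n)) {ρ : ℕ → ℝ} (hρ : ∀ n, 0 ≤ ρ n)
    (hd : ∀ᵐ ω ∂μ, ∀ ε : ℝ, 0 < ε → ∀ᶠ n : ℕ in atTop, |dens μ ℱ A n ω - ρ (n + 1)| ≤ ε * ρ (n + 1))
    (V : ℕ → Finset β) (val : β → ℕ) (B : ℕ → ℕ) (C : ℕ) (hBC : ∀ᶠ x in atTop, B x ≤ x ^ C)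
    (hB : ∀ᶠ x in atTop, ∀ P, ((V x).filter (fun X => val X = P)).card ≤ B x)
    (mn : ℕ → ℕ) (hmn : Tendsto mn atTop atTop)
    (hmin : ∀ᶠ x in atTop, ∀ X ∈ V x, mn x ≤ val X) :
    ∀ᵐ ω ∂μ, ∀ η : ℝ, 0 < η → ∃ K : ℝ, 0 ≤ K ∧ ∀ᶠ x : ℕ in atTop,
      |∑ X ∈ V x, In A (val X) ω - ∑ X ∈ V x, ρ (val X)| ≤
        η * ∑ X ∈ V x, ρ (val X) + K * (B x * Real.log x) := by
  classical
  have h := sparse_law (μ := μ) (ℱ := ℱ) (A := A) hA hρ hd C
    (fun x : ℕ => ({x} : Finset ℕ) ×ˢ Finset.range (B x))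
    (by
      filter_upwards [hBC] with x hx
      rw [Finset.card_product, Finset.card_singleton, Finset.card_range, one_mul]
      exact hx)
    (fun a : ℕ × ℕ => lay (V a.1) val a.2) mn hmn
    (by
      filter_upwards [hmin] with x hx a ha P hP
      obtain ⟨a1, a2⟩ := a
      rw [Finset.mem_product, Finset.mem_singleton] at ha
      obtain ⟨ha1, -⟩ := ha
      simp only at ha1
      subst ha1
      obtain ⟨X, hX, rfl⟩ := Finset.mem_image.1 (Finset.mem_filter.1 hP).1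
      exact hx X hX)
  filter_upwards [h] with ω hω η hη
  obtain ⟨K, hK0, hK⟩ := hω η hη
  refine ⟨K, hK0, ?_⟩
  filter_upwards [hK, hB] with x h1 h2
  rw [layer (V x) val (B x) h2 (fun P => In A P ω), layer (V x) val (B x) h2 ρ, ← Finset.sum_sub_distrib]
  refine (Finset.abs_sum_le_sum_abs _ _).trans ?_
  refine (Finset.sum_le_sum (g := fun t => η * ∑ m ∈ lay (V x) val t, ρ m + K * Real.log x) fun t ht => ?_).trans ?_
  · exact h1 (x, t) (Finset.mem_product.2 ⟨Finset.mem_singleton_self _, ht⟩)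
  · rw [Finset.sum_add_distrib, ← Finset.mul_sum, Finset.sum_const, Finset.card_range, nsmul_eq_mul]
    apply le_of_eq
    ring

end Pool.Agent.R494.SPL
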