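import Mathlib
import Pool.Agent.TH779.Ord.Exact

/-! Exact patterns of primes among prescribed positions, with few repetitions inside the groups. -/

set_option autoImplicit false

namespace Pool.Agent.R494.OT

open Finset Pool.Agent.TH779.Ord

/-- exact patterns among prescribed positions `z x`, `x < T K`, in one class modulo `q` -/
theorem exact_pos (T : ℕ) (lam : ℝ) (hTp : 1 ≤ T) (hlam : 1 ≤ lam) :
    ∃ K : ℕ, 2 ≤ K ∧ ∀ (q a : ℕ), 1 ≤ q → ∀ z : ℕ → ℕ,
      (∀ x < T * K, ∀ y < T * K, z x = z y → x = y) →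
      (∀ x < T * K, Nat.Coprime (a + z x) q) →
      (∀ p : ℕ, p.Prime → ¬ p ∣ q → ∃ r : ℕ, ∀ x < T * K, ¬ p ∣ r + z x) →
      ∃ J : Finset ℕ, (∀ x ∈ J, x < T * K) ∧ (T : ℝ) / (40 * lam) ≤
        ∑ g ∈ range T, fn lam (J.filter (fun x => x / K = g)).card ∧
        {n : ℕ | n ≡ a [MOD q] ∧ (∀ x ∈ J, (n + z x).Prime) ∧
          ∀ y : ℕ, (∃ x < T * K, y ≤ z x) → (n + y).Prime → ∃ x ∈ J, y = z x}.Infinite := by
  classical
  obtain ⟨K, hK, hmain⟩ := few_nat T lam hTp hlam
  refine ⟨K, hK, ?_⟩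
  intro q a hq z hinj haq hadm
  set M := T * K with hM
  set D := (range M).sup z with hD
  have hxD : ∀ x < M, z x ≤ D := fun x hx => le_sup (f := z) (mem_range.2 hx)
  -- forms for all the positions
  set ι := Fin (D + 1) with hι
  set S : Finset ι := univ.filter (fun j => ∃ x < M, z x = (j : ℕ)) with hS
  obtain ⟨W, ν, hW, hE, hSp⟩ := Pool.Agent.TH779.Shat.congruences (fun _ : ι => q)
    (fun j : ι => a + (j : ℕ)) (fun _ => hq)
    (by
      intro i j hij h1
      have h2 := Nat.eq_of_mul_eq_mul_left hq h1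
      exact hij (Fin.ext (by omega))) S Sᶜ disjoint_compl_left
  have hpos : ∀ x, x < M → z x < D + 1 := fun x hx => by
    have := hxD x hx
    omega
  have hfew := hmain (fun _ => q * W) (fun x => q * ν + (a + z x))
    (fun _ _ => Nat.mul_pos hq hW)
    (by
      intro x hx y hy _ h2
      apply hinj x hx y hy
      have h2' : q * ν + (a + z x) = q * ν + (a + z y) := h2
      omega)
    (by
      intro p hp
      by_cases hpW : p ∣ q * W
      · refine ⟨0, fun x hx hd => ?_⟩
        rw [mul_zero, zero_add] at hd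
        rcases (Nat.Prime.dvd_mul hp).1 hpW with h1 | h1
        · have h2 : p ∣ a + z x := by
            have h3 : p ∣ q * ν := h1.mul_right _
            exact (Nat.dvd_add_right h3).1 hd
          have h3 : p ∣ 1 := by
            rw [← haq x hx]
            exact Nat.dvd_gcd h2 h1
          exact hp.one_lt.ne' (Nat.dvd_one.1 h3)
        · exact hSp p hp h1 ⟨z x, hpos x hx⟩ (by
            rw [hS, mem_filter]
            exact ⟨mem_univ _, x, hx, rfl⟩) hd
      · obtain ⟨r, hr⟩ := hadm p hp (fun h => hpW (h.mul_right _))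
        have : Fact p.Prime := ⟨hp⟩
        have hpq : ¬ p ∣ q := fun h => hpW (h.mul_right _)
        have hpW' : ¬ p ∣ W := fun h => hpW (h.mul_left _)
        have hqZ : (q : ZMod p) ≠ 0 := fun h => hpq ((ZMod.natCast_eq_zero_iff _ _).1 h)
        have hWZ : (W : ZMod p) ≠ 0 := fun h => hpW' ((ZMod.natCast_eq_zero_iff _ _).1 h)
        refine ⟨(((r : ZMod p) - a - q * ν) / (q * W)).val, fun x hx hd => ?_⟩
        rw [← ZMod.natCast_eq_zero_iff] at hd
        push_cast at hd
        rw [ZMod.natCast_zmod_val] at hd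
        apply hr x hx
        rw [← ZMod.natCast_eq_zero_iff]
        push_cast
        rw [← hd]
        field_simp
        ring)
  -- the pattern at `t`
  set Jt : ℕ → Finset ℕ := fun t =>
    (range M).filter (fun x => (q * W * t + (q * ν + (a + z x))).Prime) with hJt
  set Sset : Set ℕ := {t : ℕ | 2 ≤ t ∧ (T : ℝ) / (40 * lam) ≤
    ∑ g ∈ range T, fn lam ((Jt t).filter (fun x => x / K = g)).card} with hSset
  have hinf : Sset.Infinite := by
    rw [Set.infinite_iff_exists_gt]
    intro N0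
    obtain ⟨t, ht1, ht2⟩ := hfew (N0 + 2)
    refine ⟨t, ⟨by omega, ht2.trans (le_of_eq ?_)⟩, by omega⟩
    apply sum_congr rfl
    intro g _
    congr 2
    ext x
    simp only [hJt, mem_filter, mem_range]
    tauto
  have hcover : Sset ⊆ ⋃ J : Set.Elem (((range M).powerset : Finset (Finset ℕ)) : Set (Finset ℕ)),
      {t ∈ Sset | Jt t = J.1} := by
    intro t ht
    rw [Set.mem_iUnion]
    refine ⟨⟨Jt t, ?_⟩, ht, rfl⟩
    rw [mem_coe, mem_powerset]
    exact filter_subset _ _
  have : ∃ J : Finset ℕ, {t ∈ Sset | Jt t = J}.Infinite := by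
    by_contra hcon
    push Not at hcon
    apply hinf
    apply Set.Finite.subset _ hcover
    exact Set.finite_iUnion (fun J => hcon J.1)
  obtain ⟨J, hJ⟩ := this
  obtain ⟨t₀, ht₀⟩ := hJ.nonempty
  have hJM : ∀ x ∈ J, x < M := by
    intro x hx
    rw [← ht₀.2, hJt] at hx
    exact mem_range.1 (mem_filter.1 hx).1
  refine ⟨J, hJM, ?_, ?_⟩
  · have := ht₀.1.2
    rw [ht₀.2] at this
    exact this
  · have hinj' : Set.InjOn (fun t : ℕ => q * W * t + (q * ν + a)) {t ∈ Sset | Jt t = J} := by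
      intro t _ t' _ e
      have e' : q * W * t = q * W * t' := by
        simp only at e
        omega
      exact Nat.eq_of_mul_eq_mul_left (Nat.mul_pos hq hW) e'
    apply (hJ.image hinj').mono
    rintro _ ⟨t, ⟨ht1, ht2⟩, rfl⟩
    refine ⟨?_, ?_, ?_⟩
    · have h1 : q * W * t + (q * ν + a) = a + q * (W * t + ν) := by ring
      simp only
      rw [h1]
      exact (Nat.modEq_iff_dvd' (by omega)).2 ⟨W * t + ν, by omega⟩ |>.symm
    · intro x hx
      rw [← ht2, hJt, mem_filter] at hx
      have h1 : q * W * t + (q * ν + a) + z x = q * W * t + (q * ν + (a + z x)) := by ring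
      simp only
      rw [h1]
      exact hx.2
    · rintro y ⟨x, hx, hy⟩ hp
      simp only at hp
      have hyD : y < D + 1 := hy.trans_lt (hpos x hx)
      by_cases hyS : (⟨y, hyD⟩ : ι) ∈ S
      · rw [hS, mem_filter] at hyS
        obtain ⟨-, x', hx', he⟩ := hyS
        simp only at he
        refine ⟨x', ?_, he.symm⟩
        rw [← ht2, hJt, mem_filter, mem_range]
        refine ⟨hx', ?_⟩
        rw [he]
        have h1 : q * W * t + (q * ν + a) + y = q * W * t + (q * ν + (a + y)) := by ring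
        rw [← h1]
        exact hp
      · exfalso
        obtain ⟨p, hp1, hp2, hp3⟩ := hE ⟨y, hyD⟩ (mem_compl.2 hyS)
        have h1 : p ∣ q * W * t + (q * ν + a) + y := by
          have h2 : q * W * t + (q * ν + a) + y = W * (q * t) + (q * ν + (a + y)) := by ring
          rw [h2]
          exact dvd_add (hp2.mul_right _) hp3
        have h2 : p = q * W * t + (q * ν + a) + y := (Nat.prime_dvd_prime_iff_eq hp1 hp).1 h1
        have h3 : p ≤ W := Nat.le_of_dvd hW hp2
        have h4 : 2 ≤ t := ht1.1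
        have h5 : W * 2 ≤ q * W * t := by
          calc W * 2 ≤ W * t := Nat.mul_le_mul_left _ h4
            _ = 1 * W * t := by ring
            _ ≤ q * W * t := Nat.mul_le_mul_right _ (Nat.mul_le_mul_right _ hq)
        omega

/-- fewer numbers than the prime do not cover all the classes -/
theorem avoid (M p : ℕ) (hp : p.Prime) (hM : M < p) (z : ℕ → ℕ) :
    ∃ r : ℕ, ∀ x < M, ¬ p ∣ r + z x := by
  classical
  haveI : Fact p.Prime := ⟨hp⟩
  have h1 : ((range M).image (fun w => (-(z w : ZMod p)))).card < (univ : Finset (ZMod p)).card := by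
    rw [card_univ, ZMod.card]
    exact (card_image_le.trans_eq (card_range M)).trans_lt hM
  obtain ⟨u, -, hu⟩ := exists_mem_notMem_of_card_lt_card h1
  refine ⟨u.val, fun x hx hd => hu ?_⟩
  rw [← ZMod.natCast_eq_zero_iff] at hd
  push_cast at hd
  rw [ZMod.natCast_zmod_val] at hd
  rw [mem_image]
  exact ⟨x, mem_range.2 hx, (eq_neg_of_add_eq_zero_left hd).symm⟩

/-- a class with a prescribed symbol avoiding fewer numbers than half the prime -/
theorem avoid_sym (M L : ℕ) (hL : L.Prime) (hM : 2 * M + 2 < L) (z : ℕ → ℕ) (v : ℕ) (ε : ℤ)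
    (hε : ε = 1 ∨ ε = -1) :
    ∃ t : ℕ, (∀ x < M, ¬ L ∣ t + z x) ∧ jacobiSym ((t + v : ℕ) : ℤ) L = ε := by
  classical
  haveI : Fact L.Prime := ⟨hL⟩
  have hne2 : ringChar (ZMod L) ≠ 2 := by
    rw [ZMod.ringChar_zmod_n]
    omega
  obtain ⟨s, hs0, hs⟩ : ∃ s : ZMod L, s ≠ 0 ∧ legendreSym L (s.val : ℤ) = ε := by
    rcases hε with rfl | rfl
    · refine ⟨1, one_ne_zero, ?_⟩
      rw [legendreSym.eq_one_iff _ (by simp)]
      simp
    · obtain ⟨s, hs⟩ := FiniteField.exists_nonsquare hne2
      refine ⟨s, ?_, ?_⟩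
      · rintro rfl
        exact hs ⟨0, by simp⟩
      · rw [legendreSym.eq_neg_one_iff]
        simpa using hs
  have hinj : Set.InjOn (fun w : ℕ => s * ((w + 1 : ℕ) : ZMod L) ^ 2) (range (M + 1) : Set ℕ) := by
    intro w hw w' hw' h
    rw [mem_coe, mem_range] at hw hw'
    have h1 : ((w + 1 : ℕ) : ZMod L) ^ 2 = ((w' + 1 : ℕ) : ZMod L) ^ 2 := mul_left_cancel₀ hs0 h
    rcases sq_eq_sq_iff_eq_or_eq_neg.1 h1 with h2 | h2
    · have h3 := (ZMod.natCast_eq_natCast_iff _ _ _).1 h2
      have h4 := Nat.ModEq.eq_of_lt_of_lt h3 (by omega) (by omega)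
      omega
    · exfalso
      have h3 : ((w + 1 + (w' + 1) : ℕ) : ZMod L) = 0 := by
        rw [Nat.cast_add, h2]; ring
      rw [ZMod.natCast_eq_zero_iff] at h3
      have := Nat.le_of_dvd (by omega) h3
      omega
  have h1 : ((range M).image (fun w => ((v : ZMod L) - (z w : ZMod L)))).card <
      ((range (M + 1)).image (fun w : ℕ => s * ((w + 1 : ℕ) : ZMod L) ^ 2)).card := by
    rw [card_image_of_injOn hinj, card_range]
    exact (card_image_le.trans_eq (card_range M)).trans_lt (Nat.lt_succ_self M)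
  obtain ⟨u, hu1, hu⟩ := exists_mem_notMem_of_card_lt_card h1
  obtain ⟨w, hw, rfl⟩ := mem_image.1 hu1
  rw [mem_range] at hw
  refine ⟨(s * ((w + 1 : ℕ) : ZMod L) ^ 2 - v).val, fun x hx hd => hu ?_, ?_⟩
  · rw [← ZMod.natCast_eq_zero_iff] at hd
    rw [Nat.cast_add, ZMod.natCast_zmod_val] at hd
    rw [mem_image]
    exact ⟨x, mem_range.2 hx, by linear_combination -hd⟩
  · rw [← jacobiSym.legendreSym.to_jacobiSym]
    have hw0 : ((w + 1 : ℕ) : ZMod L) ≠ 0 := by
      rw [Ne, ZMod.natCast_eq_zero_iff]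
      intro hd
      have := Nat.le_of_dvd (by omega) hd
      omega
    have h2 : legendreSym L (((s * ((w + 1 : ℕ) : ZMod L) ^ 2 - v).val + v : ℕ) : ℤ) =
        quadraticChar (ZMod L) (s * ((w + 1 : ℕ) : ZMod L) ^ 2) := by
      unfold legendreSym
      congr 1
      push_cast
      rw [ZMod.natCast_zmod_val]
      push_cast
      ring
    rw [h2, map_mul, map_pow, quadraticChar_sq_one hw0, mul_one]
    rw [← hs]
    unfold legendreSym
    congr 1
    push_cast
    rw [ZMod.natCast_zmod_val]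

end Pool.Agent.R494.OT
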