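import Mathlib
import Pool.Agent.R494.OT1
import Pool.Agent.R494.QR1

/-! Positions in prescribed classes and a residue class with prescribed quadratic symbols of the values. -/

set_option autoImplicit false

namespace Pool.Agent.R494.OT

open Finset NumberTheorySymbols Pool.Agent.R494.QR

/-- positions in prescribed classes whose differences have private primes -/
theorem positions_cls (M m : ℕ) (hm : 0 < m) (ρ : ℕ → ℕ) :
    ∃ (z : ℕ → ℕ) (L : ℕ → ℕ → ℕ), StrictMono z ∧ (∀ x, z x ≡ ρ x [MOD m]) ∧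
    (∀ x y, (L x y).Prime ∧ L x y % 4 = 1 ∧ 2 * M + 2 + m < L x y) ∧
    (∀ x y, x < y → y < M → L x y ∣ z y - z x ∧ ¬ L x y ^ 2 ∣ z y - z x) ∧
    (∀ x y u v, x < y → y < M → u < v → v < M → L x y ∣ z v - z u → x = u ∧ y = v) := by
  classical
  obtain ⟨g, L, hg, hL, hL1, hL2⟩ := positions M (2 * M + 2 + m)
  set I : Finset (ℕ × ℕ) := (range M ×ˢ range M).filter (fun x => x.1 < x.2) with hI
  set P : ℕ := ∏ x ∈ I, L x.1 x.2 ^ 2 with hP
  have hP0 : 0 < P := prod_pos fun x _ => pow_pos (hL _ _).1.pos 2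
  have hcop : Nat.Coprime m P := by
    refine Nat.Coprime.prod_right fun x _ => Nat.Coprime.pow_right 2 ?_
    rw [Nat.coprime_comm, (hL x.1 x.2).1.coprime_iff_not_dvd]
    intro hd
    have h1 := Nat.le_of_dvd hm hd
    have h2 := (hL x.1 x.2).2.2
    omega
  set z : ℕ → ℕ := fun x => (Nat.chineseRemainder hcop (ρ x) (g x) : ℕ) + m * P * x with hz
  have hmono : StrictMono z := by
    refine strictMono_nat_of_lt_succ fun x => ?_
    simp only [hz]
    have h1 := Nat.chineseRemainder_lt_mul hcop (ρ x) (g x) hm.ne' hP0.ne'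
    have h2 : m * P * (x + 1) = m * P * x + m * P := by ring
    omega
  have hzm : ∀ x, z x ≡ ρ x [MOD m] := by
    intro x
    have h1 := (Nat.chineseRemainder hcop (ρ x) (g x)).2.1
    have h2 : m * P * x ≡ 0 [MOD m] := (Nat.modEq_zero_iff_dvd).2 ((Dvd.intro _ rfl).mul_right _)
    simpa using h1.add h2
  have hzP : ∀ x, z x ≡ g x [MOD P] := by
    intro x
    have h1 := (Nat.chineseRemainder hcop (ρ x) (g x)).2.2
    have h2 : m * P * x ≡ 0 [MOD P] := (Nat.modEq_zero_iff_dvd).2 ((Dvd.intro_left _ rfl).mul_right _)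
    simpa using h1.add h2
  have hdvd : ∀ d, d ∣ P → ∀ u v, u < v → (d ∣ z v - z u ↔ d ∣ g v - g u) := by
    intro d hd u v huv
    rw [← Nat.modEq_iff_dvd' (hmono huv).le, ← Nat.modEq_iff_dvd' (hg huv).le]
    have h1 := (hzP u).of_dvd hd
    have h2 := (hzP v).of_dvd hd
    exact ⟨fun h => (h1.symm.trans h).trans h2, fun h => (h1.trans h).trans h2.symm⟩
  have hLP : ∀ x y, x < y → y < M → L x y ^ 2 ∣ P := by
    intro x y hxy hyM
    have hxI : (x, y) ∈ I := by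
      rw [hI, mem_filter, mem_product, mem_range, mem_range]
      exact ⟨⟨by simp only; omega, hyM⟩, hxy⟩
    exact dvd_prod_of_mem (fun x : ℕ × ℕ => L x.1 x.2 ^ 2) hxI
  refine ⟨z, L, hmono, hzm, hL, ?_, ?_⟩
  · intro x y hxy hyM
    rw [hdvd _ ((dvd_pow_self _ (by norm_num)).trans (hLP x y hxy hyM)) _ _ hxy,
      hdvd _ (hLP x y hxy hyM) _ _ hxy]
    exact hL1 x y hxy hyM
  · intro x y u v hxy hyM huv hvM hd
    rw [hdvd _ ((dvd_pow_self _ (by norm_num)).trans (hLP x y hxy hyM)) _ _ huv] at hd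
    exact hL2 x y u v hxy hyM huv hvM hd

/-- positions and a class with prescribed symbols of the values -/
theorem choose_cls (M m : ℕ) (hm : 0 < m) (h4 : 4 ∣ m) (hfac : (M + 1).factorial ∣ m) (ρ : ℕ → ℕ)
    (hρ : ∀ x, (ρ x).Coprime m) (c : ℕ → ℕ → ℤ) (hc : ∀ x y, c x y = 1 ∨ c x y = -1) :
    ∃ (z : ℕ → ℕ) (q a : ℕ), 0 < q ∧ StrictMono z ∧ m ∣ q ∧ (∀ x < M, a + z x ≡ ρ x [MOD m]) ∧
      (∀ x < M, (a + z x).Coprime q) ∧
      (∀ x y, x < y → y < M → 4 * (z y - z x) ∣ q ∧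
        J(((z y - z x : ℕ) : ℤ) | a + z x) = c x y) := by
  classical
  obtain ⟨z, L, hz, hzm, hL, hL1, hL2⟩ := positions_cls M m hm ρ
  set I : Finset (ℕ × ℕ) := (range M ×ˢ range M).filter (fun x => x.1 < x.2) with hI
  have hmemI : ∀ x y, x < y → y < M → (x, y) ∈ I := by
    intro x y hxy hyM
    rw [hI, mem_filter, mem_product, mem_range, mem_range]
    exact ⟨⟨by simp only; omega, hyM⟩, hxy⟩
  have hIlt : ∀ x ∈ I, x.1 < x.2 ∧ x.2 < M := by
    intro x hx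
    rw [hI, mem_filter, mem_product, mem_range, mem_range] at hx
    exact ⟨hx.2, hx.1.2⟩
  set D : ℕ × ℕ → ℕ := fun x => z x.2 - z x.1 with hD
  set E : ℕ × ℕ → ℕ := fun x => D x / L x.1 x.2 with hE
  have hDE : ∀ x ∈ I, D x = L x.1 x.2 * E x := by
    intro x hx
    have h1 := (hL1 x.1 x.2 (hIlt x hx).1 (hIlt x hx).2).1
    exact (Nat.mul_div_cancel' h1).symm
  have hD0 : ∀ x ∈ I, 0 < D x := by
    intro x hx
    have h1 := hz (hIlt x hx).1
    exact Nat.sub_pos_of_lt h1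
  have hE0 : ∀ x ∈ I, 0 < E x := by
    intro x hx
    have h1 := hD0 x hx
    rw [hDE x hx] at h1
    exact Nat.pos_of_ne_zero (fun h => by rw [h, mul_zero] at h1; exact lt_irrefl _ h1)
  have hLE : ∀ x ∈ I, ∀ y ∈ I, ¬ L x.1 x.2 ∣ E y := by
    intro x hx y hy hd
    by_cases hxy : x = y
    · subst hxy
      have h1 : L x.1 x.2 ^ 2 ∣ D x := by
        rw [hDE x hx, sq]
        exact Nat.mul_dvd_mul_left _ hd
      exact (hL1 x.1 x.2 (hIlt x hx).1 (hIlt x hx).2).2 h1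
    · have h1 : L x.1 x.2 ∣ D y := by
        rw [hDE y hy]
        exact hd.mul_left _
      obtain ⟨h3, h4⟩ := hL2 x.1 x.2 y.1 y.2 (hIlt x hx).1 (hIlt x hx).2 (hIlt y hy).1 (hIlt y hy).2 h1
      exact hxy (Prod.ext h3 h4)
  set Q : ℕ := m * ∏ x ∈ I, (4 * E x) with hQ
  have hQ0 : 0 < Q := Nat.mul_pos hm (prod_pos fun x hx => Nat.mul_pos (by norm_num) (hE0 x hx))
  have h4m : ∀ p : ℕ, p.Prime → p ∣ 4 → p ∣ m := fun p _ h => h.trans h4
  have hsmall : ∀ p : ℕ, p.Prime → ¬ p ∣ m → M < p := by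
    intro p hp hpm
    by_contra hcon
    exact hpm (((hp.dvd_factorial).2 (by omega)).trans hfac)
  have hzρ : ∀ (p : ℕ) (b : ℕ) (w : ℕ), p.Prime → p ∣ m → b ≡ 0 [MOD m] → ¬ p ∣ b + z w := by
    intro p b w hp hpm hb hd
    have h1 : b + z w ≡ 0 + ρ w [MOD p] := (hb.add (hzm w)).of_dvd hpm
    rw [zero_add] at h1
    have h2 : p ∣ ρ w := (Nat.modEq_zero_iff_dvd).1 (h1.symm.trans ((Nat.modEq_zero_iff_dvd).2 hd))
    have h3 : p ∣ 1 := by
      rw [← hρ w]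
      exact Nat.dvd_gcd h2 hpm
    exact hp.one_lt.ne' (Nat.dvd_one.1 h3)
  -- the first class
  have hav : ∀ p : ℕ, ∃ r : ℕ, p.Prime → ¬ p ∣ m → ∀ w < M, ¬ p ∣ r + z w := by
    intro p
    by_cases hp : p.Prime ∧ ¬ p ∣ m
    · obtain ⟨r, hr⟩ := avoid M p hp.1 (hsmall p hp.1 hp.2) z
      exact ⟨r, fun _ _ => hr⟩
    · exact ⟨0, fun h1 h2 => absurd ⟨h1, h2⟩ hp⟩
  choose r hr using hav
  set S : Finset ℕ := Q.primeFactors.filter (fun p => ¬ p ∣ m) with hS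
  have hSp : ∀ p ∈ S, p.Prime ∧ ¬ p ∣ m := by
    intro p hp
    rw [hS, mem_filter] at hp
    exact ⟨Nat.prime_of_mem_primeFactors hp.1, hp.2⟩
  obtain ⟨k1, hk1⟩ : ∃ k : ℕ, ∀ p ∈ S, k ≡ r p [MOD p] :=
    ⟨_, (Nat.chineseRemainderOfFinset r (fun p => p) S (fun p hp => (hSp p hp).1.pos.ne')
      (by
        intro p hp p' hp' hne
        exact (Nat.coprime_primes (hSp p hp).1 (hSp p' hp').1).2 hne)).2⟩
  have hmS : Nat.Coprime m (∏ p ∈ S, p) := by
    refine Nat.Coprime.prod_right fun p hp => ?_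
    rw [Nat.coprime_comm, (hSp p hp).1.coprime_iff_not_dvd]
    exact (hSp p hp).2
  obtain ⟨a₁, ha₁m, ha₁S⟩ := Nat.chineseRemainder hmS 0 k1
  have ha₁ : ∀ p : ℕ, p.Prime → p ∣ Q → ∀ w < M, ¬ p ∣ a₁ + z w := by
    intro p hp hpQ w hw
    by_cases hpm : p ∣ m
    · exact hzρ p a₁ w hp hpm ha₁m
    · have hpS : p ∈ S := by
        rw [hS, mem_filter]
        exact ⟨Nat.mem_primeFactors.2 ⟨hp, hpQ, hQ0.ne'⟩, hpm⟩
      have h1 : a₁ ≡ r p [MOD p] := (ha₁S.of_dvd (dvd_prod_of_mem (fun p => p) hpS)).trans (hk1 p hpS)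
      intro hd
      apply hr p hp hpm w hw
      exact (Nat.modEq_zero_iff_dvd).1 ((h1.symm.add_right (z w)).trans ((Nat.modEq_zero_iff_dvd).2 hd))
  have hcopE : ∀ x ∈ I, Int.gcd (E x : ℤ) ((a₁ + z x.1 : ℕ) : ℤ) = 1 := by
    intro x hx
    rw [Int.gcd_natCast_natCast]
    by_contra hcon
    obtain ⟨p, hp, h1, h2⟩ := Nat.Prime.not_coprime_iff_dvd.1 hcon
    have h3 : E x ∣ Q :=
      ((Nat.dvd_mul_left (E x) 4).trans (dvd_prod_of_mem (fun z => 4 * E z) hx)).mul_left m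
    exact ha₁ p hp (h1.trans h3) x.1 (by have := hIlt x hx; omega) h2
  -- the targets
  have htar : ∀ x : ℕ × ℕ, ∃ t : ℕ, x ∈ I → (∀ w < M, ¬ L x.1 x.2 ∣ t + z w) ∧
      J(((t + z x.1 : ℕ) : ℤ) | L x.1 x.2) = c x.1 x.2 * J((E x : ℤ) | a₁ + z x.1) := by
    intro x
    by_cases hx : x ∈ I
    · have hval : c x.1 x.2 * J((E x : ℤ) | a₁ + z x.1) = 1 ∨
          c x.1 x.2 * J((E x : ℤ) | a₁ + z x.1) = -1 := by
        rcases hc x.1 x.2 with h1 | h1 <;>
          rcases jacobiSym.eq_one_or_neg_one (hcopE x hx) with h2 | h2 <;>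
          rw [h1, h2] <;> norm_num
      obtain ⟨t, ht1, ht2⟩ := avoid_sym M (L x.1 x.2) (hL _ _).1
        (by have := (hL x.1 x.2).2.2; omega) z (z x.1) _ hval
      exact ⟨t, fun _ => ⟨ht1, ht2⟩⟩
    · exact ⟨0, fun h => absurd h hx⟩
  choose t ht using htar
  -- the Chinese remainder theorem
  have hLI : Set.Pairwise (I : Set (ℕ × ℕ)) (Function.onFun Nat.Coprime (fun x => L x.1 x.2)) := by
    intro x hx y hy hxy
    refine (Nat.coprime_primes (hL _ _).1 (hL _ _).1).2 ?_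
    intro h
    have h1 : L x.1 x.2 ∣ z y.2 - z y.1 := by
      rw [h]
      exact (hL1 y.1 y.2 (hIlt y hy).1 (hIlt y hy).2).1
    obtain ⟨h3, h4⟩ := hL2 x.1 x.2 y.1 y.2 (hIlt x hx).1 (hIlt x hx).2 (hIlt y hy).1 (hIlt y hy).2 h1
    exact hxy (Prod.ext h3 h4)
  obtain ⟨k, hk⟩ : ∃ k : ℕ, ∀ x ∈ I, k ≡ t x [MOD L x.1 x.2] :=
    ⟨_, (Nat.chineseRemainderOfFinset t (fun x => L x.1 x.2) I
      (fun x _ => (hL _ _).1.pos.ne') hLI).2⟩
  have hcopQ : Nat.Coprime Q (∏ x ∈ I, L x.1 x.2) := by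
    refine Nat.Coprime.prod_right fun x hx => ?_
    rw [Nat.coprime_comm, (hL x.1 x.2).1.coprime_iff_not_dvd]
    intro hd
    rw [hQ, (hL x.1 x.2).1.dvd_mul] at hd
    rcases hd with hd | hd
    · have h1 := Nat.le_of_dvd hm hd
      have h2 := (hL x.1 x.2).2.2
      omega
    · obtain ⟨y, hy, hd⟩ := (Prime.dvd_finsetProd_iff (hL x.1 x.2).1.prime _).1 hd
      rw [(hL x.1 x.2).1.dvd_mul] at hd
      rcases hd with hd | hd
      · have h1 := Nat.le_of_dvd (by norm_num) hd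
        have h2 := (hL x.1 x.2).2.2
        have h3 := Nat.le_of_dvd hm h4
        omega
      · exact hLE x hx y hy hd
  obtain ⟨a, ha1, ha2⟩ := Nat.chineseRemainder hcopQ a₁ k
  have ham : a ≡ 0 [MOD m] := (ha1.of_dvd (Nat.dvd_mul_right _ _)).trans ha₁m
  have haL : ∀ x ∈ I, a ≡ t x [MOD L x.1 x.2] := fun x hx =>
    (ha2.of_dvd (dvd_prod_of_mem (fun z : ℕ × ℕ => L z.1 z.2) hx)).trans (hk x hx)
  set q : ℕ := m * ∏ x ∈ I, (4 * D x) with hq
  have hq0 : 0 < q := Nat.mul_pos hm (prod_pos fun x hx => Nat.mul_pos (by norm_num) (hD0 x hx))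
  have hcopq : ∀ w < M, (a + z w).Coprime q := by
    intro w hw
    by_contra hcon
    obtain ⟨p, hp, h1, h2⟩ := Nat.Prime.not_coprime_iff_dvd.1 hcon
    have h3 : p ∣ Q ∨ ∃ x ∈ I, p = L x.1 x.2 := by
      rw [hq, hp.dvd_mul] at h2
      rcases h2 with h2 | h2
      · exact Or.inl (h2.mul_right _)
      · obtain ⟨x, hx, hd⟩ := (Prime.dvd_finsetProd_iff hp.prime _).1 h2
        rw [hDE x hx, ← mul_assoc, mul_comm 4 (L x.1 x.2), mul_assoc, hp.dvd_mul] at hd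
        rcases hd with hd | hd
        · exact Or.inr ⟨x, hx, (Nat.prime_dvd_prime_iff_eq hp (hL _ _).1).1 hd⟩
        · exact Or.inl ((hd.trans (dvd_prod_of_mem (fun z => 4 * E z) hx)).mul_left m)
    rcases h3 with h3 | ⟨x, hx, h3⟩
    · apply ha₁ p hp h3 w hw
      exact (Nat.modEq_zero_iff_dvd).1 (((ha1.of_dvd h3).symm.add_right (z w)).trans
        ((Nat.modEq_zero_iff_dvd).2 h1))
    · subst h3
      apply (ht x hx).1 w hw
      exact (Nat.modEq_zero_iff_dvd).1 (((haL x hx).symm.add_right (z w)).trans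
        ((Nat.modEq_zero_iff_dvd).2 h1))
  have h2m : 2 ∣ m := (by norm_num : (2 : ℕ) ∣ 4).trans h4
  have hodd : ∀ b w, b ≡ 0 [MOD m] → Odd (b + z w) := by
    intro b w hb
    by_contra hcon
    rw [Nat.not_odd_iff_even, even_iff_two_dvd] at hcon
    exact hzρ 2 b w Nat.prime_two h2m hb hcon
  refine ⟨z, q, a, hq0, hz, Dvd.intro _ rfl, ?_, hcopq, ?_⟩
  · intro x _
    simpa using ham.add (hzm x)
  · intro x y hxy hyM
    have hxI := hmemI x y hxy hyM
    refine ⟨(dvd_prod_of_mem (fun z => 4 * D z) hxI).mul_left m, ?_⟩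
    have haodd := hodd a x ham
    have ha₁odd := hodd a₁ x ha₁m
    have h1 : z y - z x = L x y * E (x, y) := hDE (x, y) hxI
    rw [h1, Nat.cast_mul, jacobiSym.mul_left]
    have h2 : J((L x y : ℤ) | a + z x) = J(((t (x, y) + z x : ℕ) : ℤ) | L x y) := by
      rw [jacobiSym.quadratic_reciprocity_one_mod_four (hL x y).2.1 haodd]
      apply jacobiSym.mod_left'
      have h3 : a + z x ≡ t (x, y) + z x [MOD L x y] := (haL (x, y) hxI).add_right (z x)
      exact_mod_cast h3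
    have h3 : J((E (x, y) : ℤ) | a + z x) = J((E (x, y) : ℤ) | a₁ + z x) := by
      rw [jacobiSym.mod_right' _ haodd, jacobiSym.mod_right' _ ha₁odd]
      have h4 : a + z x ≡ a₁ + z x [MOD 4 * E (x, y)] :=
        (ha1.of_dvd ((dvd_prod_of_mem (fun z => 4 * E z) hxI).mul_left m)).add_right (z x)
      rw [show (a + z x) % (4 * E (x, y)) = (a₁ + z x) % (4 * E (x, y)) from h4]
    have h4 := jacobiSym.sq_one (hcopE (x, y) hxI)
    rw [h2, h3, (ht (x, y) hxI).2]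
    simp only at h4 ⊢
    rw [mul_assoc, ← sq, h4, mul_one]

end Pool.Agent.R494.OT
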