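import Mathlib
import Pool.Agent.R494.OT2
import Pool.Agent.TH779.Ord.Main

/-! Blocks of consecutive primes with prescribed classes and symbols along a pattern. -/

set_option autoImplicit false

namespace Pool.Agent.R494.OT

open Finset NumberTheorySymbols Pool.Agent.TH779.Ord

theorem block_step (W m : ℕ) (hW : 1 ≤ W) (hm : 0 < m) (ρ : ℕ → ℕ) (hρ : ∀ g, (ρ g).Coprime m)
    (c : ℕ → ℕ → ℤ) (hc : ∀ x y, c x y = 1 ∨ c x y = -1) :
    ∃ γ : ℕ → ℕ, (∀ i j, i < j → j ≤ W → γ i < γ j) ∧ (∀ i ≤ W, γ i < 40 * (2 * W + 1) * (W + 1)) ∧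
      ∃ C : ℕ, ∀ N0 : ℕ, ∃ s > N0, (∀ i ≤ W, Nat.nth Nat.Prime (s + i) ≡ ρ (γ i) [MOD m]) ∧
        Nat.nth Nat.Prime (s + W) ≤ Nat.nth Nat.Prime s + C ∧
        ∀ i j, i < j → j ≤ W →
          J((Nat.nth Nat.Prime (s + j) : ℤ) | Nat.nth Nat.Prime (s + i)) = c (γ i) (γ j) := by
  classical
  set T : ℕ := 40 * (2 * W + 1) * (W + 1) with hT
  set lam : ℝ := 2 * W + 1 with hlam
  have hk0 : (0 : ℝ) ≤ W := Nat.cast_nonneg W
  have hlam1 : 1 ≤ lam := by rw [hlam]; linarith
  have hT1 : 1 ≤ T := by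
    have : 0 < T := by rw [hT]; positivity
    omega
  obtain ⟨K, hK, hex⟩ := exact_pos T lam hT1 hlam1
  set M := T * K with hM
  set m' : ℕ := m * (4 * (M + 1).factorial) with hm'
  have hm'0 : 0 < m' := Nat.mul_pos hm (Nat.mul_pos (by norm_num) (Nat.factorial_pos _))
  have hlift : ∀ g, ∃ r : ℕ, r.Coprime m' ∧ r ≡ ρ g [MOD m] := by
    intro g
    obtain ⟨p, hp, hpp, hpr⟩ := Nat.forall_exists_prime_gt_and_modEq m' hm.ne' (hρ g)
    refine ⟨p, ?_, hpr⟩
    rw [hpp.coprime_iff_not_dvd]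
    intro hd
    have := Nat.le_of_dvd hm'0 hd
    omega
  choose ρ' hρ'1 hρ'2 using hlift
  obtain ⟨z, q, a, hq0, hz, hmq, hzρ, hcopq, hsym⟩ := choose_cls M m' hm'0
    ((Dvd.intro _ rfl : 4 ∣ 4 * (M + 1).factorial).mul_left m)
    ((Dvd.intro_left _ rfl : (M + 1).factorial ∣ 4 * (M + 1).factorial).mul_left m)
    (fun x => ρ' (x / K)) (fun x => hρ'1 _) (fun x y => c (x / K) (y / K)) (fun x y => hc _ _)
  have h4q : 4 ∣ q := ((Dvd.intro _ rfl : 4 ∣ 4 * (M + 1).factorial).mul_left m).trans hmq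
  obtain ⟨J, hJ1, hJ2, hJ3⟩ := hex q a hq0 z (fun x _ y _ h => hz.injective h) hcopq
    (by
      intro p hp hpq
      refine avoid M p hp ?_ z
      by_contra hcon
      apply hpq
      exact (((hp.dvd_factorial).2 (by omega)).trans
        ((Dvd.intro_left _ rfl : (M + 1).factorial ∣ 4 * (M + 1).factorial).mul_left m)).trans hmq)
  have hTk : (W : ℝ) + 1 ≤ (T : ℝ) / (40 * lam) := by
    rw [le_div_iff₀ (by positivity), hT, hlam]
    push_cast
    nlinarith
  obtain ⟨hJc, hinner⟩ := count_inner (k := W) (by omega : 1 ≤ K) hlam1 J hJ1 (hTk.trans hJ2)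
  obtain ⟨e₀, he₀, hblock⟩ := good_block hlam1 hW hJc _ hinner
  have hempty : (Ico e₀ (e₀ + W)) ∩ ((range (J.card - 1)).filter
      (fun e => el J e / K = el J (e + 1) / K)) = ∅ := by
    rw [← card_eq_zero]
    have h1 : (2 * (W : ℝ)) / lam < 1 := by
      rw [div_lt_one (by positivity), hlam]
      linarith
    have h2 := hblock.trans_lt h1
    have h3 : ((Ico e₀ (e₀ + W)) ∩ ((range (J.card - 1)).filter
      (fun e => el J e / K = el J (e + 1) / K))).card < 1 := by exact_mod_cast h2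
    omega
  have hstep : ∀ i, i < W → el J (e₀ + i) / K < el J (e₀ + i + 1) / K := by
    intro i hi
    have h1 : el J (e₀ + i) < el J (e₀ + i + 1) := el_lt J (by omega) (by omega)
    have h2 : el J (e₀ + i) / K ≤ el J (e₀ + i + 1) / K := Nat.div_le_div_right h1.le
    refine lt_of_le_of_ne h2 fun h3 => ?_
    have h4 : e₀ + i ∈ (Ico e₀ (e₀ + W)) ∩ ((range (J.card - 1)).filter
        (fun e => el J e / K = el J (e + 1) / K)) := by
      rw [mem_inter, mem_Ico, mem_filter, mem_range]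
      exact ⟨⟨by omega, by omega⟩, by omega, h3⟩
    rw [hempty] at h4
    simp at h4
  have hel : ∀ i j, i < j → j ≤ W → el J (e₀ + i) < el J (e₀ + j) := fun i j hij hj =>
    el_lt J (by omega) (by omega)
  have hγ : ∀ i j, i < j → j ≤ W → el J (e₀ + i) / K < el J (e₀ + j) / K := by
    intro i j hij
    induction j with
    | zero => omega
    | succ j ih =>
      intro hj
      rcases Nat.lt_or_eq_of_le (Nat.lt_succ_iff.1 hij) with h | h
      · exact (ih h (by omega)).trans (hstep j (by omega))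
      · rw [h]; exact hstep j (by omega)
  have hmem : ∀ i ≤ W, el J (e₀ + i) ∈ J := fun i hi => el_mem J (by omega)
  refine ⟨fun i => el J (e₀ + i) / K, hγ, fun i hi => ?_, z (el J (e₀ + W)), fun N0 => ?_⟩
  · exact (Nat.div_lt_iff_lt_mul (by omega)).2 (hJ1 _ (hmem i hi))
  · obtain ⟨n, ⟨hn1, hn2, hn3⟩, hn4⟩ := hJ3.exists_gt (Nat.nth Nat.Prime N0 + 2)
    obtain ⟨s, hs⟩ := nth_block n W (fun i => z (el J (e₀ + i)))
      (fun i j hij hj => hz (hel i j hij hj))
      (fun i hi => hn2 _ (hmem i hi))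
      (by
        intro y hy0 hyk hyp
        obtain ⟨x, hxJ, hyx⟩ := hn3 y ⟨el J (e₀ + W), hJ1 _ (hmem W le_rfl), hyk⟩ hyp
        obtain ⟨e, he, hex⟩ := el_surj J hxJ
        rw [hyx] at hy0 hyk
        have h1 := hz.le_iff_le.1 hy0
        have h2 := hz.le_iff_le.1 hyk
        rw [← hex] at h1 h2
        have h3 : e₀ + 0 ≤ e := by
          by_contra hcon
          have := el_lt J (show e < e₀ + 0 by omega) (by omega)
          omega
        have h4 : e ≤ e₀ + W := by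
          by_contra hcon
          have := el_lt J (show e₀ + W < e by omega) he
          omega
        refine ⟨e - e₀, by omega, ?_⟩
        rw [hyx, ← hex, show e₀ + (e - e₀) = e by omega])
    have hs0 : Nat.nth Nat.Prime s = n + z (el J (e₀ + 0)) := hs 0 (Nat.zero_le _)
    have hNn : Nat.nth Nat.Prime N0 < Nat.nth Nat.Prime s := by
      rw [hs0]
      omega
    have hsN : N0 < s := (Nat.nth_strictMono Nat.infinite_setOfPred_prime).lt_iff_lt.1 hNn
    refine ⟨s, hsN, fun i hi => ?_, ?_, fun i j hij hj => ?_⟩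
    · rw [hs i hi]
      have h1 : n + z (el J (e₀ + i)) ≡ a + z (el J (e₀ + i)) [MOD m'] :=
        (hn1.of_dvd hmq).add_right _
      have h2 := (h1.trans (hzρ _ (hJ1 _ (hmem i hi)))).of_dvd (Dvd.intro _ rfl : m ∣ m')
      exact h2.trans (hρ'2 _)
    · rw [hs W le_rfl, hs0]
      omega
    · rw [hs i (by omega), hs j hj]
      have hxy := hel i j hij hj
      have hyM := hJ1 _ (hmem j hj)
      have hxM := hJ1 _ (hmem i (by omega))
      obtain ⟨h4D, hval⟩ := hsym _ _ hxy hyM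
      have hzlt := hz hxy
      have hp := hn2 _ (hmem i (by omega))
      have hodd : Odd (n + z (el J (e₀ + i))) := hp.odd_of_ne_two (by omega)
      have haodd : Odd (a + z (el J (e₀ + i))) := by
        have h1 : (a + z (el J (e₀ + i))).Coprime 2 :=
          Nat.Coprime.coprime_dvd_right ((by norm_num : (2 : ℕ) ∣ 4).trans h4q) (hcopq _ hxM)
        exact Nat.coprime_two_right.1 h1
      have h1 : J(((n + z (el J (e₀ + j)) : ℕ) : ℤ) | n + z (el J (e₀ + i))) =
          J(((z (el J (e₀ + j)) - z (el J (e₀ + i)) : ℕ) : ℤ) | n + z (el J (e₀ + i))) := by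
        apply jacobiSym.mod_left'
        have : ((n + z (el J (e₀ + j)) : ℕ) : ℤ) =
            ((z (el J (e₀ + j)) - z (el J (e₀ + i)) : ℕ) : ℤ) +
              ((n + z (el J (e₀ + i)) : ℕ) : ℤ) := by
          rw [Nat.cast_sub hzlt.le]
          push_cast
          ring
        rw [this, Int.add_emod_right]
      rw [h1, jacobiSym.mod_right' _ hodd,
        show (n + z (el J (e₀ + i))) % (4 * (z (el J (e₀ + j)) - z (el J (e₀ + i)))) =
          (a + z (el J (e₀ + i))) % (4 * (z (el J (e₀ + j)) - z (el J (e₀ + i)))) from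
          (hn1.of_dvd h4D).add_right _, ← jacobiSym.mod_right' _ haodd]
      exact hval

/-- the index class and the offsets -/
theorem offset_step (n e k m : ℕ) (hn : 1 ≤ n) (o : ℕ → ℕ) (ho : ∀ i j, i < j → j ≤ k → o i < o j)
    (hm : 0 < m) (ρ : ℕ → ℕ) (hρ : ∀ g, (ρ g).Coprime m)
    (c : ℕ → ℕ → ℤ) (hc : ∀ x y, c x y = 1 ∨ c x y = -1) :
    ∃ γ : ℕ → ℕ, (∀ i j, i < j → j ≤ k → γ i < γ j) ∧
      (∀ i ≤ k, γ i < 40 * (2 * (o k + n) + 1) * (o k + n + 1)) ∧
      ∃ C : ℕ, ∀ N0 : ℕ, ∃ s > N0, s + 1 ≡ e [MOD n] ∧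
        (∀ i ≤ k, Nat.nth Nat.Prime (s + o i) ≡ ρ (γ i) [MOD m]) ∧
        Nat.nth Nat.Prime (s + o k) ≤ Nat.nth Nat.Prime s + C ∧
        ∀ i j, i < j → j ≤ k →
          J((Nat.nth Nat.Prime (s + o j) : ℤ) | Nat.nth Nat.Prime (s + o i)) = c (γ i) (γ j) := by
  classical
  obtain ⟨γ, hγ1, hγ2, C, hC⟩ := block_step (o k + n) m (by omega) hm ρ hρ c hc
  have hole : ∀ i ≤ k, o i ≤ o k := by
    intro i hi
    rcases Nat.lt_or_eq_of_le hi with h | h
    · exact (ho i k h le_rfl).le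
    · rw [h]
  -- one shift for infinitely many blocks
  set B : Set ℕ := {s : ℕ | (∀ i ≤ o k + n, Nat.nth Nat.Prime (s + i) ≡ ρ (γ i) [MOD m]) ∧
        Nat.nth Nat.Prime (s + (o k + n)) ≤ Nat.nth Nat.Prime s + C ∧
        ∀ i j, i < j → j ≤ o k + n →
          J((Nat.nth Nat.Prime (s + j) : ℤ) | Nat.nth Nat.Prime (s + i)) = c (γ i) (γ j)} with hB
  have hBinf : B.Infinite := by
    rw [Set.infinite_iff_exists_gt]
    intro N0
    obtain ⟨s, hs, h⟩ := hC N0
    exact ⟨s, h, hs⟩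
  have hsh : ∀ s : ℕ, ∃ i0 < n, s + i0 + 1 ≡ e [MOD n] := by
    intro s
    have hn0 : 0 < n := hn
    refine ⟨(e + n * (s + 1) - (s + 1)) % n, Nat.mod_lt _ hn0, ?_⟩
    have hle : s + 1 ≤ n * (s + 1) := Nat.le_mul_of_pos_left _ hn0
    have h1 : (e + n * (s + 1) - (s + 1)) % n ≡ e + n * (s + 1) - (s + 1) [MOD n] :=
      Nat.mod_modEq _ _
    have h2 := h1.add_right (s + 1)
    rw [Nat.sub_add_cancel (by omega)] at h2
    have h3 : e + n * (s + 1) ≡ e [MOD n] := by
      have : n * (s + 1) ≡ 0 [MOD n] := (Nat.modEq_zero_iff_dvd).2 (Dvd.intro _ rfl)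
      simpa using (Nat.ModEq.refl e).add this
    have h4 := h2.trans h3
    have h5 : s + (e + n * (s + 1) - (s + 1)) % n + 1 =
        (e + n * (s + 1) - (s + 1)) % n + (s + 1) := by ring
    rw [h5]
    exact h4
  obtain ⟨i0, hi0, hinf⟩ : ∃ i0 < n, {s ∈ B | s + i0 + 1 ≡ e [MOD n]}.Infinite := by
    by_contra hcon
    push Not at hcon
    apply hBinf
    have hcov : B ⊆ ⋃ i0 : Fin n, {s ∈ B | s + i0 + 1 ≡ e [MOD n]} := by
      intro s hs
      obtain ⟨i0, hi0, h⟩ := hsh s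
      rw [Set.mem_iUnion]
      exact ⟨⟨i0, hi0⟩, hs, h⟩
    refine Set.Finite.subset (Set.finite_iUnion fun i0 : Fin n => ?_) hcov
    exact hcon i0 i0.2
  refine ⟨fun i => γ (i0 + o i), fun i j hij hj => hγ1 _ _ ?_ ?_, fun i hi => hγ2 _ ?_, C,
    fun N0 => ?_⟩
  · have := ho i j hij hj
    omega
  · have := hole j hj
    omega
  · have := hole i hi
    omega
  · obtain ⟨s, ⟨⟨hs1, hs2, hs3⟩, hs4⟩, hs5⟩ := hinf.exists_gt N0
    refine ⟨s + i0, by omega, hs4, fun i hi => ?_, ?_, fun i j hij hj => ?_⟩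
    · have h1 := hole i hi
      rw [add_assoc]
      exact hs1 _ (by omega)
    · have h1 : Nat.nth Nat.Prime (s + i0 + o k) ≤ Nat.nth Nat.Prime (s + (o k + n)) :=
        (Nat.nth_monotone Nat.infinite_setOfPred_prime) (by omega)
      have h2 : Nat.nth Nat.Prime s ≤ Nat.nth Nat.Prime (s + i0) :=
        (Nat.nth_monotone Nat.infinite_setOfPred_prime) (by omega)
      omega
    · have h1 := ho i j hij hj
      have h2 := hole j hj
      have h3 := hs3 (i0 + o i) (i0 + o j) (by omega) (by omega)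
      rw [add_assoc, add_assoc]
      exact h3

end Pool.Agent.R494.OT
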