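import Mathlib
import Pool.Agent.R494.QR2

set_option autoImplicit false

/-!
Counting the graphs of quadratic residues of consecutive primes.
-/

namespace Pool.Agent.R494.QR

open Finset NumberTheorySymbols

/-- the pairs `i < j` -/
abbrev Pr (n : ℕ) : Type := {x : Fin n × Fin n // x.1 < x.2}

theorem card_Pr (n : ℕ) : Fintype.card (Pr n) = n.choose 2 := by
  rw [Fintype.card_subtype]
  have h1 : (univ.filter (fun x : Fin n × Fin n => x.1 < x.2)).card =
      ∑ j : Fin n, (univ.filter (fun i : Fin n => i < j)).card := by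
    rw [card_eq_sum_card_fiberwise (f := fun x : Fin n × Fin n => x.2) (t := univ)
      (fun _ _ => mem_coe.2 (mem_univ _))]
    refine sum_congr rfl fun j _ => ?_
    refine card_bij (fun x _ => x.1) ?_ ?_ ?_
    · intro x hx
      simp only [mem_filter, mem_univ, true_and] at hx ⊢
      rw [← hx.2]; exact hx.1
    · intro x hx y hy hxy
      simp only [mem_filter, mem_univ, true_and] at hx hy
      exact Prod.ext hxy (hx.2.trans hy.2.symm)
    · intro i hi
      simp only [mem_filter, mem_univ, true_and] at hi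
      exact ⟨(i, j), by simpa using hi, rfl⟩
  rw [h1]
  have h2 : ∀ j : Fin n, (univ.filter (fun i : Fin n => i < j)).card = (j : ℕ) := by
    intro j
    have : univ.filter (fun i : Fin n => i < j) = Iio j := by ext; simp
    rw [this, Fin.card_Iio]
  simp_rw [h2]
  rw [Fin.sum_univ_eq_sum_range (fun j => j) n, sum_range_id, Nat.choose_two_right]

theorem mono_count (N c : ℕ) :
    (univ.filter (fun y : Fin c → Fin N => StrictMono y)).card ≤ N.choose c := by
  classical
  have h1 : (powersetCard c (univ : Finset (Fin N))).card = N.choose c := by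
    rw [card_powersetCard, card_univ, Fintype.card_fin]
  rw [← h1]
  apply card_le_card_of_injOn (fun y : Fin c → Fin N => univ.image y)
  · intro y hy
    rw [mem_coe, mem_filter] at hy
    rw [mem_coe, mem_powersetCard]
    refine ⟨subset_univ _, ?_⟩
    rw [card_image_of_injective _ hy.2.injective, card_univ, Fintype.card_fin]
  · intro y hy y' hy' h
    rw [mem_coe, mem_filter] at hy hy'
    apply (hy.2.range_inj hy'.2).1
    have h2 : univ.image y = univ.image y' := h
    have h3 : ((univ.image y : Finset (Fin N)) : Set (Fin N)) = (univ.image y' : Finset (Fin N)) := by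
      rw [h2]
    simpa using h3

/-- the fibres of a restriction -/
theorem fibre {I' I : Type} [Fintype I'] [Fintype I] [DecidableEq I] [DecidableEq I'] (ι : I' → I)
    (hι : Function.Injective ι) (s : I' → Bool) :
    (univ.filter (fun e : I → Bool => e ∘ ι = s)).card * 2 ^ Fintype.card I' ≤ 2 ^ Fintype.card I := by
  classical
  have h1 : (univ : Finset (I' → Bool)).card = 2 ^ Fintype.card I' := by
    rw [card_univ, Fintype.card_fun, Fintype.card_bool]
  have h2 : (univ : Finset (I → Bool)).card = 2 ^ Fintype.card I := by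
    rw [card_univ, Fintype.card_fun, Fintype.card_bool]
  rw [← h1, ← h2, ← card_product]
  apply card_le_card_of_injOn (fun x : (I → Bool) × (I' → Bool) => Function.extend ι x.2 x.1)
  · intro x _
    exact mem_coe.2 (mem_univ _)
  · rintro ⟨e, u⟩ hx ⟨e', u'⟩ hx' h
    simp only [coe_product, Set.mem_prod, mem_coe, mem_filter, mem_univ, true_and, and_true] at hx hx'
    simp only at h
    have h3 : u = u' := by
      funext i
      have := congrFun h (ι i)
      rwa [hι.extend_apply, hι.extend_apply] at this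
    have h4 : e = e' := by
      funext i
      by_cases hi : ∃ j, ι j = i
      · obtain ⟨j, rfl⟩ := hi
        have h5 := congrFun hx j
        have h6 := congrFun hx' j
        simp only [Function.comp_apply] at h5 h6
        rw [h5, h6]
      · have := congrFun h i
        rwa [Function.extend_apply' _ _ _ hi, Function.extend_apply' _ _ _ hi] at this
    rw [h3, h4]

/-- If every pattern on `T` points contains a member of `S`, then `S` is large. -/
theorem many_patterns {T n : ℕ} (S : Set (SimpleGraph (Fin n))) (hS : S.Finite)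
    (h : ∀ e : Pr T → Bool, ∃ G ∈ S, ∃ y : {y : Fin n → Fin T // StrictMono y},
      ∀ x : Pr n, G.Adj x.1.1 x.1.2 ↔ e ⟨(y.1 x.1.1, y.1 x.1.2), y.2 x.2⟩ = true) :
    2 ^ (n.choose 2) ≤ T.choose n * S.ncard := by
  classical
  set ι : {y : Fin n → Fin T // StrictMono y} → Pr n → Pr T :=
    fun y x => ⟨(y.1 x.1.1, y.1 x.1.2), y.2 x.2⟩ with hι
  have hιinj : ∀ y, Function.Injective (ι y) := by
    intro y x x' hxx
    have h1 := congrArg Subtype.val hxx
    simp only [hι, Prod.mk.injEq] at h1
    exact Subtype.ext (Prod.ext (y.2.injective h1.1) (y.2.injective h1.2))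
  set sG : SimpleGraph (Fin n) → Pr n → Bool := fun G x => decide (G.Adj x.1.1 x.1.2) with hsG
  set A : SimpleGraph (Fin n) × {y : Fin n → Fin T // StrictMono y} → Finset (Pr T → Bool) :=
    fun t => univ.filter (fun e => e ∘ ι t.2 = sG t.1) with hA
  have h1 : (univ : Finset (Pr T → Bool)) ⊆ (hS.toFinset ×ˢ univ).biUnion A := by
    intro e _
    obtain ⟨G, hG, y, hy⟩ := h e
    rw [mem_biUnion]
    refine ⟨(G, y), ?_, ?_⟩
    · rw [mem_product]
      exact ⟨hS.mem_toFinset.2 hG, mem_univ _⟩
    · rw [hA]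
      simp only [mem_filter, mem_univ, true_and]
      funext x
      simp only [Function.comp_apply, hι, hsG]
      have := hy x
      by_cases hadj : G.Adj x.1.1 x.1.2
      · rw [this.1 hadj, decide_eq_true hadj]
      · rw [decide_eq_false hadj]
        exact Bool.eq_false_iff.2 (fun h => hadj (this.2 h))
  have h2 : (univ : Finset (Pr T → Bool)).card = 2 ^ Fintype.card (Pr T) := by
    rw [card_univ, Fintype.card_fun, Fintype.card_bool]
  have h3 : 2 ^ Fintype.card (Pr T) ≤ ∑ t ∈ hS.toFinset ×ˢ univ, (A t).card := by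
    rw [← h2]
    exact (card_le_card h1).trans card_biUnion_le
  have h4 : ∀ t ∈ hS.toFinset ×ˢ (univ : Finset {y : Fin n → Fin T // StrictMono y}),
      (A t).card * 2 ^ Fintype.card (Pr n) ≤ 2 ^ Fintype.card (Pr T) := fun t _ =>
    fibre (ι t.2) (hιinj t.2) (sG t.1)
  have h5 : 2 ^ Fintype.card (Pr T) * 2 ^ Fintype.card (Pr n) ≤
      (hS.toFinset ×ˢ (univ : Finset {y : Fin n → Fin T // StrictMono y})).card *
        2 ^ Fintype.card (Pr T) := by
    calc 2 ^ Fintype.card (Pr T) * 2 ^ Fintype.card (Pr n)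
        ≤ (∑ t ∈ hS.toFinset ×ˢ univ, (A t).card) * 2 ^ Fintype.card (Pr n) :=
          Nat.mul_le_mul_right _ h3
      _ = ∑ t ∈ hS.toFinset ×ˢ univ, (A t).card * 2 ^ Fintype.card (Pr n) := sum_mul _ _ _
      _ ≤ ∑ _t ∈ hS.toFinset ×ˢ (univ : Finset {y : Fin n → Fin T // StrictMono y}),
            2 ^ Fintype.card (Pr T) := sum_le_sum h4
      _ = _ := by rw [sum_const, smul_eq_mul]
  have h6 : 2 ^ Fintype.card (Pr n) ≤
      (hS.toFinset ×ˢ (univ : Finset {y : Fin n → Fin T // StrictMono y})).card := by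
    have hpos : 0 < 2 ^ Fintype.card (Pr T) := by positivity
    rw [mul_comm] at h5
    exact Nat.le_of_mul_le_mul_right h5 hpos
  rw [card_product, card_univ, card_Pr, Fintype.card_subtype] at h6
  refine h6.trans ?_
  rw [Set.ncard_eq_toFinset_card _ hS, mul_comm]
  exact Nat.mul_le_mul_right _ (mono_count T n)

/-- the graphs of quadratic residues which occur infinitely often -/
def GS (k m r : ℕ) : Set (SimpleGraph (Fin (k + 1))) :=
  {G | {s : ℕ | (∀ i : Fin (k + 1), Nat.nth Nat.Prime (s + i) ≡ r [MOD m]) ∧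
    ∀ i j : Fin (k + 1), i < j → (G.Adj i j ↔
      IsSquare ((Nat.nth Nat.Prime (s + j) : ℕ) : ZMod (Nat.nth Nat.Prime (s + i))))}.Infinite}

theorem graphs4 (k m r T : ℕ) (hT : T = 40 * (2 * k + 1) * (k + 1)) (hk : 1 ≤ k) (hm : 0 < m)
    (h4 : 4 ∣ m) (hr : r.Coprime m) :
    2 ^ ((k + 1).choose 2) ≤ T.choose (k + 1) * (GS k m r).ncard := by
  classical
  apply many_patterns _ (Set.toFinite _)
  intro e
  set c : ℕ → ℕ → ℤ := fun x y => if h : x < y ∧ y < T then
    (if e ⟨(⟨x, h.1.trans h.2⟩, ⟨y, h.2⟩), h.1⟩ = true then 1 else -1) else 1 with hc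
  have hc1 : ∀ x y, c x y = 1 ∨ c x y = -1 := by
    intro x y
    simp only [hc]
    split_ifs <;> simp
  obtain ⟨γ, hγ1, hγ2, hγ3⟩ := main_step k m r hk hm h4 hr c hc1
  rw [← hT] at hγ2
  set y : Fin (k + 1) → Fin T := fun i => ⟨γ i, hγ2 i (by omega)⟩ with hy
  have hymono : StrictMono y := by
    intro i j hij
    exact hγ1 i j hij (by omega)
  set G : SimpleGraph (Fin (k + 1)) :=
    { Adj := fun i j => (i < j ∧ c (γ i) (γ j) = 1) ∨ (j < i ∧ c (γ j) (γ i) = 1)
      symm := ⟨fun a b h => h.symm⟩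
      loopless := ⟨fun a h => by
        rcases h with h | h <;> exact lt_irrefl _ h.1⟩ } with hG
  have hGadj : ∀ i j : Fin (k + 1), i < j → (G.Adj i j ↔ c (γ i) (γ j) = 1) := by
    intro i j hij
    constructor
    · rintro (h | h)
      · exact h.2
      · exact absurd h.1 (not_lt.2 hij.le)
    · intro h
      exact Or.inl ⟨hij, h⟩
  refine ⟨G, ?_, ⟨y, hymono⟩, ?_⟩
  · rw [GS, Set.mem_ofPred_eq, Set.infinite_iff_exists_gt]
    intro N0
    obtain ⟨s, hs, hs1, hs2⟩ := hγ3 (N0 + k + 2)
    refine ⟨s, ⟨fun i => hs1 i (by omega), fun i j hij => ?_⟩, by omega⟩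
    rw [hGadj i j hij]
    have h1 := hs2 i j hij (by omega)
    have hpi : (Nat.nth Nat.Prime (s + i)).Prime := Nat.prime_nth_prime _
    haveI : Fact (Nat.nth Nat.Prime (s + i)).Prime := ⟨hpi⟩
    rw [← h1, ← jacobiSym.legendreSym.to_jacobiSym]
    have hlt : Nat.nth Nat.Prime (s + i) < Nat.nth Nat.Prime (s + j) :=
      Nat.nth_strictMono Nat.infinite_setOfPred_prime (by
        have : (i : ℕ) < j := hij
        omega)
    have hpj : (Nat.nth Nat.Prime (s + j)).Prime := Nat.prime_nth_prime _
    have hne : (((Nat.nth Nat.Prime (s + j) : ℕ) : ℤ) : ZMod (Nat.nth Nat.Prime (s + i))) ≠ 0 := by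
      intro h
      have h2 : ((Nat.nth Nat.Prime (s + j) : ℕ) : ZMod (Nat.nth Nat.Prime (s + i))) = 0 := by
        exact_mod_cast h
      rw [ZMod.natCast_eq_zero_iff] at h2
      have h3 := (Nat.prime_dvd_prime_iff_eq hpi hpj).1 h2
      omega
    rw [legendreSym.eq_one_iff _ hne]
    simp
  · intro x
    rw [hGadj _ _ x.2]
    simp only [hc, hy]
    have h1 : γ x.1.1 < γ x.1.2 ∧ γ x.1.2 < T := ⟨hγ1 _ _ x.2 (by omega), hγ2 _ (by omega)⟩
    rw [dif_pos h1]
    split_ifs with h2
    · exact ⟨fun _ => h2, fun _ => rfl⟩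
    · exact ⟨fun h => absurd h (by norm_num), fun h => absurd h h2⟩

/-- the general modulus -/
theorem graphs (k m r : ℕ) (hk : 1 ≤ k) (hm : 0 < m) (hr : r.Coprime m) :
    2 ^ ((k + 1).choose 2) ≤ (40 * (2 * k + 1) * (k + 1)).choose (k + 1) * (GS k m r).ncard := by
  obtain ⟨p, hp, hpp, hpr⟩ := Nat.forall_exists_prime_gt_and_modEq (4 * m) hm.ne' hr
  have hcop : p.Coprime (4 * m) := by
    rw [hpp.coprime_iff_not_dvd]
    intro hd
    have := Nat.le_of_dvd (by omega) hd
    omega
  refine (graphs4 k (4 * m) p _ rfl hk (by omega) (Dvd.intro _ rfl) hcop).trans (Nat.mul_le_mul_left _ ?_)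
  refine Set.ncard_le_ncard ?_ (Set.toFinite _)
  intro G hG
  refine hG.mono ?_
  rintro s ⟨h1, h2⟩
  exact ⟨fun i => ((h1 i).of_dvd (Dvd.intro_left _ rfl)).trans hpr, h2⟩

end Pool.Agent.R494.QR
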