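import Mathlib
import Pool.Agent.R494.OT3
import Pool.Agent.R494.QR3

/-! Counting the patterns of classes and residue graphs of primes at given offsets of the index. -/

set_option autoImplicit false

namespace Pool.Agent.R494.OT

open Finset NumberTheorySymbols Pool.Agent.R494.QR

/-- the fibres of a restriction -/
theorem fibre_gen {I' I β : Type} [Fintype I'] [Fintype I] [Fintype β] [DecidableEq I]
    [DecidableEq I'] [DecidableEq β] (ι : I' → I)
    (hι : Function.Injective ι) (s : I' → β) :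
    (univ.filter (fun e : I → β => e ∘ ι = s)).card * Fintype.card β ^ Fintype.card I' ≤
      Fintype.card β ^ Fintype.card I := by
  classical
  have h1 : (univ : Finset (I' → β)).card = Fintype.card β ^ Fintype.card I' := by
    rw [card_univ, Fintype.card_fun]
  have h2 : (univ : Finset (I → β)).card = Fintype.card β ^ Fintype.card I := by
    rw [card_univ, Fintype.card_fun]
  rw [← h1, ← h2, ← card_product]
  apply card_le_card_of_injOn (fun x : (I → β) × (I' → β) => Function.extend ι x.2 x.1)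
  · intro x _
    exact mem_coe.2 (mem_univ _)
  · rintro ⟨e, u⟩ hx ⟨e', u'⟩ hx' h
    simp only [coe_product, Set.mem_prod, mem_coe, mem_filter, mem_univ, true_and, and_true] at hx hx'
    simp only at h
    have h3 : u = u' := by
      funext i
      have := congrFun h (ι i)
      rwa [hι.extend_apply, hι.extend_apply] at this
    have h4 : e = e' := by
      funext i
      by_cases hi : ∃ j, ι j = i
      · obtain ⟨j, rfl⟩ := hi
        have h5 := congrFun hx j
        have h6 := congrFun hx' j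
        simp only [Function.comp_apply] at h5 h6
        rw [h5, h6]
      · have := congrFun h i
        rwa [Function.extend_apply' _ _ _ hi, Function.extend_apply' _ _ _ hi] at this
    rw [h3, h4]

/-- If every coloured pattern on `T` points contains a member of `S`, then `S` is large. -/
theorem many_pairs {T n : ℕ} {β : Type} [Fintype β] [DecidableEq β] (hβ : 0 < Fintype.card β)
    (S : Set ((Fin n → β) × SimpleGraph (Fin n)))
    (h : ∀ (u : Fin T → β) (e : Pr T → Bool), ∃ x ∈ S, ∃ y : {y : Fin n → Fin T // StrictMono y},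
      u ∘ y.1 = x.1 ∧
      ∀ w : Pr n, x.2.Adj w.1.1 w.1.2 ↔ e ⟨(y.1 w.1.1, y.1 w.1.2), y.2 w.2⟩ = true) :
    Fintype.card β ^ n * 2 ^ (n.choose 2) ≤ T.choose n * S.ncard := by
  classical
  have hS : S.Finite := Set.toFinite _
  set ι : {y : Fin n → Fin T // StrictMono y} → Pr n → Pr T :=
    fun y x => ⟨(y.1 x.1.1, y.1 x.1.2), y.2 x.2⟩ with hι
  have hιinj : ∀ y, Function.Injective (ι y) := by
    intro y x x' hxx
    have h1 := congrArg Subtype.val hxx
    simp only [hι, Prod.mk.injEq] at h1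
    exact Subtype.ext (Prod.ext (y.2.injective h1.1) (y.2.injective h1.2))
  set sG : SimpleGraph (Fin n) → Pr n → Bool := fun G x => decide (G.Adj x.1.1 x.1.2) with hsG
  set A1 : ((Fin n → β) × SimpleGraph (Fin n)) × {y : Fin n → Fin T // StrictMono y} →
      Finset (Fin T → β) := fun t => univ.filter (fun u => u ∘ t.2.1 = t.1.1) with hA1
  set A2 : ((Fin n → β) × SimpleGraph (Fin n)) × {y : Fin n → Fin T // StrictMono y} →
      Finset (Pr T → Bool) := fun t => univ.filter (fun e => e ∘ ι t.2 = sG t.1.2) with hA2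
  have h1 : (univ : Finset ((Fin T → β) × (Pr T → Bool))) ⊆
      (hS.toFinset ×ˢ univ).biUnion (fun t => A1 t ×ˢ A2 t) := by
    rintro ⟨u, e⟩ _
    obtain ⟨x, hx, y, hy1, hy⟩ := h u e
    rw [mem_biUnion]
    refine ⟨(x, y), ?_, ?_⟩
    · rw [mem_product]
      exact ⟨hS.mem_toFinset.2 hx, mem_univ _⟩
    · rw [mem_product, hA1, hA2]
      simp only [mem_filter, mem_univ, true_and]
      refine ⟨hy1, ?_⟩
      funext w
      simp only [Function.comp_apply, hι, hsG]
      have := hy w
      by_cases hadj : x.2.Adj w.1.1 w.1.2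
      · rw [this.1 hadj, decide_eq_true hadj]
      · rw [decide_eq_false hadj]
        exact Bool.eq_false_iff.2 (fun h => hadj (this.2 h))
  set N1 := Fintype.card β ^ T with hN1
  set N2 := 2 ^ Fintype.card (Pr T) with hN2
  set M1 := Fintype.card β ^ n with hM1
  set M2 := 2 ^ Fintype.card (Pr n) with hM2
  have h2 : (univ : Finset ((Fin T → β) × (Pr T → Bool))).card = N1 * N2 := by
    rw [card_univ, Fintype.card_prod, Fintype.card_fun, Fintype.card_fun, Fintype.card_bool,
      Fintype.card_fin]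
  have h3 : N1 * N2 ≤ ∑ t ∈ hS.toFinset ×ˢ univ, (A1 t ×ˢ A2 t).card := by
    rw [← h2]
    exact (card_le_card h1).trans card_biUnion_le
  have h4 : ∀ t ∈ hS.toFinset ×ˢ (univ : Finset {y : Fin n → Fin T // StrictMono y}),
      (A1 t ×ˢ A2 t).card * (M1 * M2) ≤ N1 * N2 := by
    intro t _
    rw [card_product]
    have e1 : (A1 t).card * M1 ≤ N1 := by
      have := fibre_gen (β := β) t.2.1 t.2.2.injective t.1.1
      simpa [hA1, hM1, hN1, Fintype.card_fin] using this
    have e2 : (A2 t).card * M2 ≤ N2 := by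
      have := fibre_gen (β := Bool) (ι t.2) (hιinj t.2) (sG t.1.2)
      simpa [hA2, hM2, hN2, Fintype.card_bool] using this
    calc (A1 t).card * (A2 t).card * (M1 * M2) = ((A1 t).card * M1) * ((A2 t).card * M2) := by ring
      _ ≤ N1 * N2 := Nat.mul_le_mul e1 e2
  have h5 : (N1 * N2) * (M1 * M2) ≤
      (hS.toFinset ×ˢ (univ : Finset {y : Fin n → Fin T // StrictMono y})).card * (N1 * N2) := by
    calc (N1 * N2) * (M1 * M2)
        ≤ (∑ t ∈ hS.toFinset ×ˢ univ, (A1 t ×ˢ A2 t).card) * (M1 * M2) :=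
          Nat.mul_le_mul_right _ h3
      _ = ∑ t ∈ hS.toFinset ×ˢ univ, (A1 t ×ˢ A2 t).card * (M1 * M2) := sum_mul _ _ _
      _ ≤ ∑ _t ∈ hS.toFinset ×ˢ (univ : Finset {y : Fin n → Fin T // StrictMono y}),
            (N1 * N2) := sum_le_sum h4
      _ = _ := by rw [sum_const, smul_eq_mul]
  have h6 : M1 * M2 ≤
      (hS.toFinset ×ˢ (univ : Finset {y : Fin n → Fin T // StrictMono y})).card := by
    have hpos : 0 < N1 * N2 := Nat.mul_pos (Nat.pow_pos hβ) (by positivity)
    rw [mul_comm] at h5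
    exact Nat.le_of_mul_le_mul_right h5 hpos
  rw [card_product, card_univ, hM2, card_Pr, Fintype.card_subtype] at h6
  refine h6.trans ?_
  rw [Set.ncard_eq_toFinset_card _ hS, mul_comm]
  exact Nat.mul_le_mul_right _ (mono_count T n)

/-- the `j`-th prime `p_j`, `j ≥ 1` -/
noncomputable def p (j : ℕ) : ℕ := Nat.nth Nat.Prime (j - 1)

/-- the patterns `(α, G)` of classes modulo `m` and residue graph of `p_(j+o_0), ..., p_(j+o_k)` which occur for
infinitely many `j ≡ e (mod n)` with `p_(j+o_k) - p_j` bounded -/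
def PS (n e m k : ℕ) (A : Finset ℕ) (o : Fin (k + 1) → ℕ) :
    Set ((Fin (k + 1) → ℕ) × SimpleGraph (Fin (k + 1))) :=
  {x | (∀ i, x.1 i ∈ A) ∧ ∃ C : ℕ, {j : ℕ | 1 ≤ j ∧ j ≡ e [MOD n] ∧
    (∀ i, p (j + o i) ≡ x.1 i [MOD m]) ∧ p (j + o (Fin.last k)) ≤ p j + C ∧
    ∀ i i' : Fin (k + 1), i < i' → (x.2.Adj i i' ↔
      IsSquare ((p (j + o i') : ℕ) : ZMod (p (j + o i))))}.Infinite}

theorem patterns (n e m k : ℕ) (hn : 1 ≤ n) (hm : 1 ≤ m) (A : Finset ℕ) (hA : ∀ r ∈ A, r.Coprime m)
    (o : Fin (k + 1) → ℕ) (ho : StrictMono o) :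
    A.card ^ (k + 1) * 2 ^ ((k + 1).choose 2) ≤
      (40 * (2 * (o (Fin.last k) + n) + 1) * (o (Fin.last k) + n + 1)).choose (k + 1) *
        (PS n e m k A o).ncard := by
  classical
  rcases Nat.eq_zero_or_pos A.card with hA0 | hA0
  · rw [hA0]
    simp
  set T := 40 * (2 * (o (Fin.last k) + n) + 1) * (o (Fin.last k) + n + 1) with hT
  set φ : (Fin (k + 1) → {r // r ∈ A}) × SimpleGraph (Fin (k + 1)) →
      (Fin (k + 1) → ℕ) × SimpleGraph (Fin (k + 1)) := fun x => (fun i => (x.1 i : ℕ), x.2) with hφ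
  have hφinj : Function.Injective φ := by
    intro x x' h
    simp only [hφ, Prod.mk.injEq] at h
    refine Prod.ext ?_ h.2
    funext i
    exact Subtype.ext (congrFun h.1 i)
  set S := φ ⁻¹' (PS n e m k A o) with hS
  have himg : φ '' S = PS n e m k A o := by
    rw [hS, Set.image_preimage_eq_iff]
    rintro x hx
    exact ⟨(fun i => ⟨x.1 i, hx.1 i⟩, x.2), rfl⟩
  have hcard : (PS n e m k A o).ncard = S.ncard := by
    rw [← himg, Set.ncard_image_of_injective _ hφinj]
  rw [hcard]
  have hβ : Fintype.card {r // r ∈ A} = A.card := Fintype.card_coe A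
  rw [← hβ]
  apply many_pairs (by rw [hβ]; exact hA0)
  intro u ε
  -- the data of the pattern
  set ρ : ℕ → ℕ := fun g => if h : g < T then (u ⟨g, h⟩ : ℕ) else 1 with hρ
  have hρ1 : ∀ g, (ρ g).Coprime m := by
    intro g
    simp only [hρ]
    split_ifs with h
    · exact hA _ (u ⟨g, h⟩).2
    · exact Nat.coprime_one_left m
  set c : ℕ → ℕ → ℤ := fun x y => if h : x < y ∧ y < T then
    (if ε ⟨(⟨x, h.1.trans h.2⟩, ⟨y, h.2⟩), h.1⟩ = true then 1 else -1) else 1 with hc
  have hc1 : ∀ x y, c x y = 1 ∨ c x y = -1 := by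
    intro x y
    simp only [hc]
    split_ifs <;> simp
  set o' : ℕ → ℕ := fun i => if h : i < k + 1 then o ⟨i, h⟩ else 0 with ho'
  have ho'1 : ∀ i : Fin (k + 1), o' i = o i := by
    intro i
    simp only [ho']
    rw [dif_pos i.2]
  have ho'k : o' k = o (Fin.last k) := ho'1 (Fin.last k)
  obtain ⟨γ, hγ1, hγ2, C, hγ3⟩ := offset_step n e k m hn o'
    (by
      intro i j hij hj
      have h1 := ho'1 ⟨i, by omega⟩
      have h2 := ho'1 ⟨j, by omega⟩
      simp only at h1 h2
      rw [h1, h2]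
      exact ho hij) (by omega) ρ hρ1 c hc1
  rw [ho'k, ← hT] at hγ2
  set y : Fin (k + 1) → Fin T := fun i => ⟨γ i, hγ2 i (by omega)⟩ with hy
  have hymono : StrictMono y := by
    intro i j hij
    exact hγ1 i j hij (by omega)
  set G : SimpleGraph (Fin (k + 1)) :=
    { Adj := fun i j => (i < j ∧ c (γ i) (γ j) = 1) ∨ (j < i ∧ c (γ j) (γ i) = 1)
      symm := ⟨fun a b h => h.symm⟩
      loopless := ⟨fun a h => by
        rcases h with h | h <;> exact lt_irrefl _ h.1⟩ } with hG
  have hGadj : ∀ i j : Fin (k + 1), i < j → (G.Adj i j ↔ c (γ i) (γ j) = 1) := by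
    intro i j hij
    constructor
    · rintro (h | h)
      · exact h.2
      · exact absurd h.1 (not_lt.2 hij.le)
    · intro h
      exact Or.inl ⟨hij, h⟩
  have hργ : ∀ i : Fin (k + 1), ρ (γ i) = u (y i) := by
    intro i
    simp only [hρ]
    rw [dif_pos (hγ2 i (by omega))]
  refine ⟨(u ∘ y, G), ?_, ⟨y, hymono⟩, rfl, ?_⟩
  · rw [hS, Set.mem_preimage]
    refine ⟨fun i => (u (y i)).2, C, ?_⟩
    rw [Set.infinite_iff_exists_gt]
    intro N0
    obtain ⟨s, hs, hs0, hs1, hsC, hs2⟩ := hγ3 (N0 + o (Fin.last k) + 2)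
    have hp : ∀ d, p (s + 1 + d) = Nat.nth Nat.Prime (s + d) := by
      intro d
      unfold p
      congr 1
      omega
    refine ⟨s + 1, ⟨by omega, hs0, fun i => ?_, ?_, fun i j hij => ?_⟩, by omega⟩
    · rw [hp, ← ho'1 i]
      have h1 := hs1 i (by omega)
      rw [hργ i] at h1
      exact h1
    · rw [hp, ← ho'k]
      have h1 := hp 0
      rw [add_zero, add_zero] at h1
      rw [h1]
      exact hsC
    · rw [hp, hp, ← ho'1 i, ← ho'1 j]
      change G.Adj i j ↔ _
      rw [hGadj i j hij]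
      have h1 := hs2 i j hij (by omega)
      have hpi : (Nat.nth Nat.Prime (s + o' i)).Prime := Nat.prime_nth_prime _
      haveI : Fact (Nat.nth Nat.Prime (s + o' i)).Prime := ⟨hpi⟩
      rw [← h1, ← jacobiSym.legendreSym.to_jacobiSym]
      have hlt : Nat.nth Nat.Prime (s + o' i) < Nat.nth Nat.Prime (s + o' j) :=
        Nat.nth_strictMono Nat.infinite_setOfPred_prime (by
          rw [ho'1, ho'1]
          have := ho hij
          omega)
      have hpj : (Nat.nth Nat.Prime (s + o' j)).Prime := Nat.prime_nth_prime _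
      have hne : (((Nat.nth Nat.Prime (s + o' j) : ℕ) : ℤ) :
          ZMod (Nat.nth Nat.Prime (s + o' i))) ≠ 0 := by
        intro h
        have h2 : ((Nat.nth Nat.Prime (s + o' j) : ℕ) : ZMod (Nat.nth Nat.Prime (s + o' i))) = 0 := by
          exact_mod_cast h
        rw [ZMod.natCast_eq_zero_iff] at h2
        have h3 := (Nat.prime_dvd_prime_iff_eq hpi hpj).1 h2
        omega
      rw [legendreSym.eq_one_iff _ hne]
      simp
  · intro x
    change G.Adj _ _ ↔ _
    rw [hGadj _ _ x.2]
    simp only [hc, hy]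
    have h1 : γ x.1.1 < γ x.1.2 ∧ γ x.1.2 < T := ⟨hγ1 _ _ x.2 (by omega), hγ2 _ (by omega)⟩
    rw [dif_pos h1]
    split_ifs with h2
    · exact ⟨fun _ => h2, fun _ => rfl⟩
    · exact ⟨fun h => absurd h (by norm_num), fun h => absurd h h2⟩

end Pool.Agent.R494.OT
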