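import Mathlib
import Pool.Agent.TH956.Game

set_option autoImplicit false

/-!
Polynomial recurrence of finite colourings of `Z^e` along vectors of block sums, from the game lemma.
-/

namespace Pool.Agent.R494.PR

open Finset Polynomial Pool.Agent.TH956

section
variable {A : Type} [CommRing A]

/-- the vector of the first entries of a list -/
def vec (k : ℕ) (s : List A) : Fin k → A := fun l => s.getD l 0

/-- the differences of the polynomials in the next variable -/
noncomputable def pol {k J : ℕ} (P : Fin J → MvPolynomial (Fin k) A) (s : List A) (j : Fin J) : A[X] :=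
  MvPolynomial.aeval (fun l : Fin k => if (l : ℕ) = s.length then (X : A[X]) else C (vec k s l)) (P j)
    - C (MvPolynomial.eval (vec k s) (P j))

theorem pol_eval {k J : ℕ} (P : Fin J → MvPolynomial (Fin k) A) (s : List A) (j : Fin J) (u : A) :
    (pol P s j).eval u =
      MvPolynomial.eval (vec k (s ++ [u])) (P j) - MvPolynomial.eval (vec k s) (P j) := by
  unfold pol
  rw [eval_sub, eval_C]
  congr 1
  have h1 : ∀ p : MvPolynomial (Fin k) A, Polynomial.eval u (MvPolynomial.aeval
      (fun l : Fin k => if (l : ℕ) = s.length then (X : A[X]) else C (vec k s l)) p) =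
      MvPolynomial.eval (vec k (s ++ [u])) p := by
    intro p
    induction p using MvPolynomial.induction_on with
    | C a => simp
    | add p q hp hq => rw [map_add, eval_add, hp, hq, map_add]
    | mul_X p i hp =>
      rw [map_mul, eval_mul, hp, map_mul, MvPolynomial.aeval_X, MvPolynomial.eval_X]
      congr 1
      unfold vec
      by_cases hi : (i : ℕ) = s.length
      · rw [if_pos hi, hi]
        simp
      · rw [if_neg hi, eval_C]
        simp only [List.getD_eq_getElem?_getD]
        rcases Nat.lt_or_gt_of_ne hi with h | h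
        · rw [List.getElem?_append_left h]
        · rw [List.getElem?_append_right (le_of_lt h), List.getElem?_eq_none (le_of_lt h),
            List.getElem?_eq_none]
          simp only [List.length_singleton]
          omega
  exact h1 (P j)

theorem pol_zero {k J : ℕ} (P : Fin J → MvPolynomial (Fin k) A) (s : List A) (j : Fin J) :
    (pol P s j).eval 0 = 0 := by
  rw [pol_eval, sub_eq_zero]
  congr 2
  ext l
  unfold vec
  simp only [List.getD_eq_getElem?_getD]
  rcases lt_trichotomy (l : ℕ) s.length with h | h | h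
  · rw [List.getElem?_append_left h]
  · rw [List.getElem?_append_right (le_of_eq h.symm), h, List.getElem?_eq_none (le_refl _)]
    simp
  · rw [List.getElem?_append_right (le_of_lt h), List.getElem?_eq_none (le_of_lt h),
      List.getElem?_eq_none]
    simp only [List.length_singleton]
    omega

theorem pol_degree {k J : ℕ} (P : Fin J → MvPolynomial (Fin k) A) (D : ℕ)
    (hD : ∀ j, (P j).totalDegree ≤ D) (s : List A) (j : Fin J) : (pol P s j).natDegree ≤ D := by
  unfold pol
  rw [natDegree_sub_C]
  have := MvPolynomial.aeval_natDegree_le (P j) (hD j)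
    (fun l : Fin k => if (l : ℕ) = s.length then (X : A[X]) else C (vec k s l)) (n := 1)
    (fun l => by
      beta_reduce
      split_ifs
      · exact natDegree_X_le
      · rw [natDegree_C]; exact Nat.zero_le _)
  simpa using this

/-- what goodness says along a history -/
theorem good_prefix {κ : Type} (t : List A) : ∀ (Ψ : List A → A → κ) (𝒢 : List A → Finset A[X]) (z : A),
    Good Ψ 𝒢 t z → ∀ p u r, t = p ++ u :: r → ∀ g ∈ 𝒢 p, Ψ p (z + g.eval u) = Ψ p z := by
  induction t with
  | nil =>
    intro Ψ 𝒢 z _ p u r h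
    simp at h
  | cons v t ih =>
    intro Ψ 𝒢 z hG p u r h g hg
    obtain ⟨h1, h2⟩ := hG
    rcases p with _ | ⟨w, p⟩
    · simp only [List.nil_append, List.cons.injEq] at h
      rw [← h.1]
      exact h1 g hg
    · simp only [List.cons_append, List.cons.injEq] at h
      obtain ⟨rfl, h⟩ := h
      exact ih _ _ z h2 p u r h g hg

theorem good_mono {κ : Type} {k J : ℕ} (P : Fin J → MvPolynomial (Fin k) A)
    (hP : ∀ j, MvPolynomial.constantCoeff (P j) = 0) (c : A → κ) (t : List A) (z : A)
    (𝒢 : List A → Finset A[X]) (h𝒢 : ∀ s j, pol P s j ∈ 𝒢 s)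
    (h : Good (fun s w => fun j : Fin J => c (w + MvPolynomial.eval (vec k s) (P j))) 𝒢 t z)
    (j : Fin J) : c (z + MvPolynomial.eval (vec k t) (P j)) = c z := by
  have key : ∀ p r, t = p ++ r → c (z + MvPolynomial.eval (vec k p) (P j)) = c z := by
    intro p
    induction p using List.reverseRecOn with
    | nil =>
      intro r _
      have : vec k ([] : List A) = 0 := by
        ext l
        simp [vec]
      rw [this]
      have h0 : MvPolynomial.eval (0 : Fin k → A) (P j) = 0 := by
        rw [← hP j, MvPolynomial.constantCoeff_eq]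
        simp [MvPolynomial.eval_zero, MvPolynomial.constantCoeff_eq]
      rw [h0, add_zero]
    | append_singleton p u ih =>
      intro r hr
      rw [List.append_assoc] at hr
      have h1 := good_prefix t _ _ z h p u r hr (pol P p j) (h𝒢 p j)
      have h2 := congrFun h1 j
      rw [← ih _ hr, ← h2, pol_eval]
      congr 1
      ring
  exact key t [] (by simp)

/-- playing against the sequence `x` -/
theorem SW_blocks (x : ℕ → A) (rs : List ℕ) : ∀ (P : List A → Prop) (n : ℕ), SW rs P →
    ∃ L : List (Finset ℕ), L.length = rs.length ∧ (∀ S ∈ L, S.Nonempty ∧ ∀ i ∈ S, n ≤ i ∧ i < n + rs.sum) ∧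
      L.Pairwise (fun S S' => ∀ i ∈ S, ∀ i' ∈ S', i < i') ∧
      P (L.map (fun S => ∑ i ∈ S, x i)) := by
  classical
  induction rs with
  | nil =>
    intro P n h
    exact ⟨[], rfl, by simp, List.Pairwise.nil, h⟩
  | cons r rs ih =>
    intro P n h
    obtain ⟨α, hα, hαr, h'⟩ := h (fun i => x (n + i))
    obtain ⟨L, hL1, hL2, hL3, hL4⟩ := ih _ (n + r) h'
    refine ⟨α.image (fun i => n + i) :: L, by simp [hL1], ?_, ?_, ?_⟩
    · intro S hS
      rcases List.mem_cons.1 hS with rfl | hS
      · refine ⟨hα.image _, fun i hi => ?_⟩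
        obtain ⟨i', hi', rfl⟩ := mem_image.1 hi
        have := mem_range.1 (hαr hi')
        simp only [List.sum_cons]
        omega
      · obtain ⟨h1, h2⟩ := hL2 S hS
        refine ⟨h1, fun i hi => ?_⟩
        have := h2 i hi
        simp only [List.sum_cons]
        omega
    · refine List.pairwise_cons.2 ⟨fun S hS i hi i' hi' => ?_, hL3⟩
      obtain ⟨i'', hi'', rfl⟩ := mem_image.1 hi
      have h1 := mem_range.1 (hαr hi'')
      have h2 := ((hL2 S hS).2 i' hi').1
      omega
    · simp only [List.map_cons]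
      have e1 : ∑ i ∈ α.image (fun i => n + i), x i = ∑ i ∈ α, x (n + i) :=
        sum_image (fun i _ j _ hij => by simpa using hij)
      rw [e1]
      exact hL4

end

/-- the polynomial recurrence theorem for block sums in a finite window -/
theorem window_rec {e k J : ℕ} (P : Fin J → Fin e → MvPolynomial (Fin k) ℤ)
    (hP : ∀ j i, MvPolynomial.constantCoeff (P j i) = 0) (K : ℕ) :
    ∃ r : ℕ, ∀ (κ : Type) [Finite κ], Nat.card κ ≤ K → ∀ (x : ℕ → ℤ) (n : ℕ)
      (c : (Fin e → ℤ) → κ), ∃ L : List (Finset ℕ), L.length = k ∧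
        (∀ S ∈ L, S.Nonempty ∧ ∀ i ∈ S, n ≤ i ∧ i < n + r) ∧
        L.Pairwise (fun S S' => ∀ i ∈ S, ∀ i' ∈ S', i < i') ∧
        ∃ a : Fin e → ℤ, ∀ j, c (a + fun i =>
          MvPolynomial.eval (fun l : Fin k => (L.map (fun S => ∑ i ∈ S, x i)).getD l 0) (P j i)) = c a := by
  classical
  -- the polynomials over the product ring
  set Q : Fin J → MvPolynomial (Fin k) (Fin e → ℤ) := fun j =>
    ∑ i, MvPolynomial.C (Pi.single i (1 : ℤ) : Fin e → ℤ) *
      MvPolynomial.map (Int.castRingHom (Fin e → ℤ)) (P j i) with hQ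
  have hQe : ∀ j (v : Fin k → ℤ), MvPolynomial.eval (fun l => ((v l : ℤ) : Fin e → ℤ)) (Q j) =
      fun i => MvPolynomial.eval v (P j i) := by
    intro j v
    rw [hQ]
    simp only [map_sum, map_mul, MvPolynomial.eval_C]
    have h1 : ∀ i, MvPolynomial.eval (fun l => ((v l : ℤ) : Fin e → ℤ))
        (MvPolynomial.map (Int.castRingHom (Fin e → ℤ)) (P j i)) =
        ((MvPolynomial.eval v (P j i) : ℤ) : Fin e → ℤ) := by
      intro i
      rw [MvPolynomial.eval_map]
      have := MvPolynomial.eval₂_comp_left (Int.castRingHom (Fin e → ℤ)) (RingHom.id ℤ) v (P j i)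
      rw [show MvPolynomial.eval v (P j i) = MvPolynomial.eval₂ (RingHom.id ℤ) v (P j i) from rfl]
      rw [show (((MvPolynomial.eval₂ (RingHom.id ℤ) v (P j i) : ℤ)) : Fin e → ℤ) =
        Int.castRingHom (Fin e → ℤ) (MvPolynomial.eval₂ (RingHom.id ℤ) v (P j i)) from rfl, this]
      rfl
    simp only [h1]
    ext i'
    rw [Finset.sum_apply, Finset.sum_eq_single i']
    · simp
    · intro b _ hb
      simp [Pi.single_apply, Ne.symm hb]
    · simp
  have hQ0 : ∀ j, MvPolynomial.constantCoeff (Q j) = 0 := by
    intro j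
    rw [hQ]
    simp only [map_sum, map_mul]
    refine sum_eq_zero fun i _ => ?_
    have : MvPolynomial.constantCoeff (MvPolynomial.map (Int.castRingHom (Fin e → ℤ)) (P j i)) = 0 := by
      rw [MvPolynomial.constantCoeff_map, hP]
      simp
    rw [this, mul_zero]
  obtain ⟨D, hD⟩ : ∃ D : ℕ, ∀ j, (Q j).totalDegree ≤ D :=
    ⟨univ.sup fun j => (Q j).totalDegree, fun j => Finset.le_sup (f := fun j => (Q j).totalDegree)
      (mem_univ j)⟩
  obtain ⟨rs, hrs, h⟩ := game (A := Fin e → ℤ) D k (K ^ J) J
  refine ⟨rs.sum, fun κ _ hκ x n c => ?_⟩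
  have h1 := h (Fin J → κ) (by
    rw [Nat.card_fun, Nat.card_eq_fintype_card (α := Fin J), Fintype.card_fin]
    exact Nat.pow_le_pow_left hκ _)
    (fun s w => fun j : Fin J => c (w + MvPolynomial.eval (vec k s) (Q j)))
    (fun s => univ.image (pol Q s)) (fun s => card_image_le.trans (by simp))
    (fun s p hp => by
      obtain ⟨j, _, rfl⟩ := mem_image.1 hp
      exact pol_zero Q s j)
    (fun s p hp => by
      obtain ⟨j, _, rfl⟩ := mem_image.1 hp
      exact pol_degree Q D hD s j)
  obtain ⟨L, hL1, hL2, hL3, z, hz⟩ := SW_blocks (fun i => ((x i : ℤ) : Fin e → ℤ)) rs _ n h1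
  refine ⟨L, hL1.trans hrs, hL2, hL3, z, fun j => ?_⟩
  have h2 := good_mono Q hQ0 c _ z _ (fun s j => mem_image_of_mem _ (mem_univ j)) hz j
  have e1 : vec k (L.map (fun S => ∑ i ∈ S, ((x i : ℤ) : Fin e → ℤ))) =
      fun l : Fin k => (((L.map (fun S => ∑ i ∈ S, x i)).getD l 0 : ℤ) : Fin e → ℤ) := by
    ext l i
    unfold vec
    simp only [List.getD_eq_getElem?_getD, List.getElem?_map]
    rcases L[(l : ℕ)]? with _ | S
    · simp
    · simp
  rw [e1, hQe] at h2
  exact h2

end Pool.Agent.R494.PR
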