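import Mathlib
import Pool.Agent.R494.PolyRec

set_option autoImplicit false

/-!
Piecewise syndetic return sets for polynomial recurrence along vectors of block sums.
-/

namespace Pool.Agent.R494.PR

open Finset

/-- `B` meets all subcubes of side `L` of arbitrarily large cubes, for some `L` -/
def PS {e : ℕ} (B : Set (Fin e → ℤ)) : Prop :=
  ∃ L : ℕ, ∀ N : ℕ, ∃ x : Fin e → ℤ, ∀ y : Fin e → ℤ,
    (∀ i, x i ≤ y i ∧ y i + L ≤ x i + N) → ∃ v ∈ B, ∀ i, y i ≤ v i ∧ v i < y i + L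

theorem PS.union {e : ℕ} {B C : Set (Fin e → ℤ)} (h : PS (B ∪ C)) : PS B ∨ PS C := by
  by_contra hcon
  push Not at hcon
  obtain ⟨hB, hC⟩ := hcon
  obtain ⟨L, hL⟩ := h
  apply hC
  refine ⟨L, fun M => ?_⟩
  unfold PS at hB
  push Not at hB
  obtain ⟨N, hN⟩ := hB M
  obtain ⟨x, hx⟩ := hL N
  obtain ⟨y, hy1, hy2⟩ := hN x
  refine ⟨y, fun z hz => ?_⟩
  obtain ⟨v, hv, hv2⟩ := hx z (fun i => ⟨(hy1 i).1.trans (hz i).1, (hz i).2.trans (hy1 i).2⟩)
  rcases hv with hv | hv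
  · exfalso
    obtain ⟨i, hi⟩ := hy2 v hv
    have h1 := hv2 i
    have h2 := hz i
    have h3 := hi (by linarith)
    linarith
  · exact ⟨v, hv, hv2⟩

theorem PS.biUnion {e : ℕ} {α : Type} (s : Finset α) (B : α → Set (Fin e → ℤ))
    (h : PS (⋃ a ∈ s, B a)) : ∃ a ∈ s, PS (B a) := by
  classical
  induction s using Finset.induction_on with
  | empty =>
    exfalso
    obtain ⟨L, hL⟩ := h
    obtain ⟨x, hx⟩ := hL L
    obtain ⟨v, hv, -⟩ := hx x (fun i => ⟨le_refl _, le_refl _⟩)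
    simp at hv
  | insert a s ha ih =>
    rw [Finset.set_biUnion_insert] at h
    rcases h.union with h1 | h1
    · exact ⟨a, Finset.mem_insert_self a s, h1⟩
    · obtain ⟨b, hb, hb2⟩ := ih h1
      exact ⟨b, Finset.mem_insert_of_mem hb, hb2⟩

/-- a set which meets all translates of a finite set is piecewise syndetic -/
theorem PS.of_fin {e : ℕ} (B : Set (Fin e → ℤ)) (V : Finset (Fin e → ℤ))
    (h : ∀ y, ∃ v ∈ V, y + v ∈ B) : PS B := by
  obtain ⟨M, hM⟩ : ∃ M : ℕ, ∀ v ∈ V, ∀ i, |v i| < M := by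
    refine ⟨(V.sup fun v => univ.sup fun i => (v i).natAbs) + 1, fun v hv i => ?_⟩
    have h1 : (v i).natAbs ≤ univ.sup fun i => (v i).natAbs :=
      Finset.le_sup (f := fun i => (v i).natAbs) (mem_univ i)
    have h2 : (univ.sup fun i => (v i).natAbs) ≤ V.sup fun v => univ.sup fun i => (v i).natAbs :=
      Finset.le_sup (f := fun v : Fin e → ℤ => univ.sup fun i => (v i).natAbs) hv
    rw [Int.abs_eq_natAbs]
    exact_mod_cast Nat.lt_succ_of_le (h1.trans h2)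
  refine ⟨2 * M, fun N => ⟨0, fun y _ => ?_⟩⟩
  obtain ⟨v, hv, hv2⟩ := h (fun i => y i + M)
  refine ⟨_, hv2, fun i => ?_⟩
  have := abs_lt.1 (hM v hv i)
  simp only [Pi.add_apply]
  push_cast
  constructor <;> linarith

/-- compactness: finitely many starting points suffice -/
theorem compact_col {e : ℕ} {κ : Type} [Finite κ] {α : Type} (s : Finset α) (J : ℕ)
    (f : α → Fin J → Fin e → ℤ)
    (h : ∀ c : (Fin e → ℤ) → κ, ∃ a ∈ s, ∃ z, ∀ j, c (z + f a j) = c z) :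
    ∃ V : Finset (Fin e → ℤ), ∀ c : (Fin e → ℤ) → κ, ∃ a ∈ s, ∃ z ∈ V, ∀ j, c (z + f a j) = c z := by
  classical
  letI : TopologicalSpace κ := ⊥
  haveI : DiscreteTopology κ := ⟨rfl⟩
  have hcomp : CompactSpace ((Fin e → ℤ) → κ) := inferInstance
  have hopen : ∀ z : Fin e → ℤ, IsOpen {c : (Fin e → ℤ) → κ | ∃ a ∈ s, ∀ j, c (z + f a j) = c z} := by
    intro z
    have : {c : (Fin e → ℤ) → κ | ∃ a ∈ s, ∀ j, c (z + f a j) = c z} =
        ⋃ a ∈ s, ⋂ j, {c : (Fin e → ℤ) → κ | c (z + f a j) = c z} := by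
      ext c
      simp
    rw [this]
    refine isOpen_biUnion fun a _ => isOpen_iInter_of_finite fun j => ?_
    have h1 : {c : (Fin e → ℤ) → κ | c (z + f a j) = c z} =
        (fun c : (Fin e → ℤ) → κ => (c (z + f a j), c z)) ⁻¹' {p | p.1 = p.2} := by
      ext c
      simp
    rw [h1]
    exact (isOpen_discrete _).preimage (by fun_prop)
  obtain ⟨V, hV⟩ := isCompact_univ.elim_finite_subcover
    (fun z => {c : (Fin e → ℤ) → κ | ∃ a ∈ s, ∀ j, c (z + f a j) = c z}) hopen (by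
      intro c _
      obtain ⟨a, ha, z, hz⟩ := h c
      exact Set.mem_iUnion.2 ⟨z, a, ha, hz⟩)
  refine ⟨V, fun c => ?_⟩
  obtain ⟨z, hz⟩ := Set.mem_iUnion.1 (hV (Set.mem_univ c))
  obtain ⟨hz1, a, ha, hz2⟩ := Set.mem_iUnion.1 hz
  exact ⟨a, ha, z, hz1, hz2⟩

/-- lists of blocks in a window -/
theorem lists_finite (k n r : ℕ) :
    {L : List (Finset ℕ) | L.length = k ∧ ∀ S ∈ L, ∀ i ∈ S, n ≤ i ∧ i < n + r}.Finite := by
  classical
  have h1 : {L : List (Finset ℕ) | L.length = k ∧ ∀ S ∈ L, S ∈ (Finset.Ico n (n + r)).powerset}.Finite := by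
    have h2 := (Set.finite_coe_iff.2 ((Finset.Ico n (n + r)).powerset).finite_toSet)
    have := List.finite_length_eq ({S // S ∈ (Finset.Ico n (n + r)).powerset}) k
    refine (this.image (List.map Subtype.val)).subset ?_
    rintro L ⟨hL, hL2⟩
    refine ⟨L.attach.map fun S => ⟨S.1, hL2 S.1 S.2⟩, ?_, ?_⟩
    · simp [hL]
    · rw [List.map_map]
      simp [Function.comp_def]
  refine h1.subset ?_
  rintro L ⟨hL, hL2⟩
  refine ⟨hL, fun S hS => Finset.mem_powerset.2 fun i hi => Finset.mem_Ico.2 (hL2 S hS i hi)⟩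

theorem window_PS {e k J : ℕ} (P : Fin J → Fin e → MvPolynomial (Fin k) ℤ)
    (hP : ∀ j i, MvPolynomial.constantCoeff (P j i) = 0) (κ : Type) [Finite κ] (x : ℕ → ℤ)
    (c : (Fin e → ℤ) → κ) : ∃ L : List (Finset ℕ), L.length = k ∧
        (∀ S ∈ L, S.Nonempty) ∧
        L.Pairwise (fun S S' => ∀ i ∈ S, ∀ i' ∈ S', i < i') ∧
        PS {a : Fin e → ℤ | ∀ j, c (a + fun i =>
          MvPolynomial.eval (fun l : Fin k => (L.map (fun S => ∑ i ∈ S, x i)).getD l 0) (P j i)) = c a} := by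
  classical
  obtain ⟨r, hr⟩ := window_rec P hP (Nat.card κ)
  set 𝓛 : Finset (List (Finset ℕ)) := ((lists_finite k 0 r).toFinset).filter (fun L =>
    (∀ S ∈ L, S.Nonempty) ∧ L.Pairwise (fun S S' => ∀ i ∈ S, ∀ i' ∈ S', i < i')) with h𝓛
  set f : List (Finset ℕ) → Fin J → Fin e → ℤ := fun L j i =>
    MvPolynomial.eval (fun l : Fin k => (L.map (fun S => ∑ i ∈ S, x i)).getD l 0) (P j i) with hf
  obtain ⟨V, hV⟩ := compact_col (κ := κ) 𝓛 J f (fun c => by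
    obtain ⟨L, h1, h2, h3, a, ha⟩ := hr κ (le_refl _) x 0 c
    refine ⟨L, ?_, a, ha⟩
    rw [h𝓛, Finset.mem_filter, Set.Finite.mem_toFinset]
    exact ⟨⟨h1, fun S hS => (h2 S hS).2⟩, fun S hS => (h2 S hS).1, h3⟩)
  have h1 : PS (⋃ L ∈ 𝓛, {a : Fin e → ℤ | ∀ j, c (a + f L j) = c a}) := by
    refine PS.of_fin _ V fun y => ?_
    obtain ⟨L, hL, z, hz, h⟩ := hV (fun w => c (y + w))
    refine ⟨z, hz, Set.mem_iUnion₂.2 ⟨L, hL, fun j => ?_⟩⟩
    rw [add_assoc]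
    exact h j
  obtain ⟨L, hL, h2⟩ := PS.biUnion 𝓛 _ h1
  rw [h𝓛, Finset.mem_filter, Set.Finite.mem_toFinset] at hL
  exact ⟨L, hL.1.1, hL.2.1, hL.2.2, h2⟩

end Pool.Agent.R494.PR
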