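import Mathlib
import Pool.Agent.R494.PolyRec2
import Pool.Agent.R494.Comb

set_option autoImplicit false

/-!
Polynomial recurrence of finite colourings along the vectors of consecutive prime gaps.
-/

namespace Pool.Agent.R494.PR

open Finset Pool.Agent.H752R3.MT Pool.Agent.W68.Mil Pool.Agent.W68.Gap Pool.Agent.R494.Comb

/-- along the coarsenings of a block sequence -/
theorem poly_exists {e k : ℕ} (Ps : Finset (Fin e → MvPolynomial (Fin k) ℤ))
    (hPs : ∀ P ∈ Ps, ∀ i, MvPolynomial.constantCoeff (P i) = 0) (κ : Type) [Finite κ]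
    (c : (Fin e → ℤ) → κ) (d : ℕ → ℕ) (X : ℕ → Finset ℕ) (hX : Blk X) :
    ∃ Y, Blk Y ∧ Le Y X ∧ PS {a : Fin e → ℤ | ∀ P ∈ Ps, c (a + fun i =>
      MvPolynomial.eval (fun l : Fin k => ∑ a ∈ Y l, (d a : ℤ)) (P i)) = c a} := by
  classical
  obtain ⟨L, hL1, hL2, hL3, hL4⟩ := window_PS (J := Ps.card)
    (fun j => ((Ps.equivFin.symm j : {P // P ∈ Ps}) : Fin e → MvPolynomial (Fin k) ℤ))
    (fun j i => hPs _ (Ps.equivFin.symm j).2 i) κ (fun i => ∑ a ∈ X i, (d a : ℤ)) c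
  obtain ⟨G, hG1, hG2, -, -⟩ := extend 0 k (fun l => L.getD l ∅)
    (fun l hl => by
      have h1 : l < L.length := by omega
      rw [List.getD_eq_getElem _ _ h1]
      exact hL2 _ (List.getElem_mem h1))
    (fun l _ i _ => Nat.zero_le i)
    (fun l hl i hi i' hi' => by
      have h1 : l < L.length := by omega
      have h2 : l + 1 < L.length := by omega
      rw [List.getD_eq_getElem _ _ h1] at hi
      rw [List.getD_eq_getElem _ _ h2] at hi'
      exact List.pairwise_iff_getElem.1 hL3 l (l + 1) h1 h2 (by omega) i hi i' hi') 0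
  refine ⟨fun l => (G l).biUnion X, hG1.comp hX, fun l => ⟨G l, hG1.1 l, rfl⟩, ?_⟩
  have e1 : ∀ l : Fin k, (L.map (fun S => ∑ i ∈ S, ∑ a ∈ X i, (d a : ℤ))).getD l 0 =
      ∑ a ∈ (G l).biUnion X, (d a : ℤ) := by
    intro l
    have h1 : (l : ℕ) < L.length := by have := l.2; omega
    rw [sum_comp d hX, hG2 l l.2, List.getD_eq_getElem _ _ (by simpa using h1), List.getElem_map,
      List.getD_eq_getElem _ _ h1]
  simp only [e1] at hL4
  convert hL4 using 2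
  ext a
  constructor
  · intro h j
    exact h _ (Ps.equivFin.symm j).2
  · intro h P hP
    have := h (Ps.equivFin ⟨P, hP⟩)
    simpa using this

theorem poly (e k : ℕ → ℕ) (Ps : (j : ℕ) → Finset (Fin (e j) → MvPolynomial (Fin (k j)) ℤ))
    (hPs : ∀ j, ∀ P ∈ Ps j, ∀ i, MvPolynomial.constantCoeff (P i) = 0)
    (κ : ℕ → Type) [∀ j, Finite (κ j)] (c : (j : ℕ) → (Fin (e j) → ℤ) → κ j)
    (d : ℕ → ℕ → ℕ) (hd : ∀ j a, 1 ≤ d j a) (q : ℕ → ℕ) (hq : ∀ j, 1 ≤ q j)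
    (b : ℕ → ℤ) (hb : ∀ j, IsCoprime (b j) (q j : ℤ)) :
    ∃ W : ℕ → Finset ℕ, (∀ i, (W i).Nonempty) ∧ (∀ i, ∀ a ∈ W i, ∀ a' ∈ W (i + 1), a < a') ∧
      ∀ (j : ℕ) (T : ℕ → Finset ℕ), (∀ l < k j, (T l).Nonempty) → (∀ l < k j, ∀ i ∈ T l, j ≤ i) →
        (∀ l, l + 1 < k j → ∀ i ∈ T l, ∀ i' ∈ T (l + 1), i < i') →
        ∀ g : ℕ → ℤ, (∀ l, g l = ∑ i ∈ T l, ∑ a ∈ W i, (d j a : ℤ)) →
        (∀ R : ℕ, {n : ℕ | (n : ℤ) ≡ b j [ZMOD q j] ∧
          ∀ y : ℤ, |y| ≤ R → (Nat.Prime ((n : ℤ) + y).toNat ↔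
            ∃ m ≤ k j, y = ∑ l ∈ range m, g l)}.Infinite) ∧
        PS {a : Fin (e j) → ℤ | ∀ P ∈ Ps j, c j (a + fun i =>
          MvPolynomial.eval (fun l : Fin (k j) => g l) (P i)) = c j a} := by
  classical
  obtain ⟨W, hW1, hW2, hW⟩ := combine d hd q hq b hb
    (fun j m g => m = k j → PS {a : Fin (e j) → ℤ | ∀ P ∈ Ps j, c j (a + fun i =>
          MvPolynomial.eval (fun l : Fin (k j) => g l) (P i)) = c j a})
    (fun j m g g' hgg hP hm => by
      have : (fun l : Fin (k j) => g l) = fun l : Fin (k j) => g' l := by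
        ext l
        exact hgg l (by rw [hm]; exact l.2)
      have h2 := hP hm
      rw [this] at h2
      exact h2)
    (fun j X hX => by
      obtain ⟨Y, h1, h2, h3⟩ := poly_exists (Ps j) (hPs j) (κ j) (c j) (d j) X hX
      exact ⟨Y, h1, h2, fun m _ => h3⟩)
  refine ⟨W, hW1, hW2, fun j T hT1 hT2 hT3 g hg => ?_⟩
  obtain ⟨h1, h2⟩ := hW j (k j) T hT1 hT2 hT3
  have eg : (fun l => ∑ i ∈ T l, ∑ a ∈ W i, (d j a : ℤ)) = g := (funext hg).symm
  refine ⟨fun R => ?_, ?_⟩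
  · have := h1 R
    simp only [hg]
    exact this
  · have := h2 rfl
    simp only [← hg] at this
    exact this

end Pool.Agent.R494.PR
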