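import Mathlib
import Pool.Agent.W65.FS.Final
import Pool.Agent.H510R2.Div

/-! Four squares: many values of the form with controlled multiplicity. -/

set_option autoImplicit false

namespace Pool.Agent.R494.RC

open Finset Pool.Agent.W65.FS

/-- the representations of `n` as a sum of four squares -/
noncomputable def vec (n : ℕ) : Finset (Fin 4 → ℤ) :=
  (Fintype.piFinset fun _ => Icc (-(n : ℤ)) n).filter (fun X => ∑ i, X i ^ 2 = n)

lemma mem_vec {n : ℕ} {X : Fin 4 → ℤ} : X ∈ vec n ↔ ∑ i, X i ^ 2 = n := by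
  unfold vec
  rw [mem_filter, Fintype.mem_piFinset]
  refine ⟨fun h => h.2, fun h => ⟨fun i => ?_, h⟩⟩
  have h1 : X i ^ 2 ≤ n := by
    rw [← h]
    exact single_le_sum (f := fun i => X i ^ 2) (fun j _ => sq_nonneg _) (mem_univ i)
  rw [mem_Icc]
  constructor <;> nlinarith [sq_nonneg (X i)]

lemma abs_le_sqrt {n : ℕ} {X : Fin 4 → ℤ} (h : ∑ i, X i ^ 2 = n) (i : Fin 4) :
    X i ∈ Icc (-(Nat.sqrt n : ℤ)) (Nat.sqrt n) := by
  have h1 : X i ^ 2 ≤ n := by
    rw [← h]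
    exact single_le_sum (f := fun i => X i ^ 2) (fun j _ => sq_nonneg _) (mem_univ i)
  have h2 : (X i).natAbs ≤ Nat.sqrt n := by
    rw [Nat.le_sqrt']
    have h3 : (((X i).natAbs ^ 2 : ℕ) : ℤ) ≤ n := by
      rw [Nat.cast_pow, Int.natCast_natAbs, sq_abs]
      exact h1
    exact_mod_cast h3
  rw [mem_Icc]
  omega

lemma card_box (n : ℕ) : (Icc (-(Nat.sqrt n : ℤ)) (Nat.sqrt n)).card = 2 * Nat.sqrt n + 1 := by
  rw [Int.card_Icc]
  omega

lemma sign_eq {a b : ℤ} (h : a ^ 2 = b ^ 2) (hs : (0 ≤ a) ↔ (0 ≤ b)) : a = b := by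
  rcases sq_eq_sq_iff_eq_or_eq_neg.1 h with h1 | h1
  · exact h1
  · by_cases ha : 0 ≤ a
    · have := hs.1 ha
      omega
    · have : ¬ 0 ≤ b := fun hb => ha (hs.2 hb)
      omega

/-- the representations with equal squares at `0` and `2` -/
lemma fib0 (n : ℕ) (P : ℤ) :
    ((vec n).filter (fun X => pf X = P ∧ X 2 ^ 2 = X 0 ^ 2)).card ≤ 8 * (2 * Nat.sqrt n + 1) := by
  classical
  have h1 : ((vec n).filter (fun X => pf X = P ∧ X 2 ^ 2 = X 0 ^ 2)).card ≤
      ((Icc (-(Nat.sqrt n : ℤ)) (Nat.sqrt n)) ×ˢ (univ : Finset (Bool × Bool × Bool))).card := by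
    apply card_le_card_of_injOn (fun X => (X 0, decide (X 2 = X 0), decide (0 ≤ X 1), decide (0 ≤ X 3)))
    · intro X hX
      rw [mem_coe, mem_filter, mem_vec] at hX
      rw [mem_coe, mem_product]
      exact ⟨abs_le_sqrt hX.1 0, mem_univ _⟩
    · intro X hX Y hY h
      rw [mem_coe, mem_filter, mem_vec, Fin.sum_univ_four] at hX hY
      simp only [Prod.mk.injEq, decide_eq_decide] at h
      obtain ⟨h0, h2, h1', h3⟩ := h
      obtain ⟨hX1, hX2, hX3⟩ := hX
      obtain ⟨hY1, hY2, hY3⟩ := hY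
      unfold pf at hX2 hY2
      have e3 : X 3 ^ 2 = Y 3 ^ 2 := by linarith
      have e3' : X 3 = Y 3 := sign_eq e3 h3
      have e2 : X 2 = Y 2 := by
        by_cases hc : X 2 = X 0
        · rw [hc, h2.1 hc, h0]
        · have hc' : ¬ Y 2 = Y 0 := fun h => hc (h2.2 h)
          rcases sq_eq_sq_iff_eq_or_eq_neg.1 hX3 with g | g
          · exact absurd g hc
          · rcases sq_eq_sq_iff_eq_or_eq_neg.1 hY3 with g' | g'
            · exact absurd g' hc'
            · rw [g, g', h0]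
      have e1 : X 1 ^ 2 = Y 1 ^ 2 := by
        rw [h0, e2, e3'] at hX1
        linarith
      have e1' : X 1 = Y 1 := sign_eq e1 h1'
      funext i
      fin_cases i
      · exact h0
      · exact e1'
      · exact e2
      · exact e3'
  refine h1.trans (le_of_eq ?_)
  rw [card_product, card_box, card_univ]
  simp
  ring

/-- the representations with different squares at `0` and `2` and given last coordinate -/
lemma fib1 (n : ℕ) (P w : ℤ) (D : ℕ) (hD : ∀ k : ℕ, 1 ≤ k → k ≤ n → k.divisors.card ≤ D) :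
    ((vec n).filter (fun X => (pf X = P ∧ X 2 ^ 2 ≠ X 0 ^ 2) ∧ X 3 = w)).card ≤ 4 * D := by
  classical
  rcases ((vec n).filter (fun X => (pf X = P ∧ X 2 ^ 2 ≠ X 0 ^ 2) ∧ X 3 = w)).eq_empty_or_nonempty with he | ⟨Z, hZ⟩
  · rw [he]; simp
  rw [mem_filter, mem_vec, Fin.sum_univ_four] at hZ
  obtain ⟨hZ1, ⟨hZ2, hZ3⟩, hZ4⟩ := hZ
  set k : ℤ := Z 2 ^ 2 - Z 0 ^ 2 with hk
  have hk0 : k ≠ 0 := sub_ne_zero.2 hZ3
  have hkn : k.natAbs ≤ n := by
    have h1 : |k| ≤ n := by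
      rw [abs_le]
      constructor <;> nlinarith [sq_nonneg (Z 0), sq_nonneg (Z 1), sq_nonneg (Z 2), sq_nonneg (Z 3)]
    rw [Int.abs_eq_natAbs] at h1
    exact_mod_cast h1
  have hk1 : 1 ≤ k.natAbs := Int.natAbs_pos.2 hk0
  have h1 : ((vec n).filter (fun X => (pf X = P ∧ X 2 ^ 2 ≠ X 0 ^ 2) ∧ X 3 = w)).card ≤
      ((k.natAbs.divisors) ×ˢ (univ : Finset (Bool × Bool))).card := by
    apply card_le_card_of_injOn (fun X => ((X 2 - X 0).natAbs, decide (0 ≤ X 2 - X 0), decide (0 ≤ X 1)))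
    · intro X hX
      rw [mem_coe, mem_filter, mem_vec, Fin.sum_univ_four] at hX
      obtain ⟨hX1, ⟨hX2, hX3⟩, hX4⟩ := hX
      rw [mem_coe, mem_product]
      refine ⟨?_, mem_univ _⟩
      simp only
      rw [Nat.mem_divisors]
      refine ⟨?_, by omega⟩
      rw [Int.natAbs_dvd_natAbs]
      refine ⟨X 2 + X 0, ?_⟩
      unfold pf at hX2 hZ2
      have : X 3 = Z 3 := by rw [hX4, hZ4]
      rw [this] at hX1 hX2
      rw [hk]
      linarith
    · intro X hX Y hY h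
      rw [mem_coe, mem_filter, mem_vec, Fin.sum_univ_four] at hX hY
      simp only [Prod.mk.injEq, decide_eq_decide] at h
      obtain ⟨h1', h2', h3'⟩ := h
      obtain ⟨hX1, ⟨hX2, hX3⟩, hX4⟩ := hX
      obtain ⟨hY1, ⟨hY2, hY3⟩, hY4⟩ := hY
      unfold pf at hX2 hY2
      have e3 : X 3 = Y 3 := by rw [hX4, hY4]
      have ed : X 2 - X 0 = Y 2 - Y 0 := by omega
      have em : (X 2 - X 0) * (X 2 + X 0) = (Y 2 - Y 0) * (Y 2 + Y 0) := by
        rw [e3] at hX1 hX2
        linarith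
      have hne : X 2 - X 0 ≠ 0 := by
        intro h0
        apply hX3
        have : X 2 = X 0 := by omega
        rw [this]
      have es : X 2 + X 0 = Y 2 + Y 0 := by
        rw [← ed] at em
        exact mul_left_cancel₀ hne em
      have e2 : X 2 = Y 2 := by omega
      have e0 : X 0 = Y 0 := by omega
      have e1 : X 1 ^ 2 = Y 1 ^ 2 := by
        rw [e0, e2, e3] at hX1
        linarith
      have e1' : X 1 = Y 1 := sign_eq e1 h3'
      funext i
      fin_cases i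
      · exact e0
      · exact e1'
      · exact e2
      · exact e3
  refine h1.trans ?_
  rw [card_product, card_univ]
  have h2 := hD _ hk1 hkn
  have h3 : Fintype.card (Bool × Bool) = 4 := by simp
  rw [h3]
  omega

lemma fib_all (n : ℕ) (P : ℤ) (D : ℕ) (hD : ∀ k : ℕ, 1 ≤ k → k ≤ n → k.divisors.card ≤ D) :
    ((vec n).filter (fun X => pf X = P)).card ≤ (2 * Nat.sqrt n + 1) * (4 * D + 8) := by
  classical
  have h1 : (vec n).filter (fun X => pf X = P) ⊆
      (vec n).filter (fun X => pf X = P ∧ X 2 ^ 2 = X 0 ^ 2) ∪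
        (Icc (-(Nat.sqrt n : ℤ)) (Nat.sqrt n)).biUnion
          (fun w => (vec n).filter (fun X => (pf X = P ∧ X 2 ^ 2 ≠ X 0 ^ 2) ∧ X 3 = w)) := by
    intro X hX
    rw [mem_filter] at hX
    rw [mem_union, mem_biUnion]
    by_cases hc : X 2 ^ 2 = X 0 ^ 2
    · exact Or.inl (mem_filter.2 ⟨hX.1, hX.2, hc⟩)
    · exact Or.inr ⟨X 3, abs_le_sqrt (mem_vec.1 hX.1) 3, mem_filter.2 ⟨hX.1, ⟨hX.2, hc⟩, rfl⟩⟩
  have h2 := card_le_card h1
  have h3 := card_union_le ((vec n).filter (fun X => pf X = P ∧ X 2 ^ 2 = X 0 ^ 2))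
    ((Icc (-(Nat.sqrt n : ℤ)) (Nat.sqrt n)).biUnion
          (fun w => (vec n).filter (fun X => (pf X = P ∧ X 2 ^ 2 ≠ X 0 ^ 2) ∧ X 3 = w)))
  have h4 : ((Icc (-(Nat.sqrt n : ℤ)) (Nat.sqrt n)).biUnion
          (fun w => (vec n).filter (fun X => (pf X = P ∧ X 2 ^ 2 ≠ X 0 ^ 2) ∧ X 3 = w))).card ≤
      (2 * Nat.sqrt n + 1) * (4 * D) := by
    refine card_biUnion_le.trans ?_
    refine (sum_le_card_nsmul _ _ (4 * D) (fun w _ => fib1 n P w D hD)).trans (le_of_eq ?_)
    rw [card_box, smul_eq_mul]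
  have h5 := fib0 n P
  nlinarith

/-- one size of the fibres -/
lemma dyadic {β : Type} [DecidableEq β] (S : Finset β) (f : β → ℤ) (B : ℕ) (hB : ∀ P, (S.filter (fun X => f X = P)).card ≤ B) :
    ∃ M : ℕ, ∃ I : Finset ℤ, I ⊆ S.image f ∧ 1 ≤ M ∧ M ≤ max B 1 ∧
      (∀ P ∈ I, M ≤ (S.filter (fun X => f X = P)).card) ∧
      S.card ≤ (Nat.log 2 B + 1) * (2 * M * I.card) := by
  classical
  set s : ℤ → ℕ := fun P => (S.filter (fun X => f X = P)).card with hs
  have hs0 : ∀ P ∈ S.image f, s P ≠ 0 := by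
    intro P hP
    obtain ⟨X, hX, hXP⟩ := mem_image.1 hP
    have h1 : 0 < (S.filter (fun X => f X = P)).card := card_pos.2 ⟨X, mem_filter.2 ⟨hX, hXP⟩⟩
    exact h1.ne'
  set C : ℕ → Finset ℤ := fun j => (S.image f).filter (fun P => Nat.log 2 (s P) = j) with hC
  have hsum : S.card = ∑ P ∈ S.image f, s P :=
    card_eq_sum_card_image f S
  have h1 : ∑ P ∈ S.image f, s P ≤ ∑ j ∈ range (Nat.log 2 B + 1), 2 ^ (j + 1) * (C j).card := by
    have hmaps : ∀ P ∈ S.image f, Nat.log 2 (s P) ∈ range (Nat.log 2 B + 1) := by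
      intro P _
      rw [mem_range]
      exact Nat.lt_succ_of_le (Nat.log_mono_right (hB P))
    rw [← sum_fiberwise_of_maps_to hmaps]
    refine sum_le_sum fun j _ => ?_
    rw [mul_comm]
    refine sum_le_card_nsmul _ _ _ fun P hP => ?_
    have := (mem_filter.1 hP).2
    rw [← this]
    exact (Nat.lt_pow_succ_log_self (by norm_num) _).le
  have h2 : ∃ j ∈ range (Nat.log 2 B + 1), S.card ≤ (Nat.log 2 B + 1) * (2 ^ (j + 1) * (C j).card) := by
    by_contra hcon
    push Not at hcon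
    have h3 : ∑ j ∈ range (Nat.log 2 B + 1), (Nat.log 2 B + 1) * (2 ^ (j + 1) * (C j).card) <
        ∑ _j ∈ range (Nat.log 2 B + 1), S.card :=
      sum_lt_sum_of_nonempty (by simp) hcon
    rw [← mul_sum, sum_const, card_range, smul_eq_mul] at h3
    have h4 := Nat.lt_of_mul_lt_mul_left h3
    omega
  obtain ⟨j, hj, h3⟩ := h2
  by_cases hCj : (C j).Nonempty
  · refine ⟨2 ^ j, C j, filter_subset _ _, Nat.one_le_two_pow, ?_, ?_, ?_⟩
    · obtain ⟨P, hP⟩ := hCj
      obtain ⟨hP1, hP2⟩ := mem_filter.1 hP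
      have h4 := Nat.pow_log_le_self 2 (hs0 P hP1)
      rw [hP2] at h4
      exact (h4.trans (hB P)).trans (le_max_left _ _)
    · intro P hP
      obtain ⟨hP1, hP2⟩ := mem_filter.1 hP
      have h4 := Nat.pow_log_le_self 2 (hs0 P hP1)
      rw [hP2] at h4
      exact h4
    · refine h3.trans (le_of_eq ?_)
      rw [pow_succ]
      ring
  · rw [not_nonempty_iff_eq_empty] at hCj
    rw [hCj] at h3
    refine ⟨1, ∅, empty_subset _, le_rfl, le_max_right _ _, by simp, ?_⟩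
    simpa using h3

end Pool.Agent.R494.RC
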