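import Mathlib
import Pool.Agent.R494.RC1

/-! Four squares: layers, the number of good representations, the size of the fibres. -/

set_option autoImplicit false

namespace Pool.Agent.R494.RC

open Finset Pool.Agent.W65.FS Filter Asymptotics

/-- the value of the second form -/
noncomputable def val (X : Fin 4 → ℤ) : ℕ := (pf X).toNat

lemma pf_nonneg (X : Fin 4 → ℤ) : 0 ≤ pf X := by
  unfold pf
  positivity

lemma val_cast (X : Fin 4 → ℤ) : (val X : ℤ) = pf X := Int.toNat_of_nonneg (pf_nonneg X)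

/-- the representations with both values coprime to `Q` -/
noncomputable def good (Q n : ℕ) : Finset (Fin 4 → ℤ) :=
  (vec n).filter (fun X => Nat.Coprime (val X) Q ∧ Nat.Coprime (val X - 2) Q)

/-- the values taken more than `t` times -/
noncomputable def lay (V : Finset (Fin 4 → ℤ)) (t : ℕ) : Finset ℕ :=
  (V.image val).filter (fun P => t < (V.filter (fun X => val X = P)).card)

lemma layer (V : Finset (Fin 4 → ℤ)) (T : ℕ) (hT : ∀ P, (V.filter (fun X => val X = P)).card ≤ T) (g : ℕ → ℝ) :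
    ∑ X ∈ V, g (val X) = ∑ t ∈ range T, ∑ P ∈ lay V t, g P := by
  classical
  rw [sum_comp g val]
  unfold lay
  simp_rw [sum_filter]
  rw [sum_comm]
  refine sum_congr rfl fun P _ => ?_
  rw [← sum_filter, sum_const]
  congr 1
  have : (range T).filter (fun t => t < (V.filter (fun X => val X = P)).card) =
      range ((V.filter (fun X => val X = P)).card) := by
    ext t
    rw [mem_filter, mem_range, mem_range]
    have := hT P
    omega
  rw [this, card_range]

lemma layer_card (V : Finset (Fin 4 → ℤ)) (T : ℕ) (hT : ∀ P, (V.filter (fun X => val X = P)).card ≤ T) :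
    ∑ t ∈ range T, ((lay V t).card : ℝ) = V.card := by
  have h := layer V T hT (fun _ => 1)
  simp only [sum_const, nsmul_eq_mul, mul_one] at h
  exact h.symm

lemma lay_empty (V : Finset (Fin 4 → ℤ)) (T : ℕ) (hT : ∀ P, (V.filter (fun X => val X = P)).card ≤ T)
    (t : ℕ) (ht : T ≤ t) : lay V t = ∅ := by
  unfold lay
  rw [filter_eq_empty_iff]
  intro P _
  have := hT P
  omega

/-- the sum of the square roots of the sizes of the layers -/
lemma layer_sqrt (V : Finset (Fin 4 → ℤ)) (B T : ℕ) (hB : ∀ P, (V.filter (fun X => val X = P)).card ≤ B)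
    (hBT : B ≤ T) :
    ∑ t ∈ range T, √((lay V t).card : ℝ) ≤ √((B : ℝ) * V.card) := by
  have h1 : ∑ t ∈ range T, √((lay V t).card : ℝ) = ∑ t ∈ range B, √((lay V t).card : ℝ) := by
    symm
    apply sum_subset
    · intro t ht
      rw [mem_range] at ht ⊢
      omega
    · intro t _ ht
      rw [mem_range, not_lt] at ht
      rw [lay_empty V B hB t ht]
      simp
  rw [h1]
  apply Real.le_sqrt_of_sq_le
  have h2 := sum_mul_sq_le_sq_mul_sq (range B) (fun _ => (1 : ℝ)) (fun t => √((lay V t).card : ℝ))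
  simp only [one_mul, one_pow, sum_const, card_range, nsmul_eq_mul, mul_one] at h2
  refine h2.trans (le_of_eq ?_)
  rw [← layer_card V B hB]
  congr 1
  refine sum_congr rfl fun t _ => ?_
  rw [Real.sq_sqrt (by positivity)]

lemma val_low {n : ℕ} {X : Fin 4 → ℤ} (hX : X ∈ vec n) : n ≤ val X := by
  have := pf_lower n X (mem_vec.1 hX)
  rw [← val_cast] at this
  exact_mod_cast this

lemma val_up {n : ℕ} {X : Fin 4 → ℤ} (hX : X ∈ vec n) : val X ≤ 7 * n := by
  have := pf_upper n X (mem_vec.1 hX)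
  rw [← val_cast] at this
  exact_mod_cast this

/-- many good representations -/
lemma many (ε : ℝ) (hε : 0 < ε) (Q : ℕ) (hQ : 0 < Q) :
    ∀ᶠ n : ℕ in atTop, Odd n → (n : ℝ) ^ (1 - ε) ≤ (good Q n).card := by
  classical
  obtain ⟨_, δ, hδ, c, hc, hS⟩ := uniform (ε / 2) (by positivity)
  have e2 : ∀ᶠ n : ℕ in atTop, 1 / c ≤ (n : ℝ) ^ (ε / 2) :=
    ((tendsto_rpow_atTop (by positivity)).comp tendsto_natCast_atTop_atTop).eventually_ge_atTop _
  have e3 : ∀ᶠ n : ℕ in atTop, (Q : ℝ) ≤ (n : ℝ) ^ δ :=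
    ((tendsto_rpow_atTop hδ).comp tendsto_natCast_atTop_atTop).eventually_ge_atTop _
  filter_upwards [e2, e3, eventually_ge_atTop 3] with n h2 h3 h4 hn
  obtain ⟨S, hS1, hS2⟩ := hS n hn
  have hn1 : (1 : ℝ) ≤ n := by exact_mod_cast (by omega : 1 ≤ n)
  have hn0 : (0 : ℝ) < n := by linarith
  have hsub : S ⊆ good Q n := by
    intro X hX
    obtain ⟨hX1, hX2, hX3, hX4, -, -⟩ := hS2 X hX
    have hV : X ∈ vec n := mem_vec.2 hX1
    have hlow := val_low hV
    have h6 : ((val X : ℕ) : ℤ) = pf X := val_cast X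
    have h6' : ((val X - 2 : ℕ) : ℤ) = pf X - 2 := by omega
    have hq : ∀ q : ℕ, q.Prime → (q : ℤ) ∣ pf X * (pf X - 2) → ¬ q ∣ Q := by
      intro q hq hqP hqQ
      have g1 := hX2 q hq hqP
      have g2 : (q : ℝ) ≤ Q := by exact_mod_cast Nat.le_of_dvd hQ hqQ
      linarith
    refine mem_filter.2 ⟨hV, ?_, ?_⟩
    · apply Nat.Coprime.symm
      apply Nat.coprime_of_dvd
      intro q hqp hqQ hqP
      apply hq q hqp _ hqQ
      apply Dvd.dvd.mul_right
      rw [← h6]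
      exact_mod_cast hqP
    · apply Nat.Coprime.symm
      apply Nat.coprime_of_dvd
      intro q hqp hqQ hqP
      apply hq q hqp _ hqQ
      apply Dvd.dvd.mul_left
      rw [← h6']
      exact_mod_cast hqP
  calc (n : ℝ) ^ (1 - ε) = 1 * (n : ℝ) ^ (1 - ε) := by ring
    _ ≤ (c * (n : ℝ) ^ (ε / 2)) * (n : ℝ) ^ (1 - ε) := by
        apply mul_le_mul_of_nonneg_right _ (by positivity)
        rwa [div_le_iff₀ hc, mul_comm] at h2
    _ = c * (n : ℝ) ^ (1 - ε / 2) := by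
        rw [mul_assoc, ← Real.rpow_add hn0]
        congr 2
        ring
    _ ≤ S.card := hS1
    _ ≤ _ := by exact_mod_cast card_le_card hsub

/-- small fibres -/
lemma few : ∀ᶠ n : ℕ in atTop, ∀ P : ℕ, (((vec n).filter (fun X => val X = P)).card : ℝ) ≤ (n : ℝ) ^ (5 / 8 : ℝ) := by
  classical
  obtain ⟨C, hC, hD⟩ := Pool.Agent.H510R2.divisor_bound (1 / 16) (by positivity)
  have e2 : ∀ᶠ n : ℕ in atTop, 12 * C + 24 ≤ (n : ℝ) ^ (1 / 16 : ℝ) :=
    ((tendsto_rpow_atTop (by norm_num)).comp tendsto_natCast_atTop_atTop).eventually_ge_atTop _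
  filter_upwards [e2, eventually_ge_atTop 3] with n h2 h4 P
  have hn1 : (1 : ℝ) ≤ n := by exact_mod_cast (by omega : 1 ≤ n)
  have hn0 : (0 : ℝ) < n := by linarith
  set D : ℕ := ⌊C * (n : ℝ) ^ (1 / 16 : ℝ)⌋₊ with hDdef
  have hD' : ∀ k : ℕ, 1 ≤ k → k ≤ n → k.divisors.card ≤ D := by
    intro k hk hkn
    apply Nat.le_floor
    refine (hD k hk).trans ?_
    have : (k : ℝ) ≤ n := by exact_mod_cast hkn
    gcongr
  have h5 := fib_all n P D hD'
  have h6 : (vec n).filter (fun X => val X = P) = (vec n).filter (fun X => pf X = (P : ℤ)) := by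
    apply filter_congr
    intro X _
    rw [← val_cast]
    norm_cast
  rw [h6]
  have hne : 1 ≤ (n : ℝ) ^ (1 / 16 : ℝ) := Real.one_le_rpow hn1 (by positivity)
  have hnh : 1 ≤ (n : ℝ) ^ (1 / 2 : ℝ) := Real.one_le_rpow hn1 (by norm_num)
  have g1 : ((Nat.sqrt n : ℕ) : ℝ) ≤ (n : ℝ) ^ (1 / 2 : ℝ) := by
    rw [← Real.sqrt_eq_rpow]
    exact Real.nat_sqrt_le_real_sqrt
  have g2 : (D : ℝ) ≤ C * (n : ℝ) ^ (1 / 16 : ℝ) := Nat.floor_le (by positivity)
  have g3 : (2 * (Nat.sqrt n : ℝ) + 1) ≤ 3 * (n : ℝ) ^ (1 / 2 : ℝ) := by linarith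
  have g4 : (4 * (D : ℝ) + 8) ≤ (4 * C + 8) * (n : ℝ) ^ (1 / 16 : ℝ) := by nlinarith
  calc (((vec n).filter (fun X => pf X = (P : ℤ))).card : ℝ) ≤ (((2 * Nat.sqrt n + 1) * (4 * D + 8) : ℕ) : ℝ) := by
        exact_mod_cast h5
    _ = (2 * (Nat.sqrt n : ℝ) + 1) * (4 * (D : ℝ) + 8) := by push_cast; ring
    _ ≤ (3 * (n : ℝ) ^ (1 / 2 : ℝ)) * ((4 * C + 8) * (n : ℝ) ^ (1 / 16 : ℝ)) := by gcongr
    _ = (12 * C + 24) * ((n : ℝ) ^ (1 / 2 : ℝ) * (n : ℝ) ^ (1 / 16 : ℝ)) := by ring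
    _ ≤ (n : ℝ) ^ (1 / 16 : ℝ) * ((n : ℝ) ^ (1 / 2 : ℝ) * (n : ℝ) ^ (1 / 16 : ℝ)) := by gcongr
    _ = (n : ℝ) ^ (5 / 8 : ℝ) := by
        rw [← Real.rpow_add hn0, ← Real.rpow_add hn0]
        congr 1
        norm_num

end Pool.Agent.R494.RC
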