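import Mathlib
import Pool.Agent.R494.RC3
import Pool.Agent.R960.Fam.Law
import Pool.Agent.R528.RM.BHFinal

/-! Four squares: the law of large numbers in sieved models. -/

set_option autoImplicit false
set_option linter.unusedSectionVars false

namespace Pool.Agent.R494.RC

open Finset Pool.Agent.W65.FS Filter Asymptotics MeasureTheory
open Pool.Agent.R528.RM
open scoped Topology

lemma log_tendsto : Tendsto (fun n : ℕ => Real.log (n : ℝ)) atTop atTop :=
  Real.tendsto_log_atTop.comp tendsto_natCast_atTop_atTop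

lemma c_pos (Q : ℕ) (hQ : 0 < Q) : (0 : ℝ) < (Q : ℝ) / Nat.totient Q := by
  have h1 : 0 < Nat.totient Q := Nat.totient_pos.2 hQ
  positivity

/-- the densities at the values of the form -/
lemma rho_prof (Q : ℕ) (hQ : 0 < Q) (δ : ℝ) (hδ : 0 < δ) (hδ1 : δ ≤ 1) :
    ∀ᶠ n : ℕ in atTop, ∀ m : ℕ, n ≤ m + 2 → m ≤ 7 * n → Nat.Coprime m Q →
      (1 - δ) * (((Q : ℝ) / Nat.totient Q) / Real.log n) ≤ rhoW Q m ∧
      rhoW Q m ≤ (1 + δ) * (((Q : ℝ) / Nat.totient Q) / Real.log n) := by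
  set c : ℝ := (Q : ℝ) / Nat.totient Q with hc
  have hc0 : 0 < c := c_pos Q hQ
  filter_upwards [log_tendsto.eventually_ge_atTop (Real.log 7 / δ),
    log_tendsto.eventually_ge_atTop (Real.log 2 / δ + Real.log 2),
    log_tendsto.eventually_ge_atTop (c + Real.log 2), eventually_ge_atTop 5] with n h1 h2 h3 h4 m hm1 hm2 hm3
  have hn : (5 : ℝ) ≤ n := by exact_mod_cast h4
  have hn0 : (0 : ℝ) < n := by linarith
  have hL : 0 < Real.log n := Real.log_pos (by linarith)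
  have hm1' : (n : ℝ) - 2 ≤ m := by
    have : (n : ℝ) ≤ m + 2 := by exact_mod_cast hm1
    linarith
  have hm2' : (m : ℝ) ≤ 7 * n := by exact_mod_cast hm2
  have hm0 : (0 : ℝ) < m := by linarith
  have g1 : Real.log n - Real.log 2 ≤ Real.log m := by
    rw [← Real.log_div hn0.ne' (by norm_num)]
    apply Real.log_le_log (by positivity)
    linarith
  have g2 : Real.log m ≤ Real.log 7 + Real.log n := by
    rw [← Real.log_mul (by norm_num) hn0.ne']
    exact Real.log_le_log hm0 hm2'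
  have hLm : 0 < Real.log m := by linarith
  have g3 : c ≤ Real.log m := by linarith
  have e : rhoW Q m = c / Real.log m := by
    unfold rhoW
    rw [if_pos hm3, min_eq_right]
    rw [div_le_one hLm]
    exact g3
  rw [e]
  have k1 : Real.log 7 ≤ δ * Real.log n := by
    rw [div_le_iff₀ hδ] at h1
    linarith
  have k2 : Real.log 2 ≤ δ * Real.log m := by
    have : Real.log 2 / δ ≤ Real.log m := by linarith
    rw [div_le_iff₀ hδ] at this
    linarith
  constructor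
  · rw [← mul_div_assoc, div_le_div_iff₀ hL hLm]
    have : (1 - δ) * Real.log m ≤ Real.log n := by
      have h7 : (1 - δ) * Real.log m ≤ (1 - δ) * (Real.log 7 + Real.log n) :=
        mul_le_mul_of_nonneg_left g2 (by linarith)
      have h8 : 0 ≤ Real.log 7 := Real.log_nonneg (by norm_num)
      nlinarith
    nlinarith
  · rw [← mul_div_assoc, div_le_div_iff₀ hLm hL]
    have : Real.log n ≤ (1 + δ) * Real.log m := by linarith
    nlinarith

/-- the main term -/
lemma expected (Q : ℕ) (hQ : 0 < Q) (δ : ℝ) (hδ : 0 < δ) (hδ1 : δ ≤ 1) :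
    ∀ᶠ n : ℕ in atTop,
      |∑ X ∈ good Q n, rhoW Q (val X - 2) * rhoW Q (val X) -
        ((good Q n).card : ℝ) * (((Q : ℝ) / Nat.totient Q) / Real.log n) ^ 2| ≤
      3 * δ * (((good Q n).card : ℝ) * (((Q : ℝ) / Nat.totient Q) / Real.log n) ^ 2) := by
  filter_upwards [rho_prof Q hQ δ hδ hδ1, eventually_ge_atTop 5] with n h1 h4
  set u : ℝ := ((Q : ℝ) / Nat.totient Q) / Real.log n with hu
  have hn : (5 : ℝ) ≤ n := by exact_mod_cast h4
  have hL : 0 < Real.log n := Real.log_pos (by linarith)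
  have hu0 : 0 < u := div_pos (c_pos Q hQ) hL
  have h2 : ∀ X ∈ good Q n, |rhoW Q (val X - 2) * rhoW Q (val X) - u ^ 2| ≤ 3 * δ * u ^ 2 := by
    intro X hX
    obtain ⟨hX1, hX2, hX3⟩ := mem_filter.1 hX
    have g1 := val_low hX1
    have g2 := val_up hX1
    obtain ⟨a1, a2⟩ := h1 (val X) (by omega) g2 hX2
    obtain ⟨b1, b2⟩ := h1 (val X - 2) (by omega) (by omega) hX3
    have c1 : ((1 - δ) * u) * ((1 - δ) * u) ≤ rhoW Q (val X - 2) * rhoW Q (val X) :=
      mul_le_mul b1 a1 (mul_nonneg (by linarith) hu0.le) (rhoW_nonneg _ _)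
    have c2 : rhoW Q (val X - 2) * rhoW Q (val X) ≤ ((1 + δ) * u) * ((1 + δ) * u) :=
      mul_le_mul b2 a2 (rhoW_nonneg _ _) (mul_nonneg (by linarith) hu0.le)
    have hu2 : 0 < u ^ 2 := by positivity
    rw [abs_le]
    constructor
    · nlinarith [mul_pos hδ hu2]
    · nlinarith [mul_pos hδ hu2, mul_nonneg (mul_nonneg hδ.le (by linarith : 0 ≤ 1 - δ)) hu2.le]
  rw [show ((good Q n).card : ℝ) * u ^ 2 = ∑ X ∈ good Q n, u ^ 2 by rw [sum_const, nsmul_eq_mul],
    ← sum_sub_distrib, mul_sum]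
  exact (abs_sum_le_sum_abs _ _).trans (sum_le_sum h2)

/-- the size of the error term -/
lemma err_small (c δ : ℝ) (hc : 0 < c) (hδ : 0 < δ) :
    ∀ᶠ n : ℕ in atTop, ∀ N : ℝ, (n : ℝ) ^ (1 - 1 / 8 : ℝ) ≤ N →
      8 * √(6 * Real.log n * ((n : ℝ) ^ (5 / 8 : ℝ) * N)) ≤ δ * (N * (c / Real.log n) ^ 2) := by
  have h1 := (isLittleO_log_rpow_rpow_atTop (5 : ℝ) (show (0 : ℝ) < 1 / 4 by norm_num)).bound
    (show (0 : ℝ) < δ ^ 2 * c ^ 4 / 384 by positivity)
  filter_upwards [tendsto_natCast_atTop_atTop.eventually h1, eventually_ge_atTop 5] with n h2 h4 N hN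
  have hn : (5 : ℝ) ≤ n := by exact_mod_cast h4
  have hn0 : (0 : ℝ) < n := by linarith
  have hL : 0 < Real.log n := Real.log_pos (by linarith)
  have hN0 : 0 < N := lt_of_lt_of_le (by positivity) hN
  rw [Real.norm_eq_abs, Real.norm_eq_abs, abs_of_nonneg (Real.rpow_nonneg hL.le _),
    abs_of_nonneg (Real.rpow_nonneg hn0.le _)] at h2
  have e5 : Real.log n ^ (5 : ℝ) = Real.log n ^ (5 : ℕ) := by
    rw [← Real.rpow_natCast]; norm_num
  rw [e5] at h2
  have h3 : 384 * Real.log n ^ 5 * (n : ℝ) ^ (5 / 8 : ℝ) ≤ δ ^ 2 * c ^ 4 * N := by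
    calc 384 * Real.log n ^ 5 * (n : ℝ) ^ (5 / 8 : ℝ) ≤ 384 * (δ ^ 2 * c ^ 4 / 384 * (n : ℝ) ^ (1 / 4 : ℝ)) * (n : ℝ) ^ (5 / 8 : ℝ) := by
          gcongr
      _ = δ ^ 2 * c ^ 4 * ((n : ℝ) ^ (1 / 4 : ℝ) * (n : ℝ) ^ (5 / 8 : ℝ)) := by ring
      _ = δ ^ 2 * c ^ 4 * (n : ℝ) ^ (1 - 1 / 8 : ℝ) := by
          rw [← Real.rpow_add hn0]
          congr 2
          norm_num
      _ ≤ _ := by gcongr
  have h5 : √(6 * Real.log n * ((n : ℝ) ^ (5 / 8 : ℝ) * N)) ≤ δ * (N * (c / Real.log n) ^ 2) / 8 := by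
    apply Real.sqrt_le_iff.2
    refine ⟨by positivity, ?_⟩
    have e6 : (δ * (N * (c / Real.log n) ^ 2) / 8) ^ 2 = (δ ^ 2 * c ^ 4 * N) * (N / (64 * Real.log n ^ 4)) := by
      field_simp
      ring
    have e7 : 6 * Real.log n * ((n : ℝ) ^ (5 / 8 : ℝ) * N) =
        (384 * Real.log n ^ 5 * (n : ℝ) ^ (5 / 8 : ℝ)) * (N / (64 * Real.log n ^ 4)) := by
      field_simp
      ring
    rw [e6, e7]
    gcongr
  linarith

section

variable {Ω : Type} {m0 : MeasurableSpace Ω} {μ : Measure Ω} [IsProbabilityMeasure μ]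
  {ℱ : Filtration ℕ m0} {A : ℕ → Set Ω}

theorem law (hA : ∀ n, MeasurableSet[ℱ n] (A n)) (Q : ℕ) (hQ : 0 < Q)
    (hcop : ∀ n, ¬ Nat.Coprime n Q → A n = ∅)
    (hd : ∀ᵐ ω ∂μ, Tendsto (fun n : ℕ => dens μ ℱ A n ω * Real.log n)
      (atTop ⊓ 𝓟 {n : ℕ | Nat.Coprime (n + 1) Q}) (𝓝 ((Q : ℝ) / Nat.totient Q))) :
    ∀ᵐ ω ∂μ, ∀ ε : ℝ, 0 < ε → ∀ᶠ n : ℕ in atTop, Odd n →
      |∑ X ∈ good Q n, In A (val X - 2) ω * In A (val X) ω -
        ((good Q n).card : ℝ) * (((Q : ℝ) / Nat.totient Q) / Real.log n) ^ 2| ≤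
      ε * (((good Q n).card : ℝ) * (((Q : ℝ) / Nat.totient Q) / Real.log n) ^ 2) := by
  classical
  have hmemlay : ∀ x t : ℕ, ∀ P ∈ lay (good Q x) t, x ≤ P := by
    intro x t P hP
    obtain ⟨X, hX, rfl⟩ := mem_image.1 (mem_filter.1 hP).1
    exact val_low (mem_filter.1 hX).1
  have h := Pool.Agent.R960.Fam.fam_law (μ := μ) (ℱ := ℱ) (A := A) hA (ρ := rhoW Q)
    (fun n => ⟨rhoW_nonneg Q n, rhoW_le Q n⟩) (dens_profile hA Q hQ hcop hd) 2 2 1 (by norm_num)
    (fun n : ℕ => ({n} : Finset ℕ) ×ˢ range n)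
    (by
      filter_upwards with x
      rw [card_product, card_singleton, card_range, one_mul, pow_one])
    (fun a : ℕ × ℕ => lay (good Q a.1) a.2) (fun _ P => {P - 2, P}) (fun n => n - 2)
    (tendsto_sub_atTop_nat 2)
    (by
      filter_upwards [eventually_ge_atTop 3] with x hx a ha P hP
      obtain ⟨a1, a2⟩ := a
      rw [mem_product, mem_singleton] at ha
      obtain ⟨ha1, -⟩ := ha
      simp only at ha1
      subst ha1
      have h1 := hmemlay a1 a2 P hP
      refine ⟨card_pair (by omega), ?_⟩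
      intro m hm
      rw [mem_insert, mem_singleton] at hm
      omega)
    (by
      filter_upwards [eventually_ge_atTop 3] with x hx a ha m
      obtain ⟨a1, a2⟩ := a
      rw [mem_product, mem_singleton] at ha
      obtain ⟨ha1, -⟩ := ha
      simp only at ha1
      subst ha1
      have h1 : {i | i ∈ lay (good Q a1) a2 ∧ m ∈ ({i - 2, i} : Finset ℕ)} ⊆ (({m, m + 2} : Finset ℕ) : Set ℕ) := by
        rintro i ⟨hi, hm⟩
        have h2 := hmemlay a1 a2 i hi
        rw [mem_insert, mem_singleton] at hm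
        rw [mem_coe, mem_insert, mem_singleton]
        omega
      refine (Set.ncard_le_ncard h1 (finite_toSet _)).trans ?_
      rw [Set.ncard_coe_finset]
      exact card_le_two)
  filter_upwards [h] with ω hω ε hε
  set c : ℝ := (Q : ℝ) / Nat.totient Q with hc
  have hc0 : 0 < c := c_pos Q hQ
  set δ : ℝ := min (ε / 8) 1 with hδdef
  have hδ : 0 < δ := lt_min (by positivity) one_pos
  have hδ1 : δ ≤ 1 := min_le_right _ _
  have hδε : 8 * δ ≤ ε := by
    have := min_le_left (ε / 8) 1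
    rw [← hδdef] at this
    linarith
  filter_upwards [hω δ hδ, expected Q hQ δ hδ hδ1, err_small c δ hc0 hδ, few, many (1 / 8) (by norm_num) Q hQ,
    eventually_ge_atTop 5] with n h1 h2 h3 h4 h5 h6 hn
  rw [← hc] at h2
  set M0 : ℝ := ((good Q n).card : ℝ) * (c / Real.log n) ^ 2 with hM0
  have hn5 : (5 : ℝ) ≤ n := by exact_mod_cast h6
  have hn0 : (0 : ℝ) < n := by linarith
  have hL : 0 < Real.log n := Real.log_pos (by linarith)
  have hM00 : 0 ≤ M0 := by positivity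
  set R : ℝ := ∑ X ∈ good Q n, In A (val X - 2) ω * In A (val X) ω with hR
  set E : ℝ := ∑ X ∈ good Q n, rhoW Q (val X - 2) * rhoW Q (val X) with hE
  set B : ℕ := ⌊(n : ℝ) ^ (5 / 8 : ℝ)⌋₊ with hB
  have hBr : (B : ℝ) ≤ (n : ℝ) ^ (5 / 8 : ℝ) := Nat.floor_le (by positivity)
  have hfib : ∀ P, ((good Q n).filter (fun X => val X = P)).card ≤ B := by
    intro P
    apply Nat.le_floor
    refine le_trans ?_ (h4 P)
    exact_mod_cast card_le_card (filter_subset_filter _ (filter_subset _ _))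
  have hBn : B ≤ n := by
    have h7 : (B : ℝ) ≤ n := by
      refine hBr.trans ?_
      calc (n : ℝ) ^ (5 / 8 : ℝ) ≤ (n : ℝ) ^ (1 : ℝ) :=
            Real.rpow_le_rpow_of_exponent_le (by linarith) (by norm_num)
        _ = n := Real.rpow_one _
    exact_mod_cast h7
  have hfibn : ∀ P, ((good Q n).filter (fun X => val X = P)).card ≤ n := fun P => (hfib P).trans hBn
  have eR : R = ∑ t ∈ range n, ∑ P ∈ lay (good Q n) t, In A (P - 2) ω * In A P ω :=
    layer (good Q n) n hfibn (fun P => In A (P - 2) ω * In A P ω)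
  have eE : E = ∑ t ∈ range n, ∑ P ∈ lay (good Q n) t, rhoW Q (P - 2) * rhoW Q P :=
    layer (good Q n) n hfibn (fun P => rhoW Q (P - 2) * rhoW Q P)
  have hstep : ∀ t ∈ range n, |∑ P ∈ lay (good Q n) t, In A (P - 2) ω * In A P ω -
      ∑ P ∈ lay (good Q n) t, rhoW Q (P - 2) * rhoW Q P| ≤
      8 * (√(6 * Real.log n) * √((lay (good Q n) t).card : ℝ)) +
        δ * ∑ P ∈ lay (good Q n) t, rhoW Q (P - 2) * rhoW Q P := by
    intro t ht
    have h7 := h1 (n, t) (mem_product.2 ⟨mem_singleton_self _, ht⟩)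
    simp only at h7
    have h8 : ∀ g : ℕ → ℝ, ∑ i ∈ lay (good Q n) t, ∏ m ∈ ({i - 2, i} : Finset ℕ), g m =
        ∑ P ∈ lay (good Q n) t, g (P - 2) * g P := by
      intro g
      refine sum_congr rfl fun P hP => ?_
      have := hmemlay n t P hP
      exact prod_pair (by omega)
    rw [h8 (fun m => In A m ω), h8 (rhoW Q)] at h7
    refine h7.trans (le_of_eq ?_)
    rw [← Real.sqrt_mul (by positivity)]
    push_cast
    norm_num
  have hRE : |R - E| ≤ 8 * √(6 * Real.log n * ((n : ℝ) ^ (5 / 8 : ℝ) * (good Q n).card)) + δ * E := by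
    rw [eR, eE, ← sum_sub_distrib]
    refine (abs_sum_le_sum_abs _ _).trans ((sum_le_sum hstep).trans ?_)
    rw [sum_add_distrib, ← mul_sum, ← mul_sum, ← mul_sum]
    gcongr
    have h7 := layer_sqrt (good Q n) B n hfib hBn
    calc √(6 * Real.log n) * ∑ t ∈ range n, √((lay (good Q n) t).card : ℝ)
        ≤ √(6 * Real.log n) * √((B : ℝ) * (good Q n).card) := by gcongr
      _ ≤ √(6 * Real.log n) * √((n : ℝ) ^ (5 / 8 : ℝ) * (good Q n).card) := by gcongr
      _ = _ := by rw [← Real.sqrt_mul (by positivity)]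
  have h8 := h3 ((good Q n).card : ℝ) (h5 hn)
  rw [← hM0] at h8
  have h9 := abs_le.1 h2
  have hE4 : E ≤ 4 * M0 := by nlinarith
  calc |R - M0| ≤ |R - E| + |E - M0| := abs_sub_le _ _ _
    _ ≤ (δ * M0 + δ * E) + 3 * δ * M0 := add_le_add (hRE.trans (add_le_add h8 le_rfl)) h2
    _ ≤ (δ * M0 + δ * (4 * M0)) + 3 * δ * M0 := by gcongr
    _ = 8 * δ * M0 := by ring
    _ ≤ ε * M0 := by gcongr

end

end Pool.Agent.R494.RC
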