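import Mathlib
import Pool.Agent.R494.CG1

set_option autoImplicit false

/-!
Exact patterns of primes near the multiples of a modulus, and pairs of residue classes of consecutive primes.
-/

namespace Pool.Agent.R494.RP

open Finset Pool.Agent.R494.BGen Pool.Agent.R494.CG

/-- exact patterns with positions in several residue classes -/
theorem exactMod (T K M : ℕ) (hQ : ∀ (a b : Fin T → Fin K → ℤ), (∀ g i, 0 < a g i) →
    Function.Injective (fun x : Fin T × Fin K => (a x.1 x.2, b x.1 x.2)) →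
    (∀ p : ℕ, p.Prime → ∃ n : ℤ, ∀ g i, ¬ ((p : ℤ) ∣ a g i * n + b g i)) →
    ∃ (S : Finset (Fin T)) (c : Fin T → Fin K), M + 1 ≤ S.card ∧
      {n : ℕ | ∀ g ∈ S, 0 < a g (c g) * (n : ℤ) + b g (c g) ∧
        Prime (a g (c g) * (n : ℤ) + b g (c g))}.Infinite)
    (q : ℕ) (hq1 : 1 ≤ q) (x : Fin T → Fin K → ℤ)
    (hxinj : Function.Injective (fun y : Fin T × Fin K => x y.1 y.2))
    (hxq : ∀ g i, IsCoprime (x g i) (q : ℤ))
    (hx : ∀ p : ℕ, p.Prime → p ≤ T * K → ¬ (p : ℤ) ∣ q → ∃ c : ℤ, ∀ g i, ¬ (p : ℤ) ∣ x g i - c)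
    (R : ℕ) : ∃ X : Finset ℤ, X ⊆ univ.image (fun y : Fin T × Fin K => x y.1 y.2) ∧
      M + 1 ≤ (univ.filter (fun g : Fin T => ∃ i, x g i ∈ X)).card ∧
      {n : ℕ | q ∣ n ∧ ∀ y : ℤ, |y| ≤ R → (Nat.Prime ((n : ℤ) + y).toNat ↔ y ∈ X)}.Infinite := by
  classical
  have hq0 : (0 : ℤ) < q := by exact_mod_cast hq1
  set U : Finset ℤ := univ.image (fun y : Fin T × Fin K => x y.1 y.2) with hU
  have hxU : ∀ g i, x g i ∈ U := fun g i => mem_image_of_mem (fun y : Fin T × Fin K => x y.1 y.2)
    (mem_univ (g, i))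
  -- a radius containing all the forms
  obtain ⟨R₁, hR₁⟩ : ∃ R₁ : ℕ, ∀ z ∈ U, |z| ≤ R₁ := by
    refine ⟨U.sup fun z => z.natAbs, fun z hz => ?_⟩
    rw [Int.abs_eq_natAbs]
    exact_mod_cast Finset.le_sup (f := fun z : ℤ => z.natAbs) hz
  set R₂ : ℕ := R + R₁ with hR₂
  -- the integers to be killed
  set Y : Finset ℤ := (Icc (-(R₂ : ℤ)) R₂).filter (fun y => y ∉ U) with hY
  -- distinct large primes
  have hinfp : {p : ℕ | p.Prime ∧ 2 * R₂ + q + 1 < p}.Infinite := by
    have h1 := Nat.infinite_setOfPred_prime.sdiff (Set.finite_Iic (2 * R₂ + q + 1))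
    refine h1.mono ?_
    rintro p ⟨hp, hp2⟩
    exact ⟨hp, not_le.1 hp2⟩
  set em := Set.Infinite.natEmbedding _ hinfp with hem
  set P : ℤ → ℕ := fun y => (em (y + R₂).toNat : ℕ) with hP
  have hPp : ∀ y, (P y).Prime := fun y => (em (y + R₂).toNat).2.1
  have hPb : ∀ y, 2 * R₂ + q + 1 < P y := fun y => (em (y + R₂).toNat).2.2
  have hPinj : ∀ y ∈ Y, ∀ y' ∈ Y, P y = P y' → y = y' := by
    intro y hy y' hy' h
    have h1 := (mem_Icc.1 (mem_filter.1 hy).1).1
    have h2 := (mem_Icc.1 (mem_filter.1 hy').1).1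
    have h3 : (y + R₂).toNat = (y' + R₂).toNat := em.injective (Subtype.ext h)
    omega
  have hPcop : ∀ y ∈ Y, ∀ y' ∈ Y, y ≠ y' → IsCoprime ((P y : ℕ) : ℤ) ((P y' : ℕ) : ℤ) := by
    intro y hy y' hy' hne
    rw [Nat.isCoprime_iff_coprime, Nat.coprime_primes (hPp y) (hPp y')]
    exact fun h => hne (hPinj y hy y' hy' h)
  have hPq : ∀ y, IsCoprime ((P y : ℕ) : ℤ) (q : ℤ) := by
    intro y
    rw [Nat.isCoprime_iff_coprime, (hPp y).coprime_iff_not_dvd]
    intro hd
    have := Nat.le_of_dvd (by omega) hd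
    have := hPb y
    omega
  -- the residue
  obtain ⟨n₀, hn₀, hn₀q⟩ : ∃ n₀ : ℤ, (∀ y ∈ Y, ((P y : ℕ) : ℤ) ∣ n₀ + y) ∧ (q : ℤ) ∣ n₀ := by
    obtain ⟨n₀, h⟩ := crt (insertNone Y) (fun o => o.elim (q : ℤ) (fun y => ((P y : ℕ) : ℤ)))
      (fun o => o.elim 0 (fun y => -y)) (by
        intro i hi j hj hij
        rcases i with _ | y <;> rcases j with _ | y'
        · exact absurd rfl hij
        · exact (hPq y').symm
        · exact hPq y
        · exact hPcop y (some_mem_insertNone.1 hi) y' (some_mem_insertNone.1 hj)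
            (fun h => hij (by rw [h])))
    refine ⟨n₀, fun y hy => ?_, ?_⟩
    · have := h (some y) (some_mem_insertNone.2 hy)
      simpa using this
    · have := h none (by simp)
      simpa using this
  set PP : ℕ := ∏ y ∈ Y, P y with hPP
  have hPP0 : 0 < PP := prod_pos fun y _ => (hPp y).pos
  obtain ⟨S, c, hS, hinf⟩ := hQ (fun _ _ => (q : ℤ) * PP) (fun g i => n₀ + x g i)
    (fun _ _ => by positivity)
    (by
      intro y y' hyy
      simp only [Prod.mk.injEq, true_and, add_right_inj] at hyy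
      exact hxinj hyy)
    (by
      intro p hp
      have hpp := Nat.prime_iff_prime_int.1 hp
      by_cases hpq : (p : ℤ) ∣ q
      · refine ⟨0, fun g i hd => ?_⟩
        rw [mul_zero, zero_add] at hd
        have h1 : (p : ℤ) ∣ x g i := (dvd_add_right (hpq.trans hn₀q)).1 hd
        exact hpp.not_isUnit ((hxq g i).isUnit_of_dvd' h1 hpq)
      by_cases hpP : (p : ℤ) ∣ (PP : ℤ)
      · have h1 : p ∣ PP := by exact_mod_cast hpP
        obtain ⟨y, hy, hpy⟩ := (Prime.dvd_finsetProd_iff hp.prime P).1 h1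
        have h2 : p = P y := (Nat.prime_dvd_prime_iff_eq hp (hPp y)).1 hpy
        refine ⟨0, fun g i hd => ?_⟩
        rw [mul_zero, zero_add] at hd
        have h3 := dvd_sub hd (h2 ▸ hn₀ y hy)
        have h4 : n₀ + x g i - (n₀ + y) = x g i - y := by ring
        rw [h4] at h3
        have h5 : x g i - y ≠ 0 := by
          intro h
          have h6 : y = x g i := by linarith
          exact (mem_filter.1 hy).2 (h6 ▸ hxU g i)
        have h6 := Int.le_of_dvd (abs_pos.2 h5) ((dvd_abs _ _).2 h3)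
        have h7 := hR₁ _ (hxU g i)
        have h8 := mem_Icc.1 (mem_filter.1 hy).1
        have h9 : |x g i - y| ≤ |x g i| + |y| := abs_sub _ _
        have h10 : |y| ≤ R₂ := abs_le.2 h8
        have h11 := hPb y
        rw [← h2] at h11
        have h12 : ((2 * R₂ + q + 1 : ℕ) : ℤ) < p := by exact_mod_cast h11
        push_cast at h12 h10
        rw [hR₂] at h12 h10
        push_cast at h12 h10
        linarith
      · have hcop : IsCoprime ((q : ℤ) * PP) (p : ℤ) := by
          rw [isCoprime_comm]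
          refine (Prime.coprime_iff_not_dvd hpp).2 fun h => ?_
          rcases hpp.dvd_or_dvd h with h | h
          · exact hpq h
          · exact hpP h
        obtain ⟨u, w, huw⟩ := hcop
        obtain ⟨c, hc⟩ : ∃ c : ℤ, ∀ g i, ¬ (p : ℤ) ∣ x g i - c := by
          rcases Nat.lt_or_ge (T * K) p with h | h
          · obtain ⟨n, hn⟩ := exists_shift_int hp h x
            refine ⟨-n, fun g i hd => hn g i ?_⟩
            have : x g i - -n = n + x g i := by ring
            rwa [this] at hd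
          · exact hx p hp h hpq
        refine ⟨u * (- c - n₀), fun g i hd => hc g i ?_⟩
        have e1 : (q : ℤ) * PP * (u * (- c - n₀)) + (n₀ + x g i) =
            (x g i - c) + (-(w * (- c - n₀))) * p := by
          have : u * ((q : ℤ) * PP) = 1 - w * p := by linarith
          calc (q : ℤ) * PP * (u * (- c - n₀)) + (n₀ + x g i)
              = (u * ((q : ℤ) * PP)) * (- c - n₀) + (n₀ + x g i) := by ring
            _ = _ := by rw [this]; ring
        rw [e1] at hd
        exact (dvd_add_left (Dvd.intro_left _ rfl)).1 hd)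
  -- the numbers `n`
  set F : ℕ → ℤ := fun n => (q : ℤ) * PP * n + n₀ with hF
  set pat : ℕ → Finset ℤ := fun n => U.filter (fun z => Nat.Prime (F n + z).toNat) with hpat
  obtain ⟨X, hXU, hXinf⟩ : ∃ X ∈ U.powerset, ({n : ℕ | ∀ g ∈ S, 0 < (q : ℤ) * PP * (n : ℤ) +
      (n₀ + x g (c g)) ∧ Prime ((q : ℤ) * PP * (n : ℤ) + (n₀ + x g (c g)))} ∩
        {n | pat n = X}).Infinite := by
    by_contra hcon
    push Not at hcon
    refine hinf ((Set.Finite.biUnion (U.powerset.finite_toSet) (fun X hX =>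
      hcon X hX)).subset ?_)
    intro n hn
    exact Set.mem_biUnion (show pat n ∈ (U.powerset : Set (Finset ℤ)) from
      mem_powerset.2 (filter_subset _ _)) ⟨hn, rfl⟩
  refine ⟨X, mem_powerset.1 hXU, ?_, ?_⟩
  · refine hS.trans (card_le_card fun g hg => ?_)
    rw [mem_filter]
    refine ⟨mem_univ g, c g, ?_⟩
    obtain ⟨n, hn1, hn2⟩ := hXinf.nonempty
    have hn2' : pat n = X := hn2
    rw [← hn2', hpat, mem_filter]
    refine ⟨hxU _ _, ?_⟩
    obtain ⟨h1, h2⟩ := hn1 g hg
    have h3 : F n + x g (c g) = (q : ℤ) * PP * (n : ℤ) + (n₀ + x g (c g)) := by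
      simp only [hF]; ring
    rw [h3, Nat.prime_iff_prime_int, Int.toNat_of_nonneg h1.le]
    exact h2
  · -- exactness
    obtain ⟨N, hN⟩ : ∃ N : ℕ, ∀ n : ℕ, N ≤ n → (R₂ : ℤ) < F n ∧ ∀ y ∈ Y, ((P y : ℕ) : ℤ) < F n + y := by
      refine ⟨(|n₀| + R₂ + ∑ y ∈ Y, (P y : ℤ) + R₂ + 1).toNat, fun n hn => ?_⟩
      have h0 : |n₀| + R₂ + ∑ y ∈ Y, (P y : ℤ) + R₂ + 1 ≤ n := by
        have := Int.self_le_toNat (|n₀| + R₂ + ∑ y ∈ Y, (P y : ℤ) + R₂ + 1)
        have h : (((|n₀| + R₂ + ∑ y ∈ Y, (P y : ℤ) + R₂ + 1).toNat : ℕ) : ℤ) ≤ n := by exact_mod_cast hn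
        linarith
      have hS0 : (0 : ℤ) ≤ ∑ y ∈ Y, (P y : ℤ) := sum_nonneg fun y _ => Int.natCast_nonneg _
      have h1 : (n : ℤ) ≤ (q : ℤ) * PP * n := by
        have : (1 : ℤ) ≤ (q : ℤ) * PP := by
          have h3 : 1 ≤ q * PP := Nat.one_le_iff_ne_zero.2 (by positivity)
          exact_mod_cast h3
        nlinarith
      have h2 := neg_abs_le n₀
      refine ⟨by simp only [hF]; linarith, fun y hy => ?_⟩
      have h3 : (P y : ℤ) ≤ ∑ y ∈ Y, (P y : ℤ) :=
        single_le_sum (f := fun y => (P y : ℤ)) (fun _ _ => Int.natCast_nonneg _) hy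
      have h4 := (mem_Icc.1 (mem_filter.1 hy).1).1
      simp only [hF]
      linarith
    have hinj : Set.InjOn (fun n : ℕ => (F n).toNat) {n | N ≤ n} := by
      intro n hn m hm hnm
      have h1 := (hN n hn).1
      have h2 := (hN m hm).1
      have hR0 : (0 : ℤ) ≤ R₂ := Int.natCast_nonneg _
      simp only at hnm
      have h3 : F n = F m := by
        rw [← Int.toNat_of_nonneg (by linarith : 0 ≤ F n), ← Int.toNat_of_nonneg (by linarith : 0 ≤ F m), hnm]
      simp only [hF, add_left_inj] at h3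
      have h4 : ((q : ℤ) * PP) ≠ 0 := by positivity
      exact_mod_cast mul_left_cancel₀ h4 h3
    have h5 := (hXinf.sdiff (Set.finite_Iio N)).image (hinj.mono (fun n hn => not_lt.1 (Set.mem_Iio.not.1 hn.2)))
    refine h5.mono ?_
    rintro _ ⟨n, ⟨⟨hn1, hn2⟩, hn3⟩, rfl⟩
    have hn2' : pat n = X := hn2
    obtain ⟨h6, h7⟩ := hN n (not_lt.1 hn3)
    have hR0 : (0 : ℤ) ≤ R₂ := Int.natCast_nonneg _
    have hcast : (((F n).toNat : ℕ) : ℤ) = F n := Int.toNat_of_nonneg (by linarith)
    refine ⟨?_, fun y hy => ?_⟩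
    · simp only
      have h8 : (q : ℤ) ∣ (((F n).toNat : ℕ) : ℤ) := by
        rw [hcast]
        exact dvd_add (Dvd.dvd.mul_right (Dvd.intro _ rfl) _) hn₀q
      exact_mod_cast h8
    · simp only
      rw [hcast]
      by_cases hyU : y ∈ U
      · constructor
        · intro hp
          rw [← hn2', hpat, mem_filter]
          exact ⟨hyU, hp⟩
        · intro hyX
          rw [← hn2', hpat, mem_filter] at hyX
          exact hyX.2
      · have hyY : y ∈ Y := by
          rw [hY, mem_filter, mem_Icc]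
          refine ⟨abs_le.1 (hy.trans ?_), hyU⟩
          rw [hR₂]
          push_cast
          linarith [Int.natCast_nonneg R₁]
        constructor
        · intro hp
          exfalso
          have h8 := h7 y hyY
          have h9 : ((P y : ℕ) : ℤ) ∣ F n + y := by
            have h10 : ((P y : ℕ) : ℤ) ∣ (PP : ℤ) := by
              exact_mod_cast dvd_prod_of_mem P hyY
            have h11 : F n + y = (q : ℤ) * PP * n + (n₀ + y) := by simp only [hF]; ring
            rw [h11]
            exact dvd_add (Dvd.dvd.mul_right (Dvd.dvd.mul_left h10 _) _) (hn₀ y hyY)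
          have hpos : 0 ≤ F n + y := by
            have := Int.natCast_nonneg (P y)
            linarith
          have h12 : P y ∣ (F n + y).toNat := by
            have : ((P y : ℕ) : ℤ) ∣ (((F n + y).toNat : ℕ) : ℤ) := by
              rw [Int.toNat_of_nonneg hpos]; exact h9
            exact_mod_cast this
          have h13 := (Nat.prime_dvd_prime_iff_eq (hPp y) hp).1 h12
          have h14 : (((F n + y).toNat : ℕ) : ℤ) = F n + y := Int.toNat_of_nonneg hpos
          rw [← h13] at h14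
          linarith
        · intro hyX
          exact absurd (mem_powerset.1 hXU hyX) hyU

end Pool.Agent.R494.RP
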