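import Mathlib
import Pool.Agent.R494.RP1

set_option autoImplicit false

/-!
Among any four residue classes in any order there are two which consecutive primes visit.
-/

namespace Pool.Agent.R494.RP

open Finset Pool.Agent.R494.BGen Pool.Agent.R494.CG

/-- for infinitely many `s` the consecutive primes `p_s`, `p_(s+1)` are `≡ a`, `≡ b` modulo `q` and at distance
at most `C` -/
def Tr (q C a b : ℕ) : Prop :=
  {s : ℕ | Nat.nth Nat.Prime s ≡ a [MOD q] ∧ Nat.nth Nat.Prime (s + 1) ≡ b [MOD q] ∧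
    Nat.nth Nat.Prime (s + 1) ≤ Nat.nth Nat.Prime s + C}.Infinite

theorem nth_step {a b s : ℕ} (ha : Nat.nth Nat.Prime s = a) (hb : b.Prime) (hab : a < b)
    (hno : ∀ c, a < c → c < b → ¬ c.Prime) : Nat.nth Nat.Prime (s + 1) = b := by
  have h1 : Nat.nth Nat.Prime (Nat.count Nat.Prime b) = b := Nat.nth_count hb
  have hmono := Nat.nth_strictMono Nat.infinite_setOfPred_prime
  have h2 : s < Nat.count Nat.Prime b := by
    rw [← hmono.lt_iff_lt, h1, ha]
    exact hab
  rcases Nat.lt_or_ge (s + 1) (Nat.count Nat.Prime b) with h3 | h3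
  · exfalso
    have h4 : Nat.nth Nat.Prime (s + 1) < b := by
      rw [← h1]
      exact hmono h3
    have h5 : a < Nat.nth Nat.Prime (s + 1) := by
      rw [← ha]
      exact hmono (Nat.lt_succ_self s)
    exact hno _ h5 h4 (Nat.prime_nth_prime _)
  · have h4 : Nat.count Nat.Prime b = s + 1 := by omega
    rw [← h4, h1]

theorem pair_of_four (hQG : QG) (q : ℕ) (hq : 1 ≤ q) : ∃ C : ℕ, ∀ c : Fin 4 → ℕ,
    (∀ g, (c g).Coprime q) → ∃ i j : Fin 4, i < j ∧ Tr q C (c i) (c j) := by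
  classical
  obtain ⟨c₀, hc₀, hc₁, hQ⟩ := hQG
  obtain ⟨K, hK, hQ⟩ := hQ 4 1 (by norm_num) (by push_cast; linarith)
  set W : ℕ := ∏ p ∈ (range (4 * K + 1)).filter (fun p => p.Prime ∧ ¬ p ∣ q), p with hW
  have hW0 : 0 < W := prod_pos fun p hp => ((mem_filter.1 hp).2.1).pos
  have hWq : Nat.Coprime q W := by
    refine Nat.Coprime.prod_right fun p hp => ?_
    rw [Nat.coprime_comm]
    exact ((mem_filter.1 hp).2.1.coprime_iff_not_dvd).2 (mem_filter.1 hp).2.2
  have hWp : ∀ p : ℕ, p.Prime → p ≤ 4 * K → ¬ p ∣ q → p ∣ W := fun p hp h1 h2 =>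
    dvd_prod_of_mem _ (mem_filter.2 ⟨mem_range.2 (by omega), hp, h2⟩)
  set D : ℕ := q * W with hD
  have hD0 : 0 < D := by positivity
  refine ⟨4 * K * D, fun c hc => ?_⟩
  have hy : ∀ g, ∃ y : ℕ, y < D ∧ y ≡ c g [MOD q] ∧ W ∣ y := by
    intro g
    obtain ⟨y, hy1, hy2⟩ := Nat.chineseRemainder hWq (c g) 0
    refine ⟨y % D, Nat.mod_lt _ hD0, ?_, ?_⟩
    · exact ((Nat.mod_modEq _ _).of_mul_right _).trans hy1
    · have h1 : W ∣ y := (Nat.modEq_zero_iff_dvd).1 hy2
      exact (Nat.dvd_mod_iff (Dvd.intro_left _ rfl)).2 h1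
  choose y hyD hyc hyW using hy
  set x : Fin 4 → Fin K → ℤ := fun g i => ((y g + D * (K * g + i) : ℕ) : ℤ) with hx
  have hblock : ∀ (g : Fin 4) (i : Fin K), D * (K * g) ≤ y g + D * (K * g + i) ∧
      y g + D * (K * g + i) < D * (K * (g + 1)) := by
    intro g i
    have h1 := hyD g
    have h2 : (i : ℕ) + 1 ≤ K := i.2
    constructor
    · nlinarith
    · nlinarith
  have hmod : ∀ (g : Fin 4) (i : Fin K), y g + D * (K * g + i) ≡ c g [MOD q] := by
    intro g i
    have h1 : q ∣ D * (K * g + i) := Dvd.dvd.mul_right (Dvd.intro _ rfl) _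
    calc y g + D * (K * g + i) ≡ y g + 0 [MOD q] :=
          Nat.ModEq.add_left _ ((Nat.modEq_zero_iff_dvd).2 h1)
      _ ≡ c g [MOD q] := by simpa using hyc g
  have hinj : Function.Injective (fun z : Fin 4 × Fin K => x z.1 z.2) := by
    rintro ⟨g, i⟩ ⟨g', i'⟩ h
    simp only [hx] at h
    have h' : y g + D * (K * g + i) = y g' + D * (K * g' + i') := by exact_mod_cast h
    have hd1 : (y g + D * (K * g + i)) / D = K * g + i := by
      rw [Nat.add_mul_div_left _ _ hD0, Nat.div_eq_of_lt (hyD g), zero_add]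
    have hd2 : (y g' + D * (K * g' + i')) / D = K * g' + i' := by
      rw [Nat.add_mul_div_left _ _ hD0, Nat.div_eq_of_lt (hyD g'), zero_add]
    have h3 : K * (g : ℕ) + i = K * g' + i' := by rw [← hd1, ← hd2, h']
    have hK0 : 0 < K := by omega
    have e1 : (K * (g : ℕ) + i) / K = g := by
      rw [Nat.mul_add_div hK0, Nat.div_eq_of_lt i.2, add_zero]
    have e2 : (K * (g' : ℕ) + i') / K = g' := by
      rw [Nat.mul_add_div hK0, Nat.div_eq_of_lt i'.2, add_zero]
    have h4 : (g : ℕ) = g' := by rw [← e1, ← e2, h3]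
    have h5 : g = g' := Fin.ext h4
    subst h5
    have h6 : i = i' := Fin.ext (by omega)
    rw [h6]
  obtain ⟨X, hXU, hXc, hXinf⟩ := exactMod 4 K 1 hQ q hq x hinj
    (by
      intro g i
      simp only [hx]
      rw [Nat.isCoprime_iff_coprime]
      have h1 := (hmod g i).gcd_eq
      have h2 := hc g
      rw [Nat.Coprime] at h2 ⊢
      rw [h1, h2])
    (by
      intro p hp hpK hpq
      refine ⟨1, fun g i hd => ?_⟩
      have h1 : p ∣ W := hWp p hp hpK (fun h => hpq (by exact_mod_cast h))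
      have h2 : p ∣ y g + D * (K * g + i) :=
        dvd_add (h1.trans (hyW g)) (Dvd.dvd.mul_right (Dvd.dvd.mul_left h1 _) _)
      have h3 : (p : ℤ) ∣ x g i := by simp only [hx]; exact_mod_cast h2
      have h4 : (p : ℤ) ∣ 1 := by
        have := dvd_sub h3 hd
        simpa using this
      have h5 : p ∣ 1 := by exact_mod_cast h4
      exact hp.one_lt.ne' (Nat.dvd_one.1 h5))
    (4 * K * D)
  -- two groups
  obtain ⟨g₁, hg₁, g₂, hg₂, hne⟩ := Finset.one_lt_card.1 (show 1 < _ from hXc)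
  obtain ⟨g₁, g₂, hlt, ⟨i₁, hi₁⟩, ⟨i₂, hi₂⟩⟩ : ∃ g₁ g₂ : Fin 4, g₁ < g₂ ∧ (∃ i, x g₁ i ∈ X) ∧
      (∃ i, x g₂ i ∈ X) := by
    rcases lt_or_gt_of_ne hne with h | h
    · exact ⟨g₁, g₂, h, (mem_filter.1 hg₁).2, (mem_filter.1 hg₂).2⟩
    · exact ⟨g₂, g₁, h, (mem_filter.1 hg₂).2, (mem_filter.1 hg₁).2⟩
  set B : ℤ := ((D * (K * (g₁ + 1)) : ℕ) : ℤ) with hB
  have hA1 : (X.filter (fun z => z < B)).Nonempty := ⟨x g₁ i₁, mem_filter.2 ⟨hi₁, by
    simp only [hx, hB]
    exact_mod_cast (hblock g₁ i₁).2⟩⟩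
  have hlt' : (g₁ : ℕ) + 1 ≤ g₂ := hlt
  have hB1 : (X.filter (fun z => B ≤ z)).Nonempty := ⟨x g₂ i₂, mem_filter.2 ⟨hi₂, by
    simp only [hx, hB]
    have h1 := (hblock g₂ i₂).1
    have h2 : D * (K * ((g₁ : ℕ) + 1)) ≤ D * (K * g₂) :=
      Nat.mul_le_mul_left _ (Nat.mul_le_mul_left _ hlt')
    exact_mod_cast h2.trans h1⟩⟩
  set u := (X.filter (fun z => z < B)).max' hA1 with hu
  set v := (X.filter (fun z => B ≤ z)).min' hB1 with hv
  have huX := mem_filter.1 ((X.filter (fun z => z < B)).max'_mem hA1)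
  have hvX := mem_filter.1 ((X.filter (fun z => B ≤ z)).min'_mem hB1)
  rw [← hu] at huX
  rw [← hv] at hvX
  have huv : u < v := lt_of_lt_of_le huX.2 hvX.2
  have hno : ∀ z ∈ X, u < z → z < v → False := by
    intro z hz h1 h2
    rcases lt_or_ge z B with h3 | h3
    · have := (X.filter (fun z => z < B)).le_max' z (mem_filter.2 ⟨hz, h3⟩)
      rw [← hu] at this
      linarith
    · have := (X.filter (fun z => B ≤ z)).min'_le z (mem_filter.2 ⟨hz, h3⟩)
      rw [← hv] at this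
      linarith
  obtain ⟨⟨gu, iu⟩, -, hgu⟩ := mem_image.1 (hXU huX.1)
  obtain ⟨⟨gv, iv⟩, -, hgv⟩ := mem_image.1 (hXU hvX.1)
  simp only at hgu hgv
  have hguv : gu < gv := by
    have h1 : D * (K * gu) < D * (K * ((g₁ : ℕ) + 1)) := by
      have h2 := huX.2
      rw [← hgu] at h2
      simp only [hx, hB] at h2
      have h3 : y gu + D * (K * gu + iu) < D * (K * ((g₁ : ℕ) + 1)) := by exact_mod_cast h2
      exact lt_of_le_of_lt (hblock gu iu).1 h3
    have h1' : (gu : ℕ) < g₁ + 1 := Nat.lt_of_mul_lt_mul_left (Nat.lt_of_mul_lt_mul_left h1)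
    have h4 : D * (K * ((g₁ : ℕ) + 1)) < D * (K * ((gv : ℕ) + 1)) := by
      have h2 := hvX.2
      rw [← hgv] at h2
      simp only [hx, hB] at h2
      have h3 : D * (K * ((g₁ : ℕ) + 1)) ≤ y gv + D * (K * gv + iv) := by exact_mod_cast h2
      exact lt_of_le_of_lt h3 (hblock gv iv).2
    have h4' : (g₁ : ℕ) + 1 < gv + 1 := Nat.lt_of_mul_lt_mul_left (Nat.lt_of_mul_lt_mul_left h4)
    rw [Fin.lt_def]
    omega
  refine ⟨gu, gv, hguv, ?_⟩
  -- the bounds
  have hu0 : 0 ≤ u := by rw [← hgu]; simp only [hx]; exact Int.natCast_nonneg _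
  have hvC : v < ((4 * K * D : ℕ) : ℤ) := by
    rw [← hgv]
    simp only [hx]
    have h1 := (hblock gv iv).2
    have h2 : (gv : ℕ) + 1 ≤ 4 := gv.2
    have h3 : D * (K * ((gv : ℕ) + 1)) ≤ D * (K * 4) :=
      Nat.mul_le_mul_left _ (Nat.mul_le_mul_left _ h2)
    have h4 : D * (K * 4) = 4 * K * D := by ring
    have h5 : y gv + D * (K * gv + iv) < 4 * K * D := by omega
    exact_mod_cast h5
  obtain ⟨u', hu'⟩ := Int.eq_ofNat_of_zero_le hu0
  obtain ⟨v', hv'⟩ := Int.eq_ofNat_of_zero_le (hu0.trans huv.le)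
  have huv' : u' < v' := by
    rw [hu', hv'] at huv
    exact_mod_cast huv
  have hvC' : v' < 4 * K * D := by
    rw [hv'] at hvC
    exact_mod_cast hvC
  have hprime : ∀ n : ℕ, (∀ z : ℤ, |z| ≤ ((4 * K * D : ℕ) : ℤ) →
      (Nat.Prime ((n : ℤ) + z).toNat ↔ z ∈ X)) → ∀ w : ℕ, w < 4 * K * D →
      ((n + w).Prime ↔ (w : ℤ) ∈ X) := by
    intro n hn w hw
    have h1 := hn w (by
      rw [abs_of_nonneg (Int.natCast_nonneg _)]
      exact_mod_cast hw.le)
    have h2 : ((n : ℤ) + (w : ℤ)).toNat = n + w := by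
      rw [← Nat.cast_add, Int.toNat_natCast]
    rwa [h2] at h1
  have hinjOn : Set.InjOn (fun n : ℕ => Nat.count Nat.Prime (n + u'))
      {n : ℕ | q ∣ n ∧ ∀ y : ℤ, |y| ≤ ((4 * K * D : ℕ) : ℤ) →
        (Nat.Prime ((n : ℤ) + y).toNat ↔ y ∈ X)} := by
    intro n hn m hm hnm
    have h1 := (hprime n hn.2 u' (by omega)).2 (hu' ▸ huX.1)
    have h2 := (hprime m hm.2 u' (by omega)).2 (hu' ▸ huX.1)
    have h3 := Nat.nth_count h1
    have h4 := Nat.nth_count h2
    simp only at hnm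
    rw [hnm] at h3
    omega
  refine (hXinf.image hinjOn).mono ?_
  rintro _ ⟨n, hn, rfl⟩
  have h1 := (hprime n hn.2 u' (by omega)).2 (hu' ▸ huX.1)
  have h2 := (hprime n hn.2 v' (by omega)).2 (hv' ▸ hvX.1)
  have h3 := Nat.nth_count h1
  have h4 := nth_step h3 h2 (by omega) (by
    intro w hw1 hw2 hwp
    obtain ⟨w', rfl⟩ := Nat.exists_eq_add_of_le (show n ≤ w by omega)
    have h5 := (hprime n hn.2 w' (by omega)).1 hwp
    exact hno w' h5 (by rw [hu']; exact_mod_cast (by omega : u' < w'))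
      (by rw [hv']; exact_mod_cast (by omega : w' < v')))
  have hmu : u' ≡ c gu [MOD q] := by
    have h5 : u' = y gu + D * (K * gu + iu) := by
      rw [hu'] at hgu
      simp only [hx] at hgu
      exact_mod_cast hgu.symm
    rw [h5]
    exact hmod gu iu
  have hmv : v' ≡ c gv [MOD q] := by
    have h5 : v' = y gv + D * (K * gv + iv) := by
      rw [hv'] at hgv
      simp only [hx] at hgv
      exact_mod_cast hgv.symm
    rw [h5]
    exact hmod gv iv
  have hn0 : n ≡ 0 [MOD q] := (Nat.modEq_zero_iff_dvd).2 hn.1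
  refine ⟨?_, ?_, ?_⟩
  · simp only
    rw [h3]
    simpa using hn0.add hmu
  · simp only
    rw [h4]
    simpa using hn0.add hmv
  · simp only
    rw [h3, h4]
    omega

open Classical in
/-- Turan's theorem for the increasing arcs -/
theorem third_aux {V : Type} [Fintype V] [LinearOrder V] (D : V → V → Prop)
    (hD : ∀ c : Fin 4 → V, ∃ i j : Fin 4, i < j ∧ D (c i) (c j)) :
    3 * ((univ : Finset (V × V)).filter (fun x => x.1 < x.2 ∧ ¬ D x.1 x.2)).card ≤
      (Fintype.card V) ^ 2 := by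
  have hrefl : ∀ v, D v v := fun v => by
    obtain ⟨i, j, -, h⟩ := hD (fun _ => v)
    exact h
  set G : SimpleGraph V :=
    { Adj := fun a b => (a < b ∧ ¬ D a b) ∨ (b < a ∧ ¬ D b a)
      symm := ⟨fun a b h => h.symm⟩
      loopless := ⟨fun a h => by
        rcases h with h | h <;> exact h.2 (hrefl a)⟩ } with hG
  have hcf : G.CliqueFree (3 + 1) := by
    intro s hs
    have hs2 := hs.card_eq
    obtain ⟨i, j, hij, hDij⟩ := hD (s.orderEmbOfFin hs2)
    have h1 : s.orderEmbOfFin hs2 i < s.orderEmbOfFin hs2 j := (s.orderEmbOfFin hs2).strictMono hij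
    have h2 := hs.isClique (orderEmbOfFin_mem s hs2 i) (orderEmbOfFin_mem s hs2 j) h1.ne
    rcases h2 with h2 | h2
    · exact h2.2 hDij
    · exact absurd h2.1 (not_lt.2 h1.le)
  have hT := hcf.card_edgeFinset_le
  have h3 : 2 * 3 * G.edgeFinset.card ≤ (3 - 1) * (Fintype.card V) ^ 2 := by
    refine le_trans ?_ (SimpleGraph.mul_card_edgeFinset_turanGraph_le (n := Fintype.card V) (r := 3))
    refine Nat.mul_le_mul_left _ ?_
    rw [SimpleGraph.card_edgeFinset_turanGraph]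
    exact hT
  -- the number of arcs
  have h4 : ((univ : Finset (V × V)).filter (fun x => x.1 < x.2 ∧ ¬ D x.1 x.2)).card ≤
      G.edgeFinset.card := by
    refine card_le_card_of_injOn (fun x => s(x.1, x.2)) ?_ ?_
    · intro x hx
      have hx' := (mem_filter.1 hx).2
      rw [mem_coe, SimpleGraph.mem_edgeFinset, SimpleGraph.mem_edgeSet]
      exact Or.inl hx'
    · rintro ⟨a, b⟩ hx ⟨a', b'⟩ hy hxy
      have hx' := (mem_filter.1 hx).2
      have hy' := (mem_filter.1 hy).2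
      simp only at hxy hx' hy'
      rw [Sym2.eq_iff] at hxy
      rcases hxy with ⟨rfl, rfl⟩ | ⟨rfl, rfl⟩
      · rfl
      · exact absurd hy'.1 (not_lt.2 hx'.1.le)
  omega

open Classical in
/-- Turan's theorem for an order and its reverse -/
theorem third {V : Type} [Fintype V] [LinearOrder V] (D : V → V → Prop)
    (hD : ∀ c : Fin 4 → V, ∃ i j : Fin 4, i < j ∧ D (c i) (c j)) :
    (Fintype.card V) ^ 2 ≤ 3 * ((univ : Finset (V × V)).filter (fun x => D x.1 x.2)).card := by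
  have hrefl : ∀ v, D v v := fun v => by
    obtain ⟨i, j, -, h⟩ := hD (fun _ => v)
    exact h
  have h1 := third_aux D hD
  have h2 := third_aux (V := Vᵒᵈ) (fun a b => D (OrderDual.ofDual a) (OrderDual.ofDual b))
    (fun c => hD (fun i => OrderDual.ofDual (c i)))
  have h2' : 3 * ((univ : Finset (V × V)).filter (fun x => x.2 < x.1 ∧ ¬ D x.1 x.2)).card ≤
      (Fintype.card V) ^ 2 := by
    refine le_trans (Nat.mul_le_mul_left _ ?_) (h2.trans_eq (by rw [Fintype.card_orderDual]))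
    refine card_le_card_of_injOn (fun x => (OrderDual.toDual x.1, OrderDual.toDual x.2)) ?_ ?_
    · intro x hx
      have hx' := (mem_filter.1 hx).2
      rw [mem_coe, mem_filter]
      exact ⟨mem_univ _, OrderDual.toDual_lt_toDual.2 hx'.1, hx'.2⟩
    · rintro ⟨a, b⟩ _ ⟨a', b'⟩ _ hxy
      simpa using hxy
  have h3 : ((univ : Finset (V × V)).filter (fun x => ¬ D x.1 x.2)).card ≤
      ((univ : Finset (V × V)).filter (fun x => x.1 < x.2 ∧ ¬ D x.1 x.2)).card +
      ((univ : Finset (V × V)).filter (fun x => x.2 < x.1 ∧ ¬ D x.1 x.2)).card := by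
    refine le_trans (card_le_card ?_) (card_union_le _ _)
    intro x hx
    have hx' := (mem_filter.1 hx).2
    rw [mem_union, mem_filter, mem_filter]
    have hne : x.1 ≠ x.2 := fun h => hx' (by rw [h]; exact hrefl _)
    rcases lt_or_gt_of_ne hne with h | h
    · exact Or.inl ⟨mem_univ _, h, hx'⟩
    · exact Or.inr ⟨mem_univ _, h, hx'⟩
  have h4 := card_filter_add_card_filter_not (s := (univ : Finset (V × V))) (fun x => D x.1 x.2)
  rw [card_univ, Fintype.card_prod] at h4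
  have h5 : Fintype.card V ^ 2 = Fintype.card V * Fintype.card V := sq _
  omega

end Pool.Agent.R494.RP
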