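import Mathlib
import Pool.Agent.R494.SPL2
import Pool.Agent.TH696.FA.Final
import Pool.Agent.W65.CS.R2
import Pool.Agent.H510R2.Div

set_option autoImplicit false
set_option linter.unusedSectionVars false

/-! # Four squares and `2 ^ (x + y) + 2 ^ (z + w) + 1` -/

open MeasureTheory Filter Finset Asymptotics
open scoped Topology

namespace Pool.Agent.R494.SPL

open Pool.Agent.R528.RM

/-- quadruples of natural numbers with sum of squares `n` -/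
def quad (n : ℕ) : Finset (ℕ × ℕ × ℕ × ℕ) :=
  (range (n + 1) ×ˢ range (n + 1) ×ˢ range (n + 1) ×ˢ range (n + 1)).filter
    (fun v => n = v.1 ^ 2 + v.2.1 ^ 2 + v.2.2.1 ^ 2 + v.2.2.2 ^ 2)

lemma mem_quad {n : ℕ} {v : ℕ × ℕ × ℕ × ℕ} :
    v ∈ quad n ↔ n = v.1 ^ 2 + v.2.1 ^ 2 + v.2.2.1 ^ 2 + v.2.2.2 ^ 2 := by
  unfold quad
  rw [mem_filter]
  refine ⟨fun h => h.2, fun h => ⟨?_, h⟩⟩
  have h1 : ∀ a : ℕ, a ≤ a ^ 2 := fun a => Nat.le_self_pow (by norm_num) a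
  simp only [mem_product, mem_range]
  have := h1 v.1
  have := h1 v.2.1
  have := h1 v.2.2.1
  have := h1 v.2.2.2
  omega

/-- the value -/
def val2 (v : ℕ × ℕ × ℕ × ℕ) : ℕ := 2 ^ (v.1 + v.2.1) + 2 ^ (v.2.2.1 + v.2.2.2) + 1

lemma pow_sum_aux {a b c d : ℕ} (hab : a ≤ b) (hcd : c ≤ d) (h : 2 ^ a + 2 ^ b = 2 ^ c + 2 ^ d) : a = c ∧ b = d := by
  have key : ∀ {a b c d : ℕ}, a ≤ b → c ≤ d → 2 ^ a + 2 ^ b = 2 ^ c + 2 ^ d → ¬ b < d := by
    intro a b c d hab hcd h hlt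
    have h1 : 2 ^ a ≤ 2 ^ b := Nat.pow_le_pow_right (by norm_num) hab
    have h2 : 2 ^ (b + 1) ≤ 2 ^ d := Nat.pow_le_pow_right (by norm_num) hlt
    have h3 : 0 < 2 ^ c := by positivity
    rw [pow_succ] at h2
    omega
  have h1 := key hab hcd h
  have h2 := key hcd hab h.symm
  have h3 : b = d := by omega
  subst h3
  have h4 : 2 ^ a = 2 ^ c := by omega
  exact ⟨Nat.pow_right_injective le_rfl h4, rfl⟩

lemma pow_sum {a b c d : ℕ} (h : 2 ^ a + 2 ^ b = 2 ^ c + 2 ^ d) : (a = c ∧ b = d) ∨ (a = d ∧ b = c) := by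
  rcases le_total a b with h1 | h1 <;> rcases le_total c d with h2 | h2
  · exact Or.inl (pow_sum_aux h1 h2 h)
  · have := pow_sum_aux h1 h2 (by omega)
    exact Or.inr this
  · have := pow_sum_aux h1 h2 (by omega)
    exact Or.inr ⟨this.2, this.1⟩
  · have := pow_sum_aux h1 h2 (by omega)
    exact Or.inl ⟨this.2, this.1⟩

lemma fibre2 (n P D : ℕ) (hD1 : 1 ≤ D) (hD : ∀ k : ℕ, 1 ≤ k → k ≤ 2 * n → k.divisors.card ≤ D) :
    ((quad n).filter (fun v => val2 v = P)).card ≤ 16 * D ^ 2 := by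
  classical
  rcases ((quad n).filter (fun v => val2 v = P)).eq_empty_or_nonempty with he | ⟨⟨x0, y0, z0, w0⟩, hZ⟩
  · rw [he]; simp
  rw [mem_filter, mem_quad] at hZ
  obtain ⟨hZ1, hZ2⟩ := hZ
  unfold val2 at hZ2
  simp only at hZ1 hZ2
  set m : ℕ := ((x0 : ℤ) - y0).natAbs ^ 2 + ((z0 : ℤ) - w0).natAbs ^ 2 with hm
  have hmZ : (m : ℤ) = ((x0 : ℤ) - y0) ^ 2 + ((z0 : ℤ) - w0) ^ 2 := by
    rw [hm]
    push_cast
    rw [sq_abs, sq_abs]
  have hnZ : (n : ℤ) = (x0 : ℤ) ^ 2 + (y0 : ℤ) ^ 2 + (z0 : ℤ) ^ 2 + (w0 : ℤ) ^ 2 := by exact_mod_cast hZ1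
  have hmn : m ≤ 2 * n := by
    have : (m : ℤ) ≤ 2 * n := by
      rw [hmZ, hnZ]
      nlinarith [sq_nonneg ((x0 : ℤ) + y0), sq_nonneg ((z0 : ℤ) + w0)]
    exact_mod_cast this
  have h1 : ((quad n).filter (fun v => val2 v = P)).card ≤
      ((univ : Finset Bool) ×ˢ Pool.Agent.W65.CS.R2 m).card := by
    apply card_le_card_of_injOn
      (fun v => (decide (v.1 + v.2.1 = x0 + y0), ((v.1 : ℤ) - v.2.1, (v.2.2.1 : ℤ) - v.2.2.2)))
    · rintro ⟨x, y, z, w⟩ hX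
      rw [mem_coe, mem_filter, mem_quad] at hX
      obtain ⟨hX1, hX2⟩ := hX
      unfold val2 at hX2
      simp only at hX1 hX2
      rw [mem_coe, mem_product]
      refine ⟨mem_univ _, ?_⟩
      simp only
      rw [Pool.Agent.W65.CS.mem_R2, hmZ]
      have hnZ' : (n : ℤ) = (x : ℤ) ^ 2 + (y : ℤ) ^ 2 + (z : ℤ) ^ 2 + (w : ℤ) ^ 2 := by exact_mod_cast hX1
      have hs := pow_sum (a := x + y) (b := z + w) (c := x0 + y0) (d := z0 + w0) (by omega)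
      have hsum : ((x : ℤ) + y) ^ 2 + ((z : ℤ) + w) ^ 2 = ((x0 : ℤ) + y0) ^ 2 + ((z0 : ℤ) + w0) ^ 2 := by
        rcases hs with ⟨e1, e2⟩ | ⟨e1, e2⟩
        · have e1' : (x : ℤ) + y = x0 + y0 := by exact_mod_cast e1
          have e2' : (z : ℤ) + w = z0 + w0 := by exact_mod_cast e2
          rw [e1', e2']
        · have e1' : (x : ℤ) + y = z0 + w0 := by exact_mod_cast e1
          have e2' : (z : ℤ) + w = x0 + y0 := by exact_mod_cast e2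
          rw [e1', e2']
          ring
      nlinarith
    · rintro ⟨x, y, z, w⟩ hX ⟨x', y', z', w'⟩ hY h
      rw [mem_coe, mem_filter, mem_quad] at hX hY
      obtain ⟨hX1, hX2⟩ := hX
      obtain ⟨hY1, hY2⟩ := hY
      unfold val2 at hX2 hY2
      simp only at hX1 hX2 hY1 hY2
      simp only [Prod.mk.injEq, decide_eq_decide] at h
      obtain ⟨h1, h2, h3⟩ := h
      have hs := pow_sum (a := x + y) (b := z + w) (c := x0 + y0) (d := z0 + w0) (by omega)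
      have hs' := pow_sum (a := x' + y') (b := z' + w') (c := x0 + y0) (d := z0 + w0) (by omega)
      simp only [Prod.mk.injEq]
      by_cases hc : x + y = x0 + y0
      · have hc' := h1.1 hc
        omega
      · have hc' : ¬ x' + y' = x0 + y0 := fun h => hc (h1.2 h)
        omega
  refine h1.trans ?_
  rw [card_product, card_univ, Fintype.card_bool]
  have hR : (Pool.Agent.W65.CS.R2 m).card ≤ 8 * D ^ 2 := by
    rcases Nat.eq_zero_or_pos m with h0 | h0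
    · have h2 : Pool.Agent.W65.CS.R2 m ⊆ {(0, 0)} := by
        rintro ⟨a, b⟩ hab
        rw [Pool.Agent.W65.CS.mem_R2, h0] at hab
        have ha : a = 0 := by
          have : a ^ 2 ≤ 0 := by
            push_cast at hab
            nlinarith [sq_nonneg b]
          exact pow_eq_zero_iff (two_ne_zero) |>.1 (le_antisymm this (sq_nonneg a))
        have hb : b = 0 := by
          have : b ^ 2 ≤ 0 := by
            push_cast at hab
            nlinarith [sq_nonneg a]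
          exact pow_eq_zero_iff (two_ne_zero) |>.1 (le_antisymm this (sq_nonneg b))
        rw [mem_singleton, ha, hb]
      have h3 := card_le_card h2
      rw [card_singleton] at h3
      have h4 : 1 ≤ D ^ 2 := Nat.one_le_pow _ _ hD1
      omega
    · have h2 := Pool.Agent.W65.CS.R2_card m h0
      have h3 := hD m h0 hmn
      have h4 : m.divisors.card ^ 2 ≤ D ^ 2 := Nat.pow_le_pow_left h3 2
      omega
  omega

lemma val2_low {n : ℕ} {v : ℕ × ℕ × ℕ × ℕ} (hv : v ∈ quad n) : Nat.sqrt n ≤ val2 v := by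
  obtain ⟨x, y, z, w⟩ := v
  rw [mem_quad] at hv
  simp only at hv
  unfold val2
  simp only
  have h1 : x + y < 2 ^ (x + y) := Nat.lt_two_pow_self
  have h2 : z + w < 2 ^ (z + w) := Nat.lt_two_pow_self
  have h3 : Nat.sqrt n ≤ x + y + z + w := by
    have h4 : n ≤ (x + y + z + w) ^ 2 := by
      rw [hv]
      nlinarith [Nat.zero_le (x * y), Nat.zero_le (x * z), Nat.zero_le (x * w), Nat.zero_le (y * z),
        Nat.zero_le (y * w), Nat.zero_le (z * w)]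
    calc Nat.sqrt n ≤ Nat.sqrt ((x + y + z + w) ^ 2) := Nat.sqrt_le_sqrt h4
      _ = _ := Nat.sqrt_eq' _
  omega

lemma le_sqrt_of_sq {a n : ℕ} (h : a ^ 2 ≤ n) : a ≤ Nat.sqrt n := by
  rw [Nat.le_sqrt']
  exact h

lemma log_val2 {n : ℕ} (hn : 1 ≤ n) {v : ℕ × ℕ × ℕ × ℕ} (hv : v ∈ quad n) :
    0 < Real.log (val2 v : ℝ) ∧ Real.log (val2 v : ℝ) ≤ 4 * (n : ℝ) ^ (1 / 2 : ℝ) := by
  obtain ⟨x, y, z, w⟩ := v
  rw [mem_quad] at hv
  simp only at hv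
  have hx : x ≤ Nat.sqrt n := le_sqrt_of_sq (by rw [hv]; nlinarith [sq_nonneg y])
  have hy : y ≤ Nat.sqrt n := le_sqrt_of_sq (by rw [hv]; nlinarith [sq_nonneg y])
  have hz : z ≤ Nat.sqrt n := le_sqrt_of_sq (by rw [hv]; nlinarith [sq_nonneg y])
  have hw : w ≤ Nat.sqrt n := le_sqrt_of_sq (by rw [hv]; nlinarith [sq_nonneg y])
  set s := Nat.sqrt n with hs
  have h1 : 2 ^ (x + y) ≤ 2 ^ (2 * s) := Nat.pow_le_pow_right (by norm_num) (by omega)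
  have h2 : 2 ^ (z + w) ≤ 2 ^ (2 * s) := Nat.pow_le_pow_right (by norm_num) (by omega)
  have h3 : 1 ≤ 2 ^ (x + y) := Nat.one_le_two_pow
  have h4 : 1 ≤ 2 ^ (z + w) := Nat.one_le_two_pow
  have hv3 : 3 ≤ val2 (x, y, z, w) := by
    unfold val2
    simp only
    omega
  have hvle : val2 (x, y, z, w) ≤ 2 ^ (2 * s + 2) := by
    unfold val2
    simp only
    have h5 : 1 ≤ 2 ^ (2 * s) := Nat.one_le_two_pow
    have h6 : 2 ^ (2 * s + 2) = 4 * 2 ^ (2 * s) := by ring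
    omega
  have hv3' : (3 : ℝ) ≤ (val2 (x, y, z, w) : ℝ) := by exact_mod_cast hv3
  refine ⟨Real.log_pos (by linarith), ?_⟩
  have hsr : (s : ℝ) ≤ (n : ℝ) ^ (1 / 2 : ℝ) := by
    rw [← Real.sqrt_eq_rpow]
    exact Real.nat_sqrt_le_real_sqrt
  have hn1 : 1 ≤ (n : ℝ) ^ (1 / 2 : ℝ) := Real.one_le_rpow (by exact_mod_cast hn) (by norm_num)
  calc Real.log (val2 (x, y, z, w) : ℝ) ≤ Real.log ((2 : ℝ) ^ (2 * s + 2)) := by
        apply Real.log_le_log (by linarith)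
        exact_mod_cast hvle
    _ = (2 * s + 2) * Real.log 2 := by
        rw [Real.log_pow]
        push_cast
        ring
    _ ≤ (2 * s + 2) * 1 := by
        apply mul_le_mul_of_nonneg_left _ (by positivity)
        have := Real.log_two_lt_d9
        linarith
    _ ≤ _ := by linarith

lemma one_le_c (Q : ℕ) (hQ : 0 < Q) : (1 : ℝ) ≤ (Q : ℝ) / Nat.totient Q := by
  have h1 : 0 < Nat.totient Q := Nat.totient_pos.2 hQ
  rw [one_le_div (by exact_mod_cast h1)]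
  exact_mod_cast Nat.totient_le Q

/-- an exponent for `Q` -/
lemma exists_exp (Q : ℕ) (hQ : 0 < Q) : ∃ K : ℕ, 0 < K ∧ ∀ m : ℕ, Nat.Coprime m (2 * (2 ^ K - 1)) → Nat.Coprime m Q := by
  obtain ⟨j, L, hL, hQL⟩ := Nat.exists_eq_two_pow_mul_odd hQ.ne'
  have hL0 : 0 < L := hL.pos
  refine ⟨Nat.totient L, Nat.totient_pos.2 hL0, ?_⟩
  intro m hm
  have h1 : Nat.Coprime m 2 := hm.coprime_dvd_right (dvd_mul_right _ _)
  have h2 : Nat.Coprime m (2 ^ Nat.totient L - 1) := hm.coprime_dvd_right (dvd_mul_left _ _)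
  have h3 : L ∣ 2 ^ Nat.totient L - 1 := by
    have h4 : Nat.Coprime 2 L := (Nat.coprime_two_left).2 hL
    exact (Nat.modEq_iff_dvd' Nat.one_le_two_pow).1 (Nat.ModEq.pow_totient h4).symm
  rw [hQL]
  exact Nat.Coprime.mul_right (h1.pow_right j) (h2.coprime_dvd_right h3)

/-- lower bound for the profile -/
lemma rho_low (Q : ℕ) (hQ : 0 < Q) (y : ℝ) (hy : 1 ≤ y) (m : ℕ) (hm : 0 < Real.log (m : ℝ)) (hm2 : Real.log (m : ℝ) ≤ y)
    (hc : Nat.Coprime m Q) : 1 / y ≤ rhoW Q m := by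
  unfold rhoW
  rw [if_pos hc]
  apply le_min
  · rw [div_le_one (by linarith)]
    exact hy
  · have := one_le_c Q hQ
    gcongr

lemma low_E (ε : ℝ) (hε : 0 < ε) (Q : ℕ) (hQ : 0 < Q) :
    ∀ᶠ n : ℕ in atTop, Odd n → (n : ℝ) ^ (1 / 2 - ε) ≤ ∑ v ∈ quad n, rhoW Q (val2 v) := by
  classical
  obtain ⟨δ, hδ, n0, hS⟩ := Pool.Agent.TH696.FA.main_count (ε / 2) (by positivity)
  obtain ⟨K, hK0, hK⟩ := exists_exp Q hQ
  have e2 : ∀ᶠ n : ℕ in atTop, 4 ≤ (n : ℝ) ^ (ε / 2) :=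
    ((tendsto_rpow_atTop (by positivity)).comp tendsto_natCast_atTop_atTop).eventually_ge_atTop _
  have e3 : ∀ᶠ n : ℕ in atTop, (K : ℝ) ≤ (n : ℝ) ^ δ :=
    ((tendsto_rpow_atTop hδ).comp tendsto_natCast_atTop_atTop).eventually_ge_atTop _
  filter_upwards [e2, e3, eventually_ge_atTop n0, eventually_ge_atTop 1] with n h2 h3 h4 h5 hn
  obtain ⟨S, hS1, hS2⟩ := hS n K h4 hn hK0 h3
  have hn1 : (1 : ℝ) ≤ n := by exact_mod_cast h5
  have hn0 : (0 : ℝ) < n := by linarith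
  have hsub : S ⊆ quad n := by
    rintro ⟨x, y, z, w⟩ hX
    exact mem_quad.2 (hS2 x y z w hX).1
  have hnh : 1 ≤ (n : ℝ) ^ (1 / 2 : ℝ) := Real.one_le_rpow hn1 (by norm_num)
  have h6 : ∀ v ∈ S, 1 / (4 * (n : ℝ) ^ (1 / 2 : ℝ)) ≤ rhoW Q (val2 v) := by
    rintro ⟨x, y, z, w⟩ hX
    obtain ⟨g1, g2⟩ := log_val2 h5 (hsub hX)
    apply rho_low Q hQ _ (by linarith) _ g1 g2
    exact hK _ (hS2 x y z w hX).2
  calc (n : ℝ) ^ (1 / 2 - ε) = 4 * ((n : ℝ) ^ (1 / 2 - ε) / 4) := by ring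
    _ ≤ (n : ℝ) ^ (ε / 2) * ((n : ℝ) ^ (1 / 2 - ε) / 4) := by gcongr
    _ = (n : ℝ) ^ (1 - ε / 2) * (1 / (4 * (n : ℝ) ^ (1 / 2 : ℝ))) := by
        have e1 : (n : ℝ) ^ (1 - ε / 2) = (n : ℝ) ^ (ε / 2) * (n : ℝ) ^ (1 / 2 - ε) * (n : ℝ) ^ (1 / 2 : ℝ) := by
          rw [← Real.rpow_add hn0, ← Real.rpow_add hn0]
          congr 1
          ring
        rw [e1]
        field_simp
    _ ≤ S.card * (1 / (4 * (n : ℝ) ^ (1 / 2 : ℝ))) := by gcongr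
    _ = ∑ _v ∈ S, 1 / (4 * (n : ℝ) ^ (1 / 2 : ℝ)) := by rw [sum_const, nsmul_eq_mul]
    _ ≤ ∑ v ∈ S, rhoW Q (val2 v) := sum_le_sum h6
    _ ≤ _ := sum_le_sum_of_subset_of_nonneg hsub fun v _ _ => rhoW_nonneg _ _

/-- small fibres -/
lemma few2 : ∀ᶠ n : ℕ in atTop, ∀ P : ℕ, ((quad n).filter (fun v => val2 v = P)).card ≤ ⌊(n : ℝ) ^ (1 / 8 : ℝ)⌋₊ := by
  classical
  obtain ⟨C, hC, hD⟩ := Pool.Agent.H510R2.divisor_bound (1 / 32) (by positivity)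
  have e2 : ∀ᶠ n : ℕ in atTop, 16 * (2 * C + 1) ^ 2 ≤ (n : ℝ) ^ (1 / 16 : ℝ) :=
    ((tendsto_rpow_atTop (by norm_num)).comp tendsto_natCast_atTop_atTop).eventually_ge_atTop _
  filter_upwards [e2, eventually_ge_atTop 3] with n h2 h4 P
  have hn1 : (1 : ℝ) ≤ n := by exact_mod_cast (by omega : 1 ≤ n)
  have hn0 : (0 : ℝ) < n := by linarith
  have hne : 1 ≤ (n : ℝ) ^ (1 / 32 : ℝ) := Real.one_le_rpow hn1 (by positivity)
  set D : ℕ := ⌊(2 * C + 1) * (n : ℝ) ^ (1 / 32 : ℝ)⌋₊ with hDdef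
  have hD1 : 1 ≤ D := by
    apply Nat.le_floor
    push_cast
    nlinarith
  have hD' : ∀ k : ℕ, 1 ≤ k → k ≤ 2 * n → k.divisors.card ≤ D := by
    intro k hk hkn
    apply Nat.le_floor
    refine (hD k hk).trans ?_
    have h5 : (k : ℝ) ≤ 2 * n := by exact_mod_cast hkn
    have h6 : (k : ℝ) ^ (1 / 32 : ℝ) ≤ 2 * (n : ℝ) ^ (1 / 32 : ℝ) := by
      calc (k : ℝ) ^ (1 / 32 : ℝ) ≤ (2 * n : ℝ) ^ (1 / 32 : ℝ) := by gcongr
        _ = (2 : ℝ) ^ (1 / 32 : ℝ) * (n : ℝ) ^ (1 / 32 : ℝ) := Real.mul_rpow (by norm_num) (by positivity)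
        _ ≤ (2 : ℝ) ^ (1 : ℝ) * (n : ℝ) ^ (1 / 32 : ℝ) := by
            apply mul_le_mul_of_nonneg_right _ (by positivity)
            exact Real.rpow_le_rpow_of_exponent_le (by norm_num) (by norm_num)
        _ = _ := by rw [Real.rpow_one]
    nlinarith
  have h5 := fibre2 n P D hD1 hD'
  apply Nat.le_floor
  have g2 : (D : ℝ) ≤ (2 * C + 1) * (n : ℝ) ^ (1 / 32 : ℝ) := Nat.floor_le (by positivity)
  calc (((quad n).filter (fun v => val2 v = P)).card : ℝ) ≤ ((16 * D ^ 2 : ℕ) : ℝ) := by exact_mod_cast h5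
    _ = 16 * (D : ℝ) ^ 2 := by push_cast; ring
    _ ≤ 16 * ((2 * C + 1) * (n : ℝ) ^ (1 / 32 : ℝ)) ^ 2 := by gcongr
    _ = (16 * (2 * C + 1) ^ 2) * ((n : ℝ) ^ (1 / 32 : ℝ) * (n : ℝ) ^ (1 / 32 : ℝ)) := by ring
    _ ≤ (n : ℝ) ^ (1 / 16 : ℝ) * ((n : ℝ) ^ (1 / 32 : ℝ) * (n : ℝ) ^ (1 / 32 : ℝ)) := by gcongr
    _ = (n : ℝ) ^ (1 / 8 : ℝ) := by
        rw [← Real.rpow_add hn0, ← Real.rpow_add hn0]
        congr 1
        norm_num

/-- the error is small -/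
lemma err2 (K η : ℝ) (hK : 0 ≤ K) (hη : 0 < η) :
    ∀ᶠ n : ℕ in atTop, K * ((⌊(n : ℝ) ^ (1 / 8 : ℝ)⌋₊ : ℝ) * Real.log n) ≤ η * (n : ℝ) ^ (1 / 2 - 1 / 4 : ℝ) := by
  have h1 := (isLittleO_log_rpow_atTop (show (0 : ℝ) < 1 / 8 by norm_num)).bound
    (show (0 : ℝ) < η / (K + 1) by positivity)
  filter_upwards [tendsto_natCast_atTop_atTop.eventually h1, eventually_ge_atTop 1] with n h2 h4
  have hn1 : (1 : ℝ) ≤ n := by exact_mod_cast h4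
  have hn0 : (0 : ℝ) < n := by linarith
  have hl : 0 ≤ Real.log (n : ℝ) := Real.log_nonneg hn1
  rw [Real.norm_eq_abs, Real.norm_eq_abs, abs_of_nonneg hl, abs_of_nonneg (Real.rpow_nonneg hn0.le _)] at h2
  have h3 : (⌊(n : ℝ) ^ (1 / 8 : ℝ)⌋₊ : ℝ) ≤ (n : ℝ) ^ (1 / 8 : ℝ) := Nat.floor_le (by positivity)
  have e1 : (n : ℝ) ^ (1 / 2 - 1 / 4 : ℝ) = (n : ℝ) ^ (1 / 8 : ℝ) * (n : ℝ) ^ (1 / 8 : ℝ) := by
    rw [← Real.rpow_add hn0]
    congr 1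
    norm_num
  rw [e1]
  calc K * ((⌊(n : ℝ) ^ (1 / 8 : ℝ)⌋₊ : ℝ) * Real.log n)
      ≤ K * ((n : ℝ) ^ (1 / 8 : ℝ) * (η / (K + 1) * (n : ℝ) ^ (1 / 8 : ℝ))) := by gcongr
    _ = (K / (K + 1)) * (η * ((n : ℝ) ^ (1 / 8 : ℝ) * (n : ℝ) ^ (1 / 8 : ℝ))) := by
        field_simp
    _ ≤ 1 * (η * ((n : ℝ) ^ (1 / 8 : ℝ) * (n : ℝ) ^ (1 / 8 : ℝ))) := by
        apply mul_le_mul_of_nonneg_right _ (by positivity)
        rw [div_le_one (by positivity)]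
        linarith
    _ = _ := one_mul _

lemma floor_le_n : ∀ᶠ n : ℕ in atTop, ⌊(n : ℝ) ^ (1 / 8 : ℝ)⌋₊ ≤ n ^ 1 := by
  filter_upwards [eventually_ge_atTop 1] with n hn
  have hn1 : (1 : ℝ) ≤ n := by exact_mod_cast hn
  rw [pow_one]
  have h1 : (n : ℝ) ^ (1 / 8 : ℝ) ≤ n := by
    calc (n : ℝ) ^ (1 / 8 : ℝ) ≤ (n : ℝ) ^ (1 : ℝ) := Real.rpow_le_rpow_of_exponent_le hn1 (by norm_num)
      _ = n := Real.rpow_one _
  exact Nat.floor_le_of_le h1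

lemma sqrt_tendsto : Tendsto Nat.sqrt atTop atTop := by
  rw [tendsto_atTop_atTop]
  intro b
  refine ⟨b ^ 2, fun a ha => ?_⟩
  exact le_sqrt_of_sq ha

section

variable {Ω : Type} {m0 : MeasurableSpace Ω} {μ : Measure Ω} [IsProbabilityMeasure μ]
  {ℱ : Filtration ℕ m0} {A : ℕ → Set Ω}

theorem law2 (hA : ∀ n, MeasurableSet[ℱ n] (A n)) (Q : ℕ) (hQ : 0 < Q)
    (hcop : ∀ n, ¬ Nat.Coprime n Q → A n = ∅)
    (hd : ∀ᵐ ω ∂μ, Tendsto (fun n : ℕ => dens μ ℱ A n ω * Real.log n)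
      (atTop ⊓ 𝓟 {n : ℕ | Nat.Coprime (n + 1) Q}) (𝓝 ((Q : ℝ) / Nat.totient Q))) :
    ∀ᵐ ω ∂μ, ∀ η : ℝ, 0 < η → ∀ᶠ n : ℕ in atTop, Odd n →
      |∑ v ∈ quad n, In A (val2 v) ω - ∑ v ∈ quad n, rhoW Q (val2 v)| ≤
        η * ∑ v ∈ quad n, rhoW Q (val2 v) := by
  have h := weighted_law (μ := μ) (ℱ := ℱ) (A := A) hA (rhoW_nonneg Q) (dens_profile hA Q hQ hcop hd)
    quad val2 (fun n => ⌊(n : ℝ) ^ (1 / 8 : ℝ)⌋₊) 1 floor_le_n few2 Nat.sqrt sqrt_tendsto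
    (Eventually.of_forall fun n v hv => val2_low hv)
  filter_upwards [h] with ω hω η hη
  obtain ⟨K, hK0, hK⟩ := hω (η / 2) (by positivity)
  filter_upwards [hK, err2 K (η / 2) hK0 (by positivity), low_E (1 / 4) (by norm_num) Q hQ] with n h1 h2 h3 hn
  have h4 := h3 hn
  have h5 : η / 2 * (n : ℝ) ^ (1 / 2 - 1 / 4 : ℝ) ≤ η / 2 * ∑ v ∈ quad n, rhoW Q (val2 v) := by gcongr
  linarith

end

end Pool.Agent.R494.SPL
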