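import Mathlib
import Pool.Agent.R494.SPL3
import Pool.Agent.TH696.FA.Final3

set_option autoImplicit false
set_option linter.unusedSectionVars false

/-! # Sums `x² + y² + z² + 4w²` and `2 ^ x + 2 ^ y + 2 ^ z + 1` -/

open MeasureTheory Filter Finset Asymptotics
open scoped Topology

namespace Pool.Agent.R494.SPL

open Pool.Agent.R528.RM

/-- quadruples of natural numbers with `n = x² + y² + z² + 4w²` -/
def quad3 (n : ℕ) : Finset (ℕ × ℕ × ℕ × ℕ) :=
  (range (n + 1) ×ˢ range (n + 1) ×ˢ range (n + 1) ×ˢ range (n + 1)).filter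
    (fun v => n = v.1 ^ 2 + v.2.1 ^ 2 + v.2.2.1 ^ 2 + 4 * v.2.2.2 ^ 2)

lemma mem_quad3 {n : ℕ} {v : ℕ × ℕ × ℕ × ℕ} :
    v ∈ quad3 n ↔ n = v.1 ^ 2 + v.2.1 ^ 2 + v.2.2.1 ^ 2 + 4 * v.2.2.2 ^ 2 := by
  unfold quad3
  rw [mem_filter]
  refine ⟨fun h => h.2, fun h => ⟨?_, h⟩⟩
  have h1 : ∀ a : ℕ, a ≤ a ^ 2 := fun a => Nat.le_self_pow (by norm_num) a
  simp only [mem_product, mem_range]
  have := h1 v.1
  have := h1 v.2.1
  have := h1 v.2.2.1
  have := h1 v.2.2.2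
  omega

/-- the value -/
def val3 (v : ℕ × ℕ × ℕ × ℕ) : ℕ := 2 ^ v.1 + 2 ^ v.2.1 + 2 ^ v.2.2.1 + 1

lemma quad3_inj {n : ℕ} {v v' : ℕ × ℕ × ℕ × ℕ} (hv : v ∈ quad3 n) (hv' : v' ∈ quad3 n) (h1 : v.1 = v'.1)
    (h2 : v.2.1 = v'.2.1) (h3 : v.2.2.1 = v'.2.2.1) : v = v' := by
  obtain ⟨x, y, z, w⟩ := v
  obtain ⟨x', y', z', w'⟩ := v'
  rw [mem_quad3] at hv hv'
  simp only at hv hv' h1 h2 h3
  subst h1 h2 h3
  have h4 : w ^ 2 = w' ^ 2 := by omega
  have h5 : w = w' := Nat.pow_left_injective (by norm_num : (2 : ℕ) ≠ 0) h4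
  rw [h5]

lemma two_le (F : Finset (ℕ × ℕ × ℕ × ℕ)) (p q r : ℕ × ℕ × ℕ × ℕ → ℕ) (M s : ℕ)
    (hinj : ∀ v ∈ F, ∀ v' ∈ F, p v = p v' → q v = q v' → r v = r v' → v = v')
    (hs : ∀ v ∈ F, 2 ^ (q v) + 2 ^ (r v) = s) (hp : ∀ v ∈ F, p v = M) : F.card ≤ 2 := by
  classical
  rcases F.eq_empty_or_nonempty with he | ⟨v0, h0⟩
  · rw [he]; simp
  have h1 : F.card ≤ (univ : Finset Bool).card := by
    apply card_le_card_of_injOn (fun v => decide (q v = q v0)) (fun v _ => mem_univ _)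
    intro v hv v' hv' h
    rw [mem_coe] at hv hv'
    simp only [decide_eq_decide] at h
    have g1 := pow_sum (a := q v) (b := r v) (c := q v0) (d := r v0) ((hs v hv).trans (hs v0 h0).symm)
    have g2 := pow_sum (a := q v') (b := r v') (c := q v0) (d := r v0) ((hs v' hv').trans (hs v0 h0).symm)
    have g3 : p v = p v' := (hp v hv).trans (hp v' hv').symm
    by_cases hc : q v = q v0
    · have hc' := h.1 hc
      exact hinj v hv v' hv' g3 (by omega) (by omega)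
    · have hc' : ¬ q v' = q v0 := fun h' => hc (h.2 h')
      exact hinj v hv v' hv' g3 (by omega) (by omega)
  simpa using h1

lemma log_max {x y z : ℕ} (h1 : y ≤ x) (h2 : z ≤ x) :
    x = Nat.log 2 (2 ^ x + 2 ^ y + 2 ^ z) ∨ x = Nat.log 2 (2 ^ x + 2 ^ y + 2 ^ z) - 1 := by
  have h3 : 2 ^ y ≤ 2 ^ x := Nat.pow_le_pow_right (by norm_num) h1
  have h4 : 2 ^ z ≤ 2 ^ x := Nat.pow_le_pow_right (by norm_num) h2
  have h0 : 1 ≤ 2 ^ x := Nat.one_le_two_pow
  have h0y : 1 ≤ 2 ^ y := Nat.one_le_two_pow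
  have h0z : 1 ≤ 2 ^ z := Nat.one_le_two_pow
  have h5 : x ≤ Nat.log 2 (2 ^ x + 2 ^ y + 2 ^ z) := Nat.le_log_of_pow_le (by norm_num) (by omega)
  have h6 : Nat.log 2 (2 ^ x + 2 ^ y + 2 ^ z) < x + 2 := by
    apply Nat.log_lt_of_lt_pow (by omega)
    have : 2 ^ (x + 2) = 4 * 2 ^ x := by ring
    omega
  omega

lemma fibre3 (n P : ℕ) : ((quad3 n).filter (fun v => val3 v = P)).card ≤ 12 := by
  classical
  set F := (quad3 n).filter (fun v => val3 v = P) with hF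
  set L := Nat.log 2 (P - 1) with hL
  have hFs : ∀ v ∈ F, v ∈ quad3 n ∧ 2 ^ v.1 + 2 ^ v.2.1 + 2 ^ v.2.2.1 = P - 1 := by
    intro v hv
    obtain ⟨g1, g2⟩ := mem_filter.1 hv
    refine ⟨g1, ?_⟩
    unfold val3 at g2
    rw [← g2]
    rfl
  have hx : ∀ M, (F.filter (fun v => v.1 = M)).card ≤ 2 := by
    intro M
    apply two_le _ (fun v => v.1) (fun v => v.2.1) (fun v => v.2.2.1) M (P - 1 - 2 ^ M)
    · intro v hv v' hv' g1 g2 g3
      exact quad3_inj (hFs v (mem_filter.1 hv).1).1 (hFs v' (mem_filter.1 hv').1).1 g1 g2 g3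
    · intro v hv
      obtain ⟨g1, g2⟩ := mem_filter.1 hv
      have g3 := (hFs v g1).2
      rw [g2] at g3
      have k1 : 1 ≤ 2 ^ M := Nat.one_le_two_pow
      have k2 : 1 ≤ 2 ^ v.2.1 := Nat.one_le_two_pow
      have k3 : 1 ≤ 2 ^ v.2.2.1 := Nat.one_le_two_pow
      omega
    · intro v hv
      exact (mem_filter.1 hv).2
  have hy : ∀ M, (F.filter (fun v => v.2.1 = M)).card ≤ 2 := by
    intro M
    apply two_le _ (fun v => v.2.1) (fun v => v.1) (fun v => v.2.2.1) M (P - 1 - 2 ^ M)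
    · intro v hv v' hv' g1 g2 g3
      exact quad3_inj (hFs v (mem_filter.1 hv).1).1 (hFs v' (mem_filter.1 hv').1).1 g2 g1 g3
    · intro v hv
      obtain ⟨g1, g2⟩ := mem_filter.1 hv
      have g3 := (hFs v g1).2
      rw [g2] at g3
      have k1 : 1 ≤ 2 ^ M := Nat.one_le_two_pow
      have k2 : 1 ≤ 2 ^ v.1 := Nat.one_le_two_pow
      have k3 : 1 ≤ 2 ^ v.2.1 := Nat.one_le_two_pow
      have k4 : 1 ≤ 2 ^ v.2.2.1 := Nat.one_le_two_pow
      omega
    · intro v hv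
      exact (mem_filter.1 hv).2
  have hz : ∀ M, (F.filter (fun v => v.2.2.1 = M)).card ≤ 2 := by
    intro M
    apply two_le _ (fun v => v.2.2.1) (fun v => v.1) (fun v => v.2.1) M (P - 1 - 2 ^ M)
    · intro v hv v' hv' g1 g2 g3
      exact quad3_inj (hFs v (mem_filter.1 hv).1).1 (hFs v' (mem_filter.1 hv').1).1 g2 g3 g1
    · intro v hv
      obtain ⟨g1, g2⟩ := mem_filter.1 hv
      have g3 := (hFs v g1).2
      rw [g2] at g3
      have k1 : 1 ≤ 2 ^ M := Nat.one_le_two_pow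
      have k2 : 1 ≤ 2 ^ v.1 := Nat.one_le_two_pow
      have k3 : 1 ≤ 2 ^ v.2.1 := Nat.one_le_two_pow
      have k4 : 1 ≤ 2 ^ v.2.2.1 := Nat.one_le_two_pow
      omega
    · intro v hv
      exact (mem_filter.1 hv).2
  have hsub : F ⊆ ((F.filter (fun v => v.1 = L) ∪ F.filter (fun v => v.1 = L - 1)) ∪
      (F.filter (fun v => v.2.1 = L) ∪ F.filter (fun v => v.2.1 = L - 1))) ∪
      (F.filter (fun v => v.2.2.1 = L) ∪ F.filter (fun v => v.2.2.1 = L - 1)) := by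
    intro v hv
    have g3 := (hFs v hv).2
    simp only [mem_union, mem_filter]
    rcases le_total v.2.1 v.1 with h1 | h1
    · rcases le_total v.2.2.1 v.1 with h2 | h2
      · have := log_max h1 h2
        rw [g3] at this
        tauto
      · have := log_max (x := v.2.2.1) (y := v.1) (z := v.2.1) h2 (h1.trans h2)
        rw [show 2 ^ v.2.2.1 + 2 ^ v.1 + 2 ^ v.2.1 = P - 1 by omega] at this
        tauto
    · rcases le_total v.2.2.1 v.2.1 with h2 | h2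
      · have := log_max (x := v.2.1) (y := v.1) (z := v.2.2.1) h1 h2
        rw [show 2 ^ v.2.1 + 2 ^ v.1 + 2 ^ v.2.2.1 = P - 1 by omega] at this
        tauto
      · have := log_max (x := v.2.2.1) (y := v.1) (z := v.2.1) (h1.trans h2) h2
        rw [show 2 ^ v.2.2.1 + 2 ^ v.1 + 2 ^ v.2.1 = P - 1 by omega] at this
        tauto
  have c1 := card_le_card hsub
  have c2 := card_union_le ((F.filter (fun v => v.1 = L) ∪ F.filter (fun v => v.1 = L - 1)) ∪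
      (F.filter (fun v => v.2.1 = L) ∪ F.filter (fun v => v.2.1 = L - 1)))
      (F.filter (fun v => v.2.2.1 = L) ∪ F.filter (fun v => v.2.2.1 = L - 1))
  have c3 := card_union_le (F.filter (fun v => v.1 = L) ∪ F.filter (fun v => v.1 = L - 1))
      (F.filter (fun v => v.2.1 = L) ∪ F.filter (fun v => v.2.1 = L - 1))
  have c4 := card_union_le (F.filter (fun v => v.1 = L)) (F.filter (fun v => v.1 = L - 1))
  have c5 := card_union_le (F.filter (fun v => v.2.1 = L)) (F.filter (fun v => v.2.1 = L - 1))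
  have c6 := card_union_le (F.filter (fun v => v.2.2.1 = L)) (F.filter (fun v => v.2.2.1 = L - 1))
  have := hx L
  have := hx (L - 1)
  have := hy L
  have := hy (L - 1)
  have := hz L
  have := hz (L - 1)
  omega

/-- few small values -/
lemma small3 (n : ℕ) : ((quad3 n).filter (fun v => val3 v < n)).card ≤ (Nat.log 2 n + 1) ^ 3 := by
  classical
  have h1 : ((quad3 n).filter (fun v => val3 v < n)).card ≤
      (range (Nat.log 2 n + 1) ×ˢ range (Nat.log 2 n + 1) ×ˢ range (Nat.log 2 n + 1)).card := by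
    apply card_le_card_of_injOn (fun v => (v.1, v.2.1, v.2.2.1))
    · intro v hv
      rw [mem_coe, mem_filter] at hv
      obtain ⟨-, h2⟩ := hv
      unfold val3 at h2
      have k2 : 1 ≤ 2 ^ v.1 := Nat.one_le_two_pow
      have k3 : 1 ≤ 2 ^ v.2.1 := Nat.one_le_two_pow
      have k4 : 1 ≤ 2 ^ v.2.2.1 := Nat.one_le_two_pow
      rw [mem_coe, mem_product, mem_product, mem_range, mem_range, mem_range]
      have g1 : v.1 ≤ Nat.log 2 n := Nat.le_log_of_pow_le (by norm_num) (by omega)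
      have g2 : v.2.1 ≤ Nat.log 2 n := Nat.le_log_of_pow_le (by norm_num) (by omega)
      have g3 : v.2.2.1 ≤ Nat.log 2 n := Nat.le_log_of_pow_le (by norm_num) (by omega)
      refine ⟨by simp only; omega, by simp only; omega, by simp only; omega⟩
    · intro v hv v' hv' h
      rw [mem_coe, mem_filter] at hv hv'
      simp only [Prod.mk.injEq] at h
      exact quad3_inj hv.1 hv'.1 h.1 h.2.1 h.2.2
  refine h1.trans (le_of_eq ?_)
  rw [card_product, card_product, card_range]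
  ring

lemma log_val3 {n : ℕ} (hn : 1 ≤ n) {v : ℕ × ℕ × ℕ × ℕ} (hv : v ∈ quad3 n) :
    1 ≤ Real.log (val3 v : ℝ) ∧ Real.log (val3 v : ℝ) ≤ 4 * (n : ℝ) ^ (1 / 2 : ℝ) := by
  obtain ⟨x, y, z, w⟩ := v
  rw [mem_quad3] at hv
  simp only at hv
  have hx : x ≤ Nat.sqrt n := le_sqrt_of_sq (by rw [hv]; nlinarith [sq_nonneg y])
  have hy : y ≤ Nat.sqrt n := le_sqrt_of_sq (by rw [hv]; nlinarith [sq_nonneg y])
  have hz : z ≤ Nat.sqrt n := le_sqrt_of_sq (by rw [hv]; nlinarith [sq_nonneg y])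
  set s := Nat.sqrt n with hs
  have h1 : 2 ^ x ≤ 2 ^ s := Nat.pow_le_pow_right (by norm_num) hx
  have h2 : 2 ^ y ≤ 2 ^ s := Nat.pow_le_pow_right (by norm_num) hy
  have h2' : 2 ^ z ≤ 2 ^ s := Nat.pow_le_pow_right (by norm_num) hz
  have h3 : 1 ≤ 2 ^ x := Nat.one_le_two_pow
  have h4 : 1 ≤ 2 ^ y := Nat.one_le_two_pow
  have h4' : 1 ≤ 2 ^ z := Nat.one_le_two_pow
  have hv3 : 4 ≤ val3 (x, y, z, w) := by
    unfold val3
    simp only
    omega
  have hvle : val3 (x, y, z, w) ≤ 2 ^ (s + 2) := by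
    unfold val3
    simp only
    have h5 : 1 ≤ 2 ^ s := Nat.one_le_two_pow
    have h6 : 2 ^ (s + 2) = 4 * 2 ^ s := by ring
    omega
  have hv3' : (4 : ℝ) ≤ (val3 (x, y, z, w) : ℝ) := by exact_mod_cast hv3
  constructor
  · rw [Real.le_log_iff_exp_le (by linarith)]
    have := Real.exp_one_lt_d9
    linarith
  have hsr : (s : ℝ) ≤ (n : ℝ) ^ (1 / 2 : ℝ) := by
    rw [← Real.sqrt_eq_rpow]
    exact Real.nat_sqrt_le_real_sqrt
  have hn1 : 1 ≤ (n : ℝ) ^ (1 / 2 : ℝ) := Real.one_le_rpow (by exact_mod_cast hn) (by norm_num)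
  calc Real.log (val3 (x, y, z, w) : ℝ) ≤ Real.log ((2 : ℝ) ^ (s + 2)) := by
        apply Real.log_le_log (by linarith)
        exact_mod_cast hvle
    _ = (s + 2) * Real.log 2 := by
        rw [Real.log_pow]
        push_cast
        ring
    _ ≤ (s + 2) * 1 := by
        apply mul_le_mul_of_nonneg_left _ (by positivity)
        have := Real.log_two_lt_d9
        linarith
    _ ≤ _ := by linarith

/-- the expected weight -/
noncomputable def wt (Q : ℕ) (v : ℕ × ℕ × ℕ × ℕ) : ℝ :=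
  if Nat.Coprime (val3 v) Q then ((Q : ℝ) / Nat.totient Q) / Real.log (val3 v) else 0

lemma wt_bounds (Q : ℕ) (hQ : 0 < Q) {n : ℕ} (hn : 1 ≤ n) {v : ℕ × ℕ × ℕ × ℕ} (hv : v ∈ quad3 n) :
    0 ≤ wt Q v ∧ wt Q v ≤ (Q : ℝ) / Nat.totient Q := by
  obtain ⟨h1, -⟩ := log_val3 hn hv
  have h2 := one_le_c Q hQ
  unfold wt
  split_ifs
  · constructor
    · positivity
    · rw [div_le_iff₀ (by linarith)]
      nlinarith
  · constructor <;> linarith

/-- `n` is regular for `Q` -/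
def Regular (Q n : ℕ) : Prop :=
  ∀ q : ℕ, q.Prime → q ∣ Q → q ≠ 2 →
    (∀ l : ℕ, l.Prime → 5 ≤ l → l ^ 2 ∣ orderOf (2 : ZMod q) → ¬ (l : ℤ) ∣ (3 * n - 2) * (9 * n - 2)) ∧
    (3 ∣ orderOf (2 : ZMod q) → q = 7 ∨ 3 ∣ n ∨ n % 32 = 13)

lemma low_E3 (ε : ℝ) (hε : 0 < ε) (Q : ℕ) (hQ : 0 < Q) :
    ∀ᶠ n : ℕ in atTop, Odd n → Regular Q n → (n : ℝ) ^ (1 / 2 - ε) ≤ ∑ v ∈ quad3 n, wt Q v := by
  classical
  obtain ⟨c, hc, hS⟩ := Pool.Agent.TH696.FA.main_log2 (ε / 2) (by positivity)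
  have e2 : ∀ᶠ n : ℕ in atTop, 4 / c ≤ (n : ℝ) ^ (ε / 2) :=
    ((tendsto_rpow_atTop (by positivity)).comp tendsto_natCast_atTop_atTop).eventually_ge_atTop _
  have e3 : ∀ᶠ n : ℕ in atTop, (Q : ℝ) / c ≤ Real.log (n : ℝ) :=
    (Real.tendsto_log_atTop.comp tendsto_natCast_atTop_atTop).eventually_ge_atTop _
  filter_upwards [e2, e3, eventually_ge_atTop 1] with n h2 h3 h5 hn hreg
  obtain ⟨S, hS1, hS2⟩ := hS n hn
  have hn1 : (1 : ℝ) ≤ n := by exact_mod_cast h5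
  have hn0 : (0 : ℝ) < n := by linarith
  have hsub : S ⊆ quad3 n := by
    rintro ⟨x, y, z, w⟩ hX
    exact mem_quad3.2 (hS2 x y z w hX).1
  have hnh : 1 ≤ (n : ℝ) ^ (1 / 2 : ℝ) := Real.one_le_rpow hn1 (by norm_num)
  have hcop : ∀ v ∈ S, Nat.Coprime (val3 v) Q := by
    rintro ⟨x, y, z, w⟩ hX
    apply Nat.coprime_of_dvd
    intro q hq hqN hqQ
    have hqQ' : (q : ℝ) ≤ c * Real.log n := by
      have g1 : (q : ℝ) ≤ Q := by exact_mod_cast Nat.le_of_dvd hQ hqQ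
      rw [div_le_iff₀ hc] at h3
      linarith
    obtain ⟨g2, g3⟩ := (hS2 x y z w hX).2 q hq hqN hqQ'
    obtain ⟨r1, r2⟩ := hreg q hq hqQ g2
    rcases g3 with ⟨l, l1, l2, l3, l4⟩ | ⟨m1, m2, m3, m4⟩
    · exact r1 l l1 l2 l3 l4
    · rcases r2 m4 with h | h | h
      · exact m3 h
      · exact m1 h
      · exact m2 h
  have h6 : ∀ v ∈ S, 1 / (4 * (n : ℝ) ^ (1 / 2 : ℝ)) ≤ wt Q v := by
    intro v hv
    obtain ⟨g1, g2⟩ := log_val3 h5 (hsub hv)
    unfold wt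
    rw [if_pos (hcop v hv)]
    have := one_le_c Q hQ
    have g3 : 0 < Real.log (val3 v : ℝ) := by linarith
    gcongr
  calc (n : ℝ) ^ (1 / 2 - ε) = (4 / c) * (c * ((n : ℝ) ^ (1 / 2 - ε) / 4)) := by field_simp
    _ ≤ (n : ℝ) ^ (ε / 2) * (c * ((n : ℝ) ^ (1 / 2 - ε) / 4)) := by gcongr
    _ = (c * (n : ℝ) ^ (1 - ε / 2)) * (1 / (4 * (n : ℝ) ^ (1 / 2 : ℝ))) := by
        have e1 : (n : ℝ) ^ (1 - ε / 2) = (n : ℝ) ^ (ε / 2) * (n : ℝ) ^ (1 / 2 - ε) * (n : ℝ) ^ (1 / 2 : ℝ) := by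
          rw [← Real.rpow_add hn0, ← Real.rpow_add hn0]
          congr 1
          ring
        rw [e1]
        field_simp
    _ ≤ S.card * (1 / (4 * (n : ℝ) ^ (1 / 2 : ℝ))) := by gcongr
    _ = ∑ _v ∈ S, 1 / (4 * (n : ℝ) ^ (1 / 2 : ℝ)) := by rw [sum_const, nsmul_eq_mul]
    _ ≤ ∑ v ∈ S, wt Q v := sum_le_sum h6
    _ ≤ _ := sum_le_sum_of_subset_of_nonneg hsub fun v hv _ => (wt_bounds Q hQ h5 hv).1

lemma log_cube : ∀ᶠ n : ℕ in atTop, (((Nat.log 2 n + 1) ^ 3 : ℕ) : ℝ) ≤ 27 * Real.log n ^ 3 ∧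
    Real.log (n : ℝ) ≤ Real.log n ^ 3 := by
  filter_upwards [eventually_ge_atTop 3] with n hn
  have hn3 : (3 : ℝ) ≤ n := by exact_mod_cast hn
  have hL : 1 ≤ Real.log (n : ℝ) := by
    rw [Real.le_log_iff_exp_le (by linarith)]
    have := Real.exp_one_lt_d9
    linarith
  have g1 : (Nat.log 2 n : ℝ) ≤ Real.logb 2 n := by
    have := Real.natLog_le_logb n 2
    exact_mod_cast this
  have h2 : (1 : ℝ) / 2 ≤ Real.log 2 := by
    have := Real.log_two_gt_d9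
    linarith
  have g2 : Real.logb 2 n ≤ 2 * Real.log n := by
    unfold Real.logb
    rw [div_le_iff₀ (by linarith)]
    nlinarith
  constructor
  · push_cast
    calc ((Nat.log 2 n : ℝ) + 1) ^ 3 ≤ (3 * Real.log n) ^ 3 := by
          apply pow_le_pow_left₀ (by positivity)
          linarith
      _ = _ := by ring
  · nlinarith [mul_self_nonneg (Real.log n - 1), sq_nonneg (Real.log n)]

section

variable {Ω : Type} {m0 : MeasurableSpace Ω} {μ : Measure Ω} [IsProbabilityMeasure μ]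
  {ℱ : Filtration ℕ m0} {A : ℕ → Set Ω}

theorem law3 (hA : ∀ n, MeasurableSet[ℱ n] (A n)) (Q : ℕ) (hQ : 0 < Q)
    (hcop : ∀ n, ¬ Nat.Coprime n Q → A n = ∅)
    (hd : ∀ᵐ ω ∂μ, Tendsto (fun n : ℕ => dens μ ℱ A n ω * Real.log n)
      (atTop ⊓ 𝓟 {n : ℕ | Nat.Coprime (n + 1) Q}) (𝓝 ((Q : ℝ) / Nat.totient Q))) :
    ∀ᵐ ω ∂μ, ∀ η : ℝ, 0 < η → ∃ K : ℝ, ∀ᶠ n : ℕ in atTop,
      |∑ v ∈ quad3 n, In A (val3 v) ω - ∑ v ∈ quad3 n, wt Q v| ≤
        η * ∑ v ∈ quad3 n, wt Q v + K * Real.log n ^ 3 := by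
  classical
  have h := weighted_law (μ := μ) (ℱ := ℱ) (A := A) hA (rhoW_nonneg Q) (dens_profile hA Q hQ hcop hd)
    (fun n => (quad3 n).filter (fun v => ¬ val3 v < n)) val3 (fun _ => 12) 1
    (by
      filter_upwards [eventually_ge_atTop 12] with x hx
      rw [pow_one]
      exact hx)
    (Eventually.of_forall fun n P => (card_le_card (filter_subset_filter _ (filter_subset _ _))).trans (fibre3 n P))
    id tendsto_id
    (Eventually.of_forall fun n v hv => not_lt.1 (mem_filter.1 hv).2)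
  filter_upwards [h] with ω hω η hη
  obtain ⟨K, hK0, hK⟩ := hω η hη
  set c : ℝ := (Q : ℝ) / Nat.totient Q with hc
  have hc1 : 1 ≤ c := one_le_c Q hQ
  refine ⟨12 * K + (1 + c) * 27, ?_⟩
  filter_upwards [hK, log_cube, (Real.tendsto_log_atTop.comp tendsto_natCast_atTop_atTop).eventually_ge_atTop c,
    eventually_ge_atTop 1] with n h1 h2 h3 h4
  obtain ⟨l1, l2⟩ := h2
  have hbig : ∑ v ∈ (quad3 n).filter (fun v => ¬ val3 v < n), rhoW Q (val3 v) =
      ∑ v ∈ (quad3 n).filter (fun v => ¬ val3 v < n), wt Q v := by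
    refine sum_congr rfl fun v hv => ?_
    obtain ⟨g1, g2⟩ := mem_filter.1 hv
    rw [not_lt] at g2
    unfold rhoW wt
    by_cases hcc : Nat.Coprime (val3 v) Q
    · rw [if_pos hcc, if_pos hcc, min_eq_right]
      have g3 : Real.log n ≤ Real.log (val3 v) :=
        Real.log_le_log (by exact_mod_cast h4) (by exact_mod_cast g2)
      have g4 := (log_val3 h4 g1).1
      rw [div_le_one (by linarith)]
      exact h3.trans g3
    · rw [if_neg hcc, if_neg hcc]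
  rw [hbig] at h1
  have hsplit : ∀ f : ℕ × ℕ × ℕ × ℕ → ℝ, ∑ v ∈ quad3 n, f v =
      ∑ v ∈ (quad3 n).filter (fun v => val3 v < n), f v + ∑ v ∈ (quad3 n).filter (fun v => ¬ val3 v < n), f v :=
    fun f => (sum_filter_add_sum_filter_not _ _ _).symm
  rw [hsplit, hsplit (wt Q)]
  have hcard : (((quad3 n).filter (fun v => val3 v < n)).card : ℝ) ≤ 27 * Real.log n ^ 3 :=
    le_trans (by exact_mod_cast small3 n) l1
  have s1 : 0 ≤ ∑ v ∈ (quad3 n).filter (fun v => val3 v < n), In A (val3 v) ω :=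
    sum_nonneg fun v _ => In_nonneg _ _
  have s2 : ∑ v ∈ (quad3 n).filter (fun v => val3 v < n), In A (val3 v) ω ≤ 27 * Real.log n ^ 3 := by
    refine le_trans ?_ hcard
    refine (sum_le_card_nsmul _ _ 1 fun v _ => In_le _ _).trans ?_
    simp
  have s3 : 0 ≤ ∑ v ∈ (quad3 n).filter (fun v => val3 v < n), wt Q v :=
    sum_nonneg fun v hv => (wt_bounds Q hQ h4 (mem_filter.1 hv).1).1
  have s4 : ∑ v ∈ (quad3 n).filter (fun v => val3 v < n), wt Q v ≤ c * (27 * Real.log n ^ 3) := by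
    refine (sum_le_card_nsmul _ _ c fun v hv => (wt_bounds Q hQ h4 (mem_filter.1 hv).1).2).trans ?_
    rw [nsmul_eq_mul, mul_comm]
    exact mul_le_mul_of_nonneg_left hcard (by linarith)
  have s5 : K * ((12 : ℕ) * Real.log n) ≤ 12 * K * Real.log n ^ 3 := by
    push_cast
    nlinarith
  obtain ⟨t1, t2⟩ := abs_le.1 h1
  have s6 : 0 ≤ η * ∑ v ∈ (quad3 n).filter (fun v => val3 v < n), wt Q v := mul_nonneg hη.le s3
  rw [abs_le]
  constructor <;> nlinarith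

end

end Pool.Agent.R494.SPL
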