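import Pool.Agent.Y703.CQ.Key
import Pool.Agent.R494.SQ1

/-! The joint sum over the boxes for several diagonal functions (after `Pool.Agent.Y687.JQ.KeyC` of helper697). -/

set_option autoImplicit false

open scoped Classical

namespace Pool.Agent.R494.SQ

open Finset
open Pool.Agent.Y703.CX (sm la jj XX)
open Pool.Agent.Y703.CQ
open Pool.Agent.Y687.JQ
open Pool.Agent.Y703.CQ.K302 (ph ky KP le_XX cl_prime cl_ne CC mem_CC sm_fill la_fill rr_facts inj_ph
  rr_iff key_bij CC_facts CC_disj hb_box prs_card card_sub TT mem_TT harm_TT)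

theorem box_dec {M : ℕ} {ε : ℝ} {R : ℕ} (hBOX : BX M ε R)
    (F : Fin M → ℕ → ZMod 2) (V : Fin M → Finset ℕ) (ι : Type) [Fintype ι] [inst : DecidableEq ι]
    (lo : LinearOrder ι) (J1 : Finset ι) (C : ι → Finset ℕ) (X : ι → ℕ) (κ : ℝ)
    (S₀ W : Finset ℕ) (g2 : ∀ i, V i ⊆ W)
    (h1 : 0 ≤ κ) (h2 : ∀ i, (C i).card ≤ X i) (h3 : HB J1 C X κ)
    (h4 : ∀ u ∈ S₀ ∪ W, u.Prime ∧ u ≠ 2)
    (h5 : ∀ i, ∀ p ∈ C i, p.Prime ∧ p ≠ 2 ∧ p ∉ S₀ ∪ W ∧ (i ∈ J1 ↔ p % 8 = 1))
    (h6 : ∀ i l, i ≠ l → Disjoint (C i) (C l)) (h7 : ∃ i, i ∉ J1) :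
    |(((Fintype.piFinset C).filter fun p => NdF R W F V S₀ (univ.image p) ∧
        GdF F V (S₀ ∪ univ.image p)).card : ℝ) -
      c2 ^ M * (((Fintype.piFinset C).filter fun p => NdF R W F V S₀ (univ.image p)).card : ℝ)| ≤
    ε * (((Fintype.piFinset C).filter fun p => NdF R W F V S₀ (univ.image p)).card : ℝ) +
    2 ^ ((2 * (S₀ ∪ W).card + 1 + M) * Fintype.card ι + (prs J1).card) * (κ * ∏ j, (X j : ℝ)) := by
  have h := hBOX F V ι J1 C X κ S₀ W g2 h1 h2 h3 h4 h5 h6 h7
  have e : inst = fun a b => lo.toDecidableEq a b := Subsingleton.elim _ _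
  subst e
  exact h

theorem per_key {M : ℕ} {ε : ℝ} {R : ℕ} (hε : 0 < ε) (hBOX : BX M ε R)
    (F : Fin M → ℕ → ZMod 2) (V : Fin M → Finset ℕ)
    {I K : Finset ℕ} (hok : Ok I K) {X z H k v : ℕ} (hH : 1 ≤ H)
    {κ : ℝ} (hκ : 0 ≤ κ) {W : Finset ℕ} (g1 : ∀ u ∈ W, u.Prime ∧ u ≠ 2 ∧ u ≠ 7)
    (g2 : ∀ i, V i ⊆ W) (g3 : ∀ u ∈ W, u ≤ z) (g4 : W.card ≤ k)
    {S₀ : Finset ℕ} {J : Finset (ℕ × ℕ)} (hk : KP I K X z H k v S₀ J)
    (hHB : HB (univ.filter fun e : J => e.1.2 = 1) (fun i : J => CC I z H i)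
      (fun i => XX H i.1.1) κ) :
    |(((RR I K X z H k v).filter fun S => ky z H S = (S₀, J) ∧
        (NdF R W F V (sm z S) (la z S) ∧ GdF F V S)).card : ℝ) -
      c2 ^ M * (((RR I K X z H k v).filter fun S => ky z H S = (S₀, J) ∧
        NdF R W F V (sm z S) (la z S)).card : ℝ)| ≤
    ε * (((RR I K X z H k v).filter fun S => ky z H S = (S₀, J)).card : ℝ) +
      (3 ^ ((6 + M) * k ^ 2) * κ) * (X / ((∏ p ∈ S₀, p : ℕ) : ℝ)) := by
  set J1 : Finset J := univ.filter fun e : J => e.1.2 = 1 with hJ1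
  have hinj : Function.Injective (fun i : J => i.1.1) := by
    intro a b hab
    exact Subtype.ext (hk.inj (Finset.mem_coe.2 a.2) (Finset.mem_coe.2 b.2) hab)
  let lo : LinearOrder J := LinearOrder.lift' (fun i : J => i.1.1) hinj
  have hbox := box_dec hBOX F V J lo J1 (fun i => CC I z H i) (fun i => XX H i.1.1) κ S₀ W g2 hκ
    (fun i => by
      refine (Finset.card_filter_le _ _).trans ?_
      rw [Nat.card_Icc]
      omega)
    hHB (fun u hu => by
      rcases Finset.mem_union.1 hu with hu | hu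
      · exact ⟨cl_prime (hk.cl u hu), cl_ne hok (hk.cl u hu)⟩
      · exact ⟨(g1 u hu).1, (g1 u hu).2.1⟩)
    (fun i p hp => by
      obtain ⟨h3, h3', h4, h5⟩ := CC_facts hH hp
      refine ⟨cl_prime h3, cl_ne hok h3, fun h => ?_, ?_⟩
      · rcases Finset.mem_union.1 h with h | h
        · have := hk.le p h
          omega
        · have := g3 p h
          omega
      · rw [hJ1, Finset.mem_filter, h5]
        simp)
    (fun i l hil => CC_disj hH i l hil)
    (by
      obtain ⟨e, he, h1⟩ := hk.ine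
      exact ⟨⟨e, he⟩, fun h => h1 (Finset.mem_filter.1 h).2⟩)
  have e1 : ((Fintype.piFinset fun i : J => CC I z H i).filter fun p =>
      NdF R W F V S₀ (univ.image p) ∧ GdF F V (S₀ ∪ univ.image p)).card =
      ((RR I K X z H k v).filter fun S => ky z H S = (S₀, J) ∧
        (NdF R W F V (sm z S) (la z S) ∧ GdF F V S)).card := by
    rw [← key_bij hH hk (fun S => NdF R W F V (sm z S) (la z S) ∧ GdF F V S)]
    congr 1
    refine Finset.filter_congr fun p hp => ?_
    rw [Fintype.mem_piFinset] at hp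
    rw [sm_fill hH hk.le hp, la_fill hH hk.le hp]
  have e2 : ((Fintype.piFinset fun i : J => CC I z H i).filter fun p =>
      NdF R W F V S₀ (univ.image p)).card =
      ((RR I K X z H k v).filter fun S => ky z H S = (S₀, J) ∧
        NdF R W F V (sm z S) (la z S)).card := by
    rw [← key_bij hH hk (fun S => NdF R W F V (sm z S) (la z S))]
    congr 1
    refine Finset.filter_congr fun p hp => ?_
    rw [Fintype.mem_piFinset] at hp
    rw [sm_fill hH hk.le hp, la_fill hH hk.le hp]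
  rw [e1, e2] at hbox
  refine hbox.trans (add_le_add ?_ ?_)
  · have h4 : (((RR I K X z H k v).filter fun S => ky z H S = (S₀, J) ∧
        NdF R W F V (sm z S) (la z S)).card : ℝ) ≤
        (((RR I K X z H k v).filter fun S => ky z H S = (S₀, J)).card : ℝ) := by
      have : (RR I K X z H k v).filter (fun S => ky z H S = (S₀, J) ∧
          NdF R W F V (sm z S) (la z S)) ⊆
          (RR I K X z H k v).filter fun S => ky z H S = (S₀, J) := by
        intro S hS
        rw [Finset.mem_filter] at hS ⊢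
        exact ⟨hS.1, hS.2.1⟩
      exact_mod_cast Finset.card_le_card this
    gcongr
  · have hcJ : Fintype.card J = J.card := Fintype.card_coe J
    have hcard := hk.card
    have hJK : J.card ≤ k := by omega
    have hSK : S₀.card ≤ k := by omega
    have hSW : (S₀ ∪ W).card ≤ 2 * k := (Finset.card_union_le _ _).trans (by omega)
    obtain ⟨m, hm⟩ : ∃ m : ℕ, m = (@prs J _ lo J1).card := ⟨_, rfl⟩
    have hpr : m ≤ k * k := by
      rw [hm]
      refine (@prs_card J _ lo J1).trans ?_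
      rw [hcJ]
      exact Nat.mul_le_mul hJK hJK
    rw [← hm]
    have h5 : (2 : ℝ) ^ ((2 * (S₀ ∪ W).card + 1 + M) * Fintype.card J + m) ≤ 3 ^ ((6 + M) * k ^ 2) := by
      have hexp : (2 * (S₀ ∪ W).card + 1 + M) * Fintype.card J + m ≤ (6 + M) * k ^ 2 := by
        rw [hcJ]
        have h6 : (S₀ ∪ W).card * J.card ≤ 2 * k * k := Nat.mul_le_mul hSW hJK
        have h7 : k ≤ k * k := by
          rcases Nat.eq_zero_or_pos k with h | h
          · rw [h]
          · exact Nat.le_mul_of_pos_left k h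
        have h8 : M * J.card ≤ M * (k * k) := Nat.mul_le_mul_left _ (hJK.trans h7)
        calc (2 * (S₀ ∪ W).card + 1 + M) * J.card + m =
              2 * ((S₀ ∪ W).card * J.card) + J.card + M * J.card + m := by
              ring
          _ ≤ 2 * (2 * k * k) + k * k + M * (k * k) + k * k := by omega
          _ = (6 + M) * k ^ 2 := by ring
      calc (2 : ℝ) ^ ((2 * (S₀ ∪ W).card + 1 + M) * Fintype.card J + m) ≤ 2 ^ ((6 + M) * k ^ 2) :=
            pow_le_pow_right₀ (by norm_num) hexp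
        _ ≤ 3 ^ ((6 + M) * k ^ 2) := by
            apply pow_le_pow_left₀ <;> norm_num
    have hN0 : (0 : ℝ) < ((∏ p ∈ S₀, p : ℕ) : ℝ) := by
      exact_mod_cast Finset.prod_pos fun p hp => (cl_prime (hk.cl p hp)).pos
    have hprod : ∏ j : J, (XX H j.1.1 : ℝ) ≤ X / ((∏ p ∈ S₀, p : ℕ) : ℝ) := by
      have h5 : ∏ j : J, (XX H j.1.1 : ℝ) = ((∏ k ∈ J, XX H k.1 : ℕ) : ℝ) := by
        rw [← Finset.prod_coe_sort J (fun k => XX H k.1)]
        push_cast
        rfl
      rw [h5, le_div_iff₀ hN0, mul_comm]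
      exact_mod_cast hk.prod
    calc (2 : ℝ) ^ ((2 * (S₀ ∪ W).card + 1 + M) * Fintype.card J + m) *
        (κ * ∏ j : J, (XX H j.1.1 : ℝ)) ≤
        3 ^ ((6 + M) * k ^ 2) * (κ * (X / ((∏ p ∈ S₀, p : ℕ) : ℝ))) := by gcongr
      _ = _ := by ring

/-- the sum over the boxes -/
theorem t_KEYF (hB1 : S_BIL) (hEQ : S_EQ) (hLA : S_JLA) (M : ℕ) (ε : ℝ) (hε : 0 < ε) :
    ∃ (R : ℕ) (C : ℝ), 1 ≤ C ∧ ∀ (I K : Finset ℕ) (F : Fin M → ℕ → ZMod 2) (V : Fin M → Finset ℕ)
      (X z H k v N : ℕ) (κ : ℝ) (W : Finset ℕ), (∀ u ∈ W, u.Prime ∧ u ≠ 2 ∧ u ≠ 7) →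
      (∀ i, V i ⊆ W) → (∀ u ∈ W, u ≤ z) → W.card ≤ k →
      Ok I K → 1 ≤ X → 1 ≤ H → 1 ≤ z → 0 ≤ κ → C ≤ κ ^ 12 * z → (H : ℝ) * Real.log X < N →
      |(((RR I K X z H k v).filter fun S => NdF R W F V (sm z S) (la z S) ∧ GdF F V S).card : ℝ) -
          c2 ^ M * (((RR I K X z H k v).filter fun S => NdF R W F V (sm z S) (la z S)).card : ℝ)| ≤
        ε * ((RR I K X z H k v).card : ℝ) +
        (9 * N + 9 : ℝ) ^ k * (3 ^ ((6 + M) * k ^ 2) * κ) * (X * (1 + Real.log X)) := by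
  obtain ⟨C₁, hC₁, h1⟩ := hB1
  obtain ⟨R, hR⟩ := t_BX hEQ hLA M ε hε
  refine ⟨R, C₁, hC₁, ?_⟩
  intro I K F V X z H k v N κ W g1 g2 g3 g4 hok hX hH hz hκ hκz hN
  set T := (RR I K X z H k v).image (ky z H) with hT
  set B : ℝ := 3 ^ ((6 + M) * k ^ 2) * κ with hB
  have hB0 : 0 ≤ B := by positivity
  have hfib : ∀ (P : Finset ℕ → Prop) [DecidablePred P],
      (((RR I K X z H k v).filter fun S => P S).card : ℝ) =
      ∑ e ∈ T, (((RR I K X z H k v).filter fun S => ky z H S = e ∧ P S).card : ℝ) := by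
    intro P _
    rw [Finset.card_eq_sum_card_fiberwise (f := ky z H) (t := T) (by
      intro S hS
      rw [Finset.mem_coe, Finset.mem_filter] at hS
      exact Finset.mem_coe.2 (Finset.mem_image_of_mem _ hS.1))]
    push_cast
    refine Finset.sum_congr rfl fun e _ => ?_
    congr 2
    ext S
    simp only [Finset.mem_filter]
    tauto
  have hKP : ∀ e ∈ T, KP I K X z H k v e.1 e.2 := by
    intro e he
    rw [hT, Finset.mem_image] at he
    obtain ⟨S, hS, rfl⟩ := he
    obtain ⟨f1, f2, f3⟩ := rr_facts hS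
    exact (rr_iff hH f1 (inj_ph f2)).1 hS
  have hf1 := hfib fun S => NdF R W F V (sm z S) (la z S) ∧ GdF F V S
  have hf2 := hfib fun S => NdF R W F V (sm z S) (la z S)
  have hf3 := hfib fun _ => True
  simp only [and_true, Finset.filter_true] at hf3
  rw [hf1, hf2, hf3, Finset.mul_sum, ← Finset.sum_sub_distrib]
  refine (Finset.abs_sum_le_sum_abs _ _).trans ?_
  have h3 : ∀ e ∈ T, |(((RR I K X z H k v).filter fun S => ky z H S = e ∧
        (NdF R W F V (sm z S) (la z S) ∧ GdF F V S)).card : ℝ) -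
      c2 ^ M * (((RR I K X z H k v).filter fun S => ky z H S = e ∧
        NdF R W F V (sm z S) (la z S)).card : ℝ)| ≤
      ε * (((RR I K X z H k v).filter fun S => ky z H S = e).card : ℝ) +
      B * (X / ((∏ p ∈ e.1, p : ℕ) : ℝ)) := by
    intro e he
    obtain ⟨S₀, J⟩ := e
    have hk' := hKP _ he
    exact per_key hε hR F V hok hH hκ g1 g2 g3 g4 hk' (hb_box hok h1 hH hz hκ hκz)
  refine (Finset.sum_le_sum h3).trans ?_
  rw [Finset.sum_add_distrib, ← Finset.mul_sum]
  refine add_le_add le_rfl ?_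
  have hsub : T ⊆ (TT X) ×ˢ ((range N ×ˢ range 8).powerset.filter fun J => J.card ≤ k) := by
    intro e he
    have hk' := hKP e he
    rw [hT, Finset.mem_image] at he
    obtain ⟨S, hS, rfl⟩ := he
    obtain ⟨f1, f2, f3⟩ := rr_facts hS
    rw [Finset.mem_product, Finset.mem_filter, Finset.mem_powerset]
    refine ⟨mem_TT (fun q hq => cl_prime (hk'.cl q hq)) ?_, ?_, ?_⟩
    · refine le_trans ?_ f3
      exact Nat.le_of_dvd (Finset.prod_pos fun p hp => (cl_prime (f1 p hp)).pos)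
        (Finset.prod_dvd_prod_of_subset _ _ _ (Finset.filter_subset _ _))
    · intro e he
      unfold ky at he
      rw [Finset.mem_image] at he
      obtain ⟨q, hq, rfl⟩ := he
      have hqS := (Finset.mem_filter.1 hq).1
      have hq0 := (cl_prime (f1 q hqS)).pos
      have hqX : q ≤ X := by
        refine le_trans ?_ f3
        exact Nat.le_of_dvd (Finset.prod_pos fun p hp => (cl_prime (f1 p hp)).pos)
          (Finset.dvd_prod_of_mem _ hqS)
      unfold ph
      rw [Finset.mem_product, Finset.mem_range, Finset.mem_range]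
      refine ⟨?_, Nat.mod_lt _ (by norm_num)⟩
      have h3 : ((jj H q : ℕ) : ℝ) < N := by
        refine lt_of_le_of_lt (Nat.floor_le (mul_nonneg (Nat.cast_nonneg _)
          (Real.log_nonneg (by exact_mod_cast hq0)))) ?_
        refine lt_of_le_of_lt ?_ hN
        refine mul_le_mul_of_nonneg_left ?_ (Nat.cast_nonneg _)
        exact Real.log_le_log (by exact_mod_cast hq0) (by exact_mod_cast hqX)
      exact_mod_cast h3
    · have := hk'.card
      omega
  refine (Finset.sum_le_sum_of_subset_of_nonneg hsub fun _ _ _ => by positivity).trans ?_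
  rw [Finset.sum_product]
  simp only [Finset.sum_const, nsmul_eq_mul]
  rw [← Finset.mul_sum]
  have h4 : ((((range N ×ˢ range 8).powerset.filter fun J => J.card ≤ k).card : ℕ) : ℝ) ≤
      (9 * N + 9 : ℝ) ^ k := by
    have h5 := card_sub (range N ×ˢ range 8) k
    rw [Finset.card_product, Finset.card_range, Finset.card_range] at h5
    calc ((((range N ×ˢ range 8).powerset.filter fun J => J.card ≤ k).card : ℕ) : ℝ) ≤
          (((N * 8 + 1) ^ k : ℕ) : ℝ) := by exact_mod_cast h5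
      _ = (N * 8 + 1 : ℝ) ^ k := by push_cast; ring
      _ ≤ _ := by
        apply pow_le_pow_left₀ (by positivity)
        have : (0 : ℝ) ≤ N := Nat.cast_nonneg _
        linarith
  have h5 : ∑ S ∈ TT X, B * (X / ((∏ p ∈ S, p : ℕ) : ℝ)) ≤ B * (X * (1 + Real.log X)) := by
    have h6 : ∀ S ∈ TT X, B * ((X : ℝ) / ((∏ p ∈ S, p : ℕ) : ℝ)) =
        B * X * (1 / ((∏ p ∈ S, p : ℕ) : ℝ)) := by
      intro S _
      ring
    rw [Finset.sum_congr rfl h6, ← Finset.mul_sum]
    have h7 := mul_le_mul_of_nonneg_left (harm_TT X) (mul_nonneg hB0 (Nat.cast_nonneg X))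
    refine h7.trans (le_of_eq ?_)
    ring
  have h6 : 0 ≤ ∑ S ∈ TT X, B * ((X : ℝ) / ((∏ p ∈ S, p : ℕ) : ℝ)) :=
    Finset.sum_nonneg fun _ _ => by positivity
  rw [mul_assoc]
  gcongr

end Pool.Agent.R494.SQ
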