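import Pool.Agent.R494.SQ2
import Pool.Agent.R494.SQ3
import Pool.Agent.Y687.JQ.Asy

/-!
The final asymptotics for several diagonal functions (adapted from helper687's `JQ.Asy` and helper703's
`CQ.Asy`)
-/

set_option autoImplicit false

open scoped Classical
open Finset Filter

namespace Pool.Agent.R494.SQ

open Pool.Agent.Y703.CX (sm la jj XX eL zz kk S_SIE eL_tendsto logX_eq rpow_eL HH NN ev_eL one_le_exp
  HH_ge HH_le HH_pos kk_ge kk_le X_pos one_add_log lin_le kap zz_ge zz_pos kap_nonneg kap_pow kap_le)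
open Pool.Agent.Y703.CQ
open Pool.Agent.Y687.JQ

/-- the main error term -/
theorem sml_mainF (M : ℕ) {C : ℝ} (hC : 1 ≤ C) {t : ℝ} (ht : t < 1) :
    Sml t fun X => (9 * (NN X : ℝ) + 9) ^ kk X *
    (3 ^ ((6 + M) * kk X ^ 2) * kap C X) * (X * (1 + Real.log X)) := by
  have hM0 : (0 : ℝ) ≤ M := Nat.cast_nonneg M
  apply sml_of (C := 4 * C) (a := 1) ht
  filter_upwards [ev_eL (11000 + 1800 * M)] with X hX
  set l := eL X with hl
  have h0 : 0 < eL X := by linarith
  have h1 : 1 ≤ eL X := by linarith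
  have hX0 : (0 : ℝ) ≤ X := Nat.cast_nonneg _
  have hN : 9 * (NN X : ℝ) + 9 ≤ Real.exp (5 * l) := by
    have h2 : (NN X : ℝ) ≤ HH X * Real.log X + 1 := by
      unfold NN
      push_cast
      have := Nat.floor_le (a := (HH X : ℝ) * Real.log X)
        (mul_nonneg (Nat.cast_nonneg _) (Real.log_natCast_nonneg X))
      linarith
    have h3 : (HH X : ℝ) * Real.log X ≤ 2 * Real.exp (4 * l) := by
      rw [logX_eq h0]
      calc (HH X : ℝ) * Real.exp (eL X) ≤ 2 * Real.exp (3 * eL X) * Real.exp (eL X) :=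
            mul_le_mul_of_nonneg_right (HH_le h0) (Real.exp_pos _).le
        _ = 2 * Real.exp (4 * l) := by
            rw [mul_assoc, ← Real.exp_add]
            congr 2
            rw [hl]
            ring
    have h4 : 1 ≤ Real.exp (4 * l) := one_le_exp (by linarith)
    have h5 : (36 : ℝ) ≤ Real.exp l := by
      have := Real.add_one_le_exp l
      linarith
    have h6 : Real.exp (5 * l) = Real.exp (4 * l) * Real.exp l := by
      rw [← Real.exp_add]; congr 1; ring
    rw [h6]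
    nlinarith
  have hkk := kk_le h1
  have hkk0 : (0 : ℝ) ≤ kk X := Nat.cast_nonneg _
  have hA : (9 * (NN X : ℝ) + 9) ^ kk X ≤ Real.exp (55 * l ^ 2) := by
    calc (9 * (NN X : ℝ) + 9) ^ kk X ≤ (Real.exp (5 * l)) ^ kk X := by gcongr
      _ = Real.exp (kk X * (5 * l)) := (Real.exp_nat_mul _ _).symm
      _ ≤ Real.exp (55 * l ^ 2) := by
          apply Real.exp_le_exp.2
          nlinarith
  have hB : (3 : ℝ) ^ ((6 + M) * kk X ^ 2) ≤ Real.exp ((800 + 140 * M) * l ^ 2) := by
    have e : (3 : ℝ) ^ ((6 + M) * kk X ^ 2) =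
        Real.exp (((6 + M) * (kk X : ℝ) ^ 2) * Real.log 3) := by
      rw [mul_comm ((6 + M) * (kk X : ℝ) ^ 2) (Real.log 3), Real.exp_mul, Real.exp_log (by norm_num)]
      rw [← Real.rpow_natCast]
      congr 1
      push_cast
      ring
    rw [e]
    apply Real.exp_le_exp.2
    have h2 : Real.log 3 ≤ 1.1 := by
      have h3 : (3 : ℝ) ≤ Real.exp 1.1 := by
        have h4 : (2.7182818283 : ℝ) < Real.exp 1 := Real.exp_one_gt_d9
        have h5 : (1.105 : ℝ) ≤ Real.exp 0.1 := by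
          have := Real.quadratic_le_exp_of_nonneg (x := 0.1) (by norm_num)
          norm_num at this ⊢
          linarith
        have h6 : Real.exp 1.1 = Real.exp 1 * Real.exp 0.1 := by
          rw [← Real.exp_add]; norm_num
        rw [h6]
        nlinarith
      calc Real.log 3 ≤ Real.log (Real.exp 1.1) := Real.log_le_log (by norm_num) h3
        _ = 1.1 := Real.log_exp _
    have h3 : (kk X : ℝ) ^ 2 ≤ 121 * l ^ 2 := by nlinarith
    have h4 : 0 ≤ (kk X : ℝ) ^ 2 := sq_nonneg _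
    have h5 : (6 + (M : ℝ)) * (kk X : ℝ) ^ 2 * Real.log 3 ≤ (6 + (M : ℝ)) * (121 * l ^ 2) * 1.1 := by
      have h6 : 0 ≤ Real.log 3 := Real.log_nonneg (by norm_num)
      gcongr
    refine h5.trans ?_
    have h6 : 0 ≤ (M : ℝ) * l ^ 2 := by positivity
    nlinarith [sq_nonneg l]
  have hK := kap_le hC h1
  have hLg := one_add_log h0
  have hmain : (9 * (NN X : ℝ) + 9) ^ kk X * (3 ^ ((6 + M) * kk X ^ 2) * kap C X) *
      (X * (1 + Real.log X)) ≤ Real.exp (55 * l ^ 2) * (Real.exp ((800 + 140 * M) * l ^ 2) *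
        (2 * C * Real.exp (-l ^ 3 / 12))) * (X * (2 * Real.exp l)) := by
    have := kap_nonneg hC X
    have : 0 ≤ 1 + Real.log X := by
      have := Real.log_natCast_nonneg X
      linarith
    gcongr
  refine hmain.trans ?_
  have e : Real.exp (55 * l ^ 2) * (Real.exp ((800 + 140 * M) * l ^ 2) *
        (2 * C * Real.exp (-l ^ 3 / 12))) * (X * (2 * Real.exp l)) =
      4 * C * (X * Real.exp (55 * l ^ 2 + (800 + 140 * M) * l ^ 2 + -l ^ 3 / 12 + l)) := by
    rw [Real.exp_add, Real.exp_add, Real.exp_add]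
    ring
  rw [e]
  have h9 : 55 * l ^ 2 + (800 + 140 * M) * l ^ 2 + -l ^ 3 / 12 + l ≤ -1 * l := by
    have h10 : (11000 + 1800 * M) * l ^ 2 ≤ l ^ 3 := by
      have : l ^ 3 = l * l ^ 2 := by ring
      rw [this]
      exact mul_le_mul_of_nonneg_right hX (sq_nonneg l)
    have h11 : 0 ≤ (M : ℝ) * l ^ 2 := by positivity
    nlinarith
  have h11 := Real.exp_le_exp.2 h9
  have hC0 : (0 : ℝ) ≤ 4 * C := by linarith
  gcongr

/-- the pairs of indices -/
noncomputable def prF (M : ℕ) : Finset (Fin M × Fin M) := univ.filter fun e => e.1 ≠ e.2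

/-- the sets with few large primes with `d p ≠ 0` -/
noncomputable def fewF (I K : Finset ℕ) (X z R : ℕ) (d : ℕ → ZMod 2) : Finset (Finset ℕ) :=
  (SS I K X).filter fun S => ((la z S).filter fun p => p % 8 = 1 ∧
      d p ≠ 0).card < 2 * (sm z S).card + R

/-- the sets outside the regular part -/
theorem out_subF {M : ℕ} (I K W : Finset ℕ) (F : Fin M → ℕ → ZMod 2) (V : Fin M → Finset ℕ)
    (X z H k R : ℕ) :
    SS I K X \ ((RR I K X z H k (2 * W.card + R)).filter fun S => NdF R W F V (sm z S) (la z S)) ⊆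
      ((((((SS I K X).filter fun S => k < S.card) ∪
      ((SS I K X).filter fun S => S.card ≤ k ∧
        X < (∏ p ∈ sm z S, p) * ∏ p ∈ la z S, XX H (jj H p))) ∪
      ((SS I K X).filter fun S => ¬ Set.InjOn (jj H) (la z S : Set ℕ))) ∪
      ((SS I K X).filter fun S => ((la z S).filter fun p => p % 8 = 1).card ≤
        2 * (sm z S).card + (2 * W.card + R) ∨ ∀ p ∈ la z S, p % 8 = 1)) ∪
      ((SS I K X).filter fun S => S.card ≤ k ∧ ¬ Nd (sm z S ∪ W) (la z S))) ∪
      (prF M).biUnion fun e => fewF I K X z (2 * W.card + R) (dd F V e.1 e.2) := by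
  intro S hS
  rw [Finset.mem_sdiff, Finset.mem_filter] at hS
  obtain ⟨h1, h2⟩ := hS
  by_contra hc
  rw [mem_union, mem_union, mem_union, mem_union, mem_union] at hc
  simp only [mem_filter, mem_biUnion] at hc
  push Not at hc
  obtain ⟨⟨⟨⟨⟨c1, c2⟩, c3⟩, c4⟩, c5⟩, c6⟩ := hc
  have d1 : S.card ≤ k := c1 h1
  have d2 := c2 h1 d1
  have d3 := c3 h1
  have d4 := c4 h1
  have d5 := c5 h1 d1
  have hcu : (sm z S ∪ W).card ≤ (sm z S).card + W.card := card_union_le _ _
  apply h2
  refine ⟨?_, d5, ?_, ?_⟩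
  · unfold RR
    rw [mem_filter]
    exact ⟨h1, d3, d1, d2, d4.1, d4.2⟩
  · have := d4.1
    omega
  · intro i j hne
    have h3 := c6 (i, j) (by
      unfold prF
      rw [mem_filter]
      exact ⟨mem_univ _, hne⟩)
    have h4 : ¬ ((la z S).filter fun p => p % 8 = 1 ∧
        dd F V i j p ≠ 0).card < 2 * (sm z S).card + (2 * W.card + R) := by
      intro h
      apply h3
      unfold fewF
      rw [mem_filter]
      exact ⟨h1, h⟩
    omega

theorem t_DQF (h1 : S_BIL) (h3 : S_EQ) (h4 : S_JLA)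
    (hC : CntP) (hS : S_SIE) (hH : S_HAL) (hB : S_JBAD) (hF : S_FEW)
    (hM : S_MER) (hCh : S_CHE) (hLo : S_LOW) (hc2 : S_C2) {M : ℕ} (I K : Finset ℕ)
    (F : Fin M → ℕ → ZMod 2) (V : Fin M → Finset ℕ) (W : Finset ℕ) (hO : Ok I K)
    (hW1 : ∀ u ∈ W, u.Prime ∧ u ≠ 2 ∧ u ≠ 7) (hW2 : ∀ i, V i ⊆ W)
    (hpos : ∀ i j, i ≠ j → Pos (dd F V i j)) : Tendsto
    (fun X : ℕ => (((SS I K X).filter (GdF F V)).card : ℝ) / ((SS I K X).card : ℝ))
    atTop (nhds (c2 ^ M)) := by
  obtain ⟨c, X₀, hc, hlow⟩ := hLo hM hCh I K hO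
  obtain ⟨δB, CB, XB, hδB, hbad⟩ := hB hS hH hM I K W hO hW1
  have hdp := dl_pos hO
  have hdl := dl_lt hO
  rw [Metric.tendsto_nhds]
  intro ε hε
  obtain ⟨R, C, hC1, hkey⟩ := t_KEYF h1 h3 h4 M (ε / 4) (by linarith)
  set v : ℕ := 2 * W.card + R with hv
  obtain ⟨CF, XF, hfew⟩ := hF hS hM I K v hO
  have s1 := sml_many hO (t := 1 - dl I) (by linarith) hC
  have s2 := sml_cut hO (t := 1 - dl I) (by linarith) hC
  have s3 := sml_coll hO (t := 1 - dl I) (by linarith) hC
  have s4 := sml_rpow (t := 1 - dl I) (by linarith) hfew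
  have s5 := sml_rpow (t := 1 - dl I) (by linarith) hbad
  have s6 := sml_mainF M hC1 (t := 1 - dl I) (by linarith)
  have s7 : Sml (1 - dl I) fun X => ∑ e ∈ prF M,
      ((fewF I K X (zz X) v (dd F V e.1 e.2)).card : ℝ) := by
    refine sml_sum _ _ fun e he => ?_
    unfold prF at he
    rw [mem_filter] at he
    obtain ⟨δ, C', X', hδ, h⟩ := t_FEWF hS hM (hpos e.1 e.2 he.2) I K v hO
    exact sml_rpow (t := 1 - dl I) (by linarith) h
  have s := sml_add (sml_add (sml_add (sml_add (sml_add (sml_add s1 s2) s3) s4) s5) s6) s7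
  have hδ : (0 : ℝ) < c * ε / 4 := by positivity
  obtain ⟨WB, hWB⟩ : ∃ B : ℕ, ∀ u ∈ W, u ≤ B := ⟨W.sup id, fun u hu => Finset.le_sup (f := id) hu⟩
  have hzt : ∀ᶠ X : ℕ in atTop, WB ≤ zz X := by
    filter_upwards [ev_eL (WB + 1)] with X hX
    have h0 : (1 : ℝ) ≤ eL X := by
      have : (0 : ℝ) ≤ WB := Nat.cast_nonneg _
      linarith
    unfold zz
    apply Nat.le_floor
    have h2 : (WB : ℝ) ≤ (eL X) ^ 3 := by
      have h3 : (1 : ℝ) * eL X ≤ (eL X) ^ 2 * eL X := by
        apply mul_le_mul_of_nonneg_right _ (by linarith)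
        nlinarith
      have h4 : (eL X) ^ 3 = (eL X) ^ 2 * eL X := by ring
      linarith
    have h3 := Real.add_one_le_exp ((eL X) ^ 3)
    linarith
  have hkt : ∀ᶠ X : ℕ in atTop, W.card ≤ kk X := by
    filter_upwards [ev_eL (W.card + 1)] with X hX
    have h2 := kk_ge X
    have h0 : (0 : ℝ) ≤ W.card := Nat.cast_nonneg _
    have : (W.card : ℝ) ≤ kk X := by linarith
    exact_mod_cast this
  filter_upwards [s (c * ε / 4) hδ, ev_eL 1, eventually_ge_atTop X₀, hzt, hkt] with X hX hl hX0 hz hk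
  have hl0 : 0 < eL X := by linarith
  have hlo := hlow X hX0
  have e00 : (-1 + dl I : ℝ) = -(1 - dl I) := by ring
  rw [e00, rpow_eL hl0] at hlo
  have hXp := X_pos hl0
  have hXp' : (0 : ℝ) < X := by exact_mod_cast hXp
  have hSpos : (0 : ℝ) < ((SS I K X).card : ℝ) := by
    refine lt_of_lt_of_le ?_ hlo
    positivity
  have hN : (HH X : ℝ) * Real.log X < NN X := by
    unfold NN
    push_cast
    exact Nat.lt_floor_add_one _
  have hmain := hkey I K F V X (zz X) (HH X) (kk X) v (NN X) (kap C X) W hW1 hW2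
    (fun u hu => (hWB u hu).trans hz) hk hO hXp (HH_pos hl0) (zz_pos hl)
    (kap_nonneg hC1 X) (kap_pow hC1 hl) hN
  set T := (RR I K X (zz X) (HH X) (kk X) v).filter fun S =>
    NdF R W F V (sm (zz X) S) (la (zz X) S) with hT
  have hTG : (RR I K X (zz X) (HH X) (kk X) v).filter
      (fun S => NdF R W F V (sm (zz X) S) (la (zz X) S) ∧ GdF F V S) = T.filter (GdF F V) := by
    rw [hT, filter_filter]
  rw [hTG] at hmain
  have hTS : T ⊆ SS I K X := (filter_subset _ _).trans (filter_subset _ _)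
  have hRS : ((RR I K X (zz X) (HH X) (kk X) v).card : ℝ) ≤ ((SS I K X).card : ℝ) := by
    exact_mod_cast card_le_card (filter_subset _ _)
  have hp0 : 0 ≤ c2 ^ M := pow_nonneg hc2.2.1.le _
  have hp1 : c2 ^ M ≤ 1 := pow_le_one₀ hc2.2.1.le hc2.2.2.1.le
  have hcmp := cmp (GdF F V) T (SS I K X) hTS (c2 ^ M) hp0 hp1
  have hout : ((SS I K X \ T).card : ℝ) ≤
      ((((SS I K X).filter fun S => kk X < S.card).card : ℝ) +
      (((SS I K X).filter fun S => S.card ≤ kk X ∧
        X < (∏ p ∈ sm (zz X) S, p) * ∏ p ∈ la (zz X) S, XX (HH X) (jj (HH X) p)).card : ℝ) +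
      (((SS I K X).filter fun S => ¬ Set.InjOn (jj (HH X)) (la (zz X) S : Set ℕ)).card : ℝ) +
      (((SS I K X).filter fun S => ((la (zz X) S).filter fun p => p % 8 = 1).card ≤
        2 * (sm (zz X) S).card + v ∨ ∀ p ∈ la (zz X) S, p % 8 = 1).card : ℝ)) +
      (((SS I K X).filter fun S => S.card ≤ kk X ∧
        ¬ Nd (sm (zz X) S ∪ W) (la (zz X) S)).card : ℝ) +
      ∑ e ∈ prF M, ((fewF I K X (zz X) v (dd F V e.1 e.2)).card : ℝ) := by
    have g := card_le_card (out_subF I K W F V X (zz X) (HH X) (kk X) R)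
    rw [← hv, ← hT] at g
    have g3 := Finset.card_biUnion_le (s := prF M)
      (t := fun e => fewF I K X (zz X) v (dd F V e.1 e.2))
    have g2 := ((g.trans (card_union_le _ _)).trans (Nat.add_le_add_right
      ((card_union_le _ _).trans (Nat.add_le_add_right ((card_union_le _ _).trans
      (Nat.add_le_add_right ((card_union_le _ _).trans
      (Nat.add_le_add_right (card_union_le _ _) _)) _)) _)) _)).trans (Nat.add_le_add_left g3 _)
    exact_mod_cast g2
  have htot : |(((SS I K X).filter (GdF F V)).card : ℝ) - c2 ^ M * ((SS I K X).card : ℝ)| ≤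
      ε / 4 * ((SS I K X).card : ℝ) +
        c * ε / 4 * (X * Real.exp (-(1 - dl I) * eL X)) := by
    have g1 : ε / 4 * ((RR I K X (zz X) (HH X) (kk X) v).card : ℝ) ≤
        ε / 4 * ((SS I K X).card : ℝ) := mul_le_mul_of_nonneg_left hRS (by positivity)
    linarith
  rw [Real.dist_eq]
  have e3 : (((SS I K X).filter (GdF F V)).card : ℝ) / ((SS I K X).card : ℝ) - c2 ^ M =
      ((((SS I K X).filter (GdF F V)).card : ℝ) - c2 ^ M * ((SS I K X).card : ℝ)) /
        ((SS I K X).card : ℝ) := by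
    field_simp
  rw [e3, abs_div, abs_of_pos hSpos, div_lt_iff₀ hSpos]
  refine lt_of_le_of_lt htot ?_
  have g2 : c * ε / 4 * (X * Real.exp (-(1 - dl I) * eL X)) ≤ ε / 4 * ((SS I K X).card : ℝ) := by
    calc c * ε / 4 * (X * Real.exp (-(1 - dl I) * eL X)) =
          ε / 4 * (c * X * Real.exp (-(1 - dl I) * eL X)) := by ring
      _ ≤ _ := mul_le_mul_of_nonneg_left hlo (by linarith)
  have g4 : 0 < ε * ((SS I K X).card : ℝ) := by positivity
  linarith

end Pool.Agent.R494.SQ
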