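import Mathlib

/-!
A set of primes with at least `c N / log N` elements up to `N` has logarithmic density at least `c / 4`.
-/

set_option autoImplicit false

open scoped Classical

namespace Pool.Agent.R494.SQ

open Finset

theorem loglog_step {t : ℝ} (ht : 3 ≤ t) :
    Real.log (Real.log (t + 1)) - Real.log (Real.log t) ≤ 1 / (t * Real.log t) := by
  have ht0 : 0 < t := by linarith
  have hl : 0 < Real.log t := Real.log_pos (by linarith)
  have hl' : 0 < Real.log (t + 1) := Real.log_pos (by linarith)
  rw [← Real.log_div hl'.ne' hl.ne']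
  have h1 : Real.log (t + 1) ≤ Real.log t + 1 / t := by
    have e : t + 1 = t * (1 + 1 / t) := by field_simp
    rw [e, Real.log_mul ht0.ne' (by positivity)]
    have := Real.log_le_sub_one_of_pos (x := 1 + 1 / t) (by positivity)
    linarith
  have h2 : Real.log (t + 1) / Real.log t ≤ 1 + 1 / (t * Real.log t) := by
    rw [div_le_iff₀ hl]
    have e : (1 + 1 / (t * Real.log t)) * Real.log t = Real.log t + 1 / t := by
      field_simp
    rw [e]
    exact h1
  have h3 := Real.log_le_sub_one_of_pos (x := Real.log (t + 1) / Real.log t) (by positivity)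
  linarith

theorem step_aux {y : ℕ} (hy : 4 ≤ y) :
    ((y : ℝ) + 2) * Real.log (y + 1) ≤ 4 * (y * Real.log y) := by
  have h4 : (4 : ℝ) ≤ y := by exact_mod_cast hy
  have hl : 0 < Real.log y := Real.log_pos (by linarith)
  have h1 : Real.log ((y : ℝ) + 1) ≤ 2 * Real.log y := by
    have e : 2 * Real.log (y : ℝ) = Real.log ((y : ℝ) ^ 2) := by
      rw [Real.log_pow]
      norm_num
    rw [e]
    exact Real.log_le_log (by linarith) (by nlinarith)
  calc ((y : ℝ) + 2) * Real.log (y + 1) ≤ (2 * y) * (2 * Real.log y) := by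
        apply mul_le_mul (by linarith) h1 (Real.log_nonneg (by linarith)) (by linarith)
    _ = 4 * (y * Real.log y) := by ring

theorem mertens_lb {A : ℕ → Prop} {c : ℝ} (hc : 0 < c) {N₀ : ℕ} (hN : 4 ≤ N₀)
    (h : ∀ N, N₀ ≤ N → c * N / Real.log N ≤ (((range (N + 1)).filter A).card : ℝ)) (hA0 : ¬ A 0)
    (y : ℕ) (hy : N₀ ≤ y) :
    (((range (y + 1)).filter A).card : ℝ) / (y + 1) +
      c / 4 * (Real.log (Real.log y) - Real.log (Real.log N₀)) ≤
      ∑ p ∈ (range (y + 1)).filter A, (1 : ℝ) / p := by
  induction y, hy using Nat.le_induction with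
  | base =>
    rw [sub_self, mul_zero, add_zero, div_eq_mul_one_div, ← nsmul_eq_mul, ← sum_const]
    refine sum_le_sum fun p hp => ?_
    rw [mem_filter, mem_range] at hp
    have hp0 : 0 < p := Nat.pos_of_ne_zero fun h0 => hA0 (h0 ▸ hp.2)
    have h1 : (0 : ℝ) < p := by exact_mod_cast hp0
    have h2 : (p : ℝ) ≤ N₀ + 1 := by exact_mod_cast hp.1.le
    exact one_div_le_one_div_of_le h1 h2
  | succ y hy ih =>
    have hy4 : 4 ≤ y := hN.trans hy
    have h4 : (4 : ℝ) ≤ y := by exact_mod_cast hy4
    have hl : 0 < Real.log y := Real.log_pos (by linarith)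
    have hl1 : 0 < Real.log ((y : ℝ) + 1) := Real.log_pos (by linarith)
    have h1 := h (y + 1) (by omega)
    have h2 := loglog_step (t := y) (by linarith)
    have h3 := step_aux hy4
    push_cast at h1 ⊢
    set K : ℝ := (((range (y + 1 + 1)).filter A).card : ℝ) with hK
    set K' : ℝ := (((range (y + 1)).filter A).card : ℝ) with hK'
    set S' : ℝ := ∑ p ∈ (range (y + 1)).filter A, (1 : ℝ) / p with hS'
    have hstep : ∑ p ∈ (range (y + 1 + 1)).filter A, (1 : ℝ) / p = S' + (K - K') / (y + 1) := by
      rw [range_add_one (n := y + 1), filter_insert]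
      rw [range_add_one (n := y + 1), filter_insert] at hK
      split_ifs at hK ⊢ with hA
      · rw [sum_insert (by simp)]
        rw [card_insert_of_notMem (by simp)] at hK
        rw [hK]
        push_cast
        rw [← hK', ← hS']
        ring
      · rw [hK, ← hS']
        simp [hK']
    rw [hstep]
    -- the increment
    have h5 : c / 4 * (1 / (y * Real.log y)) ≤ K / (y + 1) - K / (y + 1 + 1) := by
      have e : K / ((y : ℝ) + 1) - K / (y + 1 + 1) = K * (1 / ((y + 1) * (y + 2))) := by
        field_simp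
        ring
      rw [e]
      have h6 : c * (y + 1) / Real.log (y + 1) * (1 / (((y : ℝ) + 1) * (y + 2))) ≤
          K * (1 / ((y + 1) * (y + 2))) := mul_le_mul_of_nonneg_right h1 (by positivity)
      refine le_trans ?_ h6
      have e2 : c * ((y : ℝ) + 1) / Real.log (y + 1) * (1 / ((y + 1) * (y + 2))) =
          c * (1 / ((y + 2) * Real.log (y + 1))) := by
        field_simp
      have e3 : c / 4 * (1 / ((y : ℝ) * Real.log y)) = c * (1 / (4 * (y * Real.log y))) := by
        field_simp
      rw [e2, e3]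
      apply mul_le_mul_of_nonneg_left _ hc.le
      exact one_div_le_one_div_of_le (by positivity) h3
    have h6 := mul_le_mul_of_nonneg_left h2 (show (0 : ℝ) ≤ c / 4 by positivity)
    have e4 : (K - K') / ((y : ℝ) + 1) = K / (y + 1) - K' / (y + 1) := by ring
    rw [e4]
    linarith

/-- the lower bound for all `y` -/
theorem mertens_all {A : ℕ → Prop} {c : ℝ} (hc : 0 < c) {N₀ : ℕ}
    (h : ∀ N, N₀ ≤ N → c * N / Real.log N ≤ (((range (N + 1)).filter A).card : ℝ)) (hA0 : ¬ A 0) :
    ∃ C : ℝ, ∀ y : ℕ, 3 ≤ y → c / 4 * Real.log (Real.log y) - C ≤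
      ∑ p ∈ (range (y + 1)).filter A, (1 : ℝ) / p := by
  set N₁ := max 4 N₀ with hN₁
  refine ⟨c / 4 * Real.log (Real.log N₁), fun y hy => ?_⟩
  by_cases hyN : N₁ ≤ y
  · have h1 := mertens_lb hc (le_max_left 4 N₀) (fun N hN => h N ((le_max_right 4 N₀).trans hN)) hA0 y
      hyN
    have h2 : 0 ≤ (((range (y + 1)).filter A).card : ℝ) / (y + 1) := by positivity
    linarith
  · have h1 : (3 : ℝ) ≤ y := by exact_mod_cast hy
    have h2 : (y : ℝ) ≤ N₁ := by exact_mod_cast (not_le.1 hyN).le
    have h3 : Real.log y ≤ Real.log N₁ := Real.log_le_log (by linarith) h2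
    have h4 : 0 < Real.log y := Real.log_pos (by linarith)
    have h5 := Real.log_le_log h4 h3
    have h6 : (0 : ℝ) ≤ ∑ p ∈ (range (y + 1)).filter A, (1 : ℝ) / p :=
      sum_nonneg fun p _ => by positivity
    have h7 := mul_le_mul_of_nonneg_left h5 (show (0 : ℝ) ≤ c / 4 by positivity)
    linarith

end Pool.Agent.R494.SQ
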