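import Mathlib

/-!
A commutator which fixes the roots of unity and moves `√(ω √-7)`, `ω = (1 + √-7) / 2`.
-/

set_option autoImplicit false

open scoped Classical

namespace Pool.Agent.R494.SQ

open Polynomial

/-- the polynomial of `√(ω √-7)` times a cyclotomic polynomial -/
noncomputable def PP (N : ℕ) : ℚ[X] := (X ^ 4 + 7 * X ^ 2 + 14) * cyclotomic N ℚ

/-- its splitting field -/
abbrev LL' (N : ℕ) : Type := (PP N).SplittingField

instance (N : ℕ) : NumberField (LL' N) where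
  to_charZero := inferInstance
  to_finiteDimensional := inferInstance

instance (N : ℕ) : Normal ℚ (LL' N) := by
  have h := @Normal.of_isSplittingField ℚ _ (PP N).SplittingField _ _ (PP N)
    (IsSplittingField.splittingField (PP N))
  convert h

instance (N : ℕ) : IsGalois ℚ (LL' N) where
  to_isSeparable := inferInstance
  to_normal := inferInstance

theorem quart_ne : (X ^ 4 + 7 * X ^ 2 + 14 : ℚ[X]) ≠ 0 := by
  intro h
  have := congrArg (Polynomial.eval 0) h
  simp at this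

theorem quart_deg : (X ^ 4 + 7 * X ^ 2 + 14 : ℚ[X]).natDegree = 4 := by
  compute_degree!

theorem PP_ne (N : ℕ) : PP N ≠ 0 := mul_ne_zero quart_ne (cyclotomic_ne_zero N ℚ)

theorem exists_s (N : ℕ) : ∃ s : LL' N, s ^ 4 + 7 * s ^ 2 + 14 = 0 := by
  have h1 : ((PP N).map (algebraMap ℚ (LL' N))).Splits := SplittingField.splits (PP N)
  have h2 : ((X ^ 4 + 7 * X ^ 2 + 14 : ℚ[X]).map (algebraMap ℚ (LL' N))).Splits := by
    refine h1.of_dvd ?_ ?_
    · exact (Polynomial.map_ne_zero_iff (algebraMap ℚ (LL' N)).injective).2 (PP_ne N)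
    · exact Polynomial.map_dvd _ (Dvd.intro _ rfl)
  obtain ⟨s, hs⟩ := h2.exists_eval_eq_zero (by
    rw [degree_map, degree_eq_natDegree quart_ne, quart_deg]
    norm_num)
  refine ⟨s, ?_⟩
  simpa using hs

theorem exists_z (N : ℕ) [NeZero N] : ∃ z : LL' N, IsPrimitiveRoot z N := by
  have h1 : ((PP N).map (algebraMap ℚ (LL' N))).Splits := SplittingField.splits (PP N)
  have h2 : ((cyclotomic N ℚ).map (algebraMap ℚ (LL' N))).Splits := by
    refine h1.of_dvd ?_ ?_
    · exact (Polynomial.map_ne_zero_iff (algebraMap ℚ (LL' N)).injective).2 (PP_ne N)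
    · exact Polynomial.map_dvd _ (Dvd.intro_left _ rfl)
  obtain ⟨z, hz⟩ := h2.exists_eval_eq_zero (by
    rw [degree_map]
    exact (degree_cyclotomic_pos N ℚ (Nat.pos_of_ne_zero (NeZero.ne N))).ne')
  refine ⟨z, ?_⟩
  rw [map_cyclotomic] at hz
  have : NeZero (N : LL' N) := ⟨by exact_mod_cast NeZero.ne N⟩
  exact isRoot_cyclotomic_iff.1 hz

section grp
variable {L : Type} [Field L] [NumberField L] [IsGalois ℚ L]

theorem moved {x : L} (hx : ∀ q : ℚ, (q : ℚ) ^ 2 ≠ 0 → algebraMap ℚ L q ≠ x) (hx0 : x ≠ 0) :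
    ∃ g : Gal(L/ℚ), g x ≠ x := by
  by_contra hc
  push Not at hc
  have h1 : x ∈ (⊥ : IntermediateField ℚ L) := (IsGalois.mem_bot_iff_fixed x).2 hc
  rw [IntermediateField.mem_bot] at h1
  obtain ⟨q, hq⟩ := h1
  by_cases h0 : q = 0
  · rw [h0, map_zero] at hq
    exact hx0 hq.symm
  · exact hx q (pow_ne_zero 2 h0) hq

theorem moved_sqrt {x : L} {n : ℤ} (hx : x ^ 2 = n) (hn : ¬ IsSquare (n : ℚ)) :
    ∃ g : Gal(L/ℚ), g x = -x := by
  have hx0 : x ≠ 0 := by
    rintro rfl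
    apply hn
    have h1 : (n : L) = 0 := by rw [← hx]; ring
    have h2 : n = 0 := by exact_mod_cast h1
    rw [h2]
    exact ⟨0, by simp⟩
  obtain ⟨g, hg⟩ := moved (x := x) (fun q _ hq => hn ⟨q, by
    have h1 : (algebraMap ℚ L) (q * q) = algebraMap ℚ L (n : ℚ) := by
      rw [map_mul, hq, ← sq, hx]
      simp
    exact ((algebraMap ℚ L).injective h1).symm⟩) hx0
  refine ⟨g, ?_⟩
  have h1 : (g x) ^ 2 = x ^ 2 := by
    rw [← map_pow, hx]
    simp
  rcases sq_eq_sq_iff_eq_or_eq_neg.1 h1 with h | h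
  · exact absurd h hg
  · exact h

omit [IsGalois ℚ L] in
theorem pm {x : L} {n : ℤ} (hx : x ^ 2 = n) (g : Gal(L/ℚ)) : g x = x ∨ g x = -x := by
  have h1 : (g x) ^ 2 = x ^ 2 := by
    rw [← map_pow, hx]
    simp
  exact sq_eq_sq_iff_eq_or_eq_neg.1 h1

theorem nsq7 : ¬ IsSquare (((-7 : ℤ) : ℤ) : ℚ) := by
  intro h
  have := h.nonneg
  norm_num at this

theorem nsq98 : ¬ IsSquare (((-98 : ℤ) : ℤ) : ℚ) := by
  intro h
  have := h.nonneg
  norm_num at this

theorem nsq14 : ¬ IsSquare (((14 : ℤ) : ℤ) : ℚ) := by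
  rw [Rat.isSquare_intCast_iff]
  rintro ⟨r, hr⟩
  have h1 : r.natAbs * r.natAbs = 14 := by
    have := congrArg Int.natAbs hr
    rw [Int.natAbs_mul] at this
    exact this.symm
  have h2 : r.natAbs ≤ 3 := by nlinarith
  interval_cases r.natAbs <;> omega

/-- the commutator -/
theorem exists_c {s : L} (hs : s ^ 4 + 7 * s ^ 2 + 14 = 0) : ∃ c : Gal(L/ℚ), c s = -s ∧
    ∀ (N : ℕ) (z : L), N ≠ 0 → IsPrimitiveRoot z N → c z = z := by
  have hs0 : s ≠ 0 := by
    rintro rfl
    norm_num at hs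
  -- `√-7`
  set r : L := 2 * s ^ 2 + 7 with hr
  have hr2 : r ^ 2 = ((-7 : ℤ) : L) := by
    push_cast
    linear_combination 4 * hs
  obtain ⟨σ, hσ⟩ := moved_sqrt hr2 nsq7
  set s' : L := σ s with hs'
  have hss : s ^ 2 = (r - 7) / 2 := by rw [hr]; ring
  have hs'2 : s' ^ 2 = -7 - s ^ 2 := by
    have h1 : s' ^ 2 = σ (s ^ 2) := by rw [hs', map_pow]
    have h2 : σ ((r - 7) / 2) = (-r - 7) / 2 := by
      rw [map_div₀, map_sub, hσ, map_ofNat, map_ofNat]
    rw [h1, hss, h2]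
    ring
  set t : L := s * s' with ht
  have ht2 : t ^ 2 = ((14 : ℤ) : L) := by
    rw [ht, mul_pow, hs'2]
    push_cast
    linear_combination -hs
  have hrt2 : (r * t) ^ 2 = ((-98 : ℤ) : L) := by
    rw [mul_pow, hr2, ht2]
    push_cast
    ring
  have hs'0 : s' ≠ 0 := by
    intro h
    rw [ht, h, mul_zero] at ht2
    norm_num at ht2
  have ht0 : t ≠ 0 := mul_ne_zero hs0 hs'0
  have hr0 : r ≠ 0 := by
    intro h
    rw [h] at hr2
    norm_num at hr2
  -- an automorphism which fixes `√-7` and moves `√14`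
  obtain ⟨τ, hτr, hτt⟩ : ∃ τ : Gal(L/ℚ), τ r = r ∧ τ t = -t := by
    obtain ⟨g, hg⟩ := moved_sqrt ht2 nsq14
    obtain ⟨g', hg'⟩ := moved_sqrt hrt2 nsq98
    rcases pm hr2 g with h | h
    · exact ⟨g, h, hg⟩
    rcases pm hr2 g' with h' | h'
    · refine ⟨g', h', ?_⟩
      rw [map_mul, h'] at hg'
      have h1 : r * g' t = r * (-t) := by rw [hg']; ring
      exact mul_left_cancel₀ hr0 h1
    · have h2 : g' t = t := by
        rw [map_mul, h'] at hg'
        have h1 : r * g' t = r * t := by linear_combination -hg'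
        exact mul_left_cancel₀ hr0 h1
      refine ⟨g * g', ?_, ?_⟩
      · rw [AlgEquiv.mul_apply, h', map_neg, h, neg_neg]
      · rw [AlgEquiv.mul_apply, h2, hg]
  have hτs : τ s = s ∨ τ s = -s := by
    have h1 : (τ s) ^ 2 = s ^ 2 := by
      rw [← map_pow, hss, map_div₀, map_sub, hτr, map_ofNat, map_ofNat]
    exact sq_eq_sq_iff_eq_or_eq_neg.1 h1
  have hinv : ∀ (g : Gal(L/ℚ)) (x y : L), g x = y → g⁻¹ y = x := by
    intro g x y h
    rw [← h, ← AlgEquiv.mul_apply, inv_mul_cancel, AlgEquiv.one_apply]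
  refine ⟨τ * σ⁻¹ * τ⁻¹ * σ, ?_, ?_⟩
  · have e : (τ * σ⁻¹ * τ⁻¹ * σ) s = τ (σ⁻¹ (τ⁻¹ s')) := by
      rw [AlgEquiv.mul_apply, AlgEquiv.mul_apply, AlgEquiv.mul_apply]
    have hσ' : σ⁻¹ s' = s := hinv σ s s' rfl
    rw [e]
    rcases hτs with h | h
    · have h1 : τ s' = -s' := by
        have h2 : s * τ s' = s * (-s') := by
          have h3 := hτt
          rw [ht, map_mul, h] at h3
          rw [h3]
          ring
        exact mul_left_cancel₀ hs0 h2
      have h2 : τ⁻¹ s' = -s' := by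
        have h3 := hinv τ s' (-s') h1
        rw [map_neg] at h3
        linear_combination -h3
      rw [h2, map_neg, hσ', map_neg, h]
    · have h1 : τ s' = s' := by
        have h2 : s * τ s' = s * s' := by
          have h3 := hτt
          rw [ht, map_mul, h] at h3
          linear_combination -h3
        exact mul_left_cancel₀ hs0 h2
      rw [hinv τ s' s' h1, hσ', h]
  · intro N z hN hz
    have : NeZero N := ⟨hN⟩
    have h1 : hz.autToPow ℚ (τ * σ⁻¹ * τ⁻¹ * σ) = 1 := by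
      rw [map_mul, map_mul, map_mul, map_inv, map_inv]
      rw [mul_assoc, mul_assoc, mul_comm, mul_assoc, mul_assoc]
      simp
    have h2 := hz.autToPow_spec ℚ (τ * σ⁻¹ * τ⁻¹ * σ)
    rw [h1, Units.val_one, ZMod.val_one_eq_one_mod] at h2
    rw [← h2]
    conv_lhs => rw [hz.eq_orderOf]
    rw [pow_mod_orderOf, pow_one]

end grp

end Pool.Agent.R494.SQ
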