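import Pool.Agent.R494.SQ3
import Pool.Agent.R494.SQ5
import Pool.Agent.R494.SQ6
import Pool.Agent.Y142.DensB
import Pool.Agent.Y302.CQ.CHE

/-!
The primes at which the two diagonals differ have positive density.
-/

set_option autoImplicit false

open scoped Classical

namespace Pool.Agent.R494.SQ

open Finset Filter Topology NumberField
open Pool.Agent.W401.Cheb (HasFrob xp)
open Pool.Agent.Y703.CQ (Sp nr S_CHE)
open Pool.Agent.Y495.CX.Few (PN)

theorem coe_smul' {L : Type} [Field L] [NumberField L] (σ : Gal(L/ℚ)) (x : 𝓞 L) :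
    ((σ • x : 𝓞 L) : L) = σ (x : L) := rfl

theorem mem_of_pow {p : ℕ} [Fact p.Prime] {x : AlgebraicClosure (ZMod p)} (hx : x ^ p = x) :
    ∃ a : ZMod p, algebraMap (ZMod p) (AlgebraicClosure (ZMod p)) a = x := by
  have h1 : x ∈ (⊥ : Subfield (AlgebraicClosure (ZMod p))) :=
    (Subfield.mem_bot_iff_pow_eq_self (AlgebraicClosure (ZMod p)) p).2 hx
  rw [← ZMod.fieldRange_castHom_eq_bot p] at h1
  obtain ⟨a, ha⟩ := h1
  refine ⟨a, ?_⟩
  rw [← ha]
  have e : algebraMap (ZMod p) (AlgebraicClosure (ZMod p)) =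
    ZMod.castHom (dvd_refl p) (AlgebraicClosure (ZMod p)) := Subsingleton.elim _ _
  rw [e]

theorem frob_facts {p : ℕ} [Fact p.Prime] {N : ℕ} (hN : 14 ∣ N) {L : Type} [Field L]
    [NumberField L] {s z : L} (hs : s ^ 4 + 7 * s ^ 2 + 14 = 0) (hz : IsPrimitiveRoot z N)
    {c : Gal(L/ℚ)} (hcs : c s = -s) (hcz : c z = z)
    (φ : 𝓞 L →+* AlgebraicClosure (ZMod p)) (hφ : HasFrob p φ c) (hpN : ¬ p ∣ N) :
    N ∣ p - 1 ∧ ∃ g : ZMod p, (2 * g + 7) ^ 2 = -7 ∧ ¬ IsSquare g := by
  have hpp : p.Prime := Fact.out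
  have hN0 : N ≠ 0 := fun h => hpN (h ▸ dvd_zero p)
  have hNpos : 0 < N := Nat.pos_of_ne_zero hN0
  have hk : ∀ m : ℕ, ((m : ℕ) : AlgebraicClosure (ZMod p)) = 0 ↔ p ∣ m := fun m =>
    CharP.cast_eq_zero_iff (AlgebraicClosure (ZMod p)) p m
  constructor
  · -- roots of unity
    have hzi : IsIntegral ℤ z := hz.isIntegral hNpos
    set zO : 𝓞 L := ⟨z, hzi⟩ with hzO
    have hzN : zO ^ N = 1 := RingOfIntegers.ext (by
      show z ^ N = 1
      exact hz.pow_eq_one)
    have h1 : φ zO ^ p = φ zO := by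
      rw [← hφ]
      congr 1
      exact RingOfIntegers.ext hcz
    have h0 : φ zO ≠ 0 := by
      intro h
      have h2 := congrArg φ hzN
      rw [map_pow, h, map_one, zero_pow hN0] at h2
      exact zero_ne_one h2
    have h2 : φ zO ^ (p - 1) = 1 := by
      have h3 : φ zO ^ (p - 1) * φ zO = 1 * φ zO := by
        rw [← pow_succ, Nat.sub_add_cancel hpp.one_le, h1, one_mul]
      exact mul_right_cancel₀ h0 h3
    -- the order
    have h3 : ∀ k : ℕ, φ zO ^ k = 1 → N ∣ k := by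
      intro k hk1
      by_contra hNk
      have h4 : zO ^ k ≠ 1 := by
        intro h5
        apply hNk
        apply hz.dvd_of_pow_eq_one
        have := congrArg (fun x : 𝓞 L => (x : L)) h5
        simp only [map_pow, map_one] at this
        exact this
      have h5 : (∑ i ∈ range N, (zO ^ k) ^ i) * (zO ^ k - 1) = (zO ^ k) ^ N - 1 :=
        geom_sum_mul _ _
      have h6 : (zO ^ k) ^ N = 1 := by rw [← pow_mul, mul_comm, pow_mul, hzN, one_pow]
      rw [h6, sub_self] at h5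
      rcases mul_eq_zero.1 h5 with h7 | h7
      · have h8 := congrArg φ h7
        rw [map_sum, map_zero] at h8
        simp only [map_pow, hk1, one_pow, sum_const, card_range, nsmul_eq_mul, mul_one] at h8
        exact hpN ((hk N).1 h8)
      · exact h4 (sub_eq_zero.1 h7)
    exact h3 _ h2
  · -- the square root
    have h14 : ((14 : ℕ) : AlgebraicClosure (ZMod p)) ≠ 0 := fun h =>
      hpN (((hk 14).1 h).trans hN)
    have h2' : ((2 : ℕ) : AlgebraicClosure (ZMod p)) ≠ 0 := fun h =>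
      hpN ((((hk 2).1 h).trans (by norm_num)).trans hN)
    have hsi : IsIntegral ℤ s := by
      refine ⟨Polynomial.X ^ 4 + 7 * Polynomial.X ^ 2 + 14, ?_, ?_⟩
      · monicity!
      · simpa using hs
    set sO : 𝓞 L := ⟨s, hsi⟩ with hsO
    have hsO4 : sO ^ 4 + 7 * sO ^ 2 + 14 = 0 := RingOfIntegers.ext (by
      show algebraMap (𝓞 L) L (sO ^ 4 + 7 * sO ^ 2 + 14) = algebraMap (𝓞 L) L 0
      rw [map_add, map_add, map_mul, map_pow, map_pow, map_ofNat, map_ofNat, map_zero]
      exact hs)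
    set S := φ sO with hS
    have hS4 : S ^ 4 + 7 * S ^ 2 + 14 = 0 := by
      have := congrArg φ hsO4
      rw [map_add, map_add, map_mul, map_pow, map_pow, map_ofNat, map_ofNat, map_zero] at this
      exact this
    have hSp : S ^ p = -S := by
      rw [hS, ← hφ, ← map_neg]
      congr 1
      exact RingOfIntegers.ext hcs
    have hS0 : S ≠ 0 := by
      intro h
      rw [h] at hS4
      apply h14
      push_cast
      linear_combination hS4
    have hS2p : (S ^ 2) ^ p = S ^ 2 := by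
      rw [← pow_mul, mul_comm, pow_mul, hSp, neg_sq]
    obtain ⟨g, hg⟩ := mem_of_pow hS2p
    have hinj := (algebraMap (ZMod p) (AlgebraicClosure (ZMod p))).injective
    have h2z : (2 : ZMod p) ≠ 0 := by
      intro h
      apply h2'
      have := congrArg (algebraMap (ZMod p) (AlgebraicClosure (ZMod p))) h
      rw [map_zero, map_ofNat] at this
      exact_mod_cast this
    refine ⟨g, ?_, ?_⟩
    · apply hinj
      rw [map_pow, map_add, map_mul, hg, map_neg, map_ofNat, map_ofNat]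
      linear_combination 4 * hS4
    · rintro ⟨h, hh⟩
      have h1 : (algebraMap (ZMod p) (AlgebraicClosure (ZMod p)) h) ^ 2 = S ^ 2 := by
        rw [← hg, hh, map_mul, sq]
      have h2 : S ^ p = S := by
        have h3 : (algebraMap (ZMod p) (AlgebraicClosure (ZMod p)) h) ^ p =
            algebraMap (ZMod p) (AlgebraicClosure (ZMod p)) h := by
          rw [← map_pow, ZMod.pow_card]
        rcases sq_eq_sq_iff_eq_or_eq_neg.1 h1 with h4 | h4
        · rw [← h4, h3]
        · have h5 : S = -(algebraMap (ZMod p) (AlgebraicClosure (ZMod p)) h) := by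
            rw [h4, neg_neg]
          rw [h5, ← map_neg, ← map_pow, ZMod.pow_card]
      rw [hSp] at h2
      have h3 : ((2 : ℕ) : AlgebraicClosure (ZMod p)) * S = 0 := by
        push_cast
        linear_combination -h2
      rcases mul_eq_zero.1 h3 with h4 | h4
      · exact h2' h4
      · exact hS0 h4

/-- **positive density** -/
theorem pos_of_frob (hCHE : S_CHE) {N : ℕ} (hN : 14 ∣ N) (hN0 : N ≠ 0) {d : ℕ → ZMod 2}
    (h : ∀ p : ℕ, (hp : p.Prime) → N ∣ p - 1 →
      (∃ g : ZMod p, (2 * g + 7) ^ 2 = -7 ∧ ¬ IsSquare g) → BB d p) : Pos d := by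
  have : NeZero N := ⟨hN0⟩
  obtain ⟨s, hs⟩ := exists_s N
  obtain ⟨z, hz⟩ := exists_z N
  obtain ⟨c, hcs, hcz⟩ := exists_c hs
  have hcz' := hcz N z hN0 hz
  set C : Set Gal(LL' N/ℚ) := {g | ∃ t : Gal(LL' N/ℚ), g = t * c * t⁻¹} with hC
  have hCc : ∀ σ ∈ C, ∀ τ : Gal(LL' N/ℚ), τ⁻¹ * σ * τ ∈ C := by
    rintro σ ⟨t, rfl⟩ τ
    exact ⟨τ⁻¹ * t, by group⟩
  have hdens := Pool.Agent.Y142.dens_class (LL' N) C hCc (D := N) (Nat.pos_of_ne_zero hN0)
  set δ : ℝ := (Nat.card C : ℝ) / (Nat.card Gal(LL' N/ℚ) : ℝ) with hδ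
  have hδ0 : 0 < δ := by
    have hne : Nonempty C := ⟨⟨c, 1, by simp⟩⟩
    have h1 : 0 < Nat.card C := Nat.card_pos
    have h2 : 0 < Nat.card Gal(LL' N/ℚ) := Nat.card_pos
    positivity
  set A : ℕ → Prop := fun p => p.Prime ∧ ¬ p ∣ N ∧ ∃ σ ∈ C, xp (LL' N) σ p ≠ 0 with hA
  have hAB : ∀ p, A p → BB d p := by
    rintro p ⟨hp, hpN, σ, ⟨t, rfl⟩, hx⟩
    have : Fact p.Prime := ⟨hp⟩
    unfold xp at hx
    rw [dif_pos hp] at hx
    obtain ⟨⟨φ, hφ⟩⟩ := (Nat.card_ne_zero.1 hx).1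
    set φ' := Pool.Agent.W401.Cheb.tw φ t with hφ'
    have hfr : HasFrob p φ' c := by
      intro x
      rw [hφ', Pool.Agent.W401.Cheb.tw_apply, Pool.Agent.W401.Cheb.tw_apply, ← hφ]
      congr 1
      rw [← mul_smul, ← mul_smul]
      congr 1
      group
    obtain ⟨h1, h2⟩ := frob_facts hN hs hz hcs hcz' φ' hfr hpN
    exact h p hp h1 h2
  obtain ⟨c₀, Y₀, hc₀, hche⟩ := hCHE
  have hev : ∀ᶠ Y : ℕ in atTop, δ / 2 ≤
      (Nat.card {p : ℕ // p ≤ Y ∧ p.Prime ∧ ¬ p ∣ N ∧ ∃ σ ∈ C, xp (LL' N) σ p ≠ 0} : ℝ) /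
      (Nat.primeCounting Y : ℝ) := hdens.eventually (eventually_ge_nhds (by linarith))
  obtain ⟨Y₁, hY₁⟩ := eventually_atTop.1 hev
  have hcnt : ∀ Y, max (max Y₀ Y₁) 2 ≤ Y →
      (δ / 2 * c₀) * Y / Real.log Y ≤ (((range (Y + 1)).filter A).card : ℝ) := by
    intro Y hY
    have hY0 : Y₀ ≤ Y := le_trans (le_max_left _ _) (le_trans (le_max_left _ _) hY)
    have hY1 : Y₁ ≤ Y := le_trans (le_max_right _ _) (le_trans (le_max_left _ _) hY)
    have hY2 : 2 ≤ Y := le_trans (le_max_right _ _) hY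
    have h1 := hche Y hY0 1 (by norm_num)
    have h2 := hY₁ Y hY1
    have h3 : ((((range (Y + 1)).filter fun p => p.Prime ∧ p % 56 = 1 % 56).card : ℕ) : ℝ) ≤
        (Nat.primeCounting Y : ℝ) := by
      have h4 : ((range (Y + 1)).filter fun p => p.Prime ∧ p % 56 = 1 % 56).card ≤
          ((range (Y + 1)).filter Nat.Prime).card :=
        card_le_card (monotone_filter_right _ fun p _ hp => hp.1)
      have h5 : Nat.primeCounting Y = ((range (Y + 1)).filter Nat.Prime).card := by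
        unfold Nat.primeCounting Nat.primeCounting'
        rw [Nat.count_eq_card_filter_range]
      rw [h5]
      exact_mod_cast h4
    have hpc : (0 : ℝ) < (Nat.primeCounting Y : ℝ) := by
      have hl : 0 < Real.log Y := Real.log_pos (by
        have : (2 : ℝ) ≤ Y := by exact_mod_cast hY2
        linarith)
      have : (0 : ℝ) < Y := by
        have : 0 < Y := by omega
        exact_mod_cast this
      refine lt_of_lt_of_le ?_ (h1.trans h3)
      positivity
    rw [le_div_iff₀ hpc] at h2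
    have h6 : Nat.card {p : ℕ // p ≤ Y ∧ p.Prime ∧ ¬ p ∣ N ∧ ∃ σ ∈ C, xp (LL' N) σ p ≠ 0} =
        ((range (Y + 1)).filter A).card := by
      refine Nat.subtype_card _ fun p => ?_
      rw [mem_filter, mem_range]
      exact ⟨fun h => ⟨by omega, h.2⟩, fun h => ⟨by omega, h.2⟩⟩
    rw [h6] at h2
    refine le_trans ?_ h2
    have h7 := mul_le_mul_of_nonneg_left (h1.trans h3) (show (0 : ℝ) ≤ δ / 2 by positivity)
    refine le_trans (le_of_eq ?_) h7
    ring
  have hA0 : ¬ A 0 := fun h => by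
    have := h.1
    norm_num at this
  obtain ⟨C', hC'⟩ := mertens_all (A := A) (c := δ / 2 * c₀) (by positivity)
    (fun Y hY => by convert hcnt Y hY) hA0
  refine ⟨δ / 2 * c₀ / 4, C', by positivity, fun y hy => (hC' y hy).trans ?_⟩
  refine le_of_eq_of_le ?_ (sum_le_sum_of_subset_of_nonneg (s := (range (y + 1)).filter A)
    (t := (PN y).filter (BB d)) (f := fun p : ℕ => (1 : ℝ) / p) ?_ fun _ _ _ => by positivity)
  · congr!
  intro p hp'
  obtain ⟨hp1, hp2⟩ := Finset.mem_filter.1 hp'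
  have hp3 := mem_range.1 hp1
  have hpp := hp2.1
  rw [mem_filter]
  refine ⟨?_, hAB p hp2⟩
  unfold PN
  rw [mem_filter, mem_Icc]
  exact ⟨⟨hpp.one_lt.le, by omega⟩, hpp⟩

end Pool.Agent.R494.SQ
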