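import Pool.Agent.R494.SQ4
import Pool.Agent.R494.SQ7
import Pool.Agent.Y687.JQ.Fin

/-!
The joint law for a finite family of diagonal functions, all patterns, in terms of the numbers `D`.
-/

set_option autoImplicit false

open scoped Classical

namespace Pool.Agent.R494.SQ

open Finset Filter Topology
open Pool.Agent.Y703.CX (S_SIE)
open Pool.Agent.Y703.CQ
open Pool.Agent.Y687.JQ
open Pool.Agent.Y495.CX.Few (PN)

/-- the joint law for functions indexed by `Fin M` -/
theorem lawM {M : ℕ} (I K : Finset ℕ)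
    (F : Fin M → ℕ → ZMod 2) (V : Fin M → Finset ℕ) (W : Finset ℕ) (hO : Ok I K)
    (hW1 : ∀ u ∈ W, u.Prime ∧ u ≠ 2 ∧ u ≠ 7) (hW2 : ∀ i, V i ⊆ W)
    (hpos : ∀ i j, i ≠ j → Pos (dd F V i j)) : Tendsto
    (fun X : ℕ => (((SS I K X).filter (GdF F V)).card : ℝ) / ((SS I K X).card : ℝ))
    atTop (nhds (c2 ^ M)) :=
  t_DQF Pool.Agent.Y710.CQ.t_BIL Pool.Agent.Y356.CQ.t_EQ Pool.Agent.Y697.JQ.t_JLA
    Pool.Agent.Y391.CQ.t_CNT Pool.Agent.Y488.CX.t_SIE Pool.Agent.Y475.CQ.t_HAL
    Pool.Agent.Y697.JQ.t_JBAD Pool.Agent.Y362.CQ.t_FEW Pool.Agent.Y405.CQ.t_MER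
    Pool.Agent.Y302.CQ.t_CHE Pool.Agent.Y302.CQ.t_LOW
    Pool.Agent.Y948.CQ.t_C2 I K F V W hO hW1 hW2 hpos

/-- the difference of two diagonals, for any index type -/
noncomputable def di {ι : Type} (F : ι → ℕ → ZMod 2) (V : ι → Finset ℕ) (i j : ι)
    (p : ℕ) : ZMod 2 := F i p + F j p + ∑ u ∈ symmDiff (V i) (V j), nr p u

/-- the family is admissible: the masks consist of primes different from `2` and `7`, and the
diagonals differ on sets of positive density -/
structure Fa {ι : Type} (F : ι → ℕ → ZMod 2) (V : ι → Finset ℕ) : Prop where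
  pr : ∀ i, ∀ u ∈ V i, u.Prime ∧ u ≠ 2 ∧ u ≠ 7
  sep : ∀ i j, i ≠ j → Pos (di F V i j)

/-- the joint law -/
theorem lawS {ι : Type} (I K : Finset ℕ) (hO : Ok I K) {F : ι → ℕ → ZMod 2} {V : ι → Finset ℕ}
    (h : Fa F V) (P : Finset ι) : Tendsto
    (fun X : ℕ => (((SS I K X).filter fun S => ∀ i ∈ P, Gd (F i) (symmDiff S (V i))).card : ℝ) /
      ((SS I K X).card : ℝ)) atTop (nhds (c2 ^ P.card)) := by
  set e : Fin P.card ≃ P := P.equivFin.symm with he
  have h1 := lawM I K (fun k => F (e k)) (fun k => V (e k)) (P.biUnion V) hO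
    (fun u hu => by
      obtain ⟨i, -, hi⟩ := mem_biUnion.1 hu
      exact h.pr i u hi)
    (fun k => subset_biUnion_of_mem V (e k).2)
    (fun i j hij => h.sep _ _ fun h' => hij (e.injective (Subtype.ext h')))
  refine h1.congr fun X => ?_
  congr 2
  refine congrArg card (filter_congr fun S _ => ?_)
  unfold GdF
  constructor
  · intro h2 i hi
    have h3 := h2 (e.symm ⟨i, hi⟩)
    simp only [Equiv.apply_symm_apply] at h3
    exact h3
  · intro h2 k
    exact h2 _ (e k).2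

/-- all the patterns -/
theorem lawPQ {ι : Type} (I K : Finset ℕ) (hO : Ok I K) {F : ι → ℕ → ZMod 2} {V : ι → Finset ℕ}
    (h : Fa F V) (Q : Finset ι) : ∀ P : Finset ι, Disjoint P Q → Tendsto
    (fun X : ℕ => (((SS I K X).filter fun S => (∀ i ∈ P, Gd (F i) (symmDiff S (V i))) ∧
      ∀ i ∈ Q, ¬ Gd (F i) (symmDiff S (V i))).card : ℝ) /
      ((SS I K X).card : ℝ)) atTop (nhds (c2 ^ P.card * (1 - c2) ^ Q.card)) := by
  induction Q using Finset.induction_on with
  | empty =>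
    intro P _
    have h1 := lawS I K hO h P
    simpa using h1
  | insert q Q hq ih =>
    intro P hPQ
    rw [disjoint_insert_right] at hPQ
    have h1 := ih P hPQ.2
    have h2 := ih (insert q P) (disjoint_insert_left.2 ⟨hq, hPQ.2⟩)
    have h3 := h1.sub h2
    rw [card_insert_of_notMem hPQ.1] at h3
    rw [card_insert_of_notMem hq]
    have e : c2 ^ P.card * (1 - c2) ^ Q.card - c2 ^ (P.card + 1) * (1 - c2) ^ Q.card =
        c2 ^ P.card * (1 - c2) ^ (Q.card + 1) := by ring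
    rw [e] at h3
    refine h3.congr fun X => ?_
    rw [← sub_div]
    congr 1
    set T := (SS I K X).filter fun S => (∀ i ∈ P, Gd (F i) (symmDiff S (V i))) ∧
      ∀ i ∈ Q, ¬ Gd (F i) (symmDiff S (V i)) with hT
    have h4 := Finset.card_filter_add_card_filter_not (s := T)
      (fun S => Gd (F q) (symmDiff S (V q)))
    have e1 : T.filter (fun S => Gd (F q) (symmDiff S (V q))) =
        (SS I K X).filter fun S => (∀ i ∈ insert q P, Gd (F i) (symmDiff S (V i))) ∧
          ∀ i ∈ Q, ¬ Gd (F i) (symmDiff S (V i)) := by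
      rw [hT, filter_filter]
      refine filter_congr fun S _ => ?_
      rw [forall_mem_insert]
      tauto
    have e2 : T.filter (fun S => ¬ Gd (F q) (symmDiff S (V q))) =
        (SS I K X).filter fun S => (∀ i ∈ P, Gd (F i) (symmDiff S (V i))) ∧
          ∀ i ∈ insert q Q, ¬ Gd (F i) (symmDiff S (V i)) := by
      rw [hT, filter_filter]
      refine filter_congr fun S _ => ?_
      rw [forall_mem_insert]
      tauto
    rw [e1, e2] at h4
    rw [← h4]
    push_cast
    ring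

/-- in terms of the numbers -/
theorem lawD {ι : Type} (I K : Finset ℕ) (hO : Ok I K) {F : ι → ℕ → ZMod 2} {V : ι → Finset ℕ}
    (h : Fa F V) (P Q : Finset ι) (hPQ : Disjoint P Q) : Tendsto
    (fun X : ℕ => (((Icc 1 X).filter fun D => Squarefree D ∧ Cl I K D.primeFactors ∧
      (∀ i ∈ P, Gd (F i) (symmDiff D.primeFactors (V i))) ∧
      ∀ i ∈ Q, ¬ Gd (F i) (symmDiff D.primeFactors (V i))).card : ℝ) /
      (((Icc 1 X).filter fun D => Squarefree D ∧ Cl I K D.primeFactors).card : ℝ))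
      atTop (nhds (c2 ^ P.card * (1 - c2) ^ Q.card)) := by
  refine (lawPQ I K hO h Q P hPQ).congr fun X => ?_
  have e1 := Pool.Agent.Y514.CQ.card_eq I K X (fun S => (∀ i ∈ P, Gd (F i) (symmDiff S (V i))) ∧
      ∀ i ∈ Q, ¬ Gd (F i) (symmDiff S (V i)))
  have e2 := Pool.Agent.Y514.CQ.card_eq I K X (fun _ => True)
  rw [Finset.filter_true] at e2
  simp only [and_true] at e2
  rw [← e2]
  congr 2
  convert e1.symm

/-- the masks separate the same function -/
theorem pos_mask {e : Finset ℕ} (he : e.Nonempty) (hu : ∀ u ∈ e, u.Prime ∧ u ≠ 2 ∧ u ≠ 7) :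
    Pos fun p => ∑ u ∈ e, nr p u := by
  obtain ⟨C, hC⟩ := Pool.Agent.Y405.JQ.t_JMER e he hu
  refine ⟨1 / 16, C, by norm_num, fun y hy => ?_⟩
  have h1 := (abs_le.1 (hC y hy)).1
  have h3 : (range (y + 1)).filter (fun p => Sp p ∧ p ∉ e ∧ ∑ u ∈ e, nr p u ≠ 0) ⊆
      (PN y).filter (BB fun p => ∑ u ∈ e, nr p u) := by
    intro p hp
    obtain ⟨h4, h5⟩ := mem_filter.1 hp
    rw [mem_range] at h4
    rw [mem_filter]
    refine ⟨?_, h5.1, h5.2.2⟩
    unfold PN
    rw [mem_filter, mem_Icc]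
    exact ⟨⟨h5.1.1.one_lt.le, by omega⟩, h5.1.1⟩
  have h4 := sum_le_sum_of_subset_of_nonneg h3 (f := fun p : ℕ => (1 : ℝ) / p)
    fun _ _ _ => by positivity
  linarith

end Pool.Agent.R494.SQ
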