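import Pool.Agent.R494.SQ8
import Pool.Agent.Y703.CQ.Cor
import Pool.Agent.Z701.Fin

/-!
The diagonals of the curves `X_0(14)` and `X_0(49)` differ on a set of primes of positive density,
whatever the masks.
-/

set_option autoImplicit false

open scoped Classical

namespace Pool.Agent.R494.SQ

open Finset Filter Topology
open Pool.Agent.Y703.CQ (Sp nr S_CHE ff)

/-- the diagonal function for `X_0(49)` -/
noncomputable def q4 (p : ℕ) : ZMod 2 := if ∃ y : ZMod p, y ^ 4 = -7 then 0 else 1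

section

variable {p : ℕ} [hF : Fact p.Prime]

theorem negone (h8 : p % 8 = 1) : ∃ i : ZMod p, i ^ 2 = -1 := by
  have h := (ZMod.exists_sq_eq_neg_one_iff (p := p)).2 (by omega)
  obtain ⟨i, hi⟩ := h
  exact ⟨i, by rw [sq, ← hi]⟩

theorem q4_iff (h8 : p % 8 = 1) {r : ZMod p} (hr : r ^ 2 = -7) : q4 p = 0 ↔ IsSquare r := by
  obtain ⟨i, hi⟩ := negone h8
  have e : q4 p = 0 ↔ ∃ y : ZMod p, y ^ 4 = -7 := by
    unfold q4
    split_ifs with h
    · exact ⟨fun _ => h, fun _ => rfl⟩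
    · exact ⟨fun h' => absurd h' one_ne_zero, fun h' => absurd h' h⟩
  rw [e]
  constructor
  · rintro ⟨y, hy⟩
    have h1 : (y ^ 2 - r) * (y ^ 2 + r) = 0 := by linear_combination hy - hr
    rcases mul_eq_zero.1 h1 with h | h
    · exact ⟨y, by linear_combination -h⟩
    · exact ⟨i * y, by linear_combination h - y ^ 2 * hi⟩
  · rintro ⟨y, rfl⟩
    exact ⟨y, by linear_combination hr⟩

theorem sq2 (h8 : p % 8 = 1) : ∃ s : ZMod p, s ^ 2 = 2 := by
  have h := (ZMod.exists_sq_eq_two_iff (p := p) (by rintro rfl; omega)).2 (Or.inl h8)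
  obtain ⟨i, hi⟩ := h
  exact ⟨i, by rw [sq, ← hi]⟩

theorem two_ne' (h8 : p % 8 = 1) : (2 : ZMod p) ≠ 0 := by
  intro h
  have h1 : ((2 : ℕ) : ZMod p) = 0 := by exact_mod_cast h
  rw [ZMod.natCast_eq_zero_iff] at h1
  have := (Nat.prime_dvd_prime_iff_eq hF.out Nat.prime_two).1 h1
  omega

theorem ff_iff (hp : Sp p) {r w : ZMod p} (hr : r ^ 2 = -7) (hw : 2 * w = 1 + r) :
    ff p = 0 ↔ IsSquare w := by
  have h8 := hp.2.1
  have h2 := two_ne' h8
  have e1 : ff p = 0 ↔ 8 ∣ Pool.Agent.Y687.NN 1 p := by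
    unfold Pool.Agent.Y703.CQ.ff
    split_ifs with h
    · exact ⟨fun _ => h, fun _ => rfl⟩
    · exact ⟨fun h' => absurd h' one_ne_zero, fun h' => absurd h' h⟩
  have e2 := Pool.Agent.Z701.f_RTE p hp ∅ (by simp)
  have e3 : Pool.Agent.Z700.pr ∅ = 1 := by
    unfold Pool.Agent.Z700.pr
    exact Finset.prod_empty
  rw [e3] at e2
  have e4 : ff p = 0 ↔ ¬ Pool.Agent.Y700.Rt p 1 := by
    rw [e1, e2, not_not]
  rw [e4]
  unfold Pool.Agent.Y700.Rt
  push Not
  have hq : w ^ 2 = w - 2 := by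
    apply mul_left_cancel₀ (mul_ne_zero h2 h2)
    linear_combination (2 * w + 1 + r - 2) * hw + hr
  have hw0 : w ≠ 0 := by
    rintro rfl
    apply h2
    linear_combination hq
  obtain ⟨s, hs⟩ := sq2 h8
  have h3 : w ^ 3 = - w - 2 := by linear_combination (w + 1) * hq
  have h6 : w ^ 6 = 5 * w + 2 := by linear_combination (w ^ 3 - w - 2) * h3 + hq
  have h7 : w ^ 7 = 7 * w - 10 := by linear_combination w * h6 + 5 * hq
  have hk : (((1 : ℕ) : ZMod p)) = 1 := Nat.cast_one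
  constructor
  · rintro ⟨x, hx, t, ht⟩
    rw [hk] at hx
    have h4 : (x - w ^ 7) * (x + 13 + w ^ 7) = 0 := by
      linear_combination hx - (w ^ 7 + 7 * w - 10 + 13) * h7 - 49 * hq
    rcases mul_eq_zero.1 h4 with h | h
    · refine ⟨t / w ^ 3, ?_⟩
      rw [div_mul_div_comm, ← ht, eq_div_iff (mul_ne_zero (pow_ne_zero _ hw0) (pow_ne_zero _ hw0))]
      linear_combination -h
    · have h5 : x * w ^ 7 = 2 ^ 7 := by
        have : x = - 13 - w ^ 7 := by linear_combination h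
        rw [this]
        linear_combination (-13 - w ^ 7 - (7 * w - 10)) * h7 - 49 * hq
      have ht0 : t ≠ 0 := by
        rintro rfl
        rw [ht, mul_zero, zero_mul] at h5
        exact pow_ne_zero 7 h2 h5.symm
      refine ⟨s ^ 7 / (t * w ^ 3), ?_⟩
      rw [div_mul_div_comm, eq_div_iff (mul_ne_zero (mul_ne_zero ht0 (pow_ne_zero _ hw0))
        (mul_ne_zero ht0 (pow_ne_zero _ hw0)))]
      have e : s ^ 7 * s ^ 7 = 2 ^ 7 := by rw [← hs]; ring
      rw [e, ← h5, ht]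
      ring
  · rintro ⟨t, ht⟩
    refine ⟨w ^ 7, ?_, t ^ 7, ?_⟩
    · rw [hk, h7]
      linear_combination 49 * hq
    · rw [ht]
      ring

/-- at the primes of the Chebotarev set the two diagonals differ -/
theorem ff_q4 (hp : Sp p) {g : ZMod p} (hg : (2 * g + 7) ^ 2 = -7) (hn : ¬ IsSquare g) :
    ff p + q4 p = 1 := by
  have h8 := hp.2.1
  have h2 := two_ne' h8
  set r := 2 * g + 7 with hr
  set w := (1 + r) / 2 with hw
  have hw2 : 2 * w = 1 + r := by
    rw [hw]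
    field_simp
  have h1 := ff_iff hp hg hw2
  have h3 := q4_iff h8 hg
  have h4 : g = r * w := by
    apply mul_left_cancel₀ h2
    linear_combination -hg - r * hw2
  have h5 : ¬ (IsSquare r ↔ IsSquare w) := by
    intro h
    apply hn
    rw [h4]
    by_cases hs : IsSquare r
    · exact hs.mul (h.1 hs)
    · have hs' : ¬ IsSquare w := fun h' => hs (h.2 h')
      have hr0 : r ≠ 0 := by
        rintro h'
        exact hs (h' ▸ IsSquare.zero)
      have hw0 : w ≠ 0 := by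
        rintro h'
        exact hs' (h' ▸ IsSquare.zero)
      have a1 := quadraticChar_neg_one_iff_not_isSquare.2 hs
      have a2 := quadraticChar_neg_one_iff_not_isSquare.2 hs'
      rw [← quadraticChar_one_iff_isSquare (mul_ne_zero hr0 hw0), map_mul, a1, a2]
      norm_num
  have z : ∀ a b : ZMod 2, ¬ (b = 0 ↔ a = 0) → a + b = 1 := by decide
  apply z
  rw [h1, h3]
  exact h5

/-- the mask is trivial at the primes `p ≡ 1 mod 8 u` -/
theorem nr_zero {u : ℕ} (hu : u.Prime) (hu2 : u ≠ 2) (h8 : p % 8 = 1) (h : u ∣ p - 1) :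
    nr p u = 0 := by
  have : Fact u.Prime := ⟨hu⟩
  unfold Pool.Agent.Y703.CQ.nr
  rw [if_pos]
  have hp2 : p ≠ 2 := by
    rintro h'
    rw [h'] at h8
    omega
  have h1 : IsSquare (p : ZMod u) := by
    have h2 : ((p : ℕ) : ZMod u) = 1 := by
      have h3 : (((p - 1 : ℕ) : ℕ) : ZMod u) = 0 := (ZMod.natCast_eq_zero_iff _ _).2 h
      rw [Nat.cast_sub hF.out.one_le, Nat.cast_one] at h3
      exact sub_eq_zero.1 h3
    rw [h2]
    exact IsSquare.one
  exact (ZMod.exists_sq_eq_prime_iff_of_mod_four_eq_one (p := p) (q := u) (by omega) hu2).2 h1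

end

/-- the two diagonals differ, whatever the mask -/
theorem pos_mix (hCHE : S_CHE) {e : Finset ℕ} (hu : ∀ u ∈ e, u.Prime ∧ u ≠ 2 ∧ u ≠ 7) :
    Pos fun p => ff p + q4 p + ∑ u ∈ e, nr p u := by
  have hN : 14 ∣ 56 * ∏ u ∈ e, u := Dvd.dvd.mul_right (by norm_num) _
  have hN0 : 56 * ∏ u ∈ e, u ≠ 0 :=
    mul_ne_zero (by norm_num) (prod_ne_zero_iff.2 fun u hu' => (hu u hu').1.ne_zero)
  refine pos_of_frob hCHE hN hN0 fun p hp hd hg => ?_
  have : Fact p.Prime := ⟨hp⟩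
  obtain ⟨g, h1, h2⟩ := hg
  have h56 : 56 ∣ p - 1 := dvd_trans (dvd_mul_right _ _) hd
  have hp1 := hp.one_lt
  have hSp : Sp p := ⟨hp, by omega, Or.inl (by omega)⟩
  refine ⟨hSp, ?_⟩
  have h3 : ∑ u ∈ e, nr p u = 0 := sum_eq_zero fun u hu' =>
    nr_zero (hu u hu').1 (hu u hu').2.1 hSp.2.1
      (dvd_trans (dvd_trans (dvd_prod_of_mem (fun u => u) hu') (dvd_mul_left _ _)) hd)
  show ff p + q4 p + _ ≠ 0
  rw [h3, ff_q4 hSp h1 h2]
  decide

end Pool.Agent.R494.SQ
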