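import Mathlib
import Pool.Agent.TH709.RGap.Dens

set_option autoImplicit false

/-!
Iterating the IP version of the multidimensional Szemeredi theorem along a sequence of integers.
-/

namespace Pool.Agent.R494.Sz

open Finset Pool.Agent.TH709.RGap

/-- the value of a block -/
def val (x : ℕ → ℤ) (S : ℕ → Finset ℕ) (l : ℕ) : ℤ := ∑ i ∈ S l, x i

/-- the set of starting points after `k` steps -/
def stage {e : ℕ} {s : ℕ → ℕ} (A : Set (Fin e → ℤ))
    (F : (l : ℕ) → (Fin l → ℤ) → Fin (s l + 1) → Fin e → ℤ) (g : ℕ → ℤ) (k : ℕ) :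
    Set (Fin e → ℤ) :=
  {a | ∀ t : (l : ℕ) → Fin (s l + 1),
    a + ∑ l ∈ range k, g l • F l (fun i => g i) (t l) ∈ A}

theorem stage_congr {e : ℕ} {s : ℕ → ℕ} (A : Set (Fin e → ℤ))
    (F : (l : ℕ) → (Fin l → ℤ) → Fin (s l + 1) → Fin e → ℤ) (g g' : ℕ → ℤ) (k : ℕ)
    (h : ∀ l < k, g l = g' l) : stage A F g k = stage A F g' k := by
  unfold stage
  ext a
  simp only [Set.mem_ofPred_eq]
  refine forall_congr' fun t => ?_
  have : ∑ l ∈ range k, g l • F l (fun i => g i) (t l) =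
      ∑ l ∈ range k, g' l • F l (fun i => g' i) (t l) := by
    refine sum_congr rfl fun l hl => ?_
    have hl' := mem_range.1 hl
    rw [h l hl']
    congr 2
    ext i
    exact h i (lt_trans i.2 hl')
  rw [this]

theorem stage_zero {e : ℕ} {s : ℕ → ℕ} (A : Set (Fin e → ℤ))
    (F : (l : ℕ) → (Fin l → ℤ) → Fin (s l + 1) → Fin e → ℤ) (g : ℕ → ℤ) :
    stage A F g 0 = A := by
  unfold stage
  ext a
  simp

theorem stage_succ {e : ℕ} {s : ℕ → ℕ} (A : Set (Fin e → ℤ))
    (F : (l : ℕ) → (Fin l → ℤ) → Fin (s l + 1) → Fin e → ℤ) (g : ℕ → ℤ) (k : ℕ) :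
    stage A F g (k + 1) =
      {a | ∀ u : Fin (s k + 1), a + g k • F k (fun i => g i) u ∈ stage A F g k} := by
  unfold stage
  ext a
  simp only [Set.mem_ofPred_eq]
  constructor
  · intro h u t
    have h1 := h (Function.update t k u)
    rw [sum_range_succ] at h1
    simp only [Function.update_self] at h1
    have : ∑ l ∈ range k, g l • F l (fun i => g i) (Function.update t k u l) =
        ∑ l ∈ range k, g l • F l (fun i => g i) (t l) := by
      refine sum_congr rfl fun l hl => ?_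
      rw [Function.update_of_ne (ne_of_lt (mem_range.1 hl))]
    rw [this] at h1
    convert h1 using 1
    abel
  · intro h t
    have h1 := h (t k) t
    rw [sum_range_succ]
    convert h1 using 1
    abel

/-- the lower bounds for the densities -/
noncomputable def eta (s : ℕ → ℕ) (δ : ℝ) : ℕ → {x : ℝ // 0 < x}
  | 0 => if h : 0 < δ then ⟨δ, h⟩ else ⟨1, one_pos⟩
  | k + 1 => ⟨(ipr (s k) (eta s δ k).1 (eta s δ k).2).choose_spec.choose,
      (ipr (s k) (eta s δ k).1 (eta s δ k).2).choose_spec.choose_spec.1⟩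

/-- a finite history -/
structure Hist (x : ℕ → ℤ) {e : ℕ} {s : ℕ → ℕ} (A : Set (Fin e → ℤ))
    (F : (l : ℕ) → (Fin l → ℤ) → Fin (s l + 1) → Fin e → ℤ) (δ : ℝ) (k : ℕ)
    (S : ℕ → Finset ℕ) : Prop where
  ne : ∀ l < k, (S l).Nonempty
  lt : ∀ l, l + 1 < k → ∀ i ∈ S l, ∀ i' ∈ S (l + 1), i < i'
  dense : Dense (stage A F (val x S) k) (eta s δ k).1

theorem step (x : ℕ → ℤ) {e : ℕ} {s : ℕ → ℕ} (A : Set (Fin e → ℤ))
    (F : (l : ℕ) → (Fin l → ℤ) → Fin (s l + 1) → Fin e → ℤ) (δ : ℝ) (k : ℕ)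
    (S : ℕ → Finset ℕ) (h : Hist x A F δ k S) :
    ∃ S' : ℕ → Finset ℕ, (∀ l < k, S' l = S l) ∧ Hist x A F δ (k + 1) S' := by
  classical
  obtain ⟨n, hn⟩ : ∃ n : ℕ, ∀ l < k, ∀ i ∈ S l, i < n := by
    refine ⟨((range k).biUnion S).sup id + 1, fun l hl i hi => ?_⟩
    have : i ≤ ((range k).biUnion S).sup id :=
      Finset.le_sup (f := id) (mem_biUnion.2 ⟨l, mem_range.2 hl, hi⟩)
    omega
  have hspec := (ipr (s k) (eta s δ k).1 (eta s δ k).2).choose_spec.choose_spec.2
  set r := (ipr (s k) (eta s δ k).1 (eta s δ k).2).choose with hr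
  obtain ⟨I, hI, hI2⟩ := hspec e _ h.dense (F k (fun i => val x S i))
    (fun i : Fin r => x (n + i))
  set S' : ℕ → Finset ℕ := fun l => if l < k then S l else I.image (fun i : Fin r => n + (i : ℕ))
    with hS'
  have hlt : ∀ l < k, S' l = S l := fun l hl => if_pos hl
  have hk : S' k = I.image (fun i : Fin r => n + (i : ℕ)) := if_neg (lt_irrefl k)
  have hval : ∀ l < k, val x S' l = val x S l := by
    intro l hl
    unfold val
    rw [hlt l hl]
  have hvk : val x S' k = ∑ i ∈ I, x (n + i) := by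
    unfold val
    rw [hk, sum_image]
    intro i _ j _ hij
    exact Fin.ext (by simpa using hij)
  refine ⟨S', hlt, ?_, ?_, ?_⟩
  · intro l hl
    rcases Nat.lt_succ_iff_lt_or_eq.1 hl with h1 | h1
    · rw [hlt l h1]; exact h.ne l h1
    · rw [h1, hk]; exact hI.image _
  · intro l hl i hi i' hi'
    have hl1 : l < k := by omega
    rw [hlt l hl1] at hi
    by_cases h1 : l + 1 < k
    · rw [hlt _ h1] at hi'
      exact h.lt l h1 i hi i' hi'
    · have h2 : l + 1 = k := by omega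
      rw [h2, hk, mem_image] at hi'
      obtain ⟨j, _, rfl⟩ := hi'
      have := hn l hl1 i hi
      omega
  · rw [stage_succ]
    have e1 : stage A F (val x S') k = stage A F (val x S) k := stage_congr A F _ _ k hval
    have e2 : (fun i : Fin k => val x S' i) = fun i : Fin k => val x S i := by
      ext i
      exact hval i i.2
    rw [e1, e2, hvk]
    exact hI2

/-- the whole sequence of blocks -/
theorem main (s : ℕ → ℕ) (δ : ℝ) (hδ : 0 < δ) : ∃ η : ℕ → ℝ, (∀ k, 0 < η k) ∧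
    ∀ (e : ℕ) (A : Set (Fin e → ℤ)), Dense A δ →
    ∀ (F : (l : ℕ) → (Fin l → ℤ) → Fin (s l + 1) → Fin e → ℤ) (x : ℕ → ℤ),
      ∃ S : ℕ → Finset ℕ, (∀ l, (S l).Nonempty) ∧ (∀ l, ∀ i ∈ S l, ∀ i' ∈ S (l + 1), i < i') ∧
        ∀ k, Dense (stage A F (val x S) k) (η k) := by
  classical
  refine ⟨fun k => (eta s δ k).1, fun k => (eta s δ k).2, fun e A hA F x => ?_⟩
  have h0 : Hist x A F δ 0 (fun _ => ∅) := by
    refine ⟨fun l hl => absurd hl (Nat.not_lt_zero _), fun l hl => absurd hl (Nat.not_lt_zero _), ?_⟩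
    rw [stage_zero]
    have : (eta s δ 0).1 = δ := by
      simp only [eta, hδ, dif_pos]
    rw [this]
    exact hA
  let st : (k : ℕ) → {S : ℕ → Finset ℕ // Hist x A F δ k S} := fun k =>
    Nat.rec ⟨fun _ => ∅, h0⟩ (fun k S => ⟨(step x A F δ k S.1 S.2).choose,
      (step x A F δ k S.1 S.2).choose_spec.2⟩) k
  have hst : ∀ k, ∀ l < k, (st (k + 1)).1 l = (st k).1 l := fun k =>
    (step x A F δ k (st k).1 (st k).2).choose_spec.1
  have hst2 : ∀ l k, l < k → (st k).1 l = (st (l + 1)).1 l := by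
    intro l k hlk
    induction k with
    | zero => omega
    | succ k ih =>
      rcases Nat.lt_succ_iff_lt_or_eq.1 hlk with h1 | h1
      · rw [hst k l h1, ih h1]
      · rw [h1]
  set S : ℕ → Finset ℕ := fun l => (st (l + 1)).1 l with hS
  have hS2 : ∀ k, ∀ l < k, S l = (st k).1 l := fun k l hl => (hst2 l k hl).symm
  refine ⟨S, fun l => ?_, fun l i hi i' hi' => ?_, fun k => ?_⟩
  · exact (st (l + 1)).2.ne l (Nat.lt_succ_self l)
  · rw [hS2 (l + 2) l (by omega)] at hi
    rw [hS2 (l + 2) (l + 1) (by omega)] at hi'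
    exact (st (l + 2)).2.lt l (by omega) i hi i' hi'
  · have := (st k).2.dense
    rw [stage_congr A F (val x (st k).1) (val x S) k (fun l hl => by
      unfold val
      rw [hS2 k l hl])] at this
    exact this

end Pool.Agent.R494.Sz
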