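import Mathlib
import Pool.Agent.R494.SzTuple
import Pool.Agent.R494.Comb

set_option autoImplicit false

/-!
The multidimensional Szemeredi theorem along the vectors of consecutive prime gaps.
-/

namespace Pool.Agent.R494.Sz

open Finset Pool.Agent.TH709.RGap Pool.Agent.H752R3.MT Pool.Agent.W68.Mil Pool.Agent.R494.Comb

/-- the recurrence property of a block sequence -/
def Rec {e : ℕ} {s : ℕ → ℕ} (d : ℕ → ℕ) (A : Set (Fin e → ℤ))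
    (F : (l : ℕ) → (Fin l → ℤ) → Fin (s l + 1) → Fin e → ℤ) (η : ℕ → ℝ) (Z : ℕ → Finset ℕ) : Prop :=
  ∀ k, Dense (stage A F (fun l => ∑ a ∈ Z l, (d a : ℤ)) k) (η k)

theorem rec_closed {e : ℕ} {s : ℕ → ℕ} (d : ℕ → ℕ) (A : Set (Fin e → ℤ))
    (F : (l : ℕ) → (Fin l → ℤ) → Fin (s l + 1) → Fin e → ℤ) (η : ℕ → ℝ) (Z : ℕ → Finset ℕ)
    (h : ¬ Rec d A F η Z) :
    ∃ m, ∀ Z', Blk Z' → (∀ i < m, Z' i = Z i) → ¬ Rec d A F η Z' := by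
  unfold Rec at h
  push Not at h
  obtain ⟨k, hk⟩ := h
  refine ⟨k, fun Z' _ hZZ hR => hk ?_⟩
  have := hR k
  rw [stage_congr A F _ (fun l => ∑ a ∈ Z l, (d a : ℤ)) k (fun l hl => by
    rw [hZZ l hl])] at this
  exact this

theorem rec_exists (s : ℕ → ℕ) (δ : ℝ) (hδ : 0 < δ) : ∃ η : ℕ → ℝ, (∀ k, 0 < η k) ∧
    ∀ (e : ℕ) (A : Set (Fin e → ℤ)), Dense A δ →
    ∀ (F : (l : ℕ) → (Fin l → ℤ) → Fin (s l + 1) → Fin e → ℤ) (d : ℕ → ℕ)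
      (X : ℕ → Finset ℕ), Blk X → ∃ Y, Blk Y ∧ Le Y X ∧ Rec d A F η Y := by
  classical
  obtain ⟨η, hη, h⟩ := main s δ hδ
  refine ⟨η, hη, fun e A hA F d X hX => ?_⟩
  obtain ⟨S, hS1, hS2, hS⟩ := h e A hA F (fun i => ∑ a ∈ X i, (d a : ℤ))
  have hSB : Blk S := ⟨hS1, hS2⟩
  refine ⟨fun i => (S i).biUnion X, hSB.comp hX, fun i => ⟨S i, hS1 i, rfl⟩, fun k => ?_⟩
  have := hS k
  rw [stage_congr A F _ (fun l => ∑ a ∈ (S l).biUnion X, (d a : ℤ)) k (fun l _ => by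
    unfold val
    rw [sum_comp d hX])] at this
  exact this

/-- the final theorem -/
theorem sz : ∃ η : (ℕ → ℕ) → ℝ → ℕ → ℝ, (∀ s δ k, 0 < η s δ k) ∧
    ∀ (e : ℕ → ℕ) (A : (j : ℕ) → Set (Fin (e j) → ℤ)) (δ : ℕ → ℝ), (∀ j, 0 < δ j) →
    (∀ j, Dense (A j) (δ j)) →
    ∀ (s : ℕ → ℕ → ℕ) (F : (j l : ℕ) → (Fin l → ℤ) → Fin (s j l + 1) → Fin (e j) → ℤ)
      (d : ℕ → ℕ → ℕ), (∀ j a, 1 ≤ d j a) → ∀ (q : ℕ → ℕ), (∀ j, 1 ≤ q j) → ∀ b : ℕ → ℤ,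
      (∀ j, IsCoprime (b j) (q j : ℤ)) →
    ∃ W : ℕ → Finset ℕ, (∀ i, (W i).Nonempty) ∧ (∀ i, ∀ a ∈ W i, ∀ a' ∈ W (i + 1), a < a') ∧
      ∀ (j k : ℕ) (T : ℕ → Finset ℕ), (∀ l < k, (T l).Nonempty) → (∀ l < k, ∀ i ∈ T l, j ≤ i) →
        (∀ l, l + 1 < k → ∀ i ∈ T l, ∀ i' ∈ T (l + 1), i < i') →
        ∀ g : ℕ → ℤ, (∀ l, g l = ∑ i ∈ T l, ∑ a ∈ W i, (d j a : ℤ)) →
        (∀ R : ℕ, {n : ℕ | (n : ℤ) ≡ b j [ZMOD q j] ∧
          ∀ y : ℤ, |y| ≤ R → (Nat.Prime ((n : ℤ) + y).toNat ↔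
            ∃ m ≤ k, y = ∑ l ∈ range m, g l)}.Infinite) ∧
        Dense {a | ∀ t : (l : ℕ) → Fin (s j l + 1),
          a + ∑ l ∈ range k, g l • F j l (fun i => g i) (t l) ∈ A j} (η (s j) (δ j) k) := by
  classical
  choose! η hη h using rec_exists
  refine ⟨fun s δ k => if 0 < δ then η s δ k else 1, fun s δ k => ?_,
    fun e A δ hδ hA s F d hd q hq b hb => ?_⟩
  · beta_reduce
    split_ifs with h0
    · exact hη s δ h0 k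
    · exact one_pos
  obtain ⟨W, hW1, hW2, hW⟩ := combine d hd q hq b hb
    (fun j k g => Dense (stage (A j) (F j) g k) (η (s j) (δ j) k))
    (fun j k g g' hgg hD => by
      rw [stage_congr (A j) (F j) g g' k hgg] at hD
      exact hD)
    (fun j X hX => h (s j) (δ j) (hδ j) (e j) (A j) (hA j) (F j) (d j) X hX)
  refine ⟨W, hW1, hW2, fun j k T hT1 hT2 hT3 g hg => ?_⟩
  obtain ⟨h1, h2⟩ := hW j k T hT1 hT2 hT3
  have eg : (fun l => ∑ i ∈ T l, ∑ a ∈ W i, (d j a : ℤ)) = g := (funext hg).symm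
  refine ⟨fun R => ?_, ?_⟩
  · have := h1 R
    simp only [hg]
    exact this
  · rw [eg] at h2
    simp only [hδ j, if_true]
    exact h2

end Pool.Agent.R494.Sz
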